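import Pool.Agent.ZR.Defs

/-!
# `∑_{n ≤ x} μ(n) log(x/n)/n` is bounded
`∑_{n ≤ x} μ(n) G(x/n) = x` for `G(y) = ∑_{m ≤ y} y/m = y log y + γ y + O(1)`, and `|∑_{n ≤ x} μ(n)/n| ≤ 1`.
-/

set_option autoImplicit false

open Complex MeasureTheory Set Finset

namespace Pool.Agent.ZR

/-- `μ(n)/n` as an arithmetic function. -/
noncomputable def aa1_m : ArithmeticFunction ℝ :=
  ⟨fun n => ((ArithmeticFunction.moebius n : ℤ) : ℝ) / n, by simp⟩

/-- `1/n` as an arithmetic function. -/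
noncomputable def aa1_r : ArithmeticFunction ℝ := ⟨fun n => 1 / (n : ℝ), by simp⟩

lemma aa1_mul (n : ℕ) : (aa1_m * aa1_r) n = if n = 1 then 1 else 0 := by
  have h1 : (aa1_m * aa1_r) n =
      (((ArithmeticFunction.moebius * (ArithmeticFunction.zeta : ArithmeticFunction ℤ)) n : ℤ) : ℝ) / n := by
    rw [ArithmeticFunction.mul_apply, ArithmeticFunction.mul_apply, Int.cast_sum, Finset.sum_div]
    refine Finset.sum_congr rfl fun p hp => ?_
    obtain ⟨hp1, hp2⟩ := Nat.mem_divisorsAntidiagonal.mp hp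
    have h3 : p.2 ≠ 0 := by rintro h; rw [h, mul_zero] at hp1; exact hp2 hp1.symm
    have h4 : p.1 ≠ 0 := by rintro h; rw [h, zero_mul] at hp1; exact hp2 hp1.symm
    have e1 : aa1_m p.1 = ((ArithmeticFunction.moebius p.1 : ℤ) : ℝ) / p.1 := rfl
    have e2 : aa1_r p.2 = 1 / (p.2 : ℝ) := rfl
    rw [e1, e2, ArithmeticFunction.natCoe_apply, ArithmeticFunction.zeta_apply, if_neg h3, ← hp1]
    push_cast
    have h5 : (p.1 : ℝ) ≠ 0 := by exact_mod_cast h4
    have h6 : (p.2 : ℝ) ≠ 0 := by exact_mod_cast h3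
    field_simp
  rw [h1, ArithmeticFunction.moebius_mul_coe_zeta, ArithmeticFunction.one_apply]
  split_ifs with h
  · subst h; simp
  · simp

lemma aa1_harm (N : ℕ) : ∑ m ∈ Ioc 0 N, aa1_r m = (harmonic N : ℝ) := by
  induction N with
  | zero => simp
  | succ n ih =>
    rw [← Finset.insert_Ioc_right_eq_Ioc_add_one (by omega), Finset.sum_insert (by simp), ih, harmonic_succ]
    have : aa1_r (n + 1) = 1 / ((n + 1 : ℕ) : ℝ) := rfl
    rw [this]
    push_cast
    ring

/-- `∑_{n ≤ N} (μ(n)/n) H(N/n) = 1`. -/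
lemma aa1_one {N : ℕ} (hN : 1 ≤ N) :
    ∑ n ∈ Ioc 0 N, ((ArithmeticFunction.moebius n : ℤ) : ℝ) / n * (harmonic (N / n) : ℝ) = 1 := by
  have h := ArithmeticFunction.sum_Ioc_mul_eq_sum_sum aa1_m aa1_r N
  simp_rw [aa1_mul, aa1_harm] at h
  rw [Finset.sum_ite_eq' (Ioc 0 N) 1 (fun _ => (1:ℝ)), if_pos (by simp; omega)] at h
  exact h.symm

/-- `|∑_{n ≤ N} μ(n)/n| ≤ 2`. -/
lemma aa1_m_le (N : ℕ) : |∑ n ∈ Ioc 0 N, ((ArithmeticFunction.moebius n : ℤ) : ℝ) / n| ≤ 2 := by
  rcases Nat.eq_zero_or_pos N with rfl | hN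
  · simp
  have h := ArithmeticFunction.sum_Ioc_mul_zeta_eq_sum (R := ℤ) ArithmeticFunction.moebius N
  rw [ArithmeticFunction.moebius_mul_coe_zeta] at h
  simp_rw [ArithmeticFunction.one_apply] at h
  rw [Finset.sum_ite_eq' (Ioc 0 N) 1 (fun _ => (1:ℤ)), if_pos (by simp; omega)] at h
  have h' : (∑ n ∈ Ioc 0 N, ((ArithmeticFunction.moebius n : ℤ) : ℝ) * ((N / n : ℕ) : ℝ)) = 1 := by
    have := congrArg (fun z : ℤ => (z : ℝ)) h
    push_cast at this
    exact this.symm
  have hNr : (0:ℝ) < N := by exact_mod_cast hN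
  have key : (N : ℝ) * ∑ n ∈ Ioc 0 N, ((ArithmeticFunction.moebius n : ℤ) : ℝ) / n =
      1 + ∑ n ∈ Ioc 0 N, ((ArithmeticFunction.moebius n : ℤ) : ℝ) * ((N : ℝ) / n - ((N / n : ℕ) : ℝ)) := by
    rw [← h', ← Finset.sum_add_distrib, Finset.mul_sum]
    refine Finset.sum_congr rfl fun n _ => by ring
  have hb : |∑ n ∈ Ioc 0 N, ((ArithmeticFunction.moebius n : ℤ) : ℝ) * ((N : ℝ) / n - ((N / n : ℕ) : ℝ))| ≤ N := by
    refine (Finset.abs_sum_le_sum_abs _ _).trans ?_
    calc ∑ n ∈ Ioc 0 N, |((ArithmeticFunction.moebius n : ℤ) : ℝ) * ((N : ℝ) / n - ((N / n : ℕ) : ℝ))|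
        ≤ ∑ n ∈ Ioc 0 N, (1:ℝ) := by
          refine Finset.sum_le_sum fun n hn => ?_
          have hn0 : 0 < n := (Finset.mem_Ioc.mp hn).1
          rw [abs_mul]
          have e1 : |((ArithmeticFunction.moebius n : ℤ) : ℝ)| ≤ 1 := by
            have := ArithmeticFunction.abs_moebius_le_one (n := n)
            exact_mod_cast this
          have e2 : |(N : ℝ) / n - ((N / n : ℕ) : ℝ)| ≤ 1 := by
            have e3 : ((N / n : ℕ) : ℝ) = ((⌊(N : ℝ) / n⌋₊ : ℕ) : ℝ) := by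
              rw [Nat.floor_div_natCast, Nat.floor_natCast]
            rw [e3, abs_le]
            have e4 := Nat.floor_le (a := (N : ℝ) / n) (by positivity)
            have e5 := Nat.lt_floor_add_one ((N : ℝ) / n)
            constructor <;> linarith
          calc _ ≤ 1 * (1:ℝ) := mul_le_mul e1 e2 (abs_nonneg _) (by norm_num)
            _ = 1 := one_mul 1
      _ = N := by simp
  have h2 : |(N : ℝ) * ∑ n ∈ Ioc 0 N, ((ArithmeticFunction.moebius n : ℤ) : ℝ) / n| ≤ 1 + N := by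
    rw [key]
    refine (abs_add_le _ _).trans ?_
    rw [abs_one]
    linarith
  rw [abs_mul, abs_of_pos hNr] at h2
  have h3 : (1:ℝ) ≤ N := by exact_mod_cast hN
  by_contra hc
  push Not at hc
  nlinarith

/-- `|H(⌊y⌋) - γ - log y| ≤ 2/y` for `y ≥ 1`. -/
lemma aa1_gamma {y : ℝ} (hy : 1 ≤ y) :
    |(harmonic ⌊y⌋₊ : ℝ) - Real.eulerMascheroniConstant - Real.log y| ≤ 2 / y := by
  set N := ⌊y⌋₊ with hNdef
  have hN : 1 ≤ N := Nat.le_floor (by exact_mod_cast hy)
  have hNr : (1:ℝ) ≤ N := by exact_mod_cast hN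
  have h1 := Real.eulerMascheroniSeq_lt_eulerMascheroniConstant N
  have h2 := Real.eulerMascheroniConstant_lt_eulerMascheroniSeq' N
  unfold Real.eulerMascheroniSeq at h1
  unfold Real.eulerMascheroniSeq' at h2
  rw [if_neg (by omega)] at h2
  have hle : (N : ℝ) ≤ y := Nat.floor_le (by linarith)
  have hlt : y < N + 1 := Nat.lt_floor_add_one y
  have l1 : Real.log N ≤ Real.log y := Real.log_le_log (by linarith) hle
  have l2 : Real.log y ≤ Real.log (N + 1) := Real.log_le_log (by linarith) hlt.le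
  have l3 : Real.log (N + 1) - Real.log N ≤ 1 / N := by
    rw [← Real.log_div (by linarith) (by linarith)]
    have := Real.log_le_sub_one_of_pos (x := ((N : ℝ) + 1) / N) (by positivity)
    have e : ((N : ℝ) + 1) / N - 1 = 1 / N := by field_simp; ring
    linarith
  have l4 : 1 / (N : ℝ) ≤ 2 / y := by
    rw [div_le_div_iff₀ (by linarith) (by linarith)]
    linarith
  rw [abs_le]
  constructor <;> linarith

theorem T1_one : ∃ C : ℝ, 0 < C ∧ ∀ x : ℝ, 1 ≤ x → |T1 1 x| ≤ C := by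
  refine ⟨5, by norm_num, fun x hx => ?_⟩
  set N := ⌊x⌋₊ with hNdef
  have hN : 1 ≤ N := Nat.le_floor (by exact_mod_cast hx)
  have hx0 : (0:ℝ) < x := by linarith
  have hT : T1 1 x = ∑ n ∈ Ioc 0 N, ((ArithmeticFunction.moebius n : ℤ) : ℝ) / n * Real.log (x / n) := by
    unfold T1
    refine Finset.sum_congr ?_ fun _ _ => rfl
    ext n
    simp [Finset.mem_Ioc, Finset.mem_Icc, Nat.succ_le_iff, hNdef]
  have key : T1 1 x = 1 - Real.eulerMascheroniConstant *
      ∑ n ∈ Ioc 0 N, ((ArithmeticFunction.moebius n : ℤ) : ℝ) / n -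
      ∑ n ∈ Ioc 0 N, ((ArithmeticFunction.moebius n : ℤ) : ℝ) / n *
        ((harmonic (N / n) : ℝ) - Real.eulerMascheroniConstant - Real.log (x / n)) := by
    rw [hT, ← aa1_one hN, Finset.mul_sum, ← Finset.sum_sub_distrib, ← Finset.sum_sub_distrib]
    refine Finset.sum_congr rfl fun n _ => by ring
  have hb : |∑ n ∈ Ioc 0 N, ((ArithmeticFunction.moebius n : ℤ) : ℝ) / n *
        ((harmonic (N / n) : ℝ) - Real.eulerMascheroniConstant - Real.log (x / n))| ≤ 2 := by
    refine (Finset.abs_sum_le_sum_abs _ _).trans ?_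
    calc ∑ n ∈ Ioc 0 N, |((ArithmeticFunction.moebius n : ℤ) : ℝ) / n *
        ((harmonic (N / n) : ℝ) - Real.eulerMascheroniConstant - Real.log (x / n))|
        ≤ ∑ n ∈ Ioc 0 N, (2 / x) := by
          refine Finset.sum_le_sum fun n hn => ?_
          obtain ⟨hn0, hnN⟩ := Finset.mem_Ioc.mp hn
          have hnr : (0:ℝ) < n := by exact_mod_cast hn0
          have hnx : (n : ℝ) ≤ x := (by exact_mod_cast hnN : (n : ℝ) ≤ N).trans (Nat.floor_le hx0.le)
          have hy : 1 ≤ x / n := by rw [le_div_iff₀ hnr]; linarith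
          have e1 := aa1_gamma hy
          rw [Nat.floor_div_natCast, ← hNdef] at e1
          have e2 : |((ArithmeticFunction.moebius n : ℤ) : ℝ)| ≤ 1 := by
            have := ArithmeticFunction.abs_moebius_le_one (n := n)
            exact_mod_cast this
          rw [abs_mul, abs_div, abs_of_pos hnr]
          calc _ ≤ 1 / (n : ℝ) * (2 / (x / n)) :=
                mul_le_mul (div_le_div_of_nonneg_right e2 hnr.le) e1 (abs_nonneg _) (by positivity)
            _ = 2 / x := by field_simp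
      _ = N * (2 / x) := by simp
      _ ≤ x * (2 / x) := by
          have := Nat.floor_le hx0.le
          exact mul_le_mul_of_nonneg_right this (by positivity)
      _ = 2 := by field_simp
  have hg1 := Real.one_half_lt_eulerMascheroniConstant
  have hg2 := Real.eulerMascheroniConstant_lt_two_thirds
  have hm := aa1_m_le N
  rw [key]
  have h3 : |Real.eulerMascheroniConstant *
      ∑ n ∈ Ioc 0 N, ((ArithmeticFunction.moebius n : ℤ) : ℝ) / n| ≤ 2 := by
    rw [abs_mul, abs_of_pos (by linarith)]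
    nlinarith [abs_nonneg (∑ n ∈ Ioc 0 N, ((ArithmeticFunction.moebius n : ℤ) : ℝ) / n)]
  rw [abs_le] at h3 hb ⊢
  constructor <;> linarith [h3.1, h3.2, hb.1, hb.2]

end Pool.Agent.ZR
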