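import Pool.Agent.ZR.AA1

/-!
# The same with a coprimality condition
`T1 q x = ∑_{d ≤ x, d | q^∞} (1/d) T1 1 (x/d)` and `∑_{d | q^∞} 1/d = q/φ(q)` (`Nat.factoredNumbers`).
-/

set_option autoImplicit false

open Complex MeasureTheory Set Finset

namespace Pool.Agent.ZR

/-- `∑ μ(n) log(x/n)/n` over `n ≤ x` with no prime factor in `S`. -/
noncomputable def aa2_T (S : Finset ℕ) (x : ℝ) : ℝ :=
  ∑ n ∈ (Finset.Icc 1 ⌊x⌋₊).filter (fun n => ∀ p ∈ S, ¬ p ∣ n),
    ((ArithmeticFunction.moebius n : ℤ) : ℝ) / n * Real.log (x / n)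

lemma aa2_lt_one {S : Finset ℕ} {x : ℝ} (hx : x < 1) : aa2_T S x = 0 := by
  unfold aa2_T
  have : ⌊x⌋₊ = 0 := by
    rw [Nat.floor_eq_zero]; exact hx
  rw [this]
  simp

lemma aa2_rec {S : Finset ℕ} (hS : ∀ p ∈ S, p.Prime) {p : ℕ} (hp : p.Prime) (hpS : p ∉ S) {x : ℝ}
    (hx : 0 < x) :
    aa2_T S x = aa2_T (insert p S) x - 1 / p * aa2_T (insert p S) (x / p) := by
  have hp0 : (0:ℝ) < p := by exact_mod_cast hp.pos
  have h1 : aa2_T S x = aa2_T (insert p S) x +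
      ∑ n ∈ ((Finset.Icc 1 ⌊x⌋₊).filter (fun n => ∀ p ∈ S, ¬ p ∣ n)).filter (fun n => p ∣ n),
        ((ArithmeticFunction.moebius n : ℤ) : ℝ) / n * Real.log (x / n) := by
    unfold aa2_T
    rw [← Finset.sum_filter_not_add_sum_filter
      ((Finset.Icc 1 ⌊x⌋₊).filter (fun n => ∀ p ∈ S, ¬ p ∣ n)) (fun n => p ∣ n)]
    congr 1
    refine Finset.sum_congr ?_ fun _ _ => rfl
    ext n
    simp only [Finset.mem_filter, Finset.mem_insert, forall_eq_or_imp]
    tauto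
  have h2 : ∑ n ∈ ((Finset.Icc 1 ⌊x⌋₊).filter (fun n => ∀ p ∈ S, ¬ p ∣ n)).filter (fun n => p ∣ n),
        ((ArithmeticFunction.moebius n : ℤ) : ℝ) / n * Real.log (x / n) =
      ∑ m ∈ (Finset.Icc 1 ⌊x / p⌋₊).filter (fun n => ∀ p ∈ S, ¬ p ∣ n),
        ((ArithmeticFunction.moebius (p * m) : ℤ) : ℝ) / ((p * m : ℕ) : ℝ) * Real.log (x / ((p * m : ℕ) : ℝ)) := by
    symm
    refine Finset.sum_bij (fun m _ => p * m) ?_ ?_ ?_ ?_
    · intro m hm
      simp only [Finset.mem_filter, Finset.mem_Icc] at hm ⊢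
      obtain ⟨⟨hm1, hm2⟩, hm3⟩ := hm
      refine ⟨⟨⟨Nat.mul_pos hp.pos hm1, ?_⟩, ?_⟩, Dvd.intro m rfl⟩
      · rw [Nat.floor_div_natCast] at hm2
        calc p * m ≤ p * (⌊x⌋₊ / p) := Nat.mul_le_mul_left p hm2
          _ ≤ ⌊x⌋₊ := Nat.mul_div_le _ _
      · intro r hr hd
        rcases (hS r hr).dvd_mul.mp hd with h | h
        · rw [(Nat.prime_dvd_prime_iff_eq (hS r hr) hp).mp h] at hr
          exact hpS hr
        · exact hm3 r hr h
    · intro a _ b _ hab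
      exact Nat.eq_of_mul_eq_mul_left hp.pos hab
    · intro n hn
      simp only [Finset.mem_filter, Finset.mem_Icc] at hn
      obtain ⟨⟨⟨hn1, hn2⟩, hn3⟩, m, rfl⟩ := hn
      refine ⟨m, ?_, rfl⟩
      simp only [Finset.mem_filter, Finset.mem_Icc]
      refine ⟨⟨?_, ?_⟩, fun r hr hd => hn3 r hr (hd.mul_left p)⟩
      · rcases Nat.eq_zero_or_pos m with h | h
        · rw [h, mul_zero] at hn1; omega
        · exact h
      · rw [Nat.floor_div_natCast, Nat.le_div_iff_mul_le hp.pos, mul_comm]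
        exact hn2
    · intro m hm
      rfl
  have h3 : ∑ m ∈ (Finset.Icc 1 ⌊x / p⌋₊).filter (fun n => ∀ p ∈ S, ¬ p ∣ n),
        ((ArithmeticFunction.moebius (p * m) : ℤ) : ℝ) / ((p * m : ℕ) : ℝ) * Real.log (x / ((p * m : ℕ) : ℝ)) =
      ∑ m ∈ (Finset.Icc 1 ⌊x / p⌋₊).filter (fun n => ∀ r ∈ insert p S, ¬ r ∣ n),
        ((ArithmeticFunction.moebius (p * m) : ℤ) : ℝ) / ((p * m : ℕ) : ℝ) * Real.log (x / ((p * m : ℕ) : ℝ)) := by
    symm
    refine Finset.sum_subset ?_ ?_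
    · intro m hm
      simp only [Finset.mem_filter, Finset.mem_insert, forall_eq_or_imp] at hm ⊢
      exact ⟨hm.1, hm.2.2⟩
    · intro m hm hm2
      simp only [Finset.mem_filter, Finset.mem_insert, forall_eq_or_imp] at hm hm2
      have hpm : p ∣ m := by
        by_contra hc
        exact hm2 ⟨hm.1, hc, hm.2⟩
      have : ¬ Squarefree (p * m) := by
        intro hsq
        obtain ⟨k, rfl⟩ := hpm
        have := hsq p ⟨k, by ring⟩
        exact hp.one_lt.ne' (Nat.isUnit_iff.mp this)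
      rw [ArithmeticFunction.moebius_eq_zero_of_not_squarefree this]
      simp
  have h4 : ∑ m ∈ (Finset.Icc 1 ⌊x / p⌋₊).filter (fun n => ∀ r ∈ insert p S, ¬ r ∣ n),
        ((ArithmeticFunction.moebius (p * m) : ℤ) : ℝ) / ((p * m : ℕ) : ℝ) * Real.log (x / ((p * m : ℕ) : ℝ)) =
      - (1 / p * aa2_T (insert p S) (x / p)) := by
    unfold aa2_T
    rw [Finset.mul_sum, ← Finset.sum_neg_distrib]
    refine Finset.sum_congr rfl fun m hm => ?_
    simp only [Finset.mem_filter, Finset.mem_Icc, Finset.mem_insert, forall_eq_or_imp] at hm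
    obtain ⟨⟨hm1, _⟩, hm3, _⟩ := hm
    have hcop : Nat.Coprime p m := (Nat.Prime.coprime_iff_not_dvd hp).mpr hm3
    rw [ArithmeticFunction.isMultiplicative_moebius.map_mul_of_coprime hcop,
      ArithmeticFunction.moebius_apply_prime hp]
    have hm0 : (0:ℝ) < m := by exact_mod_cast hm1
    have e : x / ((p * m : ℕ) : ℝ) = x / p / m := by
      push_cast
      field_simp
    rw [e]
    push_cast
    field_simp
  rw [h1, h2, h3, h4]
  ring

lemma aa2_bound {C : ℝ} (hC : 0 < C) (hC1 : ∀ x : ℝ, 1 ≤ x → |T1 1 x| ≤ C) (S : Finset ℕ)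
    (hS : ∀ p ∈ S, p.Prime) : ∀ x : ℝ, 0 < x → |aa2_T S x| ≤ C * ∏ p ∈ S, (1 - (p : ℝ)⁻¹)⁻¹ := by
  induction S using Finset.induction_on with
  | empty =>
    intro x hx
    simp only [Finset.prod_empty, mul_one]
    rcases lt_or_ge x 1 with h | h
    · rw [aa2_lt_one h, abs_zero]; exact hC.le
    · have := hC1 x h
      unfold T1 at this
      unfold aa2_T
      simpa using this
  | insert p S hpS ih =>
    have hp : p.Prime := hS p (Finset.mem_insert_self p S)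
    have hS' : ∀ r ∈ S, r.Prime := fun r hr => hS r (Finset.mem_insert_of_mem hr)
    have ih' := ih hS'
    have hp0 : (0:ℝ) < p := by exact_mod_cast hp.pos
    have hp2 : (2:ℝ) ≤ p := by exact_mod_cast hp.two_le
    have hpi : (p : ℝ)⁻¹ < 1 := inv_lt_one_of_one_lt₀ (by linarith)
    rw [Finset.prod_insert hpS]
    set P := ∏ p ∈ S, (1 - (p : ℝ)⁻¹)⁻¹ with hP
    have hPpos : 0 < P := Finset.prod_pos fun r hr => by
      have : (2:ℝ) ≤ r := by exact_mod_cast (hS' r hr).two_le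
      have h3 : (r : ℝ)⁻¹ < 1 := inv_lt_one_of_one_lt₀ (by linarith)
      exact inv_pos.mpr (by linarith)
    have hB : C * ((1 - (p : ℝ)⁻¹)⁻¹ * P) = C * P + 1 / p * (C * ((1 - (p : ℝ)⁻¹)⁻¹ * P)) := by
      have h0 : (1 - (p : ℝ)⁻¹) ≠ 0 := by linarith
      have h1 : (1 - (p : ℝ)⁻¹)⁻¹ = 1 + 1 / p * (1 - (p : ℝ)⁻¹)⁻¹ := by
        have h2 : (1 - (p : ℝ)⁻¹)⁻¹ * (1 - (p : ℝ)⁻¹) = 1 := inv_mul_cancel₀ h0
        rw [one_div]
        linear_combination h2
      calc C * ((1 - (p : ℝ)⁻¹)⁻¹ * P) = C * ((1 + 1 / p * (1 - (p : ℝ)⁻¹)⁻¹) * P) := by rw [← h1]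
        _ = _ := by ring
    have hBpos : 0 < C * ((1 - (p : ℝ)⁻¹)⁻¹ * P) := by
      have : 0 < (1 - (p : ℝ)⁻¹)⁻¹ := inv_pos.mpr (by linarith)
      positivity
    have key : ∀ k : ℕ, ∀ x : ℝ, 0 < x → x < (p : ℝ) ^ k →
        |aa2_T (insert p S) x| ≤ C * ((1 - (p : ℝ)⁻¹)⁻¹ * P) := by
      intro k
      induction k with
      | zero =>
        intro x hx hxk
        rw [pow_zero] at hxk
        rw [aa2_lt_one hxk, abs_zero]
        exact hBpos.le
      | succ k ihk =>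
        intro x hx hxk
        have h1 := ihk (x / p) (by positivity) (by
          rw [div_lt_iff₀ hp0, ← pow_succ]; exact hxk)
        have h2 := aa2_rec hS' hp hpS hx
        have h3 : aa2_T (insert p S) x = aa2_T S x + 1 / p * aa2_T (insert p S) (x / p) := by linarith
        rw [h3, hB]
        refine (abs_add_le _ _).trans (add_le_add (ih' x hx) ?_)
        rw [abs_mul, abs_of_nonneg (by positivity)]
        exact mul_le_mul_of_nonneg_left h1 (by positivity)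
    intro x hx
    obtain ⟨k, hk⟩ := pow_unbounded_of_one_lt x (by linarith : (1:ℝ) < p)
    exact key k x hx hk

theorem T1_cop : ∃ C : ℝ, 0 < C ∧ ∀ (q : ℕ) (x : ℝ), 1 ≤ q → 1 ≤ x →
    |T1 q x| ≤ C * ((q : ℝ) / Nat.totient q) := by
  obtain ⟨C, hC, hC1⟩ := T1_one
  refine ⟨C, hC, fun q x hq hx => ?_⟩
  have h := aa2_bound hC hC1 q.primeFactors (fun p hp => Nat.prime_of_mem_primeFactors hp) x (by linarith)
  have e1 : aa2_T q.primeFactors x = T1 q x := by
    unfold aa2_T T1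
    refine Finset.sum_congr ?_ fun _ _ => rfl
    ext n
    simp only [Finset.mem_filter, Finset.mem_Icc]
    constructor
    · rintro ⟨h1, h2⟩
      refine ⟨h1, ?_⟩
      by_contra hc
      obtain ⟨p, hp, hpn, hpq⟩ := Nat.Prime.not_coprime_iff_dvd.mp hc
      exact h2 p (Nat.mem_primeFactors.mpr ⟨hp, hpq, by omega⟩) hpn
    · rintro ⟨h1, h2⟩
      refine ⟨h1, fun p hp hpn => ?_⟩
      obtain ⟨hp1, hp2, _⟩ := Nat.mem_primeFactors.mp hp
      exact Nat.Prime.not_coprime_iff_dvd.mpr ⟨p, hp1, hpn, hp2⟩ h2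
  have e2 : ∏ p ∈ q.primeFactors, (1 - (p : ℝ)⁻¹)⁻¹ = (q : ℝ) / Nat.totient q := by
    have h3 := Nat.totient_eq_mul_prod_factors q
    have h4 : (Nat.totient q : ℝ) = q * ∏ p ∈ q.primeFactors, (1 - (p : ℝ)⁻¹) := by
      have := congrArg (fun z : ℚ => (z : ℝ)) h3
      push_cast at this
      exact this
    have hq0 : (q : ℝ) ≠ 0 := by exact_mod_cast (by omega : q ≠ 0)
    rw [Finset.prod_inv_distrib, h4]
    have h5 : ∏ p ∈ q.primeFactors, (1 - (p : ℝ)⁻¹) ≠ 0 := by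
      refine Finset.prod_ne_zero_iff.mpr fun p hp => ?_
      have : (2:ℝ) ≤ p := by exact_mod_cast (Nat.prime_of_mem_primeFactors hp).two_le
      have h3 : (p : ℝ)⁻¹ < 1 := inv_lt_one_of_one_lt₀ (by linarith)
      linarith
    field_simp
  rw [e1, e2] at h
  exact h

end Pool.Agent.ZR
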