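import Pool.Agent.ZR.AA2

/-!
# Smooth weights
`g(log (e n)) = -g'(l) (l - log(en))... `: Taylor at `l`: for `v ≤ l`,
`g v = g'(l) (v - l) + ∫_v^l (w - v) g''(w) dw`. Hence the sum is
`-g'(l) T1 q (e^l/e) + ∫_{log e}^l g''(w) T1 q (e^w/e) dw`.
-/

set_option autoImplicit false

open Complex MeasureTheory Set Finset

namespace Pool.Agent.ZR

/-- Taylor's formula at the right end point. -/
lemma aa3_taylor {l B : ℝ} {g g' g'' : ℝ → ℝ} (h : Smo l B g g' g'') {v : ℝ} (hv : v ∈ Icc 0 l) :
    g v = -(g' l) * (l - v) + ∫ w in (0:ℝ)..l, max (w - v) 0 * g'' w := by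
  obtain ⟨hv0, hvl⟩ := hv
  have hcont : ContinuousOn (fun w => max (w - v) 0 * g'' w) (Icc 0 l) := by
    refine ContinuousOn.mul ?_ h.c
    exact (by fun_prop : Continuous (fun w : ℝ => max (w - v) 0)).continuousOn
  have hi : ∀ a b : ℝ, 0 ≤ a → a ≤ b → b ≤ l →
      IntervalIntegrable (fun w => max (w - v) 0 * g'' w) volume a b := by
    intro a b ha hab hb
    exact (hcont.mono (Icc_subset_Icc ha hb)).intervalIntegrable_of_Icc hab
  rw [← intervalIntegral.integral_add_adjacent_intervals (hi 0 v le_rfl hv0 hvl)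
    (hi v l hv0 hvl le_rfl)]
  have h1 : ∫ w in (0:ℝ)..v, max (w - v) 0 * g'' w = 0 := by
    have : ∫ w in (0:ℝ)..v, max (w - v) 0 * g'' w = ∫ w in (0:ℝ)..v, (0:ℝ) := by
      apply intervalIntegral.integral_congr
      intro w hw
      rw [uIcc_of_le hv0] at hw
      simp only
      rw [max_eq_right (by linarith [hw.2]), zero_mul]
    rw [this, intervalIntegral.integral_zero]
  have h2 : ∫ w in v..l, max (w - v) 0 * g'' w = ∫ w in v..l, (w - v) * g'' w := by
    apply intervalIntegral.integral_congr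
    intro w hw
    rw [uIcc_of_le hvl] at hw
    simp only
    rw [max_eq_left (by linarith [hw.1])]
  have h3 : ∫ w in v..l, (w - v) * g'' w = ((l - v) * g' l - g l) - ((v - v) * g' v - g v) := by
    refine intervalIntegral.integral_eq_sub_of_hasDerivAt (f := fun w => (w - v) * g' w - g w)
      ?_ ?_
    · intro w hw
      rw [uIcc_of_le hvl] at hw
      have hw' : w ∈ Icc 0 l := ⟨hv0.trans hw.1, hw.2⟩
      have e1 : HasDerivAt (fun w => w - v) 1 w := (hasDerivAt_id w).sub_const v
      have e2 := (e1.mul (h.h2 w hw')).sub (h.h1 w hw')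
      refine e2.congr_deriv ?_
      ring
    · refine ContinuousOn.intervalIntegrable_of_Icc hvl ?_
      refine ContinuousOn.mul ?_ (h.c.mono (Icc_subset_Icc_left hv0))
      exact (by fun_prop : Continuous (fun w : ℝ => w - v)).continuousOn
  rw [h1, h2, h3, h.e]
  ring

/-- The truncated sums. -/
lemma aa3_sum {q e N : ℕ} {w : ℝ} (he : 1 ≤ e) (hN : ⌊Real.exp w / e⌋₊ ≤ N) :
    ∑ n ∈ (Finset.Icc 1 N).filter (fun n => Nat.Coprime n q),
      ((ArithmeticFunction.moebius n : ℤ) : ℝ) / n * max (w - Real.log (e * n)) 0 =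
      T1 q (Real.exp w / e) := by
  have he0 : (0:ℝ) < e := by exact_mod_cast he
  have hx : 0 < Real.exp w / e := div_pos (Real.exp_pos _) he0
  unfold T1
  symm
  have hlog : ∀ n : ℕ, 1 ≤ n → Real.log (Real.exp w / e / n) = w - Real.log (e * n) := by
    intro n hn
    have hn0 : (0:ℝ) < n := by exact_mod_cast hn
    rw [div_div, Real.log_div (Real.exp_pos _).ne' (by positivity), Real.log_exp]
  rw [Finset.sum_congr rfl (g := fun n : ℕ =>
    ((ArithmeticFunction.moebius n : ℤ) : ℝ) / n * max (w - Real.log (e * n)) 0)]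
  · apply Finset.sum_subset
    · intro n hn
      rw [Finset.mem_filter, Finset.mem_Icc] at hn ⊢
      exact ⟨⟨hn.1.1, hn.1.2.trans hN⟩, hn.2⟩
    · intro n hn hn'
      rw [Finset.mem_filter, Finset.mem_Icc] at hn hn'
      have h1 : ⌊Real.exp w / e⌋₊ < n := by
        by_contra hcon
        exact hn' ⟨⟨hn.1.1, not_lt.1 hcon⟩, hn.2⟩
      have h2 : Real.exp w / e < n := (Nat.floor_lt hx.le).1 h1
      have h3 : w < Real.log (e * n) := by
        rw [div_lt_iff₀ he0] at h2
        rw [Real.lt_log_iff_exp_lt (by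
          have : (0:ℝ) < n := by exact_mod_cast hn.1.1
          positivity)]
        linarith [mul_comm (n:ℝ) e]
      rw [max_eq_right (by linarith), mul_zero]
  · intro n hn
    rw [Finset.mem_filter, Finset.mem_Icc] at hn
    rw [hlog n hn.1.1]
    have h2 : (n:ℝ) ≤ Real.exp w / e := (Nat.le_floor_iff hx.le).1 hn.1.2
    rw [le_div_iff₀ he0] at h2
    have hn0 : (0:ℝ) < n := by exact_mod_cast hn.1.1
    have h3 : Real.log (e * n) ≤ w := by
      rw [Real.log_le_iff_le_exp (by positivity)]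
      linarith [mul_comm (n:ℝ) e]
    rw [max_eq_left (by linarith)]

theorem smo_bound : ∃ C : ℝ, 0 < C ∧ ∀ (l B : ℝ) (g g' g'' : ℝ → ℝ) (q e : ℕ), 0 ≤ l →
    Smo l B g g' g'' → 1 ≤ q → 1 ≤ e →
    |∑ n ∈ (Finset.Icc 1 (⌊Real.exp l⌋₊ / e)).filter (fun n => Nat.Coprime n q),
      ((ArithmeticFunction.moebius n : ℤ) : ℝ) / n * g (Real.log (e * n))| ≤
      C * B * ((q : ℝ) / Nat.totient q) := by
  obtain ⟨C, hC, hT⟩ := T1_cop
  refine ⟨C, hC, ?_⟩
  intro l B g g' g'' q e hl h hq he
  have he0 : (0:ℝ) < e := by exact_mod_cast he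
  have hq0 : (0:ℝ) < q := by exact_mod_cast hq
  have hφ : (0:ℝ) < Nat.totient q := by exact_mod_cast Nat.totient_pos.2 hq
  set K : ℝ := C * ((q : ℝ) / Nat.totient q) with hK
  have hK0 : 0 ≤ K := by positivity
  have hT' : ∀ w : ℝ, |T1 q (Real.exp w / e)| ≤ K := by
    intro w
    rcases le_or_gt 1 (Real.exp w / e) with h1 | h1
    · exact hT q _ hq h1
    · have : ⌊Real.exp w / e⌋₊ = 0 := Nat.floor_eq_zero.2 h1
      unfold T1
      rw [this]
      simpa using hK0
  have hfl : ⌊Real.exp l⌋₊ / e = ⌊Real.exp l / e⌋₊ := (Nat.floor_div_natCast _ _).symm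
  rw [hfl]
  set N : ℕ := ⌊Real.exp l / e⌋₊ with hN
  have hNw : ∀ w, w ≤ l → ⌊Real.exp w / e⌋₊ ≤ N := by
    intro w hw
    apply Nat.floor_le_floor
    exact div_le_div_of_nonneg_right (Real.exp_le_exp.2 hw) he0.le
  have hmem : ∀ n ∈ (Finset.Icc 1 N).filter (fun n => Nat.Coprime n q),
      Real.log (e * n) ∈ Icc 0 l := by
    intro n hn
    rw [Finset.mem_filter, Finset.mem_Icc] at hn
    have hn1 : (1:ℝ) ≤ n := by exact_mod_cast hn.1.1
    have he1 : (1:ℝ) ≤ e := by exact_mod_cast he
    have h2 : (n:ℝ) ≤ Real.exp l / e :=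
      (Nat.le_floor_iff (div_pos (Real.exp_pos _) he0).le).1 hn.1.2
    rw [le_div_iff₀ he0] at h2
    constructor
    · exact Real.log_nonneg (by nlinarith)
    · rw [Real.log_le_iff_le_exp (by positivity)]
      linarith [mul_comm (n:ℝ) e]
  have hcont : ∀ n : ℕ, ContinuousOn (fun w => max (w - Real.log (e * n)) 0 * g'' w)
      (Icc 0 l) := by
    intro n
    refine ContinuousOn.mul ?_ h.c
    exact (by fun_prop : Continuous (fun w : ℝ => max (w - Real.log (e * n)) 0)).continuousOn
  have hsum : ∑ n ∈ (Finset.Icc 1 N).filter (fun n => Nat.Coprime n q),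
      ((ArithmeticFunction.moebius n : ℤ) : ℝ) / n * g (Real.log (e * n)) =
      -(g' l) * T1 q (Real.exp l / e) +
        ∫ w in (0:ℝ)..l, T1 q (Real.exp w / e) * g'' w := by
    have e1 : ∑ n ∈ (Finset.Icc 1 N).filter (fun n => Nat.Coprime n q),
        ((ArithmeticFunction.moebius n : ℤ) : ℝ) / n * g (Real.log (e * n)) =
        ∑ n ∈ (Finset.Icc 1 N).filter (fun n => Nat.Coprime n q),
          (-(g' l) * (((ArithmeticFunction.moebius n : ℤ) : ℝ) / n *
            max (l - Real.log (e * n)) 0) +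
          ∫ w in (0:ℝ)..l, ((ArithmeticFunction.moebius n : ℤ) : ℝ) / n *
            (max (w - Real.log (e * n)) 0 * g'' w)) := by
      apply Finset.sum_congr rfl
      intro n hn
      have hm := hmem n hn
      rw [aa3_taylor h hm, intervalIntegral.integral_const_mul,
        max_eq_left (by linarith [hm.2] : (0:ℝ) ≤ l - Real.log (e * n))]
      ring
    rw [e1, Finset.sum_add_distrib, ← Finset.mul_sum, aa3_sum he (hNw l le_rfl)]
    congr 1
    rw [← intervalIntegral.integral_finsetSum]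
    · apply intervalIntegral.integral_congr
      intro w hw
      rw [uIcc_of_le hl] at hw
      simp only
      rw [← aa3_sum he (hNw w hw.2), Finset.sum_mul]
      apply Finset.sum_congr rfl
      intro n hn
      ring
    · intro n hn
      exact ((hcont n).intervalIntegrable_of_Icc hl).const_mul _
  rw [hsum]
  have hint : IntervalIntegrable (fun w => T1 q (Real.exp w / e) * g'' w) volume 0 l := by
    have : IntervalIntegrable (fun w => ∑ n ∈ (Finset.Icc 1 N).filter (fun n => Nat.Coprime n q),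
        ((ArithmeticFunction.moebius n : ℤ) : ℝ) / n *
          (max (w - Real.log (e * n)) 0 * g'' w)) volume 0 l := by
      have hc : ContinuousOn (fun w => ∑ n ∈ (Finset.Icc 1 N).filter (fun n => Nat.Coprime n q),
        ((ArithmeticFunction.moebius n : ℤ) : ℝ) / n *
          (max (w - Real.log (e * n)) 0 * g'' w)) (Icc 0 l) := by
        apply continuousOn_finsetSum
        intro n hn
        exact continuousOn_const.mul (hcont n)
      exact hc.intervalIntegrable_of_Icc hl
    refine this.congr ?_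
    intro w hw
    rw [uIoc_of_le hl] at hw
    simp only
    rw [← aa3_sum he (hNw w hw.2), Finset.sum_mul]
    apply Finset.sum_congr rfl
    intro n hn
    ring
  have hg : IntervalIntegrable (fun w => K * |g'' w|) volume 0 l := by
    have hc : ContinuousOn (fun w => K * |g'' w|) (Icc 0 l) := continuousOn_const.mul h.c.abs
    exact hc.intervalIntegrable_of_Icc hl
  have hb2 : |∫ w in (0:ℝ)..l, T1 q (Real.exp w / e) * g'' w| ≤
      K * ∫ w in (0:ℝ)..l, |g'' w| := by
    refine (intervalIntegral.abs_integral_le_integral_abs hl).trans ?_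
    rw [← intervalIntegral.integral_const_mul]
    refine intervalIntegral.integral_mono_on hl hint.abs hg ?_
    intro w hw
    rw [abs_mul]
    exact mul_le_mul_of_nonneg_right (hT' w) (abs_nonneg _)
  have hb1 : |-(g' l) * T1 q (Real.exp l / e)| ≤ K * |g' l| := by
    rw [abs_mul, abs_neg, mul_comm K]
    exact mul_le_mul_of_nonneg_left (hT' l) (abs_nonneg _)
  calc |-(g' l) * T1 q (Real.exp l / e) + ∫ w in (0:ℝ)..l, T1 q (Real.exp w / e) * g'' w|
      ≤ |-(g' l) * T1 q (Real.exp l / e)| +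
        |∫ w in (0:ℝ)..l, T1 q (Real.exp w / e) * g'' w| := abs_add_le _ _
    _ ≤ K * |g' l| + K * ∫ w in (0:ℝ)..l, |g'' w| := add_le_add hb1 hb2
    _ = K * (|g' l| + ∫ w in (0:ℝ)..l, |g'' w|) := by ring
    _ ≤ K * B := mul_le_mul_of_nonneg_left h.b hK0
    _ = C * B * ((q : ℝ) / Nat.totient q) := by rw [hK]; ring

end Pool.Agent.ZR
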