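import Pool.Agent.ZR.AA3

/-!
# The numbers `y_q` of a product of two Möbius polynomials
`y_q = ∑_{q | hm} μ(h)f(log h) μ(m)g(log m)/(hm) = ∑_{d | q} z_{q/d} (μ(d)/d) ∑_{(n,q)=1} μ(n) g(log dn)/n`,
`z_e = ∑_{e | h} μ(h) f(log h)/h = (μ(e)/e) ∑_{(n,e)=1} μ(n) f(log en)/n`; `smo_bound`;
`1/(d φ(q/d)) ≤ (1/q)(q/φ(q))`.
-/

set_option autoImplicit false

open Complex MeasureTheory Set Finset

namespace Pool.Agent.ZR

theorem yq_shift (f g : ℝ → ℝ) (Nf Ng Y : ℕ) (κ : ℝ) (q : ℕ) :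
    yq (cnv f g Nf Ng) Y κ q = yq (cnv (fun v => f v * Real.exp (-(κ * v)))
      (fun v => g v * Real.exp (-(κ * v))) Nf Ng) Y 0 q := by
  unfold yq
  refine Finset.sum_congr rfl fun h hh => ?_
  simp only [Finset.mem_filter, Finset.mem_Icc] at hh
  have h0 : (0:ℝ) < h := by exact_mod_cast hh.1.1
  have e1 : cnv (fun v => f v * Real.exp (-(κ * v))) (fun v => g v * Real.exp (-(κ * v))) Nf Ng h =
      cnv f g Nf Ng h * (h : ℝ) ^ (-κ) := by
    unfold cnv
    rw [Finset.sum_mul]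
    refine Finset.sum_congr rfl fun p hp => ?_
    obtain ⟨hp1, hp2⟩ := Nat.mem_divisorsAntidiagonal.mp hp
    have h3 : 0 < p.2 := by
      rcases Nat.eq_zero_or_pos p.2 with h | h
      · rw [h, mul_zero] at hp1; exact absurd hp1.symm hp2
      · exact h
    have h4 : 0 < p.1 := by
      rcases Nat.eq_zero_or_pos p.1 with h | h
      · rw [h, zero_mul] at hp1; exact absurd hp1.symm hp2
      · exact h
    have h5 : (0:ℝ) < p.1 := by exact_mod_cast h4
    have h6 : (0:ℝ) < p.2 := by exact_mod_cast h3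
    split_ifs
    · unfold mug
      have e2 : (h : ℝ) ^ (-κ) = Real.exp (-(κ * Real.log p.1)) * Real.exp (-(κ * Real.log p.2)) := by
        rw [← hp1, Real.rpow_def_of_pos (by push_cast; positivity), ← Real.exp_add]
        congr 1
        push_cast
        rw [Real.log_mul h5.ne' h6.ne']
        ring
      rw [e2]
      ring
    · simp
  rw [e1]
  have e3 : (h : ℝ) ^ (-(1 + κ)) = (h : ℝ) ^ (-κ) * (h : ℝ) ^ (-(1 + 0) : ℝ) := by
    rw [← Real.rpow_add h0]
    congr 1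
    ring
  rw [e3]
  ring

lemma aa4_totient {d e : ℕ} (hd : 0 < d) (he : 0 < e) :
    Nat.totient (d * e) ≤ d * Nat.totient e := by
  have h1 := Nat.totient_eq_mul_prod_factors (d * e)
  have h2 := Nat.totient_eq_mul_prod_factors e
  have hde : d * e ≠ 0 := (Nat.mul_pos hd he).ne'
  have hsub : e.primeFactors ⊆ (d * e).primeFactors :=
    Nat.primeFactors_mono (Dvd.intro_left d rfl) hde
  have hb : ∀ p ∈ (d * e).primeFactors, 0 ≤ (1 - (p : ℚ)⁻¹) ∧ (1 - (p : ℚ)⁻¹) ≤ 1 := by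
    intro p hp
    have : (2:ℚ) ≤ p := by exact_mod_cast (Nat.prime_of_mem_primeFactors hp).two_le
    have h3 : (p : ℚ)⁻¹ < 1 := inv_lt_one_of_one_lt₀ (by linarith)
    have h4 : 0 < (p : ℚ)⁻¹ := by positivity
    constructor <;> linarith
  have h3 : ∏ p ∈ (d * e).primeFactors, (1 - (p : ℚ)⁻¹) ≤ ∏ p ∈ e.primeFactors, (1 - (p : ℚ)⁻¹) := by
    rw [← Finset.prod_sdiff hsub]
    have h5 : ∏ p ∈ (d * e).primeFactors \ e.primeFactors, (1 - (p : ℚ)⁻¹) ≤ 1 :=
      Finset.prod_le_one (fun p hp => (hb p (Finset.mem_sdiff.mp hp).1).1)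
        (fun p hp => (hb p (Finset.mem_sdiff.mp hp).1).2)
    have h6 : 0 ≤ ∏ p ∈ e.primeFactors, (1 - (p : ℚ)⁻¹) :=
      Finset.prod_nonneg fun p hp => (hb p (hsub hp)).1
    calc _ ≤ 1 * ∏ p ∈ e.primeFactors, (1 - (p : ℚ)⁻¹) := mul_le_mul_of_nonneg_right h5 h6
      _ = _ := one_mul _
  have h7 : ((Nat.totient (d * e) : ℕ) : ℚ) ≤ ((d * Nat.totient e : ℕ) : ℚ) := by
    push_cast
    rw [h1, h2]
    push_cast
    have h8 : (0:ℚ) ≤ (d : ℚ) * e := by positivity
    calc (d : ℚ) * e * ∏ p ∈ (d * e).primeFactors, (1 - (p : ℚ)⁻¹)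
        ≤ (d : ℚ) * e * ∏ p ∈ e.primeFactors, (1 - (p : ℚ)⁻¹) := mul_le_mul_of_nonneg_left h3 h8
      _ = _ := by ring
  exact_mod_cast h7

/-- The sum over the `b` with `gcd(b, q) = d`. -/
lemma aa4_gcd (g : ℝ → ℝ) (N : ℕ) {q d : ℕ} (hq : 1 ≤ q) (hd : d ∣ q) :
    ∑ b ∈ (Finset.Icc 1 N).filter (fun b => Nat.gcd b q = d), mug g b / b =
      ((ArithmeticFunction.moebius d : ℤ) : ℝ) / d *
        ∑ n ∈ (Finset.Icc 1 (N / d)).filter (fun n => Nat.Coprime n q),
          ((ArithmeticFunction.moebius n : ℤ) : ℝ) / n * g (Real.log (d * n)) := by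
  have hd0 : 0 < d := Nat.pos_of_dvd_of_pos hd (by omega)
  have h1 : ∑ b ∈ (Finset.Icc 1 N).filter (fun b => Nat.gcd b q = d), mug g b / b =
      ∑ b ∈ ((Finset.Icc 1 N).filter (fun b => Nat.gcd b q = d)).filter (fun b => Nat.Coprime (b / d) q),
        mug g b / b := by
    symm
    refine Finset.sum_subset (Finset.filter_subset _ _) ?_
    intro b hb hb2
    simp only [Finset.mem_filter, Finset.mem_Icc] at hb hb2
    obtain ⟨⟨hb1, _⟩, hg⟩ := hb
    have hnc : ¬ Nat.Coprime (b / d) q := fun hc => hb2 ⟨⟨⟨hb1, by assumption⟩, hg⟩, hc⟩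
    obtain ⟨p, hp, hpn, hpq⟩ := Nat.Prime.not_coprime_iff_dvd.mp hnc
    have hdb : d ∣ b := hg ▸ Nat.gcd_dvd_left b q
    have hcop : Nat.Coprime (b / d) (q / d) := by
      have := Nat.coprime_div_gcd_div_gcd (m := b) (n := q) (by rw [hg]; exact hd0)
      rwa [hg] at this
    have hpd : p ∣ d := by
      have : p ∣ d * (q / d) := by rw [Nat.mul_div_cancel' hd]; exact hpq
      rcases hp.dvd_mul.mp this with h | h
      · exact h
      · exact absurd (Nat.dvd_gcd hpn h) (by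
          rw [hcop]
          exact fun h1 => hp.one_lt.ne' (Nat.dvd_one.mp h1))
    have hnsq : ¬ Squarefree b := by
      intro hsq
      have h2 : p * p ∣ b := by
        have := Nat.mul_dvd_mul hpd hpn
        rwa [Nat.mul_div_cancel' hdb] at this
      have := hsq p h2
      exact hp.one_lt.ne' (Nat.isUnit_iff.mp this)
    unfold mug
    rw [ArithmeticFunction.moebius_eq_zero_of_not_squarefree hnsq]
    simp
  rw [h1, Finset.mul_sum]
  symm
  refine Finset.sum_bij (fun n _ => d * n) ?_ ?_ ?_ ?_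
  · intro n hn
    simp only [Finset.mem_filter, Finset.mem_Icc] at hn ⊢
    obtain ⟨⟨hn1, hn2⟩, hc⟩ := hn
    refine ⟨⟨⟨Nat.mul_pos hd0 hn1, ?_⟩, ?_⟩, ?_⟩
    · rw [Nat.le_div_iff_mul_le hd0] at hn2
      linarith [mul_comm n d]
    · obtain ⟨k, rfl⟩ := hd
      rw [Nat.gcd_mul_left]
      have : Nat.Coprime n k := Nat.Coprime.coprime_mul_left_right hc
      rw [this, mul_one]
    · rw [Nat.mul_div_cancel_left n hd0]; exact hc
  · intro a _ b _ hab
    exact Nat.eq_of_mul_eq_mul_left hd0 hab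
  · intro b hb
    simp only [Finset.mem_filter, Finset.mem_Icc] at hb
    obtain ⟨⟨⟨hb1, hb2⟩, hg⟩, hc⟩ := hb
    have hdb : d ∣ b := hg ▸ Nat.gcd_dvd_left b q
    refine ⟨b / d, ?_, Nat.mul_div_cancel' hdb⟩
    simp only [Finset.mem_filter, Finset.mem_Icc]
    exact ⟨⟨Nat.div_pos (Nat.le_of_dvd (by omega) hdb) hd0, Nat.div_le_div_right hb2⟩, hc⟩
  · intro n hn
    simp only [Finset.mem_filter, Finset.mem_Icc] at hn
    obtain ⟨⟨hn1, hn2⟩, hc⟩ := hn
    have hcd : Nat.Coprime d n := (Nat.Coprime.coprime_dvd_right hd hc).symm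
    unfold mug
    rw [ArithmeticFunction.isMultiplicative_moebius.map_mul_of_coprime hcd]
    push_cast
    have hd1 : (0:ℝ) < d := by exact_mod_cast hd0
    have hn0 : (0:ℝ) < n := by exact_mod_cast hn1
    field_simp

/-- `y_q` as a double sum. -/
lemma aa4_double (f g : ℝ → ℝ) {Nf Ng Y : ℕ} (q : ℕ) (hY : Nf * Ng ≤ Y) :
    yq (cnv f g Nf Ng) Y 0 q = ∑ b ∈ Finset.Icc 1 Ng, (mug g b / b) *
      ∑ a ∈ (Finset.Icc 1 Nf).filter (fun a => q ∣ a * b), mug f a / a := by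
  have h1 : yq (cnv f g Nf Ng) Y 0 q = ∑ h ∈ Finset.Icc 1 Y,
      ∑ p ∈ ((Finset.Icc 1 Nf) ×ˢ (Finset.Icc 1 Ng)).filter (fun p => p.1 * p.2 = h),
        if q ∣ p.1 * p.2 then mug f p.1 / p.1 * (mug g p.2 / p.2) else 0 := by
    unfold yq
    rw [Finset.sum_filter]
    refine Finset.sum_congr rfl fun h hh => ?_
    have hh1 : 1 ≤ h := (Finset.mem_Icc.mp hh).1
    have h0 : (0:ℝ) < h := by exact_mod_cast hh1
    have hset : ((Finset.Icc 1 Nf) ×ˢ (Finset.Icc 1 Ng)).filter (fun p : ℕ × ℕ => p.1 * p.2 = h) =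
        h.divisorsAntidiagonal.filter (fun p => p.1 ≤ Nf ∧ p.2 ≤ Ng) := by
      ext p
      simp only [Finset.mem_filter, Finset.mem_product, Finset.mem_Icc, Nat.mem_divisorsAntidiagonal]
      constructor
      · rintro ⟨⟨⟨h1, h2⟩, h3, h4⟩, h5⟩
        exact ⟨⟨h5, by omega⟩, h2, h4⟩
      · rintro ⟨⟨h5, _⟩, h2, h4⟩
        have : 0 < p.1 * p.2 := by omega
        exact ⟨⟨⟨Nat.pos_of_mul_pos_right this, h2⟩, Nat.pos_of_mul_pos_left this, h4⟩, h5⟩
    rw [hset, Finset.sum_filter]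
    unfold cnv
    split_ifs with hq
    · rw [Finset.sum_mul]
      refine Finset.sum_congr rfl fun p hp => ?_
      obtain ⟨hp1, hp2⟩ := Nat.mem_divisorsAntidiagonal.mp hp
      rw [hp1, if_pos hq]
      split_ifs
      · rw [← hp1, show (-(1 + 0) : ℝ) = -1 by norm_num, Real.rpow_neg_one]
        push_cast
        rw [mul_inv]
        ring
      · rw [zero_mul]
    · symm
      refine Finset.sum_eq_zero fun p hp => ?_
      obtain ⟨hp1, hp2⟩ := Nat.mem_divisorsAntidiagonal.mp hp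
      rw [hp1, if_neg hq]
      simp
  rw [h1, Finset.sum_fiberwise_of_maps_to (g := fun p : ℕ × ℕ => p.1 * p.2)]
  · rw [Finset.sum_product_right]
    refine Finset.sum_congr rfl fun b _ => ?_
    rw [Finset.mul_sum, Finset.sum_filter]
    refine Finset.sum_congr rfl fun a _ => ?_
    split_ifs
    · ring
    · rfl
  · intro p hp
    simp only [Finset.mem_product, Finset.mem_Icc] at hp ⊢
    exact ⟨Nat.mul_pos hp.1.1 hp.2.1, (Nat.mul_le_mul hp.1.2 hp.2.2).trans hY⟩

lemma aa4_B {l B : ℝ} {g g' g'' : ℝ → ℝ} (hl : 0 ≤ l) (h : Smo l B g g' g'') : 0 ≤ B := by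
  have h1 : 0 ≤ ∫ v in (0:ℝ)..l, |g'' v| :=
    intervalIntegral.integral_nonneg hl fun v _ => abs_nonneg _
  have := h.b
  linarith [abs_nonneg (g' l)]

theorem yq_bound : ∃ C : ℝ, 0 < C ∧ ∀ (lf Bf lg Bg : ℝ) (f f' f'' g g' g'' : ℝ → ℝ) (Y q : ℕ),
    0 ≤ lf → 0 ≤ lg → Smo lf Bf f f' f'' → Smo lg Bg g g' g'' → 1 ≤ q →
    ⌊Real.exp lf⌋₊ * ⌊Real.exp lg⌋₊ ≤ Y →
    |yq (cnv f g ⌊Real.exp lf⌋₊ ⌊Real.exp lg⌋₊) Y 0 q| ≤
      C * Bf * Bg * (1 / q) * ((q : ℝ) / Nat.totient q) ^ 2 *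
        ((q.divisors.filter (fun d => d ≤ ⌊Real.exp lg⌋₊)).card : ℝ) := by
  obtain ⟨C, hC, hS⟩ := smo_bound
  refine ⟨C ^ 2, by positivity, ?_⟩
  intro lf Bf lg Bg f f' f'' g g' g'' Y q hlf hlg hf hg hq hY
  set Nf := ⌊Real.exp lf⌋₊ with hNf
  set Ng := ⌊Real.exp lg⌋₊ with hNg
  have hBf := aa4_B hlf hf
  have hBg := aa4_B hlg hg
  have hq0 : (0:ℝ) < q := by exact_mod_cast hq
  have hφ : (0:ℝ) < Nat.totient q := by exact_mod_cast Nat.totient_pos.mpr hq
  rw [aa4_double f g q hY]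
  rw [← Finset.sum_fiberwise_of_maps_to (s := Finset.Icc 1 Ng)
    (t := q.divisors.filter (fun d => d ≤ Ng)) (g := fun b => Nat.gcd b q)]
  swap
  · intro b hb
    simp only [Finset.mem_Icc] at hb
    simp only [Finset.mem_filter, Nat.mem_divisors]
    exact ⟨⟨Nat.gcd_dvd_right b q, by omega⟩, (Nat.le_of_dvd (by omega) (Nat.gcd_dvd_left b q)).trans hb.2⟩
  have hterm : ∀ d ∈ q.divisors.filter (fun d => d ≤ Ng),
      |∑ b ∈ (Finset.Icc 1 Ng).filter (fun b => Nat.gcd b q = d), (mug g b / b) *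
        ∑ a ∈ (Finset.Icc 1 Nf).filter (fun a => q ∣ a * b), mug f a / a| ≤
      C ^ 2 * Bf * Bg * (1 / q) * ((q : ℝ) / Nat.totient q) ^ 2 := by
    intro d hd
    simp only [Finset.mem_filter, Nat.mem_divisors] at hd
    obtain ⟨⟨hdq, _⟩, hdN⟩ := hd
    have hd0 : 0 < d := Nat.pos_of_dvd_of_pos hdq (by omega)
    have hdr : (0:ℝ) < d := by exact_mod_cast hd0
    set e := q / d with he
    have he0 : 0 < e := Nat.div_pos (Nat.le_of_dvd (by omega) hdq) hd0
    have her : (0:ℝ) < e := by exact_mod_cast he0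
    have hde : d * e = q := Nat.mul_div_cancel' hdq
    have e1 : ∀ b ∈ (Finset.Icc 1 Ng).filter (fun b => Nat.gcd b q = d),
        (mug g b / b) * ∑ a ∈ (Finset.Icc 1 Nf).filter (fun a => q ∣ a * b), mug f a / a =
        (mug g b / b) * ∑ a ∈ (Finset.Icc 1 Nf).filter (fun a => Nat.gcd a e = e), mug f a / a := by
      intro b hb
      simp only [Finset.mem_filter, Finset.mem_Icc] at hb
      obtain ⟨⟨hb1, _⟩, hg⟩ := hb
      congr 1
      refine Finset.sum_congr ?_ fun _ _ => rfl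
      ext a
      simp only [Finset.mem_filter, and_congr_right_iff]
      intro _
      have hdb : d ∣ b := hg ▸ Nat.gcd_dvd_left b q
      have hcop : Nat.Coprime (b / d) (q / d) := by
        have := Nat.coprime_div_gcd_div_gcd (m := b) (n := q) (by rw [hg]; exact hd0)
        rwa [hg] at this
      rw [← he] at hcop
      rw [Nat.gcd_eq_right_iff_dvd]
      obtain ⟨k, hk⟩ := hdb
      have hbd : b / d = k := by rw [hk]; exact Nat.mul_div_cancel_left k hd0
      rw [hbd] at hcop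
      rw [hk, ← hde]
      constructor
      · intro h
        have h2 : d * e ∣ d * (a * k) := by
          have : a * (d * k) = d * (a * k) := by ring
          rwa [this] at h
        have h3 : e ∣ a * k := Nat.dvd_of_mul_dvd_mul_left hd0 h2
        exact Nat.Coprime.dvd_of_dvd_mul_right hcop.symm h3
      · intro h
        have : a * (d * k) = d * (a * k) := by ring
        rw [this]
        exact Nat.mul_dvd_mul_left d (h.mul_right k)
    rw [Finset.sum_congr rfl e1, ← Finset.sum_mul, aa4_gcd g Ng hq hdq,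
      aa4_gcd f Nf he0 (dvd_refl e)]
    have s1 := hS lg Bg g g' g'' q d hlg hg hq hd0
    have s2 := hS lf Bf f f' f'' e e hlf hf he0 he0
    rw [← hNg] at s1
    rw [← hNf] at s2
    set S1 := ∑ n ∈ (Finset.Icc 1 (Ng / d)).filter (fun n => Nat.Coprime n q),
          ((ArithmeticFunction.moebius n : ℤ) : ℝ) / n * g (Real.log (d * n)) with hS1
    set S2 := ∑ n ∈ (Finset.Icc 1 (Nf / e)).filter (fun n => Nat.Coprime n e),
          ((ArithmeticFunction.moebius n : ℤ) : ℝ) / n * f (Real.log (e * n)) with hS2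
    have m1 : |((ArithmeticFunction.moebius d : ℤ) : ℝ)| ≤ 1 := by
      have := ArithmeticFunction.abs_moebius_le_one (n := d)
      exact_mod_cast this
    have m2 : |((ArithmeticFunction.moebius e : ℤ) : ℝ)| ≤ 1 := by
      have := ArithmeticFunction.abs_moebius_le_one (n := e)
      exact_mod_cast this
    have hφe : (0:ℝ) < Nat.totient e := by exact_mod_cast Nat.totient_pos.mpr he0
    have t1 : |((ArithmeticFunction.moebius d : ℤ) : ℝ) / d * S1| ≤
        1 / d * (C * Bg * ((q : ℝ) / Nat.totient q)) := by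
      rw [abs_mul, abs_div, abs_of_pos hdr]
      exact mul_le_mul (div_le_div_of_nonneg_right m1 hdr.le) s1 (abs_nonneg _) (by positivity)
    have t2 : |((ArithmeticFunction.moebius e : ℤ) : ℝ) / e * S2| ≤
        1 / e * (C * Bf * ((e : ℝ) / Nat.totient e)) := by
      rw [abs_mul, abs_div, abs_of_pos her]
      exact mul_le_mul (div_le_div_of_nonneg_right m2 her.le) s2 (abs_nonneg _) (by positivity)
    rw [abs_mul]
    have t3 := mul_le_mul t1 t2 (abs_nonneg _) (by positivity)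
    refine t3.trans ?_
    have hφq : (Nat.totient q : ℝ) ≤ d * Nat.totient e := by
      have h1 : Nat.totient (d * e) ≤ d * Nat.totient e := aa4_totient hd0 he0
      rw [hde] at h1
      exact_mod_cast h1
    have e3 : 1 / (d : ℝ) * (C * Bg * ((q : ℝ) / Nat.totient q)) * (1 / e * (C * Bf * ((e : ℝ) / Nat.totient e)))
        = C ^ 2 * Bf * Bg * ((q : ℝ) / Nat.totient q) * (1 / (d * Nat.totient e)) := by
      field_simp
    rw [e3]
    have e4 : C ^ 2 * Bf * Bg * (1 / (q:ℝ)) * ((q : ℝ) / Nat.totient q) ^ 2 =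
        C ^ 2 * Bf * Bg * ((q : ℝ) / Nat.totient q) * (1 / Nat.totient q) := by
      field_simp
    rw [e4]
    refine mul_le_mul_of_nonneg_left ?_ (by positivity)
    exact one_div_le_one_div_of_le hφ hφq
  refine (Finset.abs_sum_le_sum_abs _ _).trans ((Finset.sum_le_sum hterm).trans ?_)
  rw [Finset.sum_const, nsmul_eq_mul]
  exact le_of_eq (by ring)

end Pool.Agent.ZR
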