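import Pool.Agent.ZR.Defs

/-!
# A divisor sum
`w(q) = (1/q)(q/φ(q))^4` is submultiplicative and `∑_{q ≤ Y} w(q) ≤ C (1 + log Y)`; the pairs `d, d' ≤ N`
are sorted by their gcd.
-/

set_option autoImplicit false

open Complex MeasureTheory Set Finset

namespace Pool.Agent.ZR

/-- `(1/q)(q/φ(q))^4` -/
private noncomputable def wq (q : ℕ) : ℝ := (1 / (q : ℝ)) * ((q : ℝ) / Nat.totient q) ^ 4

private lemma wq_nonneg (q : ℕ) : 0 ≤ wq q := by unfold wq; positivity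

private lemma wq_mul (a b : ℕ) (ha : 1 ≤ a) (hb : 1 ≤ b) : wq (a * b) ≤ wq a * wq b := by
  have ha0 : (0 : ℝ) < a := by exact_mod_cast ha
  have hb0 : (0 : ℝ) < b := by exact_mod_cast hb
  have hta : (0 : ℝ) < Nat.totient a := by exact_mod_cast Nat.totient_pos.2 ha
  have htb : (0 : ℝ) < Nat.totient b := by exact_mod_cast Nat.totient_pos.2 hb
  have h1 : ((Nat.totient a : ℕ) : ℝ) * Nat.totient b ≤ Nat.totient (a * b) := by
    exact_mod_cast Nat.totient_super_multiplicative a b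
  unfold wq
  push_cast
  have h2 : ((a : ℝ) * b) / Nat.totient (a * b) ≤ (a / Nat.totient a) * (b / Nat.totient b) := by
    rw [div_mul_div_comm]
    exact div_le_div_of_nonneg_left (by positivity) (by positivity) h1
  calc 1 / ((a : ℝ) * b) * ((a : ℝ) * b / Nat.totient (a * b)) ^ 4
      ≤ 1 / ((a : ℝ) * b) * ((a / Nat.totient a) * (b / Nat.totient b)) ^ 4 := by gcongr
    _ = _ := by rw [mul_pow]; field_simp

private lemma fac_le (p : ℕ) (hp : 2 ≤ p) :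
    ((1 - (p : ℝ)⁻¹)⁻¹) ^ 4 ≤ (if p < 900 then 16 else 1) * (1 + (p : ℝ) ^ (-(1 / 2 : ℝ))) := by
  have hp2 : (2 : ℝ) ≤ p := by exact_mod_cast hp
  have hx : (p : ℝ)⁻¹ ≤ 1 / 2 := by
    rw [inv_eq_one_div]; exact one_div_le_one_div_of_le (by norm_num) hp2
  have hx0 : 0 < (p : ℝ)⁻¹ := by positivity
  have hr0 : 0 < (p : ℝ) ^ (-(1 / 2 : ℝ)) := Real.rpow_pos_of_pos (by linarith) _
  by_cases h9 : p < 900
  · rw [if_pos h9]
    have h1 : (1 - (p : ℝ)⁻¹)⁻¹ ≤ 2 := by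
      rw [inv_le_comm₀ (by linarith) (by norm_num)]
      linarith
    have h0 : 0 ≤ (1 - (p : ℝ)⁻¹)⁻¹ := inv_nonneg.2 (by linarith)
    calc ((1 - (p : ℝ)⁻¹)⁻¹) ^ 4 ≤ 2 ^ 4 := pow_le_pow_left₀ h0 h1 4
      _ = 16 * 1 := by norm_num
      _ ≤ _ := by gcongr; linarith
  · rw [if_neg h9, one_mul]
    have h900 : (900 : ℝ) ≤ p := by exact_mod_cast (not_lt.1 h9)
    set r := (p : ℝ) ^ (-(1 / 2 : ℝ)) with hr
    have hrr : r * r = (p : ℝ)⁻¹ := by
      rw [hr, ← Real.rpow_add (by linarith), ← Real.rpow_neg_one]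
      norm_num
    have hr30 : r ≤ 1 / 30 := by
      by_contra hcon
      push Not at hcon
      have h3 : (1 / 30 : ℝ) * (1 / 30) < r * r := by nlinarith
      rw [hrr] at h3
      have h4 : (p : ℝ)⁻¹ ≤ 1 / 900 := by
        rw [inv_eq_one_div]; exact one_div_le_one_div_of_le (by norm_num) h900
      linarith
    rw [← hrr]
    have h5 : 0 < 1 - r * r := by nlinarith
    have h6 : (1 - r * r)⁻¹ ≤ 1 + r / 15 := by
      rw [inv_le_iff_one_le_mul₀ h5]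
      have : (0 : ℝ) ≤ r * (1 / 15 - r - r * r / 15) := by
        apply mul_nonneg hr0.le
        nlinarith
      nlinarith
    have h7 : 0 ≤ (1 - r * r)⁻¹ := inv_nonneg.2 h5.le
    calc ((1 - r * r)⁻¹) ^ 4 ≤ (1 + r / 15) ^ 4 := pow_le_pow_left₀ h7 h6 4
      _ ≤ 1 + r := by nlinarith [mul_nonneg hr0.le hr0.le, mul_nonneg (mul_nonneg hr0.le hr0.le) hr0.le]

private lemma tot_le (n : ℕ) (hn : 1 ≤ n) : ((n : ℝ) / Nat.totient n) ^ 4 ≤
    16 ^ 900 * ∑ k ∈ n.divisors, (k : ℝ) ^ (-(1 / 2 : ℝ)) := by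
  have h1 : (Nat.totient n : ℝ) = n * ∏ p ∈ n.primeFactors, (1 - (p : ℝ)⁻¹) := by
    have := Nat.totient_eq_mul_prod_factors n
    have h2 := congrArg (fun x : ℚ => (x : ℝ)) this
    push_cast at h2
    exact h2
  have hn0 : (0 : ℝ) < n := by exact_mod_cast hn
  have h3 : (n : ℝ) / Nat.totient n = ∏ p ∈ n.primeFactors, (1 - (p : ℝ)⁻¹)⁻¹ := by
    rw [h1, Finset.prod_inv_distrib, div_mul_eq_div_div, div_self hn0.ne', one_div]
  rw [h3, ← Finset.prod_pow]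
  have h4 : ∏ p ∈ n.primeFactors, ((1 - (p : ℝ)⁻¹)⁻¹) ^ 4 ≤
      ∏ p ∈ n.primeFactors, ((if p < 900 then (16 : ℝ) else 1) * (1 + (p : ℝ) ^ (-(1 / 2 : ℝ)))) := by
    apply Finset.prod_le_prod
    · intro p hp
      have hp2 : (2 : ℝ) ≤ p := by exact_mod_cast (Nat.prime_of_mem_primeFactors hp).two_le
      have hx : (p : ℝ)⁻¹ ≤ 1 / 2 := by
        rw [inv_eq_one_div]; exact one_div_le_one_div_of_le (by norm_num) hp2
      exact pow_nonneg (inv_nonneg.2 (by linarith)) 4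
    · intro p hp
      exact fac_le p (Nat.prime_of_mem_primeFactors hp).two_le
  refine h4.trans ?_
  rw [Finset.prod_mul_distrib]
  have h5 : ∏ p ∈ n.primeFactors, (if p < 900 then (16 : ℝ) else 1) ≤ 16 ^ 900 := by
    rw [← Finset.prod_filter, Finset.prod_const]
    apply pow_le_pow_right₀ (by norm_num)
    have h6 : n.primeFactors.filter (fun p => p < 900) ⊆ Finset.range 900 := by
      intro p hp
      exact Finset.mem_range.2 (Finset.mem_filter.1 hp).2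
    simpa using Finset.card_le_card h6
  have h7 : ∏ p ∈ n.primeFactors, (1 + (p : ℝ) ^ (-(1 / 2 : ℝ))) ≤
      ∑ k ∈ n.divisors, (k : ℝ) ^ (-(1 / 2 : ℝ)) := by
    rw [Finset.prod_one_add]
    have h8 : ∀ S ∈ n.primeFactors.powerset, ∏ p ∈ S, (p : ℝ) ^ (-(1 / 2 : ℝ)) =
        ((∏ p ∈ S, p : ℕ) : ℝ) ^ (-(1 / 2 : ℝ)) := by
      intro S _
      push_cast
      rw [Real.finsetProd_rpow _ _ (fun p _ => Nat.cast_nonneg p)]
    rw [Finset.sum_congr rfl h8]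
    have hinj : Set.InjOn (fun S : Finset ℕ => ∏ p ∈ S, p) (n.primeFactors.powerset : Set (Finset ℕ)) := by
      intro S hS S' hS' h
      have hS1 : S ⊆ n.primeFactors := Finset.mem_powerset.1 (Finset.mem_coe.1 hS)
      have hS2 : S' ⊆ n.primeFactors := Finset.mem_powerset.1 (Finset.mem_coe.1 hS')
      have e1 := Nat.primeFactors_prod (s := S) (fun p hp => Nat.prime_of_mem_primeFactors (hS1 hp))
      have e2 := Nat.primeFactors_prod (s := S') (fun p hp => Nat.prime_of_mem_primeFactors (hS2 hp))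
      rw [← e1, ← e2]
      exact congrArg Nat.primeFactors h
    rw [← Finset.sum_image (f := fun k : ℕ => (k : ℝ) ^ (-(1 / 2 : ℝ))) hinj]
    apply Finset.sum_le_sum_of_subset_of_nonneg
    · intro k hk
      obtain ⟨S, hS, rfl⟩ := Finset.mem_image.1 hk
      rw [Nat.mem_divisors]
      refine ⟨?_, by omega⟩
      exact (Finset.prod_dvd_prod_of_subset _ _ _ (Finset.mem_powerset.1 hS)).trans
        (Nat.prod_primeFactors_dvd n)
    · intro k _ _
      positivity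
  exact mul_le_mul h5 h7 (Finset.prod_nonneg fun p _ => by positivity) (by positivity)

private lemma filt_sub (D Y : ℕ) (hD : 1 ≤ D) : (Finset.Icc 1 Y).filter (fun q => D ∣ q) ⊆
    (Finset.Icc 1 Y).image (fun m => D * m) := by
  intro q hq
  obtain ⟨hq1, hq2⟩ := Finset.mem_filter.1 hq
  obtain ⟨m, rfl⟩ := hq2
  rw [Finset.mem_Icc] at hq1
  refine Finset.mem_image.2 ⟨m, ?_, rfl⟩
  rw [Finset.mem_Icc]
  constructor
  · rcases Nat.eq_zero_or_pos m with h | h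
    · subst h; simp at hq1
    · exact h
  · nlinarith

private lemma sum_filt {f : ℕ → ℝ} (hf : ∀ n, 0 ≤ f n) (D Y : ℕ) (hD : 1 ≤ D) :
    ∑ q ∈ (Finset.Icc 1 Y).filter (fun q => D ∣ q), f q ≤ ∑ m ∈ Finset.Icc 1 Y, f (D * m) := by
  calc ∑ q ∈ (Finset.Icc 1 Y).filter (fun q => D ∣ q), f q
      ≤ ∑ q ∈ (Finset.Icc 1 Y).image (fun m => D * m), f q :=
        Finset.sum_le_sum_of_subset_of_nonneg (filt_sub D Y hD) fun _ _ _ => hf _
    _ = _ := by
        rw [Finset.sum_image]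
        intro a _ b _ h
        exact Nat.eq_of_mul_eq_mul_left (by omega) h

private lemma harm_le (N : ℕ) : ∑ m ∈ Finset.Icc 1 N, 1 / (m : ℝ) ≤ 1 + Real.log N := by
  have h := harmonic_le_one_add_log N
  rw [harmonic_eq_sum_Icc] at h
  push_cast at h
  simpa [one_div] using h

private lemma w_sum : ∃ C : ℝ, 0 < C ∧ ∀ N : ℕ, 1 ≤ N →
    ∑ n ∈ Finset.Icc 1 N, wq n ≤ C * (1 + Real.log N) := by
  have hsm : Summable (fun k : ℕ => (k : ℝ) ^ (-(3 / 2 : ℝ))) :=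
    Real.summable_nat_rpow.2 (by norm_num)
  refine ⟨16 ^ 900 * (∑' k : ℕ, (k : ℝ) ^ (-(3 / 2 : ℝ)) + 1), ?_, ?_⟩
  · have : 0 ≤ ∑' k : ℕ, (k : ℝ) ^ (-(3 / 2 : ℝ)) := tsum_nonneg fun k => by positivity
    positivity
  intro N hN
  have hlog : 0 ≤ Real.log N := Real.log_nonneg (by exact_mod_cast hN)
  have h1 : ∀ n ∈ Finset.Icc 1 N, wq n ≤ 16 ^ 900 * ∑ k ∈ Finset.Icc 1 N,
      if k ∣ n then (k : ℝ) ^ (-(1 / 2 : ℝ)) * (1 / (n : ℝ)) else 0 := by
    intro n hn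
    obtain ⟨hn1, hn2⟩ := Finset.mem_Icc.1 hn
    unfold wq
    calc (1 / (n : ℝ)) * ((n : ℝ) / Nat.totient n) ^ 4
        ≤ (1 / (n : ℝ)) * (16 ^ 900 * ∑ k ∈ n.divisors, (k : ℝ) ^ (-(1 / 2 : ℝ))) := by
          gcongr
          exact tot_le n hn1
      _ = 16 ^ 900 * ∑ k ∈ n.divisors, (k : ℝ) ^ (-(1 / 2 : ℝ)) * (1 / (n : ℝ)) := by
          rw [← Finset.sum_mul]; ring
      _ ≤ _ := by
          gcongr
          rw [← Finset.sum_filter]
          apply Finset.sum_le_sum_of_subset_of_nonneg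
          · intro k hk
            rw [Nat.mem_divisors] at hk
            rw [Finset.mem_filter, Finset.mem_Icc]
            refine ⟨⟨Nat.pos_of_dvd_of_pos hk.1 hn1, (Nat.le_of_dvd hn1 hk.1).trans hn2⟩, hk.1⟩
          · intro k _ _
            positivity
  calc ∑ n ∈ Finset.Icc 1 N, wq n
      ≤ ∑ n ∈ Finset.Icc 1 N, 16 ^ 900 * ∑ k ∈ Finset.Icc 1 N,
        (if k ∣ n then (k : ℝ) ^ (-(1 / 2 : ℝ)) * (1 / (n : ℝ)) else 0) := Finset.sum_le_sum h1
    _ = 16 ^ 900 * ∑ k ∈ Finset.Icc 1 N, ∑ n ∈ (Finset.Icc 1 N).filter (fun n => k ∣ n),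
        (k : ℝ) ^ (-(1 / 2 : ℝ)) * (1 / (n : ℝ)) := by
        rw [← Finset.mul_sum, Finset.sum_comm]
        congr 1
        apply Finset.sum_congr rfl
        intro k _
        rw [Finset.sum_filter]
    _ ≤ 16 ^ 900 * ∑ k ∈ Finset.Icc 1 N, (k : ℝ) ^ (-(3 / 2 : ℝ)) * (1 + Real.log N) := by
        gcongr with k hk
        have hk1 : 1 ≤ k := (Finset.mem_Icc.1 hk).1
        have hk0 : (0 : ℝ) < k := by exact_mod_cast hk1
        refine (sum_filt (f := fun n => (k : ℝ) ^ (-(1 / 2 : ℝ)) * (1 / (n : ℝ)))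
          (fun n => by positivity) k N hk1).trans ?_
        have h2 : ∀ m ∈ Finset.Icc 1 N, (k : ℝ) ^ (-(1 / 2 : ℝ)) * (1 / ((k * m : ℕ) : ℝ)) =
            (k : ℝ) ^ (-(3 / 2 : ℝ)) * (1 / (m : ℝ)) := by
          intro m _
          have h3 : (k : ℝ) ^ (-(3 / 2 : ℝ)) = (k : ℝ) ^ (-(1 / 2 : ℝ)) * (k : ℝ)⁻¹ := by
            rw [← Real.rpow_neg_one, ← Real.rpow_add hk0]
            norm_num
          rw [h3, Nat.cast_mul]
          generalize (k : ℝ) ^ (-(1 / 2 : ℝ)) = c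
          generalize (k : ℝ) = kk
          generalize (m : ℝ) = mm
          rw [one_div, mul_inv, one_div]
          ring
        rw [Finset.sum_congr rfl h2, ← Finset.mul_sum]
        gcongr
        exact harm_le N
    _ = 16 ^ 900 * (∑ k ∈ Finset.Icc 1 N, (k : ℝ) ^ (-(3 / 2 : ℝ))) * (1 + Real.log N) := by
        rw [← Finset.sum_mul, mul_assoc]
    _ ≤ _ := by
        gcongr
        have := hsm.sum_le_tsum (Finset.Icc 1 N) (fun k _ => by positivity)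
        linarith

private lemma pair_sum (N : ℕ) : ∑ x ∈ Finset.Icc 1 N ×ˢ Finset.Icc 1 N, wq (Nat.lcm x.1 x.2) ≤
    (∑ n ∈ Finset.Icc 1 N, wq n) ^ 3 := by
  set e : ℕ × ℕ → ℕ × ℕ × ℕ := fun x => (Nat.gcd x.1 x.2, x.1 / Nat.gcd x.1 x.2, x.2 / Nat.gcd x.1 x.2)
    with he
  have hfac : ∀ x ∈ Finset.Icc 1 N ×ˢ Finset.Icc 1 N, 1 ≤ (e x).1 ∧ 1 ≤ (e x).2.1 ∧ 1 ≤ (e x).2.2 ∧
      x.1 = (e x).1 * (e x).2.1 ∧ x.2 = (e x).1 * (e x).2.2 := by
    intro x hx
    rw [Finset.mem_product, Finset.mem_Icc, Finset.mem_Icc] at hx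
    obtain ⟨⟨h1, h2⟩, h3, h4⟩ := hx
    have hg : 0 < Nat.gcd x.1 x.2 := Nat.gcd_pos_of_pos_left _ h1
    have e1 : Nat.gcd x.1 x.2 * (x.1 / Nat.gcd x.1 x.2) = x.1 :=
      Nat.mul_div_cancel' (Nat.gcd_dvd_left _ _)
    have e2 : Nat.gcd x.1 x.2 * (x.2 / Nat.gcd x.1 x.2) = x.2 :=
      Nat.mul_div_cancel' (Nat.gcd_dvd_right _ _)
    refine ⟨hg, ?_, ?_, e1.symm, e2.symm⟩
    · rcases Nat.eq_zero_or_pos (x.1 / Nat.gcd x.1 x.2) with h | h
      · rw [h] at e1; omega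
      · exact h
    · rcases Nat.eq_zero_or_pos (x.2 / Nat.gcd x.1 x.2) with h | h
      · rw [h] at e2; omega
      · exact h
  have hinj : Set.InjOn e (Finset.Icc 1 N ×ˢ Finset.Icc 1 N : Finset (ℕ × ℕ)) := by
    intro x hx y hy h
    have h1 := hfac x (Finset.mem_coe.1 hx)
    have h2 := hfac y (Finset.mem_coe.1 hy)
    ext
    · rw [h1.2.2.2.1, h2.2.2.2.1, h]
    · rw [h1.2.2.2.2, h2.2.2.2.2, h]
  calc ∑ x ∈ Finset.Icc 1 N ×ˢ Finset.Icc 1 N, wq (Nat.lcm x.1 x.2)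
      ≤ ∑ x ∈ Finset.Icc 1 N ×ˢ Finset.Icc 1 N, wq (e x).1 * (wq (e x).2.1 * wq (e x).2.2) := by
        apply Finset.sum_le_sum
        intro x hx
        obtain ⟨h1, h2, h3, h4, h5⟩ := hfac x hx
        have h6 : Nat.lcm x.1 x.2 = (e x).1 * ((e x).2.1 * (e x).2.2) := by
          have h7 : Nat.gcd x.1 x.2 * Nat.lcm x.1 x.2 = x.1 * x.2 := Nat.gcd_mul_lcm _ _
          have h8 : Nat.gcd x.1 x.2 = (e x).1 := rfl
          rw [h8] at h7
          apply Nat.eq_of_mul_eq_mul_left h1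
          rw [h7]
          conv_lhs => rw [h4, h5]
          ring
        rw [h6]
        refine (wq_mul _ _ h1 (Nat.mul_pos h2 h3)).trans ?_
        exact mul_le_mul_of_nonneg_left (wq_mul _ _ h2 h3) (wq_nonneg _)
    _ = ∑ y ∈ (Finset.Icc 1 N ×ˢ Finset.Icc 1 N).image e, wq y.1 * (wq y.2.1 * wq y.2.2) := by
        rw [Finset.sum_image hinj]
    _ ≤ ∑ y ∈ Finset.Icc 1 N ×ˢ (Finset.Icc 1 N ×ˢ Finset.Icc 1 N),
        wq y.1 * (wq y.2.1 * wq y.2.2) := by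
        apply Finset.sum_le_sum_of_subset_of_nonneg
        · intro y hy
          obtain ⟨x, hx, rfl⟩ := Finset.mem_image.1 hy
          obtain ⟨h1, h2, h3, h4, h5⟩ := hfac x hx
          rw [Finset.mem_product, Finset.mem_Icc, Finset.mem_Icc] at hx
          obtain ⟨⟨h6, h7⟩, h8, h9⟩ := hx
          rw [Finset.mem_product, Finset.mem_product, Finset.mem_Icc, Finset.mem_Icc, Finset.mem_Icc]
          refine ⟨⟨h1, ?_⟩, ⟨h2, ?_⟩, h3, ?_⟩
          · nlinarith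
          · nlinarith
          · nlinarith
        · intro y _ _
          exact mul_nonneg (wq_nonneg _) (mul_nonneg (wq_nonneg _) (wq_nonneg _))
    _ = _ := by
        rw [Finset.sum_product, pow_succ, pow_two, mul_assoc, Finset.sum_mul]
        apply Finset.sum_congr rfl
        intro a _
        dsimp only
        rw [← Finset.mul_sum, Finset.sum_product, Finset.sum_mul]
        congr 1
        apply Finset.sum_congr rfl
        intro b _
        dsimp only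
        rw [← Finset.mul_sum]

theorem div_sum : ∃ C : ℝ, 0 < C ∧ ∀ Y N : ℕ, 1 ≤ Y → 1 ≤ N →
    ∑ q ∈ Finset.Icc 1 Y, (1 / (q : ℝ)) * ((q : ℝ) / Nat.totient q) ^ 4 *
      ((q.divisors.filter (fun d => d ≤ N)).card : ℝ) ^ 2 ≤
      C * (1 + Real.log Y) * (1 + Real.log N) ^ 3 := by
  obtain ⟨C, hC, hw⟩ := w_sum
  refine ⟨C * C ^ 3, by positivity, ?_⟩
  intro Y N hY hN
  have hlY : 0 ≤ Real.log Y := Real.log_nonneg (by exact_mod_cast hY)
  have hlN : 0 ≤ Real.log N := Real.log_nonneg (by exact_mod_cast hN)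
  have hcard : ∀ q ∈ Finset.Icc 1 Y, ((q.divisors.filter (fun d => d ≤ N)).card : ℝ) =
      ∑ d ∈ Finset.Icc 1 N, if d ∣ q then (1 : ℝ) else 0 := by
    intro q hq
    have hq1 : 1 ≤ q := (Finset.mem_Icc.1 hq).1
    rw [← Finset.sum_filter, Finset.sum_const, nsmul_eq_mul, mul_one]
    congr 2
    ext d
    rw [Finset.mem_filter, Nat.mem_divisors, Finset.mem_filter, Finset.mem_Icc]
    constructor
    · rintro ⟨⟨h1, h2⟩, h3⟩
      exact ⟨⟨Nat.pos_of_dvd_of_pos h1 hq1, h3⟩, h1⟩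
    · rintro ⟨⟨h1, h2⟩, h3⟩
      exact ⟨⟨h3, by omega⟩, h2⟩
  have hterm : ∀ q ∈ Finset.Icc 1 Y, (1 / (q : ℝ)) * ((q : ℝ) / Nat.totient q) ^ 4 *
      ((q.divisors.filter (fun d => d ≤ N)).card : ℝ) ^ 2 =
      ∑ x ∈ Finset.Icc 1 N ×ˢ Finset.Icc 1 N, if Nat.lcm x.1 x.2 ∣ q then wq q else 0 := by
    intro q hq
    rw [hcard q hq, pow_two (∑ d ∈ Finset.Icc 1 N, if d ∣ q then (1 : ℝ) else 0),
      Finset.sum_mul_sum, ← Finset.sum_product', Finset.mul_sum]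
    apply Finset.sum_congr rfl
    intro x _
    by_cases h1 : x.1 ∣ q
    · by_cases h2 : x.2 ∣ q
      · rw [if_pos h1, if_pos h2, if_pos (Nat.lcm_dvd h1 h2)]
        unfold wq; ring
      · rw [if_pos h1, if_neg h2, if_neg fun h => h2 ((Nat.dvd_lcm_right _ _).trans h)]
        ring
    · rw [if_neg h1, if_neg fun h => h1 ((Nat.dvd_lcm_left _ _).trans h)]
      ring
  rw [Finset.sum_congr rfl hterm, Finset.sum_comm]
  calc ∑ x ∈ Finset.Icc 1 N ×ˢ Finset.Icc 1 N, ∑ q ∈ Finset.Icc 1 Y,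
        (if Nat.lcm x.1 x.2 ∣ q then wq q else 0)
      ≤ ∑ x ∈ Finset.Icc 1 N ×ˢ Finset.Icc 1 N, wq (Nat.lcm x.1 x.2) * (C * (1 + Real.log Y)) := by
        apply Finset.sum_le_sum
        intro x hx
        rw [Finset.mem_product, Finset.mem_Icc, Finset.mem_Icc] at hx
        have hD : 1 ≤ Nat.lcm x.1 x.2 := Nat.lcm_pos hx.1.1 hx.2.1
        rw [← Finset.sum_filter]
        refine (sum_filt wq_nonneg _ Y hD).trans ?_
        calc ∑ m ∈ Finset.Icc 1 Y, wq (Nat.lcm x.1 x.2 * m)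
            ≤ ∑ m ∈ Finset.Icc 1 Y, wq (Nat.lcm x.1 x.2) * wq m := by
              apply Finset.sum_le_sum
              intro m hm
              exact wq_mul _ _ hD (Finset.mem_Icc.1 hm).1
          _ = wq (Nat.lcm x.1 x.2) * ∑ m ∈ Finset.Icc 1 Y, wq m := by rw [Finset.mul_sum]
          _ ≤ _ := mul_le_mul_of_nonneg_left (hw Y hY) (wq_nonneg _)
    _ = (∑ x ∈ Finset.Icc 1 N ×ˢ Finset.Icc 1 N, wq (Nat.lcm x.1 x.2)) * (C * (1 + Real.log Y)) := by
        rw [Finset.sum_mul]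
    _ ≤ (C * (1 + Real.log N)) ^ 3 * (C * (1 + Real.log Y)) := by
        gcongr
        refine (pair_sum N).trans ?_
        exact pow_le_pow_left₀ (Finset.sum_nonneg fun n _ => wq_nonneg n) (hw N hN) 3
    _ = _ := by ring

end Pool.Agent.ZR
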