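import Pool.Agent.ZR.AA4
import Pool.Agent.ZR.AA5

/-!
# The arithmetic estimate
-/

set_option autoImplicit false

open Complex MeasureTheory Set Finset

namespace Pool.Agent.ZR

theorem arith : ∃ C : ℝ, 0 < C ∧ ∀ (lf Bf lg Bg : ℝ) (f f' f'' g g' g'' : ℝ → ℝ) (Y : ℕ),
    0 ≤ lf → 0 ≤ lg → Smo lf Bf f f' f'' → Smo lg Bg g g' g'' → 1 ≤ Y →
    ⌊Real.exp lf⌋₊ * ⌊Real.exp lg⌋₊ ≤ Y →
    ∑ q ∈ Finset.Icc 1 Y, (q : ℝ) * yq (cnv f g ⌊Real.exp lf⌋₊ ⌊Real.exp lg⌋₊) Y 0 q ^ 2 ≤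
      C * Bf ^ 2 * Bg ^ 2 * (1 + Real.log Y) * (1 + lg) ^ 3 := by
  obtain ⟨C1, hC1, h1⟩ := yq_bound
  obtain ⟨C2, hC2, h2⟩ := div_sum
  refine ⟨C1 ^ 2 * C2, by positivity, ?_⟩
  intro lf Bf lg Bg f f' f'' g g' g'' Y hlf hlg hf hg hY hNN
  have hN1 : 1 ≤ ⌊Real.exp lg⌋₊ := by
    rw [Nat.one_le_floor_iff]
    exact Real.one_le_exp hlg
  have hterm : ∀ q ∈ Finset.Icc 1 Y,
      (q : ℝ) * yq (cnv f g ⌊Real.exp lf⌋₊ ⌊Real.exp lg⌋₊) Y 0 q ^ 2 ≤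
      (C1 ^ 2 * Bf ^ 2 * Bg ^ 2) * ((1 / (q : ℝ)) * ((q : ℝ) / Nat.totient q) ^ 4 *
        ((q.divisors.filter (fun d => d ≤ ⌊Real.exp lg⌋₊)).card : ℝ) ^ 2) := by
    intro q hq
    have hq1 : 1 ≤ q := (Finset.mem_Icc.mp hq).1
    have hq0 : (0 : ℝ) < q := by exact_mod_cast hq1
    have h3 := h1 lf Bf lg Bg f f' f'' g g' g'' Y q hlf hlg hf hg hq1 hNN
    generalize ((q.divisors.filter (fun d => d ≤ ⌊Real.exp lg⌋₊)).card : ℝ) = c at *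
    generalize yq (cnv f g ⌊Real.exp lf⌋₊ ⌊Real.exp lg⌋₊) Y 0 q = y at *
    generalize (q : ℝ) / Nat.totient q = r at *
    have h4 : y ^ 2 ≤ (C1 * Bf * Bg * (1 / q) * r ^ 2 * c) ^ 2 := by
      rw [← sq_abs y]
      exact pow_le_pow_left₀ (abs_nonneg _) h3 2
    calc (q : ℝ) * y ^ 2 ≤ q * (C1 * Bf * Bg * (1 / q) * r ^ 2 * c) ^ 2 := by gcongr
      _ = _ := by field_simp
  calc ∑ q ∈ Finset.Icc 1 Y, (q : ℝ) * yq (cnv f g ⌊Real.exp lf⌋₊ ⌊Real.exp lg⌋₊) Y 0 q ^ 2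
      ≤ ∑ q ∈ Finset.Icc 1 Y, (C1 ^ 2 * Bf ^ 2 * Bg ^ 2) * ((1 / (q : ℝ)) *
        ((q : ℝ) / Nat.totient q) ^ 4 *
        ((q.divisors.filter (fun d => d ≤ ⌊Real.exp lg⌋₊)).card : ℝ) ^ 2) :=
        Finset.sum_le_sum hterm
    _ = (C1 ^ 2 * Bf ^ 2 * Bg ^ 2) * ∑ q ∈ Finset.Icc 1 Y, ((1 / (q : ℝ)) *
        ((q : ℝ) / Nat.totient q) ^ 4 *
        ((q.divisors.filter (fun d => d ≤ ⌊Real.exp lg⌋₊)).card : ℝ) ^ 2) := by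
        rw [Finset.mul_sum]
    _ ≤ (C1 ^ 2 * Bf ^ 2 * Bg ^ 2) * (C2 * (1 + Real.log Y) *
        (1 + Real.log (⌊Real.exp lg⌋₊ : ℕ)) ^ 3) := by
        gcongr
        exact h2 Y ⌊Real.exp lg⌋₊ hY hN1
    _ ≤ (C1 ^ 2 * Bf ^ 2 * Bg ^ 2) * (C2 * (1 + Real.log Y) * (1 + lg) ^ 3) := by
        have hlY : 0 ≤ Real.log Y := Real.log_nonneg (by exact_mod_cast hY)
        have hlN : 0 ≤ Real.log (⌊Real.exp lg⌋₊ : ℕ) := Real.log_nonneg (by exact_mod_cast hN1)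
        have hle : Real.log (⌊Real.exp lg⌋₊ : ℕ) ≤ lg := by
          have h5 : (0 : ℝ) < (⌊Real.exp lg⌋₊ : ℕ) := by exact_mod_cast hN1
          have h6 := Real.log_le_log h5 (Nat.floor_le (Real.exp_pos lg).le)
          rwa [Real.log_exp] at h6
        gcongr
    _ = _ := by ring

end Pool.Agent.ZR
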