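import Pool.Agent.ZR.Defs
import Pool.Agent.H26.Chi
import Pool.Agent.H26.ZetaGrowth

/-!
# Base facts on the zeta function
Tools: `Pool.Agent.AAS.SHF` (`shfZ`, entire, `(w-1) ζ(w)`; `Zf = shfZ`), `H26.SP.ZHI.exists_norm_zeta_left`,
`AAS.AF1.af1_chi` + `H26.SP.CHI.exists_norm_chi_strip` (functional equation and bound of chi),
`H26/Chi.norm_Gamma_add_le_rpow_mul`.
`zeta_quot`: by `riemannZeta_one_sub` and Legendre duplication
`ζ(2s)/ζ(s) = 2 π^(-1/2) (π/2)^s Γ(1/2-s) cos(πs/2) ζ(1-2s)/ζ(1-s)`, and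
`|Γ(1/2+it)|^2 = π/cosh(πt)`, `|Γ(1/2+b-it)| ≤ C (1+|t|)^b |Γ(1/2-it)|`.
-/

set_option autoImplicit false

open Complex MeasureTheory Set Finset

namespace Pool.Agent.ZR

lemma Zf_eq_zeta₀ (s : ℂ) : Zf s = 1 + (s - 1) * riemannZeta₀ s := by
  unfold Zf
  split_ifs with h
  · rw [h]; simp
  · rw [riemannZeta_eq_inv_sub_add h]
    have : s - 1 ≠ 0 := sub_ne_zero.2 h
    field_simp

theorem Zf_diff : Differentiable ℂ Zf := by
  have : Zf = fun s => 1 + (s - 1) * riemannZeta₀ s := funext Zf_eq_zeta₀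
  rw [this]
  exact (differentiable_const _).add ((differentiable_id.sub (differentiable_const _)).mul
    differentiable_riemannZeta₀)

theorem Zf_eq {s : ℂ} (hs : s ≠ 1) : Zf s = (s - 1) * riemannZeta s := by
  simp [Zf, hs]

theorem Zf_one : Zf 1 = 1 := by
  simp [Zf]

/-! ### Gamma on the critical line -/

lemma bas_cosh_le (t : ℝ) : Real.cosh (Real.pi * t / 2) ^ 2 ≤ Real.cosh (Real.pi * t) := by
  have h := Real.cosh_two_mul (Real.pi * t / 2)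
  have h2 := Real.cosh_sq (Real.pi * t / 2)
  have e : 2 * (Real.pi * t / 2) = Real.pi * t := by ring
  rw [e] at h
  nlinarith [sq_nonneg (Real.sinh (Real.pi * t / 2))]

lemma bas_Gamma_half (t : ℝ) :
    ‖Gamma ((1 / 2 : ℝ) + t * I)‖ ^ 2 = Real.pi / Real.cosh (Real.pi * t) := by
  have h := Complex.Gamma_mul_Gamma_one_sub ((1 / 2 : ℝ) + t * I)
  have e1 : (1 : ℂ) - ((1 / 2 : ℝ) + t * I) = (1 / 2 : ℝ) - t * I := by push_cast; ring
  have e2 : (Real.pi : ℂ) * ((1 / 2 : ℝ) + t * I) = Real.pi / 2 + (Real.pi * t : ℝ) * I := by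
    push_cast; ring
  rw [e1, e2] at h
  have e3 : Complex.sin ((Real.pi : ℂ) / 2 + (Real.pi * t : ℝ) * I) =
      (Real.cosh (Real.pi * t) : ℝ) := by
    rw [add_comm, Complex.sin_add_pi_div_two, Complex.cos_mul_I, Complex.ofReal_cosh]
  rw [e3] at h
  have h2 := congrArg norm h
  rw [norm_mul, Pool.Agent.H26.norm_Gamma_symm, norm_div, Complex.norm_real, Complex.norm_real,
    Real.norm_of_nonneg Real.pi_pos.le, Real.norm_of_nonneg (Real.cosh_pos _).le] at h2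
  rw [sq]; exact h2

lemma bas_Gamma_half_cosh (t : ℝ) :
    ‖Gamma ((1 / 2 : ℝ) + t * I)‖ * Real.cosh (Real.pi * t / 2) ≤ 2 := by
  have h1 := bas_Gamma_half t
  have h2 := bas_cosh_le t
  have h3 : 0 < Real.cosh (Real.pi * t) := Real.cosh_pos _
  have h4 : 0 < Real.cosh (Real.pi * t / 2) := Real.cosh_pos _
  rw [eq_div_iff h3.ne'] at h1
  have h5 : (‖Gamma ((1 / 2 : ℝ) + t * I)‖ * Real.cosh (Real.pi * t / 2)) ^ 2 ≤ 2 ^ 2 := by
    rw [mul_pow]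
    calc _ ≤ ‖Gamma ((1 / 2 : ℝ) + t * I)‖ ^ 2 * Real.cosh (Real.pi * t) := by gcongr
      _ = Real.pi := h1
      _ ≤ 2 ^ 2 := by have := Real.pi_lt_four; linarith
  exact (sq_le_sq₀ (by positivity) (by norm_num)).1 h5

/-- the Gamma factor of the functional equation -/
noncomputable def GH (s : ℂ) : ℝ := ‖Gamma s‖ * Real.cosh (Real.pi * s.im / 2)

lemma GH_nonneg (s : ℂ) : 0 ≤ GH s := by unfold GH; positivity

lemma GH_bdd : ∃ C : ℝ, 1 ≤ C ∧ ∀ x t : ℝ, 0 ≤ x → x ≤ 1 → |t| ≤ 2 →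
    GH (((1 / 2 + x : ℝ) : ℂ) + t * I) ≤ C := by
  have hK : IsCompact ((Set.Icc (0:ℝ) 1) ×ˢ (Set.Icc (-2:ℝ) 2)) := isCompact_Icc.prod isCompact_Icc
  have hc : ContinuousOn (fun q : ℝ × ℝ => GH (((1 / 2 + q.1 : ℝ) : ℂ) + q.2 * I))
      ((Set.Icc (0:ℝ) 1) ×ˢ (Set.Icc (-2:ℝ) 2)) := by
    intro q hq
    have hq1 : 0 ≤ q.1 := hq.1.1
    refine ContinuousAt.continuousWithinAt ?_
    have hG : ContinuousAt Gamma (((1 / 2 + q.1 : ℝ) : ℂ) + q.2 * I) := by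
      refine (Complex.differentiableAt_Gamma _ ?_).continuousAt
      intro m hm
      have := congrArg Complex.re hm
      simp at this
      have : (0:ℝ) ≤ m := Nat.cast_nonneg m
      linarith
    unfold GH
    have h1 : ContinuousAt (fun q : ℝ × ℝ => (((1 / 2 + q.1 : ℝ) : ℂ) + q.2 * I)) q := by fun_prop
    have h2 : ContinuousAt (fun q : ℝ × ℝ => Gamma (((1 / 2 + q.1 : ℝ) : ℂ) + q.2 * I)) q :=
      ContinuousAt.comp (f := fun q : ℝ × ℝ => (((1 / 2 + q.1 : ℝ) : ℂ) + q.2 * I)) hG h1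
    refine h2.norm.mul ?_
    have h3 : ContinuousAt (fun q : ℝ × ℝ => (((1 / 2 + q.1 : ℝ) : ℂ) + q.2 * I).im) q :=
      Complex.continuous_im.continuousAt.comp h1
    exact Real.continuous_cosh.continuousAt.comp ((continuousAt_const.mul h3).div_const 2)
  obtain ⟨C, hC⟩ := hK.bddAbove_image hc
  refine ⟨max C 1, le_max_right _ _, fun x t h0 h1 ht => ?_⟩
  have := abs_le.1 ht
  exact (hC ⟨(x, t), ⟨⟨h0, h1⟩, ⟨this.1, this.2⟩⟩, rfl⟩).trans (le_max_left _ _)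

lemma GH_one : ∃ C : ℝ, 1 ≤ C ∧ ∀ x t : ℝ, 0 ≤ x → x ≤ 1 →
    GH (((1 / 2 + x : ℝ) : ℂ) + t * I) ≤ C * (1 + |t|) ^ x := by
  obtain ⟨C, hC1, hC⟩ := GH_bdd
  refine ⟨max C 24, hC1.trans (le_max_left _ _), fun x t h0 h1 => ?_⟩
  rcases le_total |t| 2 with ht | ht
  · refine (hC x t h0 h1 ht).trans ?_
    have h3 : (1:ℝ) ≤ (1 + |t|) ^ x := Real.one_le_rpow (by linarith [abs_nonneg t]) h0
    have h4 : C ≤ max C 24 := le_max_left _ _
    nlinarith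
  · have h3 := Pool.Agent.H26.norm_Gamma_add_le_rpow_mul (z := ((1 / 2 : ℝ) : ℂ) + t * I) (c := x)
      (by simp) h0 h1 (by simpa using ht)
    have e1 : (((1 / 2 : ℝ) : ℂ) + t * I).re = 1 / 2 := by simp
    have e2 : (((1 / 2 : ℝ) : ℂ) + t * I).im = t := by simp
    have e3 : (((1 / 2 : ℝ) : ℂ) + t * I) + (x : ℂ) = ((1 / 2 + x : ℝ) : ℂ) + t * I := by
      push_cast; ring
    have e4 : (((1 / 2 + x : ℝ) : ℂ) + t * I).im = t := by simp
    rw [e1, e2, e3] at h3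
    unfold GH
    rw [e4]
    have h5 : |t| ^ x ≤ (1 + |t|) ^ x := Real.rpow_le_rpow (abs_nonneg _) (by linarith) h0
    have h6 := bas_Gamma_half_cosh t
    have h7 : 0 ≤ |t| ^ x := by positivity
    calc ‖Gamma (((1 / 2 + x : ℝ) : ℂ) + t * I)‖ * Real.cosh (Real.pi * t / 2)
        ≤ (8 * (1 + 1 / 2) * |t| ^ x * ‖Gamma (((1 / 2 : ℝ) : ℂ) + t * I)‖) *
          Real.cosh (Real.pi * t / 2) := by
          have := (Real.cosh_pos (Real.pi * t / 2)).le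
          gcongr
      _ = 12 * |t| ^ x * (‖Gamma (((1 / 2 : ℝ) : ℂ) + t * I)‖ *
          Real.cosh (Real.pi * t / 2)) := by ring
      _ ≤ 12 * |t| ^ x * 2 := by gcongr
      _ = 24 * |t| ^ x := by ring
      _ ≤ max C 24 * (1 + |t|) ^ x := by
          have : (24:ℝ) ≤ max C 24 := le_max_right _ _
          gcongr

lemma GH_poly : ∃ C : ℝ, 1 ≤ C ∧ ∀ (k : ℕ) (s : ℂ), 1 / 2 ≤ s.re → s.re ≤ 3 / 2 + k →
    GH s ≤ C * (1 + ‖s‖) ^ (k + 1) := by
  obtain ⟨C, hC1, hC⟩ := GH_one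
  refine ⟨C, hC1, fun k => ?_⟩
  induction k with
  | zero =>
    intro s h1 h2
    have h3 := hC (s.re - 1 / 2) s.im (by linarith) (by simp at h2; linarith)
    have e1 : (((1 / 2 + (s.re - 1 / 2) : ℝ) : ℂ) + s.im * I) = s := by
      have : (1 / 2 + (s.re - 1 / 2) : ℝ) = s.re := by ring
      rw [this]; exact Complex.re_add_im s
    rw [e1] at h3
    refine h3.trans ?_
    have h4 : (1 + |s.im|) ^ (s.re - 1 / 2) ≤ (1 + |s.im|) ^ (1:ℝ) :=
      Real.rpow_le_rpow_of_exponent_le (by linarith [abs_nonneg s.im]) (by simp at h2; linarith)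
    rw [Real.rpow_one] at h4
    have h5 := Complex.abs_im_le_norm s
    have : (1 + |s.im|) ^ (s.re - 1 / 2) ≤ (1 + ‖s‖) ^ (0 + 1) := by
      rw [zero_add, pow_one]; linarith
    gcongr
  | succ k ih =>
    intro s h1 h2
    rcases le_total s.re (3 / 2 + k) with h | h
    · refine (ih s h1 h).trans ?_
      have h6 : (1 + ‖s‖) ^ (k + 1) ≤ (1 + ‖s‖) ^ (k + 1 + 1) :=
        pow_le_pow_right₀ (by linarith [norm_nonneg s]) (by omega)
      gcongr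
    · have hk : (0:ℝ) ≤ k := Nat.cast_nonneg k
      have h3 := ih (s - 1) (by simp; linarith) (by simp; push_cast at h2; linarith)
      have h4 : ‖s - 1‖ ≤ ‖s‖ := by
        have e1 := Complex.sq_norm_sub_sq_re (s - 1)
        have e2 := Complex.sq_norm_sub_sq_re s
        have e3 : ‖s - 1‖ ^ 2 ≤ ‖s‖ ^ 2 := by
          simp at e1
          nlinarith
        exact (sq_le_sq₀ (norm_nonneg _) (norm_nonneg _)).1 e3
      have hs0 : s - 1 ≠ 0 := by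
        intro h0
        have := congrArg Complex.re h0
        simp at this
        linarith
      have e4 : GH s = ‖s - 1‖ * GH (s - 1) := by
        unfold GH
        have := Complex.Gamma_add_one (s - 1) hs0
        rw [sub_add_cancel] at this
        rw [this, norm_mul]
        simp [mul_assoc]
      rw [e4]
      calc ‖s - 1‖ * GH (s - 1) ≤ ‖s‖ * (C * (1 + ‖s‖) ^ (k + 1)) := by
            refine mul_le_mul h4 (h3.trans ?_) (GH_nonneg _) (norm_nonneg _)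
            gcongr
        _ ≤ (1 + ‖s‖) * (C * (1 + ‖s‖) ^ (k + 1)) := by
            gcongr; linarith [norm_nonneg s]
        _ = C * (1 + ‖s‖) ^ (k + 1 + 1) := by ring

lemma bas_norm_cos_le (z : ℂ) : ‖Complex.cos z‖ ≤ Real.cosh z.im := by
  rw [Complex.cos, Real.cosh_eq]
  rw [norm_div]
  have h2 : ‖(2:ℂ)‖ = 2 := by simp
  rw [h2]
  have h3 : ‖cexp (z * I) + cexp (-z * I)‖ ≤ ‖cexp (z * I)‖ + ‖cexp (-z * I)‖ := norm_add_le _ _
  have h4 : ‖cexp (z * I)‖ = Real.exp (-z.im) := by rw [Complex.norm_exp]; simp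
  have h5 : ‖cexp (-z * I)‖ = Real.exp z.im := by rw [Complex.norm_exp]; simp
  rw [h4, h5] at h3
  linarith

/-- functional equation, in norm -/
lemma bas_FE {s : ℂ} (hs : 0 < s.re) (h1 : s ≠ 1) :
    ‖riemannZeta (1 - s)‖ ≤ 2 * GH s * ‖riemannZeta s‖ := by
  have h := riemannZeta_one_sub (s := s) (by
    intro n hn
    have := congrArg Complex.re hn
    simp at this
    have : (0:ℝ) ≤ n := Nat.cast_nonneg n
    linarith) h1
  rw [h, norm_mul, norm_mul, norm_mul, norm_mul]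
  have e1 : ‖(2:ℂ)‖ = 2 := by simp
  have e2 : ‖(2 * (Real.pi : ℂ)) ^ (-s)‖ ≤ 1 := by
    have : (2 * (Real.pi : ℂ)) = ((2 * Real.pi : ℝ) : ℂ) := by push_cast; ring
    rw [this, Complex.norm_cpow_eq_rpow_re_of_pos (by positivity)]
    refine Real.rpow_le_one_of_one_le_of_nonpos ?_ (by simp; linarith)
    have := Real.pi_gt_three; linarith
  have e3 : ‖Complex.cos (Real.pi * s / 2)‖ ≤ Real.cosh (Real.pi * s.im / 2) := by
    refine (bas_norm_cos_le _).trans (le_of_eq ?_)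
    congr 1
    have : (Real.pi : ℂ) * s / 2 = ((Real.pi / 2 : ℝ) : ℂ) * s := by push_cast; ring
    rw [this, Complex.im_ofReal_mul]
    ring
  rw [e1]
  unfold GH
  calc 2 * ‖(2 * (Real.pi : ℂ)) ^ (-s)‖ * ‖Gamma s‖ * ‖Complex.cos (Real.pi * s / 2)‖ *
        ‖riemannZeta s‖ ≤ 2 * 1 * ‖Gamma s‖ * Real.cosh (Real.pi * s.im / 2) *
        ‖riemannZeta s‖ := by gcongr
    _ = _ := by ring

lemma Zf_growth_right {s : ℂ} (hs : 1 / 2 ≤ s.re) : ‖Zf s‖ ≤ 4 * (1 + ‖s‖) ^ 2 := by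
  rw [Zf_eq_zeta₀]
  have h1 := Pool.Agent.H26.norm_riemannZeta₀_le (s := s) (by linarith)
  have h2 : ‖s‖ / s.re ≤ 2 * ‖s‖ := by
    rw [div_le_iff₀ (by linarith)]
    nlinarith [norm_nonneg s]
  have h3 : ‖s - 1‖ ≤ ‖s‖ + 1 := by
    have := norm_sub_le s 1
    simpa using this
  have h4 : ‖(1:ℂ) + (s - 1) * riemannZeta₀ s‖ ≤ 1 + ‖s - 1‖ * ‖riemannZeta₀ s‖ := by
    have := norm_add_le (1:ℂ) ((s - 1) * riemannZeta₀ s)
    rw [norm_mul] at this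
    simpa using this
  refine h4.trans ?_
  have h5 : ‖s - 1‖ * ‖riemannZeta₀ s‖ ≤ (‖s‖ + 1) * (1 + 2 * ‖s‖) := by
    gcongr
    linarith
  nlinarith [norm_nonneg s]

theorem Zf_growth : ∃ (C : ℝ) (A : ℕ), 1 ≤ C ∧ ∀ s : ℂ, -3 ≤ s.re → ‖Zf s‖ ≤ C * (1 + ‖s‖) ^ A := by
  obtain ⟨C, hC1, hC⟩ := GH_poly
  obtain ⟨D, hD⟩ := (isCompact_closedBall (0:ℂ) 1).bddAbove_image Zf_diff.continuous.norm.continuousOn
  refine ⟨max D (max 4 (8 * C * 2 ^ 7)), 7, ?_, fun s hs => ?_⟩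
  · exact le_trans (by norm_num) ((le_max_left 4 _).trans (le_max_right D _))
  have hp : (1:ℝ) ≤ 1 + ‖s‖ := by linarith [norm_nonneg s]
  rcases le_total ‖s‖ 1 with h | h
  · have h1 : ‖Zf s‖ ≤ D := hD ⟨s, by simpa using h, rfl⟩
    have h2 : (1:ℝ) ≤ (1 + ‖s‖) ^ 7 := one_le_pow₀ hp
    have h3 : D ≤ max D (max 4 (8 * C * 2 ^ 7)) := le_max_left _ _
    have h4 : 0 ≤ max D (max 4 (8 * C * 2 ^ 7)) :=
      le_trans (by norm_num) ((le_max_left 4 _).trans (le_max_right D _))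
    nlinarith
  rcases le_total (1 / 2) s.re with h2 | h2
  · refine (Zf_growth_right h2).trans ?_
    have h3 : (1 + ‖s‖) ^ 2 ≤ (1 + ‖s‖) ^ 7 := pow_le_pow_right₀ hp (by norm_num)
    have h4 : (4:ℝ) ≤ max D (max 4 (8 * C * 2 ^ 7)) := (le_max_left 4 _).trans (le_max_right D _)
    gcongr
  · set w : ℂ := 1 - s with hw
    have hwr : w.re = 1 - s.re := by simp [hw]
    have hs1 : s = 1 - w := by rw [hw]; ring
    have hw1 : w ≠ 1 := by
      intro h3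
      rw [h3] at hs1
      simp at hs1
      rw [hs1] at h
      simp at h
      linarith
    have hsne : s ≠ 1 := by
      rintro rfl
      simp at h2
      linarith
    have h3 : ‖w‖ ≤ 1 + ‖s‖ := by
      have := norm_sub_le (1:ℂ) s
      simpa using this
    have h4 := bas_FE (s := w) (by rw [hwr]; linarith) hw1
    rw [← hs1] at h4
    have h5 := hC 3 w (by rw [hwr]; linarith) (by rw [hwr]; norm_num; linarith)
    have h6 : ‖riemannZeta w‖ ≤ ‖Zf w‖ := by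
      rw [Zf_eq hw1, norm_mul]
      have : ‖w - 1‖ = ‖s‖ := by rw [hw, show (1:ℂ) - s - 1 = -s by ring, norm_neg]
      rw [this]
      nlinarith [norm_nonneg (riemannZeta w)]
    have h7 := Zf_growth_right (s := w) (by rw [hwr]; linarith)
    have h8 : 1 + ‖w‖ ≤ 2 * (1 + ‖s‖) := by linarith
    rw [Zf_eq hsne, norm_mul]
    have h9 : ‖s - 1‖ = ‖w‖ := by rw [hw, ← norm_neg]; congr 1; ring
    rw [h9]
    have h10 : ‖w‖ ≤ 1 + ‖w‖ := by linarith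
    calc ‖w‖ * ‖riemannZeta s‖ ≤ (1 + ‖w‖) * (2 * (C * (1 + ‖w‖) ^ (3 + 1)) *
          (4 * (1 + ‖w‖) ^ 2)) := by
          refine mul_le_mul h10 (h4.trans ?_) (norm_nonneg _) (by positivity)
          refine mul_le_mul ?_ (h6.trans h7) (norm_nonneg _) (by positivity)
          gcongr
      _ = 8 * C * (1 + ‖w‖) ^ 7 := by ring
      _ ≤ 8 * C * (2 * (1 + ‖s‖)) ^ 7 := by gcongr
      _ = (8 * C * 2 ^ 7) * (1 + ‖s‖) ^ 7 := by ring
      _ ≤ _ := by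
          gcongr
          exact (le_max_right 4 _).trans (le_max_right D _)

theorem zeta_left : ∃ C : ℝ, 1 ≤ C ∧ ∀ x t : ℝ, 0 ≤ x → x ≤ 1 / 4 →
    ‖riemannZeta (((1 / 2 - x : ℝ) : ℂ) + t * I)‖ ≤
      C * (1 + |t|) ^ x * ‖riemannZeta (((1 / 2 + x : ℝ) : ℂ) - t * I)‖ := by
  obtain ⟨C, hC1, hC⟩ := GH_one
  refine ⟨2 * C, by linarith, fun x t h0 h1 => ?_⟩
  have h2 := hC x (-t) h0 (by linarith)
  rw [abs_neg] at h2
  have e1 : (((1 / 2 + x : ℝ) : ℂ) + ((-t : ℝ) : ℂ) * I) = ((1 / 2 + x : ℝ) : ℂ) - t * I := by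
    push_cast; ring
  rw [e1] at h2
  have h3 := bas_FE (s := ((1 / 2 + x : ℝ) : ℂ) - t * I) (by simp; linarith) (by
    intro h
    have := congrArg Complex.re h
    simp at this
    linarith)
  have e2 : (1 : ℂ) - (((1 / 2 + x : ℝ) : ℂ) - t * I) = ((1 / 2 - x : ℝ) : ℂ) + t * I := by
    push_cast; ring
  rw [e2] at h3
  refine h3.trans ?_
  have : 2 * GH (((1 / 2 + x : ℝ) : ℂ) - t * I) ≤ 2 * C * (1 + |t|) ^ x := by linarith
  gcongr

lemma zeta_quot_eq {s : ℂ} (h0 : s.re < 0) (h1 : -1 < s.re) (hz : riemannZeta s ≠ 0) :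
    riemannZeta (2 * s) / riemannZeta s = (2 * Real.pi : ℂ) ^ s * (2:ℂ) ^ (-(2 * s)) *
      (Real.sqrt Real.pi : ℂ)⁻¹ * 2 * Gamma (1 / 2 - s) * Complex.cos (Real.pi * s / 2) *
      (riemannZeta (1 - 2 * s) / riemannZeta (1 - s)) := by
  have hpi : (2 * Real.pi : ℂ) ≠ 0 := by
    have := Real.pi_ne_zero
    exact mul_ne_zero two_ne_zero (by exact_mod_cast this)
  have g1 := riemannZeta_one_sub (s := 1 - s) (by
    intro n hn
    have := congrArg Complex.re hn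
    simp at this
    have : (0:ℝ) ≤ n := Nat.cast_nonneg n
    linarith) (by
    intro h
    have := congrArg Complex.re h
    simp at this
    linarith)
  have g2 := riemannZeta_one_sub (s := 1 - 2 * s) (by
    intro n hn
    have := congrArg Complex.re hn
    simp at this
    have : (0:ℝ) ≤ n := Nat.cast_nonneg n
    linarith) (by
    intro h
    have := congrArg Complex.re h
    simp at this
    linarith)
  have e1 : (1:ℂ) - (1 - s) = s := by ring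
  have e2 : (1:ℂ) - (1 - 2 * s) = 2 * s := by ring
  rw [e1] at g1
  rw [e2] at g2
  have c1 : Complex.cos (Real.pi * (1 - s) / 2) = Complex.sin (Real.pi * s / 2) := by
    rw [show (Real.pi : ℂ) * (1 - s) / 2 = Real.pi / 2 - Real.pi * s / 2 by ring,
      Complex.cos_pi_div_two_sub]
  have c2 : Complex.cos (Real.pi * (1 - 2 * s) / 2) =
      2 * Complex.sin (Real.pi * s / 2) * Complex.cos (Real.pi * s / 2) := by
    rw [show (Real.pi : ℂ) * (1 - 2 * s) / 2 = Real.pi / 2 - 2 * (Real.pi * s / 2) by ring,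
      Complex.cos_pi_div_two_sub, Complex.sin_two_mul]
  rw [c1] at g1
  rw [c2] at g2
  have L := Complex.Gamma_mul_Gamma_add_half (1 / 2 - s)
  have e3 : (1 / 2 - s) + 1 / 2 = 1 - s := by ring
  have e4 : 2 * (1 / 2 - s) = 1 - 2 * s := by ring
  have e5 : (1:ℂ) - (1 - 2 * s) = 2 * s := by ring
  rw [e3, e4, e5] at L
  have hG1 : Gamma (1 - s) ≠ 0 := by
    refine Complex.Gamma_ne_zero_of_re_pos ?_
    simp; linarith
  have hsp : (Real.sqrt Real.pi : ℂ) ≠ 0 := by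
    have : Real.sqrt Real.pi ≠ 0 := (Real.sqrt_pos.2 Real.pi_pos).ne'
    exact_mod_cast this
  have h2s : (2:ℂ) ^ (2 * s) ≠ 0 := by simp [Complex.cpow_eq_zero_iff]
  have hsin : Complex.sin (Real.pi * s / 2) ≠ 0 := by
    intro h; rw [h] at g1; apply hz; rw [g1]; ring
  have hz1 : riemannZeta (1 - s) ≠ 0 := by
    intro h; rw [h] at g1; apply hz; rw [g1]; ring
  have hG2 : Gamma (1 - 2 * s) = Gamma (1 / 2 - s) * Gamma (1 - s) * ((2:ℂ) ^ (2 * s))⁻¹ *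
      (Real.sqrt Real.pi : ℂ)⁻¹ := by
    rw [L]
    field_simp
  have p3 : (2:ℂ) ^ (-(2 * s)) = ((2:ℂ) ^ (2 * s))⁻¹ := Complex.cpow_neg _ _
  have p1 : (2 * Real.pi : ℂ) ^ (-(1 - 2 * s)) =
      (2 * Real.pi : ℂ) ^ (-(1 - s)) * (2 * Real.pi : ℂ) ^ s := by
    rw [← Complex.cpow_add _ _ hpi]; congr 1; ring
  have hp0 : (2 * Real.pi : ℂ) ^ (-(1 - s)) ≠ 0 := by
    rw [Ne, Complex.cpow_eq_zero_iff]; tauto
  rw [g2, g1, hG2, p1, p3]
  generalize Gamma (1 / 2 - s) = G0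
  field_simp

theorem zeta_quot : ∃ C : ℝ, 1 ≤ C ∧ ∀ b t : ℝ, 0 < b → b ≤ 1 / 4 →
    ‖riemannZeta (2 * (((-b : ℝ) : ℂ) + t * I)) / riemannZeta (((-b : ℝ) : ℂ) + t * I)‖ ≤
      C * (1 + |t|) ^ b * ‖riemannZeta (((1 + 2 * b : ℝ) : ℂ) - 2 * t * I)‖ *
        ‖riemannZeta (((1 + b : ℝ) : ℂ) - t * I)‖⁻¹ := by
  obtain ⟨C, hC1, hC⟩ := GH_one
  refine ⟨4 * C, by linarith, fun b t h0 h1 => ?_⟩
  rcases eq_or_ne (riemannZeta (((-b : ℝ) : ℂ) + t * I)) 0 with hz | hz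
  · rw [hz]
    simp
    positivity
  set s : ℂ := ((-b : ℝ) : ℂ) + t * I with hs
  have hre : s.re = -b := by simp [hs]
  have him : s.im = t := by simp [hs]
  rw [zeta_quot_eq (by rw [hre]; linarith) (by rw [hre]; linarith) hz]
  have e1 : (1:ℂ) - 2 * s = ((1 + 2 * b : ℝ) : ℂ) - 2 * t * I := by rw [hs]; push_cast; ring
  have e2 : (1:ℂ) - s = ((1 + b : ℝ) : ℂ) - t * I := by rw [hs]; push_cast; ring
  have e3 : (1:ℂ) / 2 - s = ((1 / 2 + b : ℝ) : ℂ) + ((-t : ℝ) : ℂ) * I := by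
    rw [hs]; push_cast; ring
  rw [e1, e2, e3]
  have h2 := hC b (-t) h0.le (by linarith)
  rw [abs_neg] at h2
  rw [norm_mul, norm_mul, norm_mul, norm_mul, norm_mul, norm_mul, norm_div, norm_inv]
  have n1 : ‖(2 * Real.pi : ℂ) ^ s‖ ≤ 1 := by
    have : (2 * (Real.pi : ℂ)) = ((2 * Real.pi : ℝ) : ℂ) := by push_cast; ring
    rw [this, Complex.norm_cpow_eq_rpow_re_of_pos (by positivity)]
    refine Real.rpow_le_one_of_one_le_of_nonpos ?_ (by rw [hre]; linarith)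
    have := Real.pi_gt_three; linarith
  have n2 : ‖(2:ℂ) ^ (-(2 * s))‖ ≤ 2 := by
    have : (2 : ℂ) = ((2 : ℝ) : ℂ) := by push_cast; ring
    rw [this, Complex.norm_cpow_eq_rpow_re_of_pos (by positivity)]
    have h5 : (-(((2:ℝ):ℂ) * s)).re ≤ 1 := by
      rw [Complex.neg_re, Complex.re_ofReal_mul, hre]; linarith
    calc (2:ℝ) ^ (-(((2:ℝ):ℂ) * s)).re ≤ (2:ℝ) ^ (1:ℝ) :=
          Real.rpow_le_rpow_of_exponent_le (by norm_num) h5
      _ = 2 := Real.rpow_one 2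
  have n3 : ‖(Real.sqrt Real.pi : ℂ)‖⁻¹ ≤ 1 := by
    rw [Complex.norm_real, Real.norm_of_nonneg (Real.sqrt_nonneg _)]
    refine inv_le_one_of_one_le₀ ?_
    rw [Real.one_le_sqrt]
    have := Real.pi_gt_three; linarith
  have n4 : ‖(2:ℂ)‖ = 2 := by simp
  have n5 : ‖Complex.cos (Real.pi * s / 2)‖ ≤ Real.cosh (Real.pi * t / 2) := by
    refine (bas_norm_cos_le _).trans (le_of_eq ?_)
    congr 1
    have : (Real.pi : ℂ) * s / 2 = ((Real.pi / 2 : ℝ) : ℂ) * s := by push_cast; ring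
    rw [this, Complex.im_ofReal_mul, him]
    ring
  have n6 : GH (((1 / 2 + b : ℝ) : ℂ) + ((-t : ℝ) : ℂ) * I) =
      ‖Gamma (((1 / 2 + b : ℝ) : ℂ) + ((-t : ℝ) : ℂ) * I)‖ * Real.cosh (Real.pi * t / 2) := by
    unfold GH
    have : (((1 / 2 + b : ℝ) : ℂ) + ((-t : ℝ) : ℂ) * I).im = -t := by simp
    rw [this]
    congr 1
    rw [show Real.pi * -t / 2 = -(Real.pi * t / 2) by ring, Real.cosh_neg]
  rw [n6] at h2
  rw [n4]
  set G : ℝ := ‖Gamma (((1 / 2 + b : ℝ) : ℂ) + ((-t : ℝ) : ℂ) * I)‖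
  have hG : 0 ≤ G := norm_nonneg _
  calc ‖(2 * Real.pi : ℂ) ^ s‖ * ‖(2:ℂ) ^ (-(2 * s))‖ * ‖(Real.sqrt Real.pi : ℂ)‖⁻¹ * 2 * G *
        ‖Complex.cos (Real.pi * s / 2)‖ *
        (‖riemannZeta (((1 + 2 * b : ℝ) : ℂ) - 2 * t * I)‖ /
          ‖riemannZeta (((1 + b : ℝ) : ℂ) - t * I)‖)
      ≤ 1 * 2 * 1 * 2 * G * Real.cosh (Real.pi * t / 2) *
        (‖riemannZeta (((1 + 2 * b : ℝ) : ℂ) - 2 * t * I)‖ /
          ‖riemannZeta (((1 + b : ℝ) : ℂ) - t * I)‖) := by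
        gcongr
    _ = 4 * (G * Real.cosh (Real.pi * t / 2)) *
        (‖riemannZeta (((1 + 2 * b : ℝ) : ℂ) - 2 * t * I)‖ /
          ‖riemannZeta (((1 + b : ℝ) : ℂ) - t * I)‖) := by ring
    _ ≤ 4 * (C * (1 + |t|) ^ b) *
        (‖riemannZeta (((1 + 2 * b : ℝ) : ℂ) - 2 * t * I)‖ /
          ‖riemannZeta (((1 + b : ℝ) : ℂ) - t * I)‖) := by gcongr
    _ = _ := by rw [div_eq_mul_inv]; ring

lemma bas_term_le {n : ℕ} (hn : 2 ≤ n) {σ : ℝ} (hσ : 5 / 2 ≤ σ) :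
    (n : ℝ) ^ (-σ) ≤ 0.44 * (1 / (n : ℝ) ^ 2) + 1.25 * (1 / (n : ℝ) ^ 4) := by
  have hn1 : (1:ℝ) ≤ n := by exact_mod_cast (by omega : 1 ≤ n)
  have hn0 : (0:ℝ) < n := by linarith
  have h1 : (n : ℝ) ^ (-σ) ≤ (n : ℝ) ^ (-(5 / 2) : ℝ) :=
    Real.rpow_le_rpow_of_exponent_le hn1 (by linarith)
  refine h1.trans ?_
  set r : ℝ := Real.sqrt n with hr
  have hr0 : 0 < r := Real.sqrt_pos.2 hn0
  have hr2 : r ^ 2 = n := Real.sq_sqrt hn0.le
  have e1 : (n : ℝ) ^ (-(5 / 2) : ℝ) = 1 / r ^ 5 := by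
    have h3 : (n : ℝ) ^ (-(5 / 2) : ℝ) = (r ^ 2) ^ (-(5 / 2) : ℝ) := by rw [hr2]
    rw [h3, ← Real.rpow_natCast, ← Real.rpow_mul hr0.le, one_div, ← Real.rpow_natCast,
      ← Real.rpow_neg hr0.le]
    congr 1; push_cast; norm_num
  rw [e1, ← hr2]
  have h4 : 0 ≤ 0.44 * r ^ 4 - r ^ 3 + 1.25 := by
    nlinarith [sq_nonneg (r ^ 2 - 1.136363 * r - 0.9684), sq_nonneg (r - 1.7045),
      sq_nonneg (r ^ 2 - 2.905)]
  have e2 : 0.44 * (1 / (r ^ 2) ^ 2) + 1.25 * (1 / (r ^ 2) ^ 4) - 1 / r ^ 5 =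
      (0.44 * r ^ 4 - r ^ 3 + 1.25) / r ^ 8 := by
    field_simp
    ring
  have h5 : 0 ≤ (0.44 * r ^ 4 - r ^ 3 + 1.25) / r ^ 8 := by positivity
  linarith

theorem zeta_three {s : ℂ} (hs : 5 / 2 ≤ s.re) : ‖riemannZeta s - 1‖ ≤ 2 / 5 := by
  have h1 : 1 < s.re := by linarith
  have hsum := Complex.summable_one_div_nat_cpow.2 h1
  have e := zeta_eq_tsum_one_div_nat_cpow h1
  have hs0 : s ≠ 0 := by rintro rfl; simp at h1; linarith
  rw [← hsum.sum_add_tsum_nat_add 2] at e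
  have e0 : ∑ i ∈ Finset.range 2, 1 / ((i : ℕ) : ℂ) ^ s = 1 := by
    rw [Finset.sum_range_succ, Finset.sum_range_one]
    simp [Complex.zero_cpow hs0]
  rw [e0] at e
  rw [e, add_sub_cancel_left]
  have H2 := hasSum_zeta_two.summable
  have H4 := hasSum_zeta_four.summable
  set g : ℕ → ℝ := fun n => 0.44 * (1 / (n : ℝ) ^ 2) + 1.25 * (1 / (n : ℝ) ^ 4) with hg
  have Hg : HasSum g (0.44 * (Real.pi ^ 2 / 6) + 1.25 * (Real.pi ^ 4 / 90)) :=
    (hasSum_zeta_two.mul_left 0.44).add (hasSum_zeta_four.mul_left 1.25)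
  have Hg2 : Summable fun n => g (n + 2) := (summable_nat_add_iff 2).2 Hg.summable
  have hle : ∀ n : ℕ, ‖1 / (((n + 2 : ℕ)) : ℂ) ^ s‖ ≤ g (n + 2) := by
    intro n
    rw [norm_div, norm_one, Complex.norm_natCast_cpow_of_pos (by omega), one_div,
      ← Real.rpow_neg (Nat.cast_nonneg _)]
    exact bas_term_le (by omega) hs
  refine (tsum_of_norm_bounded Hg2.hasSum hle).trans ?_
  have h3 := Hg.summable.sum_add_tsum_nat_add 2
  rw [Hg.tsum_eq, Finset.sum_range_succ, Finset.sum_range_one] at h3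
  have g0 : g 0 = 0 := by simp [hg]
  have g1 : g 1 = 1.69 := by simp [hg]; norm_num
  rw [g0, g1] at h3
  have hpi := Real.pi_lt_d4
  have hpi0 := Real.pi_pos
  have p2 : Real.pi ^ 2 ≤ 9.8697 := by nlinarith
  have p4 : Real.pi ^ 4 ≤ 97.42 := by nlinarith
  linarith

end Pool.Agent.ZR
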