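import Pool.Agent.ZR.BAS1

/-!
# Base facts on the zeros
`no_real`: `H26.ZetaGrowth`: `ζ(s) = s/(s-1) - s frJ s` for `0 < Re s`, `frJ` real and `≥ 0` on reals.
Finiteness: `Zf` entire, not zero, compactness. Zeros with `Re ≥ 1`: `riemannZeta_ne_zero_of_one_le_re`.
`Zs_rect`: a zero of ζ with `-1 < Re` is in `Zs` (trivial zeros are `≤ -2`): functional equation.
-/

set_option autoImplicit false

open Complex MeasureTheory Set Finset

namespace Pool.Agent.ZR

lemma bas_frJ_re (σ : ℝ) : 0 ≤ (Pool.Agent.H26.frJ (σ : ℂ)).re := by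
  have e : Pool.Agent.H26.frJ (σ : ℂ) =
      ((∫ x in Set.Ioi (1:ℝ), Int.fract x * x ^ (-(σ + 1)) : ℝ) : ℂ) := by
    unfold Pool.Agent.H26.frJ
    rw [← integral_complex_ofReal]
    refine setIntegral_congr_fun measurableSet_Ioi fun x hx => ?_
    have hx0 : (0:ℝ) ≤ x := (lt_trans one_pos hx).le
    rw [Complex.ofReal_mul, Complex.ofReal_cpow hx0]
    push_cast
    rfl
  rw [e, Complex.ofReal_re]
  refine setIntegral_nonneg measurableSet_Ioi fun x hx => ?_
  have hx0 : (0:ℝ) < x := lt_trans one_pos hx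
  exact mul_nonneg (Int.fract_nonneg x) (Real.rpow_nonneg hx0.le _)

theorem no_real {ρ : ℂ} (h : ρ ∈ Zs) : ρ.im ≠ 0 := by
  intro h0
  obtain ⟨hz, h1, h2⟩ := h
  have e : ρ = (ρ.re : ℂ) := by
    apply Complex.ext <;> simp [h0]
  have hne : ρ ≠ 1 := by rintro rfl; simp at h2
  rw [riemannZeta_eq_inv_sub_add hne, Pool.Agent.H26.riemannZeta₀_eq h1] at hz
  have hJ := bas_frJ_re ρ.re
  rw [← e] at hJ
  have h3 := congrArg Complex.re hz
  rw [e] at h3
  rw [← e] at h3
  have h4 : (ρ - 1)⁻¹.re = (ρ.re - 1)⁻¹ := by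
    have : (ρ - 1)⁻¹ = (((ρ.re - 1)⁻¹ : ℝ) : ℂ) := by push_cast; rw [← e]
    rw [this, Complex.ofReal_re]
  have h5 : (ρ * Pool.Agent.H26.frJ ρ).re = ρ.re * (Pool.Agent.H26.frJ ρ).re := by
    rw [Complex.mul_re, h0]; ring
  simp only [Complex.add_re, Complex.sub_re, Complex.one_re, Complex.zero_re] at h3
  rw [h4, h5] at h3
  have h6 : (ρ.re - 1)⁻¹ < -1 := by
    rw [← neg_lt_neg_iff, neg_neg, ← inv_neg, neg_sub]
    exact one_lt_inv_iff₀.2 ⟨by linarith, by linarith⟩
  nlinarith [mul_nonneg h1.le hJ]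

theorem Zs_conj {ρ : ℂ} (h : ρ ∈ Zs) : (starRingEnd ℂ) ρ ∈ Zs := by
  obtain ⟨hz, h1, h2⟩ := h
  refine ⟨?_, by simpa using h1, by simpa using h2⟩
  rw [riemannZeta_conj, hz, map_zero]

theorem Zs_one_sub {ρ : ℂ} (h : ρ ∈ Zs) : 1 - ρ ∈ Zs := by
  obtain ⟨hz, h1, h2⟩ := h
  refine ⟨?_, by simpa using h2, by simpa using h1⟩
  rw [riemannZeta_one_sub, hz, mul_zero]
  · intro n hn
    have := congrArg Complex.re hn
    simp at this
    have : (0:ℝ) ≤ n := Nat.cast_nonneg n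
    linarith
  · rintro rfl; simp at h2

theorem Zf_zero_iff {s : ℂ} (h : -1 < s.re) : Zf s = 0 ↔ s ∈ Zs := by
  constructor
  · intro h0
    have hs1 : s ≠ 1 := by rintro rfl; rw [Zf_one] at h0; exact one_ne_zero h0
    rw [Zf_eq hs1] at h0
    have hz : riemannZeta s = 0 := (mul_eq_zero.1 h0).resolve_left (sub_ne_zero.2 hs1)
    have h1 : s.re < 1 := by
      by_contra hc
      exact riemannZeta_ne_zero_of_one_le_re (not_lt.1 hc) hz
    refine ⟨hz, ?_, h1⟩
    by_contra hc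
    have hs0 : s ≠ 0 := by rintro rfl; rw [riemannZeta_zero] at hz; norm_num at hz
    set w : ℂ := 1 - s with hw
    have hwr : w.re = 1 - s.re := by simp [hw]
    have hw1 : w ≠ 1 := by
      intro h3; apply hs0
      have : s = 1 - w := by rw [hw]; ring
      rw [this, h3]; ring
    have hfe := riemannZeta_one_sub (s := w) (by
      intro n hn
      have := congrArg Complex.re hn
      rw [hwr] at this
      simp at this
      have : (0:ℝ) ≤ n := Nat.cast_nonneg n
      linarith) hw1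
    have e1 : 1 - w = s := by rw [hw]; ring
    rw [e1, hz] at hfe
    have z1 : riemannZeta w ≠ 0 := riemannZeta_ne_zero_of_one_le_re (by rw [hwr]; linarith)
    have z2 : Gamma w ≠ 0 := Complex.Gamma_ne_zero_of_re_pos (by rw [hwr]; linarith)
    have hpi : (2 * Real.pi : ℂ) ≠ 0 := by
      have := Real.pi_ne_zero
      exact mul_ne_zero two_ne_zero (by exact_mod_cast this)
    have z3 : (2 * Real.pi : ℂ) ^ (-w) ≠ 0 := by
      rw [Ne, Complex.cpow_eq_zero_iff]; tauto
    have z4 : Complex.cos (Real.pi * w / 2) = 0 := by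
      have h5 := hfe.symm
      simp only [mul_eq_zero] at h5
      rcases h5 with (((h5 | h5) | h5) | h5) | h5
      · exact absurd h5 two_ne_zero
      · exact absurd h5 z3
      · exact absurd h5 z2
      · exact h5
      · exact absurd h5 z1
    rw [Complex.cos_eq_zero_iff] at z4
    obtain ⟨k, hk⟩ := z4
    have hpc : (Real.pi : ℂ) ≠ 0 := by exact_mod_cast Real.pi_ne_zero
    have h6 : w = 2 * k + 1 := by
      have : (Real.pi : ℂ) * (w - (2 * k + 1)) = 0 := by linear_combination 2 * hk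
      rcases mul_eq_zero.1 this with h | h
      · exact absurd h hpc
      · linear_combination h
    have h7 := congrArg Complex.re h6
    rw [hwr] at h7
    have h8 : (2 * (k : ℂ) + 1).re = 2 * (k : ℝ) + 1 := by simp
    rw [h8] at h7
    have h9 : (0 : ℝ) ≤ (k : ℝ) := by linarith [not_lt.1 hc]
    have h10 : (k : ℝ) < 1 := by linarith
    have h11 : (0 : ℤ) ≤ k := by exact_mod_cast h9
    have h12 : k < 1 := by exact_mod_cast h10
    have h13 : k = 0 := by omega
    apply hw1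
    rw [h6, h13]; simp
  · rintro ⟨hz, h1, h2⟩
    have hs1 : s ≠ 1 := by rintro rfl; simp at h2
    rw [Zf_eq hs1, hz, mul_zero]

theorem Zs_finite (T : ℝ) : {ρ : ℂ | ρ ∈ Zs ∧ |ρ.im| < T}.Finite := by
  by_contra hinf
  have hK : IsCompact (Set.Icc (0:ℝ) 1 ×ℂ Set.Icc (-T) T) := isCompact_Icc.reProdIm isCompact_Icc
  have hsub : {ρ : ℂ | ρ ∈ Zs ∧ |ρ.im| < T} ⊆ (Set.Icc (0:ℝ) 1 ×ℂ Set.Icc (-T) T) := by
    rintro ρ ⟨⟨_, h1, h2⟩, h3⟩
    have := abs_lt.1 h3
    exact ⟨⟨h1.le, h2.le⟩, ⟨this.1.le, this.2.le⟩⟩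
  obtain ⟨x, _, hx⟩ := Set.Infinite.exists_accPt_of_subset_isCompact hinf hK hsub
  have hA : AnalyticOnNhd ℂ Zf Set.univ :=
    (Zf_diff.differentiableOn).analyticOnNhd isOpen_univ
  rw [accPt_iff_frequently_nhdsNE] at hx
  have hz := hA.eqOn_zero_of_preconnected_of_frequently_eq_zero isPreconnected_univ
    (Set.mem_univ x) (hx.mono fun y hy => (Zf_zero_iff (by linarith [hy.1.2.1])).2 hy.1)
  have := hz (Set.mem_univ 1)
  rw [Zf_one] at this
  exact one_ne_zero this

/-- conjugate of a residue -/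
theorem res_conj (ρ : ℂ) : ‖riemannZeta (2 * (starRingEnd ℂ) ρ) / deriv riemannZeta ((starRingEnd ℂ) ρ)‖ =
    ‖riemannZeta (2 * ρ) / deriv riemannZeta ρ‖ := by
  have e1 : riemannZeta (2 * (starRingEnd ℂ) ρ) = (starRingEnd ℂ) (riemannZeta (2 * ρ)) := by
    rw [← riemannZeta_conj, map_mul, Complex.conj_ofNat]
  have e2 : deriv riemannZeta ((starRingEnd ℂ) ρ) = (starRingEnd ℂ) (deriv riemannZeta ρ) := by
    have h : (⇑(starRingEnd ℂ) ∘ riemannZeta ∘ ⇑(starRingEnd ℂ)) = riemannZeta := by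
      funext z
      simp [riemannZeta_conj]
    have h2 := congrFun (deriv_conj_conj (f := riemannZeta)) ((starRingEnd ℂ) ρ)
    rw [h] at h2
    rw [h2]; simp
  rw [e1, e2, norm_div, norm_div, Complex.norm_conj, Complex.norm_conj]

end Pool.Agent.ZR
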