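import Mathlib

/-!
# Residues of `ζ(2s)/ζ(s)` at the zeros of the zeta function: definitions
-/

set_option autoImplicit false

open Complex MeasureTheory Set Finset

namespace Pool.Agent.ZR

/-- The nontrivial zeros of the Riemann zeta function. -/
def Zs : Set ℂ := {ρ | riemannZeta ρ = 0 ∧ 0 < ρ.re ∧ ρ.re < 1}

open Classical in
/-- `(s - 1) ζ(s)`, an entire function. -/
noncomputable def Zf (s : ℂ) : ℂ := if s = 1 then 1 else (s - 1) * riemannZeta s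

/-- `(s - 1) / (s + 3)`. -/
noncomputable def eta (s : ℂ) : ℂ := (s - 1) / (s + 3)

/-- The weight `(1 + ((s - 1/2)/T)^2)^K`. -/
noncomputable def WK (K : ℕ) (T : ℝ) (s : ℂ) : ℂ := (1 + ((s - 1 / 2) / T) ^ 2) ^ K

/-- `μ(m) g(log m)`. -/
noncomputable def mug (g : ℝ → ℝ) (m : ℕ) : ℝ :=
  ((ArithmeticFunction.moebius m : ℤ) : ℝ) * g (Real.log m)

/-- `(log T) / 10000`. -/
noncomputable def el (T : ℝ) : ℝ := Real.log T / 10000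

/-- The length `T ^ (1/10000)` of the test polynomial. -/
noncomputable def N1 (T : ℝ) : ℕ := ⌊Real.exp (el T)⌋₊

/-- `(log T) / 40`. -/
noncomputable def lX (T : ℝ) : ℝ := Real.log T / 40

/-- The abscissa `1/2 - 1/log T`. -/
noncomputable def sg0 (T : ℝ) : ℝ := 1 / 2 - 1 / Real.log T

/-- The tapered Möbius polynomial `∑_{h ≤ e^y} μ(h) (y - log h) h^(-s)`. -/
noncomputable def Py (y : ℝ) (s : ℂ) : ℂ :=
  ∑ h ∈ Finset.Icc 1 ⌊Real.exp y⌋₊, (mug (fun v => y - v) h : ℂ) * (h : ℂ) ^ (-s)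

/-- The mollifier: its coefficients are `μ(h)` for `log h ≤ lX T / 2`. -/
noncomputable def psi (T : ℝ) (s : ℂ) : ℂ :=
  ((2 / lX T : ℝ) : ℂ) * (Py (lX T) s - Py (lX T / 2) s)

/-- `∑_{m ≤ N} μ(m) g(log m) m^(-1/2 + ε (s - 1/2))`. -/
noncomputable def ER (N : ℕ) (ε : ℝ) (g : ℝ → ℝ) (s : ℂ) : ℂ :=
  ∑ m ∈ Finset.Icc 1 N, (mug g m : ℂ) * (m : ℂ) ^ (-(1 / 2 : ℂ) + ε * (s - 1 / 2))

/-- The test polynomials: `Qe T 1 s = M(1 - s)`, `Qe T (-1) s = M(s)`, where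
`M(s) = ∑_{m ≤ N1 T} μ(m) (1 - log m / el T) m^(-s)`. -/
noncomputable def Qe (T ε : ℝ) (s : ℂ) : ℂ := ER (N1 T) ε (fun v => 1 - v / el T) s

/-- The weights of the derived polynomials. -/
noncomputable def gf (T a0 a1 κ : ℝ) (v : ℝ) : ℝ :=
  (1 - v / el T) * (a0 + a1 * v) * Real.exp (-(κ * v))

/-- The integrand of the first moment. -/
noncomputable def fX (K : ℕ) (T : ℝ) (s : ℂ) : ℂ :=
  riemannZeta (2 * s) / riemannZeta s * Qe T 1 s * WK K T s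

/-- A rectangle. -/
def rct (x0 x1 T : ℝ) : Set (ℝ × ℝ) := Icc x0 x1 ×ˢ Icc (-T) T

/-- The point `x + i t`. -/
noncomputable def pnt (q : ℝ × ℝ) : ℂ := (q.1 : ℂ) + (q.2 : ℂ) * I

/-- `p` is of class `C²` on `R`; `p1 = ∂p/∂x`, `p11 = ∂²p/∂x²`, `p2 = ∂p/∂t`, `p22 = ∂²p/∂t²`. -/
structure C2On (R : Set (ℝ × ℝ)) (p p1 p11 p2 p22 : ℝ → ℝ → ℝ) : Prop where
  h1 : ∀ q ∈ R, HasDerivAt (fun x => p x q.2) (p1 q.1 q.2) q.1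
  h11 : ∀ q ∈ R, HasDerivAt (fun x => p1 x q.2) (p11 q.1 q.2) q.1
  h2 : ∀ q ∈ R, HasDerivAt (fun t => p q.1 t) (p2 q.1 q.2) q.2
  h22 : ∀ q ∈ R, HasDerivAt (fun t => p2 q.1 t) (p22 q.1 q.2) q.2
  c : ContinuousOn (fun q : ℝ × ℝ => p q.1 q.2) R
  c1 : ContinuousOn (fun q : ℝ × ℝ => p1 q.1 q.2) R
  c11 : ContinuousOn (fun q : ℝ × ℝ => p11 q.1 q.2) R
  c2 : ContinuousOn (fun q : ℝ × ℝ => p2 q.1 q.2) R
  c22 : ContinuousOn (fun q : ℝ × ℝ => p22 q.1 q.2) R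

/-- Test functions on the rectangle `[x0, x1] × [-T, T]`: of class `C²`, nonnegative, vanishing
with their gradient on all sides except `x = x1`. -/
structure Tst (x0 x1 T : ℝ) (p p1 p11 p2 p22 : ℝ → ℝ → ℝ) : Prop where
  c2 : C2On (rct x0 x1 T) p p1 p11 p2 p22
  nn : ∀ q ∈ rct x0 x1 T, 0 ≤ p q.1 q.2
  l0 : ∀ t, |t| ≤ T → p x0 t = 0
  l1 : ∀ t, |t| ≤ T → p1 x0 t = 0
  u0 : ∀ x, x0 ≤ x → x ≤ x1 → p x T = 0
  u1 : ∀ x, x0 ≤ x → x ≤ x1 → p2 x T = 0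
  d0 : ∀ x, x0 ≤ x → x ≤ x1 → p x (-T) = 0
  d1 : ∀ x, x0 ≤ x → x ≤ x1 → p2 x (-T) = 0

/-- `D(u,t) = ∑ 2 C_m sinh(ν_m u) e^(i ν_m t)`, the harmonic function which vanishes at `u = 0`. -/
noncomputable def Dh (S : Finset ℕ) (C ν : ℕ → ℝ) (u t : ℝ) : ℂ :=
  ∑ m ∈ S, (2 * C m * Real.sinh (ν m * u) : ℝ) * cexp (I * (ν m * t : ℝ))

/-- `∑ C_m ν_m e^(ν_m u) e^(i ν_m t)`. -/
noncomputable def Da (S : Finset ℕ) (C ν : ℕ → ℝ) (u t : ℝ) : ℂ :=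
  ∑ m ∈ S, (C m * ν m * Real.exp (ν m * u) : ℝ) * cexp (I * (ν m * t : ℝ))

/-- `∑ C_m ν_m e^(-ν_m u) e^(i ν_m t)`. -/
noncomputable def Db (S : Finset ℕ) (C ν : ℕ → ℝ) (u t : ℝ) : ℂ :=
  ∑ m ∈ S, (C m * ν m * Real.exp (-(ν m * u)) : ℝ) * cexp (I * (ν m * t : ℝ))

/-- The weight `(1 - (t/T)^2)^3`. -/
noncomputable def wt (T t : ℝ) : ℝ := (1 - (t / T) ^ 2) ^ 3

/-- `∑_{h ≤ Y, q ∣ h} a_h h^(-1-κ)`. -/
noncomputable def yq (a : ℕ → ℝ) (Y : ℕ) (κ : ℝ) (q : ℕ) : ℝ :=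
  ∑ h ∈ (Finset.Icc 1 Y).filter (fun h => q ∣ h), a h * (h : ℝ) ^ (-(1 + κ))

/-- The Dirichlet polynomial `∑_{h ≤ Y} a_h h^(-s)`. -/
noncomputable def DPa (a : ℕ → ℝ) (Y : ℕ) (s : ℂ) : ℂ :=
  ∑ h ∈ Finset.Icc 1 Y, (a h : ℂ) * (h : ℂ) ^ (-s)

/-- `1/(e^z - 1) - 1/z`. -/
noncomputable def phi (z : ℂ) : ℂ := 1 / (cexp z - 1) - 1 / z

/-- `i e^(-i/T)`. -/
noncomputable def zT (T : ℝ) : ℂ := cexp (((Real.pi / 2 - 1 / T : ℝ) : ℂ) * I)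

/-- `∑_{h ≤ Y} a_h φ(h z r)`. -/
noncomputable def Gr (a : ℕ → ℝ) (Y : ℕ) (z : ℂ) (r : ℝ) : ℂ :=
  ∑ h ∈ Finset.Icc 1 Y, (a h : ℂ) * phi ((h : ℂ) * z * r)

/-- `∑_{n ≤ x, (n,q) = 1} μ(n) log(x/n) / n`. -/
noncomputable def T1 (q : ℕ) (x : ℝ) : ℝ :=
  ∑ n ∈ (Finset.Icc 1 ⌊x⌋₊).filter (fun n => Nat.Coprime n q),
    ((ArithmeticFunction.moebius n : ℤ) : ℝ) / n * Real.log (x / n)

/-- The coefficients of the product of two Möbius polynomials. -/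
noncomputable def cnv (f g : ℝ → ℝ) (Nf Ng : ℕ) (h : ℕ) : ℝ :=
  ∑ p ∈ h.divisorsAntidiagonal, if p.1 ≤ Nf ∧ p.2 ≤ Ng then mug f p.1 * mug g p.2 else 0

/-- `g` is of class `C²` on `[0, l]`, vanishes at `l`, and `|g'(l)| + ∫ |g''| ≤ B`. -/
structure Smo (l B : ℝ) (g g' g'' : ℝ → ℝ) : Prop where
  h1 : ∀ v ∈ Icc 0 l, HasDerivAt g (g' v) v
  h2 : ∀ v ∈ Icc 0 l, HasDerivAt g' (g'' v) v
  c : ContinuousOn g'' (Icc 0 l)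
  e : g l = 0
  b : |g' l| + ∫ v in (0:ℝ)..l, |g'' v| ≤ B

end Pool.Agent.ZR
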