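import Pool.Agent.ZR.XW
import Pool.Agent.ZR.BAS1

/-!
# The right side of the first moment
-/

set_option autoImplicit false

open Complex MeasureTheory Set Finset

namespace Pool.Agent.ZR.H44

/-- `2 log k + log l`. -/
private noncomputable def lam (p : ℕ × ℕ) : ℝ := 2 * Real.log p.1 + Real.log p.2

/-- the coefficient of the double series -/
private noncomputable def cf (p : ℕ × ℕ) : ℝ :=
  if p.1 = 0 then 0 else ((ArithmeticFunction.moebius p.2 : ℤ) : ℝ)

private lemma abs_mu_le (n : ℕ) : |((ArithmeticFunction.moebius n : ℤ) : ℝ)| ≤ 1 := by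
  exact_mod_cast ArithmeticFunction.abs_moebius_le_one

private lemma cf_le (p : ℕ × ℕ) : |cf p| ≤ 1 := by
  unfold cf
  split_ifs
  · simp
  · exact abs_mu_le _

private lemma cf_ne {p : ℕ × ℕ} (h : cf p ≠ 0) : 1 ≤ p.1 ∧ 1 ≤ p.2 := by
  unfold cf at h
  split_ifs at h with h1
  · exact absurd rfl h
  · refine ⟨Nat.pos_of_ne_zero h1, Nat.pos_of_ne_zero fun h2 => h ?_⟩
    rw [h2]; simp

private lemma cpow_exp' {m : ℕ} (hm : 1 ≤ m) (w : ℂ) :
    (m : ℂ) ^ w = cexp ((Real.log m : ℝ) * w) := by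
  have h0 : (m : ℂ) ≠ 0 := by exact_mod_cast (by omega : m ≠ 0)
  rw [Complex.cpow_def_of_ne_zero h0, Complex.ofReal_log (by positivity)]
  simp

private lemma term_eq (s : ℂ) (hs : 1 < s.re) (p : ℕ × ℕ) :
    (1 / (p.1 : ℂ) ^ (2 * s)) * (((ArithmeticFunction.moebius p.2 : ℤ) : ℂ) / (p.2 : ℂ) ^ s) =
    (cf p : ℂ) * cexp (-(lam p : ℂ) * s) := by
  rcases Nat.eq_zero_or_pos p.1 with h1 | h1
  · have h2 : (2 : ℂ) * s ≠ 0 := by
      intro h
      have := congrArg Complex.re h
      simp at this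
      linarith
    simp [cf, h1, Complex.zero_cpow h2]
  rcases Nat.eq_zero_or_pos p.2 with h2 | h2
  · simp [cf, h2]
  rw [cpow_exp' h1, cpow_exp' h2]
  unfold cf lam
  rw [if_neg (by omega)]
  rw [one_div, div_eq_mul_inv, ← Complex.exp_neg, ← Complex.exp_neg]
  have : cexp (-(((2 * Real.log p.1 + Real.log p.2 : ℝ) : ℂ)) * s) =
      cexp (-((Real.log p.1 : ℝ) * (2 * s))) * cexp (-((Real.log p.2 : ℝ) * s)) := by
    rw [← Complex.exp_add]
    congr 1
    push_cast
    ring
  rw [this]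
  push_cast
  ring

private lemma mu_series {s : ℂ} (hs : 1 < s.re) :
    Summable (fun n : ℕ => ((ArithmeticFunction.moebius n : ℤ) : ℂ) / (n : ℂ) ^ s) ∧
    riemannZeta s * ∑' n : ℕ, ((ArithmeticFunction.moebius n : ℤ) : ℂ) / (n : ℂ) ^ s = 1 := by
  have hmu : Summable (LSeries.term (fun n => ((ArithmeticFunction.moebius n : ℤ) : ℂ)) s) :=
    ArithmeticFunction.LSeriesSummable_moebius_iff.2 hs
  have hterm : LSeries.term (fun n => ((ArithmeticFunction.moebius n : ℤ) : ℂ)) s = fun n : ℕ =>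
      ((ArithmeticFunction.moebius n : ℤ) : ℂ) / (n : ℂ) ^ s := by
    funext n
    rcases Nat.eq_zero_or_pos n with h | h
    · subst h; simp
    · rw [LSeries.term_of_ne_zero (by omega)]
  rw [← hterm]
  refine ⟨hmu, ?_⟩
  rw [← ArithmeticFunction.LSeries_zeta_eq_riemannZeta hs]
  exact ArithmeticFunction.LSeries_zeta_mul_Lseries_moebius hs

private lemma double_series {s : ℂ} (hs : 1 < s.re) :
    HasSum (fun p : ℕ × ℕ => (cf p : ℂ) * cexp (-(lam p : ℂ) * s))
      (riemannZeta (2 * s) / riemannZeta s) := by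
  have h2s : 1 < (2 * s).re := by simp; linarith
  have hz : riemannZeta (2 * s) = ∑' k : ℕ, 1 / (k : ℂ) ^ (2 * s) := zeta_eq_tsum_one_div_nat_cpow h2s
  have hsum1 : Summable (fun k : ℕ => 1 / (k : ℂ) ^ (2 * s)) :=
    Complex.summable_one_div_nat_cpow.2 h2s
  obtain ⟨hsum2, hprod⟩ := mu_series hs
  generalize hM : (fun n : ℕ => ((ArithmeticFunction.moebius n : ℤ) : ℂ) / (n : ℂ) ^ s) = M at *
  generalize hN : (fun k : ℕ => 1 / (k : ℂ) ^ (2 * s)) = N at *
  have hz0 : riemannZeta s ≠ 0 := by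
    intro h
    rw [h, zero_mul] at hprod
    exact zero_ne_one hprod
  have hinv : ∑' n : ℕ, M n = 1 / riemannZeta s := by
    rw [eq_div_iff hz0, mul_comm]; exact hprod
  have hp := hsum1.hasSum.mul hsum2.hasSum (summable_mul_of_summable_norm hsum1.norm hsum2.norm)
  rw [← hz, hinv, mul_one_div] at hp
  have hfun : (fun p : ℕ × ℕ => (cf p : ℂ) * cexp (-(lam p : ℂ) * s)) = fun p => N p.1 * M p.2 := by
    funext p
    rw [← hM, ← hN]
    exact (term_eq s hs p).symm
  rw [hfun]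
  exact hp

/-- the coefficients of `Qe T 1` -/
private noncomputable def bb (T : ℝ) (m : ℕ) : ℝ := mug (fun v => 1 - v / el T) m

private lemma qe_eq (T : ℝ) (s : ℂ) : Qe T 1 s =
    ∑ m ∈ Finset.Icc 1 (N1 T), (bb T m : ℂ) * cexp ((Real.log m : ℝ) * (s - 1)) := by
  unfold Qe ER bb
  apply Finset.sum_congr rfl
  intro m hm
  rw [cpow_exp' (Finset.mem_Icc.1 hm).1]
  congr 2
  push_cast
  ring

/-- the coefficient of the term `(p, m)` on the line `Re s = a` -/
private noncomputable def co (T a : ℝ) (p : ℕ × ℕ) (m : ℕ) : ℝ :=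
  cf p * bb T m * Real.exp (-(lam p) * a + Real.log m * (a - 1))

/-- the oscillatory integral -/
private noncomputable def JJ (K : ℕ) (T a θ : ℝ) : ℂ :=
  ∫ t in (-T)..T, WK K T (a + t * I) * cexp (I * (θ * t : ℝ))

private lemma fx_term (K : ℕ) (T a t : ℝ) (p : ℕ × ℕ) :
    (cf p : ℂ) * cexp (-(lam p : ℂ) * (a + t * I)) * Qe T 1 (a + t * I) * WK K T (a + t * I) =
    ∑ m ∈ Finset.Icc 1 (N1 T), (co T a p m : ℂ) *
      (WK K T (a + t * I) * cexp (I * ((Real.log m - lam p) * t : ℝ))) := by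
  rw [qe_eq, Finset.mul_sum, Finset.sum_mul]
  apply Finset.sum_congr rfl
  intro m _
  unfold co
  have e1 : cexp (-(lam p : ℂ) * (a + t * I)) * cexp ((Real.log m : ℝ) * (a + t * I - 1)) =
      ((Real.exp (-(lam p) * a + Real.log m * (a - 1)) : ℝ) : ℂ) *
      cexp (I * ((Real.log m - lam p) * t : ℝ)) := by
    rw [Complex.ofReal_exp, ← Complex.exp_add, ← Complex.exp_add]
    congr 1
    generalize Real.log (m : ℝ) = lm
    push_cast
    ring
  generalize cexp (-(lam p : ℂ) * (a + t * I)) = E1 at *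
  generalize cexp ((Real.log m : ℝ) * (a + t * I - 1)) = E2 at *
  generalize Real.exp (-(lam p) * a + Real.log m * (a - 1)) = E3 at *
  generalize cexp (I * ((Real.log m - lam p) * t : ℝ)) = E4 at *
  push_cast
  linear_combination (cf p : ℂ) * (bb T m : ℂ) * WK K T (a + t * I) * e1

private lemma log_gap {M m : ℕ} (hM : 1 ≤ M) (hm : 1 ≤ m) (h : M ≠ m) :
    1 / (2 * (m : ℝ)) ≤ |Real.log m - Real.log M| := by
  have hM0 : (0 : ℝ) < M := by exact_mod_cast hM
  have hm0 : (0 : ℝ) < m := by exact_mod_cast hm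
  have hm1 : (1 : ℝ) ≤ m := by exact_mod_cast hm
  rcases lt_or_gt_of_ne h with h1 | h1
  · have h2 : (M : ℝ) + 1 ≤ m := by exact_mod_cast h1
    have h3 := Real.one_sub_inv_le_log_of_pos (show (0 : ℝ) < m / M by positivity)
    rw [Real.log_div hm0.ne' hM0.ne', inv_div] at h3
    have h4 : 1 / (2 * (m : ℝ)) ≤ 1 - M / m := by
      have : (M : ℝ) / m ≤ 1 - 1 / m := by
        rw [div_le_iff₀ hm0]
        field_simp
        linarith
      have h5 : 1 / (2 * (m : ℝ)) ≤ 1 / m := by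
        apply one_div_le_one_div_of_le hm0; linarith
      linarith
    exact (h4.trans h3).trans (le_abs_self _)
  · have h2 : (m : ℝ) + 1 ≤ M := by exact_mod_cast h1
    have h3 := Real.one_sub_inv_le_log_of_pos (show (0 : ℝ) < M / m by positivity)
    rw [Real.log_div hM0.ne' hm0.ne', inv_div] at h3
    have h4 : 1 / (2 * (m : ℝ)) ≤ 1 - m / M := by
      have h5 : (m : ℝ) / M ≤ m / (m + 1) := div_le_div_of_nonneg_left hm0.le (by linarith) h2
      have h6 : (m : ℝ) / (m + 1) = 1 - 1 / (m + 1) := by field_simp; ring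
      have h7 : 1 / (2 * (m : ℝ)) ≤ 1 / (m + 1) := by
        apply one_div_le_one_div_of_le (by linarith); linarith
      linarith
    rw [abs_sub_comm]
    exact (h4.trans h3).trans (le_abs_self _)

private lemma lam_eq {p : ℕ × ℕ} (h1 : 1 ≤ p.1) (h2 : 1 ≤ p.2) :
    lam p = Real.log ((p.1 ^ 2 * p.2 : ℕ) : ℝ) := by
  have e1 : (p.1 : ℝ) ≠ 0 := by exact_mod_cast (by omega : p.1 ≠ 0)
  have e2 : (p.2 : ℝ) ≠ 0 := by exact_mod_cast (by omega : p.2 ≠ 0)
  unfold lam
  push_cast
  rw [Real.log_mul (pow_ne_zero _ e1) e2, Real.log_pow]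
  push_cast
  ring

private lemma exp_lam_le {a : ℝ} (ha : 1 ≤ a) (p : ℕ × ℕ) :
    |cf p| * Real.exp (-(lam p) * a) ≤ (1 / (p.1 : ℝ) ^ 2) * (1 / (p.2 : ℝ) ^ a) := by
  by_cases h : cf p = 0
  · rw [h]; simp; positivity
  obtain ⟨h1, h2⟩ := cf_ne h
  have e1 : (1 : ℝ) ≤ p.1 := by exact_mod_cast h1
  have e2 : (0 : ℝ) < p.2 := by exact_mod_cast h2
  have e3 : Real.exp (-(lam p) * a) = Real.exp (-(2 * a) * Real.log p.1) * (1 / (p.2 : ℝ) ^ a) := by
    rw [Real.rpow_def_of_pos e2, one_div, ← Real.exp_neg, ← Real.exp_add]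
    congr 1
    unfold lam
    ring
  have e4 : Real.exp (-(2 * a) * Real.log p.1) ≤ 1 / (p.1 : ℝ) ^ 2 := by
    rw [one_div, ← Real.exp_log (show (0:ℝ) < (p.1 : ℝ) ^ 2 by positivity), ← Real.exp_neg, Real.log_pow]
    apply Real.exp_le_exp.2
    push_cast
    have := Real.log_nonneg e1
    nlinarith
  calc |cf p| * Real.exp (-(lam p) * a) ≤ 1 * Real.exp (-(lam p) * a) := by
        gcongr
        exact cf_le p
    _ = Real.exp (-(2 * a) * Real.log p.1) * (1 / (p.2 : ℝ) ^ a) := by rw [one_mul, e3]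
    _ ≤ _ := by gcongr

private lemma bb_le {T : ℝ} (hT : 0 < el T) {m : ℕ} (hm1 : 1 ≤ m) (hm : m ≤ N1 T) : |bb T m| ≤ 1 := by
  have hmle : (m : ℝ) ≤ Real.exp (el T) := by
    unfold N1 at hm
    exact (Nat.le_floor_iff (Real.exp_pos _).le).1 hm
  unfold bb mug
  rw [abs_mul]
  have hlog : Real.log m ≤ el T := by
    have h6 := Real.log_le_log (by exact_mod_cast hm1) hmle
    rwa [Real.log_exp] at h6
  have hlog0 : 0 ≤ Real.log m := Real.log_nonneg (by exact_mod_cast hm1)
  have h2 : |1 - Real.log m / el T| ≤ 1 := by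
    have h3 : Real.log m / el T ≤ 1 := (div_le_one hT).2 hlog
    have h4 : 0 ≤ Real.log m / el T := by positivity
    rw [abs_le]; constructor <;> linarith
  calc |((ArithmeticFunction.moebius m : ℤ) : ℝ)| * |1 - Real.log m / el T| ≤ 1 * 1 :=
        mul_le_mul (abs_mu_le m) h2 (abs_nonneg _) (by norm_num)
    _ = 1 := one_mul 1

private lemma co_le {T a : ℝ} (hT : 0 < el T) (ha : 1 ≤ a) (ha2 : (a - 1) * el T ≤ 1 / 2)
    (p : ℕ × ℕ) {m : ℕ} (hm : m ∈ Finset.Icc 1 (N1 T)) :
    |co T a p m| ≤ 2 * ((1 / (p.1 : ℝ) ^ 2) * (1 / (p.2 : ℝ) ^ a)) := by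
  obtain ⟨hm1, hm2⟩ := Finset.mem_Icc.1 hm
  have hmle : (m : ℝ) ≤ Real.exp (el T) := by
    unfold N1 at hm2
    exact (Nat.le_floor_iff (Real.exp_pos _).le).1 hm2
  have hlog : Real.log m ≤ el T := by
    have h6 := Real.log_le_log (by exact_mod_cast hm1) hmle
    rwa [Real.log_exp] at h6
  unfold co
  rw [abs_mul, abs_mul, abs_of_pos (Real.exp_pos _), Real.exp_add]
  have h1 : Real.exp (Real.log m * (a - 1)) ≤ 2 := by
    have h2 : Real.log m * (a - 1) ≤ 1 / 2 := by
      calc Real.log m * (a - 1) ≤ el T * (a - 1) := by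
            apply mul_le_mul_of_nonneg_right hlog; linarith
        _ ≤ 1 / 2 := by linarith
    have h3 : Real.exp (1 / 2) ≤ 2 := by
      have h4 : Real.exp (1 / 2) ^ 2 = Real.exp 1 := by
        rw [← Real.exp_nat_mul]; norm_num
      have h5 := Real.exp_one_lt_d9
      have h6 := Real.exp_pos (1 / 2)
      nlinarith
    exact (Real.exp_le_exp.2 h2).trans h3
  have h5 := exp_lam_le ha p
  have h6 := bb_le hT hm1 hm2
  calc |cf p| * |bb T m| * (Real.exp (-(lam p) * a) * Real.exp (Real.log m * (a - 1)))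
      = |bb T m| * Real.exp (Real.log m * (a - 1)) * (|cf p| * Real.exp (-(lam p) * a)) := by ring
    _ ≤ 1 * 2 * ((1 / (p.1 : ℝ) ^ 2) * (1 / (p.2 : ℝ) ^ a)) := by gcongr
    _ = _ := by ring

private lemma sqf_sum : ∃ c : ℝ, 0 < c ∧ ∀ N : ℕ,
    c * Real.log (N + 1) ≤ ∑ m ∈ Finset.Icc 1 N, ((ArithmeticFunction.moebius m : ℤ) : ℝ) ^ 2 * (1 / m) := by
  have hs2 : Summable (fun k : ℕ => 1 / (k : ℝ) ^ 2) := Real.summable_one_div_nat_pow.2 (by norm_num)
  set S := ∑' k : ℕ, 1 / (k : ℝ) ^ 2 with hS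
  have hS1 : 0 < S := by
    have h1 : 1 / ((1 : ℕ) : ℝ) ^ 2 ≤ S := hs2.le_tsum 1 (fun k _ => by positivity)
    have h2 : 1 / ((1 : ℕ) : ℝ) ^ 2 = 1 := by norm_num
    linarith
  refine ⟨1 / S, by positivity, ?_⟩
  intro N
  have hlog : Real.log (N + 1) ≤ ∑ n ∈ Finset.Icc 1 N, 1 / (n : ℝ) := by
    have h := log_add_one_le_harmonic N
    rw [harmonic_eq_sum_Icc] at h
    push_cast at h
    simpa [one_div] using h
  choose a b hab hsq using Nat.sq_mul_squarefree
  have key : ∑ n ∈ Finset.Icc 1 N, 1 / (n : ℝ) ≤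
      S * ∑ m ∈ Finset.Icc 1 N, ((ArithmeticFunction.moebius m : ℤ) : ℝ) ^ 2 * (1 / m) := by
    have hmem : ∀ n ∈ Finset.Icc 1 N, (b n, a n) ∈ Finset.Icc 1 N ×ˢ Finset.Icc 1 N := by
      intro n hn
      obtain ⟨h1, h2⟩ := Finset.mem_Icc.1 hn
      have h3 := hab n
      have hb : 1 ≤ b n := by
        rcases Nat.eq_zero_or_pos (b n) with h | h
        · rw [h] at h3; simp at h3; omega
        · exact h
      have ha : 1 ≤ a n := by
        rcases Nat.eq_zero_or_pos (a n) with h | h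
        · rw [h] at h3; simp at h3; omega
        · exact h
      rw [Finset.mem_product, Finset.mem_Icc, Finset.mem_Icc]
      refine ⟨⟨hb, ?_⟩, ha, ?_⟩
      · calc b n ≤ b n ^ 2 * a n := by nlinarith
          _ = n := h3
          _ ≤ N := h2
      · calc a n ≤ b n ^ 2 * a n := Nat.le_mul_of_pos_left _ (by positivity)
          _ = n := h3
          _ ≤ N := h2
    have hinj : Set.InjOn (fun n => (b n, a n)) (Finset.Icc 1 N : Finset ℕ) := by
      intro x _ y _ h
      have h1 : b x = b y := congrArg Prod.fst h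
      have h2 : a x = a y := congrArg Prod.snd h
      rw [← hab x, ← hab y, h1, h2]
    calc ∑ n ∈ Finset.Icc 1 N, 1 / (n : ℝ)
        = ∑ n ∈ Finset.Icc 1 N, (1 / ((b n : ℕ) : ℝ) ^ 2) *
          (((ArithmeticFunction.moebius (a n) : ℤ) : ℝ) ^ 2 * (1 / (a n : ℝ))) := by
          apply Finset.sum_congr rfl
          intro n _
          have h1 : ((ArithmeticFunction.moebius (a n) : ℤ) : ℝ) ^ 2 = 1 := by
            have := ArithmeticFunction.moebius_sq_eq_one_of_squarefree (hsq n)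
            exact_mod_cast this
          rw [h1, one_mul]
          conv_lhs => rw [← hab n]
          push_cast
          rw [one_div_mul_one_div]
      _ = ∑ x ∈ (Finset.Icc 1 N).image (fun n => (b n, a n)), (1 / (x.1 : ℝ) ^ 2) *
          (((ArithmeticFunction.moebius x.2 : ℤ) : ℝ) ^ 2 * (1 / (x.2 : ℝ))) := by
          rw [Finset.sum_image hinj]
      _ ≤ ∑ x ∈ Finset.Icc 1 N ×ˢ Finset.Icc 1 N, (1 / (x.1 : ℝ) ^ 2) *
          (((ArithmeticFunction.moebius x.2 : ℤ) : ℝ) ^ 2 * (1 / (x.2 : ℝ))) := by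
          apply Finset.sum_le_sum_of_subset_of_nonneg
          · intro x hx
            obtain ⟨n, hn, rfl⟩ := Finset.mem_image.1 hx
            exact hmem n hn
          · intro x _ _
            positivity
      _ = (∑ k ∈ Finset.Icc 1 N, 1 / (k : ℝ) ^ 2) *
          ∑ m ∈ Finset.Icc 1 N, ((ArithmeticFunction.moebius m : ℤ) : ℝ) ^ 2 * (1 / m) := by
          rw [Finset.sum_product, Finset.sum_mul]
          apply Finset.sum_congr rfl
          intro k _
          rw [Finset.mul_sum]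
      _ ≤ _ := by
          gcongr
          exact hs2.sum_le_tsum _ (fun k _ => by positivity)
  rw [one_div, inv_mul_le_iff₀ hS1]
  exact hlog.trans key

private lemma cont_F (K : ℕ) (T a θ : ℝ) :
    Continuous (fun t : ℝ => WK K T (a + t * I) * cexp (I * (θ * t : ℝ))) := by
  unfold WK
  fun_prop

/-- bound of `ζ(a)` -/
private lemma zeta_real : ∃ C : ℝ, 0 < C ∧ ∀ a : ℝ, 1 < a → a ≤ 2 →
    Summable (fun l : ℕ => 1 / (l : ℝ) ^ a) ∧ ∑' l : ℕ, 1 / (l : ℝ) ^ a ≤ C / (a - 1) := by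
  obtain ⟨C, A, hC, hg⟩ := Zf_growth
  refine ⟨C * (1 + 2) ^ A, by positivity, ?_⟩
  intro a ha ha2
  have hsum : Summable (fun l : ℕ => 1 / (l : ℝ) ^ a) := Real.summable_one_div_nat_rpow.2 ha
  refine ⟨hsum, ?_⟩
  have hre : 1 < ((a : ℝ) : ℂ).re := by simpa using ha
  have h1 : riemannZeta (a : ℂ) = ((∑' l : ℕ, 1 / (l : ℝ) ^ a : ℝ) : ℂ) := by
    rw [zeta_eq_tsum_one_div_nat_cpow hre, Complex.ofReal_tsum]
    apply tsum_congr
    intro l
    push_cast
    rw [Complex.ofReal_cpow (Nat.cast_nonneg l)]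
    simp
  have hnn : 0 ≤ ∑' l : ℕ, 1 / (l : ℝ) ^ a := tsum_nonneg fun l => by positivity
  have hne : (a : ℂ) ≠ 1 := by
    intro h
    have := congrArg Complex.re h
    simp at this
    linarith
  have h2 := hg (a : ℂ) (by simp; linarith)
  rw [Zf_eq hne, norm_mul, h1, Complex.norm_real, Real.norm_of_nonneg hnn] at h2
  have h3 : ‖(a : ℂ) - 1‖ = a - 1 := by
    rw [← Complex.ofReal_one, ← Complex.ofReal_sub, Complex.norm_real, Real.norm_of_nonneg (by linarith)]
  have h4 : ‖(a : ℂ)‖ = a := by rw [Complex.norm_real, Real.norm_of_nonneg (by linarith)]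
  rw [h3, h4] at h2
  rw [le_div_iff₀ (by linarith)]
  calc (∑' l : ℕ, 1 / (l : ℝ) ^ a) * (a - 1) = (a - 1) * ∑' l : ℕ, 1 / (l : ℝ) ^ a := mul_comm _ _
    _ ≤ C * (1 + a) ^ A := h2
    _ ≤ C * (1 + 2) ^ A := by gcongr

private lemma JJ_le (K : ℕ) {T a θ : ℝ} (hT : 7 ≤ T) (ha : |a - 1 / 2| ≤ 5 / 2) :
    ∀ t ∈ Set.uIoc (-T) T, ‖WK K T (a + t * I) * cexp (I * (θ * t : ℝ))‖ ≤ 2 ^ K := by
  intro t ht
  rw [Set.uIoc_of_le (by linarith)] at ht
  have h1 : |t| ≤ T := abs_le.2 ⟨ht.1.le, ht.2⟩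
  rw [norm_mul, mul_comm I, Complex.norm_exp_ofReal_mul_I, mul_one]
  exact wk_norm K hT ha h1

/-- the integral as a double sum -/
private lemma int_sum (K : ℕ) {T a : ℝ} (hT : 7 ≤ T) (ha : 1 < a) (ha2 : a ≤ 2) (hel : 0 < el T)
    (hae : (a - 1) * el T ≤ 1 / 2) :
    HasSum (fun p : ℕ × ℕ => ∑ m ∈ Finset.Icc 1 (N1 T), (co T a p m : ℂ) *
      JJ K T a (Real.log m - lam p)) (∫ t in (-T)..T, fX K T (a + t * I)) := by
  have habs : |a - 1 / 2| ≤ 5 / 2 := by rw [abs_le]; constructor <;> linarith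
  have hTT : -T ≤ T := by linarith
  obtain ⟨C, hC, hz⟩ := zeta_real
  obtain ⟨hv, -⟩ := hz a ha ha2
  have hu : Summable (fun k : ℕ => 1 / (k : ℝ) ^ 2) := Real.summable_one_div_nat_pow.2 (by norm_num)
  have huv : Summable (fun p : ℕ × ℕ => (1 / (p.1 : ℝ) ^ 2) * (1 / (p.2 : ℝ) ^ a)) :=
    hu.mul_of_nonneg hv (fun _ => by positivity) (fun _ => by positivity)
  set F : ℕ × ℕ → ℝ → ℂ := fun p t => ∑ m ∈ Finset.Icc 1 (N1 T), (co T a p m : ℂ) *
      (WK K T (a + t * I) * cexp (I * ((Real.log m - lam p) * t : ℝ))) with hF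
  have hFc : ∀ p, Continuous (F p) := by
    intro p
    rw [hF]
    exact continuous_finsetSum _ fun m _ => continuous_const.mul (cont_F K T a _)
  have hFb : ∀ p, ∀ t ∈ Set.Ioc (-T) T, ‖F p t‖ ≤
      (N1 T : ℝ) * (2 * 2 ^ K) * ((1 / (p.1 : ℝ) ^ 2) * (1 / (p.2 : ℝ) ^ a)) := by
    intro p t ht
    have ht' : t ∈ Set.uIoc (-T) T := by rw [Set.uIoc_of_le hTT]; exact ht
    calc ‖F p t‖ ≤ ∑ m ∈ Finset.Icc 1 (N1 T), ‖(co T a p m : ℂ) *
          (WK K T (a + t * I) * cexp (I * ((Real.log m - lam p) * t : ℝ)))‖ := norm_sum_le _ _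
      _ ≤ ∑ m ∈ Finset.Icc 1 (N1 T), (2 * ((1 / (p.1 : ℝ) ^ 2) * (1 / (p.2 : ℝ) ^ a))) * 2 ^ K := by
          apply Finset.sum_le_sum
          intro m hm
          rw [norm_mul, Complex.norm_real, Real.norm_eq_abs]
          exact mul_le_mul (co_le hel ha.le hae p hm) (JJ_le K hT habs t ht') (norm_nonneg _)
            (by positivity)
      _ = _ := by
          rw [Finset.sum_const, Nat.card_Icc, nsmul_eq_mul]
          simp only [Nat.add_sub_cancel]
          ring
  have hint : ∀ p, Integrable (F p) (volume.restrict (Set.Ioc (-T) T)) := by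
    intro p
    exact ((hFc p).intervalIntegrable (-T) T).1
  have hnorm : Summable fun p => ∫ t in Set.Ioc (-T) T, ‖F p t‖ := by
    refine Summable.of_nonneg_of_le (fun p => integral_nonneg fun t => norm_nonneg _) ?_
      (huv.mul_left ((N1 T : ℝ) * (2 * 2 ^ K) * (2 * T)))
    intro p
    have h1 : ∫ t in Set.Ioc (-T) T, ‖F p t‖ ≤ ∫ _t in Set.Ioc (-T) T,
        (N1 T : ℝ) * (2 * 2 ^ K) * ((1 / (p.1 : ℝ) ^ 2) * (1 / (p.2 : ℝ) ^ a)) := by
      apply setIntegral_mono_on (hint p).norm _ measurableSet_Ioc (hFb p)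
      exact integrable_const _
    refine h1.trans (le_of_eq ?_)
    rw [setIntegral_const, measureReal_def, Real.volume_Ioc, ENNReal.toReal_ofReal (by linarith), smul_eq_mul]
    ring
  have hmain := hasSum_integral_of_summable_integral_norm hint hnorm
  have e1 : (∫ t in (-T)..T, fX K T (a + t * I)) =
      ∫ t in Set.Ioc (-T) T, ∑' p, F p t := by
    rw [intervalIntegral.integral_of_le hTT]
    apply setIntegral_congr_fun measurableSet_Ioc
    intro t _
    have hre : 1 < ((a : ℂ) + t * I).re := by simpa using ha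
    have h2 := double_series hre
    have h3 := (h2.mul_right (Qe T 1 (a + t * I))).mul_right (WK K T (a + t * I))
    dsimp only
    rw [fX, ← h3.tsum_eq]
    apply tsum_congr
    intro p
    exact fx_term K T a t p
  rw [e1]
  have e2 : (fun p : ℕ × ℕ => ∑ m ∈ Finset.Icc 1 (N1 T), (co T a p m : ℂ) *
      JJ K T a (Real.log m - lam p)) = fun p => ∫ t in Set.Ioc (-T) T, F p t := by
    funext p
    rw [← intervalIntegral.integral_of_le hTT, hF]
    dsimp only
    rw [intervalIntegral.integral_finsetSum]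
    · apply Finset.sum_congr rfl
      intro m _
      rw [intervalIntegral.integral_const_mul]
      rfl
    · intro m _
      exact ((cont_F K T a _).const_mul _).intervalIntegrable _ _
  rw [e2]
  exact hmain

private lemma diag_sum (K : ℕ) {T a : ℝ} :
    HasSum (fun p : ℕ × ℕ => ∑ m ∈ Finset.Icc 1 (N1 T), if p.1 ^ 2 * p.2 = m then
      (co T a p m : ℂ) * JJ K T a (Real.log m - lam p) else 0)
      (∑ m ∈ Finset.Icc 1 (N1 T), ((((ArithmeticFunction.moebius m : ℤ) : ℝ) * bb T m * (1 / m) : ℝ) : ℂ) *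
        JJ K T a 0) := by
  apply hasSum_sum
  intro m hm
  have hm1 : 1 ≤ m := (Finset.mem_Icc.1 hm).1
  have hm0 : (0 : ℝ) < m := by exact_mod_cast hm1
  have hsingle := hasSum_single (f := fun p : ℕ × ℕ => if p.1 ^ 2 * p.2 = m then
      (co T a p m : ℂ) * JJ K T a (Real.log m - lam p) else 0) (1, m) (by
    intro p hp
    split_ifs with h
    · have hp1 : p.1 ≠ 1 := by
        intro h1
        apply hp
        have h2 : p.2 = m := by rw [h1] at h; simpa using h
        exact Prod.ext h1 h2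
      have hsq : ¬ Squarefree m := by
        intro h3
        have h4 : p.1 * p.1 ∣ m := ⟨p.2, by rw [← h]; ring⟩
        exact hp1 (Nat.isUnit_iff.1 (h3 p.1 h4))
      have h5 : bb T m = 0 := by
        unfold bb mug
        rw [ArithmeticFunction.moebius_eq_zero_of_not_squarefree hsq]
        simp
      unfold co
      rw [h5]
      simp
    · rfl)
  have hval : (if (1, m).1 ^ 2 * (1, m).2 = m then
      (co T a (1, m) m : ℂ) * JJ K T a (Real.log m - lam (1, m)) else 0) =
      ((((ArithmeticFunction.moebius m : ℤ) : ℝ) * bb T m * (1 / m) : ℝ) : ℂ) * JJ K T a 0 := by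
    rw [if_pos (by simp)]
    have h1 : lam (1, m) = Real.log m := by simp [lam]
    have h2 : co T a (1, m) m = ((ArithmeticFunction.moebius m : ℤ) : ℝ) * bb T m * (1 / m) := by
      unfold co
      rw [h1]
      have h3 : -Real.log m * a + Real.log m * (a - 1) = -Real.log m := by ring
      rw [h3, Real.exp_neg, Real.exp_log hm0, one_div]
      simp [cf]
    rw [h1, h2, sub_self]
  rw [hval] at hsingle
  exact hsingle

end Pool.Agent.ZR.H44

namespace Pool.Agent.ZR

open H44 in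
theorem xb_right (K : ℕ) : ∃ c T0 : ℝ, 0 < c ∧ 3 ≤ T0 ∧ ∀ T : ℝ, T0 ≤ T →
    c * T * Real.log T ≤ ‖∫ t in (-T)..T, fX K T (((1 + 1 / Real.log T : ℝ) : ℂ) + t * I)‖ := by
  obtain ⟨c0, C0, hc0, hC0, hmain⟩ := wk_main K
  obtain ⟨C1, hC1, hosc⟩ := wk_osc K
  obtain ⟨c2, hc2, hsq⟩ := sqf_sum
  obtain ⟨C3, hC3, hz⟩ := zeta_real
  set S := ∑' k : ℕ, 1 / (k : ℝ) ^ 2 with hS
  have hS0 : 0 ≤ S := tsum_nonneg fun k => by positivity
  -- constants
  set c4 : ℝ := c2 / 40000 with hc4
  have hc4p : 0 < c4 := by positivity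
  set Q : ℝ := 2 * (c4 * C0 + 4 * C1 * S * C3) / (c4 * c0) with hQ
  have hQ0 : 0 ≤ Q := by positivity
  refine ⟨c4 * c0 / 2, max (Real.exp 20) (Q ^ 2), by positivity, ?_, ?_⟩
  · refine le_trans ?_ (le_max_left _ _)
    have := Real.add_one_le_exp 20
    linarith
  intro T hT
  have hT1 : Real.exp 20 ≤ T := (le_max_left _ _).trans hT
  have hT2 : Q ^ 2 ≤ T := (le_max_right _ _).trans hT
  have hT0 : 0 < T := (Real.exp_pos _).trans_le hT1
  have hT7 : 7 ≤ T := by
    have := Real.add_one_le_exp 20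
    linarith
  have hL20 : 20 ≤ Real.log T := by
    have := Real.log_le_log (Real.exp_pos 20) hT1
    rwa [Real.log_exp] at this
  set L := Real.log T with hL
  set a : ℝ := 1 + 1 / L with ha
  have hL0 : 0 < L := by linarith
  have ha1 : 1 < a := by rw [ha]; have : 0 < 1 / L := by positivity
                         linarith
  have ha2 : a ≤ 2 := by
    rw [ha]
    have : 1 / L ≤ 1 := by rw [div_le_one hL0]; linarith
    linarith
  have haL : a - 1 = 1 / L := by rw [ha]; ring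
  have hel : 0 < el T := by unfold el; positivity
  have helL : el T = L / 10000 := by unfold el; rw [hL]
  have hae : (a - 1) * el T ≤ 1 / 2 := by
    rw [haL, helL]
    field_simp
    norm_num
  have habs : |a - 1 / 2| ≤ 5 / 2 := by rw [abs_le]; constructor <;> linarith
  obtain ⟨hv, hvb⟩ := hz a ha1 ha2
  have hu : Summable (fun k : ℕ => 1 / (k : ℝ) ^ 2) := Real.summable_one_div_nat_pow.2 (by norm_num)
  set V := ∑' l : ℕ, 1 / (l : ℝ) ^ a with hV
  have huv : HasSum (fun p : ℕ × ℕ => (1 / (p.1 : ℝ) ^ 2) * (1 / (p.2 : ℝ) ^ a)) (S * V) :=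
    hu.hasSum.mul hv.hasSum (hu.mul_of_nonneg hv (fun _ => by positivity) (fun _ => by positivity))
  have hN1 : (N1 T : ℝ) ≤ Real.exp (el T) := by
    unfold N1; exact Nat.floor_le (Real.exp_pos _).le
  have hI := int_sum K hT7 ha1 ha2 hel hae
  have hD := diag_sum K (T := T) (a := a)
  set Dg := ∑ m ∈ Finset.Icc 1 (N1 T), ((((ArithmeticFunction.moebius m : ℤ) : ℝ) * bb T m *
    (1 / m) : ℝ) : ℂ) * JJ K T a 0 with hDg
  set I0 := ∫ t in (-T)..T, fX K T (a + t * I) with hI0
  have hoff := hI.sub hD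
  have hoffb : ‖I0 - Dg‖ ≤ (N1 T : ℝ) * (2 * C1 * (2 * N1 T)) * (S * V) := by
    refine hoff.norm_le_of_bounded (huv.mul_left _) ?_
    intro p
    rw [← Finset.sum_sub_distrib]
    calc ‖∑ m ∈ Finset.Icc 1 (N1 T), ((co T a p m : ℂ) * JJ K T a (Real.log m - lam p) -
          if p.1 ^ 2 * p.2 = m then (co T a p m : ℂ) * JJ K T a (Real.log m - lam p) else 0)‖
        ≤ ∑ m ∈ Finset.Icc 1 (N1 T), ‖(co T a p m : ℂ) * JJ K T a (Real.log m - lam p) -
          if p.1 ^ 2 * p.2 = m then (co T a p m : ℂ) * JJ K T a (Real.log m - lam p) else 0‖ :=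
          norm_sum_le _ _
      _ ≤ ∑ m ∈ Finset.Icc 1 (N1 T), (2 * ((1 / (p.1 : ℝ) ^ 2) * (1 / (p.2 : ℝ) ^ a))) *
          (C1 * (2 * N1 T)) := by
          apply Finset.sum_le_sum
          intro m hm
          obtain ⟨hm1, hm2⟩ := Finset.mem_Icc.1 hm
          have hm0 : (0 : ℝ) < m := by exact_mod_cast hm1
          have hmN : (m : ℝ) ≤ N1 T := by exact_mod_cast hm2
          by_cases h : p.1 ^ 2 * p.2 = m
          · rw [if_pos h, sub_self, norm_zero]
            positivity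
          rw [if_neg h, sub_zero]
          by_cases hco : co T a p m = 0
          · rw [hco]
            simp only [Complex.ofReal_zero, zero_mul, norm_zero]
            positivity
          have hcf : cf p ≠ 0 := by
            intro h1
            apply hco
            unfold co
            rw [h1]; ring
          obtain ⟨hp1, hp2⟩ := cf_ne hcf
          have hM : 1 ≤ p.1 ^ 2 * p.2 := Nat.mul_pos (pow_pos hp1 2) hp2
          have hgap := log_gap hM hm1 h
          rw [← lam_eq hp1 hp2] at hgap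
          have hpos : 0 < |Real.log m - lam p| := lt_of_lt_of_le (by positivity) hgap
          have hJ : ‖JJ K T a (Real.log m - lam p)‖ ≤ C1 * (2 * N1 T) := by
            refine (hosc T a _ hT7 habs (abs_pos.1 hpos)).trans ?_
            rw [div_le_iff₀ hpos]
            calc C1 = C1 * (2 * m) * (1 / (2 * m)) := by field_simp
              _ ≤ C1 * (2 * N1 T) * |Real.log m - lam p| := by gcongr
          rw [norm_mul, Complex.norm_real, Real.norm_eq_abs]
          exact mul_le_mul (co_le hel ha1.le hae p hm) hJ (norm_nonneg _) (by positivity)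
      _ = _ := by
          rw [Finset.sum_const, Nat.card_Icc, nsmul_eq_mul]
          simp only [Nat.add_sub_cancel]
          ring
  -- the main term
  have hJ0 : JJ K T a 0 = ∫ t in (-T)..T, WK K T (a + t * I) := by
    unfold JJ
    apply intervalIntegral.integral_congr
    intro t _
    simp
  have hmu : ∀ m : ℕ, ((ArithmeticFunction.moebius m : ℤ) : ℝ) * bb T m * (1 / m) =
      ((ArithmeticFunction.moebius m : ℤ) : ℝ) ^ 2 * (1 - Real.log m / el T) * (1 / m) := by
    intro m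
    unfold bb mug
    ring
  have hsum : c4 * L ≤ ∑ m ∈ Finset.Icc 1 (N1 T),
      ((ArithmeticFunction.moebius m : ℤ) : ℝ) * bb T m * (1 / m) := by
    set N2 := ⌊Real.exp (el T / 2)⌋₊ with hN2
    have hsub : Finset.Icc 1 N2 ⊆ Finset.Icc 1 (N1 T) := by
      apply Finset.Icc_subset_Icc_right
      rw [hN2]
      unfold N1
      apply Nat.floor_le_floor
      apply Real.exp_le_exp.2
      linarith
    have h1 : el T / 2 ≤ Real.log (N2 + 1) := by
      have h2 : Real.exp (el T / 2) ≤ (N2 : ℝ) + 1 := (Nat.lt_floor_add_one _).le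
      have h3 := Real.log_le_log (Real.exp_pos _) h2
      rwa [Real.log_exp] at h3
    calc c4 * L = (1 / 2) * (c2 * (el T / 2)) := by rw [helL, hc4]; ring
      _ ≤ (1 / 2) * (c2 * Real.log (N2 + 1)) := by gcongr
      _ ≤ (1 / 2) * ∑ m ∈ Finset.Icc 1 N2, ((ArithmeticFunction.moebius m : ℤ) : ℝ) ^ 2 * (1 / m) := by
          gcongr
          exact hsq N2
      _ = ∑ m ∈ Finset.Icc 1 N2, ((ArithmeticFunction.moebius m : ℤ) : ℝ) ^ 2 * (1 / 2) * (1 / m) := by
          rw [Finset.mul_sum]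
          apply Finset.sum_congr rfl
          intro m _
          ring
      _ ≤ ∑ m ∈ Finset.Icc 1 N2, ((ArithmeticFunction.moebius m : ℤ) : ℝ) * bb T m * (1 / m) := by
          apply Finset.sum_le_sum
          intro m hm
          obtain ⟨hm1, hm2⟩ := Finset.mem_Icc.1 hm
          rw [hmu]
          have hm0 : (0 : ℝ) < m := by exact_mod_cast hm1
          have hlog : Real.log m ≤ el T / 2 := by
            have h4 : (m : ℝ) ≤ Real.exp (el T / 2) := (Nat.le_floor_iff (Real.exp_pos _).le).1 hm2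
            have h5 := Real.log_le_log hm0 h4
            rwa [Real.log_exp] at h5
          have h6 : Real.log m / el T ≤ 1 / 2 := by
            rw [div_le_iff₀ hel]; linarith
          gcongr
          linarith
      _ ≤ _ := by
          apply Finset.sum_le_sum_of_subset_of_nonneg hsub
          intro m hm _
          obtain ⟨hm1, hm2⟩ := Finset.mem_Icc.1 hm
          rw [hmu]
          have hm0 : (0 : ℝ) < m := by exact_mod_cast hm1
          have hlog : Real.log m ≤ el T := by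
            unfold N1 at hm2
            have h4 : (m : ℝ) ≤ Real.exp (el T) := (Nat.le_floor_iff (Real.exp_pos _).le).1 hm2
            have h5 := Real.log_le_log hm0 h4
            rwa [Real.log_exp] at h5
          have h6 : Real.log m / el T ≤ 1 := (div_le_one hel).2 hlog
          have h7 : 0 ≤ 1 - Real.log m / el T := by linarith
          positivity
  have hDre : c4 * L * (c0 * T - C0) ≤ Dg.re := by
    have e1 : Dg = ((∑ m ∈ Finset.Icc 1 (N1 T),
        ((ArithmeticFunction.moebius m : ℤ) : ℝ) * bb T m * (1 / m) : ℝ) : ℂ) * JJ K T a 0 := by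
      rw [hDg, ← Finset.sum_mul, Complex.ofReal_sum]
    rw [e1, Complex.re_ofReal_mul, hJ0]
    have h1 := hmain T a hT7 habs
    have h2 : 0 ≤ c0 * T - C0 := by
      have h3 : Q * Q ≤ T := by rw [← pow_two]; exact hT2
      have h4 : 1 ≤ T := by linarith
      have h5 : Q ≤ T := by
        by_contra h6
        push Not at h6
        nlinarith
      have h6 : 2 * C0 / c0 ≤ Q := by
        rw [hQ, div_le_div_iff₀ hc0 (by positivity)]
        have : 0 ≤ 4 * C1 * S * C3 := by positivity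
        nlinarith [mul_nonneg this hc0.le]
      have h7 : 2 * C0 / c0 ≤ T := h6.trans h5
      rw [div_le_iff₀ hc0] at h7
      nlinarith
    calc c4 * L * (c0 * T - C0) ≤ (∑ m ∈ Finset.Icc 1 (N1 T),
          ((ArithmeticFunction.moebius m : ℤ) : ℝ) * bb T m * (1 / m)) * (c0 * T - C0) := by
          gcongr
      _ ≤ _ := by
          apply mul_le_mul_of_nonneg_left h1
          exact le_trans (by positivity) hsum
  -- the final estimate
  have hV : V ≤ C3 * L := by
    have h1 := hvb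
    rw [haL] at h1
    have h2 : C3 / (1 / L) = C3 * L := by field_simp
    rwa [h2] at h1
  have hV0 : 0 ≤ V := tsum_nonneg fun l => by positivity
  have hoff2 : ‖I0 - Dg‖ ≤ 4 * C1 * S * C3 * L * Real.sqrt T := by
    refine hoffb.trans ?_
    have h1 : Real.exp (el T) * Real.exp (el T) ≤ Real.sqrt T := by
      rw [← Real.exp_add]
      have h2 : Real.sqrt T = Real.exp (L / 2) := by
        rw [Real.sqrt_eq_rpow, Real.rpow_def_of_pos hT0, ← hL]
        ring_nf
      rw [h2, helL]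
      apply Real.exp_le_exp.2
      linarith
    calc (N1 T : ℝ) * (2 * C1 * (2 * N1 T)) * (S * V)
        ≤ Real.exp (el T) * (2 * C1 * (2 * Real.exp (el T))) * (S * (C3 * L)) := by gcongr
      _ = 4 * C1 * S * C3 * L * (Real.exp (el T) * Real.exp (el T)) := by ring
      _ ≤ _ := by gcongr
  have hsqrtT : Q ≤ Real.sqrt T := Real.le_sqrt_of_sq_le hT2
  have hsT : Real.sqrt T * Real.sqrt T = T := Real.mul_self_sqrt hT0.le
  have hsT1 : 1 ≤ Real.sqrt T := by
    rw [Real.one_le_sqrt]; linarith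
  have hfin : c4 * C0 + 4 * C1 * S * C3 * Real.sqrt T ≤ c4 * c0 / 2 * T := by
    have h1 : 2 * (c4 * C0 + 4 * C1 * S * C3) ≤ c4 * c0 * Real.sqrt T := by
      have h2 : 2 * (c4 * C0 + 4 * C1 * S * C3) / (c4 * c0) ≤ Real.sqrt T := hsqrtT
      rw [div_le_iff₀ (by positivity)] at h2
      linarith
    have h3 : c4 * C0 ≤ c4 * C0 * Real.sqrt T := by
      have : 0 ≤ c4 * C0 := by positivity
      nlinarith
    have h4 : (c4 * C0 + 4 * C1 * S * C3) * Real.sqrt T ≤ c4 * c0 / 2 * T := by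
      calc (c4 * C0 + 4 * C1 * S * C3) * Real.sqrt T
          ≤ (c4 * c0 * Real.sqrt T / 2) * Real.sqrt T := by
            apply mul_le_mul_of_nonneg_right _ (Real.sqrt_nonneg _)
            linarith
        _ = c4 * c0 / 2 * (Real.sqrt T * Real.sqrt T) := by ring
        _ = _ := by rw [hsT]
    linarith
  have hre : Dg.re - ‖I0 - Dg‖ ≤ ‖I0‖ := by
    have h1 : Dg.re ≤ ‖Dg‖ := Complex.re_le_norm _
    have h2 : ‖Dg‖ ≤ ‖I0‖ + ‖I0 - Dg‖ := by
      have h3 : Dg = I0 - (I0 - Dg) := by ring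
      calc ‖Dg‖ = ‖I0 - (I0 - Dg)‖ := by rw [← h3]
        _ ≤ _ := norm_sub_le _ _
    linarith
  have hgoal : c4 * c0 / 2 * T * L ≤ ‖I0‖ := by
    refine le_trans ?_ hre
    have h1 : c4 * L * (c0 * T - C0) - 4 * C1 * S * C3 * L * Real.sqrt T ≤ Dg.re - ‖I0 - Dg‖ := by
      linarith
    refine le_trans ?_ h1
    have h2 := mul_le_mul_of_nonneg_left hfin hL0.le
    nlinarith
  exact hgoal

end Pool.Agent.ZR
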