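import Pool.Agent.ZR.BAS2
import Pool.Agent.H6.HadLite

/-!
# Good heights
Disc `|z| ≤ 11/2` with centre `c = 5/2 + iT`. The zeros in `|z| ≤ 23/5` are divided out one by one
(`dslope`) and replaced by Blaschke factors, their number is `O(log T)`; Borel-Caratheodory for the
quotient on `|z| ≤ 37/10`; the height is chosen by averaging `∑ log |t - γ_j|`.
-/

set_option autoImplicit false

open Complex MeasureTheory Set Finset

namespace Pool.Agent.ZR

private noncomputable def xgP (l : List ℂ) (z : ℂ) : ℂ := (l.map (fun a => z - a)).prod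

private noncomputable def xgB (R : ℝ) (l : List ℂ) (z : ℂ) : ℂ :=
  (l.map (fun a => ((R : ℂ) ^ 2 - (starRingEnd ℂ) a * z) / R)).prod

private theorem xgP_nil (z : ℂ) : xgP [] z = 1 := by simp [xgP]

private theorem xgP_cons (a : ℂ) (l : List ℂ) (z : ℂ) : xgP (a :: l) z = (z - a) * xgP l z := by
  simp [xgP]

private theorem xgB_nil (R : ℝ) (z : ℂ) : xgB R [] z = 1 := by simp [xgB]

private theorem xgB_cons (R : ℝ) (a : ℂ) (l : List ℂ) (z : ℂ) :
    xgB R (a :: l) z = (((R : ℂ) ^ 2 - (starRingEnd ℂ) a * z) / R) * xgB R l z := by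
  simp [xgB]

private theorem xgB_diff (R : ℝ) (l : List ℂ) : Differentiable ℂ (xgB R l) := by
  induction l with
  | nil =>
    have : xgB R [] = fun _ => 1 := by funext z; exact xgB_nil R z
    rw [this]; fun_prop
  | cons a l ih =>
    have : xgB R (a :: l) = fun z => (((R : ℂ) ^ 2 - (starRingEnd ℂ) a * z) / R) * xgB R l z := by
      funext z; exact xgB_cons R a l z
    rw [this]
    exact Differentiable.mul (by fun_prop) ih

private theorem xgB_norm_sphere {R : ℝ} (hR : 0 < R) (l : List ℂ) {z : ℂ} (hz : ‖z‖ = R) :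
    ‖xgB R l z‖ = ‖xgP l z‖ := by
  induction l with
  | nil => rw [xgB_nil, xgP_nil]
  | cons a l ih =>
    rw [xgB_cons, xgP_cons, norm_mul, norm_mul, ih]
    congr 1
    have h1 : (R : ℂ) ^ 2 = z * (starRingEnd ℂ) z := by
      rw [Complex.mul_conj, Complex.normSq_eq_norm_sq, hz]
      push_cast
      rfl
    have h2 : z * (starRingEnd ℂ) z - (starRingEnd ℂ) a * z = z * (starRingEnd ℂ) (z - a) := by
      rw [map_sub]; ring
    rw [h1, norm_div, Complex.norm_real, Real.norm_eq_abs, abs_of_pos hR, h2, norm_mul,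
      RCLike.norm_conj, hz]
    field_simp

private theorem xgB_zero {R : ℝ} (hR : 0 < R) (l : List ℂ) : ‖xgB R l 0‖ = R ^ l.length := by
  induction l with
  | nil => rw [xgB_nil]; simp
  | cons a l ih =>
    rw [xgB_cons, norm_mul, ih, mul_zero, sub_zero, norm_div, norm_pow, Complex.norm_real,
      Real.norm_eq_abs, abs_of_pos hR, List.length_cons, pow_succ R l.length]
    field_simp

private theorem xgP_zero {R1 : ℝ} (hR : 0 < R1) (l : List ℂ) (hl : ∀ a ∈ l, ‖a‖ ≤ R1) :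
    ‖xgP l 0‖ ≤ R1 ^ l.length := by
  induction l with
  | nil => rw [xgP_nil]; simp
  | cons a l ih =>
    rw [xgP_cons, norm_mul, List.length_cons, pow_succ R1 l.length, zero_sub, norm_neg, mul_comm]
    exact mul_le_mul (ih (fun b hb => hl b (List.mem_cons_of_mem _ hb)))
      (hl a List.mem_cons_self) (norm_nonneg _) (by positivity)

/-- upper and lower bounds of the Blaschke denominators -/
private theorem xgB_bounds {R R1 : ℝ} (hR1 : 0 < R1) (hR : R1 < R) (l : List ℂ)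
    (hl : ∀ a ∈ l, ‖a‖ ≤ R1) {z : ℂ} (hz : ‖z‖ ≤ R1) :
    xgB R l z ≠ 0 ∧ ‖xgB R l z‖ ≤ (2 * R) ^ l.length := by
  have hR0 : 0 < R := by linarith
  induction l with
  | nil => rw [xgB_nil]; simp
  | cons a l ih =>
    have ih' := ih (fun b hb => hl b (List.mem_cons_of_mem _ hb))
    have ha := hl a List.mem_cons_self
    have haz : ‖(starRingEnd ℂ) a * z‖ ≤ R1 * R1 := by
      rw [norm_mul, RCLike.norm_conj]
      exact mul_le_mul ha hz (norm_nonneg _) hR1.le
    have hlt : R1 * R1 < R ^ 2 := by nlinarith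
    have hnR : ‖((R : ℂ)) ^ 2‖ = R ^ 2 := by
      rw [norm_pow, Complex.norm_real, Real.norm_eq_abs, abs_of_pos hR0]
    rw [xgB_cons]
    refine ⟨mul_ne_zero (div_ne_zero ?_ (by exact_mod_cast hR0.ne')) ih'.1, ?_⟩
    · intro h
      have h1 : (R : ℂ) ^ 2 = (starRingEnd ℂ) a * z := sub_eq_zero.1 h
      rw [← h1, hnR] at haz
      linarith
    · rw [norm_mul, List.length_cons, pow_succ (2 * R) l.length, mul_comm]
      refine mul_le_mul ih'.2 ?_ (norm_nonneg _) (by positivity)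
      rw [norm_div, Complex.norm_real, Real.norm_eq_abs, abs_of_pos hR0, div_le_iff₀ hR0]
      refine (norm_sub_le _ _).trans ?_
      rw [hnR]
      nlinarith

/-- the number of extracted zeros is bounded and the quotient is bounded -/
private theorem xg_quot {f g : ℂ → ℂ} {R R1 M : ℝ} (hR1 : 0 < R1) (hR : R1 < R)
    (hg : Differentiable ℂ g) (l : List ℂ) 
    (hfg : ∀ z, f z = xgP l z * g z) (hM : ∀ z, ‖z‖ ≤ R → ‖f z‖ ≤ M) {z : ℂ} (hz : ‖z‖ ≤ R) :
    ‖xgB R l z * g z‖ ≤ M := by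
  have hR0 : 0 < R := by linarith
  have hd : Differentiable ℂ (fun z => xgB R l z * g z) := (xgB_diff R l).mul hg
  refine Complex.norm_le_of_forall_mem_frontier_norm_le (U := Metric.ball 0 R)
    (f := fun z => xgB R l z * g z) Metric.isBounded_ball hd.diffContOnCl ?_ ?_
  · intro w hw
    rw [frontier_ball _ hR0.ne', mem_sphere_zero_iff_norm] at hw
    have h1 := hM w hw.le
    rw [hfg w, norm_mul] at h1
    rw [norm_mul, xgB_norm_sphere hR0 l hw]
    exact h1
  · rw [closure_ball _ hR0.ne', mem_closedBall_zero_iff]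
    exact hz

private theorem xg_count {f g : ℂ → ℂ} {R R1 M : ℝ} (hR1 : 0 < R1) (hR : R1 < R)
    (hg : Differentiable ℂ g) (l : List ℂ) (hl : ∀ a ∈ l, ‖a‖ ≤ R1)
    (hfg : ∀ z, f z = xgP l z * g z) (hM : ∀ z, ‖z‖ ≤ R → ‖f z‖ ≤ M) :
    ‖f 0‖ ≤ (R1 / R) ^ l.length * M ∧ ‖f 0‖ ≤ ‖xgB R l 0 * g 0‖ := by
  have hR0 : 0 < R := by linarith
  have h1 := xg_quot hR1 hR hg l hfg hM (z := 0) (by rw [norm_zero]; exact hR0.le)
  have h2 : ‖f 0‖ ≤ (R1 / R) ^ l.length * ‖xgB R l 0 * g 0‖ := by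
    rw [hfg 0, norm_mul, norm_mul, xgB_zero hR0, div_pow]
    have h3 := xgP_zero hR1 l hl
    have h4 : R1 ^ l.length / R ^ l.length * (R ^ l.length * ‖g 0‖) = R1 ^ l.length * ‖g 0‖ := by
      have : R ^ l.length ≠ 0 := by positivity
      field_simp
    rw [h4]
    exact mul_le_mul_of_nonneg_right h3 (norm_nonneg _)
  refine ⟨h2.trans (mul_le_mul_of_nonneg_left h1 (by positivity)), h2.trans ?_⟩
  have h5 : (R1 / R) ^ l.length ≤ 1 := pow_le_one₀ (by positivity) ((div_le_one hR0).2 hR.le)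
  exact mul_le_of_le_one_left (norm_nonneg _) h5

private theorem xg_extract {f : ℂ → ℂ} (hf : Differentiable ℂ f) (R1 : ℝ) (N : ℕ) :
    (∃ l : List ℂ, (∀ a ∈ l, ‖a‖ ≤ R1) ∧ ∃ g : ℂ → ℂ, Differentiable ℂ g ∧
      (∀ z, f z = xgP l z * g z) ∧ ∀ z, ‖z‖ ≤ R1 → g z ≠ 0) ∨
    (∃ l : List ℂ, l.length = N ∧ (∀ a ∈ l, ‖a‖ ≤ R1) ∧ ∃ g : ℂ → ℂ, Differentiable ℂ g ∧
      ∀ z, f z = xgP l z * g z) := by
  induction N with
  | zero =>
    right
    exact ⟨[], rfl, by simp, f, hf, fun z => by rw [xgP_nil, one_mul]⟩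
  | succ N ih =>
    rcases ih with h | ⟨l, hlen, hl, g, hg, hfg⟩
    · exact Or.inl h
    · by_cases hz : ∀ z, ‖z‖ ≤ R1 → g z ≠ 0
      · exact Or.inl ⟨l, hl, g, hg, hfg, hz⟩
      · push Not at hz
        obtain ⟨a, ha, hga⟩ := hz
        right
        refine ⟨a :: l, by rw [List.length_cons, hlen], ?_, dslope g a,
          Pool.Agent.H6.differentiable_dslope hg a, ?_⟩
        · intro b hb
          rcases List.mem_cons.1 hb with h | h
          · rw [h]; exact ha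
          · exact hl b h
        · intro z
          have h1 := sub_smul_dslope g a z
          rw [hga, sub_zero, smul_eq_mul] at h1
          rw [hfg z, ← h1, xgP_cons]
          ring

/-- zeros taken out, with all bounds -/
private theorem xg_struct {f : ℂ → ℂ} (hf : Differentiable ℂ f) (hf0 : f 0 ≠ 0) {Λ : ℝ}
    (hΛ : 0 < Λ) (hM : ∀ z, ‖z‖ ≤ 11 / 2 → ‖f z‖ ≤ ‖f 0‖ * Real.exp Λ) :
    ∃ l : List ℂ, (l.length : ℝ) ≤ 7 * Λ ∧ ∀ z, ‖z‖ ≤ 37 / 10 →
      ‖f 0‖ * Real.exp (-(9 * Λ)) * ‖xgP l z‖ ≤ 11 ^ l.length * ‖f z‖ := by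
  have hf0' : 0 < ‖f 0‖ := norm_pos_iff.2 hf0
  have hlog : 1 / 7 ≤ Real.log ((11 / 2) / (23 / 5)) := by
    have h1 := Real.one_sub_inv_le_log_of_pos (by norm_num : (0:ℝ) < (11 / 2) / (23 / 5))
    refine le_trans ?_ h1
    norm_num
  have hcnt : ∀ l : List ℂ, ∀ g : ℂ → ℂ, Differentiable ℂ g → (∀ a ∈ l, ‖a‖ ≤ 23 / 5) →
      (∀ z, f z = xgP l z * g z) → (l.length : ℝ) ≤ 7 * Λ := by
    intro l g hg hl hfg
    have h1 := (xg_count (R := 11 / 2) (by norm_num) (by norm_num) hg l hl hfg hM).1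
    have h2 : 1 ≤ ((23 / 5 : ℝ) / (11 / 2)) ^ l.length * Real.exp Λ := by
      have h3 : ‖f 0‖ * 1 ≤ ‖f 0‖ * (((23 / 5 : ℝ) / (11 / 2)) ^ l.length * Real.exp Λ) := by
        rw [mul_one]
        refine h1.trans (le_of_eq ?_)
        ring
      exact le_of_mul_le_mul_left h3 hf0'
    have h4 : ((11 / 2 : ℝ) / (23 / 5)) ^ l.length ≤ Real.exp Λ := by
      have h5 : ((23 / 5 : ℝ) / (11 / 2)) ^ l.length = (((11 / 2 : ℝ) / (23 / 5)) ^ l.length)⁻¹ := by
        rw [← inv_pow, inv_div]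
      rw [h5, ← div_eq_inv_mul, one_le_div (by positivity)] at h2
      exact h2
    have h6 := Real.log_le_log (by positivity) h4
    rw [Real.log_pow, Real.log_exp] at h6
    have h7 : (l.length : ℝ) * (1 / 7) ≤ Λ :=
      (mul_le_mul_of_nonneg_left hlog (Nat.cast_nonneg _)).trans h6
    linarith
  rcases xg_extract hf (23 / 5) (⌈7 * Λ⌉₊ + 1) with ⟨l, hl, g, hg, hfg, hne⟩ | ⟨l, hlen, hl, g, hg, hfg⟩
  swap
  · exfalso
    have h1 := hcnt l g hg hl hfg
    rw [hlen] at h1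
    push_cast at h1
    have h2 := Nat.le_ceil (7 * Λ)
    linarith
  refine ⟨l, hcnt l g hg hl hfg, ?_⟩
  intro z hz
  set G : ℂ → ℂ := fun z => xgB (11 / 2) l z * g z with hG
  have hGd : Differentiable ℂ G := (xgB_diff _ l).mul hg
  have hb : ∀ {w : ℂ}, ‖w‖ ≤ 23 / 5 →
      xgB (11 / 2) l w ≠ 0 ∧ ‖xgB (11 / 2) l w‖ ≤ (2 * (11 / 2)) ^ l.length :=
    fun {w} hw => xgB_bounds (R := 11 / 2) (R1 := 23 / 5) (by norm_num) (by norm_num) l hl hw
  have hGne : ∀ w ∈ Metric.ball (0 : ℂ) (23 / 5), G w ≠ 0 := by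
    intro w hw
    have hw' : ‖w‖ ≤ 23 / 5 := (mem_ball_zero_iff.1 hw).le
    exact mul_ne_zero (hb hw').1 (hne w hw')
  obtain ⟨L, hL0, hLd, hLe⟩ := Pool.Agent.H6.exists_log_ball hGd (by norm_num) hGne
  have hG0 : ‖f 0‖ ≤ ‖G 0‖ :=
    (xg_count (R := 11 / 2) (by norm_num) (by norm_num) hg l hl hfg hM).2
  have hG0p : 0 < ‖G 0‖ := lt_of_lt_of_le hf0' hG0
  have hre : MapsTo L (Metric.ball 0 (23 / 5)) {w | w.re ≤ Λ} := by
    intro w hw
    have hw' : ‖w‖ ≤ 11 / 2 := (mem_ball_zero_iff.1 hw).le.trans (by norm_num)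
    have h1 := xg_quot (R := 11 / 2) (R1 := 23 / 5) (by norm_num) (by norm_num) hg l hfg hM hw'
    have h2 := hLe w hw
    have h3 : ‖G 0‖ * Real.exp (L w).re ≤ ‖G 0‖ * Real.exp Λ := by
      have h4 : ‖G w‖ = ‖G 0‖ * Real.exp (L w).re := by
        rw [h2, norm_mul, Complex.norm_exp]
      rw [← h4]
      exact h1.trans (mul_le_mul_of_nonneg_right hG0 (Real.exp_pos _).le)
    exact Real.exp_le_exp.1 (le_of_mul_le_mul_left h3 hG0p)
  have hzb : z ∈ Metric.ball (0 : ℂ) (23 / 5) := by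
    rw [mem_ball_zero_iff]; linarith
  have hbc := Complex.borelCaratheodory_zero hΛ hLd hre (by norm_num) hzb hL0
  have hLz : ‖L z‖ ≤ 9 * Λ := by
    refine hbc.trans ?_
    rw [div_le_iff₀ (by linarith)]
    nlinarith [norm_nonneg z]
  have hGz : ‖f 0‖ * Real.exp (-(9 * Λ)) ≤ ‖G z‖ := by
    rw [hLe z hzb, norm_mul, Complex.norm_exp]
    refine mul_le_mul hG0 (Real.exp_le_exp.2 ?_) (Real.exp_pos _).le (norm_nonneg _)
    exact (abs_le.1 ((Complex.abs_re_le_norm (L z)).trans hLz)).1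
  have hz' : ‖z‖ ≤ 23 / 5 := by linarith
  calc ‖f 0‖ * Real.exp (-(9 * Λ)) * ‖xgP l z‖ ≤ ‖G z‖ * ‖xgP l z‖ :=
        mul_le_mul_of_nonneg_right hGz (norm_nonneg _)
    _ = ‖xgB (11 / 2) l z‖ * ‖f z‖ := by
        rw [hfg z, hG]
        simp only
        rw [norm_mul, norm_mul]
        ring
    _ ≤ 11 ^ l.length * ‖f z‖ := by
        refine mul_le_mul_of_nonneg_right ?_ (norm_nonneg _)
        have h9 := (hb hz').2
        norm_num at h9
        exact h9

private theorem xg_xlogx (a : ℝ) : -1 ≤ a * Real.log a + (1 - a) * Real.log (1 - a) := by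
  have h1 : ∀ b : ℝ, 0 < b → b - 1 ≤ b * Real.log b := by
    intro b hb
    have h := Real.one_sub_inv_le_log_of_pos hb
    have h2 := mul_le_mul_of_nonneg_left h hb.le
    rw [mul_sub, mul_inv_cancel₀ hb.ne'] at h2
    linarith
  have h2 : ∀ b : ℝ, 1 < b → 0 ≤ b * Real.log b + (1 - b) * Real.log (1 - b) := by
    intro b hb
    have e1 : (1 - b) * Real.log (1 - b) = -((b - 1) * Real.log (b - 1)) := by
      rw [← Real.log_neg_eq_log (1 - b), neg_sub]; ring
    rw [e1]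
    have hb0 : 0 ≤ b * Real.log b := mul_nonneg (by linarith) (Real.log_nonneg hb.le)
    by_cases hc : b - 1 ≤ 1
    · have : (b - 1) * Real.log (b - 1) ≤ 0 :=
        mul_nonpos_of_nonneg_of_nonpos (by linarith) (Real.log_nonpos (by linarith) hc)
      linarith
    · push Not at hc
      have h3 : Real.log (b - 1) ≤ Real.log b := Real.log_le_log (by linarith) (by linarith)
      have h4 : 0 ≤ Real.log (b - 1) := Real.log_nonneg hc.le
      have h5 : (b - 1) * Real.log (b - 1) ≤ b * Real.log b :=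
        mul_le_mul (by linarith) h3 h4 (by linarith)
      linarith
  rcases lt_trichotomy a 0 with ha | ha | ha
  · have h3 := h2 (1 - a) (by linarith)
    rw [sub_sub_cancel] at h3
    linarith
  · rw [ha]; simp
  · rcases lt_trichotomy a 1 with hb | hb | hb
    · have h3 := h1 a ha
      have h4 := h1 (1 - a) (by linarith)
      linarith
    · rw [hb]; simp
    · have h3 := h2 a hb
      linarith

private theorem xg_int_log (γ : ℝ) :
    IntervalIntegrable (fun t : ℝ => Real.log (t - γ)) volume (-1) 0 ∧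
      -2 ≤ ∫ t in (-1 : ℝ)..0, Real.log (t - γ) := by
  constructor
  · have h1 : IntervalIntegrable Real.log volume (-1 - γ) (0 - γ) :=
      intervalIntegral.intervalIntegrable_log'
    have h2 := h1.comp_sub_right γ
    simpa using h2
  · rw [intervalIntegral.integral_comp_sub_right (fun u => Real.log u) γ, integral_log]
    have h1 := xg_xlogx (-γ)
    have h2 : Real.log (-1 - γ) = Real.log (1 - (-γ)) := by
      rw [← Real.log_neg_eq_log (1 - (-γ))]
      congr 1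
      ring
    rw [zero_sub, h2]
    linarith

private theorem xg_choose (l : List ℂ) : ∃ t ∈ Icc (-1 : ℝ) 0, (∀ a ∈ l, t ≠ a.im) ∧
    -(2 * (l.length : ℝ)) ≤ (l.map (fun a => Real.log (t - a.im))).sum := by
  have hI : IntervalIntegrable (fun t : ℝ => (l.map (fun a => Real.log (t - a.im))).sum)
      volume (-1) 0 ∧
      -(2 * (l.length : ℝ)) ≤ ∫ t in (-1 : ℝ)..0, (l.map (fun a => Real.log (t - a.im))).sum := by
    induction l with
    | nil => simp
    | cons a l ih =>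
      have h1 := xg_int_log a.im
      simp only [List.map_cons, List.sum_cons, List.length_cons]
      refine ⟨h1.1.add ih.1, ?_⟩
      rw [intervalIntegral.integral_add h1.1 ih.1]
      push_cast
      linarith [h1.2, ih.2]
  have hprob : IsProbabilityMeasure (volume.restrict (Ioc (-1 : ℝ) 0)) := ⟨by simp⟩
  have hint : Integrable (fun t : ℝ => (l.map (fun a => Real.log (t - a.im))).sum)
      (volume.restrict (Ioc (-1 : ℝ) 0)) :=
    (intervalIntegrable_iff_integrableOn_Ioc_of_le (by norm_num)).1 hI.1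
  have hnull : (volume.restrict (Ioc (-1 : ℝ) 0))
      ((Ioc (-1 : ℝ) 0)ᶜ ∪ (↑(l.map (fun a => a.im)).toFinset : Set ℝ)) = 0 := by
    refine measure_union_null ?_ ?_
    · rw [Measure.restrict_apply measurableSet_Ioc.compl]
      simp
    · exact (Finset.finite_toSet _).measure_zero _
  obtain ⟨t, ht, hle⟩ := exists_notMem_null_integral_le hint hnull
  rw [Set.mem_union, not_or, Set.mem_compl_iff, not_not] at ht
  refine ⟨t, Ioc_subset_Icc_self ht.1, ?_, ?_⟩
  · intro a ha h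
    apply ht.2
    rw [Finset.mem_coe, List.mem_toFinset, List.mem_map]
    exact ⟨a, ha, h.symm⟩
  · refine le_trans hI.2 ?_
    rw [intervalIntegral.integral_of_le (by norm_num)]
    exact hle

private theorem xg_prod_lower (l : List ℂ) (z : ℂ) (hz : ∀ a ∈ l, z.im ≠ a.im) :
    Real.exp ((l.map (fun a => Real.log (z.im - a.im))).sum) ≤ ‖xgP l z‖ := by
  induction l with
  | nil => rw [xgP_nil]; simp
  | cons a l ih =>
    rw [xgP_cons, List.map_cons, List.sum_cons, Real.exp_add, norm_mul]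
    refine mul_le_mul ?_ (ih (fun b hb => hz b (List.mem_cons_of_mem _ hb))) (Real.exp_pos _).le
      (norm_nonneg _)
    rw [Real.exp_log_eq_abs (sub_ne_zero.2 (hz a List.mem_cons_self)), ← Complex.sub_im]
    exact Complex.abs_im_le_norm _

private theorem xg_main {f : ℂ → ℂ} (hf : Differentiable ℂ f) (hf0 : f 0 ≠ 0) {Λ : ℝ}
    (hΛ : 0 < Λ) (hM : ∀ z, ‖z‖ ≤ 11 / 2 → ‖f z‖ ≤ ‖f 0‖ * Real.exp Λ) :
    ∃ t ∈ Icc (-1 : ℝ) 0, ∀ z : ℂ, ‖z‖ ≤ 37 / 10 → z.im = t →
      ‖f 0‖ * Real.exp (-(44 * Λ)) ≤ ‖f z‖ := by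
  obtain ⟨l, hlen, hl⟩ := xg_struct hf hf0 hΛ hM
  obtain ⟨t, ht, hne, hsum⟩ := xg_choose l
  refine ⟨t, ht, ?_⟩
  intro z hz hzt
  have h1 := hl z hz
  have h2 := xg_prod_lower l z (by rw [hzt]; exact hne)
  rw [hzt] at h2
  have h3 : Real.exp (-(2 * (l.length : ℝ))) ≤ ‖xgP l z‖ :=
    (Real.exp_le_exp.2 hsum).trans h2
  have h11 : (11 : ℝ) ^ l.length ≤ Real.exp (3 * l.length) := by
    have h4 : (11 : ℝ) ≤ Real.exp 3 := by
      have h5 : (2.7 : ℝ) ≤ Real.exp 1 := by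
        have := Real.exp_one_gt_d9
        linarith
      have h6 : Real.exp 3 = Real.exp 1 ^ 3 := by
        rw [← Real.exp_nat_mul]; norm_num
      rw [h6]
      calc (11 : ℝ) ≤ 2.7 ^ 3 := by norm_num
        _ ≤ Real.exp 1 ^ 3 := pow_le_pow_left₀ (by norm_num) h5 3
    rw [mul_comm, Real.exp_nat_mul]
    exact pow_le_pow_left₀ (by norm_num) h4 _
  have hf0' : 0 < ‖f 0‖ := norm_pos_iff.2 hf0
  have h7 : ‖f 0‖ * Real.exp (-(9 * Λ)) * Real.exp (-(2 * (l.length : ℝ))) ≤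
      Real.exp (3 * l.length) * ‖f z‖ := by
    refine le_trans (mul_le_mul_of_nonneg_left h3 (by positivity)) (h1.trans ?_)
    exact mul_le_mul_of_nonneg_right h11 (norm_nonneg _)
  have h8 : ‖f 0‖ * Real.exp (-(9 * Λ)) * Real.exp (-(2 * (l.length : ℝ))) *
      Real.exp (-(3 * l.length)) ≤ ‖f z‖ := by
    have h9 := mul_le_mul_of_nonneg_right h7 (Real.exp_pos (-(3 * (l.length : ℝ)))).le
    have h10 : Real.exp (3 * l.length) * ‖f z‖ * Real.exp (-(3 * (l.length : ℝ))) = ‖f z‖ := by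
      rw [Real.exp_neg]
      field_simp
    rw [h10] at h9
    exact h9
  refine le_trans ?_ h8
  rw [mul_assoc, mul_assoc, ← Real.exp_add, ← Real.exp_add]
  refine mul_le_mul_of_nonneg_left (Real.exp_le_exp.2 ?_) hf0'.le
  linarith

theorem good_heights : ∃ (A0 : ℕ) (T0 : ℝ), 1 ≤ T0 ∧ ∀ T : ℝ, T0 ≤ T → ∃ T' ∈ Icc (T - 1) T,
    ∀ x : ℝ, -1 ≤ x → x ≤ 3 → 1 ≤ T' ^ A0 * ‖riemannZeta (x + T' * I)‖ := by
  obtain ⟨C, A, hC, hgr⟩ := Zf_growth
  refine ⟨2 * (44 * (A + 1) + 2), 2 * C * 2 ^ A + 9, ?_, ?_⟩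
  · have : 0 < C * 2 ^ A := by positivity
    linarith
  intro T hT
  have hCA : 0 < C * 2 ^ A := by positivity
  have hT9 : 9 ≤ T := by linarith
  have hT0 : 0 < T := by linarith
  set c : ℂ := ((5 / 2 : ℝ) : ℂ) + T * I with hc
  set f : ℂ → ℂ := fun z => Zf (c + z) with hfdef
  have hf : Differentiable ℂ f := Zf_diff.comp (by fun_prop)
  have hcre : c.re = 5 / 2 := by simp [hc]
  have hcim : c.im = T := by simp [hc]
  have hc1 : c ≠ 1 := by
    intro h
    have := congrArg Complex.re h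
    rw [hcre] at this
    norm_num at this
  have hf0 : 9 / 10 ≤ ‖f 0‖ := by
    have e1 : f 0 = (c - 1) * riemannZeta c := by
      rw [hfdef]
      simp only [add_zero]
      exact Zf_eq hc1
    have e2 := zeta_three (s := c) (by rw [hcre])
    have e3 : 3 / 5 ≤ ‖riemannZeta c‖ := by
      have h1 : ‖(1 : ℂ)‖ ≤ ‖riemannZeta c‖ + ‖riemannZeta c - 1‖ := by
        have : (1 : ℂ) = riemannZeta c - (riemannZeta c - 1) := by ring
        calc ‖(1 : ℂ)‖ = ‖riemannZeta c - (riemannZeta c - 1)‖ := by rw [← this]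
          _ ≤ _ := norm_sub_le _ _
      rw [norm_one] at h1
      linarith
    have e4 : 3 / 2 ≤ ‖c - 1‖ := by
      have h1 := Complex.abs_re_le_norm (c - 1)
      rw [Complex.sub_re, hcre, Complex.one_re] at h1
      refine le_trans ?_ h1
      norm_num
    rw [e1, norm_mul]
    nlinarith
  have hf0p : 0 < ‖f 0‖ := by linarith
  have hf0ne : f 0 ≠ 0 := norm_pos_iff.1 hf0p
  have hlogT : 0 < Real.log T := Real.log_pos (by linarith)
  set Λ : ℝ := ((A + 1 : ℕ) : ℝ) * Real.log T with hΛdef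
  have hΛ : 0 < Λ := by positivity
  have hexpΛ : Real.exp Λ = T ^ (A + 1) := by
    rw [hΛdef, Real.exp_nat_mul, Real.exp_log hT0]
  have hnc : ‖c‖ ≤ 5 / 2 + T := by
    rw [hc]
    refine (norm_add_le _ _).trans ?_
    rw [norm_mul, norm_I, mul_one, Complex.norm_real, Complex.norm_real, Real.norm_eq_abs,
      Real.norm_eq_abs, abs_of_pos hT0, abs_of_pos (by norm_num)]
  have hM : ∀ z, ‖z‖ ≤ 11 / 2 → ‖f z‖ ≤ ‖f 0‖ * Real.exp Λ := by
    intro z hz
    have h1 : -3 ≤ (c + z).re := by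
      rw [Complex.add_re, hcre]
      have := (abs_le.1 (Complex.abs_re_le_norm z)).1
      linarith
    have h2 := hgr (c + z) h1
    have h3 : 1 + ‖c + z‖ ≤ 2 * T := by
      have := norm_add_le c z
      linarith
    have h4 : (1 + ‖c + z‖) ^ A ≤ (2 * T) ^ A := pow_le_pow_left₀ (by positivity) h3 A
    calc ‖f z‖ ≤ C * (1 + ‖c + z‖) ^ A := h2
      _ ≤ C * (2 * T) ^ A := mul_le_mul_of_nonneg_left h4 (by linarith)
      _ = (C * 2 ^ A) * T ^ A := by rw [mul_pow]; ring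
      _ ≤ (9 / 10 * T) * T ^ A := by
          refine mul_le_mul_of_nonneg_right ?_ (by positivity)
          linarith
      _ = 9 / 10 * T ^ (A + 1) := by ring
      _ ≤ ‖f 0‖ * Real.exp Λ := by
          rw [hexpΛ]
          exact mul_le_mul_of_nonneg_right hf0 (by positivity)
  obtain ⟨t, ht, hlow⟩ := xg_main hf hf0ne hΛ hM
  refine ⟨T + t, ⟨by linarith [ht.1], by linarith [ht.2]⟩, ?_⟩
  intro x hx1 hx3
  set z : ℂ := ((x - 5 / 2 : ℝ) : ℂ) + (t : ℂ) * I with hzdef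
  have hzre : z.re = x - 5 / 2 := by simp [hzdef]
  have hzim : z.im = t := by simp [hzdef]
  have hzn : ‖z‖ ≤ 37 / 10 := by
    have h1 : ‖z‖ ^ 2 = z.re ^ 2 + z.im ^ 2 := by
      rw [← Complex.normSq_eq_norm_sq, Complex.normSq_apply]; ring
    rw [hzre, hzim] at h1
    have h2 : ‖z‖ ^ 2 ≤ (37 / 10) ^ 2 := by
      rw [h1]
      nlinarith [ht.1, ht.2]
    exact le_of_sq_le_sq h2 (by norm_num)
  have h1 := hlow z hzn hzim
  have hs : c + z = (x : ℂ) + ((T + t : ℝ) : ℂ) * I := by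
    rw [hc, hzdef]; push_cast; ring
  have h2 : f z = ((x : ℂ) + ((T + t : ℝ) : ℂ) * I - 1) *
      riemannZeta ((x : ℂ) + ((T + t : ℝ) : ℂ) * I) := by
    rw [hfdef]
    simp only
    rw [hs]
    refine Zf_eq ?_
    intro h
    have h3 := congrArg Complex.im h
    simp at h3
    linarith [ht.1]
  have hTt : T - 1 ≤ T + t := by linarith [ht.1]
  have hTt2 : T + t ≤ T := by linarith [ht.2]
  have h3 : ‖(x : ℂ) + ((T + t : ℝ) : ℂ) * I - 1‖ ≤ 2 * T := by
    have e1 : (x : ℂ) + ((T + t : ℝ) : ℂ) * I - 1 = ((x - 1 : ℝ) : ℂ) + ((T + t : ℝ) : ℂ) * I := by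
      push_cast; ring
    rw [e1]
    refine (norm_add_le _ _).trans ?_
    rw [norm_mul, norm_I, mul_one, Complex.norm_real, Complex.norm_real, Real.norm_eq_abs,
      Real.norm_eq_abs]
    have e2 : |x - 1| ≤ 2 := abs_le.2 ⟨by linarith, by linarith⟩
    have e3 : |T + t| ≤ T := abs_le.2 ⟨by linarith, by linarith⟩
    linarith
  rw [h2, norm_mul] at h1
  set Zt : ℝ := ‖riemannZeta ((x : ℂ) + ((T + t : ℝ) : ℂ) * I)‖ with hZt
  have hZt0 : 0 ≤ Zt := norm_nonneg _
  have h4 : Real.exp (-(44 * Λ)) = ((T ^ (44 * (A + 1))))⁻¹ := by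
    rw [Real.exp_neg]
    congr 1
    have : 44 * Λ = ((44 * (A + 1) : ℕ) : ℝ) * Real.log T := by
      rw [hΛdef]; push_cast; ring
    rw [this, Real.exp_nat_mul, Real.exp_log hT0]
  have h5 : 9 / 10 * ((T ^ (44 * (A + 1))))⁻¹ ≤ 2 * T * Zt := by
    rw [← h4]
    refine le_trans (mul_le_mul_of_nonneg_right hf0 (Real.exp_pos _).le) (h1.trans ?_)
    exact mul_le_mul_of_nonneg_right h3 hZt0
  have h6 : 9 / 10 ≤ 2 * T * Zt * T ^ (44 * (A + 1)) := by
    have h7 := mul_le_mul_of_nonneg_right h5 (by positivity : 0 ≤ T ^ (44 * (A + 1)))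
    rw [mul_assoc, inv_mul_cancel₀ (by positivity), mul_one] at h7
    exact h7
  have h8 : 1 ≤ T ^ (44 * (A + 1) + 2) * Zt := by
    have h9 : 2 * (2 * T * Zt * T ^ (44 * (A + 1))) ≤ T ^ (44 * (A + 1) + 2) * Zt := by
      have e1 : T ^ (44 * (A + 1) + 2) * Zt = T * (T * Zt * T ^ (44 * (A + 1))) := by
        rw [pow_add]; ring
      have e2 : 2 * (2 * T * Zt * T ^ (44 * (A + 1))) = 4 * (T * Zt * T ^ (44 * (A + 1))) := by ring
      rw [e1, e2]
      exact mul_le_mul_of_nonneg_right (by linarith) (by positivity)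
    linarith
  have h10 : T ≤ (T + t) ^ 2 := by nlinarith
  have h11 : T ^ (44 * (A + 1) + 2) ≤ (T + t) ^ (2 * (44 * (A + 1) + 2)) := by
    rw [pow_mul]
    exact pow_le_pow_left₀ hT0.le h10 _
  refine h8.trans ?_
  exact mul_le_mul_of_nonneg_right h11 hZt0

end Pool.Agent.ZR
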