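import Pool.Agent.ZR.Defs

/-!
# The weight `(1 + ((s - 1/2)/T)^2)^K`
-/

set_option autoImplicit false

open Complex MeasureTheory Set Finset

namespace Pool.Agent.ZR

private theorem xw_base {T x t : ℝ} (hT : 7 ≤ T) :
    (1 : ℂ) + (((x + t * I : ℂ) - 1 / 2) / T) ^ 2 =
      ((1 + ((x - 1 / 2) ^ 2 - t ^ 2) / T ^ 2 : ℝ) : ℂ) +
        ((2 * (x - 1 / 2) * t / T ^ 2 : ℝ) : ℂ) * I := by
  have hT0 : (T : ℂ) ≠ 0 := by
    have : T ≠ 0 := by linarith
    exact_mod_cast this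
  push_cast
  field_simp
  ring_nf
  rw [I_sq]
  ring

private theorem xw_sq {T x : ℝ} (hT : 7 ≤ T) (hx : |x - 1 / 2| ≤ 5 / 2) :
    (x - 1 / 2) ^ 2 / T ^ 2 ≤ 1 / T := by
  have h1 : (x - 1 / 2) ^ 2 ≤ 7 := by
    have := abs_le.1 hx
    nlinarith [this.1, this.2]
  rw [div_le_div_iff₀ (by positivity) (by linarith)]
  nlinarith [h1, hT, mul_nonneg (by linarith : (0:ℝ) ≤ T) (by linarith : (0:ℝ) ≤ T - 7)]

private theorem xw_im {T x t : ℝ} (hT : 7 ≤ T) (hx : |x - 1 / 2| ≤ 5 / 2) (ht : |t| ≤ T) :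
    |2 * (x - 1 / 2) * t / T ^ 2| ≤ 5 / T := by
  have hT0 : 0 < T := by linarith
  rw [abs_div, abs_mul, abs_mul, abs_of_pos (by positivity : (0:ℝ) < T ^ 2),
    abs_of_pos (by norm_num : (0:ℝ) < 2), div_le_div_iff₀ (by positivity) hT0]
  have h1 : |x - 1 / 2| * |t| ≤ 5 / 2 * T := mul_le_mul hx ht (abs_nonneg _) (by norm_num)
  nlinarith [h1, hT0]

private theorem xw_norm2 {T x t : ℝ} (hT : 7 ≤ T) (hx : |x - 1 / 2| ≤ 5 / 2) (ht : |t| ≤ T) :
    ‖(1 : ℂ) + (((x + t * I : ℂ) - 1 / 2) / T) ^ 2‖ ≤ 2 := by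
  rw [xw_base hT]
  have hT0 : 0 < T := by linarith
  have h1 := xw_sq hT hx
  have h2 := xw_im hT hx ht
  have h3 : t ^ 2 / T ^ 2 ≤ 1 := by
    rw [div_le_one (by positivity)]
    exact sq_le_sq' (by linarith [(abs_le.1 ht).1]) (abs_le.1 ht).2
  have h4 : 1 / T ≤ 1 / 7 := one_div_le_one_div_of_le (by norm_num) hT
  have h5 : 5 / T = 5 * (1 / T) := by ring
  have h6 : 0 ≤ (x - 1 / 2) ^ 2 / T ^ 2 := by positivity
  have h7 : 0 ≤ t ^ 2 / T ^ 2 := by positivity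
  have h8 : |1 + ((x - 1 / 2) ^ 2 - t ^ 2) / T ^ 2| ≤ 1 + 1 / T := by
    rw [sub_div, abs_le]
    constructor <;> linarith
  calc _ ≤ ‖((1 + ((x - 1 / 2) ^ 2 - t ^ 2) / T ^ 2 : ℝ) : ℂ)‖ +
        ‖((2 * (x - 1 / 2) * t / T ^ 2 : ℝ) : ℂ) * I‖ := norm_add_le _ _
    _ = |1 + ((x - 1 / 2) ^ 2 - t ^ 2) / T ^ 2| + |2 * (x - 1 / 2) * t / T ^ 2| := by
        rw [norm_mul, norm_I, mul_one, Complex.norm_real, Complex.norm_real, Real.norm_eq_abs,
          Real.norm_eq_abs]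
    _ ≤ 2 := by linarith

private theorem xw_pow_sub (K : ℕ) {z w : ℂ} (hz : ‖z‖ ≤ 2) (hw : ‖w‖ ≤ 2) :
    ‖z ^ K - w ^ K‖ ≤ K * 2 ^ K * ‖z - w‖ := by
  induction K with
  | zero => simp
  | succ K ih =>
    have h1 : z ^ (K + 1) - w ^ (K + 1) = z * (z ^ K - w ^ K) + (z - w) * w ^ K := by ring
    rw [h1]
    have h2 : ‖z * (z ^ K - w ^ K)‖ ≤ 2 * (K * 2 ^ K * ‖z - w‖) := by
      rw [norm_mul]
      exact mul_le_mul hz ih (norm_nonneg _) (by norm_num)
    have h3 : ‖(z - w) * w ^ K‖ ≤ ‖z - w‖ * 2 ^ K := by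
      rw [norm_mul, norm_pow]
      exact mul_le_mul_of_nonneg_left (pow_le_pow_left₀ (norm_nonneg _) hw K) (norm_nonneg _)
    have h4 : 0 ≤ ‖z - w‖ * 2 ^ K := by positivity
    calc _ ≤ ‖z * (z ^ K - w ^ K)‖ + ‖(z - w) * w ^ K‖ := norm_add_le _ _
      _ ≤ 2 * (K * 2 ^ K * ‖z - w‖) + ‖z - w‖ * 2 ^ K + ‖z - w‖ * 2 ^ K := by linarith
      _ = ((K + 1 : ℕ) : ℝ) * 2 ^ (K + 1) * ‖z - w‖ := by push_cast; ring

theorem wk_norm (K : ℕ) {T x t : ℝ} (hT : 7 ≤ T) (hx : |x - 1 / 2| ≤ 5 / 2) (ht : |t| ≤ T) :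
    ‖WK K T (x + t * I)‖ ≤ 2 ^ K := by
  unfold WK
  rw [norm_pow]
  exact pow_le_pow_left₀ (norm_nonneg _) (xw_norm2 hT hx ht) K

theorem wk_hor (K : ℕ) {T x t : ℝ} (hT : 7 ≤ T) (hx : |x - 1 / 2| ≤ 5 / 2) (ht : |t| = T) :
    ‖WK K T (x + t * I)‖ ≤ (8 / T) ^ K := by
  unfold WK
  rw [norm_pow]
  refine pow_le_pow_left₀ (norm_nonneg _) ?_ K
  rw [xw_base hT]
  have hT0 : 0 < T := by linarith
  have h1 := xw_sq hT hx
  have h2 := xw_im hT hx ht.le
  have h3 : t ^ 2 / T ^ 2 = 1 := by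
    rw [← sq_abs t, ht, div_self (by positivity)]
  have h6 : 0 ≤ (x - 1 / 2) ^ 2 / T ^ 2 := by positivity
  have h8 : |1 + ((x - 1 / 2) ^ 2 - t ^ 2) / T ^ 2| ≤ 1 / T := by
    rw [sub_div, h3, abs_le]
    constructor
    · have : 0 < 1 / T := by positivity
      linarith
    · linarith
  calc _ ≤ ‖((1 + ((x - 1 / 2) ^ 2 - t ^ 2) / T ^ 2 : ℝ) : ℂ)‖ +
        ‖((2 * (x - 1 / 2) * t / T ^ 2 : ℝ) : ℂ) * I‖ := norm_add_le _ _
    _ = |1 + ((x - 1 / 2) ^ 2 - t ^ 2) / T ^ 2| + |2 * (x - 1 / 2) * t / T ^ 2| := by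
        rw [norm_mul, norm_I, mul_one, Complex.norm_real, Complex.norm_real, Real.norm_eq_abs,
          Real.norm_eq_abs]
    _ ≤ 1 / T + 5 / T := add_le_add h8 h2
    _ = 6 / T := by ring
    _ ≤ 8 / T := by
        rw [div_le_div_iff_of_pos_right hT0]
        norm_num

private theorem xw_hasDeriv (K : ℕ) (T a t : ℝ) :
    HasDerivAt (fun t : ℝ => WK K T (a + t * I))
      (K * (1 + (((a + t * I : ℂ) - 1 / 2) / T) ^ 2) ^ (K - 1) *
        (2 * (((a + t * I : ℂ) - 1 / 2) / T) * (I / T))) t := by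
  have h1 : HasDerivAt (fun t : ℝ => ((a : ℂ) + (t : ℂ) * I - 1 / 2) / (T : ℂ)) (I / T) t := by
    have h2 : HasDerivAt (fun t : ℝ => (t : ℂ)) 1 t := by
      simpa using (hasDerivAt_id t).ofReal_comp
    have h3 := ((h2.mul_const I).const_add (a : ℂ)).sub_const (1 / 2 : ℂ)
    have h4 := h3.div_const (T : ℂ)
    simpa using h4
  have h5 := (((h1.pow 2).const_add 1).pow K)
  refine (h5.congr_deriv ?_)
  simp

private theorem xw_cont (K : ℕ) (T a : ℝ) : Continuous (fun t : ℝ => WK K T (a + t * I)) := by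
  unfold WK
  fun_prop

/-- one integration by parts; `|d/dt W| ≤ C/T` -/
theorem wk_osc (K : ℕ) : ∃ C : ℝ, 0 < C ∧ ∀ T a θ : ℝ, 7 ≤ T → |a - 1 / 2| ≤ 5 / 2 → θ ≠ 0 →
    ‖∫ t in (-T)..T, WK K T (a + t * I) * cexp (I * (θ * t : ℝ))‖ ≤ C / |θ| := by
  refine ⟨2 * 2 ^ K + K * 2 ^ (K + 3), by positivity, ?_⟩
  intro T a θ hT ha hθ
  have hT0 : 0 < T := by linarith
  have hθ' : (θ : ℂ) ≠ 0 := by exact_mod_cast hθ
  set W' : ℝ → ℂ := fun t => (K * (1 + (((a + t * I : ℂ) - 1 / 2) / T) ^ 2) ^ (K - 1) *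
        (2 * (((a + t * I : ℂ) - 1 / 2) / T) * (I / T))) with hW'
  have hWc : Continuous W' := by
    rw [hW']
    fun_prop
  have hE : ∀ t : ℝ, HasDerivAt (fun t : ℝ => cexp (I * (θ * t : ℝ)) / (I * θ))
      (cexp (I * (θ * t : ℝ))) t := by
    intro t
    have h2 : HasDerivAt (fun t : ℝ => (t : ℂ)) 1 t := by
      simpa using (hasDerivAt_id t).ofReal_comp
    have h3 : HasDerivAt (fun t : ℝ => I * ((θ * t : ℝ) : ℂ)) (I * θ) t := by
      have h4 := (h2.const_mul (θ : ℂ)).const_mul I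
      simp only [mul_one] at h4
      refine h4.congr_of_eventuallyEq ?_
      filter_upwards with s
      push_cast
      rfl
    have h5 := h3.cexp.div_const (I * θ)
    refine h5.congr_deriv ?_
    field_simp
  have hparts := intervalIntegral.integral_mul_deriv_eq_deriv_mul (a := -T) (b := T)
    (u := fun t : ℝ => WK K T (a + t * I)) (u' := W')
    (v := fun t : ℝ => cexp (I * (θ * t : ℝ)) / (I * θ)) (v' := fun t : ℝ => cexp (I * (θ * t : ℝ)))
    (fun t _ => xw_hasDeriv K T a t) (fun t _ => hE t) (hWc.intervalIntegrable _ _)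
    ((by fun_prop : Continuous (fun t : ℝ => cexp (I * (θ * t : ℝ)))).intervalIntegrable _ _)
  rw [hparts]
  have hexp : ∀ t : ℝ, ‖cexp (I * (θ * t : ℝ)) / (I * θ)‖ = 1 / |θ| := by
    intro t
    rw [norm_div, norm_mul, norm_I, one_mul, Complex.norm_real, Real.norm_eq_abs, mul_comm,
      Complex.norm_exp_ofReal_mul_I]
  have hend : ∀ t : ℝ, |t| ≤ T → ‖WK K T (a + t * I) * (cexp (I * (θ * t : ℝ)) / (I * θ))‖ ≤
      2 ^ K * (1 / |θ|) := by
    intro t ht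
    rw [norm_mul, hexp t]
    exact mul_le_mul_of_nonneg_right (wk_norm K hT ha ht) (by positivity)
  have hW'b : ∀ t : ℝ, |t| ≤ T → ‖W' t‖ ≤ K * 2 ^ (K + 2) / T := by
    intro t ht
    rw [hW']
    simp only
    rw [norm_mul, norm_mul, norm_mul, norm_mul, norm_pow, norm_div, norm_div, norm_I,
      Complex.norm_natCast, Complex.norm_two, Complex.norm_real, Real.norm_eq_abs,
      abs_of_pos hT0]
    have h1 : ‖(1 : ℂ) + (((a + t * I : ℂ) - 1 / 2) / T) ^ 2‖ ^ (K - 1) ≤ 2 ^ K := by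
      refine (pow_le_pow_left₀ (norm_nonneg _) (xw_norm2 hT ha ht) (K - 1)).trans ?_
      exact pow_le_pow_right₀ (by norm_num) (Nat.sub_le _ _)
    have h2 : ‖((a + t * I : ℂ) - 1 / 2)‖ ≤ 2 * T := by
      have h3 : ((a + t * I : ℂ) - 1 / 2) = ((a - 1 / 2 : ℝ) : ℂ) + (t : ℂ) * I := by
        push_cast; ring
      rw [h3]
      refine (norm_add_le _ _).trans ?_
      rw [norm_mul, norm_I, mul_one, Complex.norm_real, Complex.norm_real, Real.norm_eq_abs,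
        Real.norm_eq_abs]
      linarith
    have h4 : 2 * (‖((a + t * I : ℂ) - 1 / 2)‖ / T) * (1 / T) ≤ 4 / T := by
      have h5 : ‖((a + t * I : ℂ) - 1 / 2)‖ / T ≤ 2 := by
        rw [div_le_iff₀ hT0]; exact h2
      have h6 : 2 * (‖((a + t * I : ℂ) - 1 / 2)‖ / T) * (1 / T) ≤ 2 * 2 * (1 / T) :=
        mul_le_mul_of_nonneg_right (by linarith) (by positivity)
      refine h6.trans (le_of_eq (by ring))
    calc _ ≤ (K : ℝ) * 2 ^ K * (4 / T) := by
          refine mul_le_mul (mul_le_mul_of_nonneg_left h1 (by positivity)) h4 (by positivity)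
            (by positivity)
      _ = K * 2 ^ (K + 2) / T := by ring
  have hint : ‖∫ t in (-T)..T, W' t * (cexp (I * (θ * t : ℝ)) / (I * θ))‖ ≤
      (K * 2 ^ (K + 2) / T * (1 / |θ|)) * |T - (-T)| := by
    refine intervalIntegral.norm_integral_le_of_norm_le_const ?_
    intro t ht
    rw [uIoc_of_le (by linarith)] at ht
    rw [norm_mul, hexp t]
    refine mul_le_mul_of_nonneg_right (hW'b t (abs_le.2 ⟨ht.1.le, ht.2⟩)) (by positivity)
  have e1 := hend T (le_of_eq (abs_of_pos hT0))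
  have e2 := hend (-T) (by rw [abs_neg, abs_of_pos hT0])
  have h9 : |T - (-T)| = 2 * T := by
    rw [abs_of_pos (by linarith)]; ring
  rw [h9] at hint
  have hfin : (K * 2 ^ (K + 2) / T * (1 / |θ|)) * (2 * T) = K * 2 ^ (K + 3) * (1 / |θ|) := by
    field_simp
    ring
  rw [hfin] at hint
  calc _ ≤ ‖WK K T (a + T * I) * (cexp (I * (θ * T : ℝ)) / (I * θ)) -
        WK K T (a + (-T : ℝ) * I) * (cexp (I * (θ * (-T : ℝ) : ℝ)) / (I * θ))‖ +
        ‖∫ t in (-T)..T, W' t * (cexp (I * (θ * t : ℝ)) / (I * θ))‖ := norm_sub_le _ _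
    _ ≤ (2 ^ K * (1 / |θ|) + 2 ^ K * (1 / |θ|)) + K * 2 ^ (K + 3) * (1 / |θ|) := by
        refine add_le_add ((norm_sub_le _ _).trans (add_le_add e1 e2)) hint
    _ = (2 * 2 ^ K + K * 2 ^ (K + 3)) / |θ| := by ring

/-- `W(a + it) = (1 - (t/T)^2)^K + O(1/T)` -/
theorem wk_main (K : ℕ) : ∃ c C : ℝ, 0 < c ∧ 0 < C ∧ ∀ T a : ℝ, 7 ≤ T → |a - 1 / 2| ≤ 5 / 2 →
    c * T - C ≤ (∫ t in (-T)..T, WK K T (a + t * I)).re := by
  refine ⟨(3 / 4) ^ K, 12 * K * 2 ^ K + 1, by positivity, by positivity, ?_⟩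
  intro T a hT ha
  have hT0 : 0 < T := by linarith
  have hpt : ∀ t : ℝ, |t| ≤ T → (1 - (t / T) ^ 2) ^ K - K * 2 ^ K * (6 / T) ≤
      (WK K T (a + t * I)).re := by
    intro t ht
    have h1 := xw_norm2 hT ha ht
    have h3 : (t / T) ^ 2 ≤ 1 := by
      rw [div_pow, div_le_one (by positivity)]
      exact sq_le_sq' (by linarith [(abs_le.1 ht).1]) (abs_le.1 ht).2
    have h4 : 0 ≤ (t / T) ^ 2 := by positivity
    have h2 : ‖((1 - (t / T) ^ 2 : ℝ) : ℂ)‖ ≤ 2 := by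
      rw [Complex.norm_real, Real.norm_eq_abs, abs_le]
      constructor <;> linarith
    have h5 := xw_pow_sub K h2 h1
    have h6 : ‖((1 - (t / T) ^ 2 : ℝ) : ℂ) - ((1 : ℂ) + (((a + t * I : ℂ) - 1 / 2) / T) ^ 2)‖ ≤
        6 / T := by
      rw [xw_base hT]
      have h7 : ((1 - (t / T) ^ 2 : ℝ) : ℂ) - (((1 + ((a - 1 / 2) ^ 2 - t ^ 2) / T ^ 2 : ℝ) : ℂ) +
        ((2 * (a - 1 / 2) * t / T ^ 2 : ℝ) : ℂ) * I) =
          ((-((a - 1 / 2) ^ 2 / T ^ 2) : ℝ) : ℂ) - ((2 * (a - 1 / 2) * t / T ^ 2 : ℝ) : ℂ) * I := by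
        push_cast
        have hT1 : (T : ℂ) ≠ 0 := by exact_mod_cast hT0.ne'
        field_simp
        ring
      rw [h7]
      refine (norm_sub_le _ _).trans ?_
      rw [norm_mul, norm_I, mul_one, Complex.norm_real, Complex.norm_real, Real.norm_eq_abs,
        Real.norm_eq_abs, abs_neg, abs_of_nonneg (by positivity)]
      have h8 := xw_sq hT ha
      have h9 := xw_im hT ha ht
      have h10 : 6 / T = 1 / T + 5 / T := by ring
      linarith
    have h11 : ‖((1 - (t / T) ^ 2 : ℝ) : ℂ) ^ K -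
        ((1 : ℂ) + (((a + t * I : ℂ) - 1 / 2) / T) ^ 2) ^ K‖ ≤ K * 2 ^ K * (6 / T) :=
      h5.trans (mul_le_mul_of_nonneg_left h6 (by positivity))
    have h12 := (Complex.abs_re_le_norm _).trans h11
    rw [Complex.sub_re, ← Complex.ofReal_pow, Complex.ofReal_re] at h12
    have h13 := (abs_le.1 h12).2
    unfold WK
    linarith
  have hre : (∫ t in (-T)..T, WK K T (a + t * I)).re = ∫ t in (-T)..T, (WK K T (a + t * I)).re := by
    have hii : IntervalIntegrable (fun t : ℝ => WK K T (a + t * I)) volume (-T) T :=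
      (xw_cont K T a).intervalIntegrable (-T) T
    have h1 := Complex.reCLM.intervalIntegral_comp_comm hii
    simp only [Complex.reCLM_apply] at h1
    exact h1.symm
  rw [hre]
  have hc1 : Continuous (fun t : ℝ => (1 - (t / T) ^ 2) ^ K) := by fun_prop
  have hc2 : Continuous (fun t : ℝ => (1 - (t / T) ^ 2) ^ K - K * 2 ^ K * (6 / T)) := by fun_prop
  have hmono : ∫ t in (-T)..T, ((1 - (t / T) ^ 2) ^ K - K * 2 ^ K * (6 / T)) ≤
      ∫ t in (-T)..T, (WK K T (a + t * I)).re := by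
    refine intervalIntegral.integral_mono_on (by linarith) (hc2.intervalIntegrable _ _)
      ((Complex.continuous_re.comp (xw_cont K T a)).intervalIntegrable _ _) ?_
    intro t ht
    exact hpt t (abs_le.2 ht)
  refine le_trans ?_ hmono
  have hci : IntervalIntegrable (fun _ : ℝ => (K : ℝ) * 2 ^ K * (6 / T)) volume (-T) T :=
    continuous_const.intervalIntegrable _ _
  rw [intervalIntegral.integral_sub (hc1.intervalIntegrable _ _) hci,
    intervalIntegral.integral_const]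
  have h20 : (3 / 4 : ℝ) ^ K * T ≤ ∫ t in (-T)..T, (1 - (t / T) ^ 2) ^ K := by
    have hcj : IntervalIntegrable (fun _ : ℝ => (3 / 4 : ℝ) ^ K) volume (-(T / 2)) (T / 2) :=
      continuous_const.intervalIntegrable _ _
    have h21 : ∫ t in (-(T / 2))..(T / 2), (3 / 4 : ℝ) ^ K ≤
        ∫ t in (-(T / 2))..(T / 2), (1 - (t / T) ^ 2) ^ K := by
      refine intervalIntegral.integral_mono_on (by linarith)
        hcj (hc1.intervalIntegrable _ _) ?_
      intro t ht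
      refine pow_le_pow_left₀ (by norm_num) ?_ K
      have h22 : (t / T) ^ 2 ≤ 1 / 4 := by
        rw [div_pow, div_le_iff₀ (by positivity)]
        nlinarith [ht.1, ht.2]
      linarith
    have h23 : ∫ t in (-(T / 2))..(T / 2), (1 - (t / T) ^ 2) ^ K ≤
        ∫ t in (-T)..T, (1 - (t / T) ^ 2) ^ K := by
      refine intervalIntegral.integral_mono_interval (by linarith) (by linarith) (by linarith) ?_
        (hc1.intervalIntegrable _ _)
      refine (ae_restrict_iff' measurableSet_Ioc).2 (Filter.Eventually.of_forall ?_)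
      intro t ht
      have h24 : (t / T) ^ 2 ≤ 1 := by
        rw [div_pow, div_le_one (by positivity)]
        exact sq_le_sq' ht.1.le ht.2
      simp only [Pi.zero_apply]
      exact pow_nonneg (by linarith) K
    refine le_trans (le_of_eq ?_) (h21.trans h23)
    rw [intervalIntegral.integral_const, smul_eq_mul]
    ring
  have h30 : (T - (-T)) • ((K : ℝ) * 2 ^ K * (6 / T)) = 12 * K * 2 ^ K := by
    rw [smul_eq_mul]
    field_simp
    ring
  rw [h30]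
  linarith

end Pool.Agent.ZR
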