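import Pool.Agent.ZR.XM
import Pool.Agent.ZR.XW
import Pool.Agent.ZR.BAS1

/-!
# The left side of the first moment: only `O(T)`
`zeta_quot` with `b = 1/log T` (`(1+|t|)^b ≤ 6`), `wk_norm`, and `abc ≤ a⁴/4 + b⁴/4 + c²/2`.
-/

set_option autoImplicit false

open Complex MeasureTheory Set Finset

namespace Pool.Agent.ZR

theorem xl_ER_diff (N : ℕ) (ε : ℝ) (g : ℝ → ℝ) : Differentiable ℂ (ER N ε g) := by
  unfold ER
  apply Differentiable.fun_sum
  intro m hm
  have h1 : 1 ≤ m := (Finset.mem_Icc.mp hm).1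
  have h0 : (m : ℂ) ≠ 0 := by exact_mod_cast (by omega : m ≠ 0)
  exact (differentiable_const _).mul (Differentiable.const_cpow (by fun_prop) (Or.inl h0))

theorem xl_zeta_cont {b k : ℝ} (hb : 0 < b) :
    Continuous (fun t : ℝ => riemannZeta (((1 + b : ℝ) : ℂ) - k * t * I)) := by
  rw [continuous_iff_continuousAt]
  intro t
  have hne : (((1 + b : ℝ) : ℂ) - k * t * I) ≠ 1 := by
    intro h
    have := congrArg Complex.re h
    simp at this
    linarith
  exact ContinuousAt.comp (f := fun t : ℝ => ((1 + b : ℝ) : ℂ) - k * t * I)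
    (differentiableAt_riemannZeta hne).continuousAt (by fun_prop)

theorem xl_left (K : ℕ) : ∃ C T0 : ℝ, 0 < C ∧ 3 ≤ T0 ∧ ∀ T : ℝ, T0 ≤ T →
    ‖∫ t in (-T)..T, fX K T (((-(1 / Real.log T) : ℝ) : ℂ) + t * I)‖ ≤ C * T := by
  obtain ⟨C0, hC0, hq⟩ := zeta_quot
  obtain ⟨C1, hC1, h1⟩ := xm_zeta4
  obtain ⟨C2, hC2, h2⟩ := xm_inv4
  obtain ⟨C3, hC3, h3⟩ := xm_Q
  refine ⟨C0 * Real.exp 2 * 2 ^ K * (C1 / 4 + C2 / 4 + C3 / 2), Real.exp 4, by positivity, ?_,
    fun T hT => ?_⟩
  · have := Real.add_one_le_exp (4 : ℝ)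
    linarith
  have hT5 : 5 ≤ T := by
    have := Real.add_one_le_exp (4 : ℝ)
    linarith
  have hT0 : 0 < T := by linarith
  have hlog : 4 ≤ Real.log T := by
    rw [Real.le_log_iff_exp_le hT0]; exact hT
  have hT7 : 7 ≤ T := by
    have e1 := Real.add_one_le_exp (2 : ℝ)
    have e2 : Real.exp 4 = Real.exp 2 * Real.exp 2 := by rw [← Real.exp_add]; norm_num
    nlinarith
  set b : ℝ := 1 / Real.log T with hb
  have hb0 : 0 < b := by positivity
  have hb1 : b ≤ 1 / 4 := one_div_le_one_div_of_le (by norm_num) hlog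
  have hle : -T ≤ T := by linarith
  -- continuity of the three factors
  have cA : Continuous (fun t : ℝ => ‖riemannZeta (((1 + 2 * b : ℝ) : ℂ) - 2 * t * I)‖ ^ 4) := by
    have h := (xl_zeta_cont (b := 2 * b) (k := 2) (by positivity)).norm
    have h' : Continuous (fun t : ℝ => ‖riemannZeta (((1 + 2 * b : ℝ) : ℂ) - 2 * t * I)‖) := by
      simpa using h
    exact h'.pow 4
  have cB : Continuous (fun t : ℝ => (‖riemannZeta (((1 + b : ℝ) : ℂ) - t * I)‖⁻¹) ^ 4) := by
    have h := (xl_zeta_cont (b := b) (k := 1) hb0).norm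
    have h' : Continuous (fun t : ℝ => ‖riemannZeta (((1 + b : ℝ) : ℂ) - t * I)‖) := by
      simpa using h
    apply Continuous.pow
    apply h'.inv₀
    intro t ht
    rw [norm_eq_zero] at ht
    refine riemannZeta_ne_zero_of_one_le_re ?_ ht
    simp [hb0.le]
  have cQ : Continuous (fun t : ℝ => ‖Qe T 1 (((-b : ℝ) : ℂ) + t * I)‖ ^ 2) := by
    apply Continuous.pow
    apply Continuous.norm
    unfold Qe
    exact (xl_ER_diff _ _ _).continuous.comp (by fun_prop)
  have iA := cA.intervalIntegrable (μ := volume) (-T) T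
  have iB := cB.intervalIntegrable (μ := volume) (-T) T
  have iQ := cQ.intervalIntegrable (μ := volume) (-T) T
  set D : ℝ := C0 * Real.exp 2 * 2 ^ K with hD
  have hD0 : 0 < D := by positivity
  have hbound : ∀ t ∈ Ioc (-T) T, ‖fX K T (((-b : ℝ) : ℂ) + t * I)‖ ≤
      D * (‖riemannZeta (((1 + 2 * b : ℝ) : ℂ) - 2 * t * I)‖ ^ 4 / 4 +
        (‖riemannZeta (((1 + b : ℝ) : ℂ) - t * I)‖⁻¹) ^ 4 / 4 +
        ‖Qe T 1 (((-b : ℝ) : ℂ) + t * I)‖ ^ 2 / 2) := by
    intro t ht
    have habs : |t| ≤ T := abs_le.mpr ⟨ht.1.le, ht.2⟩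
    have q1 := hq b t hb0 hb1
    have q2 : (1 + |t|) ^ b ≤ Real.exp 2 := by
      have e1 : 1 + |t| ≤ T * T := by nlinarith [abs_nonneg t]
      calc (1 + |t|) ^ b ≤ (T * T) ^ b :=
            Real.rpow_le_rpow (by positivity) e1 hb0.le
        _ = Real.exp 2 := by
            rw [Real.rpow_def_of_pos (by positivity), Real.log_mul hT0.ne' hT0.ne', hb]
            congr 1
            have : Real.log T ≠ 0 := by positivity
            field_simp
            norm_num
    have q3 := wk_norm K (x := -b) (t := t) hT7 (by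
      rw [abs_le]; constructor <;> linarith) habs
    set A := ‖riemannZeta (((1 + 2 * b : ℝ) : ℂ) - 2 * t * I)‖
    set B := ‖riemannZeta (((1 + b : ℝ) : ℂ) - t * I)‖⁻¹
    set Q := ‖Qe T 1 (((-b : ℝ) : ℂ) + t * I)‖
    have hA : 0 ≤ A := norm_nonneg _
    have hB : 0 ≤ B := inv_nonneg.mpr (norm_nonneg _)
    have hQ : 0 ≤ Q := norm_nonneg _
    unfold fX
    rw [norm_mul, norm_mul]
    have q4 : ‖riemannZeta (2 * (((-b : ℝ) : ℂ) + t * I)) / riemannZeta (((-b : ℝ) : ℂ) + t * I)‖ ≤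
        C0 * Real.exp 2 * A * B := by
      refine q1.trans ?_
      apply mul_le_mul_of_nonneg_right _ hB
      apply mul_le_mul_of_nonneg_right _ hA
      exact mul_le_mul_of_nonneg_left q2 (by linarith)
    have q5 : A * B * Q ≤ A ^ 4 / 4 + B ^ 4 / 4 + Q ^ 2 / 2 := by
      nlinarith [sq_nonneg (A * B - Q), sq_nonneg (A ^ 2 - B ^ 2)]
    calc _ ≤ (C0 * Real.exp 2 * A * B) * Q * 2 ^ K := by
          apply mul_le_mul (mul_le_mul_of_nonneg_right q4 hQ) q3 (norm_nonneg _) (by positivity)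
      _ = D * (A * B * Q) := by rw [hD]; ring
      _ ≤ _ := mul_le_mul_of_nonneg_left q5 hD0.le
  have iR : IntervalIntegrable (fun t : ℝ => D *
      (‖riemannZeta (((1 + 2 * b : ℝ) : ℂ) - 2 * t * I)‖ ^ 4 / 4 +
        (‖riemannZeta (((1 + b : ℝ) : ℂ) - t * I)‖⁻¹) ^ 4 / 4 +
        ‖Qe T 1 (((-b : ℝ) : ℂ) + t * I)‖ ^ 2 / 2)) volume (-T) T :=
    (((iA.div_const 4).add (iB.div_const 4)).add (iQ.div_const 2)).const_mul D
  refine (intervalIntegral.norm_integral_le_of_norm_le hle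
    (Filter.Eventually.of_forall hbound) iR).trans ?_
  rw [intervalIntegral.integral_const_mul, intervalIntegral.integral_add
    ((iA.div_const 4).add (iB.div_const 4)) (iQ.div_const 2),
    intervalIntegral.integral_add (iA.div_const 4) (iB.div_const 4),
    intervalIntegral.integral_div, intervalIntegral.integral_div, intervalIntegral.integral_div]
  have g1 := h1 T (by linarith)
  have g2 := h2 T (by linarith)
  have g3 := h3 T (by linarith)
  rw [← hb] at g1 g2 g3
  calc _ ≤ D * (C1 * T / 4 + C2 * T / 4 + C3 * T / 2) := by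
        apply mul_le_mul_of_nonneg_left _ hD0.le
        linarith
    _ = _ := by rw [hD]; ring

end Pool.Agent.ZR
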