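import Pool.Agent.ZR.XR
import Pool.Agent.ZR.XG
import Pool.Agent.ZR.XB
import Pool.Agent.ZR.XL
import Pool.Agent.ZR.BAS2

/-!
# The first moment
Apply `rect_residue` with `a = -1/log T`, `b = 1 + 1/log T`,
`N(s) = (s - 1) Zf(2s) Qe T 1 s * WK K T s`, `D(s) = (2s - 1) Zf(s)`: `N/D = fX` off `s = 1/2, 1` and zeros.
The zero `s = 1/2` of `2s-1` (if `ζ(1/2) ≠ 0`: by `no_real`) gives a residue `≤ C N1`. Horizontal sides:
good height `T'`, `K = A0 + growth exponent + 10`. Here `T` is already the good height.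
-/

set_option autoImplicit false

open Complex MeasureTheory Set Finset

namespace Pool.Agent.ZR

theorem xa_WK_diff (K : ℕ) (T : ℝ) : Differentiable ℂ (WK K T) := by
  unfold WK
  fun_prop

theorem xa_Qe_diff (T ε : ℝ) : Differentiable ℂ (Qe T ε) :=
  xl_ER_diff (N1 T) ε (fun v => 1 - v / el T)

/-- The numerator. -/
noncomputable def xaN (K : ℕ) (T : ℝ) (s : ℂ) : ℂ := (s - 1) * Zf (2 * s) * Qe T 1 s * WK K T s

/-- The denominator. -/
noncomputable def xaD (s : ℂ) : ℂ := (2 * s - 1) * Zf s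

theorem xaN_diff (K : ℕ) (T : ℝ) : Differentiable ℂ (xaN K T) := by
  have h1 : Differentiable ℂ (fun s : ℂ => Zf (2 * s)) := Zf_diff.comp (by fun_prop)
  have h2 := xa_Qe_diff T 1
  have h3 := xa_WK_diff K T
  have h4 : Differentiable ℂ (fun s : ℂ => s - 1) := by fun_prop
  exact ((h4.mul h1).mul h2).mul h3

theorem xaD_diff : Differentiable ℂ xaD := by
  have h4 : Differentiable ℂ (fun s : ℂ => 2 * s - 1) := by fun_prop
  exact h4.mul Zf_diff

theorem xa_quot (K : ℕ) (T : ℝ) {s : ℂ} (h1 : s ≠ 1) (h2 : 2 * s ≠ 1) :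
    xaN K T s / xaD s = fX K T s := by
  unfold xaN xaD fX
  rw [Zf_eq h1, Zf_eq h2]
  have h1' : s - 1 ≠ 0 := sub_ne_zero.mpr h1
  have h2' : 2 * s - 1 ≠ 0 := sub_ne_zero.mpr h2
  by_cases hz : riemannZeta s = 0
  · simp [hz]
  · rw [div_eq_iff (mul_ne_zero h2' (mul_ne_zero h1' hz))]
    field_simp

theorem xa_deriv (s : ℂ) : deriv xaD s = 2 * Zf s + (2 * s - 1) * deriv Zf s := by
  have h1 : HasDerivAt (fun s : ℂ => 2 * s - 1) 2 s := by
    simpa using ((hasDerivAt_id s).const_mul 2).sub_const 1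
  have h2 := h1.mul (Zf_diff s).hasDerivAt
  exact h2.deriv

theorem xa_Zf_deriv {s : ℂ} (hs : s ≠ 1) :
    deriv Zf s = riemannZeta s + (s - 1) * deriv riemannZeta s := by
  have h1 : HasDerivAt (fun s : ℂ => (s - 1) * riemannZeta s)
      (1 * riemannZeta s + (s - 1) * deriv riemannZeta s) s :=
    ((hasDerivAt_id s).sub_const 1).mul (differentiableAt_riemannZeta hs).hasDerivAt
  have h2 : Zf =ᶠ[nhds s] (fun s : ℂ => (s - 1) * riemannZeta s) := by
    filter_upwards [isOpen_ne.mem_nhds hs] with z hz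
    exact Zf_eq hz
  rw [h2.deriv_eq, h1.deriv, one_mul]

theorem xa_N1_le {T : ℝ} (hT : 1 ≤ T) : (N1 T : ℝ) ^ 2 ≤ T := by
  have hlog : 0 ≤ Real.log T := Real.log_nonneg hT
  have h1 : (N1 T : ℝ) ≤ Real.exp (el T) := Nat.floor_le (Real.exp_pos _).le
  have h2 : (N1 T : ℝ) ^ 2 ≤ Real.exp (el T) ^ 2 := pow_le_pow_left₀ (Nat.cast_nonneg _) h1 2
  have h3 : Real.exp (el T) ^ 2 ≤ T := by
    rw [← Real.exp_nat_mul]
    calc Real.exp (((2 : ℕ) : ℝ) * el T) ≤ Real.exp (Real.log T) := by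
          apply Real.exp_le_exp.mpr
          unfold el
          push_cast
          linarith
      _ = T := Real.exp_log (by linarith)
  linarith

theorem xa_Q_norm {T : ℝ} (hT : 1 < T) {s : ℂ} (hs : s.re ≤ 2) : ‖Qe T 1 s‖ ≤ T := by
  have hlog : 0 < Real.log T := Real.log_pos hT
  have hel : 0 < el T := by unfold el; positivity
  refine le_trans ?_ (xa_N1_le hT.le)
  unfold Qe ER
  have hterm : ∀ m ∈ Finset.Icc 1 (N1 T),
      ‖(mug (fun v => 1 - v / el T) m : ℂ) *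
        (m : ℂ) ^ (-(1 / 2 : ℂ) + ((1 : ℝ) : ℂ) * (s - 1 / 2))‖ ≤ (N1 T : ℝ) := by
    intro m hm
    rw [Finset.mem_Icc] at hm
    have hm1 : (1 : ℝ) ≤ m := by exact_mod_cast hm.1
    have hmN : (m : ℝ) ≤ N1 T := by exact_mod_cast hm.2
    have hm0 : (0 : ℝ) < m := by linarith
    have hlm : 0 ≤ Real.log m := Real.log_nonneg hm1
    have hlm2 : Real.log m ≤ el T := by
      rw [Real.log_le_iff_le_exp hm0]
      exact hmN.trans (Nat.floor_le (Real.exp_pos _).le)
    have e1 : ‖(mug (fun v => 1 - v / el T) m : ℂ)‖ ≤ 1 := by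
      rw [Complex.norm_real, Real.norm_eq_abs]
      unfold mug
      rw [abs_mul]
      have a1 : |((ArithmeticFunction.moebius m : ℤ) : ℝ)| ≤ 1 := by
        rw [← Int.cast_abs]
        exact_mod_cast ArithmeticFunction.abs_moebius_le_one
      have a2 : |1 - Real.log m / el T| ≤ 1 := by
        have b1 : 0 ≤ Real.log m / el T := by positivity
        have b2 : Real.log m / el T ≤ 1 := (div_le_one hel).mpr hlm2
        rw [abs_le]
        constructor <;> linarith
      calc |((ArithmeticFunction.moebius m : ℤ) : ℝ)| * |1 - Real.log m / el T|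
          ≤ 1 * 1 := mul_le_mul a1 a2 (abs_nonneg _) (by norm_num)
        _ = 1 := by norm_num
    have e2 : ‖(m : ℂ) ^ (-(1 / 2 : ℂ) + ((1 : ℝ) : ℂ) * (s - 1 / 2))‖ ≤ (m : ℝ) := by
      have hmc : (m : ℂ) = ((m : ℝ) : ℂ) := by norm_cast
      rw [hmc, Complex.norm_cpow_eq_rpow_re_of_pos hm0]
      have hre : (-(1 / 2 : ℂ) + ((1 : ℝ) : ℂ) * (s - 1 / 2)).re = s.re - 1 := by
        have : (-(1 / 2 : ℂ) + ((1 : ℝ) : ℂ) * (s - 1 / 2)) = s - 1 := by
          push_cast; ring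
        rw [this]; simp
      rw [hre]
      calc (m : ℝ) ^ (s.re - 1) ≤ (m : ℝ) ^ (1 : ℝ) :=
            Real.rpow_le_rpow_of_exponent_le hm1 (by linarith)
        _ = m := Real.rpow_one _
    rw [norm_mul]
    calc _ ≤ 1 * (m : ℝ) := mul_le_mul e1 e2 (norm_nonneg _) (by norm_num)
      _ ≤ N1 T := by rw [one_mul]; exact hmN
  calc _ ≤ ∑ m ∈ Finset.Icc 1 (N1 T), ‖(mug (fun v => 1 - v / el T) m : ℂ) *
        (m : ℂ) ^ (-(1 / 2 : ℂ) + ((1 : ℝ) : ℂ) * (s - 1 / 2))‖ := norm_sum_le _ _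
    _ ≤ ∑ m ∈ Finset.Icc 1 (N1 T), (N1 T : ℝ) := Finset.sum_le_sum hterm
    _ = (N1 T : ℝ) ^ 2 := by
      rw [Finset.sum_const, Nat.card_Icc, nsmul_eq_mul]
      push_cast
      ring

/-- Horizontal sides. -/
theorem xa_hor : ∃ (A : ℕ) (C : ℝ), 1 ≤ C ∧ ∀ (A0 : ℕ) (T x t : ℝ), 7 ≤ T → |x| ≤ 5 / 4 → |t| = T →
    1 ≤ T ^ A0 * ‖riemannZeta (x + t * I)‖ →
    ‖fX (A0 + A + 1) T (x + t * I)‖ ≤ C * 4 ^ A * 8 ^ (A0 + A + 1) := by
  obtain ⟨C, A, hC, hgr⟩ := Zf_growth
  refine ⟨A, C, hC, fun A0 T x t hT hx ht hz => ?_⟩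
  have hT0 : 0 < T := by linarith
  have hx' := abs_le.mp hx
  set s : ℂ := (x + t * I : ℂ) with hs
  have hre : s.re = x := by simp [hs]
  have him : s.im = t := by simp [hs]
  have ht0 : t ≠ 0 := by
    intro h
    rw [h, abs_zero] at ht
    linarith
  have hne : 2 * s ≠ 1 := by
    intro h
    have := congrArg Complex.im h
    simp [him] at this
    exact ht0 this
  have h2s : ‖riemannZeta (2 * s)‖ ≤ C * (4 * T) ^ A := by
    have e1 : ‖Zf (2 * s)‖ ≤ C * (1 + ‖2 * s‖) ^ A := by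
      apply hgr
      simp [hre]
      linarith
    have e2 : ‖2 * s‖ ≤ 2 * (5 / 4 + T) := by
      rw [norm_mul]
      have : ‖s‖ ≤ |s.re| + |s.im| := Complex.norm_le_abs_re_add_abs_im s
      rw [hre, him, ht] at this
      have h2 : ‖(2 : ℂ)‖ = 2 := by simp
      rw [h2]
      nlinarith
    have e3 : (1 : ℝ) ≤ ‖2 * s - 1‖ := by
      have h := Complex.abs_im_le_norm (2 * s - 1)
      have h3 : |(2 * s - 1).im| = 2 * T := by
        simp [him, abs_mul, ht]
      rw [h3] at h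
      linarith
    have e4 : ‖riemannZeta (2 * s)‖ ≤ ‖Zf (2 * s)‖ := by
      rw [Zf_eq hne, norm_mul]
      have := norm_nonneg (riemannZeta (2 * s))
      nlinarith
    have e5 : (1 + ‖2 * s‖) ^ A ≤ (4 * T) ^ A :=
      pow_le_pow_left₀ (by positivity) (by linarith) A
    calc ‖riemannZeta (2 * s)‖ ≤ C * (1 + ‖2 * s‖) ^ A := e4.trans e1
      _ ≤ C * (4 * T) ^ A := mul_le_mul_of_nonneg_left e5 (by linarith)
  have hzpos : 0 < ‖riemannZeta s‖ := by
    rcases (norm_nonneg (riemannZeta s)).lt_or_eq with h | h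
    · exact h
    · rw [← h, mul_zero] at hz
      linarith
  have hinv : ‖riemannZeta s‖⁻¹ ≤ T ^ A0 := by
    rw [inv_le_iff_one_le_mul₀ hzpos]
    exact hz
  have hQ : ‖Qe T 1 s‖ ≤ T := xa_Q_norm (by linarith) (by rw [hre]; linarith)
  have hW : ‖WK (A0 + A + 1) T s‖ ≤ (8 / T) ^ (A0 + A + 1) :=
    wk_hor (A0 + A + 1) hT (by rw [abs_le]; constructor <;> linarith) ht
  have hfx : ‖fX (A0 + A + 1) T s‖ =
      ‖riemannZeta (2 * s)‖ * ‖riemannZeta s‖⁻¹ * ‖Qe T 1 s‖ * ‖WK (A0 + A + 1) T s‖ := by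
    unfold fX
    rw [norm_mul, norm_mul, norm_div, div_eq_mul_inv]
  rw [hfx]
  have hCT : 0 ≤ C * (4 * T) ^ A := by positivity
  calc ‖riemannZeta (2 * s)‖ * ‖riemannZeta s‖⁻¹ * ‖Qe T 1 s‖ * ‖WK (A0 + A + 1) T s‖
      ≤ (C * (4 * T) ^ A) * T ^ A0 * T * (8 / T) ^ (A0 + A + 1) := by
        gcongr
    _ = C * 4 ^ A * 8 ^ (A0 + A + 1) := by
        rw [div_pow, mul_pow]
        have : T ^ (A0 + A + 1) = T ^ A * T ^ A0 * T := by ring
        rw [this]
        field_simp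

theorem xa_half_not : (1 / 2 : ℂ) ∉ Zs := by
  intro h
  apply no_real h
  simp

theorem xa_Zf_half : Zf (1 / 2) ≠ 0 := by
  intro h
  rw [Zf_zero_iff (by simp; norm_num)] at h
  exact xa_half_not h

theorem xa_sum {K : ℕ} {T : ℝ} {F : Finset ℂ} (hF : ∀ ρ, ρ ∈ F ↔ ρ ∈ Zs ∧ |ρ.im| < T)
    (hs : ∀ ρ ∈ F, deriv riemannZeta ρ ≠ 0) :
    (∀ ρ ∈ F, deriv xaD ρ ≠ 0) ∧
    ∑ ρ ∈ F, xaN K T ρ / deriv xaD ρ =
      ∑ ρ ∈ F, riemannZeta (2 * ρ) / deriv riemannZeta ρ * Qe T 1 ρ * WK K T ρ := by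
  have key : ∀ ρ ∈ F, deriv xaD ρ = (2 * ρ - 1) * ((ρ - 1) * deriv riemannZeta ρ) ∧
      2 * ρ - 1 ≠ 0 ∧ ρ - 1 ≠ 0 := by
    intro ρ hρ
    obtain ⟨hz, -⟩ := (hF ρ).mp hρ
    have him := no_real hz
    have h1 : ρ ≠ 1 := by
      intro h
      apply him
      rw [h]; simp
    have h2 : 2 * ρ ≠ 1 := by
      intro h
      have := congrArg Complex.im h
      simp at this
      exact him this
    have hre : -1 < ρ.re := by
      have := hz.2.1
      linarith
    have hzf : Zf ρ = 0 := (Zf_zero_iff hre).mpr hz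
    have hzeta : riemannZeta ρ = 0 := hz.1
    refine ⟨?_, sub_ne_zero.mpr h2, sub_ne_zero.mpr h1⟩
    rw [xa_deriv, hzf, xa_Zf_deriv h1, hzeta]
    ring
  constructor
  · intro ρ hρ
    obtain ⟨e, h2, h1⟩ := key ρ hρ
    rw [e]
    exact mul_ne_zero h2 (mul_ne_zero h1 (hs ρ hρ))
  · apply Finset.sum_congr rfl
    intro ρ hρ
    obtain ⟨e, h2, h1⟩ := key ρ hρ
    have h3 := hs ρ hρ
    rw [e]
    unfold xaN
    rw [Zf_eq (sub_ne_zero.mp h2), div_eq_iff (mul_ne_zero h2 (mul_ne_zero h1 h3))]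
    field_simp

theorem x1_main : ∃ (K : ℕ) (c T0 : ℝ), 0 < c ∧ 10 ≤ T0 ∧ ∀ T : ℝ, T0 ≤ T → ∃ T' ∈ Icc (T - 1) T,
    ∀ F : Finset ℂ, (∀ ρ, ρ ∈ F ↔ ρ ∈ Zs ∧ |ρ.im| < T') → (∀ ρ ∈ F, deriv riemannZeta ρ ≠ 0) →
    c * T' * Real.log T' ≤ ‖∑ ρ ∈ F, riemannZeta (2 * ρ) / deriv riemannZeta ρ * Qe T' 1 ρ *
      WK K T' ρ‖ := by
  obtain ⟨A0, Tg, hTg, hgood⟩ := good_heights
  obtain ⟨A, C1, hC1, hhor⟩ := xa_hor
  obtain ⟨c, Tb, hc, hTb, hright⟩ := xb_right (A0 + A + 1)
  obtain ⟨C2, Tl, hC2, hTl, hleft⟩ := xl_left (A0 + A + 1)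
  set K : ℕ := A0 + A + 1 with hK
  set H : ℝ := C1 * 4 ^ A * 8 ^ K with hH
  have hH0 : 0 < H := by positivity
  have hZ0 : 0 < ‖Zf (1 / 2)‖ := norm_pos_iff.mpr xa_Zf_half
  set B : ℝ := C2 + 6 * H + 2 * Real.pi / ‖Zf (1 / 2)‖ with hB
  have hpi := Real.pi_pos
  have hB0 : 0 < B := by positivity
  set T0 : ℝ := Tg + Tb + Tl + Real.exp 4 + Real.exp (2 * B / c) + 10 with hT0
  have hx4 := Real.exp_pos 4
  have hxB := Real.exp_pos (2 * B / c)
  refine ⟨K, c / (4 * Real.pi), T0, by positivity, by rw [hT0]; linarith, fun T hT => ?_⟩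
  obtain ⟨T', hT', hg⟩ := hgood T (by rw [hT0] at hT; linarith)
  refine ⟨T', hT', fun F hF hs => ?_⟩
  have hT'1 := hT'.1
  rw [hT0] at hT
  have t1 : Tb ≤ T' := by linarith
  have t2 : Tl ≤ T' := by linarith
  have t3 : Real.exp 4 ≤ T' := by linarith
  have t4 : Real.exp (2 * B / c) ≤ T' := by linarith
  have t5 : 7 ≤ T' := by linarith
  have hT0' : 0 < T' := by linarith
  have hR := hright T' t1
  have hL := hleft T' t2
  have hlog4 : 4 ≤ Real.log T' := (Real.le_log_iff_exp_le hT0').mpr t3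
  have hlogB : 2 * B / c ≤ Real.log T' := (Real.le_log_iff_exp_le hT0').mpr t4
  set L : ℝ := Real.log T' with hLdef
  have hL0 : 0 < L := by linarith
  have hiL : 0 < 1 / L := by positivity
  have hiL4 : 1 / L ≤ 1 / 4 := one_div_le_one_div_of_le (by norm_num) hlog4
  have hFne : (1 / 2 : ℂ) ∉ F := by
    intro h
    exact xa_half_not ((hF _).mp h).1
  obtain ⟨hder, hsum⟩ := xa_sum (K := K) hF hs
  have hderh : deriv xaD (1 / 2) = 2 * Zf (1 / 2) := by
    rw [xa_deriv]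
    norm_num
  have hzeroD : ∀ z : ℂ, -1 < z.re → (xaD z = 0 ↔ z = 1 / 2 ∨ z ∈ Zs) := by
    intro z hz
    unfold xaD
    rw [mul_eq_zero, Zf_zero_iff hz]
    constructor
    · rintro (h | h)
      · left
        linear_combination h / 2
      · right; exact h
    · rintro (h | h)
      · left; rw [h]; norm_num
      · right; exact h
  have hgz : ∀ x : ℝ, -1 ≤ x → x ≤ 3 → riemannZeta (x + T' * I) ≠ 0 := by
    intro x h1 h2 h3
    have := hg x h1 h2
    rw [h3, norm_zero, mul_zero] at this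
    linarith
  have hres := rect_residue (xaN_diff K T') xaD_diff (a := -(1 / L)) (b := 1 + 1 / L) (T := T')
    (by linarith) hT0' (insert (1 / 2 : ℂ) F)
    (by
      intro z
      rw [Finset.mem_insert, hF]
      constructor
      · rintro (h | ⟨h, h'⟩)
        · have e1 : z.re = 1 / 2 := by rw [h]; simp
          have e2 : z.im = 0 := by rw [h]; simp
          refine ⟨(hzeroD z (by rw [e1]; norm_num)).mpr (Or.inl h), by rw [e1]; linarith,
            by rw [e1]; linarith, by rw [e2, abs_zero]; exact hT0'⟩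
        · have e1 := h.2.1
          have e2 := h.2.2
          exact ⟨(hzeroD z (by linarith)).mpr (Or.inr h), by linarith, by linarith, h'⟩
      · rintro ⟨h1, h2, h3, h4⟩
        rcases (hzeroD z (by linarith)).mp h1 with h | h
        · exact Or.inl h
        · exact Or.inr ⟨h, h4⟩)
    (by
      intro z h1 h2 h3 h4
      rw [Finset.mem_insert, hF]
      rcases (hzeroD z (by linarith)).mp h1 with h | h
      · exact Or.inl h
      · refine Or.inr ⟨h, lt_of_le_of_ne h4 ?_⟩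
        intro h5
        rcases (abs_eq hT0'.le).mp h5 with h6 | h6
        · apply hgz z.re (by linarith) (by linarith)
          have : ((z.re : ℂ) + T' * I) = z := by
            rw [← h6]; exact Complex.re_add_im z
          rw [this]
          exact h.1
        · have hc := Zs_conj h
          apply hgz z.re (by linarith) (by linarith)
          have : ((z.re : ℂ) + T' * I) = (starRingEnd ℂ) z := by
            apply Complex.ext
            · simp
            · simp [h6]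
          rw [this]
          exact hc.1)
    (by
      intro z hz
      rw [Finset.mem_insert] at hz
      rcases hz with h | h
      · rw [h, hderh]
        exact mul_ne_zero two_ne_zero xa_Zf_half
      · exact hder z h)
  rw [Finset.sum_insert hFne, hsum, hderh] at hres
  set S : ℂ := ∑ ρ ∈ F, riemannZeta (2 * ρ) / deriv riemannZeta ρ * Qe T' 1 ρ * WK K T' ρ with hS
  -- the residue at one half
  have hr : ‖xaN K T' (1 / 2) / (2 * Zf (1 / 2))‖ ≤ T' / ‖Zf (1 / 2)‖ := by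
    have e1 : xaN K T' (1 / 2) = -(1 / 2) * Qe T' 1 (1 / 2) := by
      unfold xaN WK
      have : (2 : ℂ) * (1 / 2) = 1 := by norm_num
      rw [this, Zf_one]
      simp
      ring
    have e2 : ‖Qe T' 1 (1 / 2)‖ ≤ T' := xa_Q_norm (by linarith) (by simp; norm_num)
    rw [e1, norm_div, norm_mul, norm_mul, norm_neg]
    have e3 : ‖(1 / 2 : ℂ)‖ = 1 / 2 := by simp
    have e4 : ‖(2 : ℂ)‖ = 2 := by simp
    rw [e3, e4, div_le_div_iff₀ (by positivity) hZ0]
    have e5 := norm_nonneg (Qe T' 1 (1 / 2))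
    nlinarith [mul_nonneg hZ0.le (sub_nonneg.mpr e2), mul_nonneg hZ0.le hT0'.le]
  -- vertical sides
  have hRe : (∫ t in (-T')..T', xaN K T' (((1 + 1 / L : ℝ) : ℂ) + t * I) /
      xaD (((1 + 1 / L : ℝ) : ℂ) + t * I)) =
      ∫ t in (-T')..T', fX K T' (((1 + 1 / L : ℝ) : ℂ) + t * I) := by
    congr 1
    funext t
    apply xa_quot
    · intro h
      have := congrArg Complex.re h
      simp at this
      exact hL0.ne' this
    · intro h
      have := congrArg Complex.re h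
      simp at this
      have h9 : 0 < L⁻¹ := by positivity
      linarith
  have hLe : (∫ t in (-T')..T', xaN K T' (((-(1 / L) : ℝ) : ℂ) + t * I) /
      xaD (((-(1 / L) : ℝ) : ℂ) + t * I)) =
      ∫ t in (-T')..T', fX K T' (((-(1 / L) : ℝ) : ℂ) + t * I) := by
    congr 1
    funext t
    have h9 : 0 < L⁻¹ := by positivity
    apply xa_quot
    · intro h
      have := congrArg Complex.re h
      simp at this
      linarith
    · intro h
      have := congrArg Complex.re h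
      simp at this
      linarith
  -- horizontal sides
  have hbd : ∀ t : ℝ, |t| = T' → ∀ x : ℝ, -(1 / L) ≤ x → x ≤ 1 + 1 / L →
      ‖xaN K T' (x + t * I) / xaD (x + t * I)‖ ≤ H := by
    intro t ht x h1 h2
    have ht0 : t ≠ 0 := by
      intro h
      rw [h, abs_zero] at ht
      linarith
    rw [xa_quot]
    · apply hhor A0 T' x t t5 (by rw [abs_le]; constructor <;> linarith) ht
      rcases (abs_eq hT0'.le).mp ht with h6 | h6
      · rw [h6]
        exact hg x (by linarith) (by linarith)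
      · have e : ((x : ℂ) + t * I) = (starRingEnd ℂ) ((x : ℂ) + T' * I) := by
          apply Complex.ext
          · simp
          · simp [h6]
        rw [e, riemannZeta_conj, Complex.norm_conj]
        exact hg x (by linarith) (by linarith)
    · intro h
      have := congrArg Complex.im h
      simp at this
      exact ht0 this
    · intro h
      have := congrArg Complex.im h
      simp at this
      exact ht0 this
  have hab : (-(1 / L)) ≤ 1 + 1 / L := by linarith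
  have hHp : ‖∫ x in (-(1 / L))..(1 + 1 / L), xaN K T' (x + T' * I) / xaD (x + T' * I)‖ ≤
      H * |1 + 1 / L - (-(1 / L))| := by
    apply intervalIntegral.norm_integral_le_of_norm_le_const
    intro x hx
    rw [Set.uIoc_of_le hab] at hx
    exact hbd T' (abs_of_pos hT0') x hx.1.le hx.2
  have hHm : ‖∫ x in (-(1 / L))..(1 + 1 / L), xaN K T' (x - T' * I) / xaD (x - T' * I)‖ ≤
      H * |1 + 1 / L - (-(1 / L))| := by
    apply intervalIntegral.norm_integral_le_of_norm_le_const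
    intro x hx
    rw [Set.uIoc_of_le hab] at hx
    have := hbd (-T') (by rw [abs_neg]; exact abs_of_pos hT0') x hx.1.le hx.2
    have e : ((x : ℂ) + ((-T' : ℝ) : ℂ) * I) = (x : ℂ) - T' * I := by push_cast; ring
    rw [e] at this
    exact this
  have hlen : |1 + 1 / L - (-(1 / L))| ≤ 3 := by
    rw [abs_of_nonneg (by linarith)]
    linarith
  rw [hRe, hLe] at hres
  set R : ℂ := ∫ t in (-T')..T', fX K T' (((1 + 1 / L : ℝ) : ℂ) + t * I) with hRd
  set Lf : ℂ := ∫ t in (-T')..T', fX K T' (((-(1 / L) : ℝ) : ℂ) + t * I) with hLd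
  set Hm : ℂ := ∫ x in (-(1 / L))..(1 + 1 / L), xaN K T' (x - T' * I) / xaD (x - T' * I) with hHmd
  set Hp : ℂ := ∫ x in (-(1 / L))..(1 + 1 / L), xaN K T' (x + T' * I) / xaD (x + T' * I) with hHpd
  set r : ℂ := xaN K T' (1 / 2) / (2 * Zf (1 / 2)) with hrd
  have hIR : I * R = 2 * Real.pi * I * (r + S) + I * Lf - (Hm - Hp) := by
    linear_combination hres
  have hnR : ‖R‖ ≤ 2 * Real.pi * (‖r‖ + ‖S‖) + ‖Lf‖ + (‖Hm‖ + ‖Hp‖) := by
    have e1 : ‖R‖ = ‖I * R‖ := by simp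
    rw [e1, hIR]
    calc ‖2 * Real.pi * I * (r + S) + I * Lf - (Hm - Hp)‖
        ≤ ‖2 * Real.pi * I * (r + S) + I * Lf‖ + ‖Hm - Hp‖ := norm_sub_le _ _
      _ ≤ ‖2 * Real.pi * I * (r + S)‖ + ‖I * Lf‖ + (‖Hm‖ + ‖Hp‖) :=
          add_le_add (norm_add_le _ _) (norm_sub_le _ _)
      _ ≤ 2 * Real.pi * (‖r‖ + ‖S‖) + ‖Lf‖ + (‖Hm‖ + ‖Hp‖) := by
          have e2 : ‖2 * Real.pi * I * (r + S)‖ = 2 * Real.pi * ‖r + S‖ := by
            rw [norm_mul, norm_mul, norm_mul, Complex.norm_I, mul_one, Complex.norm_real,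
              Real.norm_eq_abs, abs_of_pos hpi]
            simp
          have e3 : ‖I * Lf‖ = ‖Lf‖ := by simp
          rw [e2, e3]
          have := norm_add_le r S
          gcongr
  have hHH : H * |1 + 1 / L - (-(1 / L))| ≤ H * 3 := mul_le_mul_of_nonneg_left hlen hH0.le
  have hmain : c * T' * L ≤ 2 * Real.pi * ‖S‖ + B * T' := by
    have e1 : 2 * Real.pi * ‖r‖ ≤ 2 * Real.pi * (T' / ‖Zf (1 / 2)‖) :=
      mul_le_mul_of_nonneg_left hr (by positivity)
    have e2 : 2 * Real.pi * (T' / ‖Zf (1 / 2)‖) = 2 * Real.pi / ‖Zf (1 / 2)‖ * T' := by ring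
    have e3 : 6 * H ≤ 6 * H * T' := by nlinarith
    rw [hB]
    nlinarith
  have hfin : B ≤ c * L / 2 := by
    rw [div_le_iff₀ hc] at hlogB
    linarith
  have h4 : B * T' ≤ c * L / 2 * T' := mul_le_mul_of_nonneg_right hfin hT0'.le
  have h5 : c * T' * L / 2 ≤ 2 * Real.pi * ‖S‖ := by linarith
  have h6 : c / (4 * Real.pi) * T' * L = (c * T' * L / 2) / (2 * Real.pi) := by
    field_simp
    ring
  rw [h6, div_le_iff₀ (by positivity)]
  linarith

end Pool.Agent.ZR
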