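import Pool.Agent.ZR.PF
import Pool.Agent.ZR.XA

/-!
# The final theorem
-/

set_option autoImplicit false

open Complex MeasureTheory Set Finset

namespace Pool.Agent.ZR

private lemma wk_norm_strip (K : ℕ) {T : ℝ} (hT : 7 ≤ T) {ρ : ℂ} (h : ρ ∈ Zs) (hi : |ρ.im| < T) :
    ‖WK K T ρ‖ ≤ 2 ^ K := by
  have h1 : |ρ.re - 1 / 2| ≤ 5 / 2 := by
    rw [abs_le]
    constructor <;> linarith [h.2.1, h.2.2]
  have h2 := wk_norm K hT h1 hi.le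
  rwa [Complex.re_add_im] at h2

theorem final : ∃ c T0 : ℝ, 0 < c ∧ ∀ T : ℝ, T0 ≤ T →
    (∀ ρ : ℂ, riemannZeta ρ = 0 → 0 < ρ.re → ρ.re < 1 → |ρ.im| < T → deriv riemannZeta ρ ≠ 0) →
    c * T ≤ ∑ᶠ ρ ∈ {ρ : ℂ | riemannZeta ρ = 0 ∧ 0 < ρ.re ∧ ρ.re < 1 ∧ 0 < ρ.im ∧ ρ.im < T},
      ‖riemannZeta (2 * ρ) / deriv riemannZeta ρ‖ ^ 2 := by
  classical
  obtain ⟨K, c, T1, hc, hT1, hx⟩ := x1_main
  obtain ⟨C, T2, hC, hT2, hl⟩ := lsz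
  set D : ℝ := 2 * (2 ^ K) ^ 2 * C with hD
  have hD0 : 0 < D := by positivity
  refine ⟨c ^ 2 / D / 2, max T1 (max (T2 + 1) 20), by positivity, fun T hT hs => ?_⟩
  have hTT1 : T1 ≤ T := (le_max_left _ _).trans hT
  have hTT2 : T2 + 1 ≤ T := (le_max_left _ _).trans ((le_max_right _ _).trans hT)
  have hT20 : 20 ≤ T := (le_max_right _ _).trans ((le_max_right _ _).trans hT)
  obtain ⟨T', hT', hF⟩ := hx T hTT1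
  have hT'1 : T - 1 ≤ T' := hT'.1
  have hT'2 : T' ≤ T := hT'.2
  have hfin := Zs_finite T'
  set F : Finset ℂ := hfin.toFinset with hFd
  have hmem : ∀ ρ, ρ ∈ F ↔ ρ ∈ Zs ∧ |ρ.im| < T' := by
    intro ρ
    rw [hFd, Set.Finite.mem_toFinset]
    rfl
  have hsimple : ∀ ρ ∈ F, deriv riemannZeta ρ ≠ 0 := by
    intro ρ hρ
    obtain ⟨⟨h1, h2, h3⟩, h4⟩ := (hmem ρ).1 hρ
    exact hs ρ h1 h2 h3 (lt_of_lt_of_le h4 hT'2)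
  have hmain := hF F hmem hsimple
  have hlsz := hl T' F (by linarith) (fun z hz => (hmem z).1 hz)
  -- Cauchy-Schwarz
  set r : ℂ → ℂ := fun ρ => riemannZeta (2 * ρ) / deriv riemannZeta ρ with hr
  have hT'0 : 0 < T' := by linarith
  have hL0 : 0 < Real.log T' := Real.log_pos (by linarith)
  have h1 : c * T' * Real.log T' ≤ 2 ^ K * ∑ ρ ∈ F, ‖r ρ‖ * ‖Qe T' 1 ρ‖ := by
    refine hmain.trans ?_
    rw [Finset.mul_sum]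
    refine (norm_sum_le _ _).trans (Finset.sum_le_sum fun ρ hρ => ?_)
    rw [norm_mul, norm_mul]
    have h2 := wk_norm_strip K (by linarith : (7:ℝ) ≤ T') ((hmem ρ).1 hρ).1 ((hmem ρ).1 hρ).2
    calc ‖r ρ‖ * ‖Qe T' 1 ρ‖ * ‖WK K T' ρ‖ ≤ ‖r ρ‖ * ‖Qe T' 1 ρ‖ * 2 ^ K := by gcongr
      _ = _ := by ring
  have h2 : (∑ ρ ∈ F, ‖r ρ‖ * ‖Qe T' 1 ρ‖) ^ 2 ≤ (∑ ρ ∈ F, ‖r ρ‖ ^ 2) * ∑ ρ ∈ F, ‖Qe T' 1 ρ‖ ^ 2 :=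
    Finset.sum_mul_sq_le_sq_mul_sq _ _ _
  have h3 : (c * T' * Real.log T') ^ 2 ≤ (2 ^ K) ^ 2 * ((∑ ρ ∈ F, ‖r ρ‖ ^ 2) *
      (C * T' * Real.log T' ^ 2)) := by
    calc (c * T' * Real.log T') ^ 2 ≤ (2 ^ K * ∑ ρ ∈ F, ‖r ρ‖ * ‖Qe T' 1 ρ‖) ^ 2 := by
          apply pow_le_pow_left₀ (by positivity) h1
      _ = (2 ^ K) ^ 2 * (∑ ρ ∈ F, ‖r ρ‖ * ‖Qe T' 1 ρ‖) ^ 2 := by ring
      _ ≤ (2 ^ K) ^ 2 * ((∑ ρ ∈ F, ‖r ρ‖ ^ 2) * ∑ ρ ∈ F, ‖Qe T' 1 ρ‖ ^ 2) := by gcongr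
      _ ≤ _ := by gcongr
  have h4 : c ^ 2 * T' ≤ (2 ^ K) ^ 2 * C * ∑ ρ ∈ F, ‖r ρ‖ ^ 2 := by
    have h5 : 0 < T' * Real.log T' ^ 2 := by positivity
    have h6 : c ^ 2 * T' * (T' * Real.log T' ^ 2) ≤
        (2 ^ K) ^ 2 * C * (∑ ρ ∈ F, ‖r ρ‖ ^ 2) * (T' * Real.log T' ^ 2) := by
      calc c ^ 2 * T' * (T' * Real.log T' ^ 2) = (c * T' * Real.log T') ^ 2 := by ring
        _ ≤ _ := h3
        _ = _ := by ring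
    exact le_of_mul_le_mul_right h6 h5
  -- the two halves
  set S : Set ℂ := {ρ : ℂ | riemannZeta ρ = 0 ∧ 0 < ρ.re ∧ ρ.re < 1 ∧ 0 < ρ.im ∧ ρ.im < T} with hS
  have hSfin : S.Finite := by
    refine (Zs_finite T).subset fun ρ hρ => ?_
    obtain ⟨a1, a2, a3, a4, a5⟩ := hρ
    exact ⟨⟨a1, a2, a3⟩, by rw [abs_of_pos a4]; exact a5⟩
  have hsumS : ∑ᶠ ρ ∈ S, ‖r ρ‖ ^ 2 = ∑ ρ ∈ hSfin.toFinset, ‖r ρ‖ ^ 2 :=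
    finsum_mem_eq_finite_toFinset_sum _ hSfin
  have hpos : ∑ ρ ∈ F.filter (fun ρ => 0 < ρ.im), ‖r ρ‖ ^ 2 ≤ ∑ ρ ∈ hSfin.toFinset, ‖r ρ‖ ^ 2 := by
    apply Finset.sum_le_sum_of_subset_of_nonneg
    · intro ρ hρ
      rw [Finset.mem_filter] at hρ
      obtain ⟨hρ1, hρ2⟩ := hρ
      obtain ⟨⟨a1, a2, a3⟩, a4⟩ := (hmem ρ).1 hρ1
      rw [Set.Finite.mem_toFinset]
      exact ⟨a1, a2, a3, hρ2, by rw [abs_of_pos hρ2] at a4; linarith⟩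
    · intro ρ _ _
      positivity
  have hneg : ∑ ρ ∈ F.filter (fun ρ => ¬ 0 < ρ.im), ‖r ρ‖ ^ 2 =
      ∑ ρ ∈ F.filter (fun ρ => 0 < ρ.im), ‖r ρ‖ ^ 2 := by
    apply Finset.sum_nbij' (fun ρ => (starRingEnd ℂ) ρ) (fun ρ => (starRingEnd ℂ) ρ)
    · intro ρ hρ
      rw [Finset.mem_filter] at hρ ⊢
      obtain ⟨a1, a2⟩ := (hmem ρ).1 hρ.1
      refine ⟨(hmem _).2 ⟨Zs_conj a1, by simpa using a2⟩, ?_⟩
      have h0 := no_real a1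
      have h5 := hρ.2
      rw [Complex.conj_im]
      rcases lt_trichotomy ρ.im 0 with h | h | h
      · linarith
      · exact absurd h h0
      · exact absurd h h5
    · intro ρ hρ
      rw [Finset.mem_filter] at hρ ⊢
      obtain ⟨a1, a2⟩ := (hmem ρ).1 hρ.1
      refine ⟨(hmem _).2 ⟨Zs_conj a1, by simpa using a2⟩, ?_⟩
      rw [Complex.conj_im]
      have := hρ.2
      linarith
    · intro ρ _; simp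
    · intro ρ _; simp
    · intro ρ _
      simp only [hr]
      rw [res_conj]
  have hsplit : ∑ ρ ∈ F, ‖r ρ‖ ^ 2 = 2 * ∑ ρ ∈ F.filter (fun ρ => 0 < ρ.im), ‖r ρ‖ ^ 2 := by
    rw [← Finset.sum_filter_add_sum_filter_not F (fun ρ => 0 < ρ.im), hneg]
    ring
  have h7 : ∑ ρ ∈ F, ‖r ρ‖ ^ 2 ≤ 2 * ∑ ρ ∈ hSfin.toFinset, ‖r ρ‖ ^ 2 := by
    rw [hsplit]; linarith
  show c ^ 2 / D / 2 * T ≤ ∑ᶠ ρ ∈ S, ‖r ρ‖ ^ 2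
  rw [hsumS]
  have h8 : c ^ 2 * T' ≤ D * ∑ ρ ∈ hSfin.toFinset, ‖r ρ‖ ^ 2 := by
    calc c ^ 2 * T' ≤ (2 ^ K) ^ 2 * C * ∑ ρ ∈ F, ‖r ρ‖ ^ 2 := h4
      _ ≤ (2 ^ K) ^ 2 * C * (2 * ∑ ρ ∈ hSfin.toFinset, ‖r ρ‖ ^ 2) := by gcongr
      _ = _ := by rw [hD]; ring
  have h9 : T / 2 ≤ T' := by linarith
  have h10 : c ^ 2 / D / 2 * T = c ^ 2 * (T / 2) / D := by field_simp
  rw [h10, div_le_iff₀ hD0]
  calc c ^ 2 * (T / 2) ≤ c ^ 2 * T' := by gcongr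
    _ ≤ _ := h8
    _ = _ := by ring

end Pool.Agent.ZR
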