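import Pool.Agent.ZR.Defs

/-!
# Green's formula on a rectangle for `C²` functions
Iterated integrals and integration by parts twice in each variable.
-/

set_option autoImplicit false

open Complex MeasureTheory Set Finset

namespace Pool.Agent.ZR

/-- One dimensional Green identity. -/
theorem gc_one_dim {a b : ℝ} (hab : a ≤ b) {f f1 f11 p p1 p11 : ℝ → ℝ}
    (hf : ∀ x ∈ Icc a b, HasDerivAt f (f1 x) x) (hf1 : ∀ x ∈ Icc a b, HasDerivAt f1 (f11 x) x)
    (hp : ∀ x ∈ Icc a b, HasDerivAt p (p1 x) x) (hp1 : ∀ x ∈ Icc a b, HasDerivAt p1 (p11 x) x)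
    (cf11 : ContinuousOn f11 (Icc a b)) (cp11 : ContinuousOn p11 (Icc a b)) :
    (∫ x in a..b, f x * p11 x) - ∫ x in a..b, p x * f11 x =
      (f b * p1 b - p b * f1 b) - (f a * p1 a - p a * f1 a) := by
  have cf : ContinuousOn f (Icc a b) := fun x hx => (hf x hx).continuousAt.continuousWithinAt
  have cf1 : ContinuousOn f1 (Icc a b) := fun x hx => (hf1 x hx).continuousAt.continuousWithinAt
  have cp : ContinuousOn p (Icc a b) := fun x hx => (hp x hx).continuousAt.continuousWithinAt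
  have cp1 : ContinuousOn p1 (Icc a b) := fun x hx => (hp1 x hx).continuousAt.continuousWithinAt
  rw [← intervalIntegral.integral_sub]
  · have hu : uIcc a b = Icc a b := uIcc_of_le hab
    rw [intervalIntegral.integral_eq_sub_of_hasDerivAt (f := fun x => f x * p1 x - p x * f1 x)]
    · intro x hx
      rw [hu] at hx
      have h := ((hf x hx).mul (hp1 x hx)).sub ((hp x hx).mul (hf1 x hx))
      refine h.congr_deriv ?_
      ring
    · apply ContinuousOn.intervalIntegrable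
      rw [hu]
      exact (cf.mul cp11).sub (cp.mul cf11)
  · apply ContinuousOn.intervalIntegrable
    rw [uIcc_of_le hab]; exact cf.mul cp11
  · apply ContinuousOn.intervalIntegrable
    rw [uIcc_of_le hab]; exact cp.mul cf11

theorem gc_integrableOn {R : Set (ℝ × ℝ)} (hR : IsCompact R) {u v : ℝ → ℝ → ℝ}
    (hu : ContinuousOn (fun q : ℝ × ℝ => u q.1 q.2) R)
    (hv : ContinuousOn (fun q : ℝ × ℝ => v q.1 q.2) R) :
    IntegrableOn (fun q : ℝ × ℝ => u q.1 q.2 * v q.1 q.2) R :=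
  (hu.mul hv).integrableOn_compact hR

theorem gc_compact (x0 x1 T : ℝ) : IsCompact (rct x0 x1 T) := isCompact_Icc.prod isCompact_Icc

/-- Fubini, `x` inside. -/
theorem gc_fub1 {x0 x1 T : ℝ} (h01 : x0 ≤ x1) (hT : 0 ≤ T) {F : ℝ × ℝ → ℝ}
    (hF : IntegrableOn F (rct x0 x1 T)) :
    ∫ q in rct x0 x1 T, F q = ∫ t in (-T)..T, ∫ x in x0..x1, F (x, t) := by
  have h2 : -T ≤ T := by linarith
  have e1 : (volume : Measure (ℝ × ℝ)).restrict (rct x0 x1 T) =
      (volume.restrict (Icc x0 x1)).prod (volume.restrict (Icc (-T) T)) := by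
    rw [Measure.prod_restrict]; rfl
  unfold IntegrableOn at hF
  rw [e1] at hF ⊢
  rw [integral_prod_symm _ hF, intervalIntegral.integral_of_le h2, ← integral_Icc_eq_integral_Ioc]
  refine integral_congr_ae (Filter.Eventually.of_forall fun t => ?_)
  simp only
  rw [intervalIntegral.integral_of_le h01, ← integral_Icc_eq_integral_Ioc]

/-- Fubini, `t` inside. -/
theorem gc_fub2 {x0 x1 T : ℝ} (h01 : x0 ≤ x1) (hT : 0 ≤ T) {F : ℝ × ℝ → ℝ}
    (hF : IntegrableOn F (rct x0 x1 T)) :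
    ∫ q in rct x0 x1 T, F q = ∫ x in x0..x1, ∫ t in (-T)..T, F (x, t) := by
  have h2 : -T ≤ T := by linarith
  have e1 : (volume : Measure (ℝ × ℝ)).restrict (rct x0 x1 T) =
      (volume.restrict (Icc x0 x1)).prod (volume.restrict (Icc (-T) T)) := by
    rw [Measure.prod_restrict]; rfl
  unfold IntegrableOn at hF
  rw [e1] at hF ⊢
  rw [integral_prod _ hF, intervalIntegral.integral_of_le h01, ← integral_Icc_eq_integral_Ioc]
  refine integral_congr_ae (Filter.Eventually.of_forall fun t => ?_)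
  simp only
  rw [intervalIntegral.integral_of_le h2, ← integral_Icc_eq_integral_Ioc]

theorem green_c2 {x0 x1 T : ℝ} (h01 : x0 < x1) (hT : 0 < T) {f f1 f11 f2 f22 p p1 p11 p2 p22 : ℝ → ℝ → ℝ}
    (hf : C2On (rct x0 x1 T) f f1 f11 f2 f22) (hp : Tst x0 x1 T p p1 p11 p2 p22) :
    (∫ q in rct x0 x1 T, f q.1 q.2 * (p11 q.1 q.2 + p22 q.1 q.2)) -
      (∫ q in rct x0 x1 T, p q.1 q.2 * (f11 q.1 q.2 + f22 q.1 q.2)) =
      ∫ t in (-T)..T, (f x1 t * p1 x1 t - p x1 t * f1 x1 t) := by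
  have hK := gc_compact x0 x1 T
  have h2 : -T ≤ T := by linarith
  have hc := hp.c2
  have i1 := gc_integrableOn hK hf.c hc.c11
  have i2 := gc_integrableOn hK hf.c hc.c22
  have i3 := gc_integrableOn hK hc.c hf.c11
  have i4 := gc_integrableOn hK hc.c hf.c22
  have e1 : (∫ q in rct x0 x1 T, f q.1 q.2 * (p11 q.1 q.2 + p22 q.1 q.2)) =
      (∫ q in rct x0 x1 T, f q.1 q.2 * p11 q.1 q.2) + ∫ q in rct x0 x1 T, f q.1 q.2 * p22 q.1 q.2 := by
    rw [← integral_add i1 i2]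
    refine integral_congr_ae (Filter.Eventually.of_forall fun q => ?_)
    simp only
    ring
  have e2 : (∫ q in rct x0 x1 T, p q.1 q.2 * (f11 q.1 q.2 + f22 q.1 q.2)) =
      (∫ q in rct x0 x1 T, p q.1 q.2 * f11 q.1 q.2) + ∫ q in rct x0 x1 T, p q.1 q.2 * f22 q.1 q.2 := by
    rw [← integral_add i3 i4]
    refine integral_congr_ae (Filter.Eventually.of_forall fun q => ?_)
    simp only
    ring
  have hsl1 : ∀ {u : ℝ → ℝ → ℝ}, ContinuousOn (fun q : ℝ × ℝ => u q.1 q.2) (rct x0 x1 T) →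
      ∀ t ∈ Icc (-T) T, ContinuousOn (fun x => u x t) (Icc x0 x1) := by
    intro u hu t ht
    exact hu.comp (f := fun x : ℝ => (x, t)) (by fun_prop) (fun x hx => ⟨hx, ht⟩)
  have hsl2 : ∀ {u : ℝ → ℝ → ℝ}, ContinuousOn (fun q : ℝ × ℝ => u q.1 q.2) (rct x0 x1 T) →
      ∀ x ∈ Icc x0 x1, ContinuousOn (fun t => u x t) (Icc (-T) T) := by
    intro u hu x hx
    exact hu.comp (f := fun t : ℝ => (x, t)) (by fun_prop) (fun t ht => ⟨hx, ht⟩)
  -- the `x` part
  have hx : (∫ q in rct x0 x1 T, f q.1 q.2 * p11 q.1 q.2) - ∫ q in rct x0 x1 T, p q.1 q.2 * f11 q.1 q.2 =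
      ∫ t in (-T)..T, (f x1 t * p1 x1 t - p x1 t * f1 x1 t) := by
    have i13 : IntegrableOn (fun q : ℝ × ℝ => f q.1 q.2 * p11 q.1 q.2 - p q.1 q.2 * f11 q.1 q.2)
        (rct x0 x1 T) := i1.sub i3
    rw [← integral_sub i1 i3, gc_fub1 h01.le hT.le i13]
    refine intervalIntegral.integral_congr fun t ht => ?_
    rw [uIcc_of_le h2] at ht
    simp only
    have hm : x0 ∈ Icc x0 x1 := ⟨le_refl _, h01.le⟩
    have key := gc_one_dim (f := fun x => f x t) (f1 := fun x => f1 x t) (f11 := fun x => f11 x t)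
      (p := fun x => p x t) (p1 := fun x => p1 x t) (p11 := fun x => p11 x t) h01.le
      (fun x hx => hf.h1 (x, t) ⟨hx, ht⟩) (fun x hx => hf.h11 (x, t) ⟨hx, ht⟩)
      (fun x hx => hc.h1 (x, t) ⟨hx, ht⟩) (fun x hx => hc.h11 (x, t) ⟨hx, ht⟩)
      (hsl1 hf.c11 t ht) (hsl1 hc.c11 t ht)
    have hta : |t| ≤ T := abs_le.2 ht
    rw [hp.l0 t hta, hp.l1 t hta] at key
    rw [intervalIntegral.integral_sub]
    · linarith
    · apply ContinuousOn.intervalIntegrable
      rw [uIcc_of_le h01.le]; exact (hsl1 hf.c t ht).mul (hsl1 hc.c11 t ht)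
    · apply ContinuousOn.intervalIntegrable
      rw [uIcc_of_le h01.le]; exact (hsl1 hc.c t ht).mul (hsl1 hf.c11 t ht)
  have ht : (∫ q in rct x0 x1 T, f q.1 q.2 * p22 q.1 q.2) - ∫ q in rct x0 x1 T, p q.1 q.2 * f22 q.1 q.2 =
      0 := by
    have i24 : IntegrableOn (fun q : ℝ × ℝ => f q.1 q.2 * p22 q.1 q.2 - p q.1 q.2 * f22 q.1 q.2)
        (rct x0 x1 T) := i2.sub i4
    rw [← integral_sub i2 i4, gc_fub2 h01.le hT.le i24]
    have : ∀ x ∈ uIcc x0 x1, (∫ t in (-T)..T, (f x t * p22 x t - p x t * f22 x t)) = 0 := by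
      intro x hx
      rw [uIcc_of_le h01.le] at hx
      have key := gc_one_dim (f := fun t => f x t) (f1 := fun t => f2 x t) (f11 := fun t => f22 x t)
        (p := fun t => p x t) (p1 := fun t => p2 x t) (p11 := fun t => p22 x t) h2
        (fun t ht => hf.h2 (x, t) ⟨hx, ht⟩) (fun t ht => hf.h22 (x, t) ⟨hx, ht⟩)
        (fun t ht => hc.h2 (x, t) ⟨hx, ht⟩) (fun t ht => hc.h22 (x, t) ⟨hx, ht⟩)
        (hsl2 hf.c22 x hx) (hsl2 hc.c22 x hx)
      rw [hp.u0 x hx.1 hx.2, hp.u1 x hx.1 hx.2, hp.d0 x hx.1 hx.2, hp.d1 x hx.1 hx.2] at key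
      rw [intervalIntegral.integral_sub]
      · linarith
      · apply ContinuousOn.intervalIntegrable
        rw [uIcc_of_le h2]; exact (hsl2 hf.c x hx).mul (hsl2 hc.c22 x hx)
      · apply ContinuousOn.intervalIntegrable
        rw [uIcc_of_le h2]; exact (hsl2 hc.c x hx).mul (hsl2 hf.c22 x hx)
    rw [intervalIntegral.integral_congr (g := fun _ => (0:ℝ)) this]
    simp
  rw [e1, e2]
  linarith

end Pool.Agent.ZR
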