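import Pool.Agent.ZR.Defs

/-!
# The test functions `|D|² w`
`D = Dh` is harmonic, `Δ|D|² = 2|D_u|² + 2|D_t|² = 4 (|Da|² + |Db|²)` (parallelogram), `D(0,t) = 0`.
`|w'| ≤ 6/T`, `|w''| ≤ 24/T²` on `|t| ≤ T`. `E0 = (∑ |C_m| (1+|ν_m|) e^{3|ν_m|})²`.
-/

set_option autoImplicit false

open Complex MeasureTheory Set Finset

namespace Pool.Agent.ZR

/-- `∂_u D`. -/
noncomputable def gdU (S : Finset ℕ) (C ν : ℕ → ℝ) (u t : ℝ) : ℂ :=
  ∑ m ∈ S, (2 * C m * ν m * Real.cosh (ν m * u) : ℝ) * cexp (I * (ν m * t : ℝ))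

/-- `∂_u² D`. -/
noncomputable def gdUU (S : Finset ℕ) (C ν : ℕ → ℝ) (u t : ℝ) : ℂ :=
  ∑ m ∈ S, (2 * C m * ν m ^ 2 * Real.sinh (ν m * u) : ℝ) * cexp (I * (ν m * t : ℝ))

/-- `-i ∂_t D`. -/
noncomputable def gdS (S : Finset ℕ) (C ν : ℕ → ℝ) (u t : ℝ) : ℂ :=
  ∑ m ∈ S, (2 * C m * ν m * Real.sinh (ν m * u) : ℝ) * cexp (I * (ν m * t : ℝ))

theorem gd_exp_norm (y : ℝ) : ‖cexp (I * (y : ℝ))‖ = 1 := by
  rw [mul_comm]; exact Complex.norm_exp_ofReal_mul_I y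

theorem gd_h1 (S : Finset ℕ) (C ν : ℕ → ℝ) (σ x t : ℝ) :
    HasDerivAt (fun x : ℝ => Dh S C ν (x - σ) t) (gdU S C ν (x - σ) t) x := by
  unfold Dh gdU
  refine HasDerivAt.fun_sum fun m _ => ?_
  have h1 : HasDerivAt (fun x : ℝ => 2 * C m * Real.sinh (ν m * (x - σ)))
      (2 * C m * ν m * Real.cosh (ν m * (x - σ))) x := by
    have h := ((((hasDerivAt_id x).sub_const σ).const_mul (ν m)).sinh).const_mul (2 * C m)
    refine h.congr_deriv ?_
    simp only [id]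
    ring
  exact h1.ofReal_comp.mul_const _

theorem gd_h11 (S : Finset ℕ) (C ν : ℕ → ℝ) (σ x t : ℝ) :
    HasDerivAt (fun x : ℝ => gdU S C ν (x - σ) t) (gdUU S C ν (x - σ) t) x := by
  unfold gdU gdUU
  refine HasDerivAt.fun_sum fun m _ => ?_
  have h1 : HasDerivAt (fun x : ℝ => 2 * C m * ν m * Real.cosh (ν m * (x - σ)))
      (2 * C m * ν m ^ 2 * Real.sinh (ν m * (x - σ))) x := by
    have h := ((((hasDerivAt_id x).sub_const σ).const_mul (ν m)).cosh).const_mul (2 * C m * ν m)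
    refine h.congr_deriv ?_
    simp only [id]
    ring
  exact h1.ofReal_comp.mul_const _

theorem gd_expd (y t : ℝ) :
    HasDerivAt (fun t : ℝ => cexp (I * (y * t : ℝ))) (I * y * cexp (I * (y * t : ℝ))) t := by
  have h1 : HasDerivAt (fun t : ℝ => ((y * t : ℝ) : ℂ)) ((y : ℝ) : ℂ) t := by
    have := ((hasDerivAt_id t).const_mul y).ofReal_comp
    refine this.congr_deriv ?_
    simp
  have h := (h1.const_mul I).cexp
  refine h.congr_deriv ?_
  ring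

theorem gd_h2 (S : Finset ℕ) (C ν : ℕ → ℝ) (u t : ℝ) :
    HasDerivAt (fun t : ℝ => Dh S C ν u t) (I * gdS S C ν u t) t := by
  unfold Dh gdS
  rw [Finset.mul_sum]
  refine HasDerivAt.fun_sum fun m _ => ?_
  have h := (gd_expd (ν m) t).const_mul (((2 * C m * Real.sinh (ν m * u) : ℝ)) : ℂ)
  refine h.congr_deriv ?_
  push_cast
  ring

theorem gd_h22 (S : Finset ℕ) (C ν : ℕ → ℝ) (u t : ℝ) :
    HasDerivAt (fun t : ℝ => gdS S C ν u t) (I * gdUU S C ν u t) t := by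
  unfold gdS gdUU
  rw [Finset.mul_sum]
  refine HasDerivAt.fun_sum fun m _ => ?_
  have h := (gd_expd (ν m) t).const_mul (((2 * C m * ν m * Real.sinh (ν m * u) : ℝ)) : ℂ)
  refine h.congr_deriv ?_
  push_cast
  ring

theorem gd_cD (S : Finset ℕ) (C ν : ℕ → ℝ) (σ : ℝ) :
    Continuous (fun q : ℝ × ℝ => Dh S C ν (q.1 - σ) q.2) := by
  unfold Dh
  refine continuous_finsetSum _ fun m _ => ?_
  refine (Complex.continuous_ofReal.comp ?_).mul ?_
  · exact continuous_const.mul (Real.continuous_sinh.comp (by fun_prop))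
  · fun_prop

theorem gd_cU (S : Finset ℕ) (C ν : ℕ → ℝ) (σ : ℝ) :
    Continuous (fun q : ℝ × ℝ => gdU S C ν (q.1 - σ) q.2) := by
  unfold gdU
  refine continuous_finsetSum _ fun m _ => ?_
  refine (Complex.continuous_ofReal.comp ?_).mul ?_
  · exact continuous_const.mul (Real.continuous_cosh.comp (by fun_prop))
  · fun_prop

theorem gd_cUU (S : Finset ℕ) (C ν : ℕ → ℝ) (σ : ℝ) :
    Continuous (fun q : ℝ × ℝ => gdUU S C ν (q.1 - σ) q.2) := by
  unfold gdUU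
  refine continuous_finsetSum _ fun m _ => ?_
  refine (Complex.continuous_ofReal.comp ?_).mul ?_
  · exact continuous_const.mul (Real.continuous_sinh.comp (by fun_prop))
  · fun_prop

theorem gd_cS (S : Finset ℕ) (C ν : ℕ → ℝ) (σ : ℝ) :
    Continuous (fun q : ℝ × ℝ => gdS S C ν (q.1 - σ) q.2) := by
  unfold gdS
  refine continuous_finsetSum _ fun m _ => ?_
  refine (Complex.continuous_ofReal.comp ?_).mul ?_
  · exact continuous_const.mul (Real.continuous_sinh.comp (by fun_prop))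
  · fun_prop

theorem gd_U_eq (S : Finset ℕ) (C ν : ℕ → ℝ) (u t : ℝ) :
    gdU S C ν u t = Da S C ν u t + Db S C ν u t := by
  unfold gdU Da Db
  rw [← Finset.sum_add_distrib]
  refine Finset.sum_congr rfl fun m _ => ?_
  rw [Real.cosh_eq, ← add_mul]
  congr 1
  push_cast
  ring

theorem gd_S_eq (S : Finset ℕ) (C ν : ℕ → ℝ) (u t : ℝ) :
    gdS S C ν u t = Da S C ν u t - Db S C ν u t := by
  unfold gdS Da Db
  rw [← Finset.sum_sub_distrib]
  refine Finset.sum_congr rfl fun m _ => ?_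
  rw [Real.sinh_eq, ← sub_mul]
  congr 1
  push_cast
  ring

theorem gd_sinh_le {y u : ℝ} (hu : 0 ≤ u) (hu3 : u ≤ 3) :
    |Real.sinh (y * u)| ≤ Real.exp (3 * |y|) / 2 := by
  have h1 : |y * u| ≤ 3 * |y| := by
    rw [abs_mul, abs_of_nonneg hu, mul_comm]
    exact mul_le_mul_of_nonneg_right hu3 (abs_nonneg _)
  have h2 : |Real.sinh (y * u)| ≤ Real.exp |y * u| / 2 := by
    rw [Real.sinh_eq, abs_le]
    have a1 : Real.exp (y * u) ≤ Real.exp |y * u| := Real.exp_le_exp.2 (le_abs_self _)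
    have a2 : Real.exp (-(y * u)) ≤ Real.exp |y * u| := Real.exp_le_exp.2 (neg_le_abs _)
    have a3 := Real.exp_pos (y * u)
    have a4 := Real.exp_pos (-(y * u))
    constructor <;> linarith
  have h3 : Real.exp |y * u| ≤ Real.exp (3 * |y|) := Real.exp_le_exp.2 h1
  linarith

theorem gd_cosh_le {y u : ℝ} (hu : 0 ≤ u) (hu3 : u ≤ 3) :
    |Real.cosh (y * u)| ≤ Real.exp (3 * |y|) := by
  have h1 : |y * u| ≤ 3 * |y| := by
    rw [abs_mul, abs_of_nonneg hu, mul_comm]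
    exact mul_le_mul_of_nonneg_right hu3 (abs_nonneg _)
  have h2 : |Real.cosh (y * u)| ≤ Real.exp |y * u| := by
    rw [Real.cosh_eq, abs_le]
    have a1 : Real.exp (y * u) ≤ Real.exp |y * u| := Real.exp_le_exp.2 (le_abs_self _)
    have a2 : Real.exp (-(y * u)) ≤ Real.exp |y * u| := Real.exp_le_exp.2 (neg_le_abs _)
    have a3 := Real.exp_pos (y * u)
    have a4 := Real.exp_pos (-(y * u))
    constructor <;> linarith
  have h3 : Real.exp |y * u| ≤ Real.exp (3 * |y|) := Real.exp_le_exp.2 h1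
  linarith

theorem gd_term {c e : ℝ} {w : ℂ} (hw : ‖w‖ = 1) (h : |c| ≤ e) : ‖(c : ℂ) * w‖ ≤ e := by
  rw [norm_mul, hw, mul_one, Complex.norm_real]
  exact h

theorem gd_bD (S : Finset ℕ) (C ν : ℕ → ℝ) {u t : ℝ} (hu : 0 ≤ u) (hu3 : u ≤ 3) :
    ‖Dh S C ν u t‖ ≤ ∑ m ∈ S, |C m| * (1 + |ν m|) * Real.exp (3 * |ν m|) := by
  unfold Dh
  refine norm_sum_le_of_le _ fun m _ => gd_term (gd_exp_norm _) ?_
  rw [abs_mul, abs_mul, abs_of_pos (by norm_num : (0:ℝ) < 2)]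
  have h := gd_sinh_le (y := ν m) hu hu3
  have hC := abs_nonneg (C m)
  have hn := abs_nonneg (ν m)
  have he := Real.exp_pos (3 * |ν m|)
  have h1 : 2 * |C m| * |Real.sinh (ν m * u)| ≤ 2 * |C m| * (Real.exp (3 * |ν m|) / 2) :=
    mul_le_mul_of_nonneg_left h (by positivity)
  have h2 : 0 ≤ |C m| * |ν m| * Real.exp (3 * |ν m|) := by positivity
  nlinarith

theorem gd_bU (S : Finset ℕ) (C ν : ℕ → ℝ) {u t : ℝ} (hu : 0 ≤ u) (hu3 : u ≤ 3) :
    ‖gdU S C ν u t‖ ≤ 2 * ∑ m ∈ S, |C m| * (1 + |ν m|) * Real.exp (3 * |ν m|) := by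
  unfold gdU
  rw [Finset.mul_sum]
  refine norm_sum_le_of_le _ fun m _ => gd_term (gd_exp_norm _) ?_
  rw [abs_mul, abs_mul, abs_mul, abs_of_pos (by norm_num : (0:ℝ) < 2)]
  have h := gd_cosh_le (y := ν m) hu hu3
  have hC := abs_nonneg (C m)
  have hn := abs_nonneg (ν m)
  have he := Real.exp_pos (3 * |ν m|)
  have h1 : 2 * |C m| * |ν m| * |Real.cosh (ν m * u)| ≤ 2 * |C m| * |ν m| * (Real.exp (3 * |ν m|)) :=
    mul_le_mul_of_nonneg_left h (by positivity)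
  have h2 : 0 ≤ |C m| * Real.exp (3 * |ν m|) := by positivity
  nlinarith

theorem gd_bS (S : Finset ℕ) (C ν : ℕ → ℝ) {u t : ℝ} (hu : 0 ≤ u) (hu3 : u ≤ 3) :
    ‖gdS S C ν u t‖ ≤ ∑ m ∈ S, |C m| * (1 + |ν m|) * Real.exp (3 * |ν m|) := by
  unfold gdS
  refine norm_sum_le_of_le _ fun m _ => gd_term (gd_exp_norm _) ?_
  rw [abs_mul, abs_mul, abs_mul, abs_of_pos (by norm_num : (0:ℝ) < 2)]
  have h := gd_sinh_le (y := ν m) hu hu3
  have hC := abs_nonneg (C m)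
  have hn := abs_nonneg (ν m)
  have he := Real.exp_pos (3 * |ν m|)
  have h1 : 2 * |C m| * |ν m| * |Real.sinh (ν m * u)| ≤ 2 * |C m| * |ν m| * (Real.exp (3 * |ν m|) / 2) :=
    mul_le_mul_of_nonneg_left h (by positivity)
  have h2 : 0 ≤ |C m| * Real.exp (3 * |ν m|) := by positivity
  nlinarith

/-- the first derivative of the weight -/
noncomputable def gdw1 (T t : ℝ) : ℝ := -(6 * t / T ^ 2) * (1 - (t / T) ^ 2) ^ 2

/-- the second derivative of the weight -/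
noncomputable def gdw2 (T t : ℝ) : ℝ := 6 / T ^ 2 * (1 - (t / T) ^ 2) * (5 * (t / T) ^ 2 - 1)

theorem gd_w1 {T : ℝ} (hT : 0 < T) (t : ℝ) : HasDerivAt (fun t => wt T t) (gdw1 T t) t := by
  unfold wt gdw1
  have h := ((((hasDerivAt_id t).div_const T).pow 2).const_sub 1).pow 3
  refine h.congr_deriv ?_
  simp only [id, Pi.pow_apply, Pi.neg_apply]
  push_cast
  field_simp
  ring

theorem gd_w2 {T : ℝ} (hT : 0 < T) (t : ℝ) : HasDerivAt (fun t => gdw1 T t) (gdw2 T t) t := by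
  unfold gdw1 gdw2
  have h1 := ((((hasDerivAt_id t).div_const T).pow 2).const_sub 1).pow 2
  have h2 := (((hasDerivAt_id t).const_mul 6).div_const (T ^ 2)).neg
  have h := h2.mul h1
  refine h.congr_deriv ?_
  simp only [id, Pi.pow_apply, Pi.neg_apply]
  push_cast
  field_simp
  ring

theorem gd_x {T t : ℝ} (hT : 0 < T) (ht : |t| ≤ T) : 0 ≤ (t / T) ^ 2 ∧ (t / T) ^ 2 ≤ 1 := by
  refine ⟨by positivity, ?_⟩
  rw [div_pow, div_le_one (by positivity)]
  exact sq_le_sq' (by linarith [(abs_le.1 ht).1]) (abs_le.1 ht).2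

theorem gd_w_le {T t : ℝ} (hT : 0 < T) (ht : |t| ≤ T) : 0 ≤ wt T t ∧ wt T t ≤ 1 := by
  obtain ⟨h1, h2⟩ := gd_x hT ht
  unfold wt
  exact ⟨pow_nonneg (by linarith) 3, pow_le_one₀ (by linarith) (by linarith)⟩

theorem gd_w1_le {T t : ℝ} (hT : 0 < T) (ht : |t| ≤ T) : |gdw1 T t| ≤ 6 / T := by
  obtain ⟨h1, h2⟩ := gd_x hT ht
  unfold gdw1
  rw [abs_mul, abs_neg, abs_div, abs_mul, abs_of_pos (by norm_num : (0:ℝ) < 6),
    abs_of_pos (by positivity : 0 < T ^ 2), abs_of_nonneg (by positivity : 0 ≤ (1 - (t / T) ^ 2) ^ 2)]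
  have h3 : (1 - (t / T) ^ 2) ^ 2 ≤ 1 := pow_le_one₀ (by linarith) (by linarith)
  have h4 : 6 * |t| / T ^ 2 ≤ 6 / T := by
    rw [div_le_div_iff₀ (by positivity) hT]
    nlinarith
  calc 6 * |t| / T ^ 2 * (1 - (t / T) ^ 2) ^ 2 ≤ 6 * |t| / T ^ 2 * 1 :=
        mul_le_mul_of_nonneg_left h3 (by positivity)
    _ ≤ 6 / T := by linarith

theorem gd_w2_le {T t : ℝ} (hT : 1 ≤ T) (ht : |t| ≤ T) : |gdw2 T t| ≤ 24 / T := by
  have hT0 : 0 < T := by linarith
  obtain ⟨h1, h2⟩ := gd_x hT0 ht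
  unfold gdw2
  have h3 : |(1 - (t / T) ^ 2) * (5 * (t / T) ^ 2 - 1)| ≤ 4 := by
    rw [abs_mul]
    have a1 : |1 - (t / T) ^ 2| ≤ 1 := by rw [abs_le]; constructor <;> linarith
    have a2 : |5 * (t / T) ^ 2 - 1| ≤ 4 := by rw [abs_le]; constructor <;> linarith
    calc _ ≤ (1:ℝ) * 4 := mul_le_mul a1 a2 (abs_nonneg _) (by norm_num)
      _ = 4 := by norm_num
  rw [mul_assoc, abs_mul, abs_of_pos (by positivity : 0 < 6 / T ^ 2)]
  have h4 : 6 / T ^ 2 ≤ 6 / T := by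
    apply div_le_div_of_nonneg_left (by norm_num) hT0
    nlinarith
  calc 6 / T ^ 2 * |(1 - (t / T) ^ 2) * (5 * (t / T) ^ 2 - 1)| ≤ 6 / T * 4 :=
        mul_le_mul h4 h3 (abs_nonneg _) (by positivity)
    _ = 24 / T := by ring

theorem gd_inner_le (a b : ℂ) : |inner ℝ a b| ≤ ‖a‖ * ‖b‖ := abs_real_inner_le_norm a b

theorem dh_tst (S : Finset ℕ) (C ν : ℕ → ℝ) {σ T : ℝ} (hσ : 0 ≤ σ) (hσ3 : σ < 3) (hT : 1 ≤ T) :
    ∃ p1 p11 p2 p22 : ℝ → ℝ → ℝ,
      Tst σ 3 T (fun x t => ‖Dh S C ν (x - σ) t‖ ^ 2 * wt T t) p1 p11 p2 p22 ∧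
      ∀ q ∈ rct σ 3 T,
        ‖Dh S C ν (q.1 - σ) q.2‖ ^ 2 * wt T q.2 ≤
          200 * (∑ m ∈ S, |C m| * (1 + |ν m|) * Real.exp (3 * |ν m|)) ^ 2 ∧
        |p1 q.1 q.2| ≤ 200 * (∑ m ∈ S, |C m| * (1 + |ν m|) * Real.exp (3 * |ν m|)) ^ 2 ∧
        |p11 q.1 q.2 + p22 q.1 q.2 - wt T q.2 * (4 * (‖Da S C ν (q.1 - σ) q.2‖ ^ 2 +
          ‖Db S C ν (q.1 - σ) q.2‖ ^ 2))| ≤
          200 * (∑ m ∈ S, |C m| * (1 + |ν m|) * Real.exp (3 * |ν m|)) ^ 2 / T := by
  have hT0 : 0 < T := by linarith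
  let D : ℝ → ℝ → ℂ := fun x t => Dh S C ν (x - σ) t
  let D1 : ℝ → ℝ → ℂ := fun x t => gdU S C ν (x - σ) t
  let D11 : ℝ → ℝ → ℂ := fun x t => gdUU S C ν (x - σ) t
  let D2 : ℝ → ℝ → ℂ := fun x t => I * gdS S C ν (x - σ) t
  let D22 : ℝ → ℝ → ℂ := fun x t => I * (I * gdUU S C ν (x - σ) t)
  have hD22 : ∀ x t, D22 x t = -D11 x t := by
    intro x t
    simp only [D22, D11]
    rw [← mul_assoc, Complex.I_mul_I]; ring
  have cD : Continuous (fun q : ℝ × ℝ => D q.1 q.2) := gd_cD S C ν σ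
  have cD1 : Continuous (fun q : ℝ × ℝ => D1 q.1 q.2) := gd_cU S C ν σ
  have cD11 : Continuous (fun q : ℝ × ℝ => D11 q.1 q.2) := gd_cUU S C ν σ
  have cD2 : Continuous (fun q : ℝ × ℝ => D2 q.1 q.2) := continuous_const.mul (gd_cS S C ν σ)
  have cD22 : Continuous (fun q : ℝ × ℝ => D22 q.1 q.2) :=
    continuous_const.mul (continuous_const.mul (gd_cUU S C ν σ))
  have d1 : ∀ x t, HasDerivAt (fun x => D x t) (D1 x t) x := fun x t => gd_h1 S C ν σ x t
  have d11 : ∀ x t, HasDerivAt (fun x => D1 x t) (D11 x t) x := fun x t => gd_h11 S C ν σ x t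
  have d2 : ∀ x t, HasDerivAt (fun t => D x t) (D2 x t) t := fun x t => gd_h2 S C ν (x - σ) t
  have d22 : ∀ x t, HasDerivAt (fun t => D2 x t) (D22 x t) t :=
    fun x t => (gd_h22 S C ν (x - σ) t).const_mul I
  have cw : Continuous (fun t => wt T t) := by unfold wt; fun_prop
  have cw1 : Continuous (fun t => gdw1 T t) := by unfold gdw1; fun_prop
  have cw2 : Continuous (fun t => gdw2 T t) := by unfold gdw2; fun_prop
  have hw0 : wt T T = 0 := by unfold wt; rw [div_self hT0.ne']; norm_num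
  have hw0' : wt T (-T) = 0 := by unfold wt; rw [neg_div, div_self hT0.ne']; norm_num
  have hw1 : gdw1 T T = 0 := by unfold gdw1; rw [div_self hT0.ne']; norm_num
  have hw1' : gdw1 T (-T) = 0 := by unfold gdw1; rw [neg_div, div_self hT0.ne']; norm_num
  have hD0 : ∀ t, D σ t = 0 := by
    intro t
    simp only [D, Dh, sub_self, mul_zero, Real.sinh_zero, Complex.ofReal_zero, zero_mul,
      Finset.sum_const_zero]
  refine ⟨fun x t => 2 * inner ℝ (D x t) (D1 x t) * wt T t,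
    fun x t => 2 * (inner ℝ (D x t) (D11 x t) + inner ℝ (D1 x t) (D1 x t)) * wt T t,
    fun x t => 2 * inner ℝ (D x t) (D2 x t) * wt T t + ‖D x t‖ ^ 2 * gdw1 T t,
    fun x t => (2 * (inner ℝ (D x t) (D22 x t) + inner ℝ (D2 x t) (D2 x t)) * wt T t +
      2 * inner ℝ (D x t) (D2 x t) * gdw1 T t) +
      (2 * inner ℝ (D x t) (D2 x t) * gdw1 T t + ‖D x t‖ ^ 2 * gdw2 T t), ?_, ?_⟩
  · constructor
    · constructor
      · intro q _
        have h := ((d1 q.1 q.2).norm_sq).mul_const (wt T q.2)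
        exact h
      · intro q _
        have h := ((((d1 q.1 q.2).inner ℝ (d11 q.1 q.2)).const_mul 2).mul_const (wt T q.2))
        exact h
      · intro q _
        have h := ((d2 q.1 q.2).norm_sq).mul (gd_w1 hT0 q.2)
        exact h
      · intro q _
        have h := ((((d2 q.1 q.2).inner ℝ (d22 q.1 q.2)).const_mul 2).mul (gd_w1 hT0 q.2)).add
          (((d2 q.1 q.2).norm_sq).mul (gd_w2 hT0 q.2))
        exact h
      · exact ((cD.norm.pow 2).mul (cw.comp continuous_snd)).continuousOn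
      · exact ((continuous_const.mul (cD.inner cD1)).mul (cw.comp continuous_snd)).continuousOn
      · exact ((continuous_const.mul ((cD.inner cD11).add (cD1.inner cD1))).mul
          (cw.comp continuous_snd)).continuousOn
      · exact (((continuous_const.mul (cD.inner cD2)).mul (cw.comp continuous_snd)).add
          ((cD.norm.pow 2).mul (cw1.comp continuous_snd))).continuousOn
      · exact ((((continuous_const.mul ((cD.inner cD22).add (cD2.inner cD2))).mul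
          (cw.comp continuous_snd)).add ((continuous_const.mul (cD.inner cD2)).mul
          (cw1.comp continuous_snd))).add (((continuous_const.mul (cD.inner cD2)).mul
          (cw1.comp continuous_snd)).add ((cD.norm.pow 2).mul (cw2.comp continuous_snd)))).continuousOn
    · intro q hq
      exact mul_nonneg (by positivity) (gd_w_le hT0 (abs_le.2 hq.2)).1
    · intro t _
      have := hD0 t
      simp only [D] at this
      simp only [this]
      simp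
    · intro t _
      simp only [hD0 t, inner_zero_left]
      simp
    · intro x _ _
      simp only [hw0, mul_zero]
    · intro x _ _
      simp only [hw0, hw1, mul_zero, add_zero]
    · intro x _ _
      simp only [hw0', mul_zero]
    · intro x _ _
      simp only [hw0', hw1', mul_zero, add_zero]
  · intro q hq
    set E := ∑ m ∈ S, |C m| * (1 + |ν m|) * Real.exp (3 * |ν m|) with hE
    have hu : 0 ≤ q.1 - σ := by linarith [hq.1.1]
    have hu3 : q.1 - σ ≤ 3 := by linarith [hq.1.2]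
    have ht : |q.2| ≤ T := abs_le.2 hq.2
    have bD : ‖D q.1 q.2‖ ≤ E := gd_bD S C ν hu hu3
    have bU : ‖D1 q.1 q.2‖ ≤ 2 * E := gd_bU S C ν hu hu3
    have bS : ‖D2 q.1 q.2‖ ≤ E := by
      simp only [D2]
      rw [norm_mul, Complex.norm_I, one_mul]
      exact gd_bS S C ν hu hu3
    have hE0 : 0 ≤ E := le_trans (norm_nonneg _) bD
    obtain ⟨w0, w1⟩ := gd_w_le hT0 ht
    have bD2 : ‖D q.1 q.2‖ ^ 2 ≤ E ^ 2 := pow_le_pow_left₀ (norm_nonneg _) bD 2
    refine ⟨?_, ?_, ?_⟩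
    · calc ‖D q.1 q.2‖ ^ 2 * wt T q.2 ≤ E ^ 2 * 1 := mul_le_mul bD2 w1 w0 (by positivity)
        _ ≤ 200 * E ^ 2 := by nlinarith [sq_nonneg E]
    · simp only
      rw [abs_mul, abs_mul, abs_of_pos (by norm_num : (0:ℝ) < 2), abs_of_nonneg w0]
      have h1 := gd_inner_le (D q.1 q.2) (D1 q.1 q.2)
      have h2 : ‖D q.1 q.2‖ * ‖D1 q.1 q.2‖ ≤ E * (2 * E) := mul_le_mul bD bU (norm_nonneg _) hE0
      calc 2 * |inner ℝ (D q.1 q.2) (D1 q.1 q.2)| * wt T q.2 ≤ 2 * (E * (2 * E)) * 1 :=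
            mul_le_mul (by linarith) w1 w0 (by positivity)
        _ ≤ 200 * E ^ 2 := by nlinarith [sq_nonneg E]
    · simp only
      have e1 : inner ℝ (D1 q.1 q.2) (D1 q.1 q.2) = ‖D1 q.1 q.2‖ ^ 2 := real_inner_self_eq_norm_sq _
      have e2 : inner ℝ (D2 q.1 q.2) (D2 q.1 q.2) = ‖D2 q.1 q.2‖ ^ 2 := real_inner_self_eq_norm_sq _
      have e3 : inner ℝ (D q.1 q.2) (D22 q.1 q.2) = -inner ℝ (D q.1 q.2) (D11 q.1 q.2) := by
        rw [hD22, inner_neg_right]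
      have e4 : ‖D1 q.1 q.2‖ ^ 2 + ‖D2 q.1 q.2‖ ^ 2 = 2 * (‖Da S C ν (q.1 - σ) q.2‖ ^ 2 +
          ‖Db S C ν (q.1 - σ) q.2‖ ^ 2) := by
        simp only [D1, D2]
        rw [norm_mul, Complex.norm_I, one_mul, gd_U_eq, gd_S_eq]
        have := parallelogram_law_with_norm ℝ (Da S C ν (q.1 - σ) q.2) (Db S C ν (q.1 - σ) q.2)
        nlinarith
      rw [e1, e2, e3]
      have e5 : 2 * (inner ℝ (D q.1 q.2) (D11 q.1 q.2) + ‖D1 q.1 q.2‖ ^ 2) * wt T q.2 +
          (2 * (-inner ℝ (D q.1 q.2) (D11 q.1 q.2) + ‖D2 q.1 q.2‖ ^ 2) * wt T q.2 +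
            2 * inner ℝ (D q.1 q.2) (D2 q.1 q.2) * gdw1 T q.2 +
            (2 * inner ℝ (D q.1 q.2) (D2 q.1 q.2) * gdw1 T q.2 + ‖D q.1 q.2‖ ^ 2 * gdw2 T q.2)) -
          wt T q.2 * (4 * (‖Da S C ν (q.1 - σ) q.2‖ ^ 2 + ‖Db S C ν (q.1 - σ) q.2‖ ^ 2)) =
          4 * inner ℝ (D q.1 q.2) (D2 q.1 q.2) * gdw1 T q.2 + ‖D q.1 q.2‖ ^ 2 * gdw2 T q.2 := by
        linear_combination (2 * wt T q.2) * e4
      rw [e5]
      have g1 := gd_w1_le hT0 ht
      have g2 := gd_w2_le hT ht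
      have h1 := gd_inner_le (D q.1 q.2) (D2 q.1 q.2)
      have h2 : ‖D q.1 q.2‖ * ‖D2 q.1 q.2‖ ≤ E * E := mul_le_mul bD bS (norm_nonneg _) hE0
      have t1 : |4 * inner ℝ (D q.1 q.2) (D2 q.1 q.2) * gdw1 T q.2| ≤ 4 * (E * E) * (6 / T) := by
        rw [abs_mul, abs_mul, abs_of_pos (by norm_num : (0:ℝ) < 4)]
        exact mul_le_mul (by linarith) g1 (abs_nonneg _) (by positivity)
      have t2 : |‖D q.1 q.2‖ ^ 2 * gdw2 T q.2| ≤ E ^ 2 * (24 / T) := by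
        rw [abs_mul, abs_of_nonneg (by positivity : 0 ≤ ‖D q.1 q.2‖ ^ 2)]
        exact mul_le_mul bD2 g2 (abs_nonneg _) (by positivity)
      calc _ ≤ |4 * inner ℝ (D q.1 q.2) (D2 q.1 q.2) * gdw1 T q.2| +
            |‖D q.1 q.2‖ ^ 2 * gdw2 T q.2| := abs_add_le _ _
        _ ≤ 4 * (E * E) * (6 / T) + E ^ 2 * (24 / T) := add_le_add t1 t2
        _ = 48 * E ^ 2 / T := by ring
        _ ≤ 200 * E ^ 2 / T := by
          apply div_le_div_of_nonneg_right _ hT0.le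
          nlinarith [sq_nonneg E]

end Pool.Agent.ZR
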