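import Mathlib

/-!
# Factoring out the zeros of a holomorphic function in a compact set
-/

set_option autoImplicit false

open Complex Set Filter Topology

namespace Pool.Agent.ZR

theorem gfx_factor {U K : Set ℂ} (hU : IsOpen U) (hKU : K ⊆ U) (Z0 : Finset ℂ) :
    ∀ F : ℂ → ℂ, DifferentiableOn ℂ F U → (∀ z ∈ K, ¬ ∀ᶠ s in 𝓝 z, F s = 0) →
      (∀ z ∈ K, F z = 0 → z ∈ Z0) →
      ∃ (n : ℂ → ℕ) (G : ℂ → ℂ), DifferentiableOn ℂ G U ∧
        (∀ s : ℂ, F s = (∏ z ∈ Z0, (s - z) ^ n z) * G s) ∧ ∀ s ∈ K, G s ≠ 0 := by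
  classical
  induction Z0 using Finset.induction_on with
  | empty =>
    intro F hF _ hz
    refine ⟨fun _ => 0, F, hF, fun s => by simp, fun s hs h0 => ?_⟩
    simpa using hz s hs h0
  | insert z Z0 hzZ ih =>
    intro F hF hnd hz
    by_cases hcase : z ∈ K ∧ F z = 0
    · obtain ⟨hzK, hFz⟩ := hcase
      have hzU := hKU hzK
      have han : AnalyticAt ℂ F z := hF.analyticAt (hU.mem_nhds hzU)
      obtain ⟨k, g, hg, hgz, hloc⟩ := han.exists_eventuallyEq_pow_smul_nonzero_iff.2 (hnd z hzK)
      set F1 : ℂ → ℂ := fun s => if s = z then g z else F s / (s - z) ^ k with hF1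
      have hmul : ∀ s : ℂ, F s = (s - z) ^ k * F1 s := by
        intro s
        by_cases hs : s = z
        · subst hs
          have := hloc.self_of_nhds
          simp only [hF1, if_true]
          rw [this, smul_eq_mul]
        · simp only [hF1, hs, if_false]
          have : (s - z) ^ k ≠ 0 := pow_ne_zero _ (sub_ne_zero.2 hs)
          field_simp
      have hF1d : DifferentiableOn ℂ F1 U := by
        intro s hs
        apply DifferentiableAt.differentiableWithinAt
        by_cases hsz : s = z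
        · subst hsz
          have : F1 =ᶠ[𝓝 s] g := by
            filter_upwards [hloc] with w hw
            by_cases hws : w = s
            · subst hws
              simp [hF1]
            · simp only [hF1, hws, if_false]
              rw [hw, smul_eq_mul]
              have : (w - s) ^ k ≠ 0 := pow_ne_zero _ (sub_ne_zero.2 hws)
              field_simp
          exact hg.differentiableAt.congr_of_eventuallyEq this
        · have hne : ∀ᶠ w in 𝓝 s, w ≠ z := isOpen_ne.mem_nhds hsz
          have : F1 =ᶠ[𝓝 s] fun w => F w / (w - z) ^ k := by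
            filter_upwards [hne] with w hw
            simp [hF1, hw]
          refine DifferentiableAt.congr_of_eventuallyEq ?_ this
          refine DifferentiableAt.div ((hF s hs).differentiableAt (hU.mem_nhds hs)) (by fun_prop) ?_
          exact pow_ne_zero _ (sub_ne_zero.2 hsz)
      have hnd1 : ∀ w ∈ K, ¬ ∀ᶠ s in 𝓝 w, F1 s = 0 := by
        intro w hw hcon
        refine hnd w hw ?_
        filter_upwards [hcon] with s hs
        rw [hmul s, hs, mul_zero]
      have hz1 : ∀ w ∈ K, F1 w = 0 → w ∈ Z0 := by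
        intro w hw h0
        have hwz : w ≠ z := by
          rintro rfl
          simp only [hF1, if_true] at h0
          exact hgz h0
        have hFw : F w = 0 := by rw [hmul w, h0, mul_zero]
        rcases Finset.mem_insert.1 (hz w hw hFw) with h | h
        · exact absurd h hwz
        · exact h
      obtain ⟨n, G, hG, hfac, hG0⟩ := ih F1 hF1d hnd1 hz1
      refine ⟨Function.update n z k, G, hG, fun s => ?_, hG0⟩
      rw [Finset.prod_insert hzZ, Function.update_self, mul_assoc, hmul s, hfac s]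
      congr 2
      refine Finset.prod_congr rfl fun w hw => ?_
      rw [Function.update_of_ne]
      rintro rfl
      exact hzZ hw
    · have hz1 : ∀ w ∈ K, F w = 0 → w ∈ Z0 := by
        intro w hw h0
        rcases Finset.mem_insert.1 (hz w hw h0) with h | h
        · subst h
          exact absurd ⟨hw, h0⟩ hcase
        · exact h
      obtain ⟨n, G, hG, hfac, hG0⟩ := ih F hF hnd hz1
      refine ⟨Function.update n z 0, G, hG, fun s => ?_, hG0⟩
      rw [Finset.prod_insert hzZ, Function.update_self, pow_zero, one_mul, hfac s]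
      congr 1
      refine Finset.prod_congr rfl fun w hw => ?_
      rw [Function.update_of_ne]
      rintro rfl
      exact hzZ hw

theorem gfx_finite {U K : Set ℂ} (hKU : K ⊆ U) (hU : IsOpen U) (hK : IsCompact K)
    {F : ℂ → ℂ} (hF : DifferentiableOn ℂ F U) (hnd : ∀ z ∈ K, ¬ ∀ᶠ s in 𝓝 z, F s = 0) :
    {z | z ∈ K ∧ F z = 0}.Finite := by
  by_contra hinf
  obtain ⟨x, hxK, hacc⟩ := Set.Infinite.exists_accPt_of_subset_isCompact (K := K)
    (s := {z | z ∈ K ∧ F z = 0}) hinf hK (fun z hz => hz.1)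
  have han : AnalyticAt ℂ F x := hF.analyticAt (hU.mem_nhds (hKU hxK))
  apply hnd x hxK
  rw [← han.frequently_zero_iff_eventually_zero]
  rw [accPt_iff_frequently_nhdsNE] at hacc
  exact hacc.mono fun z hz => hz.2

theorem gfx_nd {U K : Set ℂ} (hKU : K ⊆ U) (hU : IsOpen U) (hUc : IsPreconnected U)
    {F : ℂ → ℂ} (hF : DifferentiableOn ℂ F U) {w : ℂ} (hw : w ∈ U) (hFw : F w ≠ 0) :
    ∀ z ∈ K, ¬ ∀ᶠ s in 𝓝 z, F s = 0 := by
  intro z hz hcon
  have han : AnalyticOnNhd ℂ F U := hF.analyticOnNhd hU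
  exact hFw (han.eqOn_zero_of_preconnected_of_eventuallyEq_zero hUc (hKU hz) hcon hw)

/-- Factorization of a holomorphic function on a compact set. -/
theorem gfx {U K : Set ℂ} (hU : IsOpen U) (hUc : IsPreconnected U) (hKU : K ⊆ U) (hK : IsCompact K)
    {F : ℂ → ℂ} (hF : DifferentiableOn ℂ F U) {w : ℂ} (hw : w ∈ U) (hFw : F w ≠ 0) :
    ∃ (Z0 : Finset ℂ) (n : ℂ → ℕ) (G : ℂ → ℂ), (∀ z ∈ Z0, z ∈ K ∧ F z = 0) ∧
      (∀ z ∈ K, F z = 0 → z ∈ Z0 ∧ 1 ≤ n z) ∧ DifferentiableOn ℂ G U ∧
      (∀ s : ℂ, F s = (∏ z ∈ Z0, (s - z) ^ n z) * G s) ∧ ∀ s ∈ K, G s ≠ 0 := by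
  have hnd := gfx_nd hKU hU hUc hF hw hFw
  have hfin := gfx_finite hKU hU hK hF hnd
  obtain ⟨n, G, hG, hfac, hG0⟩ := gfx_factor hU hKU hfin.toFinset F hF hnd
    (fun z hz h0 => by simp [hz, h0])
  refine ⟨hfin.toFinset, n, G, fun z hz => by simpa using hz, fun z hz h0 => ⟨by simp [hz, h0], ?_⟩,
    hG, hfac, hG0⟩
  by_contra hn
  have hn0 : n z = 0 := by omega
  have h1 := hfac z
  rw [h0] at h1
  have h2 : (∏ y ∈ hfin.toFinset, (z - y) ^ n y) = 0 := by
    rcases mul_eq_zero.1 h1.symm with h | h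
    · exact h
    · exact absurd h (hG0 z hz)
  rw [Finset.prod_eq_zero_iff] at h2
  obtain ⟨y, hy, hy0⟩ := h2
  by_cases hny : n y = 0
  · rw [hny, pow_zero] at hy0
    exact one_ne_zero hy0
  · have h3 : z - y = 0 := pow_eq_zero_iff hny |>.1 hy0
    have h4 : z = y := sub_eq_zero.1 h3
    rw [← h4] at hny
    exact hny hn0

end Pool.Agent.ZR
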