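import Pool.Agent.ZR.GC

/-!
# Green's formula for a function without zeros
`log |G|` is harmonic: `f1 = Re(G'/G)`, `f11 = Re((G'/G)')`, `f2 = -Im(G'/G)`, `f22 = -f11`.
-/

set_option autoImplicit false

open Complex MeasureTheory Set Finset

namespace Pool.Agent.ZR

/-- The derivative of `log |c|` along a curve. -/
theorem gn_hasDerivAt_log_norm {c : ℝ → ℂ} {c' : ℂ} {x : ℝ} (h : HasDerivAt c c' x) (h0 : c x ≠ 0) :
    HasDerivAt (fun y => Real.log ‖c y‖) ((c' / c x).re) x := by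
  have e : (fun y => Real.log ‖c y‖) = fun y => (1 / 2) * Real.log (‖c y‖ ^ 2) := by
    funext y
    rw [Real.log_pow]; push_cast; ring
  have hn : ‖c x‖ ^ 2 ≠ 0 := by positivity
  rw [e]
  have h2 := ((h.norm_sq).log hn).const_mul (1 / 2 : ℝ)
  refine h2.congr_deriv ?_
  have e3 : (c' / c x).re = inner ℝ (c x) c' / ‖c x‖ ^ 2 := by
    rw [Complex.div_re, Complex.inner, Complex.normSq_eq_norm_sq]
    simp only [Complex.mul_re, Complex.conj_re, Complex.conj_im]
    field_simp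
    ring
  rw [e3]
  field_simp

theorem green_nv {x0 x1 T : ℝ} (h01 : x0 < x1) (hT : 0 < T) {p p1 p11 p2 p22 : ℝ → ℝ → ℝ}
    (hp : Tst x0 x1 T p p1 p11 p2 p22) {G : ℂ → ℂ} {U : Set ℂ} (hU : IsOpen U)
    (hR : ∀ q ∈ rct x0 x1 T, pnt q ∈ U) (hG : DifferentiableOn ℂ G U)
    (h0 : ∀ q ∈ rct x0 x1 T, G (pnt q) ≠ 0) :
    IntegrableOn (fun q : ℝ × ℝ => Real.log ‖G (pnt q)‖) (rct x0 x1 T) ∧
    (∫ q in rct x0 x1 T, Real.log ‖G (pnt q)‖ * (p11 q.1 q.2 + p22 q.1 q.2)) -
      (∫ t in (-T)..T, (Real.log ‖G ((x1 : ℂ) + t * I)‖ * p1 x1 t -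
        p x1 t * (deriv G ((x1 : ℂ) + t * I) / G ((x1 : ℂ) + t * I)).re)) = 0 := by
  have hGa : ∀ s ∈ U, DifferentiableAt ℂ G s := fun s hs => (hG s hs).differentiableAt (hU.mem_nhds hs)
  have hdG : DifferentiableOn ℂ (deriv G) U := hG.deriv hU
  have hdGa : ∀ s ∈ U, DifferentiableAt ℂ (deriv G) s :=
    fun s hs => (hdG s hs).differentiableAt (hU.mem_nhds hs)
  let V : Set ℂ := {s | s ∈ U ∧ G s ≠ 0}
  have hV : IsOpen V := by
    have : V = U ∩ G ⁻¹' {0}ᶜ := by ext s; simp [V]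
    rw [this]
    exact hG.continuousOn.isOpen_inter_preimage hU isOpen_compl_singleton
  let L : ℂ → ℂ := fun s => deriv G s / G s
  have hLa : ∀ s ∈ V, DifferentiableAt ℂ L s := fun s hs => (hdGa s hs.1).div (hGa s hs.1) hs.2
  have hL : DifferentiableOn ℂ L V := fun s hs => (hLa s hs).differentiableWithinAt
  have hdL : DifferentiableOn ℂ (deriv L) V := hL.deriv hV
  have hpV : ∀ q ∈ rct x0 x1 T, pnt q ∈ V := fun q hq => ⟨hR q hq, h0 q hq⟩
  have hpc : Continuous pnt := by unfold pnt; fun_prop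
  have hx : ∀ q : ℝ × ℝ, HasDerivAt (fun x : ℝ => ((x : ℂ) + (q.2 : ℂ) * I)) 1 q.1 := by
    intro q
    exact (Complex.ofRealCLM.hasDerivAt (x := q.1)).add_const ((q.2 : ℂ) * I)
  have ht : ∀ q : ℝ × ℝ, HasDerivAt (fun t : ℝ => ((q.1 : ℂ) + (t : ℂ) * I)) I q.2 := by
    intro q
    have h1 := ((Complex.ofRealCLM.hasDerivAt (x := q.2)).mul_const I).const_add (q.1 : ℂ)
    refine h1.congr_deriv ?_
    simp
  -- the `C²` structure
  have hC : C2On (rct x0 x1 T) (fun x t => Real.log ‖G ((x : ℂ) + (t : ℂ) * I)‖)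
      (fun x t => (L ((x : ℂ) + (t : ℂ) * I)).re) (fun x t => (deriv L ((x : ℂ) + (t : ℂ) * I)).re)
      (fun x t => -(L ((x : ℂ) + (t : ℂ) * I)).im) (fun x t => -(deriv L ((x : ℂ) + (t : ℂ) * I)).re) := by
    have cG : ContinuousOn (fun q : ℝ × ℝ => G (pnt q)) (rct x0 x1 T) :=
      hG.continuousOn.comp hpc.continuousOn hR
    have cL : ContinuousOn (fun q : ℝ × ℝ => L (pnt q)) (rct x0 x1 T) :=
      hL.continuousOn.comp hpc.continuousOn hpV
    have cdL : ContinuousOn (fun q : ℝ × ℝ => deriv L (pnt q)) (rct x0 x1 T) :=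
      hdL.continuousOn.comp hpc.continuousOn hpV
    constructor
    · intro q hq
      have h1 := (hGa (pnt q) (hR q hq)).hasDerivAt.scomp q.1 (hx q)
      have h2 := gn_hasDerivAt_log_norm h1 (h0 q hq)
      refine h2.congr_deriv ?_
      simp only [one_smul]
      rfl
    · intro q hq
      have h1 := (hLa (pnt q) (hpV q hq)).hasDerivAt.scomp q.1 (hx q)
      have h2 := Complex.reCLM.hasFDerivAt.comp_hasDerivAt q.1 h1
      refine h2.congr_deriv ?_
      simp only [one_smul]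
      rfl
    · intro q hq
      have h1 := (hGa (pnt q) (hR q hq)).hasDerivAt.scomp q.2 (ht q)
      have h2 := gn_hasDerivAt_log_norm h1 (h0 q hq)
      refine h2.congr_deriv ?_
      have e : (I • deriv G (pnt q)) / G (pnt q) = I * L (pnt q) := by
        simp only [smul_eq_mul, L]; ring
      have e2 : ((I • deriv G (pnt q)) / G (pnt q)).re = -(L (pnt q)).im := by
        rw [e]; simp
      exact e2
    · intro q hq
      have h1 := (hLa (pnt q) (hpV q hq)).hasDerivAt.scomp q.2 (ht q)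
      have h2 := (Complex.imCLM.hasFDerivAt.comp_hasDerivAt q.2 h1).neg
      refine h2.congr_deriv ?_
      have e2 : -(I • deriv L (pnt q)).im = -(deriv L (pnt q)).re := by simp
      exact e2
    · exact ContinuousOn.log cG.norm (fun q hq => norm_ne_zero_iff.2 (h0 q hq))
    · exact Complex.continuous_re.comp_continuousOn cL
    · exact Complex.continuous_re.comp_continuousOn cdL
    · exact (Complex.continuous_im.comp_continuousOn cL).neg
    · exact (Complex.continuous_re.comp_continuousOn cdL).neg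
  refine ⟨hC.c.integrableOn_compact (gc_compact x0 x1 T), ?_⟩
  have key := green_c2 h01 hT hC hp
  have z : (∫ q in rct x0 x1 T, p q.1 q.2 * ((deriv L ((q.1 : ℂ) + (q.2 : ℂ) * I)).re +
      -(deriv L ((q.1 : ℂ) + (q.2 : ℂ) * I)).re)) = 0 := by
    simp
  rw [z, sub_zero] at key
  have key2 : (∫ q in rct x0 x1 T, Real.log ‖G (pnt q)‖ * (p11 q.1 q.2 + p22 q.1 q.2)) =
      (∫ t in (-T)..T, (Real.log ‖G ((x1 : ℂ) + t * I)‖ * p1 x1 t -
        p x1 t * (deriv G ((x1 : ℂ) + t * I) / G ((x1 : ℂ) + t * I)).re)) := key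
  rw [key2, sub_self]

end Pool.Agent.ZR
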