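import Pool.Agent.ZR.GL
import Pool.Agent.ZR.GN
import Pool.Agent.ZR.GF_x

/-!
# Green's inequality
Factor `F = ∏ (s - z_i) G` over all zeros in the compact rectangle (finitely many, with
multiplicity), `G` zero free on the rectangle; sum `green_lin` and `green_nv`.
-/

set_option autoImplicit false

open Complex MeasureTheory Set Finset

namespace Pool.Agent.ZR

theorem gf_pnt_inj : Function.Injective pnt := by
  intro p q h
  have h1 := congrArg Complex.re h
  have h2 := congrArg Complex.im h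
  simp [pnt] at h1 h2
  exact Prod.ext h1 h2

theorem gf_pnt_cont : Continuous pnt := by
  unfold pnt
  fun_prop

theorem gf_compact (x0 x1 T : ℝ) : IsCompact (rct x0 x1 T) := isCompact_Icc.prod isCompact_Icc

/-- the boundary part of the integrals -/
theorem gf_bd_cont {x0 x1 T : ℝ} (h01 : x0 < x1) {p p1 p11 p2 p22 : ℝ → ℝ → ℝ}
    (hp : Tst x0 x1 T p p1 p11 p2 p22) {f g : ℝ → ℝ} (hf : ContinuousOn f (Icc (-T) T))
    (hg : ContinuousOn g (Icc (-T) T)) :
    ContinuousOn (fun t : ℝ => f t * p1 x1 t - p x1 t * g t) (Icc (-T) T) := by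
  have hm : x1 ∈ Icc x0 x1 := ⟨h01.le, le_refl _⟩
  have c1 : ContinuousOn (fun t => p1 x1 t) (Icc (-T) T) :=
    hp.c2.c1.comp (f := fun t : ℝ => (x1, t)) (by fun_prop) (fun t ht => ⟨hm, ht⟩)
  have c0 : ContinuousOn (fun t => p x1 t) (Icc (-T) T) :=
    hp.c2.c.comp (f := fun t : ℝ => (x1, t)) (by fun_prop) (fun t ht => ⟨hm, ht⟩)
  exact (hf.mul c1).sub (c0.mul hg)

theorem green_ineq {x0 x1 T : ℝ} (h01 : x0 < x1) (hT : 0 < T) {p p1 p11 p2 p22 : ℝ → ℝ → ℝ}
    (hp : Tst x0 x1 T p p1 p11 p2 p22) {F : ℂ → ℂ} {a : ℝ} (ha : a < x0)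
    (hF : ∀ s : ℂ, a < s.re → DifferentiableAt ℂ F s)
    (hF1 : ∀ t : ℝ, |t| ≤ T → F ((x1 : ℂ) + t * I) ≠ 0) (Z : Finset ℂ)
    (hZ : ∀ z ∈ Z, F z = 0 ∧ x0 < z.re ∧ z.re < x1 ∧ |z.im| < T) :
    IntegrableOn (fun q : ℝ × ℝ => Real.log ‖F (pnt q)‖) (rct x0 x1 T) ∧
    2 * Real.pi * ∑ z ∈ Z, p z.re z.im ≤
      (∫ q in rct x0 x1 T, Real.log ‖F (pnt q)‖ * (p11 q.1 q.2 + p22 q.1 q.2)) -
      ∫ t in (-T)..T, (Real.log ‖F ((x1 : ℂ) + t * I)‖ * p1 x1 t -
        p x1 t * (deriv F ((x1 : ℂ) + t * I) / F ((x1 : ℂ) + t * I)).re) := by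
  classical
  set U : Set ℂ := {s : ℂ | a < s.re} with hUdef
  have hU : IsOpen U := isOpen_lt continuous_const Complex.continuous_re
  have hUc : IsPreconnected U := (convex_halfSpace_re_gt a).isPreconnected
  set K : Set ℂ := pnt '' rct x0 x1 T with hKdef
  have hRc := gf_compact x0 x1 T
  have hK : IsCompact K := hRc.image gf_pnt_cont
  have hpre : ∀ q : ℝ × ℝ, (pnt q).re = q.1 := by intro q; simp [pnt]
  have hpim : ∀ q : ℝ × ℝ, (pnt q).im = q.2 := by intro q; simp [pnt]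
  have hRU : ∀ q ∈ rct x0 x1 T, pnt q ∈ U := by
    intro q hq
    change a < (pnt q).re
    rw [hpre]
    exact lt_of_lt_of_le ha hq.1.1
  have hKU : K ⊆ U := by
    rintro _ ⟨q, hq, rfl⟩
    exact hRU q hq
  have hFd : DifferentiableOn ℂ F U := fun s hs => (hF s hs).differentiableWithinAt
  have hwU : ((x1 : ℂ) + ((0 : ℝ) : ℂ) * I) ∈ U := by
    change a < ((x1 : ℂ) + ((0 : ℝ) : ℂ) * I).re
    simp
    linarith
  obtain ⟨Z0, n, G, hZ0, hZ1, hG, hfac, hG0⟩ := gfx hU hUc hKU hK hFd hwU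
    (hF1 0 (by simp [hT.le]))
  have hbd : ∀ t ∈ Icc (-T) T, ((x1 : ℂ) + t * I) ∈ K := by
    intro t ht
    exact ⟨(x1, t), ⟨⟨h01.le, le_refl _⟩, ht⟩, rfl⟩
  have hbne : ∀ t ∈ Icc (-T) T, ∀ z ∈ Z0, ((x1 : ℂ) + t * I) - z ≠ 0 := by
    intro t ht z hz hcon
    have h1 := hF1 t (abs_le.2 ht)
    rw [sub_eq_zero.1 hcon] at h1
    exact h1 (hZ0 z hz).2
  have hZre : ∀ z ∈ Z0, z.re ≠ x1 := by
    intro z hz hcon
    obtain ⟨⟨q, hq, rfl⟩, hFz⟩ := hZ0 z hz
    rw [hpre] at hcon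
    have h1 := hF1 q.2 (abs_le.2 hq.2)
    apply h1
    rw [← hFz]
    congr 1
    simp [pnt, hcon]
  have hlin := fun z (hz : z ∈ Z0) => green_lin h01 hT hp z (Or.inl (hZre z hz))
  have hnv := green_nv h01 hT hp hU hRU hG (fun q hq => hG0 _ ⟨q, hq, rfl⟩)
  set P : ℝ × ℝ → ℝ := fun q => p11 q.1 q.2 + p22 q.1 q.2 with hP
  have hPc : ContinuousOn P (rct x0 x1 T) := hp.c2.c11.add hp.c2.c22
  -- the pointwise identity
  have hlogid : ∀ q : ℝ × ℝ, q ∈ rct x0 x1 T → pnt q ∉ Z0 → Real.log ‖F (pnt q)‖ =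
      (∑ z ∈ Z0, (n z : ℝ) * Real.log ‖pnt q - z‖) + Real.log ‖G (pnt q)‖ := by
    intro q hq hqZ
    rw [hfac (pnt q), norm_mul, norm_prod, Real.log_mul, Real.log_prod]
    · congr 1
      refine Finset.sum_congr rfl fun z hz => ?_
      rw [norm_pow, Real.log_pow]
    · intro z hz
      rw [norm_ne_zero_iff]
      apply pow_ne_zero
      rw [sub_ne_zero]
      rintro rfl
      exact hqZ hz
    · apply Finset.prod_ne_zero_iff.2
      intro z hz
      rw [norm_ne_zero_iff]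
      apply pow_ne_zero
      rw [sub_ne_zero]
      rintro rfl
      exact hqZ hz
    · rw [norm_ne_zero_iff]
      exact hG0 _ ⟨q, hq, rfl⟩
  have hfinset : {q : ℝ × ℝ | pnt q ∈ Z0}.Finite :=
    Set.Finite.preimage (gf_pnt_inj.injOn) Z0.finite_toSet
  have hnull : volume {q : ℝ × ℝ | pnt q ∈ Z0} = 0 := hfinset.measure_zero _
  have hae : ∀ᵐ q ∂(volume.restrict (rct x0 x1 T)), Real.log ‖F (pnt q)‖ =
      (∑ z ∈ Z0, (n z : ℝ) * Real.log ‖pnt q - z‖) + Real.log ‖G (pnt q)‖ := by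
    have h1 : ∀ᵐ q ∂(volume.restrict (rct x0 x1 T)), pnt q ∉ Z0 := by
      apply ae_restrict_of_ae
      rw [ae_iff]
      simpa using hnull
    filter_upwards [h1, ae_restrict_mem hRc.measurableSet] with q hq1 hq2
    exact hlogid q hq2 hq1
  have hsumI : IntegrableOn (fun q : ℝ × ℝ =>
      (∑ z ∈ Z0, (n z : ℝ) * Real.log ‖pnt q - z‖) + Real.log ‖G (pnt q)‖) (rct x0 x1 T) := by
    apply Integrable.add
    · exact integrable_finsetSum _ fun z hz => (hlin z hz).1.const_mul _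
    · exact hnv.1
  have hFI : IntegrableOn (fun q : ℝ × ℝ => Real.log ‖F (pnt q)‖) (rct x0 x1 T) :=
    hsumI.congr (by filter_upwards [hae] with q hq; exact hq.symm)
  refine ⟨hFI, ?_⟩
  -- products with `P`
  have hmulI : ∀ {f : ℝ × ℝ → ℝ}, IntegrableOn f (rct x0 x1 T) →
      IntegrableOn (fun q => f q * P q) (rct x0 x1 T) := by
    intro f hf
    exact hf.mul_continuousOn hPc hRc
  have hint : (∫ q in rct x0 x1 T, Real.log ‖F (pnt q)‖ * P q) =
      (∑ z ∈ Z0, (n z : ℝ) * ∫ q in rct x0 x1 T, Real.log ‖pnt q - z‖ * P q) +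
        ∫ q in rct x0 x1 T, Real.log ‖G (pnt q)‖ * P q := by
    have e1 : (∫ q in rct x0 x1 T, Real.log ‖F (pnt q)‖ * P q) =
        ∫ q in rct x0 x1 T, ((∑ z ∈ Z0, (n z : ℝ) * (Real.log ‖pnt q - z‖ * P q)) +
          Real.log ‖G (pnt q)‖ * P q) := by
      apply integral_congr_ae
      filter_upwards [hae] with q hq
      rw [hq, add_mul, Finset.sum_mul]
      congr 1
      refine Finset.sum_congr rfl fun z _ => ?_
      ring
    rw [e1, integral_add, integral_finsetSum]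
    · congr 1
      refine Finset.sum_congr rfl fun z _ => ?_
      rw [integral_const_mul]
    · intro z hz
      exact (hmulI (hlin z hz).1).const_mul _
    · exact integrable_finsetSum _ fun z hz => (hmulI (hlin z hz).1).const_mul _
    · exact hmulI hnv.1
  -- the boundary
  have hbcont : Continuous (fun t : ℝ => (x1 : ℂ) + t * I) := by fun_prop
  have hlc : ∀ z ∈ Z0, ContinuousOn (fun t : ℝ => Real.log ‖((x1 : ℂ) + t * I) - z‖ * p1 x1 t -
      p x1 t * ((((x1 : ℂ) + t * I) - z)⁻¹).re) (Icc (-T) T) := by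
    intro z hz
    apply gf_bd_cont h01 hp
    · apply ContinuousOn.log
      · fun_prop
      · intro t ht
        rw [norm_ne_zero_iff]
        exact hbne t ht z hz
    · apply Complex.continuous_re.comp_continuousOn
      apply ContinuousOn.inv₀
      · fun_prop
      · intro t ht
        exact hbne t ht z hz
  have hGcd : ContinuousOn (fun t : ℝ => G ((x1 : ℂ) + t * I)) (Icc (-T) T) :=
    hG.continuousOn.comp hbcont.continuousOn (fun t ht => hKU (hbd t ht))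
  have hGdd : ContinuousOn (fun t : ℝ => deriv G ((x1 : ℂ) + t * I)) (Icc (-T) T) :=
    (hG.deriv hU).continuousOn.comp hbcont.continuousOn (fun t ht => hKU (hbd t ht))
  have hgc : ContinuousOn (fun t : ℝ => Real.log ‖G ((x1 : ℂ) + t * I)‖ * p1 x1 t -
      p x1 t * (deriv G ((x1 : ℂ) + t * I) / G ((x1 : ℂ) + t * I)).re) (Icc (-T) T) := by
    apply gf_bd_cont h01 hp
    · apply ContinuousOn.log hGcd.norm
      intro t ht
      rw [norm_ne_zero_iff]
      exact hG0 _ (hbd t ht)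
    · apply Complex.continuous_re.comp_continuousOn
      exact hGdd.div hGcd (fun t ht => hG0 _ (hbd t ht))
  have h2 : -T ≤ T := by linarith
  have hiI : ∀ {f : ℝ → ℝ}, ContinuousOn f (Icc (-T) T) → IntervalIntegrable f volume (-T) T := by
    intro f hf
    apply ContinuousOn.intervalIntegrable
    rw [uIcc_of_le h2]
    exact hf
  have hlogd : ∀ t ∈ Icc (-T) T, deriv F ((x1 : ℂ) + t * I) / F ((x1 : ℂ) + t * I) =
      (∑ z ∈ Z0, (n z : ℂ) * (((x1 : ℂ) + t * I) - z)⁻¹) +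
        deriv G ((x1 : ℂ) + t * I) / G ((x1 : ℂ) + t * I) := by
    intro t ht
    have hfe : F = fun s => (∏ z ∈ Z0, (s - z) ^ n z) * G s := funext hfac
    rw [hfe]
    change logDeriv (fun s => (∏ z ∈ Z0, (s - z) ^ n z) * G s) ((x1 : ℂ) + t * I) = _
    have hGdiff : DifferentiableAt ℂ G ((x1 : ℂ) + t * I) :=
      (hG _ (hKU (hbd t ht))).differentiableAt (hU.mem_nhds (hKU (hbd t ht)))
    rw [logDeriv_mul]
    · have e2 : logDeriv (fun s : ℂ => ∏ z ∈ Z0, (s - z) ^ n z) ((x1 : ℂ) + t * I) =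
          ∑ z ∈ Z0, logDeriv (fun s : ℂ => (s - z) ^ n z) ((x1 : ℂ) + t * I) := by
        apply logDeriv_prod
        · intro z hz
          exact pow_ne_zero _ (hbne t ht z hz)
        · intro z hz
          fun_prop
      rw [e2]
      congr 1
      refine Finset.sum_congr rfl fun z hz => ?_
      rw [logDeriv_fun_pow (by fun_prop)]
      congr 1
      simp [logDeriv]
    · exact Finset.prod_ne_zero_iff.2 fun z hz => pow_ne_zero _ (hbne t ht z hz)
    · exact hG0 _ (hbd t ht)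
    · fun_prop
    · exact hGdiff
  have hbdint : (∫ t in (-T)..T, (Real.log ‖F ((x1 : ℂ) + t * I)‖ * p1 x1 t -
        p x1 t * (deriv F ((x1 : ℂ) + t * I) / F ((x1 : ℂ) + t * I)).re)) =
      (∑ z ∈ Z0, (n z : ℝ) * ∫ t in (-T)..T, (Real.log ‖((x1 : ℂ) + t * I) - z‖ * p1 x1 t -
        p x1 t * ((((x1 : ℂ) + t * I) - z)⁻¹).re)) +
      ∫ t in (-T)..T, (Real.log ‖G ((x1 : ℂ) + t * I)‖ * p1 x1 t -
        p x1 t * (deriv G ((x1 : ℂ) + t * I) / G ((x1 : ℂ) + t * I)).re) := by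
    have e1 : (∫ t in (-T)..T, (Real.log ‖F ((x1 : ℂ) + t * I)‖ * p1 x1 t -
        p x1 t * (deriv F ((x1 : ℂ) + t * I) / F ((x1 : ℂ) + t * I)).re)) =
        ∫ t in (-T)..T, ((∑ z ∈ Z0, (n z : ℝ) * (Real.log ‖((x1 : ℂ) + t * I) - z‖ * p1 x1 t -
          p x1 t * ((((x1 : ℂ) + t * I) - z)⁻¹).re)) +
          (Real.log ‖G ((x1 : ℂ) + t * I)‖ * p1 x1 t -
          p x1 t * (deriv G ((x1 : ℂ) + t * I) / G ((x1 : ℂ) + t * I)).re)) := by
      refine intervalIntegral.integral_congr fun t ht => ?_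
      rw [uIcc_of_le h2] at ht
      have hq : pnt (x1, t) ∉ Z0 := by
        intro hcon
        exact hbne t ht _ hcon (by simp [pnt])
      have e3 := hlogid (x1, t) ⟨⟨h01.le, le_refl _⟩, ht⟩ hq
      have e4 : pnt (x1, t) = (x1 : ℂ) + t * I := rfl
      rw [e4] at e3
      rw [e3, hlogd t ht, Complex.add_re, Complex.re_sum, add_mul, mul_add, Finset.sum_mul,
        Finset.mul_sum]
      have e5 : ∀ z ∈ Z0, ((n z : ℂ) * (((x1 : ℂ) + t * I) - z)⁻¹).re =
          (n z : ℝ) * ((((x1 : ℂ) + t * I) - z)⁻¹).re := by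
        intro z _
        rw [← Complex.ofReal_natCast, Complex.re_ofReal_mul]
      have e6 : ∑ z ∈ Z0, (n z : ℝ) * (Real.log ‖((x1 : ℂ) + t * I) - z‖ * p1 x1 t -
          p x1 t * ((((x1 : ℂ) + t * I) - z)⁻¹).re) =
          ∑ z ∈ Z0, (n z : ℝ) * Real.log ‖((x1 : ℂ) + t * I) - z‖ * p1 x1 t -
          ∑ z ∈ Z0, p x1 t * ((n z : ℂ) * (((x1 : ℂ) + t * I) - z)⁻¹).re := by
        rw [← Finset.sum_sub_distrib]
        refine Finset.sum_congr rfl fun z hz => ?_
        rw [e5 z hz]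
        ring
      rw [e6]
      ring
    rw [e1, intervalIntegral.integral_add, intervalIntegral.integral_finsetSum]
    · congr 1
      refine Finset.sum_congr rfl fun z _ => ?_
      rw [intervalIntegral.integral_const_mul]
    · intro z hz
      exact (hiI (hlc z hz)).const_mul _
    · apply hiI
      apply continuousOn_finsetSum
      intro z hz
      exact continuousOn_const.mul (hlc z hz)
    · exact hiI hgc
  rw [hint, hbdint]
  have hmain : 2 * Real.pi * ∑ z ∈ Z, p z.re z.im ≤ ∑ z ∈ Z0, (n z : ℝ) *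
      (if x0 < z.re ∧ z.re < x1 ∧ |z.im| < T then 2 * Real.pi * p z.re z.im else 0) := by
    have hsub : Z ⊆ Z0 := by
      intro z hz
      obtain ⟨h1, h3, h4, h5⟩ := hZ z hz
      refine (hZ1 z ⟨(z.re, z.im), ⟨⟨h3.le, h4.le⟩, abs_le.1 h5.le⟩, ?_⟩ h1).1
      simp [pnt]
    rw [Finset.mul_sum]
    calc ∑ z ∈ Z, 2 * Real.pi * p z.re z.im
        ≤ ∑ z ∈ Z, (n z : ℝ) *
          (if x0 < z.re ∧ z.re < x1 ∧ |z.im| < T then 2 * Real.pi * p z.re z.im else 0) := by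
          refine Finset.sum_le_sum fun z hz => ?_
          obtain ⟨h1, h3, h4, h5⟩ := hZ z hz
          rw [if_pos ⟨h3, h4, h5⟩]
          have hq : ((z.re, z.im) : ℝ × ℝ) ∈ rct x0 x1 T := ⟨⟨h3.le, h4.le⟩, abs_le.1 h5.le⟩
          have h6 : 1 ≤ n z := (hZ1 z ⟨(z.re, z.im), hq, by simp [pnt]⟩ h1).2
          have h7 : (0 : ℝ) ≤ p z.re z.im := hp.nn (z.re, z.im) hq
          have h8 : (1 : ℝ) ≤ n z := by exact_mod_cast h6
          have h9 : 0 ≤ 2 * Real.pi * p z.re z.im := by positivity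
          nlinarith
      _ ≤ _ := by
          apply Finset.sum_le_sum_of_subset_of_nonneg hsub
          intro z _ _
          apply mul_nonneg (Nat.cast_nonneg _)
          split_ifs with hc
          · have hq : ((z.re, z.im) : ℝ × ℝ) ∈ rct x0 x1 T :=
              ⟨⟨hc.1.le, hc.2.1.le⟩, abs_le.1 hc.2.2.le⟩
            have h7 : (0 : ℝ) ≤ p z.re z.im := hp.nn (z.re, z.im) hq
            positivity
          · exact le_refl _
  have hsum : ∑ z ∈ Z0, (n z : ℝ) *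
      (if x0 < z.re ∧ z.re < x1 ∧ |z.im| < T then 2 * Real.pi * p z.re z.im else 0) ≤
      ∑ z ∈ Z0, (n z : ℝ) * ((∫ q in rct x0 x1 T, Real.log ‖pnt q - z‖ * P q) -
        ∫ t in (-T)..T, (Real.log ‖((x1 : ℂ) + t * I) - z‖ * p1 x1 t -
        p x1 t * ((((x1 : ℂ) + t * I) - z)⁻¹).re)) := by
    refine Finset.sum_le_sum fun z hz => ?_
    exact mul_le_mul_of_nonneg_left (hlin z hz).2 (Nat.cast_nonneg _)
  have hsplit : ∑ z ∈ Z0, (n z : ℝ) * ((∫ q in rct x0 x1 T, Real.log ‖pnt q - z‖ * P q) -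
        ∫ t in (-T)..T, (Real.log ‖((x1 : ℂ) + t * I) - z‖ * p1 x1 t -
        p x1 t * ((((x1 : ℂ) + t * I) - z)⁻¹).re)) =
      (∑ z ∈ Z0, (n z : ℝ) * ∫ q in rct x0 x1 T, Real.log ‖pnt q - z‖ * P q) -
      ∑ z ∈ Z0, (n z : ℝ) * ∫ t in (-T)..T, (Real.log ‖((x1 : ℂ) + t * I) - z‖ * p1 x1 t -
        p x1 t * ((((x1 : ℂ) + t * I) - z)⁻¹).re) := by
    rw [← Finset.sum_sub_distrib]
    refine Finset.sum_congr rfl fun z _ => ?_
    ring
  have hnv2 := hnv.2
  change (∫ q in rct x0 x1 T, Real.log ‖G (pnt q)‖ * P q) - _ = 0 at hnv2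
  linarith

end Pool.Agent.ZR
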