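import Pool.Agent.ZR.GC

/-!
# Green's formula for a linear factor
`f_ε = (1/2) log(|s - z|² + ε²)` is `C²` with `Δ f_ε = 2ε²/(|s-z|²+ε²)²`; apply `green_c2`, let
`ε → 0`: dominated convergence (`log|s-z|` is integrable: `|log|s-z|| ≤ |log|x - z.re|| + C`), and
`liminf ∫ p Δ f_ε ≥ 2π p(z)` for interior `z` (Fatou after the substitution `s = z + ε w`;
`∫ 2/(1+|w|²)² = 2π`), `≥ 0` always as `p ≥ 0`.
-/

set_option autoImplicit false

open Complex MeasureTheory Set Finset

namespace Pool.Agent.ZR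

namespace GLx

/-- The regularised squared distance. -/
noncomputable def gg (a b e : ℝ) (x t : ℝ) : ℝ := (x - a) ^ 2 + (t - b) ^ 2 + e ^ 2

theorem gg_pos {e : ℝ} (he : 0 < e) (a b x t : ℝ) : 0 < gg a b e x t := by
  unfold gg
  positivity

theorem c2_reg (R : Set (ℝ × ℝ)) {e : ℝ} (he : 0 < e) (a b : ℝ) :
    C2On R (fun x t => 1 / 2 * Real.log (gg a b e x t)) (fun x t => (x - a) / gg a b e x t)
      (fun x t => 1 / gg a b e x t - 2 * (x - a) ^ 2 / gg a b e x t ^ 2)
      (fun x t => (t - b) / gg a b e x t)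
      (fun x t => 1 / gg a b e x t - 2 * (t - b) ^ 2 / gg a b e x t ^ 2) := by
  have hg : ∀ x t, gg a b e x t ≠ 0 := fun x t => (gg_pos he a b x t).ne'
  have hgc : Continuous (fun q : ℝ × ℝ => gg a b e q.1 q.2) := by
    unfold gg
    fun_prop
  have hx : ∀ x t, HasDerivAt (fun x => gg a b e x t) (2 * (x - a)) x := by
    intro x t
    have h1 : HasDerivAt (fun x : ℝ => x - a) 1 x := (hasDerivAt_id x).sub_const a
    have h2 := (h1.fun_pow 2).add_const ((t - b) ^ 2 + e ^ 2)
    refine (h2.congr_deriv (by simp)).congr_of_eventuallyEq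
      (Filter.Eventually.of_forall fun y => ?_)
    simp only [gg]
    ring
  have ht : ∀ x t, HasDerivAt (fun t => gg a b e x t) (2 * (t - b)) t := by
    intro x t
    have h1 : HasDerivAt (fun t : ℝ => t - b) 1 t := (hasDerivAt_id t).sub_const b
    have h2 := (h1.fun_pow 2).add_const ((x - a) ^ 2 + e ^ 2)
    refine (h2.congr_deriv (by simp)).congr_of_eventuallyEq
      (Filter.Eventually.of_forall fun y => ?_)
    simp only [gg]
    ring
  refine ⟨?_, ?_, ?_, ?_, ?_, ?_, ?_, ?_, ?_⟩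
  · intro q _
    have := ((hx q.1 q.2).log (hg q.1 q.2)).const_mul (1 / 2 : ℝ)
    exact this.congr_deriv (by ring)
  · intro q _
    have h := hg q.1 q.2
    have h1 : HasDerivAt (fun x : ℝ => x - a) 1 q.1 := (hasDerivAt_id q.1).sub_const a
    have := h1.fun_div (hx q.1 q.2) h
    exact this.congr_deriv (by field_simp)
  · intro q _
    have := ((ht q.1 q.2).log (hg q.1 q.2)).const_mul (1 / 2 : ℝ)
    exact this.congr_deriv (by ring)
  · intro q _
    have h := hg q.1 q.2
    have h1 : HasDerivAt (fun t : ℝ => t - b) 1 q.2 := (hasDerivAt_id q.2).sub_const b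
    have := h1.fun_div (ht q.1 q.2) h
    exact this.congr_deriv (by field_simp)
  · exact ((hgc.log (fun q => hg q.1 q.2)).const_mul _ |>.continuousOn)
  · exact (Continuous.div (by fun_prop) hgc (fun q => hg q.1 q.2)).continuousOn
  · exact ((Continuous.div (by fun_prop) hgc (fun q => hg q.1 q.2)).sub
      (Continuous.div (by fun_prop) (hgc.pow 2)
        (fun q => pow_ne_zero 2 (hg q.1 q.2)))).continuousOn
  · exact (Continuous.div (by fun_prop) hgc (fun q => hg q.1 q.2)).continuousOn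
  · exact ((Continuous.div (by fun_prop) hgc (fun q => hg q.1 q.2)).sub
      (Continuous.div (by fun_prop) (hgc.pow 2)
        (fun q => pow_ne_zero 2 (hg q.1 q.2)))).continuousOn

theorem lap {e : ℝ} (he : 0 < e) (a b x t : ℝ) :
    (1 / gg a b e x t - 2 * (x - a) ^ 2 / gg a b e x t ^ 2) +
      (1 / gg a b e x t - 2 * (t - b) ^ 2 / gg a b e x t ^ 2) =
      2 * e ^ 2 / gg a b e x t ^ 2 := by
  have h := (gg_pos he a b x t).ne'
  have h2 : gg a b e x t = (x - a) ^ 2 + (t - b) ^ 2 + e ^ 2 := rfl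
  field_simp
  rw [h2]
  ring

theorem disc_int (a b : ℝ) {d e : ℝ} (hd : 0 < d) (he : 0 < e) :
    ∫ q in {q : ℝ × ℝ | (q.1 - a) ^ 2 + (q.2 - b) ^ 2 < d ^ 2},
      2 * e ^ 2 / gg a b e q.1 q.2 ^ 2 = 2 * Real.pi * (d ^ 2 / (d ^ 2 + e ^ 2)) := by
  set F : ℝ × ℝ → ℝ := fun q => if q.1 ^ 2 + q.2 ^ 2 < d ^ 2 then
    2 * e ^ 2 / (q.1 ^ 2 + q.2 ^ 2 + e ^ 2) ^ 2 else 0 with hF
  have hms : MeasurableSet {q : ℝ × ℝ | (q.1 - a) ^ 2 + (q.2 - b) ^ 2 < d ^ 2} := by
    apply measurableSet_lt <;> fun_prop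
  rw [← integral_indicator hms]
  have h1 : ({q : ℝ × ℝ | (q.1 - a) ^ 2 + (q.2 - b) ^ 2 < d ^ 2}.indicator fun q =>
      2 * e ^ 2 / gg a b e q.1 q.2 ^ 2) = fun q => F (q - (a, b)) := by
    ext q
    simp only [Set.indicator, Set.mem_ofPred_eq, hF, Prod.fst_sub, Prod.snd_sub, gg]
  rw [h1, integral_sub_right_eq_self F (a, b), ← integral_comp_polarCoord_symm]
  set G : ℝ → ℝ := fun r => r * (if r ^ 2 < d ^ 2 then 2 * e ^ 2 / (r ^ 2 + e ^ 2) ^ 2 else 0)
    with hG
  have h2 : ∀ p : ℝ × ℝ, p.1 • F (polarCoord.symm p) = G p.1 * (fun _ : ℝ => (1 : ℝ)) p.2 := by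
    intro p
    have h3 : (p.1 * Real.cos p.2) ^ 2 + (p.1 * Real.sin p.2) ^ 2 = p.1 ^ 2 := by
      have := Real.cos_sq_add_sin_sq p.2
      calc (p.1 * Real.cos p.2) ^ 2 + (p.1 * Real.sin p.2) ^ 2 =
          p.1 ^ 2 * (Real.cos p.2 ^ 2 + Real.sin p.2 ^ 2) := by ring
        _ = p.1 ^ 2 := by rw [this, mul_one]
    simp only [hF, hG, polarCoord_symm_apply, h3, smul_eq_mul, mul_one]
  simp_rw [h2]
  rw [polarCoord_target, Measure.volume_eq_prod]
  refine (setIntegral_prod_mul (μ := volume) (ν := volume) G (fun _ : ℝ => (1 : ℝ))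
    (Set.Ioi 0) (Set.Ioo (-Real.pi) Real.pi)).trans ?_
  have h4 : ∫ _ in Set.Ioo (-Real.pi) Real.pi, (1 : ℝ) = 2 * Real.pi := by
    simp
    rw [max_eq_left (by linarith [Real.pi_pos])]
    ring
  have h5 : ∫ r in Set.Ioi (0 : ℝ), G r = d ^ 2 / (d ^ 2 + e ^ 2) := by
    have h6 : ∫ r in Set.Ioi (0 : ℝ), G r = ∫ r in Set.Ioc (0 : ℝ) d, G r := by
      apply setIntegral_eq_of_subset_of_forall_sdiff_eq_zero measurableSet_Ioi
      · exact Ioc_subset_Ioi_self
      · intro r hr
        have hr1 : 0 < r := hr.1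
        have hr2 : d < r := by
          by_contra hc
          exact hr.2 ⟨hr1, not_lt.mp hc⟩
        have : ¬ r ^ 2 < d ^ 2 := by
          have := pow_lt_pow_left₀ hr2 hd.le (two_ne_zero)
          linarith
        simp [hG, this]
    rw [h6, ← intervalIntegral.integral_of_le hd.le]
    have h7 : ∫ r in (0 : ℝ)..d, G r = ∫ r in (0 : ℝ)..d, 2 * e ^ 2 * r / (r ^ 2 + e ^ 2) ^ 2 := by
      apply intervalIntegral.integral_congr_ae
      have : ∀ᵐ r : ℝ, r ≠ d := by
        simp [ae_iff]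
      filter_upwards [this] with r hr hr2
      rw [uIoc_of_le hd.le] at hr2
      have hr3 : r < d := lt_of_le_of_ne hr2.2 hr
      have : r ^ 2 < d ^ 2 := pow_lt_pow_left₀ hr3 hr2.1.le two_ne_zero
      simp only [hG, this, if_true]
      ring
    rw [h7]
    have h8 : ∀ r ∈ Set.uIcc 0 d, HasDerivAt (fun r : ℝ => -(e ^ 2 / (r ^ 2 + e ^ 2)))
        (2 * e ^ 2 * r / (r ^ 2 + e ^ 2) ^ 2) r := by
      intro r _
      have hpos : r ^ 2 + e ^ 2 ≠ 0 := by positivity
      have h9 : HasDerivAt (fun r : ℝ => r ^ 2 + e ^ 2) (2 * r) r := by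
        have := (hasDerivAt_pow 2 r).add_const (e ^ 2)
        exact this.congr_deriv (by push_cast; ring)
      have := ((hasDerivAt_const r (e ^ 2)).fun_div h9 hpos).fun_neg
      exact this.congr_deriv (by field_simp; ring)
    rw [intervalIntegral.integral_eq_sub_of_hasDerivAt h8]
    · field_simp
      ring
    · apply Continuous.intervalIntegrable
      apply Continuous.div (by fun_prop) (by fun_prop)
      intro r
      positivity
  rw [h4, h5]
  ring

theorem norm_sq (q : ℝ × ℝ) (z : ℂ) : ‖pnt q - z‖ ^ 2 = (q.1 - z.re) ^ 2 + (q.2 - z.im) ^ 2 := by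
  rw [← Complex.normSq_eq_norm_sq, Complex.normSq_apply]
  simp [pnt]
  ring

theorem norm_log (q : ℝ × ℝ) (z : ℂ) :
    Real.log ‖pnt q - z‖ = 1 / 2 * Real.log ((q.1 - z.re) ^ 2 + (q.2 - z.im) ^ 2) := by
  rw [← norm_sq, Real.log_pow]
  push_cast
  ring

/-- The bound for `|log|s - z||`. -/
theorem log_bd {u v : ℝ} {K : ℝ} (hK : 1 / 2 * Real.log (u ^ 2 + v ^ 2 + 1) ≤ K) :
    |1 / 2 * Real.log (u ^ 2 + v ^ 2)| ≤ |Real.log u| + |Real.log v| + K := by
  have hK0 : 0 ≤ K := by
    refine le_trans ?_ hK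
    have : 0 ≤ Real.log (u ^ 2 + v ^ 2 + 1) := Real.log_nonneg (by nlinarith [sq_nonneg u, sq_nonneg v])
    linarith
  have hu := abs_nonneg (Real.log u)
  have hv := abs_nonneg (Real.log v)
  rcases eq_or_lt_of_le (add_nonneg (sq_nonneg u) (sq_nonneg v)) with h | h
  · rw [← h]
    simp only [Real.log_zero, mul_zero, abs_zero]
    linarith
  · rw [abs_le]
    constructor
    · rcases eq_or_ne u 0 with h0 | h0
      · subst h0
        have e1 : 1 / 2 * Real.log (0 ^ 2 + v ^ 2) = Real.log v := by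
          rw [zero_pow two_ne_zero, zero_add, Real.log_pow]
          push_cast
          ring
        rw [e1]
        have := neg_abs_le (Real.log v)
        linarith
      · have h1 : Real.log (u ^ 2) ≤ Real.log (u ^ 2 + v ^ 2) := by
          apply Real.log_le_log (by positivity)
          nlinarith [sq_nonneg v]
        rw [Real.log_pow] at h1
        push_cast at h1
        have := neg_abs_le (Real.log u)
        linarith
    · have h1 : Real.log (u ^ 2 + v ^ 2) ≤ Real.log (u ^ 2 + v ^ 2 + 1) :=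
        Real.log_le_log h (by linarith)
      linarith

theorem rct_compact (x0 x1 T : ℝ) : IsCompact (rct x0 x1 T) := isCompact_Icc.prod isCompact_Icc

theorem int_abs_log (x0 x1 T : ℝ) (a b : ℝ) :
    IntegrableOn (fun q : ℝ × ℝ => |Real.log (q.1 - a)| + |Real.log (q.2 - b)|) (rct x0 x1 T) := by
  have hl : ∀ (c y0 y1 : ℝ), IntegrableOn (fun x => |Real.log (x - c)|) (Set.Icc y0 y1) := by
    intro c y0 y1
    rcases le_or_gt y0 y1 with h | h
    · have h1 : IntervalIntegrable (fun x => Real.log (x - c)) volume y0 y1 := by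
        have := (intervalIntegral.intervalIntegrable_log' (a := y0 - c) (b := y1 - c)).comp_sub_right c
        simpa using this
      have h2 := h1.abs
      rwa [intervalIntegrable_iff_integrableOn_Icc_of_le h] at h2
    · rw [Set.Icc_eq_empty (not_le.mpr h)]
      exact integrableOn_empty
  unfold IntegrableOn rct
  rw [Measure.volume_eq_prod, ← Measure.prod_restrict]
  have : IsFiniteMeasure (volume.restrict (Set.Icc x0 x1)) := ⟨by simp⟩
  have : IsFiniteMeasure (volume.restrict (Set.Icc (-T) T)) := ⟨by simp⟩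
  exact (Integrable.comp_fst (hl a x0 x1) _).add (Integrable.comp_snd (hl b (-T) T) _)

theorem exists_K (x0 x1 T : ℝ) (a b : ℝ) : ∃ K : ℝ, 0 ≤ K ∧ ∀ q ∈ rct x0 x1 T,
    1 / 2 * Real.log ((q.1 - a) ^ 2 + (q.2 - b) ^ 2 + 1) ≤ K := by
  have hc : ContinuousOn (fun q : ℝ × ℝ => 1 / 2 * Real.log ((q.1 - a) ^ 2 + (q.2 - b) ^ 2 + 1))
      (rct x0 x1 T) := by
    apply Continuous.continuousOn
    apply Continuous.mul continuous_const
    apply Continuous.log (by fun_prop)
    intro q
    positivity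
  obtain ⟨K, hK⟩ := (rct_compact x0 x1 T).exists_bound_of_continuousOn hc
  refine ⟨|K|, abs_nonneg _, fun q hq => ?_⟩
  exact (le_abs_self _).trans ((hK q hq).trans (le_abs_self _))

theorem int_log (x0 x1 T : ℝ) (z : ℂ) :
    IntegrableOn (fun q : ℝ × ℝ => Real.log ‖pnt q - z‖) (rct x0 x1 T) := by
  obtain ⟨K, hK0, hK⟩ := exists_K x0 x1 T z.re z.im
  have hm : MeasurableSet (rct x0 x1 T) := (rct_compact x0 x1 T).isClosed.measurableSet
  have hfin : volume (rct x0 x1 T) ≠ ⊤ := (rct_compact x0 x1 T).measure_lt_top.ne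
  have hb : IntegrableOn (fun q : ℝ × ℝ => |Real.log (q.1 - z.re)| + |Real.log (q.2 - z.im)| + K)
      (rct x0 x1 T) := (int_abs_log x0 x1 T z.re z.im).add (integrableOn_const hfin)
  refine Integrable.mono' hb ?_ ?_
  · apply Measurable.aestronglyMeasurable
    have : Measurable (fun q : ℝ × ℝ => pnt q - z) := by
      apply Continuous.measurable
      unfold pnt
      fun_prop
    exact Real.measurable_log.comp this.norm
  · rw [ae_restrict_iff' hm]
    refine Filter.Eventually.of_forall (fun q hq => ?_)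
    rw [norm_log, Real.norm_eq_abs]
    exact log_bd (hK q hq)

end GLx

open Classical in
theorem green_lin {x0 x1 T : ℝ} (h01 : x0 < x1) (hT : 0 < T) {p p1 p11 p2 p22 : ℝ → ℝ → ℝ}
    (hp : Tst x0 x1 T p p1 p11 p2 p22) (z : ℂ) (hz : z.re ≠ x1 ∨ T < |z.im|) :
    IntegrableOn (fun q : ℝ × ℝ => Real.log ‖pnt q - z‖) (rct x0 x1 T) ∧
    (if x0 < z.re ∧ z.re < x1 ∧ |z.im| < T then 2 * Real.pi * p z.re z.im else 0) ≤
      (∫ q in rct x0 x1 T, Real.log ‖pnt q - z‖ * (p11 q.1 q.2 + p22 q.1 q.2)) -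
      ∫ t in (-T)..T, (Real.log ‖((x1 : ℂ) + t * I) - z‖ * p1 x1 t -
        p x1 t * ((((x1 : ℂ) + t * I) - z)⁻¹).re) := by
  have hTT : -T ≤ T := by linarith
  refine ⟨GLx.int_log x0 x1 T z, ?_⟩
  set a := z.re with ha
  set b := z.im with hb
  have hR := GLx.rct_compact x0 x1 T
  have hm : MeasurableSet (rct x0 x1 T) := hR.isClosed.measurableSet
  have hfin : volume (rct x0 x1 T) ≠ ⊤ := hR.measure_lt_top.ne
  -- the sequence
  set ε : ℕ → ℝ := fun n => 1 / ((n : ℝ) + 1) with hε
  have hε0 : ∀ n, 0 < ε n := fun n => by simp only [hε]; positivity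
  have hε1 : ∀ n, ε n ≤ 1 := fun n => by
    simp only [hε]
    rw [div_le_one (by positivity)]
    have : (0 : ℝ) ≤ n := Nat.cast_nonneg n
    linarith
  have hεt : Filter.Tendsto ε Filter.atTop (nhds 0) := tendsto_one_div_add_atTop_nhds_zero_nat
  -- Green for the regularisation
  have hgreen : ∀ n, (∫ q in rct x0 x1 T, p q.1 q.2 * (2 * ε n ^ 2 / GLx.gg a b (ε n) q.1 q.2 ^ 2)) =
      (∫ q in rct x0 x1 T, 1 / 2 * Real.log (GLx.gg a b (ε n) q.1 q.2) *
        (p11 q.1 q.2 + p22 q.1 q.2)) -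
      ∫ t in (-T)..T, (1 / 2 * Real.log (GLx.gg a b (ε n) x1 t) * p1 x1 t -
        p x1 t * ((x1 - a) / GLx.gg a b (ε n) x1 t)) := by
    intro n
    have h := green_c2 h01 hT (GLx.c2_reg (rct x0 x1 T) (hε0 n) a b) hp
    simp only [GLx.lap (hε0 n)] at h
    linarith
  -- the area term converges
  obtain ⟨M, hM⟩ := hR.exists_bound_of_continuousOn (hp.c2.c11.add hp.c2.c22)
  obtain ⟨K, hK0, hK⟩ := GLx.exists_K x0 x1 T a b
  have hMabs : ∀ q ∈ rct x0 x1 T, |p11 q.1 q.2 + p22 q.1 q.2| ≤ |M| := fun q hq =>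
    (hM q hq).trans (le_abs_self M)
  have hne : ∀ᵐ q : ℝ × ℝ, q ≠ (a, b) := compl_mem_ae_iff.mpr (measure_singleton _)
  have hpos : ∀ q : ℝ × ℝ, q ≠ (a, b) → 0 < (q.1 - a) ^ 2 + (q.2 - b) ^ 2 := by
    intro q hq
    rcases eq_or_ne q.1 a with h1 | h1
    · have h2 : q.2 ≠ b := fun h2 => hq (Prod.ext h1 h2)
      have := sq_pos_of_ne_zero (sub_ne_zero.mpr h2)
      nlinarith [sq_nonneg (q.1 - a)]
    · have := sq_pos_of_ne_zero (sub_ne_zero.mpr h1)
      nlinarith [sq_nonneg (q.2 - b)]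
  have hA : Filter.Tendsto (fun n => ∫ q in rct x0 x1 T,
      1 / 2 * Real.log (GLx.gg a b (ε n) q.1 q.2) * (p11 q.1 q.2 + p22 q.1 q.2)) Filter.atTop
      (nhds (∫ q in rct x0 x1 T, Real.log ‖pnt q - z‖ * (p11 q.1 q.2 + p22 q.1 q.2))) := by
    apply tendsto_integral_of_dominated_convergence
      (fun q : ℝ × ℝ => (|Real.log (q.1 - a)| + |Real.log (q.2 - b)| + K) * |M|)
    · intro n
      apply ContinuousOn.aestronglyMeasurable _ hm
      exact (GLx.c2_reg (rct x0 x1 T) (hε0 n) a b).c.mul (hp.c2.c11.add hp.c2.c22)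
    · exact ((GLx.int_abs_log x0 x1 T a b).add (integrableOn_const hfin)).mul_const _
    · intro n
      rw [ae_restrict_iff' hm]
      filter_upwards [hne] with q hqne hq
      rw [norm_mul, Real.norm_eq_abs, Real.norm_eq_abs]
      apply mul_le_mul _ (hMabs q hq) (abs_nonneg _) (by positivity)
      have hg := GLx.gg_pos (hε0 n) a b q.1 q.2
      have hup : 1 / 2 * Real.log (GLx.gg a b (ε n) q.1 q.2) ≤ K := by
        refine le_trans ?_ (hK q hq)
        have : GLx.gg a b (ε n) q.1 q.2 ≤ (q.1 - a) ^ 2 + (q.2 - b) ^ 2 + 1 := by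
          unfold GLx.gg
          have := hε1 n
          have h0 := hε0 n
          nlinarith
        have := Real.log_le_log hg this
        linarith
      have hab := GLx.log_bd (hK q hq)
      have hu := abs_nonneg (Real.log (q.1 - a))
      have hv := abs_nonneg (Real.log (q.2 - b))
      rw [abs_le]
      constructor
      · have h1 : Real.log ((q.1 - a) ^ 2 + (q.2 - b) ^ 2) ≤
            Real.log (GLx.gg a b (ε n) q.1 q.2) := by
          apply Real.log_le_log (hpos q hqne)
          unfold GLx.gg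
          nlinarith [sq_nonneg (ε n)]
        have := (abs_le.mp hab).1
        linarith
      · linarith
    · apply ae_restrict_of_ae
      filter_upwards [hne] with q hqne
      apply Filter.Tendsto.mul_const
      rw [GLx.norm_log]
      apply Filter.Tendsto.const_mul
      apply ((Real.continuousAt_log (hpos q hqne).ne').tendsto).comp
      have : Filter.Tendsto (fun n => (q.1 - a) ^ 2 + (q.2 - b) ^ 2 + ε n ^ 2) Filter.atTop
          (nhds ((q.1 - a) ^ 2 + (q.2 - b) ^ 2 + 0 ^ 2)) :=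
        tendsto_const_nhds.add (hεt.pow 2)
      simpa [GLx.gg] using this
  -- the boundary term converges
  have hd : ∀ t : ℝ, |t| ≤ T → 0 < (x1 - a) ^ 2 + (t - b) ^ 2 := by
    intro t ht
    rcases hz with h | h
    · have := sq_pos_of_ne_zero (sub_ne_zero.mpr h.symm)
      nlinarith [sq_nonneg (t - b)]
    · have h1 : t - b ≠ 0 := by
        intro h2
        have : t = b := by linarith
        rw [this] at ht
        linarith
      have := sq_pos_of_ne_zero h1
      nlinarith [sq_nonneg (x1 - a)]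
  have hIcc : ∀ t ∈ Set.Icc (-T) T, (x1, t) ∈ rct x0 x1 T := fun t ht =>
    ⟨⟨h01.le, le_rfl⟩, ht⟩
  have hmap : ContinuousOn (fun t : ℝ => ((x1, t) : ℝ × ℝ)) (Set.Icc (-T) T) := by fun_prop
  have hp1c : ContinuousOn (fun t : ℝ => p1 x1 t) (Set.Icc (-T) T) :=
    hp.c2.c1.comp hmap hIcc
  have hpc : ContinuousOn (fun t : ℝ => p x1 t) (Set.Icc (-T) T) :=
    hp.c2.c.comp hmap hIcc
  have hB : Filter.Tendsto (fun n => ∫ t in (-T)..T,
      (1 / 2 * Real.log (GLx.gg a b (ε n) x1 t) * p1 x1 t -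
        p x1 t * ((x1 - a) / GLx.gg a b (ε n) x1 t))) Filter.atTop
      (nhds (∫ t in (-T)..T, (Real.log ‖((x1 : ℂ) + t * I) - z‖ * p1 x1 t -
        p x1 t * ((((x1 : ℂ) + t * I) - z)⁻¹).re))) := by
    simp only [intervalIntegral.integral_of_le hTT]
    have hlc : ∀ c : ℝ, 0 ≤ c → ContinuousOn (fun t : ℝ => Real.log ((x1 - a) ^ 2 +
        (t - b) ^ 2 + c)) (Set.Icc (-T) T) := by
      intro c hc
      apply ContinuousOn.log (by fun_prop)
      intro t ht
      have := hd t (abs_le.mpr ht)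
      positivity
    have hbc : ContinuousOn (fun t : ℝ => (|Real.log ((x1 - a) ^ 2 + (t - b) ^ 2 + 0)| +
        |Real.log ((x1 - a) ^ 2 + (t - b) ^ 2 + 1)|) * |p1 x1 t| +
        |p x1 t| * (|x1 - a| / ((x1 - a) ^ 2 + (t - b) ^ 2))) (Set.Icc (-T) T) := by
      apply ContinuousOn.add
      · exact ((hlc 0 le_rfl).abs.add (hlc 1 zero_le_one).abs).mul hp1c.abs
      · apply hpc.abs.mul
        apply ContinuousOn.div continuousOn_const (by fun_prop)
        intro t ht
        exact (hd t (abs_le.mpr ht)).ne'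
    apply tendsto_integral_of_dominated_convergence
      (fun t : ℝ => (|Real.log ((x1 - a) ^ 2 + (t - b) ^ 2 + 0)| +
        |Real.log ((x1 - a) ^ 2 + (t - b) ^ 2 + 1)|) * |p1 x1 t| +
        |p x1 t| * (|x1 - a| / ((x1 - a) ^ 2 + (t - b) ^ 2)))
    · intro n
      apply ContinuousOn.aestronglyMeasurable _ measurableSet_Ioc
      apply ContinuousOn.mono _ Set.Ioc_subset_Icc_self
      have hg : ∀ t, GLx.gg a b (ε n) x1 t ≠ 0 := fun t => (GLx.gg_pos (hε0 n) a b x1 t).ne'
      have hgc : Continuous (fun t => GLx.gg a b (ε n) x1 t) := by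
        unfold GLx.gg
        fun_prop
      apply ContinuousOn.sub
      · exact ((hgc.log hg).const_mul _ |>.continuousOn).mul hp1c
      · exact hpc.mul (continuous_const.div hgc hg).continuousOn
    · exact (hbc.integrableOn_compact isCompact_Icc).mono_set Set.Ioc_subset_Icc_self
    · intro n
      rw [ae_restrict_iff' measurableSet_Ioc]
      refine Filter.Eventually.of_forall (fun t ht => ?_)
      have ht' : |t| ≤ T := abs_le.mpr ⟨ht.1.le, ht.2⟩
      have hdt := hd t ht'
      have hg := GLx.gg_pos (hε0 n) a b x1 t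
      have hlow : (x1 - a) ^ 2 + (t - b) ^ 2 ≤ GLx.gg a b (ε n) x1 t := by
        unfold GLx.gg
        nlinarith [sq_nonneg (ε n)]
      have hupp : GLx.gg a b (ε n) x1 t ≤ (x1 - a) ^ 2 + (t - b) ^ 2 + 1 := by
        unfold GLx.gg
        have := hε1 n
        have h0 := hε0 n
        nlinarith
      have hl1 := Real.log_le_log hdt hlow
      have hl2 := Real.log_le_log hg hupp
      have habs : |1 / 2 * Real.log (GLx.gg a b (ε n) x1 t)| ≤
          |Real.log ((x1 - a) ^ 2 + (t - b) ^ 2 + 0)| +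
          |Real.log ((x1 - a) ^ 2 + (t - b) ^ 2 + 1)| := by
        rw [add_zero]
        have e1 := neg_abs_le (Real.log ((x1 - a) ^ 2 + (t - b) ^ 2))
        have e2 := le_abs_self (Real.log ((x1 - a) ^ 2 + (t - b) ^ 2 + 1))
        have e3 := abs_nonneg (Real.log ((x1 - a) ^ 2 + (t - b) ^ 2))
        have e4 := abs_nonneg (Real.log ((x1 - a) ^ 2 + (t - b) ^ 2 + 1))
        rw [abs_le]
        constructor <;> linarith
      calc ‖1 / 2 * Real.log (GLx.gg a b (ε n) x1 t) * p1 x1 t -
            p x1 t * ((x1 - a) / GLx.gg a b (ε n) x1 t)‖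
          ≤ |1 / 2 * Real.log (GLx.gg a b (ε n) x1 t) * p1 x1 t| +
            |p x1 t * ((x1 - a) / GLx.gg a b (ε n) x1 t)| := by
            rw [Real.norm_eq_abs]
            exact abs_sub _ _
        _ ≤ _ := by
            rw [abs_mul, abs_mul (p x1 t), abs_div, abs_of_pos hg]
            apply add_le_add
            · exact mul_le_mul_of_nonneg_right habs (abs_nonneg _)
            · apply mul_le_mul_of_nonneg_left _ (abs_nonneg _)
              exact div_le_div_of_nonneg_left (abs_nonneg _) hdt hlow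
    · rw [ae_restrict_iff' measurableSet_Ioc]
      refine Filter.Eventually.of_forall (fun t ht => ?_)
      have ht' : |t| ≤ T := abs_le.mpr ⟨ht.1.le, ht.2⟩
      have hdt := hd t ht'
      have hgt : Filter.Tendsto (fun n => GLx.gg a b (ε n) x1 t) Filter.atTop
          (nhds ((x1 - a) ^ 2 + (t - b) ^ 2)) := by
        have : Filter.Tendsto (fun n => (x1 - a) ^ 2 + (t - b) ^ 2 + ε n ^ 2) Filter.atTop
            (nhds ((x1 - a) ^ 2 + (t - b) ^ 2 + 0 ^ 2)) :=
          tendsto_const_nhds.add (hεt.pow 2)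
        simpa [GLx.gg] using this
      apply Filter.Tendsto.sub
      · apply Filter.Tendsto.mul_const
        have e1 : ((x1 : ℂ) + t * I) - z = pnt (x1, t) - z := rfl
        rw [e1, GLx.norm_log]
        apply Filter.Tendsto.const_mul
        exact ((Real.continuousAt_log hdt.ne').tendsto).comp hgt
      · apply Filter.Tendsto.const_mul
        have e1 : ((((x1 : ℂ) + t * I) - z)⁻¹).re = (x1 - a) / ((x1 - a) ^ 2 + (t - b) ^ 2) := by
          rw [Complex.inv_re, Complex.normSq_apply]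
          simp only [Complex.sub_re, Complex.add_re, Complex.ofReal_re, Complex.mul_re,
            Complex.I_re, mul_zero, Complex.ofReal_im, Complex.I_im, mul_one, sub_self, add_zero,
            Complex.sub_im, Complex.add_im, Complex.mul_im, zero_add, ← ha, ← hb]
          congr 1
          ring
        rw [e1]
        exact tendsto_const_nhds.div hgt hdt.ne'
  have hC := hA.sub hB
  simp only [← hgreen] at hC
  have hnn : ∀ q ∈ rct x0 x1 T, ∀ n, 0 ≤ p q.1 q.2 * (2 * ε n ^ 2 /
      GLx.gg a b (ε n) q.1 q.2 ^ 2) := fun q hq n => mul_nonneg (hp.nn q hq) (by positivity)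
  have hint : ∀ n, IntegrableOn (fun q : ℝ × ℝ => p q.1 q.2 * (2 * ε n ^ 2 /
      GLx.gg a b (ε n) q.1 q.2 ^ 2)) (rct x0 x1 T) := by
    intro n
    refine ContinuousOn.integrableOn_compact hR ?_
    apply hp.c2.c.mul
    apply Continuous.continuousOn
    have hgc : Continuous (fun q : ℝ × ℝ => GLx.gg a b (ε n) q.1 q.2) := by
      unfold GLx.gg
      fun_prop
    exact continuous_const.div (hgc.pow 2)
      (fun q => pow_ne_zero 2 (GLx.gg_pos (hε0 n) a b q.1 q.2).ne')
  split_ifs with hin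
  · -- interior point
    obtain ⟨hi1, hi2, hi3⟩ := hin
    have hzR : ((a, b) : ℝ × ℝ) ∈ rct x0 x1 T := ⟨⟨hi1.le, hi2.le⟩, abs_le.mp hi3.le⟩
    apply le_of_forall_pos_le_add
    intro η hη
    set η' := η / (2 * Real.pi) with hη'
    have hη'0 : 0 < η' := by positivity
    -- a small disc
    have hcont := hp.c2.c (a, b) hzR
    rw [Metric.continuousWithinAt_iff] at hcont
    obtain ⟨δ1, hδ1, hδ1'⟩ := hcont η' hη'0
    obtain ⟨δ, hδ0, hδa, hδb, hδc, hδd⟩ : ∃ δ : ℝ, 0 < δ ∧ δ < δ1 ∧ δ ≤ a - x0 ∧ δ ≤ x1 - a ∧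
        δ ≤ T - |b| := by
      refine ⟨min (min (δ1 / 2) (a - x0)) (min (x1 - a) (T - |b|)), ?_, ?_, ?_, ?_, ?_⟩
      · simp only [lt_min_iff]
        exact ⟨⟨by linarith, by linarith⟩, ⟨by linarith, by linarith⟩⟩
      · exact lt_of_le_of_lt ((min_le_left _ _).trans (min_le_left _ _)) (by linarith)
      · exact (min_le_left _ _).trans (min_le_right _ _)
      · exact (min_le_right _ _).trans (min_le_left _ _)
      · exact (min_le_right _ _).trans (min_le_right _ _)
    set D : Set (ℝ × ℝ) := {q | (q.1 - a) ^ 2 + (q.2 - b) ^ 2 < δ ^ 2} with hD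
    have hDm : MeasurableSet D := by
      apply measurableSet_lt <;> fun_prop
    have hDin : ∀ q ∈ D, |q.1 - a| < δ ∧ |q.2 - b| < δ := by
      intro q hq
      have hq' : (q.1 - a) ^ 2 + (q.2 - b) ^ 2 < δ ^ 2 := hq
      constructor
      · apply abs_lt_of_sq_lt_sq _ hδ0.le
        nlinarith [sq_nonneg (q.2 - b)]
      · apply abs_lt_of_sq_lt_sq _ hδ0.le
        nlinarith [sq_nonneg (q.1 - a)]
    have hDR : D ⊆ rct x0 x1 T := by
      intro q hq
      obtain ⟨h1, h2⟩ := hDin q hq
      rw [abs_lt] at h1 h2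
      have h3 := neg_abs_le b
      have h4 := le_abs_self b
      exact ⟨⟨by linarith, by linarith⟩, ⟨by linarith, by linarith⟩⟩
    set m := max (p a b - η') 0 with hm'
    have hm0 : 0 ≤ m := le_max_right _ _
    have hpm : ∀ q ∈ D, m ≤ p q.1 q.2 := by
      intro q hq
      apply max_le
      · have h1 := hDin q hq
        have h2 : dist q (a, b) < δ1 := by
          rw [Prod.dist_eq, max_lt_iff, Real.dist_eq, Real.dist_eq]
          exact ⟨h1.1.trans hδa, h1.2.trans hδa⟩
        have h3 := hδ1' (hDR hq) h2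
        rw [Real.dist_eq, abs_lt] at h3
        linarith [h3.1]
      · exact hp.nn q (hDR hq)
    have hlow : ∀ n, m * (2 * Real.pi * (δ ^ 2 / (δ ^ 2 + ε n ^ 2))) ≤
        ∫ q in rct x0 x1 T, p q.1 q.2 * (2 * ε n ^ 2 / GLx.gg a b (ε n) q.1 q.2 ^ 2) := by
      intro n
      rw [← GLx.disc_int a b hδ0 (hε0 n), ← integral_const_mul]
      have hcD : IntegrableOn (fun q : ℝ × ℝ => m * (2 * ε n ^ 2 /
          GLx.gg a b (ε n) q.1 q.2 ^ 2)) D := by
        refine IntegrableOn.mono_set ?_ hDR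
        refine ContinuousOn.integrableOn_compact hR ?_
        apply Continuous.continuousOn
        apply continuous_const.mul
        have hgc : Continuous (fun q : ℝ × ℝ => GLx.gg a b (ε n) q.1 q.2) := by
          unfold GLx.gg
          fun_prop
        exact continuous_const.div (hgc.pow 2)
          (fun q => pow_ne_zero 2 (GLx.gg_pos (hε0 n) a b q.1 q.2).ne')
      calc ∫ q in D, m * (2 * ε n ^ 2 / GLx.gg a b (ε n) q.1 q.2 ^ 2)
          ≤ ∫ q in D, p q.1 q.2 * (2 * ε n ^ 2 / GLx.gg a b (ε n) q.1 q.2 ^ 2) := by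
            apply setIntegral_mono_on hcD ((hint n).mono_set hDR) hDm
            intro q hq
            exact mul_le_mul_of_nonneg_right (hpm q hq) (by positivity)
        _ ≤ _ := by
            apply setIntegral_mono_set (hint n)
            · rw [Filter.EventuallyLE, ae_restrict_iff' hm]
              exact Filter.Eventually.of_forall (fun q hq => hnn q hq n)
            · exact Filter.Eventually.of_forall hDR
    have hlim : Filter.Tendsto (fun n => m * (2 * Real.pi * (δ ^ 2 / (δ ^ 2 + ε n ^ 2))))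
        Filter.atTop (nhds (m * (2 * Real.pi * (δ ^ 2 / (δ ^ 2 + 0 ^ 2))))) := by
      apply Filter.Tendsto.const_mul
      apply Filter.Tendsto.const_mul
      exact tendsto_const_nhds.div (tendsto_const_nhds.add (hεt.pow 2)) (by positivity)
    have hfinal := le_of_tendsto_of_tendsto' hlim hC hlow
    have e1 : δ ^ 2 / (δ ^ 2 + 0 ^ 2) = 1 := by
      field_simp
      ring
    rw [e1] at hfinal
    have e2 : p a b - η' ≤ m := le_max_left _ _
    have e3 : 2 * Real.pi * η' = η := by
      rw [hη']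
      field_simp
    have e4 : 2 * Real.pi * (p a b - η') ≤ m * (2 * Real.pi * 1) := by
      have := mul_le_mul_of_nonneg_left e2 (by positivity : (0 : ℝ) ≤ 2 * Real.pi)
      linarith
    have e5 : 2 * Real.pi * (p a b - η') = 2 * Real.pi * p a b - η := by
      rw [mul_sub, e3]
    linarith
  · exact ge_of_tendsto' hC (fun n => setIntegral_nonneg hm (fun q hq => hnn q hq n))

end Pool.Agent.ZR
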