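import Pool.Agent.ZR.GF
import Pool.Agent.ZR.GD

/-!
# The sum of `|D(ρ)|²` over zeros
`green_ineq` with `dh_tst`; `log ‖F‖ ≤ log⁺ ‖F‖`, `0 ≤ wt ≤ 1`.
-/

set_option autoImplicit false

open Complex MeasureTheory Set Finset

namespace Pool.Agent.ZR

theorem zd_green {F : ℂ → ℂ} {σ T : ℝ} (hσ : 2 / 5 ≤ σ) (hσ3 : σ < 3) (hT : 1 ≤ T)
    (hF : ∀ s : ℂ, -1 < s.re → DifferentiableAt ℂ F s)
    (hF3 : ∀ t : ℝ, F (((3 : ℝ) : ℂ) + t * I) ≠ 0) (S : Finset ℕ) (C ν : ℕ → ℝ) (Z : Finset ℂ)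
    (hZ : ∀ z ∈ Z, F z = 0 ∧ σ < z.re ∧ z.re < 3 ∧ |z.im| < T) :
    2 * Real.pi * ∑ z ∈ Z, ‖Dh S C ν (z.re - σ) z.im‖ ^ 2 * wt T z.im ≤
      4 * (∫ q in rct σ 3 T, Real.posLog ‖F (pnt q)‖ * (‖Da S C ν (q.1 - σ) q.2‖ ^ 2 +
          ‖Db S C ν (q.1 - σ) q.2‖ ^ 2)) +
      200 * (∑ m ∈ S, |C m| * (1 + |ν m|) * Real.exp (3 * |ν m|)) ^ 2 / T *
        (∫ q in rct σ 3 T, |Real.log ‖F (pnt q)‖|) +
      200 * (∑ m ∈ S, |C m| * (1 + |ν m|) * Real.exp (3 * |ν m|)) ^ 2 *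
        ∫ t in (-T)..T, (|Real.log ‖F (((3 : ℝ) : ℂ) + t * I)‖| +
          ‖deriv F (((3 : ℝ) : ℂ) + t * I) / F (((3 : ℝ) : ℂ) + t * I)‖) := by
  have hT0 : 0 < T := by linarith
  have hTT : -T ≤ T := by linarith
  obtain ⟨p1, p11, p2, p22, hp, hb⟩ := dh_tst S C ν (by linarith : 0 ≤ σ) hσ3 hT
  set E := 200 * (∑ m ∈ S, |C m| * (1 + |ν m|) * Real.exp (3 * |ν m|)) ^ 2 with hE
  obtain ⟨hint, key⟩ := green_ineq hσ3 hT0 hp (a := -1) (by linarith) hF (fun t _ => hF3 t) Z hZ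
  set A : ℝ × ℝ → ℝ := fun q => ‖Da S C ν (q.1 - σ) q.2‖ ^ 2 + ‖Db S C ν (q.1 - σ) q.2‖ ^ 2 with hA
  have cA : Continuous A := by
    have c1 : Continuous (fun q : ℝ × ℝ => Da S C ν (q.1 - σ) q.2) := by
      unfold Da
      refine continuous_finsetSum _ fun m _ => ?_
      refine (Complex.continuous_ofReal.comp ?_).mul ?_
      · exact continuous_const.mul (Real.continuous_exp.comp (by fun_prop))
      · fun_prop
    have c2 : Continuous (fun q : ℝ × ℝ => Db S C ν (q.1 - σ) q.2) := by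
      unfold Db
      refine continuous_finsetSum _ fun m _ => ?_
      refine (Complex.continuous_ofReal.comp ?_).mul ?_
      · exact continuous_const.mul (Real.continuous_exp.comp (by fun_prop))
      · fun_prop
    exact (c1.norm.pow 2).add (c2.norm.pow 2)
  have hA0 : ∀ q, 0 ≤ A q := fun q => by simp only [A]; positivity
  have cw : Continuous (fun q : ℝ × ℝ => wt T q.2) := by unfold wt; fun_prop
  have hK := gc_compact σ 3 T
  have hmeas : MeasurableSet (rct σ 3 T) := hK.measurableSet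
  have hE0 : 0 ≤ E := by rw [hE]; positivity
  -- the two dimensional part
  have i1 : IntegrableOn (fun q : ℝ × ℝ => Real.log ‖F (pnt q)‖ * (wt T q.2 * (4 * A q)))
      (rct σ 3 T) := by
    exact hint.mul_continuousOn (cw.mul (continuous_const.mul cA)).continuousOn hK
  have i2 : IntegrableOn (fun q : ℝ × ℝ => Real.log ‖F (pnt q)‖ * (p11 q.1 q.2 + p22 q.1 q.2))
      (rct σ 3 T) := hint.mul_continuousOn (hp.c2.c11.add hp.c2.c22) hK
  have i3 : IntegrableOn (fun q : ℝ × ℝ => |Real.log ‖F (pnt q)‖|) (rct σ 3 T) := hint.abs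
  have i4 : IntegrableOn (fun q : ℝ × ℝ => Real.posLog ‖F (pnt q)‖ * A q) (rct σ 3 T) := by
    refine IntegrableOn.mul_continuousOn ?_ cA.continuousOn hK
    have := hint.pos_part
    refine this.congr (Filter.Eventually.of_forall fun q => ?_)
    simp only [Real.posLog_def]
    exact max_comm _ _
  have part1 : (∫ q in rct σ 3 T, Real.log ‖F (pnt q)‖ * (p11 q.1 q.2 + p22 q.1 q.2)) ≤
      4 * (∫ q in rct σ 3 T, Real.posLog ‖F (pnt q)‖ * A q) +
        E / T * (∫ q in rct σ 3 T, |Real.log ‖F (pnt q)‖|) := by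
    rw [← integral_const_mul, ← integral_const_mul, ← integral_add (i4.const_mul 4) (i3.const_mul (E / T))]
    refine setIntegral_mono_on i2 ((i4.const_mul 4).add (i3.const_mul (E / T))) hmeas fun q hq => ?_
    obtain ⟨_, _, h3⟩ := hb q hq
    have w01 := gd_w_le hT0 (abs_le.2 hq.2)
    set lg := Real.log ‖F (pnt q)‖ with hlg
    have e : lg * (p11 q.1 q.2 + p22 q.1 q.2) = lg * (wt T q.2 * (4 * A q)) +
        lg * (p11 q.1 q.2 + p22 q.1 q.2 - wt T q.2 * (4 * A q)) := by ring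
    have b1 : lg * (wt T q.2 * (4 * A q)) ≤ 4 * (Real.posLog ‖F (pnt q)‖ * A q) := by
      have c1 : lg ≤ Real.posLog ‖F (pnt q)‖ := le_max_right _ _
      have c0 : 0 ≤ Real.posLog ‖F (pnt q)‖ := Real.posLog_nonneg
      have c3 : 0 ≤ 4 * A q := by linarith [hA0 q]
      calc lg * (wt T q.2 * (4 * A q)) ≤ Real.posLog ‖F (pnt q)‖ * (wt T q.2 * (4 * A q)) :=
            mul_le_mul_of_nonneg_right c1 (mul_nonneg w01.1 c3)
        _ ≤ Real.posLog ‖F (pnt q)‖ * (1 * (4 * A q)) :=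
            mul_le_mul_of_nonneg_left (mul_le_mul_of_nonneg_right w01.2 c3) c0
        _ = _ := by ring
    have b2 : lg * (p11 q.1 q.2 + p22 q.1 q.2 - wt T q.2 * (4 * A q)) ≤ E / T * |lg| := by
      calc _ ≤ |lg * (p11 q.1 q.2 + p22 q.1 q.2 - wt T q.2 * (4 * A q))| := le_abs_self _
        _ = |lg| * |p11 q.1 q.2 + p22 q.1 q.2 - wt T q.2 * (4 * A q)| := abs_mul _ _
        _ ≤ |lg| * (E / T) := mul_le_mul_of_nonneg_left h3 (abs_nonneg _)
        _ = _ := mul_comm _ _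
    rw [e]
    exact add_le_add b1 b2
  -- the boundary part
  have hline : ∀ t : ℝ, -1 < ((((3 : ℝ) : ℂ) + t * I)).re := by
    intro t; simp; norm_num
  have hopen : IsOpen {s : ℂ | -1 < s.re} := isOpen_lt continuous_const Complex.continuous_re
  have hFd : DifferentiableOn ℂ F {s : ℂ | -1 < s.re} := fun s hs => (hF s hs).differentiableWithinAt
  have cl : Continuous (fun t : ℝ => (((3 : ℝ) : ℂ) + t * I)) := by fun_prop
  have cF3 : Continuous (fun t : ℝ => F (((3 : ℝ) : ℂ) + t * I)) :=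
    hFd.continuousOn.comp_continuous cl hline
  have cdF3 : Continuous (fun t : ℝ => deriv F (((3 : ℝ) : ℂ) + t * I)) :=
    (hFd.deriv hopen).continuousOn.comp_continuous cl hline
  have clog : Continuous (fun t : ℝ => Real.log ‖F (((3 : ℝ) : ℂ) + t * I)‖) :=
    cF3.norm.log (fun t => norm_ne_zero_iff.2 (hF3 t))
  have cquo : Continuous (fun t : ℝ => deriv F (((3 : ℝ) : ℂ) + t * I) / F (((3 : ℝ) : ℂ) + t * I)) :=
    cdF3.div cF3 hF3
  have hmem : ∀ t ∈ Icc (-T) T, ((3 : ℝ), t) ∈ rct σ 3 T := fun t ht => ⟨⟨hσ3.le, le_refl _⟩, ht⟩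
  have cp1 : ContinuousOn (fun t => p1 3 t) (Icc (-T) T) :=
    hp.c2.c1.comp (f := fun t : ℝ => ((3:ℝ), t)) (by fun_prop) hmem
  have cp0 : ContinuousOn (fun t => ‖Dh S C ν (3 - σ) t‖ ^ 2 * wt T t) (Icc (-T) T) :=
    hp.c2.c.comp (f := fun t : ℝ => ((3:ℝ), t)) (by fun_prop) hmem
  have part2 : -(∫ t in (-T)..T, (Real.log ‖F (((3 : ℝ) : ℂ) + t * I)‖ * p1 3 t -
        (‖Dh S C ν (3 - σ) t‖ ^ 2 * wt T t) *
          (deriv F (((3 : ℝ) : ℂ) + t * I) / F (((3 : ℝ) : ℂ) + t * I)).re)) ≤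
      E * ∫ t in (-T)..T, (|Real.log ‖F (((3 : ℝ) : ℂ) + t * I)‖| +
          ‖deriv F (((3 : ℝ) : ℂ) + t * I) / F (((3 : ℝ) : ℂ) + t * I)‖) := by
    rw [← intervalIntegral.integral_neg, ← intervalIntegral.integral_const_mul]
    refine intervalIntegral.integral_mono_on hTT ?_ ?_ ?_
    · apply ContinuousOn.intervalIntegrable
      rw [uIcc_of_le hTT]
      exact ((clog.continuousOn.mul cp1).sub
        (cp0.mul (Complex.continuous_re.comp cquo).continuousOn)).neg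
    · exact (continuous_const.mul (clog.abs.add cquo.norm)).intervalIntegrable _ _
    · intro t ht
      obtain ⟨h1, h2, _⟩ := hb (3, t) (hmem t ht)
      simp only at h1 h2
      have h0 : 0 ≤ ‖Dh S C ν (3 - σ) t‖ ^ 2 * wt T t :=
        mul_nonneg (by positivity) (gd_w_le hT0 (abs_le.2 ht)).1
      have b1 : -(Real.log ‖F (((3 : ℝ) : ℂ) + t * I)‖ * p1 3 t) ≤
          E * |Real.log ‖F (((3 : ℝ) : ℂ) + t * I)‖| := by
        calc _ ≤ |Real.log ‖F (((3 : ℝ) : ℂ) + t * I)‖ * p1 3 t| := neg_le_abs _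
          _ = |Real.log ‖F (((3 : ℝ) : ℂ) + t * I)‖| * |p1 3 t| := abs_mul _ _
          _ ≤ |Real.log ‖F (((3 : ℝ) : ℂ) + t * I)‖| * E := mul_le_mul_of_nonneg_left h2 (abs_nonneg _)
          _ = _ := mul_comm _ _
      have b2 : (‖Dh S C ν (3 - σ) t‖ ^ 2 * wt T t) *
          (deriv F (((3 : ℝ) : ℂ) + t * I) / F (((3 : ℝ) : ℂ) + t * I)).re ≤
          E * ‖deriv F (((3 : ℝ) : ℂ) + t * I) / F (((3 : ℝ) : ℂ) + t * I)‖ := by
        calc _ ≤ (‖Dh S C ν (3 - σ) t‖ ^ 2 * wt T t) *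
            ‖deriv F (((3 : ℝ) : ℂ) + t * I) / F (((3 : ℝ) : ℂ) + t * I)‖ :=
              mul_le_mul_of_nonneg_left (Complex.re_le_norm _) h0
          _ ≤ _ := mul_le_mul_of_nonneg_right h1 (norm_nonneg _)
      rw [mul_add]
      linarith
  have key2 : 2 * Real.pi * ∑ z ∈ Z, ‖Dh S C ν (z.re - σ) z.im‖ ^ 2 * wt T z.im ≤
      (∫ q in rct σ 3 T, Real.log ‖F (pnt q)‖ * (p11 q.1 q.2 + p22 q.1 q.2)) -
      ∫ t in (-T)..T, (Real.log ‖F (((3 : ℝ) : ℂ) + t * I)‖ * p1 3 t -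
        (‖Dh S C ν (3 - σ) t‖ ^ 2 * wt T t) *
          (deriv F (((3 : ℝ) : ℂ) + t * I) / F (((3 : ℝ) : ℂ) + t * I)).re) := key
  linarith [part1, part2, key2]

end Pool.Agent.ZR
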