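import Pool.Agent.ZR.Defs

/-!
# Integrability of `log |F|`
Discs with centres `3 + ij`, `|j| ≤ T + 1`, radius 3 cover the rectangle. On such a disc
`∫ log ‖F‖ ≥ 9π log ‖F(centre)‖` (Jensen: `circleAverage (log ‖F‖) c r ≥ log ‖F c‖`, polar coordinates, cf.
`Pool.Agent.H6.SubMean.disc_sub_mean`), hence `∫ |log ‖F‖| = 2 ∫ log⁺ - ∫ log ≤ 18π H + 9π H'`.
-/

set_option autoImplicit false

open Complex MeasureTheory Set Finset

namespace Pool.Agent.ZR

namespace LIx

open Metric MeromorphicOn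
open scoped Real ENNReal

/-- Jensen's inequality. -/
lemma jensen_le {F : ℂ → ℂ} {c : ℂ} {r : ℝ} (hr : 0 < r)
    (hF : AnalyticOnNhd ℂ F (closedBall c r)) (hc : F c ≠ 0) :
    Real.log ‖F c‖ ≤ Real.circleAverage (fun z => Real.log ‖F z‖) c r := by
  have habs : |r| = r := abs_of_pos hr
  have h := AnalyticOnNhd.circleAverage_log_norm (f := F) (c := c) (R := r) hr.ne'
    (by rw [habs]; exact hF) hc
  rw [h, habs]
  have h0 : 0 ≤ ∑ᶠ u, (divisor F (closedBall c r) u : ℝ) * Real.log (r * ‖c - u‖⁻¹) := by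
    apply finsum_nonneg
    intro u
    by_cases hu : u ∈ closedBall c r
    · have h1 : (0 : ℝ) ≤ (divisor F (closedBall c r) u : ℝ) := by
        have := AnalyticOnNhd.divisor_nonneg hF
        have h2 := this u
        exact_mod_cast h2
      apply mul_nonneg h1
      by_cases huc : ‖c - u‖ = 0
      · rw [huc]; simp
      · apply Real.log_nonneg
        have h3 : 0 < ‖c - u‖ := lt_of_le_of_ne (norm_nonneg _) (Ne.symm huc)
        rw [← div_eq_mul_inv, le_div_iff₀ h3, one_mul, ← dist_eq_norm, dist_comm]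
        exact hu
    · have : divisor F (closedBall c r) u = 0 :=
        Function.locallyFinsuppWithin.apply_eq_zero_of_notMem _ hu
      rw [this]; simp
  linarith

/-- The integral of `|log ‖F‖|` over a circle. -/
lemma circ_bd {F : ℂ → ℂ} {c : ℂ} {r H H' : ℝ} (hr : 0 < r)
    (hF : AnalyticOnNhd ℂ F (closedBall c r)) (hH : 0 ≤ H)
    (hup : ∀ z ∈ closedBall c r, ‖F z‖ ≤ Real.exp H) (hlo : Real.exp (-H') ≤ ‖F c‖) :
    ∫⁻ θ in Ioo (-π) π, ENNReal.ofReal |Real.log ‖F (circleMap c r θ)‖|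
      ≤ ENNReal.ofReal (2 * π * (2 * H + H')) := by
  have hc : F c ≠ 0 := by
    intro h
    rw [h, norm_zero] at hlo
    exact absurd hlo (not_le.mpr (Real.exp_pos _))
  set g : ℝ → ℝ := fun θ => Real.log ‖F (circleMap c r θ)‖ with hg
  have hci : CircleIntegrable (fun z => Real.log ‖F z‖) c r := by
    apply MeromorphicOn.circleIntegrable_log_norm
    rw [abs_of_pos hr]
    exact (hF.mono sphere_subset_closedBall).meromorphicOn
  have hper : Function.Periodic g (2 * π) := by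
    intro θ
    simp only [hg]
    rw [periodic_circleMap c r θ]
  have hii : IntervalIntegrable g volume 0 (2 * π) := hci
  have hii2 : IntervalIntegrable g volume (-π) π :=
    hper.intervalIntegrable (by positivity) (t := 0) (by simpa using hii) _ _
  have hint : ∫ θ in (-π)..π, g θ = ∫ θ in (0:ℝ)..(2 * π), g θ := by
    have := hper.intervalIntegral_add_eq (-π) 0
    simpa [show -π + 2 * π = π by ring] using this
  have hj := jensen_le hr hF hc
  rw [Real.circleAverage_def, smul_eq_mul] at hj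
  have hlog : -H' ≤ Real.log ‖F c‖ := by
    rw [← Real.log_exp (-H')]
    exact Real.log_le_log (Real.exp_pos _) hlo
  have hlow : -(2 * π * H') ≤ ∫ θ in (-π)..π, g θ := by
    rw [hint]
    have h1 : -H' ≤ (2 * π)⁻¹ * ∫ θ in (0:ℝ)..(2 * π), g θ := hlog.trans hj
    have h2 : (2 * π) * (-H') ≤ (2 * π) * ((2 * π)⁻¹ * ∫ θ in (0:ℝ)..(2 * π), g θ) :=
      mul_le_mul_of_nonneg_left h1 (by positivity)
    rw [mul_inv_cancel_left₀ (by positivity)] at h2
    linarith
  have hle : ∀ θ : ℝ, |g θ| ≤ 2 * H - g θ := by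
    intro θ
    have h1 : g θ ≤ H := by
      simp only [hg]
      by_cases h0 : ‖F (circleMap c r θ)‖ = 0
      · rw [h0, Real.log_zero]; exact hH
      · have h2 : 0 < ‖F (circleMap c r θ)‖ := lt_of_le_of_ne (norm_nonneg _) (Ne.symm h0)
        rw [Real.log_le_iff_le_exp h2]
        exact hup _ (circleMap_mem_closedBall c hr.le θ)
    rcases abs_cases (g θ) with h | h <;> linarith [h.1, h.2]
  have hio : IntegrableOn g (Ioo (-π) π) := by
    have := hii2.1
    exact this.mono_set Ioo_subset_Ioc_self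
  rw [← ofReal_integral_eq_lintegral_ofReal hio.abs (ae_of_all _ fun θ => abs_nonneg _)]
  apply ENNReal.ofReal_le_ofReal
  have h1 : ∫ θ in Ioo (-π) π, |g θ| ≤ ∫ θ in Ioo (-π) π, (2 * H - g θ) := by
    apply integral_mono hio.abs _ hle
    exact (integrable_const _).sub hio
  refine h1.trans ?_
  rw [integral_sub (integrable_const _) hio]
  have h2 : ∫ θ in Ioo (-π) π, g θ = ∫ θ in (-π)..π, g θ := by
    rw [intervalIntegral.integral_of_le (by linarith [Real.pi_pos]), integral_Ioc_eq_integral_Ioo]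
  rw [h2, setIntegral_const, Real.volume_real_Ioo_of_le (by linarith [Real.pi_pos])]
  rw [smul_eq_mul]
  nlinarith

/-- The open disc of radius 3. -/
def dsc (c : ℝ × ℝ) : Set (ℝ × ℝ) := {q | (q.1 - c.1) ^ 2 + (q.2 - c.2) ^ 2 < 9}

lemma measurableSet_dsc (c : ℝ × ℝ) : MeasurableSet (dsc c) :=
  (isOpen_lt (by fun_prop) continuous_const).measurableSet

lemma disc_bd {F : ℂ → ℂ} {x y H H' : ℝ}
    (hF : AnalyticOnNhd ℂ F (closedBall (pnt (x, y)) 3)) (hH : 0 ≤ H)
    (hup : ∀ z ∈ closedBall (pnt (x, y)) 3, ‖F z‖ ≤ Real.exp H)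
    (hlo : Real.exp (-H') ≤ ‖F (pnt (x, y))‖) :
    ∫⁻ q in dsc (x, y), ENNReal.ofReal |Real.log ‖F (pnt q)‖|
      ≤ ENNReal.ofReal (9 * (2 * π * (2 * H + H'))) := by
  set G : ℝ × ℝ → ℝ≥0∞ := fun q => ENNReal.ofReal |Real.log ‖F (pnt q)‖| with hG
  set K : ℝ := 2 * π * (2 * H + H') with hK
  have h1 : ∫⁻ q in dsc (x, y), G q = ∫⁻ q, (dsc (0, 0)).indicator (fun p => G (p + (x, y))) q := by
    rw [← lintegral_indicator (measurableSet_dsc _),
      ← lintegral_add_right_eq_self _ ((x, y) : ℝ × ℝ)]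
    congr 1
    funext p
    by_cases hp : p ∈ dsc (0, 0)
    · have hp' : p + (x, y) ∈ dsc (x, y) := by
        simp only [dsc, mem_ofPred_eq, sub_zero, Prod.fst_add, Prod.snd_add,
          add_sub_cancel_right] at hp ⊢
        exact hp
      rw [indicator_of_mem hp, indicator_of_mem hp']
    · have hp' : p + (x, y) ∉ dsc (x, y) := by
        simp only [dsc, mem_ofPred_eq, sub_zero, Prod.fst_add, Prod.snd_add,
          add_sub_cancel_right] at hp ⊢
        exact hp
      rw [indicator_of_notMem hp, indicator_of_notMem hp']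
  rw [h1, ← lintegral_comp_polarCoord_symm]
  have htarget : polarCoord.target = Ioi (0:ℝ) ×ˢ Ioo (-π) π := rfl
  rw [htarget, Measure.volume_eq_prod, ← Measure.prod_restrict]
  refine (lintegral_prod_le _).trans ?_
  have hinner : ∀ r ∈ Ioi (0:ℝ), ∫⁻ θ in Ioo (-π) π, ENNReal.ofReal r •
      (dsc (0, 0)).indicator (fun p => G (p + (x, y))) (polarCoord.symm (r, θ))
      ≤ (Iio (3:ℝ)).indicator (fun _ => ENNReal.ofReal (3 * K)) r := by
    intro r hr
    have hr0 : (0:ℝ) < r := hr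
    have hsymm : ∀ θ : ℝ, polarCoord.symm (r, θ) = (r * Real.cos θ, r * Real.sin θ) := fun _ => rfl
    have hsq : ∀ θ : ℝ, (r * Real.cos θ - 0) ^ 2 + (r * Real.sin θ - 0) ^ 2 = r ^ 2 := by
      intro θ
      have := Real.sin_sq_add_cos_sq θ
      nlinarith [this]
    by_cases h3 : r < 3
    · rw [indicator_of_mem (show r ∈ Iio (3:ℝ) from h3)]
      have hmem : ∀ θ : ℝ, (r * Real.cos θ, r * Real.sin θ) ∈ dsc (0, 0) := by
        intro θ
        show (r * Real.cos θ - 0) ^ 2 + (r * Real.sin θ - 0) ^ 2 < 9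
        rw [hsq]
        nlinarith
      have hpt : ∀ θ : ℝ, ENNReal.ofReal r •
          (dsc (0, 0)).indicator (fun p => G (p + (x, y))) (polarCoord.symm (r, θ))
          = ENNReal.ofReal r * ENNReal.ofReal |Real.log ‖F (circleMap (pnt (x, y)) r θ)‖| := by
        intro θ
        rw [hsymm, indicator_of_mem (hmem θ), smul_eq_mul]
        simp only [hG]
        congr 4
        unfold pnt circleMap
        congr 1
        rw [Complex.exp_mul_I, ← Complex.ofReal_cos, ← Complex.ofReal_sin]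
        simp only [Prod.fst_add, Prod.snd_add]
        push_cast
        ring
      simp_rw [hpt]
      have hsub : closedBall (pnt (x, y)) r ⊆ closedBall (pnt (x, y)) 3 :=
        closedBall_subset_closedBall h3.le
      have hcb := circ_bd (F := F) (c := pnt (x, y)) (H := H) (H' := H') hr0 (hF.mono hsub) hH
        (fun z hz => hup z (hsub hz)) hlo
      rw [lintegral_const_mul' _ _ ENNReal.ofReal_ne_top]
      have hK0 : 0 ≤ K ∨ K < 0 := le_or_gt 0 K
      calc ENNReal.ofReal r * ∫⁻ θ in Ioo (-π) π,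
            ENNReal.ofReal |Real.log ‖F (circleMap (pnt (x, y)) r θ)‖|
          ≤ ENNReal.ofReal 3 * ENNReal.ofReal K :=
            mul_le_mul' (ENNReal.ofReal_le_ofReal h3.le) hcb
        _ = ENNReal.ofReal (3 * K) :=
            (ENNReal.ofReal_mul (p := 3) (q := K) (by norm_num)).symm
    · have hnm : ∀ θ : ℝ, (r * Real.cos θ, r * Real.sin θ) ∉ dsc (0, 0) := by
        intro θ
        show ¬ (r * Real.cos θ - 0) ^ 2 + (r * Real.sin θ - 0) ^ 2 < 9
        rw [hsq]
        push Not at h3 ⊢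
        nlinarith
      have hpt : ∀ θ : ℝ, ENNReal.ofReal r •
          (dsc (0, 0)).indicator (fun p => G (p + (x, y))) (polarCoord.symm (r, θ)) = 0 := by
        intro θ
        rw [hsymm, indicator_of_notMem (hnm θ), smul_zero]
      simp_rw [hpt]
      simp
  refine (setLIntegral_mono' measurableSet_Ioi hinner).trans ?_
  rw [setLIntegral_indicator measurableSet_Iio, Iio_inter_Ioi, setLIntegral_const, Real.volume_Ioo,
    sub_zero, mul_comm, ← ENNReal.ofReal_mul (by norm_num)]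
  apply ENNReal.ofReal_le_ofReal
  linarith

end LIx

open LIx Metric in
theorem log_int {F : ℂ → ℂ} {σ T H H' : ℝ} (hσ : 2 / 5 ≤ σ) (hσ3 : σ < 3) (hT : 1 ≤ T)
    (hF : ∀ s : ℂ, -1 < s.re → DifferentiableAt ℂ F s) (hH : 0 ≤ H) (hH' : 0 ≤ H')
    (hup : ∀ s : ℂ, 0 ≤ s.re → s.re ≤ 6 → |s.im| ≤ T + 5 → ‖F s‖ ≤ Real.exp H)
    (hlo : ∀ t : ℝ, |t| ≤ T + 2 → Real.exp (-H') ≤ ‖F (((3 : ℝ) : ℂ) + t * I)‖) :
    ∫ q in rct σ 3 T, |Real.log ‖F (pnt q)‖| ≤ 1000 * T * (H + H') := by
  set G : ℝ × ℝ → ENNReal := fun q => ENNReal.ofReal |Real.log ‖F (pnt q)‖| with hG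
  set J : ℤ := ⌊T + 1⌋ with hJ
  have hJT : (J : ℝ) ≤ T + 1 := Int.floor_le _
  have hJ0 : 0 ≤ J := Int.floor_nonneg.mpr (by linarith)
  have hcov : rct σ 3 T ⊆ ⋃ j : ↥(Finset.Icc (-J) J), dsc (3, ((j : ℤ) : ℝ)) := by
    intro q hq
    have h1 := hq.1
    have h2 := hq.2
    rw [mem_iUnion]
    have hr : |q.2 - (round q.2 : ℤ)| ≤ 1 / 2 := abs_sub_round q.2
    have hq2 : |q.2| ≤ T := abs_le.mpr ⟨h2.1, h2.2⟩
    have hrb : |((round q.2 : ℤ) : ℝ)| ≤ T + 1 := by
      have : |((round q.2 : ℤ) : ℝ)| ≤ |q.2| + |q.2 - (round q.2 : ℤ)| := by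
        have h3 := abs_sub_abs_le_abs_sub ((round q.2 : ℤ) : ℝ) q.2
        rw [abs_sub_comm] at h3
        linarith
      linarith
    have hmem : round q.2 ∈ Finset.Icc (-J) J := by
      rw [Finset.mem_Icc, ← abs_le, hJ, Int.le_floor]
      push_cast
      exact hrb
    refine ⟨⟨round q.2, hmem⟩, ?_⟩
    show (q.1 - 3) ^ 2 + (q.2 - ((round q.2 : ℤ) : ℝ)) ^ 2 < 9
    have h3 : (q.2 - ((round q.2 : ℤ) : ℝ)) ^ 2 ≤ (1 / 2) ^ 2 := by
      rw [← sq_abs]
      exact pow_le_pow_left₀ (abs_nonneg _) hr 2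
    have h4 : (q.1 - 3) ^ 2 ≤ (13 / 5) ^ 2 := by
      have h5 : σ ≤ q.1 := h1.1
      have h6 : q.1 ≤ 3 := h1.2
      nlinarith
    nlinarith
  have hdisc : ∀ j : ↥(Finset.Icc (-J) J), ∫⁻ q in dsc (3, ((j : ℤ) : ℝ)), G q
      ≤ ENNReal.ofReal (9 * (2 * Real.pi * (2 * H + H'))) := by
    intro j
    have hj := Finset.mem_Icc.mp j.2
    have hjr : |((j : ℤ) : ℝ)| ≤ T + 1 := by
      rw [abs_le]
      have h1 : ((-J : ℤ) : ℝ) ≤ ((j : ℤ) : ℝ) := by exact_mod_cast hj.1
      have h2 : ((j : ℤ) : ℝ) ≤ (J : ℝ) := by exact_mod_cast hj.2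
      push_cast at h1
      constructor <;> linarith
    have hcen : pnt (3, ((j : ℤ) : ℝ)) = ((3 : ℝ) : ℂ) + (((j : ℤ) : ℝ) : ℂ) * I := rfl
    have hball : ∀ z ∈ closedBall (pnt (3, ((j : ℤ) : ℝ))) 3,
        0 ≤ z.re ∧ z.re ≤ 6 ∧ |z.im| ≤ T + 5 := by
      intro z hz
      rw [mem_closedBall, dist_eq_norm, hcen] at hz
      have h1 := (Complex.abs_re_le_norm _).trans hz
      have h2 := (Complex.abs_im_le_norm _).trans hz
      simp only [Complex.sub_re, Complex.add_re, Complex.ofReal_re, Complex.mul_re, Complex.I_re,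
        mul_zero, Complex.ofReal_im, Complex.I_im, mul_one, sub_self, add_zero, Complex.sub_im,
        Complex.add_im, Complex.mul_im, zero_add, zero_mul] at h1 h2
      rw [abs_le] at h1 h2 hjr ⊢
      refine ⟨by linarith, by linarith, by linarith, by linarith⟩
    apply disc_bd (H := H) (H' := H') _ hH
    · intro z hz
      obtain ⟨h1, h2, h3⟩ := hball z hz
      exact hup z h1 h2 h3
    · rw [hcen]
      exact hlo _ (by linarith)
    · intro z hz
      obtain ⟨h1, h2, h3⟩ := hball z hz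
      have hopen : IsOpen {s : ℂ | -1 < s.re} := isOpen_lt continuous_const Complex.continuous_re
      have hdo : DifferentiableOn ℂ F {s : ℂ | -1 < s.re} :=
        fun s hs => (hF s hs).differentiableWithinAt
      exact hdo.analyticAt (hopen.mem_nhds (show -1 < z.re by linarith))
  have hlint : ∫⁻ q in rct σ 3 T, G q
      ≤ ENNReal.ofReal ((2 * J + 1) * (9 * (2 * Real.pi * (2 * H + H')))) := by
    calc ∫⁻ q in rct σ 3 T, G q
        ≤ ∫⁻ q in ⋃ j : ↥(Finset.Icc (-J) J), dsc (3, ((j : ℤ) : ℝ)), G q :=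
          lintegral_mono_set hcov
      _ ≤ ∑' j : ↥(Finset.Icc (-J) J), ∫⁻ q in dsc (3, ((j : ℤ) : ℝ)), G q :=
          lintegral_iUnion_le _ _
      _ ≤ ∑' _ : ↥(Finset.Icc (-J) J), ENNReal.ofReal (9 * (2 * Real.pi * (2 * H + H'))) :=
          ENNReal.tsum_le_tsum hdisc
      _ = ENNReal.ofReal ((2 * J + 1) * (9 * (2 * Real.pi * (2 * H + H')))) := by
          rw [tsum_fintype, Finset.sum_const, nsmul_eq_mul, Finset.card_univ, Fintype.card_coe,
            Int.card_Icc]
          have h1 : ((J + 1 - -J).toNat : ℝ) = 2 * J + 1 := by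
            have h2 : ((J + 1 - -J).toNat : ℤ) = 2 * J + 1 := by
              rw [Int.toNat_of_nonneg (by omega)]; ring
            exact_mod_cast h2
          rw [← h1, ENNReal.ofReal_mul (Nat.cast_nonneg _), ENNReal.ofReal_natCast]
  have hpi := Real.pi_lt_d2
  have hpi0 := Real.pi_pos
  have hfin : (2 * (J : ℝ) + 1) * (9 * (2 * Real.pi * (2 * H + H'))) ≤ 1000 * T * (H + H') := by
    have h1 : (2 * (J : ℝ) + 1) ≤ 5 * T := by linarith
    have h2 : 2 * Real.pi * (2 * H + H') ≤ 6.3 * (2 * (H + H')) := by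
      apply mul_le_mul _ (by linarith) (by linarith) (by norm_num)
      linarith
    have h3 : (0:ℝ) ≤ 9 * (2 * Real.pi * (2 * H + H')) := by positivity
    calc (2 * (J : ℝ) + 1) * (9 * (2 * Real.pi * (2 * H + H')))
        ≤ (5 * T) * (9 * (6.3 * (2 * (H + H')))) := by
          apply mul_le_mul h1 (by linarith) h3 (by linarith)
      _ = 567 * (T * (H + H')) := by ring
      _ ≤ 1000 * T * (H + H') := by
          have : 0 ≤ T * (H + H') := by positivity
          nlinarith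
  have hn : ∫ q in rct σ 3 T, |Real.log ‖F (pnt q)‖|
      ≤ ENNReal.toReal (∫⁻ q in rct σ 3 T, G q) := by
    refine (le_abs_self _).trans ?_
    have := norm_integral_le_lintegral_norm (μ := volume.restrict (rct σ 3 T))
      (fun q : ℝ × ℝ => |Real.log ‖F (pnt q)‖|)
    simp only [Real.norm_eq_abs, abs_abs] at this
    exact this
  refine hn.trans ?_
  apply ENNReal.toReal_le_of_le_ofReal (by positivity)
  exact hlint.trans (ENNReal.ofReal_le_ofReal hfin)

end Pool.Agent.ZR
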