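import Pool.Agent.ZR.PA_x

/-!
# The mollified twisted second moment on the critical line
`tsm` with `2T` and `Y = ⌊e^(lX T)⌋ N1 T`, `a = cnv (fun v => y - v) (gf T a0 a1 κ) ⌊e^y⌋ (N1 T)`,
`y = lX T`, `lX T / 2`; `psi = (2/lX)(Py (lX) - Py (lX/2))`. `Smo y C`-bounds: `f v = (y-v) e^(-κ'v)`, `κ' = 0` or
`1/log Y`; `g v = gf v e^(-κ'v)`: `B = C`. The term `C T/Y³ (∑|a|)²` is `≤ C T (log T)^4/Y ≤ C T`.
For `ε = 1` the modulus is the same (complex conjugation).
-/

set_option autoImplicit false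

open Complex MeasureTheory Set Finset

namespace Pool.Agent.ZR

/-- the length of the product polynomial -/
noncomputable def paY (T : ℝ) : ℕ := ⌊Real.exp (lX T)⌋₊ * N1 T

theorem pa_basic {T : ℝ} (hT : Real.exp 10000 ≤ T) : 0 < T ∧ 10000 ≤ Real.log T ∧ 1 ≤ el T ∧
    el T ≤ lX T ∧ 250 ≤ lX T := by
  have h0 : 0 < T := lt_of_lt_of_le (Real.exp_pos _) hT
  have h1 : 10000 ≤ Real.log T := by
    rw [Real.le_log_iff_exp_le h0]; exact hT
  refine ⟨h0, h1, ?_, ?_, ?_⟩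
  · unfold el; linarith
  · unfold el lX; linarith
  · unfold lX; linarith

theorem pa_N1 {T : ℝ} (hT : Real.exp 10000 ≤ T) : 2 ≤ N1 T := by
  obtain ⟨_, _, h3, _, _⟩ := pa_basic hT
  unfold N1
  apply Nat.le_floor
  have := Real.add_one_le_exp (el T)
  push_cast
  linarith

theorem pa_Y {T : ℝ} (hT : Real.exp 10000 ≤ T) : 2 ≤ paY T ∧ Real.exp (lX T) ≤ (paY T : ℝ) ∧
    (paY T : ℝ) ≤ Real.exp (lX T + el T) := by
  obtain ⟨h0, h1, h3, h4, h5⟩ := pa_basic hT
  have hN := pa_N1 hT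
  have hx : 1 ≤ ⌊Real.exp (lX T)⌋₊ := by
    apply Nat.le_floor
    push_cast
    exact Real.one_le_exp (by linarith)
  have hxf := Nat.lt_floor_add_one (Real.exp (lX T))
  have hx' : (1:ℝ) ≤ (⌊Real.exp (lX T)⌋₊ : ℝ) := by exact_mod_cast hx
  have hN' : (2:ℝ) ≤ (N1 T : ℝ) := by exact_mod_cast hN
  refine ⟨?_, ?_, ?_⟩
  · unfold paY; nlinarith
  · unfold paY
    push_cast
    nlinarith
  · unfold paY
    push_cast
    rw [Real.exp_add]
    have a1 : (⌊Real.exp (lX T)⌋₊ : ℝ) ≤ Real.exp (lX T) := Nat.floor_le (Real.exp_pos _).le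
    have a2 : (N1 T : ℝ) ≤ Real.exp (el T) := Nat.floor_le (Real.exp_pos _).le
    exact mul_le_mul a1 a2 (by positivity) (Real.exp_pos _).le

theorem pa_logY {T : ℝ} (hT : Real.exp 10000 ≤ T) : lX T ≤ Real.log (paY T) ∧
    Real.log (paY T) ≤ lX T + el T := by
  obtain ⟨h1, h2, h3⟩ := pa_Y hT
  have hY : (0:ℝ) < (paY T : ℝ) := lt_of_lt_of_le (Real.exp_pos _) h2
  exact ⟨(Real.le_log_iff_exp_le hY).2 h2, (Real.log_le_iff_le_exp hY).2 h3⟩

theorem pa_Y12 {T : ℝ} (hT : Real.exp 10000 ≤ T) : (paY T : ℝ) ^ 12 ≤ 2 * T := by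
  obtain ⟨h0, h1, h3, h4, h5⟩ := pa_basic hT
  obtain ⟨_, _, g3⟩ := pa_Y hT
  calc (paY T : ℝ) ^ 12 ≤ Real.exp (lX T + el T) ^ 12 := pow_le_pow_left₀ (by positivity) g3 12
    _ = Real.exp (12 * (lX T + el T)) := by rw [← Real.exp_nat_mul]; norm_num
    _ ≤ Real.exp (Real.log T) := by
      apply Real.exp_le_exp.2
      unfold lX el
      linarith
    _ = T := Real.exp_log h0
    _ ≤ 2 * T := by linarith

theorem pa_gf_shift (T a0 a1 κ k : ℝ) : (fun v => gf T a0 a1 κ v * Real.exp (-(k * v))) =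
    fun v => (1 - v / el T) * (a0 + a1 * v) * Real.exp (-((κ + k) * v)) := by
  funext v
  unfold gf
  rw [mul_assoc, ← Real.exp_add]
  congr 2
  ring

theorem pa_arith : ∃ C : ℝ, 0 < C ∧ ∀ T a0 a1 κ y k : ℝ, Real.exp 10000 ≤ T → |a0| ≤ el T → |a1| ≤ 1 →
    |κ| ≤ 2 / Real.log T → 0 ≤ y → y ≤ lX T → 0 ≤ k → k * Real.log (paY T) ≤ 1 →
    ∑ q ∈ Finset.Icc 1 (paY T), (q : ℝ) *
      yq (cnv (fun v => y - v) (gf T a0 a1 κ) ⌊Real.exp y⌋₊ (N1 T)) (paY T) k q ^ 2 ≤
      C * Real.log T * el T ^ 3 := by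
  obtain ⟨C, hC, hA⟩ := arith
  refine ⟨C * 40000 * 8, by positivity, ?_⟩
  intro T a0 a1 κ y k hT ha0 ha1 hκ hy hyX hk hkY
  obtain ⟨h0, h1, h3, h4, h5⟩ := pa_basic hT
  obtain ⟨l1, l2⟩ := pa_logY hT
  obtain ⟨y1, y2, y3⟩ := pa_Y hT
  have hlog : 0 < Real.log T := by linarith
  have hky : k * y ≤ 1 := le_trans (mul_le_mul_of_nonneg_left (hyX.trans l1) hk) hkY
  have hkel : k * el T ≤ 1 := le_trans (mul_le_mul_of_nonneg_left (h4.trans l1) hk) hkY
  have hκel : |κ| * el T ≤ 1 / 5000 := by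
    have : |κ| * el T ≤ 2 / Real.log T * el T := mul_le_mul_of_nonneg_right hκ (by linarith)
    have e2 : 2 / Real.log T * el T = 1 / 5000 := by
      unfold el; field_simp; norm_num
    linarith
  have hsf := pa_smo_f hy hk hky
  obtain ⟨g', g'', hsg⟩ := pa_smo_g (e := el T) (a0 := a0) (a1 := a1) (k := κ + k) (by linarith) ha0 ha1
    (by
      have e1 : |κ + k| ≤ |κ| + k := by
        have := abs_add_le κ k
        rwa [abs_of_nonneg hk] at this
      nlinarith)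
    (by
      intro v hv
      have e1 : -((κ + k) * v) ≤ 1 / 5000 := by
        have b1 : -κ * v ≤ |κ| * el T := mul_le_mul (neg_le_abs κ) hv.2 hv.1 (abs_nonneg _)
        have b2 : 0 ≤ k * v := mul_nonneg hk hv.1
        linarith
      have e2 : Real.exp (1 / 5000) ≤ 2 := by
        have := Real.exp_one_lt_d9
        have h2 : Real.exp (1/5000) ≤ Real.exp (1/2) := Real.exp_le_exp.2 (by norm_num)
        have h3 : Real.exp (1/2) ^ 2 = Real.exp 1 := by
          rw [← Real.exp_nat_mul]; norm_num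
        have h4 := Real.exp_pos (1/2)
        nlinarith
      exact (Real.exp_le_exp.2 e1).trans e2)
  have hYY : ⌊Real.exp y⌋₊ * ⌊Real.exp (el T)⌋₊ ≤ paY T := by
    unfold paY N1
    exact Nat.mul_le_mul_right _ (Nat.floor_mono (Real.exp_le_exp.2 hyX))
  have key := hA y 4 (el T) 50 _ _ _ _ _ _ (paY T) hy (by linarith) hsf hsg (by omega) hYY
  have e : ∀ q, yq (cnv (fun v => y - v) (gf T a0 a1 κ) ⌊Real.exp y⌋₊ (N1 T)) (paY T) k q =
      yq (cnv (fun v => (y - v) * Real.exp (-(k * v)))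
        (fun v => (1 - v / el T) * (a0 + a1 * v) * Real.exp (-((κ + k) * v)))
        ⌊Real.exp y⌋₊ ⌊Real.exp (el T)⌋₊) (paY T) 0 q := by
    intro q
    rw [yq_shift, pa_gf_shift]
    rfl
  simp only [e]
  refine key.trans ?_
  have b1 : 1 + Real.log (paY T) ≤ Real.log T := by
    unfold lX el at l2
    linarith
  have b2 : (1 + el T) ^ 3 ≤ 8 * el T ^ 3 := by
    calc (1 + el T) ^ 3 ≤ (2 * el T) ^ 3 := pow_le_pow_left₀ (by linarith) (by linarith) 3
      _ = 8 * el T ^ 3 := by ring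
  have b0 : 0 ≤ 1 + Real.log (paY T) := by linarith
  have b3 : 0 ≤ (1 + el T) ^ 3 := by positivity
  calc C * 4 ^ 2 * 50 ^ 2 * (1 + Real.log (paY T)) * (1 + el T) ^ 3
      = C * 40000 * ((1 + Real.log (paY T)) * (1 + el T) ^ 3) := by ring
    _ ≤ C * 40000 * (Real.log T * (8 * el T ^ 3)) :=
        mul_le_mul_of_nonneg_left (mul_le_mul b1 b2 b3 hlog.le) (by positivity)
    _ = C * 40000 * 8 * Real.log T * el T ^ 3 := by ring

theorem pa_sumabs {T a0 a1 κ y : ℝ} (hT : Real.exp 10000 ≤ T) (ha0 : |a0| ≤ el T) (ha1 : |a1| ≤ 1)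
    (hκ : |κ| ≤ 2 / Real.log T) (hyX : y ≤ lX T) :
    ∑ h ∈ Finset.Icc 1 (paY T), |cnv (fun v => y - v) (gf T a0 a1 κ) ⌊Real.exp y⌋₊ (N1 T) h| ≤
      (paY T : ℝ) * (4 * lX T * el T) := by
  obtain ⟨h0, h1, h3, h4, h5⟩ := pa_basic hT
  have hlog : 0 < Real.log T := by linarith
  have hY1 : ⌊Real.exp y⌋₊ ≤ ⌊Real.exp (lX T)⌋₊ := Nat.floor_mono (Real.exp_le_exp.2 hyX)
  have hYY : ⌊Real.exp y⌋₊ * N1 T ≤ paY T := by
    unfold paY
    exact Nat.mul_le_mul_right _ hY1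
  have hκel : |κ| * el T ≤ 1 / 5000 := by
    have : |κ| * el T ≤ 2 / Real.log T * el T := mul_le_mul_of_nonneg_right hκ (by linarith)
    have e2 : 2 / Real.log T * el T = 1 / 5000 := by
      unfold el; field_simp; norm_num
    linarith
  have hmu : ∀ n : ℕ, |((ArithmeticFunction.moebius n : ℤ) : ℝ)| ≤ 1 := by
    intro n
    have := ArithmeticFunction.abs_moebius_le_one (n := n)
    exact_mod_cast this
  have s1 : (∑ h ∈ Finset.Icc 1 ⌊Real.exp y⌋₊, |mug (fun v => y - v) h|) ≤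
      (⌊Real.exp (lX T)⌋₊ : ℝ) * lX T := by
    calc _ ≤ ∑ _h ∈ Finset.Icc 1 ⌊Real.exp y⌋₊, lX T := by
          refine Finset.sum_le_sum fun h hh => ?_
          rw [Finset.mem_Icc] at hh
          have hh1 : (1:ℝ) ≤ h := by exact_mod_cast hh.1
          have hh2 : (h:ℝ) ≤ Real.exp y :=
            (Nat.le_floor_iff (Real.exp_pos _).le).1 hh.2
          have c1 : 0 ≤ Real.log h := Real.log_nonneg hh1
          have c2 : Real.log h ≤ y := (Real.log_le_iff_le_exp (by linarith)).2 hh2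
          unfold mug
          rw [abs_mul]
          have c3 : |y - Real.log h| ≤ lX T := by rw [abs_le]; constructor <;> linarith
          calc _ ≤ 1 * lX T := mul_le_mul (hmu h) c3 (abs_nonneg _) (by norm_num)
            _ = lX T := one_mul _
      _ = (⌊Real.exp y⌋₊ : ℝ) * lX T := by simp
      _ ≤ _ := mul_le_mul_of_nonneg_right (by exact_mod_cast hY1) (by linarith)
  have s2 : (∑ m ∈ Finset.Icc 1 (N1 T), |mug (gf T a0 a1 κ) m|) ≤ (N1 T : ℝ) * (4 * el T) := by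
    calc _ ≤ ∑ _m ∈ Finset.Icc 1 (N1 T), 4 * el T := by
          refine Finset.sum_le_sum fun m hm => ?_
          rw [Finset.mem_Icc] at hm
          have hm1 : (1:ℝ) ≤ m := by exact_mod_cast hm.1
          have hm2 : (m:ℝ) ≤ Real.exp (el T) :=
            (Nat.le_floor_iff (Real.exp_pos _).le).1 hm.2
          have c1 : 0 ≤ Real.log m := Real.log_nonneg hm1
          have c2 : Real.log m ≤ el T := (Real.log_le_iff_le_exp (by linarith)).2 hm2
          unfold mug gf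
          rw [abs_mul, abs_mul, abs_mul, abs_of_pos (Real.exp_pos _)]
          set v := Real.log m with hv
          have d1 : |1 - v / el T| ≤ 1 := by
            have e1 : 0 ≤ v / el T := div_nonneg c1 (by linarith)
            have e2 : v / el T ≤ 1 := (div_le_one (by linarith)).2 c2
            rw [abs_le]; constructor <;> linarith
          have d2 : |a0 + a1 * v| ≤ 2 * el T := by
            calc |a0 + a1 * v| ≤ |a0| + |a1 * v| := abs_add_le _ _
              _ ≤ el T + 1 * el T := by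
                rw [abs_mul, abs_of_nonneg c1]
                exact add_le_add ha0 (mul_le_mul ha1 c2 c1 (by norm_num))
              _ = 2 * el T := by ring
          have d3 : Real.exp (-(κ * v)) ≤ 2 := by
            have b1 : -κ * v ≤ |κ| * el T := mul_le_mul (neg_le_abs κ) c2 c1 (abs_nonneg _)
            have e1 : -(κ * v) ≤ 1 / 2 := by linarith
            have h2 := Real.exp_le_exp.2 e1
            have h3 : Real.exp (1/2) ^ 2 = Real.exp 1 := by
              rw [← Real.exp_nat_mul]; norm_num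
            have h4 := Real.exp_pos (1/2)
            have := Real.exp_one_lt_d9
            nlinarith
          have d4 : |1 - v / el T| * |a0 + a1 * v| ≤ 1 * (2 * el T) :=
            mul_le_mul d1 d2 (abs_nonneg _) (by norm_num)
          have d5 : |1 - v / el T| * |a0 + a1 * v| * Real.exp (-(κ * v)) ≤ 1 * (2 * el T) * 2 :=
            mul_le_mul d4 d3 (Real.exp_pos _).le (by linarith)
          calc _ ≤ 1 * (1 * (2 * el T) * 2) := mul_le_mul (hmu m) d5
                (mul_nonneg (mul_nonneg (abs_nonneg _) (abs_nonneg _)) (Real.exp_pos _).le) (by norm_num)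
            _ = 4 * el T := by ring
      _ = _ := by simp
  refine (pa_abs _ _ hYY).trans ?_
  have p2 : 0 ≤ ∑ m ∈ Finset.Icc 1 (N1 T), |mug (gf T a0 a1 κ) m| :=
    Finset.sum_nonneg fun _ _ => abs_nonneg _
  calc _ ≤ ((⌊Real.exp (lX T)⌋₊ : ℝ) * lX T) * ((N1 T : ℝ) * (4 * el T)) :=
        mul_le_mul s1 s2 p2 (by positivity)
    _ = (paY T : ℝ) * (4 * lX T * el T) := by
      unfold paY
      push_cast
      ring

/-- the integrand with one tapered polynomial -/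
noncomputable def paF (T a0 a1 κ ε y t : ℝ) : ℝ :=
  ‖riemannZeta (1 / 2 + t * I) * Py y (1 / 2 + t * I) *
      ER (N1 T) ε (gf T a0 a1 κ) (1 / 2 + t * I)‖ ^ 2 * Real.exp (-((t / T) ^ 2 / 2))

theorem paF_eq {T a0 a1 κ ε y : ℝ} (hT : Real.exp 10000 ≤ T) (hε : ε = 1 ∨ ε = -1) (hyX : y ≤ lX T)
    (t : ℝ) : paF T a0 a1 κ ε y t = ‖riemannZeta (1 / 2 + t * I) *
      DPa (cnv (fun v => y - v) (gf T a0 a1 κ) ⌊Real.exp y⌋₊ (N1 T)) (paY T) (1 / 2 + t * I)‖ ^ 2 *
      Real.exp (-(2 * (t / (2 * T)) ^ 2)) := by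
  have hYY : ⌊Real.exp y⌋₊ * N1 T ≤ paY T := by
    unfold paY
    exact Nat.mul_le_mul_right _ (Nat.floor_mono (Real.exp_le_exp.2 hyX))
  unfold paF
  rw [← pa_prod _ _ hYY, norm_mul, norm_mul, norm_mul, norm_mul, pa_er_norm _ hε, mul_assoc]
  have e : -((t / T) ^ 2 / 2) = -(2 * (t / (2 * T)) ^ 2) := by
    rw [div_pow, div_pow, mul_pow]
    obtain ⟨h0, _⟩ := pa_basic hT
    field_simp
  rw [e]
  rfl

theorem pa_one : ∃ C : ℝ, 0 < C ∧ ∀ T a0 a1 κ ε y : ℝ, Real.exp 10000 ≤ T → |a0| ≤ el T → |a1| ≤ 1 →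
    |κ| ≤ 2 / Real.log T → (ε = 1 ∨ ε = -1) → 0 ≤ y → y ≤ lX T →
    Integrable (paF T a0 a1 κ ε y) ∧
    ∫ t : ℝ, paF T a0 a1 κ ε y t ≤ C * T * Real.log T ^ 2 * el T ^ 3 := by
  obtain ⟨C1, hC1, hA⟩ := pa_arith
  obtain ⟨C2, hC2, hB⟩ := tsm
  refine ⟨C2 * (10 * C1 + 1000), by positivity, ?_⟩
  intro T a0 a1 κ ε y hT ha0 ha1 hκ hε hy hyX
  obtain ⟨h0, h1, h3, h4, h5⟩ := pa_basic hT
  obtain ⟨l1, l2⟩ := pa_logY hT
  obtain ⟨y1, y2, y3⟩ := pa_Y hT
  have hlogY : 0 < Real.log (paY T) := by linarith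
  have hYpos : (0:ℝ) < (paY T : ℝ) := lt_of_lt_of_le (Real.exp_pos _) y2
  set a := cnv (fun v => y - v) (gf T a0 a1 κ) ⌊Real.exp y⌋₊ (N1 T) with ha
  obtain ⟨i1, i2⟩ := hB (2 * T) a (paY T) y1 (pa_Y12 hT)
  have hF : paF T a0 a1 κ ε y = fun t : ℝ => ‖riemannZeta (1 / 2 + t * I) *
      DPa a (paY T) (1 / 2 + t * I)‖ ^ 2 * Real.exp (-(2 * (t / (2 * T)) ^ 2)) :=
    funext fun t => paF_eq hT hε hyX t
  rw [hF]
  refine ⟨i1, i2.trans ?_⟩
  have hS0 := hA T a0 a1 κ y 0 hT ha0 ha1 hκ hy hyX (le_refl _) (by simp)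
  have hk1 : 1 / Real.log (paY T) * Real.log (paY T) = 1 := by field_simp
  have hS1 := hA T a0 a1 κ y (1 / Real.log (paY T)) hT ha0 ha1 hκ hy hyX (by positivity) hk1.le
  rw [← ha] at hS0 hS1
  set S := C1 * Real.log T * el T ^ 3 with hS
  have hlogT : 0 < Real.log T := by linarith
  have hSpos : 0 ≤ S := by positivity
  have hS1' : ∑ q ∈ Finset.Icc 1 (paY T), (q : ℝ) ^ (1 + 1 / Real.log (paY T)) *
      yq a (paY T) (1 / Real.log (paY T)) q ^ 2 ≤ 3 * S := by
    calc _ ≤ ∑ q ∈ Finset.Icc 1 (paY T), 3 * ((q : ℝ) *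
          yq a (paY T) (1 / Real.log (paY T)) q ^ 2) := by
          refine Finset.sum_le_sum fun q hq => ?_
          rw [Finset.mem_Icc] at hq
          have hq1 : (1:ℝ) ≤ q := by exact_mod_cast hq.1
          have hq2 : (q:ℝ) ≤ paY T := by exact_mod_cast hq.2
          have e1 : (q : ℝ) ^ (1 + 1 / Real.log (paY T)) = q * (q:ℝ) ^ (1 / Real.log (paY T)) := by
            rw [Real.rpow_add (by linarith), Real.rpow_one]
          have e2 : (q:ℝ) ^ (1 / Real.log (paY T)) ≤ 3 := by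
            have b1 : (q:ℝ) ^ (1 / Real.log (paY T)) ≤ (paY T : ℝ) ^ (1 / Real.log (paY T)) :=
              Real.rpow_le_rpow (by linarith) hq2 (by positivity)
            have b2 : (paY T : ℝ) ^ (1 / Real.log (paY T)) = Real.exp 1 := by
              rw [Real.rpow_def_of_pos hYpos]
              congr 1
              field_simp
            have := Real.exp_one_lt_d9
            linarith
          rw [e1]
          have c1 : 0 ≤ (q:ℝ) * yq a (paY T) (1 / Real.log (paY T)) q ^ 2 := by positivity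
          nlinarith
      _ = 3 * ∑ q ∈ Finset.Icc 1 (paY T), ((q : ℝ) *
          yq a (paY T) (1 / Real.log (paY T)) q ^ 2) := by rw [Finset.mul_sum]
      _ ≤ 3 * S := by linarith
  have hlog2T : Real.log (2 * T) ≤ 2 * Real.log T := by
    rw [Real.log_mul (by norm_num) h0.ne']
    have : Real.log 2 ≤ 1 := by
      have := Real.log_two_lt_d9
      linarith
    linarith
  have hlog2T0 : 0 ≤ Real.log (2 * T) := Real.log_nonneg (by
    have := Real.add_one_le_exp 10000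
    linarith)
  have hlY2 : Real.log (paY T) ≤ Real.log T := by
    unfold lX el at l2
    linarith
  have m1 : Real.log (2 * T) * (∑ q ∈ Finset.Icc 1 (paY T), (q : ℝ) * yq a (paY T) 0 q ^ 2) +
        Real.log (paY T) * (∑ q ∈ Finset.Icc 1 (paY T), (q : ℝ) ^ (1 + 1 / Real.log (paY T)) *
          yq a (paY T) (1 / Real.log (paY T)) q ^ 2) ≤ 5 * Real.log T * S := by
    have c1 : Real.log (2 * T) * (∑ q ∈ Finset.Icc 1 (paY T), (q : ℝ) * yq a (paY T) 0 q ^ 2) ≤
        2 * Real.log T * S := mul_le_mul hlog2T hS0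
          (Finset.sum_nonneg fun _ _ => by positivity) (by positivity)
    have c2 : Real.log (paY T) * (∑ q ∈ Finset.Icc 1 (paY T), (q : ℝ) ^ (1 + 1 / Real.log (paY T)) *
          yq a (paY T) (1 / Real.log (paY T)) q ^ 2) ≤ Real.log T * (3 * S) := mul_le_mul hlY2 hS1'
          (Finset.sum_nonneg fun _ _ => by positivity) (by positivity)
    linarith
  -- the error term
  have hsa := pa_sumabs (y := y) hT ha0 ha1 hκ hyX
  rw [← ha] at hsa
  set A := ∑ h ∈ Finset.Icc 1 (paY T), |a h| with hAdef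
  have hA0 : 0 ≤ A := Finset.sum_nonneg fun _ _ => abs_nonneg _
  have hA2 : A ^ 2 ≤ (paY T : ℝ) ^ 2 * (16 * lX T ^ 2 * el T ^ 2) := by
    calc A ^ 2 ≤ ((paY T : ℝ) * (4 * lX T * el T)) ^ 2 := pow_le_pow_left₀ hA0 hsa 2
      _ = _ := by ring
  have hlXY : lX T ^ 2 ≤ 2 * (paY T : ℝ) := by
    have := Real.quadratic_le_exp_of_nonneg (x := lX T) (by linarith)
    nlinarith
  have m2 : C2 * (2 * T) / (paY T : ℝ) ^ 3 * A ^ 2 * (1 + Real.log (2 * T)) ^ 2 ≤
      C2 * 1000 * T * Real.log T ^ 2 * el T ^ 3 := by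
    have c1 : (1 + Real.log (2 * T)) ^ 2 ≤ 9 * Real.log T ^ 2 := by
      calc (1 + Real.log (2 * T)) ^ 2 ≤ (3 * Real.log T) ^ 2 :=
            pow_le_pow_left₀ (by linarith) (by linarith) 2
        _ = _ := by ring
    have c2 : C2 * (2 * T) / (paY T : ℝ) ^ 3 * A ^ 2 ≤
        C2 * (2 * T) / (paY T : ℝ) ^ 3 * ((paY T : ℝ) ^ 2 * (16 * lX T ^ 2 * el T ^ 2)) :=
      mul_le_mul_of_nonneg_left hA2 (by positivity)
    have c3 : C2 * (2 * T) / (paY T : ℝ) ^ 3 * ((paY T : ℝ) ^ 2 * (16 * lX T ^ 2 * el T ^ 2)) =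
        C2 * 32 * T * el T ^ 2 * (lX T ^ 2 / (paY T : ℝ)) := by
      field_simp
      ring
    have c4 : lX T ^ 2 / (paY T : ℝ) ≤ 2 := by
      rw [div_le_iff₀ hYpos]; exact hlXY
    have c5 : C2 * 32 * T * el T ^ 2 * (lX T ^ 2 / (paY T : ℝ)) ≤ C2 * 32 * T * el T ^ 2 * 2 :=
      mul_le_mul_of_nonneg_left c4 (by positivity)
    have c6 : C2 * (2 * T) / (paY T : ℝ) ^ 3 * A ^ 2 ≤ C2 * 64 * T * el T ^ 2 := by
      rw [c3] at c2
      linarith
    have c7 : el T ^ 2 ≤ el T ^ 3 := pow_le_pow_right₀ h3 (by norm_num)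
    calc _ ≤ C2 * 64 * T * el T ^ 2 * (9 * Real.log T ^ 2) :=
          mul_le_mul c6 c1 (by positivity) (by positivity)
      _ = C2 * 576 * T * Real.log T ^ 2 * el T ^ 2 := by ring
      _ ≤ C2 * 576 * T * Real.log T ^ 2 * el T ^ 3 := mul_le_mul_of_nonneg_left c7 (by positivity)
      _ ≤ C2 * 1000 * T * Real.log T ^ 2 * el T ^ 3 := by
        have : 0 ≤ C2 * T * Real.log T ^ 2 * el T ^ 3 := by positivity
        nlinarith
  have m3 : C2 * (2 * T) * (Real.log (2 * T) *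
        (∑ q ∈ Finset.Icc 1 (paY T), (q : ℝ) * yq a (paY T) 0 q ^ 2) +
        Real.log (paY T) * (∑ q ∈ Finset.Icc 1 (paY T), (q : ℝ) ^ (1 + 1 / Real.log (paY T)) *
          yq a (paY T) (1 / Real.log (paY T)) q ^ 2)) ≤ C2 * (2 * T) * (5 * Real.log T * S) :=
    mul_le_mul_of_nonneg_left m1 (by positivity)
  calc _ ≤ C2 * (2 * T) * (5 * Real.log T * S) + C2 * 1000 * T * Real.log T ^ 2 * el T ^ 3 :=
        add_le_add m3 m2
    _ = C2 * (10 * C1 + 1000) * T * Real.log T ^ 2 * el T ^ 3 := by rw [hS]; ring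

theorem phi_half : ∃ C T0 : ℝ, 0 < C ∧ 3 ≤ T0 ∧ ∀ T a0 a1 κ ε : ℝ, T0 ≤ T → |a0| ≤ el T → |a1| ≤ 1 →
    |κ| ≤ 2 / Real.log T → (ε = 1 ∨ ε = -1) →
    Integrable (fun t : ℝ => ‖riemannZeta (1 / 2 + t * I) * psi T (1 / 2 + t * I) *
      ER (N1 T) ε (gf T a0 a1 κ) (1 / 2 + t * I)‖ ^ 2 * Real.exp (-((t / T) ^ 2 / 2))) ∧
    ∫ t : ℝ, ‖riemannZeta (1 / 2 + t * I) * psi T (1 / 2 + t * I) *
      ER (N1 T) ε (gf T a0 a1 κ) (1 / 2 + t * I)‖ ^ 2 * Real.exp (-((t / T) ^ 2 / 2)) ≤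
      C * T * el T ^ 3 := by
  obtain ⟨C, hC, hone⟩ := pa_one
  refine ⟨25600 * C, Real.exp 10000, by positivity, ?_, ?_⟩
  · have := Real.add_one_le_exp 10000
    linarith
  intro T a0 a1 κ ε hT ha0 ha1 hκ hε
  obtain ⟨h0, h1, h3, h4, h5⟩ := pa_basic hT
  have hlogT : 0 < Real.log T := by linarith
  have hlX0 : 0 < lX T := by linarith
  obtain ⟨i1, b1⟩ := hone T a0 a1 κ ε (lX T) hT ha0 ha1 hκ hε hlX0.le (le_refl _)
  obtain ⟨i2, b2⟩ := hone T a0 a1 κ ε (lX T / 2) hT ha0 ha1 hκ hε (by linarith) (by linarith)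
  set G : ℝ → ℝ := fun t : ℝ => ‖riemannZeta (1 / 2 + t * I) * psi T (1 / 2 + t * I) *
      ER (N1 T) ε (gf T a0 a1 κ) (1 / 2 + t * I)‖ ^ 2 * Real.exp (-((t / T) ^ 2 / 2)) with hG
  have hle : ∀ t, G t ≤ 2 * (2 / lX T) ^ 2 * (paF T a0 a1 κ ε (lX T) t + paF T a0 a1 κ ε (lX T / 2) t) := by
    intro t
    simp only [hG, paF]
    rw [← add_mul, ← mul_assoc]
    refine mul_le_mul_of_nonneg_right ?_ (Real.exp_pos _).le
    set z := riemannZeta (1 / 2 + t * I)
    set P1 := Py (lX T) (1 / 2 + t * I)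
    set P2 := Py (lX T / 2) (1 / 2 + t * I)
    set E := ER (N1 T) ε (gf T a0 a1 κ) (1 / 2 + t * I)
    have e1 : z * psi T (1 / 2 + t * I) * E = ((2 / lX T : ℝ) : ℂ) * (z * P1 * E - z * P2 * E) := by
      unfold psi
      ring
    rw [e1, norm_mul, Complex.norm_real, Real.norm_eq_abs, abs_of_pos (by positivity)]
    have e2 : ‖z * P1 * E - z * P2 * E‖ ^ 2 ≤ 2 * (‖z * P1 * E‖ ^ 2 + ‖z * P2 * E‖ ^ 2) := by
      have := norm_sub_le (z * P1 * E) (z * P2 * E)
      have h1 := norm_nonneg (z * P1 * E)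
      have h2 := norm_nonneg (z * P2 * E)
      have h3 := norm_nonneg (z * P1 * E - z * P2 * E)
      nlinarith [sq_nonneg (‖z * P1 * E‖ - ‖z * P2 * E‖)]
    calc (2 / lX T * ‖z * P1 * E - z * P2 * E‖) ^ 2 = (2 / lX T) ^ 2 * ‖z * P1 * E - z * P2 * E‖ ^ 2 := by
          ring
      _ ≤ (2 / lX T) ^ 2 * (2 * (‖z * P1 * E‖ ^ 2 + ‖z * P2 * E‖ ^ 2)) :=
          mul_le_mul_of_nonneg_left e2 (by positivity)
      _ = _ := by ring
  have hsum : Integrable (fun t => 2 * (2 / lX T) ^ 2 *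
      (paF T a0 a1 κ ε (lX T) t + paF T a0 a1 κ ε (lX T / 2) t)) := (i1.add i2).const_mul _
  have hGc : Continuous G := by
    have cs : Continuous (fun t : ℝ => (1 / 2 + t * I : ℂ)) := by fun_prop
    have hne : ∀ t : ℝ, (1 / 2 + t * I : ℂ) ≠ 1 := by
      intro t h
      have := congrArg Complex.re h
      simp at this
    have cz : Continuous (fun t : ℝ => riemannZeta (1 / 2 + t * I)) := by
      rw [continuous_iff_continuousAt]
      intro t
      exact (differentiableAt_riemannZeta (hne t)).continuousAt.comp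
        (f := fun t : ℝ => (1 / 2 + t * I : ℂ)) cs.continuousAt
    have hcp : ∀ n : ℕ, n ≠ 0 → ∀ f : ℝ → ℂ, Continuous f → Continuous (fun t => (n : ℂ) ^ (f t)) := by
      intro n hn f hf
      have : (n : ℂ) ≠ 0 := by exact_mod_cast hn
      exact hf.const_cpow (Or.inl this)
    have cP : ∀ y, Continuous (fun t : ℝ => Py y (1 / 2 + t * I)) := by
      intro y
      unfold Py
      refine continuous_finsetSum _ fun h hh => continuous_const.mul ?_
      rw [Finset.mem_Icc] at hh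
      exact hcp h (by omega) _ cs.neg
    have cpsi : Continuous (fun t : ℝ => psi T (1 / 2 + t * I)) := by
      unfold psi
      exact continuous_const.mul ((cP _).sub (cP _))
    have cE : Continuous (fun t : ℝ => ER (N1 T) ε (gf T a0 a1 κ) (1 / 2 + t * I)) := by
      unfold ER
      refine continuous_finsetSum _ fun m hm => continuous_const.mul ?_
      rw [Finset.mem_Icc] at hm
      exact hcp m (by omega) _ (by fun_prop)
    exact (((cz.mul cpsi).mul cE).norm.pow 2).mul (by fun_prop)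
  have hG0 : ∀ t, 0 ≤ G t := fun t => by simp only [hG]; positivity
  have hGi : Integrable G := by
    refine hsum.mono' hGc.aestronglyMeasurable (Filter.Eventually.of_forall fun t => ?_)
    rw [Real.norm_eq_abs, abs_of_nonneg (hG0 t)]
    exact hle t
  refine ⟨hGi, ?_⟩
  have h2 : ∫ t, G t ≤ 2 * (2 / lX T) ^ 2 * ((∫ t, paF T a0 a1 κ ε (lX T) t) +
      ∫ t, paF T a0 a1 κ ε (lX T / 2) t) := by
    rw [← integral_add i1 i2, ← integral_const_mul]
    exact integral_mono hGi hsum hle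
  refine h2.trans ?_
  have e1 : (2 / lX T) ^ 2 = 6400 / Real.log T ^ 2 := by
    unfold lX
    field_simp
    norm_num
  rw [e1]
  have h6 : (∫ t, paF T a0 a1 κ ε (lX T) t) + ∫ t, paF T a0 a1 κ ε (lX T / 2) t ≤
      2 * (C * T * Real.log T ^ 2 * el T ^ 3) := by linarith
  calc _ ≤ 2 * (6400 / Real.log T ^ 2) * (2 * (C * T * Real.log T ^ 2 * el T ^ 3)) :=
        mul_le_mul_of_nonneg_left h6 (by positivity)
    _ = 25600 * C * T * el T ^ 3 := by
      field_simp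
      norm_num

end Pool.Agent.ZR
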