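import Pool.Agent.ZR.TF
import Pool.Agent.ZR.AA6

/-!
# Auxiliary facts for the mollified second moment
-/

set_option autoImplicit false

open Complex MeasureTheory Set Finset

namespace Pool.Agent.ZR

theorem pa_cnv_eq (f g : ℝ → ℝ) (Nf Ng : ℕ) {j : ℕ} (hj : 1 ≤ j) :
    cnv f g Nf Ng j = ∑ p ∈ ((Finset.Icc 1 Nf) ×ˢ (Finset.Icc 1 Ng)).filter (fun p => p.1 * p.2 = j),
      mug f p.1 * mug g p.2 := by
  unfold cnv
  rw [← Finset.sum_filter]
  apply Finset.sum_congr _ (fun _ _ => rfl)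
  ext p
  simp only [Finset.mem_filter, Nat.mem_divisorsAntidiagonal, Finset.mem_product, Finset.mem_Icc]
  constructor
  · rintro ⟨⟨h1, h2⟩, h3, h4⟩
    have hp : p.1 * p.2 ≠ 0 := by rw [h1]; exact h2
    exact ⟨⟨⟨Nat.one_le_iff_ne_zero.2 (left_ne_zero_of_mul hp), h3⟩,
      Nat.one_le_iff_ne_zero.2 (right_ne_zero_of_mul hp), h4⟩, h1⟩
  · rintro ⟨⟨⟨h1, h2⟩, h3, h4⟩, h5⟩
    exact ⟨⟨h5, by omega⟩, h2, h4⟩

theorem pa_maps {Nf Ng Y : ℕ} (hY : Nf * Ng ≤ Y) :
    ∀ p ∈ (Finset.Icc 1 Nf) ×ˢ (Finset.Icc 1 Ng), p.1 * p.2 ∈ Finset.Icc 1 Y := by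
  intro p hp
  simp only [Finset.mem_product, Finset.mem_Icc] at hp
  rw [Finset.mem_Icc]
  exact ⟨Nat.one_le_iff_ne_zero.2 (Nat.mul_ne_zero (by omega) (by omega)),
    le_trans (Nat.mul_le_mul hp.1.2 hp.2.2) hY⟩

theorem pa_prod (f g : ℝ → ℝ) {Nf Ng Y : ℕ} (hY : Nf * Ng ≤ Y) (s : ℂ) :
    (∑ h ∈ Finset.Icc 1 Nf, (mug f h : ℂ) * (h : ℂ) ^ (-s)) *
      (∑ m ∈ Finset.Icc 1 Ng, (mug g m : ℂ) * (m : ℂ) ^ (-s)) = DPa (cnv f g Nf Ng) Y s := by
  rw [Finset.sum_mul_sum, ← Finset.sum_product']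
  rw [← Finset.sum_fiberwise_of_maps_to (pa_maps hY)]
  unfold DPa
  refine Finset.sum_congr rfl fun j hj => ?_
  rw [pa_cnv_eq f g Nf Ng (Finset.mem_Icc.1 hj).1]
  push_cast
  rw [Finset.sum_mul]
  refine Finset.sum_congr rfl fun p hp => ?_
  rw [Finset.mem_filter] at hp
  rw [← hp.2]
  push_cast
  rw [Complex.natCast_mul_natCast_cpow]
  ring

theorem pa_abs (f g : ℝ → ℝ) {Nf Ng Y : ℕ} (hY : Nf * Ng ≤ Y) :
    ∑ h ∈ Finset.Icc 1 Y, |cnv f g Nf Ng h| ≤
      (∑ h ∈ Finset.Icc 1 Nf, |mug f h|) * (∑ m ∈ Finset.Icc 1 Ng, |mug g m|) := by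
  rw [Finset.sum_mul_sum, ← Finset.sum_product']
  rw [← Finset.sum_fiberwise_of_maps_to (pa_maps hY)]
  refine Finset.sum_le_sum fun j hj => ?_
  rw [pa_cnv_eq f g Nf Ng (Finset.mem_Icc.1 hj).1]
  refine (Finset.abs_sum_le_sum_abs _ _).trans (Finset.sum_le_sum fun p _ => ?_)
  rw [abs_mul]

theorem pa_conj (g : ℝ → ℝ) (m : ℕ) (t : ℝ) :
    (starRingEnd ℂ) ((mug g m : ℂ) * (m : ℂ) ^ (-(1 / 2 + t * I : ℂ))) =
      (mug g m : ℂ) * (m : ℂ) ^ (-(1 / 2 : ℂ) + (1:ℝ) * ((1 / 2 + t * I : ℂ) - 1 / 2)) := by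
  rw [map_mul, Complex.conj_ofReal]
  congr 1
  have harg : ((m : ℂ)).arg ≠ Real.pi := by
    rw [Complex.natCast_arg]
    exact Real.pi_pos.ne
  have h := Complex.cpow_conj (m : ℂ) (-(1 / 2 + t * I : ℂ)) harg
  rw [Complex.conj_natCast] at h
  rw [← h]
  congr 1
  simp only [map_neg, map_add, map_mul, Complex.conj_ofReal, Complex.conj_I, map_div₀, map_one,
    map_ofNat]
  push_cast
  ring

theorem pa_er_norm (N : ℕ) {ε : ℝ} (hε : ε = 1 ∨ ε = -1) (g : ℝ → ℝ) (t : ℝ) :
    ‖ER N ε g (1 / 2 + t * I)‖ =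
      ‖∑ m ∈ Finset.Icc 1 N, (mug g m : ℂ) * (m : ℂ) ^ (-(1 / 2 + t * I : ℂ))‖ := by
  rcases hε with rfl | rfl
  · rw [← Complex.norm_conj (∑ m ∈ Finset.Icc 1 N, (mug g m : ℂ) * (m : ℂ) ^ (-(1 / 2 + t * I : ℂ))),
      map_sum]
    congr 1
    unfold ER
    exact Finset.sum_congr rfl fun m _ => (pa_conj g m t).symm
  · congr 1
    unfold ER
    refine Finset.sum_congr rfl fun m _ => ?_
    congr 2
    push_cast
    ring

/-- the weight `(y - v) e^(-k v)` -/
theorem pa_smo_f {y k : ℝ} (hy : 0 ≤ y) (hk : 0 ≤ k) (hky : k * y ≤ 1) :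
    Smo y 4 (fun v => (y - v) * Real.exp (-(k * v)))
      (fun v => -Real.exp (-(k * v)) - k * (y - v) * Real.exp (-(k * v)))
      (fun v => 2 * k * Real.exp (-(k * v)) + k ^ 2 * (y - v) * Real.exp (-(k * v))) := by
  have he : ∀ v : ℝ, HasDerivAt (fun v => Real.exp (-(k * v))) (-k * Real.exp (-(k * v))) v := by
    intro v
    have h := (((hasDerivAt_id v).const_mul k).neg).exp
    refine h.congr_deriv ?_
    simp only [id, Pi.neg_apply]
    ring
  constructor
  · intro v _
    have h := ((hasDerivAt_id v).const_sub y).mul (he v)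
    refine h.congr_deriv ?_
    simp only [id]
    ring
  · intro v _
    have h := (he v).neg.sub ((((hasDerivAt_id v).const_sub y).const_mul k).mul (he v))
    refine h.congr_deriv ?_
    simp only [id]
    ring
  · fun_prop
  · simp
  · have hey : Real.exp (-(k * y)) ≤ 1 := Real.exp_le_one_iff.2 (by nlinarith)
    have hey0 := Real.exp_pos (-(k * y))
    have h1 : |-Real.exp (-(k * y)) - k * (y - y) * Real.exp (-(k * y))| ≤ 1 := by
      rw [sub_self, mul_zero, zero_mul, sub_zero, abs_neg, abs_of_pos hey0]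
      exact hey
    have h2 : ∫ v in (0:ℝ)..y, |2 * k * Real.exp (-(k * v)) + k ^ 2 * (y - v) * Real.exp (-(k * v))| ≤
        ∫ v in (0:ℝ)..y, (3 * k) := by
      apply intervalIntegral.integral_mono_on hy
      · apply Continuous.intervalIntegrable; fun_prop
      · apply Continuous.intervalIntegrable; fun_prop
      · intro v hv
        have e1 : Real.exp (-(k * v)) ≤ 1 := Real.exp_le_one_iff.2 (by nlinarith [hv.1])
        have e0 := Real.exp_pos (-(k * v))
        have a1 : 0 ≤ 2 * k * Real.exp (-(k * v)) + k ^ 2 * (y - v) * Real.exp (-(k * v)) := by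
          have : 0 ≤ y - v := by linarith [hv.2]
          positivity
        rw [abs_of_nonneg a1]
        have a2 : k ^ 2 * (y - v) ≤ k := by
          have : k * (y - v) ≤ 1 := by nlinarith [hv.1]
          nlinarith
        have a3 : 0 ≤ k ^ 2 * (y - v) := by
          have : 0 ≤ y - v := by linarith [hv.2]
          positivity
        nlinarith
    rw [intervalIntegral.integral_const, smul_eq_mul, sub_zero] at h2
    linarith

/-- the weight `(1 - v/e) (a0 + a1 v) e^(-k v)` -/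
theorem pa_smo_g {e a0 a1 k : ℝ} (he : 0 < e) (ha0 : |a0| ≤ e) (ha1 : |a1| ≤ 1)
    (hk : |k| * e ≤ 2) (hk1 : ∀ v ∈ Icc 0 e, Real.exp (-(k * v)) ≤ 2) :
    ∃ g' g'' : ℝ → ℝ, Smo e 50 (fun v => (1 - v / e) * (a0 + a1 * v) * Real.exp (-(k * v))) g' g'' := by
  have hexp : ∀ v : ℝ, HasDerivAt (fun v => Real.exp (-(k * v))) (-k * Real.exp (-(k * v))) v := by
    intro v
    have h := (((hasDerivAt_id v).const_mul k).neg).exp
    refine h.congr_deriv ?_
    simp only [id, Pi.neg_apply]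
    ring
  let P : ℝ → ℝ := fun v => (1 - v / e) * (a0 + a1 * v)
  let P1 : ℝ → ℝ := fun v => -(a0 + a1 * v) / e + (1 - v / e) * a1
  let P2 : ℝ := -2 * a1 / e
  have hP : ∀ v, HasDerivAt P (P1 v) v := by
    intro v
    have h := (((hasDerivAt_id v).div_const e).const_sub 1).mul
      (((hasDerivAt_id v).const_mul a1).const_add a0)
    refine h.congr_deriv ?_
    simp only [id, P1]
    ring
  have hP1 : ∀ v, HasDerivAt P1 P2 v := by
    intro v
    have h := ((((hasDerivAt_id v).const_mul a1).const_add a0).neg.div_const e).add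
      ((((hasDerivAt_id v).div_const e).const_sub 1).mul_const a1)
    refine h.congr_deriv ?_
    simp only [P2]
    ring
  have cP : Continuous P := by simp only [P]; fun_prop
  have cP1 : Continuous P1 := by simp only [P1]; fun_prop
  have bP : ∀ v ∈ Icc 0 e, |P v| ≤ 2 * e := by
    intro v hv
    have h1 : |1 - v / e| ≤ 1 := by
      have : 0 ≤ v / e := div_nonneg hv.1 he.le
      have h2 : v / e ≤ 1 := (div_le_one he).2 hv.2
      rw [abs_le]; constructor <;> linarith
    have h2 : |a0 + a1 * v| ≤ 2 * e := by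
      calc |a0 + a1 * v| ≤ |a0| + |a1 * v| := abs_add_le _ _
        _ ≤ e + 1 * e := by
          rw [abs_mul, abs_of_nonneg hv.1]
          exact add_le_add ha0 (mul_le_mul ha1 hv.2 hv.1 (by norm_num))
        _ = 2 * e := by ring
    simp only [P]
    rw [abs_mul]
    calc _ ≤ 1 * (2 * e) := mul_le_mul h1 h2 (abs_nonneg _) (by norm_num)
      _ = 2 * e := by ring
  have bP1 : ∀ v ∈ Icc 0 e, |P1 v| ≤ 3 := by
    intro v hv
    have h1 : |1 - v / e| ≤ 1 := by
      have : 0 ≤ v / e := div_nonneg hv.1 he.le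
      have h2 : v / e ≤ 1 := (div_le_one he).2 hv.2
      rw [abs_le]; constructor <;> linarith
    have h2 : |a0 + a1 * v| ≤ 2 * e := by
      calc |a0 + a1 * v| ≤ |a0| + |a1 * v| := abs_add_le _ _
        _ ≤ e + 1 * e := by
          rw [abs_mul, abs_of_nonneg hv.1]
          exact add_le_add ha0 (mul_le_mul ha1 hv.2 hv.1 (by norm_num))
        _ = 2 * e := by ring
    simp only [P1]
    have h3 : |-(a0 + a1 * v) / e| ≤ 2 := by
      rw [abs_div, abs_neg, abs_of_pos he, div_le_iff₀ he]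
      exact h2
    have h4 : |(1 - v / e) * a1| ≤ 1 := by
      rw [abs_mul]
      calc _ ≤ (1:ℝ) * 1 := mul_le_mul h1 ha1 (abs_nonneg _) (by norm_num)
        _ = 1 := by ring
    calc _ ≤ |-(a0 + a1 * v) / e| + |(1 - v / e) * a1| := abs_add_le _ _
      _ ≤ 3 := by linarith
  have bP2 : |P2| ≤ 2 / e := by
    simp only [P2]
    rw [abs_div, abs_mul, abs_of_pos he]
    apply div_le_div_of_nonneg_right _ he.le
    norm_num
    linarith
  refine ⟨fun v => (P1 v - k * P v) * Real.exp (-(k * v)),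
    fun v => (P2 - 2 * k * P1 v + k ^ 2 * P v) * Real.exp (-(k * v)), ?_, ?_, ?_, ?_, ?_⟩
  · intro v _
    have h := (hP v).mul (hexp v)
    refine h.congr_deriv ?_
    ring
  · intro v _
    have h := ((hP1 v).sub ((hP v).const_mul k)).mul (hexp v)
    refine h.congr_deriv ?_
    simp only [Pi.sub_apply]
    ring
  · apply Continuous.continuousOn
    have c3 : Continuous (fun v => Real.exp (-(k * v))) := by fun_prop
    exact ((continuous_const.sub (continuous_const.mul cP1)).add (continuous_const.mul cP)).mul c3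
  · rw [div_self he.ne']; ring
  · have hee : e ∈ Icc 0 e := ⟨he.le, le_refl _⟩
    have hPe : P e = 0 := by simp only [P]; rw [div_self he.ne']; ring
    have h1 : |(P1 e - k * P e) * Real.exp (-(k * e))| ≤ 6 := by
      rw [hPe, mul_zero, sub_zero, abs_mul, abs_of_pos (Real.exp_pos _)]
      calc _ ≤ (3:ℝ) * 2 := mul_le_mul (bP1 e hee) (hk1 e hee) (Real.exp_pos _).le (by norm_num)
        _ = 6 := by norm_num
    have h2 : ∫ v in (0:ℝ)..e, |(P2 - 2 * k * P1 v + k ^ 2 * P v) * Real.exp (-(k * v))| ≤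
        ∫ v in (0:ℝ)..e, (2 / e + 6 * |k| + 2 * e * |k| ^ 2) * 2 := by
      apply intervalIntegral.integral_mono_on he.le
      · apply Continuous.intervalIntegrable
        have c3 : Continuous (fun v => Real.exp (-(k * v))) := by fun_prop
        exact (((continuous_const.sub (continuous_const.mul cP1)).add
          (continuous_const.mul cP)).mul c3).abs
      · apply Continuous.intervalIntegrable; fun_prop
      · intro v hv
        rw [abs_mul, abs_of_pos (Real.exp_pos _)]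
        have a1 : |P2 - 2 * k * P1 v + k ^ 2 * P v| ≤ 2 / e + 6 * |k| + 2 * e * |k| ^ 2 := by
          have b1 : |P2 - 2 * k * P1 v + k ^ 2 * P v| ≤ |P2| + |2 * k * P1 v| + |k ^ 2 * P v| := by
            calc _ ≤ |P2 - 2 * k * P1 v| + |k ^ 2 * P v| := abs_add_le _ _
              _ ≤ _ := by
                have := abs_sub P2 (2 * k * P1 v)
                linarith
          have b2 : |2 * k * P1 v| ≤ 6 * |k| := by
            rw [abs_mul, abs_mul, abs_of_pos (by norm_num : (0:ℝ) < 2)]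
            have := mul_le_mul_of_nonneg_left (bP1 v hv) (by positivity : 0 ≤ 2 * |k|)
            linarith
          have b3 : |k ^ 2 * P v| ≤ 2 * e * |k| ^ 2 := by
            rw [abs_mul, abs_pow]
            have := mul_le_mul_of_nonneg_left (bP v hv) (by positivity : 0 ≤ |k| ^ 2)
            linarith
          linarith
        exact mul_le_mul a1 (hk1 v hv) (Real.exp_pos _).le (by positivity)
    rw [intervalIntegral.integral_const, smul_eq_mul, sub_zero] at h2
    have h3 : e * ((2 / e + 6 * |k| + 2 * e * |k| ^ 2) * 2) = 4 + 12 * (|k| * e) + 4 * (|k| * e) ^ 2 := by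
      field_simp
      ring
    rw [h3] at h2
    have h4 : 0 ≤ |k| * e := by positivity
    have h5 : (|k| * e) ^ 2 ≤ 4 := by nlinarith
    linarith

end Pool.Agent.ZR
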