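import Pool.Agent.ZR.BAS2

/-!
# Crude bounds and regularity of the polynomials
-/

set_option autoImplicit false

open Complex MeasureTheory Set Finset

namespace Pool.Agent.ZR

lemma pb_Py_diff (y : ℝ) : Differentiable ℂ (Py y) := by
  unfold Py
  refine Differentiable.fun_sum fun h hh => ?_
  rw [Finset.mem_Icc] at hh
  refine (differentiable_const _).mul ?_
  refine Differentiable.const_cpow (differentiable_id.neg) (Or.inl ?_)
  exact_mod_cast (by omega : h ≠ 0)

lemma pb_psi_diff (T : ℝ) : Differentiable ℂ (psi T) := by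
  unfold psi
  exact ((pb_Py_diff _).sub (pb_Py_diff _)).const_mul _

lemma pb_ER_diff (N : ℕ) (ε : ℝ) (g : ℝ → ℝ) : Differentiable ℂ (ER N ε g) := by
  unfold ER
  refine Differentiable.fun_sum fun h hh => ?_
  rw [Finset.mem_Icc] at hh
  refine (differentiable_const _).mul ?_
  refine Differentiable.const_cpow ?_ (Or.inl ?_)
  · fun_prop
  · exact_mod_cast (by omega : h ≠ 0)

lemma pb_moebius (m : ℕ) : |((ArithmeticFunction.moebius m : ℤ) : ℝ)| ≤ 1 := by
  have h := ArithmeticFunction.abs_moebius_le_one (n := m)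
  exact_mod_cast h

/-- Crude bound for `Py`. -/
lemma pb_Py_le {y : ℝ} (hy : 0 ≤ y) {s : ℂ} (hs : -2 ≤ s.re) : ‖Py y s‖ ≤ y * Real.exp (3 * y) := by
  unfold Py
  have hfl : (⌊Real.exp y⌋₊ : ℝ) ≤ Real.exp y := Nat.floor_le (Real.exp_pos _).le
  have h1 : ∀ h ∈ Finset.Icc 1 ⌊Real.exp y⌋₊,
      ‖((mug (fun v => y - v) h : ℝ) : ℂ) * (h : ℂ) ^ (-s)‖ ≤ y * Real.exp (2 * y) := by
    intro h hh
    rw [Finset.mem_Icc] at hh
    have hh1 : (1:ℝ) ≤ h := by exact_mod_cast hh.1
    have hhy : (h:ℝ) ≤ Real.exp y := le_trans (by exact_mod_cast hh.2) hfl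
    have hl0 : 0 ≤ Real.log h := Real.log_nonneg hh1
    have hly : Real.log h ≤ y := by
      rw [Real.log_le_iff_le_exp (by linarith)]
      exact hhy
    rw [norm_mul, Complex.norm_real, Complex.norm_natCast_cpow_of_pos (by omega)]
    refine mul_le_mul ?_ ?_ (by positivity) hy
    · unfold mug
      rw [Real.norm_eq_abs, abs_mul]
      have := pb_moebius h
      have h2 : |y - Real.log h| ≤ y := by
        rw [abs_le]
        constructor <;> linarith
      calc |((ArithmeticFunction.moebius h : ℤ) : ℝ)| * |y - Real.log h| ≤ 1 * y :=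
            mul_le_mul this h2 (abs_nonneg _) zero_le_one
        _ = y := one_mul _
    · calc (h:ℝ) ^ (-s).re ≤ (h:ℝ) ^ (2:ℝ) := by
            apply Real.rpow_le_rpow_of_exponent_le hh1
            rw [Complex.neg_re]
            linarith
        _ ≤ (Real.exp y) ^ (2:ℝ) := Real.rpow_le_rpow (by linarith) hhy (by norm_num)
        _ = Real.exp (2 * y) := by rw [← Real.exp_mul, mul_comm]
  refine (norm_sum_le_of_le _ h1).trans ?_
  rw [Finset.sum_const, Nat.card_Icc, nsmul_eq_mul, Nat.add_sub_cancel]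
  calc (⌊Real.exp y⌋₊ : ℝ) * (y * Real.exp (2 * y)) ≤ Real.exp y * (y * Real.exp (2 * y)) :=
        mul_le_mul_of_nonneg_right hfl (by positivity)
    _ = y * (Real.exp y * Real.exp (2 * y)) := by ring
    _ = y * Real.exp (3 * y) := by rw [← Real.exp_add]; ring_nf

/-- Crude bound for the mollifier. -/
lemma pb_psi_le {T : ℝ} (hT : 0 < lX T) {s : ℂ} (hs : -2 ≤ s.re) :
    ‖psi T s‖ ≤ 3 * Real.exp (3 * lX T) := by
  unfold psi
  have h1 := pb_Py_le hT.le hs
  have h2 := pb_Py_le (y := lX T / 2) (by positivity) hs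
  have h3 : Real.exp (3 * (lX T / 2)) ≤ Real.exp (3 * lX T) := Real.exp_le_exp.2 (by linarith)
  rw [norm_mul, Complex.norm_real, Real.norm_of_nonneg (by positivity)]
  have h4 : ‖Py (lX T) s - Py (lX T / 2) s‖ ≤ 3 / 2 * (lX T * Real.exp (3 * lX T)) := by
    refine (norm_sub_le _ _).trans ?_
    have : lX T / 2 * Real.exp (3 * (lX T / 2)) ≤ lX T / 2 * Real.exp (3 * lX T) :=
      mul_le_mul_of_nonneg_left h3 (by positivity)
    linarith
  calc 2 / lX T * ‖Py (lX T) s - Py (lX T / 2) s‖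
      ≤ 2 / lX T * (3 / 2 * (lX T * Real.exp (3 * lX T))) :=
        mul_le_mul_of_nonneg_left h4 (by positivity)
    _ = 3 * Real.exp (3 * lX T) := by field_simp

/-- Bound for the weights. -/
lemma pb_gf_le {T a0 a1 κ : ℝ} (hT : 1 ≤ el T) (ha0 : |a0| ≤ el T) (ha1 : |a1| ≤ 1)
    (hκ : |κ| ≤ 2 / Real.log T) {v : ℝ} (hv0 : 0 ≤ v) (hv : v ≤ el T) :
    |gf T a0 a1 κ v| ≤ 4 * el T := by
  have hel : 0 < el T := by linarith
  have hL : 0 < Real.log T := by
    have : el T = Real.log T / 10000 := rfl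
    rw [this] at hel
    linarith
  unfold gf
  rw [abs_mul, abs_mul, Real.abs_exp]
  have h1 : |1 - v / el T| ≤ 1 := by
    have h2 : v / el T ≤ 1 := by rw [div_le_one hel]; exact hv
    have h3 : 0 ≤ v / el T := by positivity
    rw [abs_le]
    constructor <;> linarith
  have h2 : |a0 + a1 * v| ≤ 2 * el T := by
    refine (abs_add_le _ _).trans ?_
    rw [abs_mul, abs_of_nonneg hv0]
    have : |a1| * v ≤ 1 * el T := mul_le_mul ha1 hv hv0 zero_le_one
    linarith
  have h3 : Real.exp (-(κ * v)) ≤ 2 := by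
    have h4 : -(κ * v) ≤ 1 / 2 := by
      have h5 : |κ * v| ≤ 2 / Real.log T * el T := by
        rw [abs_mul, abs_of_nonneg hv0]
        exact mul_le_mul hκ hv hv0 (by positivity)
      have h6 : 2 / Real.log T * el T = 1 / 5000 := by
        unfold el
        field_simp
        norm_num
      have := neg_abs_le (κ * v)
      linarith
    calc Real.exp (-(κ * v)) ≤ Real.exp (1 / 2) := Real.exp_le_exp.2 h4
      _ ≤ 2 := by
        have h := Real.exp_one_lt_d9
        have h7 : Real.exp (1 / 2) * Real.exp (1 / 2) = Real.exp 1 := by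
          rw [← Real.exp_add]; norm_num
        nlinarith [Real.exp_pos (1 / 2 : ℝ)]
  calc |1 - v / el T| * |a0 + a1 * v| * Real.exp (-(κ * v)) ≤ 1 * (2 * el T) * 2 := by
        refine mul_le_mul (mul_le_mul h1 h2 (abs_nonneg _) zero_le_one) h3 (Real.exp_pos _).le
          (by positivity)
    _ = 4 * el T := by ring

/-- Crude bound for the test polynomials. -/
lemma pb_ER_le {T a0 a1 κ ε : ℝ} (hT : 1 ≤ el T) (ha0 : |a0| ≤ el T) (ha1 : |a1| ≤ 1)
    (hκ : |κ| ≤ 2 / Real.log T) (hε : ε = 1 ∨ ε = -1) {s : ℂ} (hs : -2 ≤ s.re)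
    (hs' : s.re ≤ 3) :
    ‖ER (N1 T) ε (gf T a0 a1 κ) s‖ ≤ 4 * el T * Real.exp (3 * el T) := by
  unfold ER
  have hel : 0 < el T := by linarith
  have hfl : (N1 T : ℝ) ≤ Real.exp (el T) := Nat.floor_le (Real.exp_pos _).le
  have h1 : ∀ m ∈ Finset.Icc 1 (N1 T),
      ‖((mug (gf T a0 a1 κ) m : ℝ) : ℂ) * (m : ℂ) ^ (-(1 / 2 : ℂ) + ε * (s - 1 / 2))‖ ≤
        4 * el T * Real.exp (2 * el T) := by
    intro m hm
    rw [Finset.mem_Icc] at hm
    have hm1 : (1:ℝ) ≤ m := by exact_mod_cast hm.1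
    have hmy : (m:ℝ) ≤ Real.exp (el T) := le_trans (by exact_mod_cast hm.2) hfl
    have hl0 : 0 ≤ Real.log m := Real.log_nonneg hm1
    have hly : Real.log m ≤ el T := by
      rw [Real.log_le_iff_le_exp (by linarith)]
      exact hmy
    rw [norm_mul, Complex.norm_real, Complex.norm_natCast_cpow_of_pos (by omega)]
    refine mul_le_mul ?_ ?_ (by positivity) (by positivity)
    · unfold mug
      rw [Real.norm_eq_abs, abs_mul]
      have := pb_moebius m
      have h2 := pb_gf_le hT ha0 ha1 hκ hl0 hly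
      calc |((ArithmeticFunction.moebius m : ℤ) : ℝ)| * |gf T a0 a1 κ (Real.log m)| ≤
            1 * (4 * el T) := mul_le_mul this h2 (abs_nonneg _) zero_le_one
        _ = 4 * el T := one_mul _
    · have hre : (-(1 / 2 : ℂ) + ε * (s - 1 / 2)).re = -(1 / 2) + ε * (s.re - 1 / 2) := by
        have : (-(1 / 2 : ℂ) + ε * (s - 1 / 2)) =
            ((-(1 / 2) : ℝ) : ℂ) + (ε : ℂ) * (s - ((1 / 2 : ℝ) : ℂ)) := by
          push_cast
          ring
        rw [this, Complex.add_re, Complex.ofReal_re, Complex.re_ofReal_mul, Complex.sub_re,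
          Complex.ofReal_re]
      have hle : (-(1 / 2 : ℂ) + ε * (s - 1 / 2)).re ≤ 2 := by
        rw [hre]
        rcases hε with rfl | rfl <;> linarith
      calc (m:ℝ) ^ (-(1 / 2 : ℂ) + ε * (s - 1 / 2)).re ≤ (m:ℝ) ^ (2:ℝ) :=
            Real.rpow_le_rpow_of_exponent_le hm1 hle
        _ ≤ (Real.exp (el T)) ^ (2:ℝ) := Real.rpow_le_rpow (by linarith) hmy (by norm_num)
        _ = Real.exp (2 * el T) := by rw [← Real.exp_mul, mul_comm]
  refine (norm_sum_le_of_le _ h1).trans ?_
  rw [Finset.sum_const, Nat.card_Icc, nsmul_eq_mul, Nat.add_sub_cancel]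
  calc (N1 T : ℝ) * (4 * el T * Real.exp (2 * el T)) ≤
        Real.exp (el T) * (4 * el T * Real.exp (2 * el T)) :=
        mul_le_mul_of_nonneg_right hfl (by positivity)
    _ = 4 * el T * (Real.exp (el T) * Real.exp (2 * el T)) := by ring
    _ = 4 * el T * Real.exp (3 * el T) := by rw [← Real.exp_add]; ring_nf

end Pool.Agent.ZR
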