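import Pool.Agent.ZR.PA
import Pool.Agent.ZR.BAS2
import Pool.Agent.ZR.PB_a
import Pool.Agent.H6.LThreeA

/-!
# The line `Re s = 1/2 - 1/log T`
`zeta_left`: `|ζ(sg0+it)| ≤ C (1+|t|)^(1/log T) |ζ(1/2+1/log T - it)|`, `(1+|t|)^(2/log T) ≤ C e^((t/T)²/8)`.
`H(w) = eta(w) ζ(w) psi(1-w) ER(ε,g)(1-w) exp((5/8)(w/T)²)` (`eta ζ = Zf/(w+3)`), analytic in `Re w > -3`:
`Pool.Agent.H6.LThreeA.l1_three_lines` for `H²` between `Re w = 1/2` (`phi_half`) and `Re w = 3` (trivially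
`≤ T^(1+1/10)`), at `v = (1/log T)/(5/2)`: `(T^(1+1/10))^v` is bounded.
-/

set_option autoImplicit false

open Complex MeasureTheory Set Finset

namespace Pool.Agent.ZR

/-- The auxiliary function. -/
noncomputable def pbH (T a0 a1 κ ε : ℝ) (w : ℂ) : ℂ :=
  Zf w / (w + 3) * psi T (1 - w) * ER (N1 T) ε (gf T a0 a1 κ) (1 - w) *
    cexp (((5 / 8 : ℝ) : ℂ) * (w / T) ^ 2)

lemma pbH_diff (T a0 a1 κ ε : ℝ) {w : ℂ} (hw : -3 < w.re) :
    DifferentiableAt ℂ (pbH T a0 a1 κ ε) w := by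
  unfold pbH
  have h3 : w + 3 ≠ 0 := by
    intro h
    have := congrArg Complex.re h
    simp at this
    linarith
  have h1 : Differentiable ℂ (fun w : ℂ => 1 - w) := by fun_prop
  have h2 : Differentiable ℂ (fun w : ℂ => psi T (1 - w)) := (pb_psi_diff T).comp h1
  have h4 : Differentiable ℂ (fun w : ℂ => ER (N1 T) ε (gf T a0 a1 κ) (1 - w)) :=
    (pb_ER_diff (N1 T) ε (gf T a0 a1 κ)).comp h1
  refine ((((Zf_diff w).div ?_ h3).mul (h2 w)).mul (h4 w)).mul ?_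
  · fun_prop
  · fun_prop

lemma pb_gauss (T : ℝ) (w : ℂ) : ‖cexp (((5 / 8 : ℝ) : ℂ) * (w / T) ^ 2)‖ =
    Real.exp (5 / 8 * ((w.re / T) ^ 2 - (w.im / T) ^ 2)) := by
  rw [Complex.norm_exp, Complex.re_ofReal_mul]
  congr 2
  rw [sq, Complex.mul_re, Complex.div_ofReal_re, Complex.div_ofReal_im]
  ring

lemma pb_norm_sub_le {w : ℂ} (hw : -1 ≤ w.re) : ‖w - 1‖ ≤ ‖w + 3‖ := by
  rw [← sq_le_sq₀ (norm_nonneg _) (norm_nonneg _), Complex.sq_norm, Complex.sq_norm,
    Complex.normSq_apply, Complex.normSq_apply]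
  simp only [Complex.sub_re, Complex.one_re, Complex.sub_im, Complex.one_im, Complex.add_re,
    Complex.add_im]
  have h3 : (3 : ℂ).re = 3 := by simp
  have h3' : (3 : ℂ).im = 0 := by simp
  rw [h3, h3']
  nlinarith

lemma pb_add_three {w : ℂ} (hw : -3 < w.re) : 0 < ‖w + 3‖ := by
  rw [norm_pos_iff]
  intro h
  have := congrArg Complex.re h
  simp at this
  linarith

/-- `|eta ζ| ≤ |ζ|`. -/
lemma pb_Zf_le {w : ℂ} (hw : -1 ≤ w.re) (hw1 : w ≠ 1) :
    ‖Zf w / (w + 3)‖ ≤ ‖riemannZeta w‖ := by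
  have h3 := pb_add_three (w := w) (by linarith)
  rw [Zf_eq hw1, norm_div, norm_mul, div_le_iff₀ h3, mul_comm]
  exact mul_le_mul_of_nonneg_left (pb_norm_sub_le hw) (norm_nonneg _)

/-- Integrals over the line of nonnegative continuous functions. -/
lemma pb_int {G : ℝ → ℝ} (hc : Continuous G) (h0 : ∀ x, 0 ≤ G x) {J : ℝ}
    (h : ∀ R : ℝ, ∫ x in Icc (-R) R, G x ≤ J) : Integrable G ∧ ∫ x, G x ≤ J := by
  have h1 : ∀ n : ℕ, ∫ x in (-(n:ℝ))..n, G x ≤ J := by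
    intro n
    rw [intervalIntegral.integral_of_le (by linarith [Nat.cast_nonneg (α := ℝ) n]),
      ← integral_Icc_eq_integral_Ioc]
    exact h n
  have ha : Filter.Tendsto (fun n : ℕ => -(n:ℝ)) Filter.atTop Filter.atBot :=
    Filter.tendsto_neg_atTop_atBot.comp tendsto_natCast_atTop_atTop
  have hb : Filter.Tendsto (fun n : ℕ => (n:ℝ)) Filter.atTop Filter.atTop :=
    tendsto_natCast_atTop_atTop
  have hi : Integrable G := by
    refine integrable_of_intervalIntegral_norm_bounded J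
      (fun n : ℕ => (hc.integrableOn_Icc (a := -(n:ℝ)) (b := n)).mono_set Ioc_subset_Icc_self) ha hb
      (Filter.Eventually.of_forall fun n => ?_)
    simp only [Real.norm_of_nonneg (h0 _)]
    exact h1 n
  exact ⟨hi, le_of_tendsto' (intervalIntegral_tendsto_integral hi ha hb) h1⟩

/-- The left edge. -/
lemma pb_edge0 {T a0 a1 κ ε : ℝ} (hT : 1 ≤ T) (x : ℝ) :
    ‖pbH T a0 a1 κ ε ((1 / 2 : ℂ) + (5 / 2 : ℂ) * (x * I)) ^ 2‖ ≤
      2 * (‖riemannZeta (1 / 2 + ((-(5 / 2) * x : ℝ) : ℂ) * I) *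
        psi T (1 / 2 + ((-(5 / 2) * x : ℝ) : ℂ) * I) *
        ER (N1 T) ε (gf T a0 a1 κ) (1 / 2 + ((-(5 / 2) * x : ℝ) : ℂ) * I)‖ ^ 2 *
        Real.exp (-(((-(5 / 2) * x) / T) ^ 2 / 2))) := by
  set w : ℂ := (1 / 2 : ℂ) + (5 / 2 : ℂ) * (x * I) with hw
  set s : ℂ := 1 / 2 + ((-(5 / 2) * x : ℝ) : ℂ) * I with hs
  have hw' : w = ((1 / 2 : ℝ) : ℂ) + ((5 / 2 * x : ℝ) : ℂ) * I := by
    rw [hw]; push_cast; ring
  have hre : w.re = 1 / 2 := by rw [hw']; simp
  have him : w.im = 5 / 2 * x := by rw [hw']; simp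
  have h1 : 1 - w = s := by rw [hw', hs]; push_cast; ring
  have h2 : (starRingEnd ℂ) w = s := by
    rw [← h1]
    apply Complex.ext
    · rw [Complex.conj_re, Complex.sub_re, Complex.one_re, hre]; norm_num
    · rw [Complex.conj_im, Complex.sub_im, Complex.one_im, him]; ring
  have hw1 : w ≠ 1 := by
    intro h
    rw [h] at hre
    norm_num at hre
  have hz : ‖riemannZeta w‖ = ‖riemannZeta s‖ := by
    rw [← h2, riemannZeta_conj, Complex.norm_conj]
  have hZ : ‖Zf w / (w + 3)‖ ≤ ‖riemannZeta s‖ := by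
    rw [← hz]
    exact pb_Zf_le (by rw [hre]; norm_num) hw1
  have hT0 : 0 < T := by linarith
  have hg : ‖cexp (((5 / 8 : ℝ) : ℂ) * (w / T) ^ 2)‖ ^ 2 ≤
      2 * Real.exp (-(((-(5 / 2) * x) / T) ^ 2 / 2)) := by
    rw [pb_gauss, hre, him, ← Real.exp_nat_mul]
    have h4 : (((2:ℕ) : ℝ) * (5 / 8 * ((1 / 2 / T) ^ 2 - (5 / 2 * x / T) ^ 2))) ≤
        1 / 2 + (-(((-(5 / 2) * x) / T) ^ 2 / 2)) := by
      have h5 : (1 / 2 / T) ^ 2 ≤ 1 / 4 := by
        have h6 : 1 / 2 / T ≤ 1 / 2 := by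
          rw [div_le_iff₀ hT0]; linarith
        have h7 : 0 ≤ 1 / 2 / T := by positivity
        nlinarith
      have h8 : ((-(5 / 2) * x) / T) ^ 2 = (5 / 2 * x / T) ^ 2 := by ring
      rw [h8]
      push_cast
      nlinarith [sq_nonneg (5 / 2 * x / T)]
    refine (Real.exp_le_exp.2 h4).trans ?_
    rw [Real.exp_add]
    refine mul_le_mul_of_nonneg_right ?_ (Real.exp_pos _).le
    have h := Real.exp_one_lt_d9
    have h7 : Real.exp (1 / 2) * Real.exp (1 / 2) = Real.exp 1 := by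
      rw [← Real.exp_add]; norm_num
    nlinarith [Real.exp_pos (1 / 2 : ℝ)]
  unfold pbH
  rw [h1, norm_pow, norm_mul, norm_mul, norm_mul, mul_pow, norm_mul, norm_mul]
  calc (‖Zf w / (w + 3)‖ * ‖psi T s‖ * ‖ER (N1 T) ε (gf T a0 a1 κ) s‖) ^ 2 *
        ‖cexp (((5 / 8 : ℝ) : ℂ) * (w / T) ^ 2)‖ ^ 2
      ≤ (‖riemannZeta s‖ * ‖psi T s‖ * ‖ER (N1 T) ε (gf T a0 a1 κ) s‖) ^ 2 *
        (2 * Real.exp (-(((-(5 / 2) * x) / T) ^ 2 / 2))) := by
        refine mul_le_mul ?_ hg (by positivity) (by positivity)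
        gcongr
    _ = _ := by ring

lemma pb_log_sq {L : ℝ} (hL : 0 ≤ L) : L ^ 2 ≤ 8 * Real.exp (L / 2) := by
  have h := Real.quadratic_le_exp_of_nonneg (x := L / 2) (by positivity)
  nlinarith

/-- The right edge. -/
lemma pb_edge1 {T a0 a1 κ ε : ℝ} (hT : Real.exp 10000 ≤ T) (ha0 : |a0| ≤ el T) (ha1 : |a1| ≤ 1)
    (hκ : |κ| ≤ 2 / Real.log T) (hε : ε = 1 ∨ ε = -1) (x : ℝ) :
    ‖pbH T a0 a1 κ ε ((1 / 2 : ℂ) + (5 / 2 : ℂ) * (1 + x * I)) ^ 2‖ ≤
      T ^ 2 * Real.exp (-(125 / 16 / T ^ 2) * x ^ 2) := by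
  have hT0 : 0 < T := (Real.exp_pos _).trans_le hT
  have hT1 : 1 ≤ T := (Real.one_le_exp (by norm_num)).trans hT
  have hL : 10000 ≤ Real.log T := by
    rw [Real.le_log_iff_exp_le hT0]; exact hT
  have hel : 1 ≤ el T := by unfold el; linarith
  have hlX : 0 < lX T := by unfold lX; linarith
  set w : ℂ := (1 / 2 : ℂ) + (5 / 2 : ℂ) * (1 + x * I) with hw
  have hw' : w = ((3 : ℝ) : ℂ) + ((5 / 2 * x : ℝ) : ℂ) * I := by
    rw [hw]; push_cast; ring
  have hre : w.re = 3 := by rw [hw']; simp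
  have him : w.im = 5 / 2 * x := by rw [hw']; simp
  have hw1 : w ≠ 1 := by
    intro h
    rw [h] at hre
    norm_num at hre
  have hZ : ‖Zf w / (w + 3)‖ ≤ 2 := by
    refine (pb_Zf_le (by rw [hre]; norm_num) hw1).trans ?_
    have h := zeta_three (s := w) (by rw [hre]; norm_num)
    have h2 : ‖riemannZeta w‖ ≤ ‖riemannZeta w - 1‖ + ‖(1:ℂ)‖ := by
      have := norm_add_le (riemannZeta w - 1) 1
      simpa using this
    rw [norm_one] at h2
    linarith
  have hr1 : -2 ≤ (1 - w).re := by rw [Complex.sub_re, hre, Complex.one_re]; norm_num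
  have hr2 : (1 - w).re ≤ 3 := by rw [Complex.sub_re, hre, Complex.one_re]; norm_num
  have hp := pb_psi_le hlX hr1
  have he := pb_ER_le hel ha0 ha1 hκ hε hr1 hr2
  have hg : ‖cexp (((5 / 8 : ℝ) : ℂ) * (w / T) ^ 2)‖ ^ 2 ≤
      2 * Real.exp (-(125 / 16 / T ^ 2) * x ^ 2) := by
    rw [pb_gauss, hre, him, ← Real.exp_nat_mul]
    have h4 : (((2:ℕ) : ℝ) * (5 / 8 * ((3 / T) ^ 2 - (5 / 2 * x / T) ^ 2))) ≤
        1 / 2 + (-(125 / 16 / T ^ 2) * x ^ 2) := by
      have h5 : (3 / T) ^ 2 ≤ 1 / 100 := by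
        have h6 : 3 / T ≤ 1 / 10 := by
          rw [div_le_iff₀ hT0]
          have : (10000:ℝ) + 1 ≤ Real.exp 10000 := Real.add_one_le_exp _
          linarith
        have h7 : 0 ≤ 3 / T := by positivity
        nlinarith
      have h8 : -(125 / 16 / T ^ 2) * x ^ 2 = -(5 / 4 * (5 / 2 * x / T) ^ 2) := by
        field_simp
        ring
      rw [h8]
      push_cast
      nlinarith
    refine (Real.exp_le_exp.2 h4).trans ?_
    rw [Real.exp_add]
    refine mul_le_mul_of_nonneg_right ?_ (Real.exp_pos _).le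
    have h := Real.exp_one_lt_d9
    have h7 : Real.exp (1 / 2) * Real.exp (1 / 2) = Real.exp 1 := by
      rw [← Real.exp_add]; norm_num
    nlinarith [Real.exp_pos (1 / 2 : ℝ)]
  unfold pbH
  rw [norm_pow, norm_mul, norm_mul, norm_mul, mul_pow]
  have hbig : (2 * (3 * Real.exp (3 * lX T)) * (4 * el T * Real.exp (3 * el T))) ^ 2 * 2 ≤
      T ^ 2 := by
    have h1 : (2 * (3 * Real.exp (3 * lX T)) * (4 * el T * Real.exp (3 * el T))) ^ 2 * 2 =
        1152 * el T ^ 2 * (Real.exp (3 * lX T) ^ 2 * Real.exp (3 * el T) ^ 2) := by ring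
    have h2 : Real.exp (3 * lX T) ^ 2 * Real.exp (3 * el T) ^ 2 =
        Real.exp (6 * lX T + 6 * el T) := by
      rw [← Real.exp_nat_mul, ← Real.exp_nat_mul, ← Real.exp_add]
      congr 1
      push_cast
      ring
    have h3 : 1152 * el T ^ 2 ≤ Real.exp (Real.log T / 2) := by
      have := pb_log_sq (L := Real.log T) (by linarith)
      have h5 : el T ^ 2 = Real.log T ^ 2 / 100000000 := by unfold el; ring
      rw [h5]
      have := Real.exp_pos (Real.log T / 2)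
      linarith
    have h4 : T ^ 2 = Real.exp (2 * Real.log T) := by
      rw [← Real.log_rpow hT0, Real.exp_log (by positivity)]
      norm_cast
    rw [h1, h2, h4]
    calc 1152 * el T ^ 2 * Real.exp (6 * lX T + 6 * el T)
        ≤ Real.exp (Real.log T / 2) * Real.exp (6 * lX T + 6 * el T) :=
          mul_le_mul_of_nonneg_right h3 (Real.exp_pos _).le
      _ = Real.exp (Real.log T / 2 + (6 * lX T + 6 * el T)) := (Real.exp_add _ _).symm
      _ ≤ Real.exp (2 * Real.log T) := by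
          apply Real.exp_le_exp.2
          unfold lX el
          linarith
  calc (‖Zf w / (w + 3)‖ * ‖psi T (1 - w)‖ * ‖ER (N1 T) ε (gf T a0 a1 κ) (1 - w)‖) ^ 2 *
        ‖cexp (((5 / 8 : ℝ) : ℂ) * (w / T) ^ 2)‖ ^ 2
      ≤ (2 * (3 * Real.exp (3 * lX T)) * (4 * el T * Real.exp (3 * el T))) ^ 2 *
        (2 * Real.exp (-(125 / 16 / T ^ 2) * x ^ 2)) := by
        refine mul_le_mul ?_ hg (by positivity) (by positivity)
        gcongr
    _ = ((2 * (3 * Real.exp (3 * lX T)) * (4 * el T * Real.exp (3 * el T))) ^ 2 * 2) *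
        Real.exp (-(125 / 16 / T ^ 2) * x ^ 2) := by ring
    _ ≤ T ^ 2 * Real.exp (-(125 / 16 / T ^ 2) * x ^ 2) :=
        mul_le_mul_of_nonneg_right hbig (Real.exp_pos _).le

/-- Boundedness in the strip. -/
lemma pb_strip {T a0 a1 κ ε : ℝ} (hT : Real.exp 10000 ≤ T) (ha0 : |a0| ≤ el T) (ha1 : |a1| ≤ 1)
    (hκ : |κ| ≤ 2 / Real.log T) (hε : ε = 1 ∨ ε = -1) :
    ∃ B : ℝ, ∀ w : ℂ, 0 ≤ w.re → w.re ≤ 1 →
      ‖pbH T a0 a1 κ ε ((1 / 2 : ℂ) + (5 / 2 : ℂ) * w) ^ 2‖ ≤ B := by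
  have hT0 : 0 < T := (Real.exp_pos _).trans_le hT
  have hL : 10000 ≤ Real.log T := by
    rw [Real.le_log_iff_exp_le hT0]; exact hT
  have hel : 1 ≤ el T := by unfold el; linarith
  have hlX : 0 < lX T := by unfold lX; linarith
  obtain ⟨C, A, hC, hZ⟩ := Zf_growth
  set P : ℝ := 3 * Real.exp (3 * lX T) with hP
  set Q : ℝ := 4 * el T * Real.exp (3 * el T) with hQ
  have hP0 : 0 < P := by positivity
  have hQ0 : 0 < Q := by positivity
  refine ⟨(C * ((A.factorial : ℝ) * Real.exp (13 + T ^ 2)) * P * Q) ^ 2, ?_⟩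
  intro w' h0 h1
  set w : ℂ := (1 / 2 : ℂ) + (5 / 2 : ℂ) * w' with hw
  have hw' : w = ((1 / 2 : ℝ) : ℂ) + ((5 / 2 : ℝ) : ℂ) * w' := by
    rw [hw]; push_cast; ring
  have hre : w.re = 1 / 2 + 5 / 2 * w'.re := by
    rw [hw', Complex.add_re, Complex.ofReal_re, Complex.re_ofReal_mul]
  have hre1 : 1 / 2 ≤ w.re := by rw [hre]; linarith
  have hre2 : w.re ≤ 3 := by rw [hre]; linarith
  have hr1 : -2 ≤ (1 - w).re := by rw [Complex.sub_re, Complex.one_re]; linarith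
  have hr2 : (1 - w).re ≤ 3 := by rw [Complex.sub_re, Complex.one_re]; linarith
  have hp := pb_psi_le hlX hr1
  have he := pb_ER_le hel ha0 ha1 hκ hε hr1 hr2
  have h3 : 1 ≤ ‖w + 3‖ := by
    have := Complex.re_le_norm (w + 3)
    rw [Complex.add_re] at this
    have h3 : (3 : ℂ).re = 3 := by simp
    rw [h3] at this
    linarith
  have hn : ‖w‖ ≤ 3 + |w.im| := by
    have := Complex.norm_le_abs_re_add_abs_im w
    rw [abs_of_nonneg (by linarith : 0 ≤ w.re)] at this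
    linarith
  have hzz : ‖Zf w / (w + 3)‖ * Real.exp (5 / 8 * ((w.re / T) ^ 2 - (w.im / T) ^ 2)) ≤
      C * ((A.factorial : ℝ) * Real.exp (13 + T ^ 2)) := by
    have e1 : ‖Zf w / (w + 3)‖ ≤ C * (1 + ‖w‖) ^ A := by
      rw [norm_div]
      exact (div_le_self (norm_nonneg _) h3).trans (hZ w (by linarith))
    have e2 : (1 + ‖w‖) ^ A ≤ (A.factorial : ℝ) * Real.exp (4 + |w.im|) := by
      have h5 : (1 + ‖w‖) ^ A ≤ (4 + |w.im|) ^ A :=
        pow_le_pow_left₀ (by positivity) (by linarith) _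
      refine h5.trans ?_
      have := Real.pow_div_factorial_le_exp (4 + |w.im|) (by positivity) A
      rw [div_le_iff₀ (by positivity)] at this
      linarith [mul_comm (Real.exp (4 + |w.im|)) (A.factorial : ℝ)]
    have e3 : 4 + |w.im| + 5 / 8 * ((w.re / T) ^ 2 - (w.im / T) ^ 2) ≤ 13 + T ^ 2 := by
      have h6 : (w.re / T) ^ 2 ≤ 9 := by
        have h7 : w.re / T ≤ 3 := by
          rw [div_le_iff₀ hT0]
          have : 1 ≤ T := (Real.one_le_exp (by norm_num)).trans hT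
          nlinarith
        have h8 : 0 ≤ w.re / T := div_nonneg (by linarith) hT0.le
        nlinarith
      have h9 : |w.im| ≤ 5 / 8 * (w.im / T) ^ 2 + T ^ 2 := by
        have h10 : |w.im| = |w.im / T| * T := by
          rw [abs_div, abs_of_pos hT0]
          field_simp
        have h11 : (w.im / T) ^ 2 = |w.im / T| ^ 2 := (sq_abs _).symm
        rw [h11, h10]
        nlinarith [sq_nonneg (|w.im / T| - T), sq_nonneg (|w.im / T|), sq_nonneg T,
          sq_nonneg (|w.im / T| / 2 - T)]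
      linarith
    calc ‖Zf w / (w + 3)‖ * Real.exp (5 / 8 * ((w.re / T) ^ 2 - (w.im / T) ^ 2))
        ≤ (C * ((A.factorial : ℝ) * Real.exp (4 + |w.im|))) *
          Real.exp (5 / 8 * ((w.re / T) ^ 2 - (w.im / T) ^ 2)) := by
          refine mul_le_mul_of_nonneg_right (e1.trans ?_) (Real.exp_pos _).le
          exact mul_le_mul_of_nonneg_left e2 (by linarith)
      _ = C * ((A.factorial : ℝ) *
          Real.exp (4 + |w.im| + 5 / 8 * ((w.re / T) ^ 2 - (w.im / T) ^ 2))) := by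
          rw [Real.exp_add (4 + |w.im|)]
          ring
      _ ≤ C * ((A.factorial : ℝ) * Real.exp (13 + T ^ 2)) := by
          have := Real.exp_le_exp.2 e3
          gcongr
  unfold pbH
  rw [norm_pow, norm_mul, norm_mul, norm_mul, pb_gauss]
  apply pow_le_pow_left₀ (by positivity)
  calc ‖Zf w / (w + 3)‖ * ‖psi T (1 - w)‖ * ‖ER (N1 T) ε (gf T a0 a1 κ) (1 - w)‖ *
        Real.exp (5 / 8 * ((w.re / T) ^ 2 - (w.im / T) ^ 2))
      = (‖Zf w / (w + 3)‖ * Real.exp (5 / 8 * ((w.re / T) ^ 2 - (w.im / T) ^ 2))) *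
        ‖psi T (1 - w)‖ * ‖ER (N1 T) ε (gf T a0 a1 κ) (1 - w)‖ := by ring
    _ ≤ (C * ((A.factorial : ℝ) * Real.exp (13 + T ^ 2))) * P * Q := by
        have h0' : 0 ≤ C * ((A.factorial : ℝ) * Real.exp (13 + T ^ 2)) := by
          have : 0 ≤ C := by linarith
          positivity
        refine mul_le_mul (mul_le_mul hzz hp (norm_nonneg _) h0') he (norm_nonneg _) ?_
        exact mul_nonneg h0' hP0.le

/-- Comparison of the weights. -/
lemma pb_weight {T t : ℝ} (hT : Real.exp 10000 ≤ T) :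
    ((1 + |t|) ^ (1 / Real.log T)) ^ 2 * Real.exp (-(1 / 4 * (t / T) ^ 2)) ≤ 16 := by
  have hT0 : 0 < T := (Real.exp_pos _).trans_le hT
  have hT1 : 1 ≤ T := (Real.one_le_exp (by norm_num)).trans hT
  have hL : 10000 ≤ Real.log T := by
    rw [Real.le_log_iff_exp_le hT0]; exact hT
  have hL0 : 0 < Real.log T := by linarith
  set y : ℝ := |t| / T with hy
  have hy0 : 0 ≤ y := by positivity
  have h1 : ((1 + |t|) ^ (1 / Real.log T)) ^ 2 ≤ Real.exp 2 * (1 + y) := by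
    have e1 : 1 + |t| ≤ T * (1 + y) := by
      have : T * y = |t| := by rw [hy]; field_simp
      nlinarith
    have e2 : ((1 + |t|) ^ (1 / Real.log T)) ^ 2 = (1 + |t|) ^ (2 / Real.log T) := by
      rw [← Real.rpow_natCast, ← Real.rpow_mul (by positivity)]
      congr 1
      push_cast
      ring
    rw [e2]
    have e3 : (1 + |t|) ^ (2 / Real.log T) ≤ (T * (1 + y)) ^ (2 / Real.log T) :=
      Real.rpow_le_rpow (by positivity) e1 (by positivity)
    refine e3.trans ?_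
    rw [Real.mul_rpow hT0.le (by positivity)]
    have e4 : T ^ (2 / Real.log T) = Real.exp 2 := by
      rw [Real.rpow_def_of_pos hT0]
      congr 1
      field_simp
    rw [e4]
    refine mul_le_mul_of_nonneg_left ?_ (Real.exp_pos _).le
    calc (1 + y) ^ (2 / Real.log T) ≤ (1 + y) ^ (1:ℝ) := by
          apply Real.rpow_le_rpow_of_exponent_le (by linarith)
          rw [div_le_one hL0]
          linarith
      _ = 1 + y := Real.rpow_one _
  have h2 : (1 + y) * Real.exp (-(1 / 4 * (t / T) ^ 2)) ≤ 2 := by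
    have e1 : (t / T) ^ 2 = y ^ 2 := by
      rw [hy, div_pow, div_pow, sq_abs]
    rw [e1, Real.exp_neg, ← div_eq_mul_inv, div_le_iff₀ (Real.exp_pos _)]
    have := Real.add_one_le_exp (1 / 4 * y ^ 2)
    nlinarith [sq_nonneg (y - 1)]
  have h3 : Real.exp 2 ≤ 8 := by
    have h := Real.exp_one_lt_d9
    have : Real.exp 2 = Real.exp 1 * Real.exp 1 := by rw [← Real.exp_add]; norm_num
    rw [this]
    nlinarith [Real.exp_pos (1:ℝ)]
  calc ((1 + |t|) ^ (1 / Real.log T)) ^ 2 * Real.exp (-(1 / 4 * (t / T) ^ 2))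
      ≤ (Real.exp 2 * (1 + y)) * Real.exp (-(1 / 4 * (t / T) ^ 2)) :=
        mul_le_mul_of_nonneg_right h1 (Real.exp_pos _).le
    _ = Real.exp 2 * ((1 + y) * Real.exp (-(1 / 4 * (t / T) ^ 2))) := by ring
    _ ≤ 8 * 2 := mul_le_mul h3 h2 (by positivity) (by norm_num)
    _ = 16 := by norm_num

/-- The pointwise comparison. -/
lemma pb_point {Cz : ℝ} (hCz : 1 ≤ Cz) (hz : ∀ x t : ℝ, 0 ≤ x → x ≤ 1 / 4 →
    ‖riemannZeta (((1 / 2 - x : ℝ) : ℂ) + t * I)‖ ≤
      Cz * (1 + |t|) ^ x * ‖riemannZeta (((1 / 2 + x : ℝ) : ℂ) - t * I)‖)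
    {T a0 a1 κ ε : ℝ} (hT : Real.exp 10000 ≤ T) (t : ℝ) :
    ‖eta ((sg0 T : ℂ) + t * I) * riemannZeta ((sg0 T : ℂ) + t * I) *
      psi T ((sg0 T : ℂ) + t * I) * ER (N1 T) ε (gf T a0 a1 κ) ((sg0 T : ℂ) + t * I)‖ ^ 2 *
        Real.exp (-(3 / 2 * (t / T) ^ 2)) ≤
    4624 * Cz ^ 2 * ‖pbH T a0 a1 κ ε ((1 / 2 : ℂ) + (5 / 2 : ℂ) *
      (((2 / 5 / Real.log T : ℝ) : ℂ) + ((-(2 / 5) * t : ℝ) : ℂ) * I)) ^ 2‖ := by
  have hT0 : 0 < T := (Real.exp_pos _).trans_le hT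
  have hT1 : 1 ≤ T := (Real.one_le_exp (by norm_num)).trans hT
  have hL : 10000 ≤ Real.log T := by
    rw [Real.le_log_iff_exp_le hT0]; exact hT
  have hL0 : 0 < Real.log T := by linarith
  set b : ℝ := 1 / Real.log T with hb
  have hb0 : 0 ≤ b := by positivity
  have hb1 : b ≤ 1 / 4 := by
    rw [hb, div_le_iff₀ hL0]; linarith
  set s : ℂ := (sg0 T : ℂ) + t * I with hs
  have hs' : s = ((1 / 2 - b : ℝ) : ℂ) + t * I := by rw [hs]; rfl
  have hwdef : (1 / 2 : ℂ) + (5 / 2 : ℂ) *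
      (((2 / 5 / Real.log T : ℝ) : ℂ) + ((-(2 / 5) * t : ℝ) : ℂ) * I) =
      ((1 / 2 + b : ℝ) : ℂ) - t * I := by
    rw [hb]; push_cast; ring
  rw [hwdef]
  set w : ℂ := ((1 / 2 + b : ℝ) : ℂ) - t * I with hw
  have h1 : 1 - w = s := by rw [hw, hs']; push_cast; ring
  have hre : w.re = 1 / 2 + b := by rw [hw]; simp
  have him : w.im = -t := by rw [hw]; simp
  have hsre : s.re = 1 / 2 - b := by rw [hs']; simp
  have hw1 : w ≠ 1 := by
    intro h
    rw [h, Complex.one_re] at hre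
    linarith
  have heta : ‖eta s‖ ≤ 1 := by
    unfold eta
    rw [norm_div]
    have h3 := pb_add_three (w := s) (by rw [hsre]; linarith)
    rw [div_le_one h3]
    exact pb_norm_sub_le (by rw [hsre]; linarith)
  have hzs : ‖riemannZeta s‖ ≤ Cz * (1 + |t|) ^ b * ‖riemannZeta w‖ := by
    rw [hs', hw]
    exact hz b t hb0 hb1
  have hzw : ‖riemannZeta w‖ ≤ 17 * ‖Zf w / (w + 3)‖ := by
    have h3 := pb_add_three (w := w) (by rw [hre]; linarith)
    rw [Zf_eq hw1, norm_div, norm_mul]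
    have h4 : ‖w + 3‖ ≤ 17 * ‖w - 1‖ := by
      have h5 : ‖w + 3‖ ≤ ‖w - 1‖ + 4 := by
        have := norm_add_le (w - 1) 4
        have h6 : w - 1 + 4 = w + 3 := by ring
        rw [h6] at this
        simpa using this
      have h7 : 1 / 4 ≤ ‖w - 1‖ := by
        have := Complex.abs_re_le_norm (w - 1)
        rw [Complex.sub_re, hre, Complex.one_re] at this
        have h8 := neg_abs_le (1 / 2 + b - 1)
        linarith
      linarith
    rw [← mul_div_assoc, le_div_iff₀ h3]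
    have := mul_le_mul_of_nonneg_left h4 (norm_nonneg (riemannZeta w))
    linarith
  have hH : ‖pbH T a0 a1 κ ε w‖ = ‖Zf w / (w + 3)‖ * ‖psi T s‖ *
      ‖ER (N1 T) ε (gf T a0 a1 κ) s‖ * Real.exp (5 / 8 * (((1 / 2 + b) / T) ^ 2 - (t / T) ^ 2)) := by
    unfold pbH
    rw [h1, norm_mul, norm_mul, norm_mul, pb_gauss, hre, him]
    congr 3
    ring
  have hgl : Real.exp (-(5 / 8 * (t / T) ^ 2)) ≤
      Real.exp (5 / 8 * (((1 / 2 + b) / T) ^ 2 - (t / T) ^ 2)) := by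
    apply Real.exp_le_exp.2
    nlinarith [sq_nonneg ((1 / 2 + b) / T)]
  set X : ℝ := ‖Zf w / (w + 3)‖ * ‖psi T s‖ * ‖ER (N1 T) ε (gf T a0 a1 κ) s‖ with hX
  have hX0 : 0 ≤ X := by positivity
  have e1 : ‖eta s * riemannZeta s * psi T s * ER (N1 T) ε (gf T a0 a1 κ) s‖ ≤
      Cz * (1 + |t|) ^ b * (17 * X) := by
    rw [norm_mul, norm_mul, norm_mul]
    calc ‖eta s‖ * ‖riemannZeta s‖ * ‖psi T s‖ * ‖ER (N1 T) ε (gf T a0 a1 κ) s‖
        ≤ 1 * (Cz * (1 + |t|) ^ b * (17 * ‖Zf w / (w + 3)‖)) * ‖psi T s‖ *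
          ‖ER (N1 T) ε (gf T a0 a1 κ) s‖ := by
          have : ‖riemannZeta s‖ ≤ Cz * (1 + |t|) ^ b * (17 * ‖Zf w / (w + 3)‖) :=
            hzs.trans (mul_le_mul_of_nonneg_left hzw (by positivity))
          gcongr
      _ = Cz * (1 + |t|) ^ b * (17 * X) := by rw [hX]; ring
  have e2 : X * Real.exp (-(5 / 8 * (t / T) ^ 2)) ≤ ‖pbH T a0 a1 κ ε w‖ := by
    rw [hH]
    exact mul_le_mul_of_nonneg_left hgl hX0
  have e3 : Real.exp (-(3 / 2 * (t / T) ^ 2)) =
      Real.exp (-(1 / 4 * (t / T) ^ 2)) * Real.exp (-(5 / 8 * (t / T) ^ 2)) ^ 2 := by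
    rw [← Real.exp_nat_mul, ← Real.exp_add]
    congr 1
    push_cast
    ring
  rw [norm_pow]
  calc ‖eta s * riemannZeta s * psi T s * ER (N1 T) ε (gf T a0 a1 κ) s‖ ^ 2 *
        Real.exp (-(3 / 2 * (t / T) ^ 2))
      ≤ (Cz * (1 + |t|) ^ b * (17 * X)) ^ 2 * Real.exp (-(3 / 2 * (t / T) ^ 2)) := by
        refine mul_le_mul_of_nonneg_right ?_ (Real.exp_pos _).le
        exact pow_le_pow_left₀ (norm_nonneg _) e1 2
    _ = 289 * Cz ^ 2 * (((1 + |t|) ^ b) ^ 2 * Real.exp (-(1 / 4 * (t / T) ^ 2))) *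
        (X * Real.exp (-(5 / 8 * (t / T) ^ 2))) ^ 2 := by rw [e3]; ring
    _ ≤ 289 * Cz ^ 2 * 16 * ‖pbH T a0 a1 κ ε w‖ ^ 2 := by
        have := pb_weight (t := t) hT
        rw [← hb] at this
        gcongr
    _ = 4624 * Cz ^ 2 * ‖pbH T a0 a1 κ ε w‖ ^ 2 := by ring

theorem phi_left : ∃ C T0 : ℝ, 0 < C ∧ 3 ≤ T0 ∧ ∀ T a0 a1 κ ε : ℝ, T0 ≤ T → |a0| ≤ el T → |a1| ≤ 1 →
    |κ| ≤ 2 / Real.log T → (ε = 1 ∨ ε = -1) →
    Integrable (fun t : ℝ => ‖eta ((sg0 T : ℂ) + t * I) * riemannZeta ((sg0 T : ℂ) + t * I) *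
      psi T ((sg0 T : ℂ) + t * I) * ER (N1 T) ε (gf T a0 a1 κ) ((sg0 T : ℂ) + t * I)‖ ^ 2 *
        Real.exp (-(3 / 2 * (t / T) ^ 2))) ∧
    ∫ t : ℝ, ‖eta ((sg0 T : ℂ) + t * I) * riemannZeta ((sg0 T : ℂ) + t * I) *
      psi T ((sg0 T : ℂ) + t * I) * ER (N1 T) ε (gf T a0 a1 κ) ((sg0 T : ℂ) + t * I)‖ ^ 2 *
        Real.exp (-(3 / 2 * (t / T) ^ 2)) ≤ C * T * el T ^ 3 := by
  obtain ⟨C, T0, hC, hT0, hhalf⟩ := phi_half
  obtain ⟨Cz, hCz, hz⟩ := zeta_left
  set C' : ℝ := max C 1 with hC'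
  have hC'1 : 1 ≤ C' := le_max_right _ _
  refine ⟨4624 * Cz ^ 2 * (5 / 2 * (4 * C')), max T0 (Real.exp 10000), by positivity,
    hT0.trans (le_max_left _ _), ?_⟩
  intro T a0 a1 κ ε hT ha0 ha1 hκ hε
  have hTe : Real.exp 10000 ≤ T := (le_max_right _ _).trans hT
  have hTp : 0 < T := (Real.exp_pos _).trans_le hTe
  have hT1 : 1 ≤ T := (Real.one_le_exp (by norm_num)).trans hTe
  have hL : 10000 ≤ Real.log T := by
    rw [Real.le_log_iff_exp_le hTp]; exact hTe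
  have hL0 : 0 < Real.log T := by linarith
  have hel : 1 ≤ el T := by unfold el; linarith
  obtain ⟨hi, hI⟩ := hhalf T a0 a1 κ ε ((le_max_left _ _).trans hT) ha0 ha1 hκ hε
  obtain ⟨B, hB⟩ := pb_strip hTe ha0 ha1 hκ hε
  set g : ℂ → ℂ := fun w => pbH T a0 a1 κ ε ((1 / 2 : ℂ) + (5 / 2 : ℂ) * w) ^ 2 with hg
  have hgd : ∀ w : ℂ, -1 < w.re → DifferentiableAt ℂ g w := by
    intro w hw
    rw [hg]
    refine DifferentiableAt.fun_pow ?_ 2
    refine DifferentiableAt.comp (f := fun w : ℂ => (1 / 2 : ℂ) + (5 / 2 : ℂ) * w)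
      (g := pbH T a0 a1 κ ε) w (pbH_diff T a0 a1 κ ε (w := (1 / 2 : ℂ) + (5 / 2 : ℂ) * w) ?_) ?_
    · have : (1 / 2 : ℂ) + (5 / 2 : ℂ) * w = ((1 / 2 : ℝ) : ℂ) + ((5 / 2 : ℝ) : ℂ) * w := by
        push_cast; ring
      rw [this, Complex.add_re, Complex.ofReal_re, Complex.re_ofReal_mul]
      linarith
    · fun_prop
  have hcv : ∀ v : ℝ, 0 ≤ v → Continuous (fun x : ℝ => ‖g (v + x * I)‖) := by
    intro v hv
    refine continuous_norm.comp ?_
    rw [continuous_iff_continuousAt]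
    intro x
    refine ContinuousAt.comp (f := fun x : ℝ => (v : ℂ) + x * I) (g := g) ?_ (by fun_prop)
    refine (hgd _ ?_).continuousAt
    simp
    linarith
  -- the left edge
  set Ph : ℝ → ℝ := fun t : ℝ => ‖riemannZeta (1 / 2 + t * I) * psi T (1 / 2 + t * I) *
      ER (N1 T) ε (gf T a0 a1 κ) (1 / 2 + t * I)‖ ^ 2 * Real.exp (-((t / T) ^ 2 / 2)) with hPh
  have hPi : Integrable (fun x : ℝ => 2 * Ph (-(5 / 2) * x)) :=
    (hi.comp_mul_left' (by norm_num)).const_mul 2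
  have hle0 : ∀ x : ℝ, ‖g (x * I)‖ ≤ 2 * Ph (-(5 / 2) * x) := fun x => pb_edge0 hT1 x
  have hc0 : Continuous (fun x : ℝ => ‖g (x * I)‖) := by
    have := hcv 0 le_rfl
    simpa using this
  have h0 : Integrable (fun x : ℝ => ‖g (x * I)‖) := by
    refine hPi.mono' hc0.aestronglyMeasurable (Filter.Eventually.of_forall fun x => ?_)
    rw [norm_norm]
    exact hle0 x
  have h0' : ∫ x : ℝ, ‖g (x * I)‖ ≤ C' * T * el T ^ 3 := by
    calc ∫ x : ℝ, ‖g (x * I)‖ ≤ ∫ x : ℝ, 2 * Ph (-(5 / 2) * x) :=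
          integral_mono h0 hPi hle0
      _ = 2 * (|(-(5 / 2 : ℝ))⁻¹| • ∫ y, Ph y) := by
          rw [integral_const_mul, Measure.integral_comp_mul_left]
      _ = 4 / 5 * ∫ y, Ph y := by
          rw [smul_eq_mul, inv_neg, abs_neg, abs_of_pos (by norm_num)]
          ring
      _ ≤ 4 / 5 * (C * T * el T ^ 3) := mul_le_mul_of_nonneg_left hI (by norm_num)
      _ ≤ 1 * (C' * T * el T ^ 3) := by
          have : C * T * el T ^ 3 ≤ C' * T * el T ^ 3 := by
            have : C ≤ C' := le_max_left _ _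
            gcongr
          have h2 : 0 ≤ C * T * el T ^ 3 := by positivity
          linarith
      _ = _ := one_mul _
  -- the right edge
  have hb : 0 < 125 / 16 / T ^ 2 := by positivity
  have hGi : Integrable (fun x : ℝ => T ^ 2 * Real.exp (-(125 / 16 / T ^ 2) * x ^ 2)) :=
    (integrable_exp_neg_mul_sq hb).const_mul _
  have hle1 : ∀ x : ℝ, ‖g (1 + x * I)‖ ≤ T ^ 2 * Real.exp (-(125 / 16 / T ^ 2) * x ^ 2) :=
    fun x => pb_edge1 hTe ha0 ha1 hκ hε x
  have hc1 : Continuous (fun x : ℝ => ‖g (1 + x * I)‖) := by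
    have := hcv 1 zero_le_one
    simpa using this
  have h1 : Integrable (fun x : ℝ => ‖g (1 + x * I)‖) := by
    refine hGi.mono' hc1.aestronglyMeasurable (Filter.Eventually.of_forall fun x => ?_)
    rw [norm_norm]
    exact hle1 x
  have h1' : ∫ x : ℝ, ‖g (1 + x * I)‖ ≤ T ^ 3 := by
    calc ∫ x : ℝ, ‖g (1 + x * I)‖ ≤ ∫ x : ℝ, T ^ 2 * Real.exp (-(125 / 16 / T ^ 2) * x ^ 2) :=
          integral_mono h1 hGi hle1
      _ = T ^ 2 * √(Real.pi / (125 / 16 / T ^ 2)) := by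
          rw [integral_const_mul, integral_gaussian]
      _ ≤ T ^ 2 * T := by
          refine mul_le_mul_of_nonneg_left ?_ (by positivity)
          rw [Real.sqrt_le_left hTp.le, div_div_eq_mul_div, div_le_iff₀ (by norm_num)]
          have := Real.pi_lt_four
          have h3 : 0 < T ^ 2 := by positivity
          nlinarith
      _ = T ^ 3 := by ring
  -- interpolation
  set v : ℝ := 2 / 5 / Real.log T with hv
  have hv0 : 0 ≤ v := by positivity
  have hv1 : v ≤ 1 := by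
    rw [hv, div_le_one hL0]; linarith
  have hJ1 : 1 ≤ C' * T * el T ^ 3 := by
    have : 1 ≤ el T ^ 3 := one_le_pow₀ hel
    have h2 : 1 ≤ C' * T := by nlinarith
    nlinarith
  have hJ : (C' * T * el T ^ 3) ^ (1 - v) * (T ^ 3) ^ v ≤ 4 * C' * T * el T ^ 3 := by
    have e1 : (C' * T * el T ^ 3) ^ (1 - v) ≤ C' * T * el T ^ 3 := by
      calc (C' * T * el T ^ 3) ^ (1 - v) ≤ (C' * T * el T ^ 3) ^ (1:ℝ) :=
            Real.rpow_le_rpow_of_exponent_le hJ1 (by linarith)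
        _ = _ := Real.rpow_one _
    have e2 : (T ^ 3) ^ v = Real.exp (6 / 5) := by
      rw [Real.rpow_def_of_pos (by positivity), Real.log_pow]
      congr 1
      rw [hv]
      push_cast
      field_simp
      norm_num
    have e3 : Real.exp (6 / 5) ≤ 4 := by
      have h := Real.exp_one_lt_d9
      have h5 : Real.exp (6 / 5) ≤ Real.exp (5 / 4) := Real.exp_le_exp.2 (by norm_num)
      have h4 : Real.exp (5 / 4) ^ 4 = Real.exp 1 ^ 5 := by
        rw [← Real.exp_nat_mul, ← Real.exp_nat_mul]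
        norm_num
      have h6 : Real.exp 1 ^ 5 ≤ 4 ^ 4 := by
        have h7 : Real.exp 1 ^ 5 ≤ 2.7182818286 ^ 5 :=
          pow_le_pow_left₀ (Real.exp_pos _).le h.le 5
        refine h7.trans (by norm_num)
      have h8 : Real.exp (5 / 4) ^ 4 ≤ 4 ^ 4 := by rw [h4]; exact h6
      have h9 := (pow_le_pow_iff_left₀ (Real.exp_pos _).le (by norm_num) (by norm_num)).1 h8
      linarith
    rw [e2]
    calc (C' * T * el T ^ 3) ^ (1 - v) * Real.exp (6 / 5) ≤ (C' * T * el T ^ 3) * 4 :=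
          mul_le_mul e1 e3 (Real.exp_pos _).le (by linarith)
      _ = _ := by ring
  have hmain : ∀ R : ℝ, ∫ x in Icc (-R) R, ‖g (v + x * I)‖ ≤ 4 * C' * T * el T ^ 3 := by
    intro R
    exact (Pool.Agent.H6.l1_three_lines (by norm_num : (-1:ℝ) < 0) hgd hB h0 h0' h1 h1' hv0 hv1
      R).trans hJ
  obtain ⟨hGint, hGle⟩ := pb_int (hcv v hv0) (fun x => norm_nonneg _) hmain
  -- conclusion
  have hGs : Integrable (fun t : ℝ => 4624 * Cz ^ 2 *
      ‖g (v + ((-(2 / 5) * t : ℝ) : ℂ) * I)‖) := by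
    refine Integrable.const_mul ?_ _
    exact hGint.comp_mul_left' (R := -(2 / 5)) (by norm_num)
  have hFle : ∀ t : ℝ, ‖eta ((sg0 T : ℂ) + t * I) * riemannZeta ((sg0 T : ℂ) + t * I) *
      psi T ((sg0 T : ℂ) + t * I) * ER (N1 T) ε (gf T a0 a1 κ) ((sg0 T : ℂ) + t * I)‖ ^ 2 *
        Real.exp (-(3 / 2 * (t / T) ^ 2)) ≤
      4624 * Cz ^ 2 * ‖g (v + ((-(2 / 5) * t : ℝ) : ℂ) * I)‖ := fun t =>
    pb_point hCz hz hTe t
  have hFc : Continuous (fun t : ℝ => ‖eta ((sg0 T : ℂ) + t * I) *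
      riemannZeta ((sg0 T : ℂ) + t * I) *
      psi T ((sg0 T : ℂ) + t * I) * ER (N1 T) ε (gf T a0 a1 κ) ((sg0 T : ℂ) + t * I)‖ ^ 2 *
        Real.exp (-(3 / 2 * (t / T) ^ 2))) := by
    have hsg : sg0 T < 1 := by
      unfold sg0
      have : 0 < 1 / Real.log T := by positivity
      linarith
    have hsg2 : -3 < sg0 T := by
      unfold sg0
      have : 1 / Real.log T ≤ 1 := by rw [div_le_one hL0]; linarith
      linarith
    have hlin : Continuous (fun t : ℝ => (sg0 T : ℂ) + t * I) := by fun_prop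
    have hre : ∀ t : ℝ, ((sg0 T : ℂ) + t * I).re = sg0 T := by intro t; simp
    refine Continuous.mul (Continuous.pow (continuous_norm.comp ?_) 2) (by fun_prop)
    refine ((Continuous.mul ?_ ?_).mul ((pb_psi_diff T).continuous.comp hlin)).mul
      ((pb_ER_diff _ _ _).continuous.comp hlin)
    · unfold eta
      refine Continuous.div (by fun_prop) (by fun_prop) ?_
      intro t h
      have := congrArg Complex.re h
      rw [Complex.add_re, hre] at this
      simp at this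
      linarith
    · rw [continuous_iff_continuousAt]
      intro t
      refine ContinuousAt.comp (f := fun t : ℝ => (sg0 T : ℂ) + t * I) (g := riemannZeta) ?_
        hlin.continuousAt
      refine (differentiableAt_riemannZeta ?_).continuousAt
      intro h
      have := congrArg Complex.re h
      rw [hre, Complex.one_re] at this
      linarith
  have hFi := hGs.mono' hFc.aestronglyMeasurable (Filter.Eventually.of_forall fun t => by
    rw [Real.norm_of_nonneg (by positivity)]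
    exact hFle t)
  refine ⟨hFi, ?_⟩
  refine (integral_mono hFi hGs hFle).trans ?_
  rw [integral_const_mul]
  have hsc : ∫ t : ℝ, ‖g (v + ((-(2 / 5) * t : ℝ) : ℂ) * I)‖ =
      5 / 2 * ∫ x : ℝ, ‖g (v + x * I)‖ := by
    have := Measure.integral_comp_mul_left (fun x : ℝ => ‖g (v + x * I)‖) (-(2 / 5))
    rw [this, smul_eq_mul, inv_neg, abs_neg, abs_of_pos (by norm_num)]
    norm_num
  rw [hsc]
  calc 4624 * Cz ^ 2 * (5 / 2 * ∫ x : ℝ, ‖g (v + x * I)‖)
      ≤ 4624 * Cz ^ 2 * (5 / 2 * (4 * C' * T * el T ^ 3)) := by gcongr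
    _ = _ := by ring

end Pool.Agent.ZR
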