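import Pool.Agent.ZR.BAS1
import Pool.Agent.MM2.TAU

/-!
# The line `Re s = 3`
`ζ psi - 1 = ∑_{N > e^(lX/2)} c_N N^(-s)`, `|c_N| ≤ τ(N) ≤ 2 √N` for `Re s > 1` (the coefficients of `psi` are
`μ(h)` for `h ≤ e^(lX/2)` and bounded by 1), so `|ζ psi - 1| ≤ K e^(-(Re s - 2) lX/2)` for `Re s ≥ 2`; the derivative
by Cauchy's estimate on the circle of radius `1/2`.
-/

set_option autoImplicit false

open Complex MeasureTheory Set Finset

namespace Pool.Agent.ZR

namespace PC

lemma Py_diff (y : ℝ) : Differentiable ℂ (Py y) := by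
  unfold Py
  apply Differentiable.fun_sum
  intro h hh
  have h1 : 1 ≤ h := (Finset.mem_Icc.mp hh).1
  have h0 : (h : ℂ) ≠ 0 := by exact_mod_cast (by omega : h ≠ 0)
  exact (differentiable_const _).mul (differentiable_id.neg.const_cpow (Or.inl h0))

lemma psi_diff (T : ℝ) : Differentiable ℂ (psi T) := by
  unfold psi
  exact (differentiable_const _).mul ((Py_diff _).sub (Py_diff _))

/-- the weights of the mollifier -/
noncomputable def bw (T : ℝ) (h : ℕ) : ℝ :=
  if Real.log h ≤ lX T / 2 then 1 else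
    if Real.log h ≤ lX T then 2 / lX T * (lX T - Real.log h) else 0

lemma bw_abs {T : ℝ} (hX : 0 < lX T) (h : ℕ) : |bw T h| ≤ 1 := by
  unfold bw
  split_ifs with h1 h2
  · simp
  · push Not at h1
    have e1 : 0 ≤ 2 / lX T * (lX T - Real.log h) := by
      have : 0 ≤ lX T - Real.log h := by linarith
      positivity
    rw [abs_of_nonneg e1]
    calc 2 / lX T * (lX T - Real.log h) ≤ 2 / lX T * (lX T / 2) := by
          have : 0 ≤ 2 / lX T := by positivity
          exact mul_le_mul_of_nonneg_left (by linarith) this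
      _ = 1 := by field_simp
  · simp

/-- the coefficients of the mollifier -/
noncomputable def bc (T : ℝ) (h : ℕ) : ℂ :=
  ((((ArithmeticFunction.moebius h : ℤ) : ℝ) * bw T h : ℝ) : ℂ)

lemma bc_norm {T : ℝ} (hX : 0 < lX T) (h : ℕ) : ‖bc T h‖ ≤ 1 := by
  unfold bc
  rw [Complex.norm_real, Real.norm_eq_abs, abs_mul]
  have hmu : |((ArithmeticFunction.moebius h : ℤ) : ℝ)| ≤ 1 := by
    exact_mod_cast ArithmeticFunction.abs_moebius_le_one
  calc _ ≤ 1 * 1 := mul_le_mul hmu (bw_abs hX h) (abs_nonneg _) zero_le_one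
    _ = 1 := one_mul 1

lemma psi_eq {T : ℝ} (hX : 0 < lX T) (s : ℂ) : psi T s = LSeries (bc T) s := by
  have hM : ∀ h : ℕ, 1 ≤ h → (h ≤ ⌊Real.exp (lX T)⌋₊ ↔ Real.log h ≤ lX T) := by
    intro h h1
    have hpos : (0 : ℝ) < h := by exact_mod_cast h1
    rw [Nat.le_floor_iff (Real.exp_pos _).le, Real.log_le_iff_le_exp hpos]
  have hM' : ∀ h : ℕ, 1 ≤ h → (h ≤ ⌊Real.exp (lX T / 2)⌋₊ ↔ Real.log h ≤ lX T / 2) := by
    intro h h1
    have hpos : (0 : ℝ) < h := by exact_mod_cast h1
    rw [Nat.le_floor_iff (Real.exp_pos _).le, Real.log_le_iff_le_exp hpos]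
  rw [LSeries, tsum_eq_sum (s := Finset.Icc 1 ⌊Real.exp (lX T)⌋₊)]
  · unfold psi Py
    have hsub : ∑ h ∈ Finset.Icc 1 ⌊Real.exp (lX T / 2)⌋₊,
        (mug (fun v => lX T / 2 - v) h : ℂ) * (h : ℂ) ^ (-s) =
        ∑ h ∈ Finset.Icc 1 ⌊Real.exp (lX T)⌋₊, if Real.log h ≤ lX T / 2 then
          (mug (fun v => lX T / 2 - v) h : ℂ) * (h : ℂ) ^ (-s) else 0 := by
      rw [← Finset.sum_filter]
      congr 1
      ext h
      simp only [Finset.mem_Icc, Finset.mem_filter]
      constructor
      · rintro ⟨h1, h2⟩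
        have h3 := (hM' h h1).1 h2
        exact ⟨⟨h1, (hM h h1).2 (by linarith)⟩, h3⟩
      · rintro ⟨⟨h1, h2⟩, h3⟩
        exact ⟨h1, (hM' h h1).2 h3⟩
    rw [hsub, ← Finset.sum_sub_distrib, Finset.mul_sum]
    refine Finset.sum_congr rfl fun h hh => ?_
    have h1 : 1 ≤ h := (Finset.mem_Icc.1 hh).1
    have h2 := (hM h h1).1 (Finset.mem_Icc.1 hh).2
    have hdiv : bc T h / (h : ℂ) ^ s = bc T h * (h : ℂ) ^ (-s) := by
      rw [Complex.cpow_neg, div_eq_mul_inv]
    rw [LSeries.term_of_ne_zero (by omega), hdiv]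
    unfold bc bw mug
    by_cases h3 : Real.log h ≤ lX T / 2
    · rw [if_pos h3, if_pos h3]
      have : ((2 / lX T : ℝ) : ℂ) * (lX T / 2 : ℝ) = 1 := by
        rw [← Complex.ofReal_mul]
        have : 2 / lX T * (lX T / 2) = 1 := by field_simp
        rw [this]; simp
      calc _ = (((ArithmeticFunction.moebius h : ℤ) : ℝ) : ℂ) * (((2 / lX T : ℝ) : ℂ) *
            (lX T / 2 : ℝ)) * (h : ℂ) ^ (-s) := by push_cast; ring
        _ = _ := by rw [this]; push_cast; ring
    · rw [if_neg h3, if_neg h3, if_pos h2]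
      push_cast; ring
  · intro h hh
    rcases Nat.eq_zero_or_pos h with h0 | h0
    · rw [h0]; simp
    · have h1 : ¬ Real.log h ≤ lX T := fun h2 =>
        hh (Finset.mem_Icc.2 ⟨h0, (hM h h0).2 h2⟩)
      have h2 : ¬ Real.log h ≤ lX T / 2 := fun h3 => h1 (by linarith)
      rw [LSeries.term_of_ne_zero (by omega)]
      unfold bc bw
      rw [if_neg h2, if_neg h1]
      simp

/-- the coefficients of `ζ psi` -/
noncomputable def cc (T : ℝ) : ℕ → ℂ := LSeries.convolution 1 (bc T)

lemma cc_norm {T : ℝ} (hX : 0 < lX T) (n : ℕ) : ‖cc T n‖ ≤ 2 * √(n : ℝ) := by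
  unfold cc
  rw [LSeries.convolution_def]
  calc ‖∑ p ∈ n.divisorsAntidiagonal, (1 : ℕ → ℂ) p.1 * bc T p.2‖
      ≤ ∑ p ∈ n.divisorsAntidiagonal, ‖(1 : ℕ → ℂ) p.1 * bc T p.2‖ := norm_sum_le _ _
    _ ≤ ∑ p ∈ n.divisorsAntidiagonal, (1 : ℝ) := by
        refine Finset.sum_le_sum fun p _ => ?_
        rw [norm_mul]
        simpa using bc_norm hX p.2
    _ = (n.divisors.card : ℝ) := by
        rw [Finset.sum_const, nsmul_eq_mul, mul_one, ← Nat.map_div_right_divisors,
          Finset.card_map]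
    _ ≤ 2 * √(n : ℝ) := Pool.Agent.MM2.tau_sqrt n

lemma cc_small {T : ℝ} {n : ℕ} (hn : 1 ≤ n) (hl : Real.log n ≤ lX T / 2) :
    cc T n = LSeries.delta n := by
  unfold cc
  rw [LSeries.convolution_def]
  have e1 : ∀ p ∈ n.divisorsAntidiagonal, (1 : ℕ → ℂ) p.1 * bc T p.2 =
      ((ArithmeticFunction.moebius p.2 : ℤ) : ℂ) := by
    intro p hp
    rw [Nat.mem_divisorsAntidiagonal] at hp
    have hp2 : p.2 ∣ n := ⟨p.1, by rw [← hp.1, mul_comm]⟩
    have hle : p.2 ≤ n := Nat.le_of_dvd (by omega) hp2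
    have hpos : 0 < p.2 := Nat.pos_of_dvd_of_pos hp2 (by omega)
    have : Real.log p.2 ≤ lX T / 2 :=
      le_trans (Real.log_le_log (by exact_mod_cast hpos) (by exact_mod_cast hle)) hl
    unfold bc bw
    rw [if_pos this]
    simp
  show ∑ p ∈ n.divisorsAntidiagonal, (1 : ℕ → ℂ) p.1 * bc T p.2 = LSeries.delta n
  rw [Finset.sum_congr rfl e1]
  have e2 : ∑ p ∈ n.divisorsAntidiagonal, ((ArithmeticFunction.moebius p.2 : ℤ) : ℂ) =
      ∑ i ∈ n.divisors, ((ArithmeticFunction.moebius i : ℤ) : ℂ) :=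
    Nat.sum_divisorsAntidiagonal' (fun _ i => ((ArithmeticFunction.moebius i : ℤ) : ℂ))
  rw [e2]
  have e3 : ∑ i ∈ n.divisors, (ArithmeticFunction.moebius i : ℤ) = if n = 1 then 1 else 0 := by
    have h1 := congrArg (fun f : ArithmeticFunction ℤ => f n)
      ArithmeticFunction.coe_zeta_mul_moebius
    simp only [ArithmeticFunction.coe_zeta_mul_apply, ArithmeticFunction.one_apply] at h1
    exact h1
  have e4 : ∑ i ∈ n.divisors, ((ArithmeticFunction.moebius i : ℤ) : ℂ) =
      ((∑ i ∈ n.divisors, (ArithmeticFunction.moebius i : ℤ) : ℤ) : ℂ) := by push_cast; rfl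
  rw [e4, e3]
  unfold LSeries.delta
  split_ifs <;> simp

lemma key : ∃ K : ℝ, 0 < K ∧ ∀ T : ℝ, 1 < T → ∀ s : ℂ, 2 ≤ s.re →
    ‖riemannZeta s * psi T s - 1‖ ≤ K * Real.exp (-((s.re - 2) * (Real.log T / 80))) := by
  have hsum : Summable fun n : ℕ => (n : ℝ) ^ (-(3 / 2) : ℝ) := by
    rw [Real.summable_nat_rpow]; norm_num
  refine ⟨2 * (∑' n : ℕ, (n : ℝ) ^ (-(3 / 2) : ℝ)) + 1, ?_, ?_⟩
  · have : 0 ≤ ∑' n : ℕ, (n : ℝ) ^ (-(3 / 2) : ℝ) := tsum_nonneg fun n => by positivity
    linarith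
  intro T hT s hs
  have hL : 0 < Real.log T := Real.log_pos hT
  have hX : 0 < lX T := by unfold lX; positivity
  have hs1 : 1 < s.re := by linarith
  have hS1 : LSeriesSummable (1 : ℕ → ℂ) s := LSeriesSummable_one_iff.2 hs1
  have hS2 : LSeriesSummable (bc T) s :=
    LSeriesSummable_of_bounded_of_one_lt_re (fun n _ => bc_norm hX n) hs1
  have hS3 : LSeriesSummable LSeries.delta s := by
    refine LSeriesSummable_of_bounded_of_one_lt_re (m := 1) (fun n _ => ?_) hs1
    unfold LSeries.delta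
    split_ifs <;> simp
  have hSc : LSeriesSummable (cc T) s := hS1.convolution hS2
  have e1 : riemannZeta s * psi T s - 1 = LSeries (cc T - LSeries.delta) s := by
    rw [LSeries_sub hSc hS3, LSeries_delta, psi_eq hX, ← LSeries_one_eq_riemannZeta hs1]
    unfold cc
    rw [LSeries_convolution' hS1 hS2]
    simp
  rw [e1]
  set A : ℝ := Real.exp (-((s.re - 2) * (Real.log T / 80))) with hA
  have hApos : 0 < A := Real.exp_pos _
  have hb : HasSum (fun n : ℕ => 2 * A * (n : ℝ) ^ (-(3 / 2) : ℝ))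
      (2 * A * ∑' n : ℕ, (n : ℝ) ^ (-(3 / 2) : ℝ)) := hsum.hasSum.mul_left _
  have h2 : ‖LSeries (cc T - LSeries.delta) s‖ ≤ 2 * A * ∑' n : ℕ, (n : ℝ) ^ (-(3 / 2) : ℝ) := by
    unfold LSeries
    refine tsum_of_norm_bounded hb fun n => ?_
    rcases Nat.eq_zero_or_pos n with h0 | h0
    · rw [h0]
      simp only [LSeries.term_zero, norm_zero]
      positivity
    rw [LSeries.term_of_ne_zero (by omega), Pi.sub_apply]
    by_cases hl : Real.log n ≤ lX T / 2
    · rw [cc_small h0 hl]
      simp only [sub_self, zero_div, norm_zero]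
      positivity
    · push Not at hl
      have hn1 : n ≠ 1 := by
        intro h; rw [h] at hl; simp at hl; linarith
      have hd : LSeries.delta n = 0 := by
        unfold LSeries.delta; rw [if_neg hn1]
      rw [hd, sub_zero, norm_div, Complex.norm_natCast_cpow_of_pos h0]
      have hnpos : (0 : ℝ) < n := by exact_mod_cast h0
      have h5 : (n : ℝ) ^ (-(s.re - 2)) ≤ A := by
        rw [Real.rpow_def_of_pos hnpos, hA]
        refine Real.exp_le_exp.2 ?_
        have h6 : Real.log T / 80 ≤ Real.log n := by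
          unfold lX at hl
          linarith
        nlinarith
      calc ‖cc T n‖ / (n : ℝ) ^ s.re ≤ 2 * √(n : ℝ) / (n : ℝ) ^ s.re := by
            exact div_le_div_of_nonneg_right (cc_norm hX n) (by positivity)
        _ = 2 * (n : ℝ) ^ (-(s.re - 2)) * (n : ℝ) ^ (-(3 / 2) : ℝ) := by
            rw [Real.sqrt_eq_rpow, mul_div_assoc, ← Real.rpow_sub hnpos, mul_assoc,
              ← Real.rpow_add hnpos]
            congr 2
            ring
        _ ≤ 2 * A * (n : ℝ) ^ (-(3 / 2) : ℝ) := by gcongr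
  calc _ ≤ _ := h2
    _ ≤ (2 * (∑' n : ℕ, (n : ℝ) ^ (-(3 / 2) : ℝ)) + 1) * A := by nlinarith

lemma eta_le {s : ℂ} (hs : -1 ≤ s.re) : ‖eta s‖ ≤ 1 := by
  unfold eta
  rw [norm_div]
  have h3 : s + 3 ≠ 0 := by
    intro h
    have := congrArg Complex.re h
    simp at this
    linarith
  rw [div_le_one (norm_pos_iff.mpr h3)]
  rw [← sq_le_sq₀ (norm_nonneg _) (norm_nonneg _), Complex.sq_norm, Complex.sq_norm,
    Complex.normSq_apply, Complex.normSq_apply]
  simp only [Complex.sub_re, Complex.one_re, Complex.sub_im, Complex.one_im, Complex.add_re,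
    Complex.add_im]
  have e1 : (3 : ℂ).re = 3 := by norm_num
  have e2 : (3 : ℂ).im = 0 := by norm_num
  rw [e1, e2]
  nlinarith

/-- pointwise bound of the test polynomial -/
lemma er_sup {T a0 a1 κ ε : ℝ} (hT : 3 ≤ T) (h0 : |a0| ≤ el T) (h1 : |a1| ≤ 1)
    (hκ : |κ| ≤ 2 / Real.log T) (hε : ε = 1 ∨ ε = -1) {s : ℂ} (hs0 : 0 ≤ s.re) (hs3 : s.re ≤ 3) :
    ‖ER (N1 T) ε (gf T a0 a1 κ) s‖ ≤ 6 * el T * Real.exp (3 * el T) := by
  have hL : 0 < Real.log T := Real.log_pos (by linarith)
  have hel : 0 < el T := by unfold el; positivity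
  have hN : (N1 T : ℝ) ≤ Real.exp (el T) := Nat.floor_le (Real.exp_pos _).le
  unfold ER
  calc _ ≤ ∑ m ∈ Finset.Icc 1 (N1 T), ‖(mug (gf T a0 a1 κ) m : ℂ) *
        (m : ℂ) ^ (-(1 / 2 : ℂ) + ε * (s - 1 / 2))‖ := norm_sum_le _ _
    _ ≤ ∑ m ∈ Finset.Icc 1 (N1 T), 6 * el T * Real.exp (2 * el T) := by
        refine Finset.sum_le_sum fun m hm => ?_
        have hm1 : 1 ≤ m := (Finset.mem_Icc.1 hm).1
        have hmR : (1 : ℝ) ≤ (m : ℝ) := by exact_mod_cast hm1
        have hmN : (m : ℝ) ≤ Real.exp (el T) :=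
          le_trans (by exact_mod_cast (Finset.mem_Icc.1 hm).2) hN
        have hlm0 : 0 ≤ Real.log m := Real.log_nonneg hmR
        have hlm : Real.log m ≤ el T := by
          have := Real.log_le_log (by linarith) hmN
          rwa [Real.log_exp] at this
        rw [norm_mul]
        refine mul_le_mul ?_ ?_ (norm_nonneg _) (by positivity)
        · rw [Complex.norm_real, Real.norm_eq_abs]
          unfold mug
          rw [abs_mul]
          have hmu : |((ArithmeticFunction.moebius m : ℤ) : ℝ)| ≤ 1 := by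
            exact_mod_cast ArithmeticFunction.abs_moebius_le_one
          have hg : |gf T a0 a1 κ (Real.log m)| ≤ 6 * el T := by
            unfold gf
            rw [abs_mul, abs_mul]
            have e1 : |1 - Real.log m / el T| ≤ 1 := by
              have : Real.log m / el T ≤ 1 := (div_le_one hel).2 hlm
              have h2 : 0 ≤ Real.log m / el T := by positivity
              rw [abs_le]; constructor <;> linarith
            have e2 : |a0 + a1 * Real.log m| ≤ 2 * el T := by
              calc _ ≤ |a0| + |a1 * Real.log m| := abs_add_le _ _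
                _ ≤ el T + 1 * el T := by
                    rw [abs_mul]
                    refine add_le_add h0 (mul_le_mul h1 ?_ (abs_nonneg _) zero_le_one)
                    rwa [abs_of_nonneg hlm0]
                _ = 2 * el T := by ring
            have e3 : |Real.exp (-(κ * Real.log m))| ≤ 3 := by
              rw [abs_of_pos (Real.exp_pos _)]
              have : -(κ * Real.log m) ≤ 1 := by
                have h5 : |κ * Real.log m| ≤ 2 / Real.log T * el T := by
                  rw [abs_mul, abs_of_nonneg hlm0]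
                  exact mul_le_mul hκ hlm hlm0 (by positivity)
                have h6 : 2 / Real.log T * el T = 2 / 10000 := by
                  unfold el; field_simp
                have := neg_abs_le (κ * Real.log m)
                linarith
              calc Real.exp (-(κ * Real.log m)) ≤ Real.exp 1 := Real.exp_le_exp.2 this
                _ ≤ 3 := by
                  have := Real.exp_one_lt_d9
                  linarith
            calc _ ≤ 1 * (2 * el T) * 3 := by
                  refine mul_le_mul (mul_le_mul e1 e2 (abs_nonneg _) zero_le_one) e3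
                    (abs_nonneg _) (by positivity)
              _ = 6 * el T := by ring
          calc _ ≤ 1 * (6 * el T) := mul_le_mul hmu hg (abs_nonneg _) zero_le_one
            _ = _ := by ring
        · have hre : (-(1 / 2 : ℂ) + ε * (s - 1 / 2)).re = -(1 / 2) + ε * (s.re - 1 / 2) := by
            simp
          rw [Complex.norm_natCast_cpow_of_pos (by omega), hre]
          have hexp : -(1 / 2) + ε * (s.re - 1 / 2) ≤ 2 := by
            rcases hε with h | h <;> rw [h] <;> linarith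
          calc (m : ℝ) ^ (-(1 / 2) + ε * (s.re - 1 / 2)) ≤ (m : ℝ) ^ (2 : ℝ) :=
                Real.rpow_le_rpow_of_exponent_le hmR hexp
            _ ≤ (Real.exp (el T)) ^ (2 : ℝ) := Real.rpow_le_rpow (by positivity) hmN (by norm_num)
            _ = Real.exp (2 * el T) := by
                rw [← Real.exp_mul]; ring_nf
    _ = (N1 T : ℝ) * (6 * el T * Real.exp (2 * el T)) := by
        rw [Finset.sum_const, Nat.card_Icc]; simp
    _ ≤ Real.exp (el T) * (6 * el T * Real.exp (2 * el T)) :=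
        mul_le_mul_of_nonneg_right hN (by positivity)
    _ = 6 * el T * Real.exp (3 * el T) := by
        rw [show 3 * el T = el T + 2 * el T by ring, Real.exp_add]; ring

end PC

open PC in
theorem zp_three : ∃ C T0 : ℝ, 0 < C ∧ 3 ≤ T0 ∧ ∀ T t : ℝ, T0 ≤ T →
    ‖riemannZeta (((3 : ℝ) : ℂ) + t * I) * psi T (((3 : ℝ) : ℂ) + t * I) - 1‖ ≤
      C * Real.exp (-(Real.log T / 80)) ∧
    ‖deriv (fun s => riemannZeta s * psi T s) (((3 : ℝ) : ℂ) + t * I)‖ ≤
      C * Real.exp (-(Real.log T / 160)) := by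
  obtain ⟨K, hK, h⟩ := key
  refine ⟨2 * K, 3, by positivity, le_refl _, ?_⟩
  intro T t hT
  have hL : 0 < Real.log T := Real.log_pos (by linarith)
  have hre : ((((3 : ℝ) : ℂ) + t * I)).re = 3 := by simp
  constructor
  · have h1 := h T (by linarith) (((3 : ℝ) : ℂ) + t * I) (by rw [hre]; norm_num)
    rw [hre] at h1
    have h2 : (3 - 2) * (Real.log T / 80) = Real.log T / 80 := by ring
    rw [h2] at h1
    have := Real.exp_pos (-(Real.log T / 80))
    nlinarith
  · have hdiff : DifferentiableOn ℂ (fun s => riemannZeta s * psi T s - 1)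
        (closure (Metric.ball (((3 : ℝ) : ℂ) + t * I) (1 / 2))) := by
      intro z hz
      have hz2 : z ∈ Metric.closedBall (((3 : ℝ) : ℂ) + t * I) (1 / 2) :=
        Metric.closure_ball_subset_closedBall hz
      have hzre : 2 ≤ z.re := by
        have h1 : |(z - (((3 : ℝ) : ℂ) + t * I)).re| ≤ ‖z - (((3 : ℝ) : ℂ) + t * I)‖ :=
          Complex.abs_re_le_norm _
        rw [Complex.sub_re, hre] at h1
        have h2 : ‖z - (((3 : ℝ) : ℂ) + t * I)‖ ≤ 1 / 2 := by
          simpa [dist_eq_norm] using hz2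
        have := (abs_le.1 (le_trans h1 h2)).1
        linarith
      have hz1 : z ≠ 1 := by
        intro h; rw [h] at hzre; norm_num at hzre
      exact (((differentiableAt_riemannZeta hz1).mul (psi_diff T z)).sub_const 1
        ).differentiableWithinAt
    have h3 := Complex.norm_deriv_le_of_forall_mem_sphere_norm_le (c := ((3 : ℝ) : ℂ) + t * I)
      (R := 1 / 2) (C := K * Real.exp (-(Real.log T / 160)))
      (f := fun s => riemannZeta s * psi T s - 1) (by norm_num) hdiff.diffContOnCl (by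
        intro z hz
        have hzre : 5 / 2 ≤ z.re := by
          have h1 : |(z - (((3 : ℝ) : ℂ) + t * I)).re| ≤ ‖z - (((3 : ℝ) : ℂ) + t * I)‖ :=
            Complex.abs_re_le_norm _
          rw [Complex.sub_re, hre] at h1
          have h2 : ‖z - (((3 : ℝ) : ℂ) + t * I)‖ = 1 / 2 := by
            simpa [dist_eq_norm] using hz
          have := (abs_le.1 (le_trans h1 h2.le)).1
          linarith
        refine le_trans (h T (by linarith) z (by linarith)) ?_
        refine mul_le_mul_of_nonneg_left (Real.exp_le_exp.2 ?_) hK.le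
        nlinarith)
    rw [deriv_sub_const] at h3
    refine le_trans h3 (le_of_eq ?_)
    ring

open PC in
theorem phi_right : ∃ C T0 : ℝ, 0 < C ∧ 3 ≤ T0 ∧ ∀ T a0 a1 κ ε l t : ℝ, T0 ≤ T → |a0| ≤ el T →
    |a1| ≤ 1 → |κ| ≤ 2 / Real.log T → (ε = 1 ∨ ε = -1) → |l| ≤ el T →
    ‖eta (((3 : ℝ) : ℂ) + t * I) * (riemannZeta (((3 : ℝ) : ℂ) + t * I) *
      psi T (((3 : ℝ) : ℂ) + t * I) - 1) * cexp (l * ((((3 : ℝ) : ℂ) + t * I) - sg0 T)) *
      ER (N1 T) ε (gf T a0 a1 κ) (((3 : ℝ) : ℂ) + t * I)‖ ≤ C * Real.exp (-(Real.log T / 90)) := by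
  obtain ⟨K, hK, h⟩ := key
  refine ⟨6 * K, Real.exp 2, by positivity, ?_, ?_⟩
  · have := Real.add_one_le_exp 2
    linarith
  intro T a0 a1 κ ε l t hT h0 h1 hκ hε hl
  have hT3 : 3 ≤ T := by
    have := Real.add_one_le_exp 2
    linarith
  have hL2 : 2 ≤ Real.log T := (Real.le_log_iff_exp_le (by linarith)).2 hT
  have hL : 0 < Real.log T := by linarith
  have hel : 0 < el T := by unfold el; positivity
  have hsg : 0 ≤ sg0 T := by
    unfold sg0
    have : 1 / Real.log T ≤ 1 / 2 := one_div_le_one_div_of_le (by norm_num) hL2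
    linarith
  have hsg1 : sg0 T ≤ 3 := by
    unfold sg0
    have : 0 ≤ 1 / Real.log T := by positivity
    linarith
  have hre : ((((3 : ℝ) : ℂ) + t * I)).re = 3 := by simp
  have a1' : ‖eta (((3 : ℝ) : ℂ) + t * I)‖ ≤ 1 := eta_le (by rw [hre]; norm_num)
  have a2 := h T (by linarith) (((3 : ℝ) : ℂ) + t * I) (by rw [hre]; norm_num)
  rw [hre, show (3 - 2) * (Real.log T / 80) = Real.log T / 80 by ring] at a2
  have a3 : ‖cexp (l * ((((3 : ℝ) : ℂ) + t * I) - sg0 T))‖ ≤ Real.exp (3 * el T) := by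
    rw [Complex.norm_exp]
    refine Real.exp_le_exp.2 ?_
    have : ((l : ℂ) * ((((3 : ℝ) : ℂ) + t * I) - sg0 T)).re = l * (3 - sg0 T) := by simp
    rw [this]
    calc l * (3 - sg0 T) ≤ |l| * (3 - sg0 T) :=
          mul_le_mul_of_nonneg_right (le_abs_self l) (by linarith)
      _ ≤ el T * 3 := mul_le_mul hl (by linarith) (by linarith) hel.le
      _ = 3 * el T := by ring
  have a4 := er_sup hT3 h0 h1 hκ hε (s := ((3 : ℝ) : ℂ) + t * I) (by rw [hre]; norm_num)
    (by rw [hre])
  have a5 : el T ≤ Real.exp (el T) := by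
    have := Real.add_one_le_exp (el T)
    linarith
  rw [norm_mul, norm_mul, norm_mul]
  calc _ ≤ 1 * (K * Real.exp (-(Real.log T / 80))) * Real.exp (3 * el T) *
        (6 * el T * Real.exp (3 * el T)) := by gcongr
    _ ≤ 1 * (K * Real.exp (-(Real.log T / 80))) * Real.exp (3 * el T) *
        (6 * Real.exp (el T) * Real.exp (3 * el T)) := by gcongr
    _ = 6 * K * (Real.exp (-(Real.log T / 80)) * Real.exp (3 * el T) * Real.exp (el T) *
        Real.exp (3 * el T)) := by ring
    _ = 6 * K * Real.exp (-(Real.log T / 80) + 3 * el T + el T + 3 * el T) := by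
        rw [Real.exp_add, Real.exp_add, Real.exp_add]
    _ ≤ 6 * K * Real.exp (-(Real.log T / 90)) := by
        refine mul_le_mul_of_nonneg_left (Real.exp_le_exp.2 ?_) (by positivity)
        unfold el
        nlinarith

open PC in
/-- boundary data of `eta ζ psi` on `Re s = 3` -/
theorem bd_three : ∃ C T0 : ℝ, 0 < C ∧ 3 ≤ T0 ∧ ∀ T : ℝ, T0 ≤ T →
    (∀ t : ℝ, 1 / 10 ≤ ‖Zf (((3 : ℝ) : ℂ) + t * I) * psi T (((3 : ℝ) : ℂ) + t * I) /
      ((((3 : ℝ) : ℂ) + t * I) + 3)‖) ∧
    ∫ t in (-(2 * T))..(2 * T), (|Real.log ‖Zf (((3 : ℝ) : ℂ) + t * I) *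
      psi T (((3 : ℝ) : ℂ) + t * I) / ((((3 : ℝ) : ℂ) + t * I) + 3)‖| +
      ‖deriv (fun s => Zf s * psi T s / (s + 3)) (((3 : ℝ) : ℂ) + t * I) /
        (Zf (((3 : ℝ) : ℂ) + t * I) * psi T (((3 : ℝ) : ℂ) + t * I) /
          ((((3 : ℝ) : ℂ) + t * I) + 3))‖) ≤ C * T * Real.exp (-(Real.log T / 170)) := by
  obtain ⟨C0, T0, hC0, hT0, hz⟩ := zp_three
  refine ⟨16 * C0 + 80, max T0 (Real.exp (80 * (2 * C0))), by positivity,
    le_trans hT0 (le_max_left _ _), ?_⟩
  intro T hT
  have hTT0 : T0 ≤ T := le_trans (le_max_left _ _) hT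
  have hT3 : 3 ≤ T := le_trans hT0 hTT0
  have hL : 0 < Real.log T := Real.log_pos (by linarith)
  have hLC : 80 * (2 * C0) ≤ Real.log T :=
    (Real.le_log_iff_exp_le (by linarith)).2 (le_trans (le_max_right _ _) hT)
  -- smallness of `ζ psi - 1`
  have hsm : C0 * Real.exp (-(Real.log T / 80)) ≤ 1 / 2 := by
    have h1 : Real.log T / 80 + 1 ≤ Real.exp (Real.log T / 80) := Real.add_one_le_exp _
    have h2 : 2 * C0 ≤ Real.exp (Real.log T / 80) := by
      have : 2 * C0 ≤ Real.log T / 80 := by linarith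
      linarith
    rw [Real.exp_neg]
    have h3 := Real.exp_pos (Real.log T / 80)
    rw [← div_eq_mul_inv, div_le_iff₀ h3]
    linarith
  set B1 : ℝ := C0 * Real.exp (-(Real.log T / 80)) with hB1
  set B2 : ℝ := C0 * Real.exp (-(Real.log T / 160)) with hB2
  have hB1pos : 0 < B1 := by positivity
  have hB2pos : 0 < B2 := by positivity
  have hB12 : B1 ≤ B2 := by
    refine mul_le_mul_of_nonneg_left (Real.exp_le_exp.2 ?_) hC0.le
    linarith
  -- pointwise facts
  have hpt : ∀ t : ℝ, (1 / 10 ≤ ‖Zf (((3 : ℝ) : ℂ) + t * I) * psi T (((3 : ℝ) : ℂ) + t * I) /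
      ((((3 : ℝ) : ℂ) + t * I) + 3)‖) ∧
      (|Real.log ‖Zf (((3 : ℝ) : ℂ) + t * I) *
      psi T (((3 : ℝ) : ℂ) + t * I) / ((((3 : ℝ) : ℂ) + t * I) + 3)‖| +
      ‖deriv (fun s => Zf s * psi T s / (s + 3)) (((3 : ℝ) : ℂ) + t * I) /
        (Zf (((3 : ℝ) : ℂ) + t * I) * psi T (((3 : ℝ) : ℂ) + t * I) /
          ((((3 : ℝ) : ℂ) + t * I) + 3))‖) ≤ 4 * B2 + 20 * (1 / (1 + t ^ 2)) := by
    intro t
    obtain ⟨z1, z2⟩ := hz T t hTT0
    set s0 : ℂ := ((3 : ℝ) : ℂ) + t * I with hs0
    have hre : s0.re = 3 := by rw [hs0]; simp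
    have him : s0.im = t := by rw [hs0]; simp
    have hne1 : s0 ≠ 1 := by
      intro h; rw [h] at hre; norm_num at hre
    have hne1' : s0 - 1 ≠ 0 := sub_ne_zero.2 hne1
    have hne3 : s0 + 3 ≠ 0 := by
      intro h
      have := congrArg Complex.re h
      simp [hre] at this
    set G : ℂ → ℂ := fun s => riemannZeta s * psi T s with hG
    have hGd : DifferentiableAt ℂ G s0 := (differentiableAt_riemannZeta hne1).mul (psi_diff T s0)
    have z1' : ‖G s0 - 1‖ ≤ B1 := z1
    have z2' : ‖deriv G s0‖ ≤ B2 := z2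
    have hG1 : 1 / 2 ≤ ‖G s0‖ := by
      have h1 : ‖(1 : ℂ)‖ ≤ ‖G s0‖ + ‖G s0 - 1‖ := by
        calc ‖(1 : ℂ)‖ = ‖G s0 - (G s0 - 1)‖ := by congr 1; ring
          _ ≤ _ := norm_sub_le _ _
      rw [norm_one] at h1
      linarith
    have hG0 : G s0 ≠ 0 := by
      intro h; rw [h, norm_zero] at hG1; linarith
    have hηd : DifferentiableAt ℂ eta s0 := by
      unfold eta
      exact DifferentiableAt.div (by fun_prop) (by fun_prop) hne3
    have hη0 : eta s0 ≠ 0 := by
      unfold eta; exact div_ne_zero hne1' hne3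
    -- norms
    have n1 : ‖s0 - 1‖ ^ 2 = 4 + t ^ 2 := by
      rw [Complex.sq_norm, Complex.normSq_apply, Complex.sub_re, Complex.sub_im, hre, him]
      simp; ring
    have n3 : ‖s0 + 3‖ ^ 2 = 36 + t ^ 2 := by
      rw [Complex.sq_norm, Complex.normSq_apply, Complex.add_re, Complex.add_im, hre, him]
      have e1 : (3 : ℂ).re = 3 := by norm_num
      have e2 : (3 : ℂ).im = 0 := by norm_num
      rw [e1, e2]
      ring
    have p1 : 0 < ‖s0 - 1‖ := norm_pos_iff.2 hne1'
    have p3 : 0 < ‖s0 + 3‖ := norm_pos_iff.2 hne3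
    have hηn : ‖eta s0‖ = ‖s0 - 1‖ / ‖s0 + 3‖ := by
      unfold eta; rw [norm_div]
    have hη3 : 1 / 3 ≤ ‖eta s0‖ := by
      rw [hηn, le_div_iff₀ p3]
      have : (1 / 3 * ‖s0 + 3‖) ^ 2 ≤ ‖s0 - 1‖ ^ 2 := by
        rw [mul_pow, n1, n3]; nlinarith [sq_nonneg t]
      exact (sq_le_sq₀ (by positivity) p1.le).1 this
    have hηle : ‖eta s0‖ ≤ 1 := eta_le (by rw [hre]; norm_num)
    have hηpos : 0 < ‖eta s0‖ := norm_pos_iff.2 hη0
    -- the function
    have hFeq : ∀ s : ℂ, s ≠ 1 → Zf s * psi T s / (s + 3) = eta s * G s := by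
      intro s hs
      rw [Zf_eq hs, hG]
      unfold eta
      ring
    have hF0 : Zf s0 * psi T s0 / (s0 + 3) = eta s0 * G s0 := hFeq s0 hne1
    have hFev : (fun s => Zf s * psi T s / (s + 3)) =ᶠ[nhds s0] fun s => eta s * G s := by
      filter_upwards [isOpen_ne.mem_nhds hne1] with s hs
      exact hFeq s hs
    have hdF : deriv (fun s => Zf s * psi T s / (s + 3)) s0 =
        deriv eta s0 * G s0 + eta s0 * deriv G s0 := by
      rw [hFev.deriv_eq]
      exact deriv_fun_mul hηd hGd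
    have hdη : deriv eta s0 = 4 / (s0 + 3) ^ 2 := by
      have h1 : HasDerivAt (fun s : ℂ => (s - 1) / (s + 3))
          ((1 * (s0 + 3) - (s0 - 1) * 1) / (s0 + 3) ^ 2) s0 :=
        ((hasDerivAt_id s0).sub_const 1).div ((hasDerivAt_id s0).add_const 3) hne3
      have h2 : deriv eta s0 = _ := h1.deriv
      rw [h2]
      congr 1
      ring
    have h11 : 0 < 1 + t ^ 2 := by positivity
    rw [hF0, hdF, norm_mul]
    constructor
    · calc (1 : ℝ) / 10 ≤ 1 / 3 * (1 / 2) := by norm_num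
        _ ≤ ‖eta s0‖ * ‖G s0‖ := mul_le_mul hη3 hG1 (by norm_num) hηpos.le
    · have b1 : |Real.log (‖eta s0‖ * ‖G s0‖)| ≤ 16 * (1 / (1 + t ^ 2)) + 2 * B1 := by
        rw [Real.log_mul hηpos.ne' (by linarith)]
        refine le_trans (abs_add_le _ _) (add_le_add ?_ ?_)
        · -- log eta
          have c1 : Real.log ‖eta s0‖ ≤ 0 := Real.log_nonpos hηpos.le hηle
          rw [abs_of_nonpos c1]
          have c2 : Real.log (‖eta s0‖ ^ 2) = 2 * Real.log ‖eta s0‖ := by
            rw [Real.log_pow]; norm_num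
          have c3 : ‖eta s0‖ ^ 2 = (4 + t ^ 2) / (36 + t ^ 2) := by
            rw [hηn, div_pow, n1, n3]
          have c4 : Real.log (((4 + t ^ 2) / (36 + t ^ 2))⁻¹) ≤
              ((4 + t ^ 2) / (36 + t ^ 2))⁻¹ - 1 :=
            Real.log_le_sub_one_of_pos (by positivity)
          rw [Real.log_inv, ← c3, c2, c3] at c4
          have c5 : ((4 + t ^ 2) / (36 + t ^ 2))⁻¹ - 1 = 32 / (4 + t ^ 2) := by
            field_simp
            ring
          have c6 : 32 / (4 + t ^ 2) ≤ 32 * (1 / (1 + t ^ 2)) := by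
            rw [div_eq_mul_one_div]
            refine mul_le_mul_of_nonneg_left (one_div_le_one_div_of_le h11 (by linarith))
              (by norm_num)
          linarith
        · have c1 : Real.log ‖G s0‖ ≤ B1 := by
            have h1 := Real.log_le_sub_one_of_pos (x := ‖G s0‖) (by linarith)
            have h2 : ‖G s0‖ ≤ ‖(1 : ℂ)‖ + ‖G s0 - 1‖ := by
              calc ‖G s0‖ = ‖1 + (G s0 - 1)‖ := by congr 1; ring
                _ ≤ _ := norm_add_le _ _
            rw [norm_one] at h2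
            linarith
          have c2 : -(2 * B1) ≤ Real.log ‖G s0‖ := by
            have h1 := Real.log_le_sub_one_of_pos (x := ‖G s0‖⁻¹) (by positivity)
            rw [Real.log_inv] at h1
            have h2 : ‖G s0‖⁻¹ - 1 ≤ 2 * B1 := by
              have h3 : ‖(1 : ℂ)‖ ≤ ‖G s0‖ + ‖G s0 - 1‖ := by
                calc ‖(1 : ℂ)‖ = ‖G s0 - (G s0 - 1)‖ := by congr 1; ring
                  _ ≤ _ := norm_sub_le _ _
              rw [norm_one] at h3
              have h4 : 0 < ‖G s0‖ := by linarith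
              rw [sub_le_iff_le_add, inv_le_comm₀ h4 (by linarith)]
              rw [inv_le_iff_one_le_mul₀ (by linarith)]
              nlinarith
            linarith
          rw [abs_le]; constructor <;> linarith
      have b2 : ‖(deriv eta s0 * G s0 + eta s0 * deriv G s0) / (eta s0 * G s0)‖ ≤
          4 * (1 / (1 + t ^ 2)) + 2 * B2 := by
        have e1 : (deriv eta s0 * G s0 + eta s0 * deriv G s0) / (eta s0 * G s0) =
            4 / ((s0 - 1) * (s0 + 3)) + deriv G s0 / G s0 := by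
          rw [hdη]
          unfold eta
          field_simp
        rw [e1]
        refine le_trans (norm_add_le _ _) (add_le_add ?_ ?_)
        · rw [norm_div, norm_mul]
          have e4 : ‖(4 : ℂ)‖ = 4 := by norm_num
          rw [e4, div_eq_mul_one_div]
          refine mul_le_mul_of_nonneg_left (one_div_le_one_div_of_le h11 ?_) (by norm_num)
          have : ‖s0 - 1‖ ≤ ‖s0 + 3‖ := by
            refine (sq_le_sq₀ p1.le p3.le).1 ?_
            rw [n1, n3]; linarith
          nlinarith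
        · rw [norm_div, div_le_iff₀ (by linarith)]
          nlinarith
      linarith
  refine ⟨fun t => (hpt t).1, ?_⟩
  have hT2 : -(2 * T) ≤ 2 * T := by linarith
  have hcont : Continuous fun t : ℝ => 4 * B2 + 20 * (1 / (1 + t ^ 2)) := by
    refine continuous_const.add (continuous_const.mul (continuous_const.div (by fun_prop) ?_))
    intro t; positivity
  have hI := intervalIntegral.norm_integral_le_of_norm_le (μ := volume) hT2
    (f := fun t : ℝ => (|Real.log ‖Zf (((3 : ℝ) : ℂ) + t * I) *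
      psi T (((3 : ℝ) : ℂ) + t * I) / ((((3 : ℝ) : ℂ) + t * I) + 3)‖| +
      ‖deriv (fun s => Zf s * psi T s / (s + 3)) (((3 : ℝ) : ℂ) + t * I) /
        (Zf (((3 : ℝ) : ℂ) + t * I) * psi T (((3 : ℝ) : ℂ) + t * I) /
          ((((3 : ℝ) : ℂ) + t * I) + 3))‖))
    (g := fun t : ℝ => 4 * B2 + 20 * (1 / (1 + t ^ 2)))
    (Filter.Eventually.of_forall fun t _ => by
      rw [Real.norm_of_nonneg (by positivity)]
      exact (hpt t).2) (hcont.intervalIntegrable _ _)
  refine le_trans (le_abs_self _) (le_trans hI ?_)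
  have hcont1 : Continuous fun t : ℝ => 1 / (1 + t ^ 2) := by
    refine continuous_const.div (by fun_prop) ?_
    intro t; positivity
  have hi1 : IntervalIntegrable (fun _ : ℝ => 4 * B2) volume (-(2 * T)) (2 * T) :=
    continuous_const.intervalIntegrable _ _
  have hi2 : IntervalIntegrable (fun t : ℝ => 20 * (1 / (1 + t ^ 2))) volume (-(2 * T)) (2 * T) :=
    (continuous_const.mul hcont1).intervalIntegrable _ _
  rw [intervalIntegral.integral_add hi1 hi2,
    intervalIntegral.integral_const, intervalIntegral.integral_const_mul]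
  have hpi : ∫ t in (-(2 * T))..(2 * T), 1 / (1 + t ^ 2) ≤ 4 := by
    rw [integral_one_div_one_add_sq]
    have a1 := Real.arctan_lt_pi_div_two (2 * T)
    have a2 := Real.neg_pi_div_two_lt_arctan (-(2 * T))
    have a3 := Real.pi_lt_four
    linarith
  have hTexp : T = Real.exp (Real.log T) := (Real.exp_log (by linarith)).symm
  have hE1 : 1 ≤ T * Real.exp (-(Real.log T / 170)) := by
    have : T * Real.exp (-(Real.log T / 170)) = Real.exp (Real.log T - Real.log T / 170) := by
      rw [sub_eq_add_neg, Real.exp_add, Real.exp_log (by linarith)]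
    rw [this]
    exact Real.one_le_exp (by linarith)
  have hE2 : Real.exp (-(Real.log T / 160)) ≤ Real.exp (-(Real.log T / 170)) :=
    Real.exp_le_exp.2 (by linarith)
  have hTpos : 0 < T := by linarith
  calc (2 * T - -(2 * T)) • (4 * B2) + 20 * ∫ t in (-(2 * T))..(2 * T), 1 / (1 + t ^ 2)
      ≤ (2 * T - -(2 * T)) * (4 * B2) + 20 * 4 := by
        rw [smul_eq_mul]
        linarith
    _ = 16 * C0 * (T * Real.exp (-(Real.log T / 160))) + 80 := by rw [hB2]; ring
    _ ≤ 16 * C0 * (T * Real.exp (-(Real.log T / 170))) +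
        80 * (T * Real.exp (-(Real.log T / 170))) := by
        gcongr
        linarith
    _ = _ := by ring

end Pool.Agent.ZR
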