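import Pool.Agent.ZR.Defs
import Pool.Agent.AAS.LS

/-!
# Mean values of the test polynomials
`Pool.Agent.AAS.LS.large_sieve_tp` (frequencies `±log m`, spacing `≥ 1/N1`), coefficients
`|gf| ≤ 8 el T`, `m^(-1/2 ± (u - 1/log T))`, `|e^(l(s - sg0))| = e^(l u)`.
-/

set_option autoImplicit false

open Complex MeasureTheory Set Finset

namespace Pool.Agent.ZR

namespace PDx

open Pool.Agent.AAS.LSX (tp continuous_tp gauss_ft integrable_gauss_exp sep_sum_le large_sieve_tp)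
open scoped ComplexConjugate

/-- The large sieve with a Gaussian weight. -/
theorem gauss_tp {ι : Type*} (R : Finset ι) (c : ι → ℂ) (lam : ι → ℝ) {dl W : ℝ} (hdl : 0 < dl)
    (hs : ∀ r ∈ R, ∀ s ∈ R, r ≠ s → dl ≤ |lam r - lam s|) (hW : 0 < W) (hWdl : 1 ≤ W * dl) :
    Integrable (fun t : ℝ => Real.exp (1 - (t / W) ^ 2) * ‖tp R c lam t‖ ^ 2) ∧
    ∫ t : ℝ, Real.exp (1 - (t / W) ^ 2) * ‖tp R c lam t‖ ^ 2 ≤ 25 * W * ∑ r ∈ R, ‖c r‖ ^ 2 := by
  set m : ℝ := 0 with hm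
  set w : ℝ → ℝ := fun t => Real.exp (1 - ((t - m) / W) ^ 2) with hw
  have hweq : ∀ t : ℝ, Real.exp (1 - (t / W) ^ 2) = w t := by
    intro t; simp only [hw, hm, sub_zero]
  simp_rw [hweq]
  have hexp : ∀ t : ℝ, ((w t * ‖tp R c lam t‖ ^ 2 : ℝ) : ℂ)
      = ∑ r ∈ R, ∑ s ∈ R, (c r * conj (c s)) *
        ((Real.exp (1 - ((t - m) / W) ^ 2) : ℂ) * cexp (I * ((lam s - lam r : ℝ) : ℂ) * t)) := by
    intro t
    have e1 : ((‖tp R c lam t‖ ^ 2 : ℝ) : ℂ) = tp R c lam t * conj (tp R c lam t) := by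
      rw [Complex.mul_conj, Complex.normSq_eq_norm_sq]
    have e2 : conj (tp R c lam t) = ∑ s ∈ R, conj (c s) * cexp (I * lam s * t) := by
      unfold tp
      rw [map_sum]
      refine Finset.sum_congr rfl fun s _ => ?_
      rw [map_mul, ← Complex.exp_conj]
      simp [Complex.conj_ofReal]
    rw [Complex.ofReal_mul, e1, e2]
    unfold tp
    rw [Finset.sum_mul_sum, Finset.mul_sum]
    refine Finset.sum_congr rfl fun r _ => ?_
    rw [Finset.mul_sum]
    refine Finset.sum_congr rfl fun s _ => ?_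
    have e3 : cexp (I * ((lam s - lam r : ℝ) : ℂ) * t) = cexp (-(I * lam r * t)) * cexp (I * lam s * t) := by
      rw [← Complex.exp_add]
      congr 1
      push_cast
      ring
    rw [e3]
    ring
  have hint : ∀ r s : ι, Integrable fun t : ℝ => (c r * conj (c s)) *
        ((Real.exp (1 - ((t - m) / W) ^ 2) : ℂ) * cexp (I * ((lam s - lam r : ℝ) : ℂ) * t)) :=
    fun r s => (integrable_gauss_exp hW m _).const_mul _
  have hintw : Integrable fun t : ℝ => ((w t * ‖tp R c lam t‖ ^ 2 : ℝ) : ℂ) := by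
    simp_rw [hexp]
    exact integrable_finsetSum _ fun r _ => integrable_finsetSum _ fun s _ => hint r s
  have hintwr : Integrable fun t : ℝ => w t * ‖tp R c lam t‖ ^ 2 := by
    have := hintw.re
    simp only [RCLike.re_to_complex, Complex.ofReal_re] at this
    exact this
  refine ⟨hintwr, ?_⟩
  -- upper bound
  have h2 : ∫ t : ℝ, w t * ‖tp R c lam t‖ ^ 2
      ≤ ∑ r ∈ R, ∑ s ∈ R, ‖c r‖ * ‖c s‖ * (2 * Real.exp 1 * W *
        Real.exp (-((lam s - lam r) / dl) ^ 2 / 4)) := by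
    have e0 : ((∫ t : ℝ, w t * ‖tp R c lam t‖ ^ 2 : ℝ) : ℂ)
        = ∑ r ∈ R, ∑ s ∈ R, (c r * conj (c s)) * ∫ t : ℝ,
        ((Real.exp (1 - ((t - m) / W) ^ 2) : ℂ) * cexp (I * ((lam s - lam r : ℝ) : ℂ) * t)) := by
      rw [← integral_complex_ofReal]
      simp_rw [hexp]
      rw [integral_finsetSum _ fun r _ => integrable_finsetSum _ fun s _ => hint r s]
      refine Finset.sum_congr rfl fun r _ => ?_
      rw [integral_finsetSum _ fun s _ => hint r s]
      refine Finset.sum_congr rfl fun s _ => ?_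
      rw [integral_const_mul]
    have e1 : ∫ t : ℝ, w t * ‖tp R c lam t‖ ^ 2
        ≤ ‖((∫ t : ℝ, w t * ‖tp R c lam t‖ ^ 2 : ℝ) : ℂ)‖ := by
      rw [Complex.norm_real]
      exact Real.le_norm_self _
    refine e1.trans ?_
    rw [e0]
    refine (norm_sum_le _ _).trans (Finset.sum_le_sum fun r _ => ?_)
    refine (norm_sum_le _ _).trans (Finset.sum_le_sum fun s _ => ?_)
    rw [norm_mul, norm_mul, RCLike.norm_conj]
    refine mul_le_mul_of_nonneg_left ?_ (by positivity)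
    refine (gauss_ft hW m (lam s - lam r)).trans ?_
    refine mul_le_mul_of_nonneg_left (Real.exp_le_exp.mpr ?_) (by positivity)
    have h5 : ((lam s - lam r) / dl) ^ 2 ≤ ((lam s - lam r) * W) ^ 2 := by
      rw [div_pow, div_le_iff₀ (by positivity)]
      have : (lam s - lam r) ^ 2 * 1 ≤ (lam s - lam r) ^ 2 * (W * dl) ^ 2 := by
        apply mul_le_mul_of_nonneg_left _ (sq_nonneg _)
        exact one_le_pow₀ hWdl
      nlinarith
    linarith
  have h3 : ∑ r ∈ R, ∑ s ∈ R, ‖c r‖ * ‖c s‖ * (2 * Real.exp 1 * W *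
        Real.exp (-((lam s - lam r) / dl) ^ 2 / 4))
      ≤ 25 * W * ∑ r ∈ R, ‖c r‖ ^ 2 := by
    set K : ι → ι → ℝ := fun r s => 2 * Real.exp 1 * W * Real.exp (-((lam s - lam r) / dl) ^ 2 / 4)
      with hK
    have hK0 : ∀ r s, 0 ≤ K r s := fun r s => by rw [hK]; positivity
    have hKs : ∀ r s, K r s = K s r := fun r s => by
      simp only [hK]
      congr 3
      rw [div_pow, div_pow]
      congr 2
      ring
    have hrow : ∀ r ∈ R, ∑ s ∈ R, K r s ≤ 25 * W := by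
      intro r hr
      simp only [hK]
      rw [← Finset.mul_sum]
      have h1 := sep_sum_le R lam hdl hs hr
      have h2 := Real.exp_one_lt_d9
      calc 2 * Real.exp 1 * W * ∑ s ∈ R, Real.exp (-((lam s - lam r) / dl) ^ 2 / 4)
          ≤ 2 * Real.exp 1 * W * (9 / 2) := mul_le_mul_of_nonneg_left h1 (by positivity)
        _ ≤ 25 * W := by nlinarith
    calc ∑ r ∈ R, ∑ s ∈ R, ‖c r‖ * ‖c s‖ * K r s
        ≤ ∑ r ∈ R, ∑ s ∈ R, (‖c r‖ ^ 2 * K r s / 2 + ‖c s‖ ^ 2 * K r s / 2) := by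
          refine Finset.sum_le_sum fun r _ => Finset.sum_le_sum fun s _ => ?_
          nlinarith [hK0 r s, mul_nonneg (sq_nonneg (‖c r‖ - ‖c s‖)) (hK0 r s)]
      _ = ∑ r ∈ R, ‖c r‖ ^ 2 * ∑ s ∈ R, K r s := by
          simp_rw [Finset.sum_add_distrib]
          rw [Finset.sum_comm (f := fun r s => ‖c s‖ ^ 2 * K r s / 2), ← Finset.sum_add_distrib]
          refine Finset.sum_congr rfl fun r _ => ?_
          rw [← Finset.sum_add_distrib, Finset.mul_sum]
          refine Finset.sum_congr rfl fun s _ => ?_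
          rw [hKs s r]
          ring
      _ ≤ ∑ r ∈ R, ‖c r‖ ^ 2 * (25 * W) :=
          Finset.sum_le_sum fun r hr => mul_le_mul_of_nonneg_left (hrow r hr) (sq_nonneg _)
      _ = 25 * W * ∑ r ∈ R, ‖c r‖ ^ 2 := by rw [← Finset.sum_mul]; ring
  exact h2.trans h3

/-- Spacing of logarithms. -/
lemma log_sep {N : ℕ} {m n : ℕ} (hm : m ∈ Finset.Icc 1 N) (hn : n ∈ Finset.Icc 1 N) (hmn : m ≠ n)
    {ε : ℝ} (hε : ε = 1 ∨ ε = -1) :
    1 / (N : ℝ) ≤ |(-(ε * Real.log m)) - (-(ε * Real.log n))| := by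
  have key : ∀ a b : ℕ, 1 ≤ b → b < a → a ≤ N → 1 / (N : ℝ) ≤ Real.log a - Real.log b := by
    intro a b hb hab haN
    have hb' : (0 : ℝ) < b := by exact_mod_cast hb
    have ha' : (0 : ℝ) < a := by exact_mod_cast (lt_of_lt_of_le Nat.zero_lt_one (hb.trans hab.le))
    have h1 : Real.log a - Real.log b = -Real.log (b / a) := by
      rw [Real.log_div hb'.ne' ha'.ne']; ring
    have h2 : Real.log ((b : ℝ) / a) ≤ b / a - 1 := Real.log_le_sub_one_of_pos (by positivity)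
    have h3 : (b : ℝ) + 1 ≤ a := by exact_mod_cast hab
    have h4 : (b : ℝ) / a - 1 ≤ -(1 / a) := by
      have : (b : ℝ) / a - 1 = (b - a) / a := by field_simp
      rw [this, ← neg_div]
      apply div_le_div_of_nonneg_right _ ha'.le
      linarith
    have h5 : 1 / (N : ℝ) ≤ 1 / a := by
      apply one_div_le_one_div_of_le ha'
      exact_mod_cast haN
    rw [h1]; linarith
  rw [Finset.mem_Icc] at hm hn
  have habs : |(-(ε * Real.log m)) - (-(ε * Real.log n))| = |Real.log m - Real.log n| := by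
    rw [show (-(ε * Real.log m)) - (-(ε * Real.log n)) = -(ε * (Real.log m - Real.log n)) by ring,
      abs_neg, abs_mul]
    rcases hε with h | h <;> simp [h]
  rw [habs]
  rcases lt_or_gt_of_ne hmn with h | h
  · rw [abs_sub_comm]
    exact (key n m hm.1 h hn.2).trans (le_abs_self _)
  · exact (key m n hn.1 h hm.2).trans (le_abs_self _)

/-- The polynomial `ER` on a vertical line as a trigonometric polynomial. -/
lemma ER_eq_tp (N : ℕ) (ε : ℝ) (g : ℝ → ℝ) (σ t : ℝ) :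
    ER N ε g ((σ : ℂ) + t * I) = tp (Finset.Icc 1 N)
      (fun m => ((mug g m * (m : ℝ) ^ (-(1 / 2) + ε * (σ - 1 / 2)) : ℝ) : ℂ))
      (fun m => -(ε * Real.log m)) t := by
  unfold ER tp
  refine Finset.sum_congr rfl fun m hm => ?_
  have hm1 : (0 : ℝ) < m := by
    have := (Finset.mem_Icc.mp hm).1
    exact_mod_cast this
  have hmc : (m : ℂ) ≠ 0 := by exact_mod_cast hm1.ne'
  push_cast
  rw [mul_assoc]
  congr 1
  rw [show (-(1 / 2 : ℂ) + ε * ((σ : ℂ) + t * I - 1 / 2))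
    = ((-(1 / 2) + ε * (σ - 1 / 2) : ℝ) : ℂ) + (ε * t : ℂ) * I by push_cast; ring,
    Complex.cpow_add _ _ hmc]
  have h1 : (m : ℂ) ^ (((-(1 / 2) + ε * (σ - 1 / 2) : ℝ)) : ℂ)
      = (((m : ℝ) ^ (-(1 / 2) + ε * (σ - 1 / 2)) : ℝ) : ℂ) := by
    rw [Complex.ofReal_cpow hm1.le]
    norm_num
  rw [h1]
  congr 1
  rw [Complex.cpow_def_of_ne_zero hmc]
  congr 1
  rw [show (m : ℂ) = ((m : ℝ) : ℂ) by norm_num, ← Complex.ofReal_log hm1.le]
  ring

/-- The size of the coefficients. -/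
lemma gf_bd {T a0 a1 κ v : ℝ} (hL : 0 < Real.log T) (he : 0 < el T) (h0 : |a0| ≤ el T)
    (h1 : |a1| ≤ 1) (hκ : |κ| ≤ 2 / Real.log T) (hv0 : 0 ≤ v) (hv : v ≤ el T) :
    |gf T a0 a1 κ v| ≤ 4 * el T := by
  unfold gf
  rw [abs_mul, abs_mul]
  have e1 : |1 - v / el T| ≤ 1 := by
    have : 0 ≤ v / el T := by positivity
    have : v / el T ≤ 1 := (div_le_one he).mpr hv
    rw [abs_le]; constructor <;> linarith
  have e2 : |a0 + a1 * v| ≤ 2 * el T := by
    calc |a0 + a1 * v| ≤ |a0| + |a1 * v| := abs_add_le _ _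
      _ = |a0| + |a1| * |v| := by rw [abs_mul]
      _ ≤ el T + 1 * el T := by
          rw [abs_of_nonneg hv0]
          exact add_le_add h0 (mul_le_mul h1 hv hv0 (by norm_num))
      _ = 2 * el T := by ring
  have e3 : |Real.exp (-(κ * v))| ≤ 2 := by
    rw [abs_of_pos (Real.exp_pos _)]
    have h3 : -(κ * v) ≤ 1 / 2 := by
      have a : |κ * v| ≤ 2 / Real.log T * el T := by
        rw [abs_mul, abs_of_nonneg hv0]
        exact mul_le_mul hκ hv hv0 (by positivity)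
      have b : 2 / Real.log T * el T = 2 / 10000 := by
        unfold el; field_simp
      rw [b] at a
      have := neg_abs_le (κ * v)
      linarith
    calc Real.exp (-(κ * v)) ≤ Real.exp (1 / 2) := Real.exp_le_exp.mpr h3
      _ ≤ 2 := by
        have h4 : Real.exp (1 / 2) ^ 2 = Real.exp 1 := by
          rw [← Real.exp_nat_mul]; norm_num
        have h5 := Real.exp_one_lt_d9
        nlinarith [Real.exp_pos (1 / 2)]
  have e12 : |1 - v / el T| * |a0 + a1 * v| ≤ 1 * (2 * el T) :=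
    mul_le_mul e1 e2 (abs_nonneg _) (by norm_num)
  calc |1 - v / el T| * |a0 + a1 * v| * |Real.exp (-(κ * v))|
      ≤ 1 * (2 * el T) * 2 := mul_le_mul e12 e3 (abs_nonneg _) (by positivity)
    _ = 4 * el T := by ring

lemma mug_bd {T a0 a1 κ : ℝ} (hL : 0 < Real.log T) (he : 0 < el T) (h0 : |a0| ≤ el T)
    (h1 : |a1| ≤ 1) (hκ : |κ| ≤ 2 / Real.log T) {m : ℕ} (hm : m ∈ Finset.Icc 1 (N1 T)) :
    |mug (gf T a0 a1 κ) m| ≤ 4 * el T := by
  unfold mug
  rw [abs_mul]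
  have hm' := Finset.mem_Icc.mp hm
  have hm1 : (1 : ℝ) ≤ m := by exact_mod_cast hm'.1
  have e1 : |((ArithmeticFunction.moebius m : ℤ) : ℝ)| ≤ 1 := by
    have := ArithmeticFunction.abs_moebius_le_one (n := m)
    exact_mod_cast this
  have hv : Real.log m ≤ el T := by
    have : (m : ℝ) ≤ Real.exp (el T) := by
      have := hm'.2
      unfold N1 at this
      exact (Nat.le_floor_iff (Real.exp_pos _).le).mp this
    rw [← Real.log_exp (el T)]
    exact Real.log_le_log (by linarith) this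
  have e2 := gf_bd hL he h0 h1 hκ (Real.log_nonneg hm1) hv
  calc |((ArithmeticFunction.moebius m : ℤ) : ℝ)| * |gf T a0 a1 κ (Real.log m)|
      ≤ 1 * (4 * el T) := mul_le_mul e1 e2 (abs_nonneg _) (by norm_num)
    _ = 4 * el T := by ring

/-- Sum of the squares of the coefficients. -/
lemma coef_sum {T a0 a1 κ ε u : ℝ} (hL : 0 < Real.log T) (he : 1 ≤ el T) (h0 : |a0| ≤ el T)
    (h1 : |a1| ≤ 1) (hκ : |κ| ≤ 2 / Real.log T) (hε : ε = 1 ∨ ε = -1) (hu : 0 ≤ u) :
    ∑ m ∈ Finset.Icc 1 (N1 T),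
      ‖((mug (gf T a0 a1 κ) m * (m : ℝ) ^ (-(1 / 2) + ε * (sg0 T + u - 1 / 2)) : ℝ) : ℂ)‖ ^ 2
      ≤ 64 * el T ^ 3 * Real.exp (2 * u * el T) := by
  have he0 : 0 < el T := by linarith
  have hterm : ∀ m ∈ Finset.Icc 1 (N1 T),
      ‖((mug (gf T a0 a1 κ) m * (m : ℝ) ^ (-(1 / 2) + ε * (sg0 T + u - 1 / 2)) : ℝ) : ℂ)‖ ^ 2
      ≤ (32 * el T ^ 2 * Real.exp (2 * u * el T)) * (1 / (m : ℝ)) := by
    intro m hm
    have hm' := Finset.mem_Icc.mp hm
    have hm1 : (1 : ℝ) ≤ m := by exact_mod_cast hm'.1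
    have hm0 : (0 : ℝ) < m := by linarith
    have hlv0 : 0 ≤ Real.log m := Real.log_nonneg hm1
    have hlv : Real.log m ≤ el T := by
      have : (m : ℝ) ≤ Real.exp (el T) := by
        have := hm'.2
        unfold N1 at this
        exact (Nat.le_floor_iff (Real.exp_pos _).le).mp this
      rw [← Real.log_exp (el T)]
      exact Real.log_le_log (by linarith) this
    rw [Complex.norm_real, Real.norm_eq_abs, abs_mul, mul_pow]
    have hb := mug_bd hL he0 h0 h1 hκ hm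
    have hb2 : |mug (gf T a0 a1 κ) m| ^ 2 ≤ 16 * el T ^ 2 := by
      calc |mug (gf T a0 a1 κ) m| ^ 2 ≤ (4 * el T) ^ 2 := pow_le_pow_left₀ (abs_nonneg _) hb 2
        _ = 16 * el T ^ 2 := by ring
    have hp : |(m : ℝ) ^ (-(1 / 2) + ε * (sg0 T + u - 1 / 2))| ^ 2
        ≤ (2 * Real.exp (2 * u * el T)) * (1 / m) := by
      rw [abs_of_pos (Real.rpow_pos_of_pos hm0 _), ← Real.rpow_natCast, ← Real.rpow_mul hm0.le]
      have e1 : (-(1 / 2) + ε * (sg0 T + u - 1 / 2)) * ((2 : ℕ) : ℝ)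
          = -1 + (2 * ε * (u - 1 / Real.log T)) := by
        unfold sg0; push_cast; ring
      rw [e1, Real.rpow_add hm0, Real.rpow_neg_one, mul_comm, ← one_div (m : ℝ)]
      refine mul_le_mul_of_nonneg_right ?_ (by positivity)
      rw [Real.rpow_def_of_pos hm0]
      have e2 : Real.log m * (2 * ε * (u - 1 / Real.log T)) ≤ 2 * u * el T + 1 / 2 := by
        have e3 : Real.log m * (1 / Real.log T) ≤ 1 / 10000 := by
          calc Real.log m * (1 / Real.log T) ≤ el T * (1 / Real.log T) :=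
                mul_le_mul_of_nonneg_right hlv (by positivity)
            _ = 1 / 10000 := by unfold el; field_simp
        have e4 : Real.log m * u ≤ el T * u := mul_le_mul_of_nonneg_right hlv hu
        have e5 : 0 ≤ Real.log m * u := mul_nonneg hlv0 hu
        have e6 : 0 ≤ Real.log m * (1 / Real.log T) := by positivity
        rcases hε with h | h
        · rw [h]; nlinarith
        · rw [h]; nlinarith
      calc Real.exp (Real.log m * (2 * ε * (u - 1 / Real.log T)))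
          ≤ Real.exp (2 * u * el T + 1 / 2) := Real.exp_le_exp.mpr e2
        _ = Real.exp (2 * u * el T) * Real.exp (1 / 2) := Real.exp_add _ _
        _ ≤ Real.exp (2 * u * el T) * 2 := by
            apply mul_le_mul_of_nonneg_left _ (Real.exp_pos _).le
            have h4 : Real.exp (1 / 2) ^ 2 = Real.exp 1 := by
              rw [← Real.exp_nat_mul]; norm_num
            have h5 := Real.exp_one_lt_d9
            nlinarith [Real.exp_pos (1 / 2)]
        _ = 2 * Real.exp (2 * u * el T) := by ring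
    calc |mug (gf T a0 a1 κ) m| ^ 2 * |(m : ℝ) ^ (-(1 / 2) + ε * (sg0 T + u - 1 / 2))| ^ 2
        ≤ (16 * el T ^ 2) * ((2 * Real.exp (2 * u * el T)) * (1 / m)) :=
          mul_le_mul hb2 hp (by positivity) (by positivity)
      _ = _ := by ring
  refine (Finset.sum_le_sum hterm).trans ?_
  rw [← Finset.mul_sum]
  have hharm : ∑ m ∈ Finset.Icc 1 (N1 T), 1 / (m : ℝ) ≤ 2 * el T := by
    have h := harmonic_le_one_add_log (N1 T)
    have h2 : ((harmonic (N1 T) : ℚ) : ℝ) = ∑ m ∈ Finset.Icc 1 (N1 T), 1 / (m : ℝ) := by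
      rw [harmonic_eq_sum_Icc]
      push_cast
      refine Finset.sum_congr rfl fun i _ => ?_
      rw [one_div]
    rw [← h2]
    refine h.trans ?_
    have h3 : Real.log (N1 T) ≤ el T := by
      by_cases hN : N1 T = 0
      · rw [hN]; simp; exact he0.le
      · have hN1 : (0 : ℝ) < N1 T := by exact_mod_cast Nat.pos_of_ne_zero hN
        rw [← Real.log_exp (el T)]
        apply Real.log_le_log hN1
        exact Nat.floor_le (Real.exp_pos _).le
    linarith
  calc 32 * el T ^ 2 * Real.exp (2 * u * el T) * ∑ m ∈ Finset.Icc 1 (N1 T), 1 / (m : ℝ)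
      ≤ 32 * el T ^ 2 * Real.exp (2 * u * el T) * (2 * el T) :=
        mul_le_mul_of_nonneg_left hharm (by positivity)
    _ = 64 * el T ^ 3 * Real.exp (2 * u * el T) := by ring

lemma base {T : ℝ} (hT : Real.exp 10000 ≤ T) :
    0 < Real.log T ∧ 1 ≤ el T ∧ 0 < T ∧ 0 < N1 T ∧ (N1 T : ℝ) ≤ T := by
  have hT0 : 0 < T := lt_of_lt_of_le (Real.exp_pos _) hT
  have hL : 10000 ≤ Real.log T := by
    rw [← Real.log_exp 10000]
    exact Real.log_le_log (Real.exp_pos _) hT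
  have he : 1 ≤ el T := by unfold el; linarith
  refine ⟨by linarith, he, hT0, ?_, ?_⟩
  · unfold N1
    rw [Nat.floor_pos]
    exact Real.one_le_exp (by linarith)
  · unfold N1
    refine (Nat.floor_le (Real.exp_pos _).le).trans ?_
    calc Real.exp (el T) ≤ Real.exp (Real.log T) := Real.exp_le_exp.mpr (by unfold el; linarith)
      _ = T := Real.exp_log hT0

end PDx

open PDx Pool.Agent.AAS.LSX in
theorem er_ms : ∃ C T0 : ℝ, 0 < C ∧ 3 ≤ T0 ∧ ∀ T a0 a1 κ ε l u : ℝ, T0 ≤ T → |a0| ≤ el T →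
    |a1| ≤ 1 → |κ| ≤ 2 / Real.log T → (ε = 1 ∨ ε = -1) → |l| ≤ el T → 0 ≤ u → u ≤ 3 →
    ∫ t in (-(2 * T))..(2 * T), ‖cexp (l * (((sg0 T + u : ℝ) : ℂ) + t * I - sg0 T)) *
      ER (N1 T) ε (gf T a0 a1 κ) (((sg0 T + u : ℝ) : ℂ) + t * I)‖ ^ 2 ≤
      C * T * el T ^ 3 * Real.exp (u * Real.log T / 1000) := by
  refine ⟨25 * 5 * 64, Real.exp 10000, by norm_num, ?_, ?_⟩
  · have := Real.add_one_le_exp (10000 : ℝ); linarith
  intro T a0 a1 κ ε l u hT h0 h1 hκ hε hl hu hu3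
  obtain ⟨hL, he, hT0, hN, hNT⟩ := base hT
  have he0 : 0 < el T := by linarith
  set c : ℕ → ℂ := fun m =>
    ((mug (gf T a0 a1 κ) m * (m : ℝ) ^ (-(1 / 2) + ε * (sg0 T + u - 1 / 2)) : ℝ) : ℂ) with hc
  set lam : ℕ → ℝ := fun m => -(ε * Real.log m) with hlam
  have hpt : ∀ t : ℝ, ‖cexp (l * (((sg0 T + u : ℝ) : ℂ) + t * I - sg0 T)) *
      ER (N1 T) ε (gf T a0 a1 κ) (((sg0 T + u : ℝ) : ℂ) + t * I)‖ ^ 2
      = Real.exp (2 * l * u) * ‖tp (Finset.Icc 1 (N1 T)) c lam t‖ ^ 2 := by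
    intro t
    rw [ER_eq_tp, norm_mul, mul_pow, Complex.norm_exp, ← Real.exp_nat_mul]
    congr 2
    simp
    ring
  simp_rw [hpt]
  rw [intervalIntegral.integral_const_mul]
  have hls := large_sieve_tp (Finset.Icc 1 (N1 T)) c lam (dl := 1 / (N1 T : ℝ))
    (by positivity) (fun m hm n hn hmn => log_sep hm hn hmn hε)
    (a := -(2 * T)) (b := 2 * T) (by linarith)
  have hcs : ∑ m ∈ Finset.Icc 1 (N1 T), ‖c m‖ ^ 2 ≤ 64 * el T ^ 3 * Real.exp (2 * u * el T) :=
    coef_sum hL he h0 h1 hκ hε hu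
  have e1 : (2 * T - -(2 * T)) + 1 / (1 / (N1 T : ℝ)) ≤ 5 * T := by
    rw [one_div_one_div]; linarith
  have h2 : ∫ t in (-(2 * T))..(2 * T), ‖tp (Finset.Icc 1 (N1 T)) c lam t‖ ^ 2
      ≤ 25 * (5 * T) * (64 * el T ^ 3 * Real.exp (2 * u * el T)) := by
    refine hls.trans ?_
    apply mul_le_mul _ hcs (Finset.sum_nonneg fun _ _ => by positivity) (by positivity)
    linarith
  have h3 : Real.exp (2 * l * u) ≤ Real.exp (2 * u * el T) := by
    apply Real.exp_le_exp.mpr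
    have : l ≤ el T := (le_abs_self l).trans hl
    nlinarith
  have h4 : Real.exp (2 * u * el T) * Real.exp (2 * u * el T) ≤ Real.exp (u * Real.log T / 1000) := by
    rw [← Real.exp_add]
    apply Real.exp_le_exp.mpr
    unfold el
    have : 0 ≤ u * Real.log T := by positivity
    linarith
  calc Real.exp (2 * l * u) * ∫ t in (-(2 * T))..(2 * T), ‖tp (Finset.Icc 1 (N1 T)) c lam t‖ ^ 2
      ≤ Real.exp (2 * u * el T) * (25 * (5 * T) * (64 * el T ^ 3 * Real.exp (2 * u * el T))) := by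
        apply mul_le_mul h3 h2 _ (Real.exp_pos _).le
        apply intervalIntegral.integral_nonneg (by linarith)
        intro t _; positivity
    _ = 25 * 5 * 64 * T * el T ^ 3 * (Real.exp (2 * u * el T) * Real.exp (2 * u * el T)) := by ring
    _ ≤ 25 * 5 * 64 * T * el T ^ 3 * Real.exp (u * Real.log T / 1000) :=
        mul_le_mul_of_nonneg_left h4 (by positivity)

open PDx Pool.Agent.AAS.LSX in
theorem er_gauss : ∃ C T0 : ℝ, 0 < C ∧ 3 ≤ T0 ∧ ∀ T a0 a1 κ ε : ℝ, T0 ≤ T → |a0| ≤ el T →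
    |a1| ≤ 1 → |κ| ≤ 2 / Real.log T → (ε = 1 ∨ ε = -1) →
    Integrable (fun t : ℝ => ‖ER (N1 T) ε (gf T a0 a1 κ) ((sg0 T : ℂ) + t * I)‖ ^ 2 *
      Real.exp (-(3 / 2 * (t / T) ^ 2))) ∧
    ∫ t : ℝ, ‖ER (N1 T) ε (gf T a0 a1 κ) ((sg0 T : ℂ) + t * I)‖ ^ 2 *
      Real.exp (-(3 / 2 * (t / T) ^ 2)) ≤ C * T * el T ^ 3 := by
  refine ⟨25 * 64, Real.exp 10000, by norm_num, ?_, ?_⟩
  · have := Real.add_one_le_exp (10000 : ℝ); linarith
  intro T a0 a1 κ ε hT h0 h1 hκ hε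
  obtain ⟨hL, he, hT0, hN, hNT⟩ := base hT
  have he0 : 0 < el T := by linarith
  set c : ℕ → ℂ := fun m =>
    ((mug (gf T a0 a1 κ) m * (m : ℝ) ^ (-(1 / 2) + ε * (sg0 T + 0 - 1 / 2)) : ℝ) : ℂ) with hc
  set lam : ℕ → ℝ := fun m => -(ε * Real.log m) with hlam
  have hpt : ∀ t : ℝ, ‖ER (N1 T) ε (gf T a0 a1 κ) ((sg0 T : ℂ) + t * I)‖ ^ 2
      = ‖tp (Finset.Icc 1 (N1 T)) c lam t‖ ^ 2 := by
    intro t
    rw [ER_eq_tp]
    simp only [hc, add_zero]
    rfl
  simp_rw [hpt]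
  have hNR : (0 : ℝ) < N1 T := by exact_mod_cast hN
  obtain ⟨hi, hb⟩ := gauss_tp (Finset.Icc 1 (N1 T)) c lam (dl := 1 / (N1 T : ℝ)) (W := T)
    (by positivity) (fun m hm n hn hmn => log_sep hm hn hmn hε) hT0
    (by rw [mul_one_div, le_div_iff₀ hNR]; linarith)
  have hcs : ∑ m ∈ Finset.Icc 1 (N1 T), ‖c m‖ ^ 2 ≤ 64 * el T ^ 3 := by
    have h := coef_sum (u := 0) hL he h0 h1 hκ hε le_rfl
    rw [mul_zero, zero_mul, Real.exp_zero, mul_one] at h
    exact h
  have hle : ∀ t : ℝ, ‖tp (Finset.Icc 1 (N1 T)) c lam t‖ ^ 2 * Real.exp (-(3 / 2 * (t / T) ^ 2))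
      ≤ Real.exp (1 - (t / T) ^ 2) * ‖tp (Finset.Icc 1 (N1 T)) c lam t‖ ^ 2 := by
    intro t
    rw [mul_comm]
    apply mul_le_mul_of_nonneg_right _ (by positivity)
    apply Real.exp_le_exp.mpr
    nlinarith [sq_nonneg (t / T)]
  have hint : Integrable (fun t : ℝ => ‖tp (Finset.Icc 1 (N1 T)) c lam t‖ ^ 2 *
      Real.exp (-(3 / 2 * (t / T) ^ 2))) := by
    refine hi.mono' ?_ (ae_of_all _ fun t => ?_)
    · apply Continuous.aestronglyMeasurable
      exact ((continuous_tp _ c lam).norm.pow 2).mul (by fun_prop)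
    · rw [Real.norm_of_nonneg (by positivity)]
      exact hle t
  refine ⟨hint, ?_⟩
  calc ∫ t : ℝ, ‖tp (Finset.Icc 1 (N1 T)) c lam t‖ ^ 2 * Real.exp (-(3 / 2 * (t / T) ^ 2))
      ≤ ∫ t : ℝ, Real.exp (1 - (t / T) ^ 2) * ‖tp (Finset.Icc 1 (N1 T)) c lam t‖ ^ 2 :=
        integral_mono hint hi hle
    _ ≤ 25 * T * ∑ m ∈ Finset.Icc 1 (N1 T), ‖c m‖ ^ 2 := hb
    _ ≤ 25 * T * (64 * el T ^ 3) := mul_le_mul_of_nonneg_left hcs (by positivity)
    _ = 25 * 64 * T * el T ^ 3 := by ring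

end Pool.Agent.ZR
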