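import Pool.Agent.ZR.PB
import Pool.Agent.ZR.PC
import Pool.Agent.ZR.PD
import Pool.Agent.H6.LThreeA

/-!
# Interpolation between `Re s = sg0 T` and `Re s = 3`
`G(s) = eta(s) (ζ(s) psi(s) - 1) e^(l(s-sg0)) ER(ε,g)(s) exp((3/4)(s/T)²)`, `l1_three_lines` for `G²`; at
`sg0`: `phi_left`, `er_gauss`; at `3`: `phi_right`. `J0^(1-v) J1^v ≤ C T el³ e^(-(log T/45) v)`, `v = u/(3-sg0)`,
`3 - sg0 ≤ 2.6`.
-/

set_option autoImplicit false

open Complex MeasureTheory Set Finset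

namespace Pool.Agent.ZR

/-- The analytic form of the integrand. -/
noncomputable def peF (T a0 a1 κ ε l : ℝ) (s : ℂ) : ℂ :=
  (Zf s * psi T s / (s + 3) - eta s) * cexp (l * (s - sg0 T)) * ER (N1 T) ε (gf T a0 a1 κ) s

/-- The integrand with the Gaussian factor. -/
noncomputable def peG (T a0 a1 κ ε l : ℝ) (s : ℂ) : ℂ :=
  peF T a0 a1 κ ε l s * cexp ((3 / 4 : ℂ) * (s / T) ^ 2)

theorem pe_Py_diff (y : ℝ) : Differentiable ℂ (Py y) := by
  unfold Py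
  apply Differentiable.fun_sum
  intro h hh
  have h1 : 1 ≤ h := (Finset.mem_Icc.mp hh).1
  have h0 : (h : ℂ) ≠ 0 := by exact_mod_cast (by omega : h ≠ 0)
  exact (differentiable_const _).mul (differentiable_id.neg.const_cpow (Or.inl h0))

theorem pe_psi_diff (T : ℝ) : Differentiable ℂ (psi T) := by
  unfold psi
  exact (differentiable_const _).mul ((pe_Py_diff _).sub (pe_Py_diff _))

theorem pe_ER_diff (N : ℕ) (ε : ℝ) (g : ℝ → ℝ) : Differentiable ℂ (ER N ε g) := by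
  unfold ER
  apply Differentiable.fun_sum
  intro m hm
  have h1 : 1 ≤ m := (Finset.mem_Icc.mp hm).1
  have h0 : (m : ℂ) ≠ 0 := by exact_mod_cast (by omega : m ≠ 0)
  exact (differentiable_const _).mul (Differentiable.const_cpow (by fun_prop) (Or.inl h0))

theorem pe_add_ne {s : ℂ} (hs : -3 < s.re) : s + 3 ≠ 0 := by
  intro h
  have := congrArg Complex.re h
  simp at this
  linarith

theorem peF_diff (T a0 a1 κ ε l : ℝ) {s : ℂ} (hs : -3 < s.re) :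
    DifferentiableAt ℂ (peF T a0 a1 κ ε l) s := by
  have h3 : s + 3 ≠ 0 := pe_add_ne hs
  have e1 : DifferentiableAt ℂ (fun s : ℂ => Zf s * psi T s / (s + 3)) s :=
    ((Zf_diff s).mul (pe_psi_diff T s)).div (by fun_prop) h3
  have e2 : DifferentiableAt ℂ eta s := by
    unfold eta
    exact DifferentiableAt.div (by fun_prop) (by fun_prop) h3
  have e3 : DifferentiableAt ℂ (fun s : ℂ => cexp (l * (s - sg0 T))) s := by fun_prop
  unfold peF
  exact ((e1.sub e2).mul e3).mul (pe_ER_diff _ _ _ s)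

theorem peG_diff (T a0 a1 κ ε l : ℝ) {s : ℂ} (hs : -3 < s.re) :
    DifferentiableAt ℂ (peG T a0 a1 κ ε l) s := by
  unfold peG
  exact (peF_diff T a0 a1 κ ε l hs).mul (by fun_prop)

theorem peF_eq (T a0 a1 κ ε l : ℝ) {s : ℂ} (hs : s ≠ 1) :
    peF T a0 a1 κ ε l s = eta s * (riemannZeta s * psi T s - 1) * cexp (l * (s - sg0 T)) *
      ER (N1 T) ε (gf T a0 a1 κ) s := by
  unfold peF
  rw [Zf_eq hs]
  unfold eta
  ring

theorem pe_gauss (T σ t : ℝ) : ‖cexp ((3 / 4 : ℂ) * (((σ : ℂ) + t * I) / T) ^ 2)‖ =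
    Real.exp (3 / 4 * ((σ / T) ^ 2 - (t / T) ^ 2)) := by
  rw [Complex.norm_exp]
  congr 1
  have e : (3 / 4 : ℂ) * (((σ : ℂ) + t * I) / T) ^ 2 =
      ((3 / 4 * ((σ / T) ^ 2 - (t / T) ^ 2) : ℝ) : ℂ) + ((3 / 4 * (2 * (σ / T) * (t / T)) : ℝ) : ℂ) * I := by
    push_cast
    have : (((σ : ℂ) + t * I) / T) ^ 2 = (σ / T) ^ 2 - (t / T) ^ 2 + 2 * (σ / T) * (t / T) * I := by
      have hI : I ^ 2 = -1 := Complex.I_sq
      linear_combination ((t : ℂ) / T) ^ 2 * hI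
    rw [this]; ring
  rw [e, Complex.add_re, Complex.ofReal_re, Complex.re_ofReal_mul, Complex.I_re, mul_zero, add_zero]

theorem pe_eta_le {s : ℂ} (hs : -1 ≤ s.re) : ‖eta s‖ ≤ 1 := by
  unfold eta
  rw [norm_div]
  have h3 : s + 3 ≠ 0 := pe_add_ne (by linarith)
  rw [div_le_one (norm_pos_iff.mpr h3)]
  rw [← sq_le_sq₀ (norm_nonneg _) (norm_nonneg _), Complex.sq_norm, Complex.sq_norm,
    Complex.normSq_apply, Complex.normSq_apply]
  simp only [Complex.sub_re, Complex.one_re, Complex.sub_im, Complex.one_im, Complex.add_re,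
    Complex.add_im]
  have e1 : (3 : ℂ).re = 3 := by norm_num
  have e2 : (3 : ℂ).im = 0 := by norm_num
  rw [e1, e2]
  nlinarith

theorem pe_Py_bdd (y : ℝ) : ∃ K : ℝ, 0 ≤ K ∧ ∀ s : ℂ, 0 ≤ s.re → ‖Py y s‖ ≤ K := by
  refine ⟨∑ h ∈ Finset.Icc 1 ⌊Real.exp y⌋₊, |mug (fun v => y - v) h|,
    Finset.sum_nonneg (fun _ _ => abs_nonneg _), fun s hs => ?_⟩
  unfold Py
  refine (norm_sum_le _ _).trans (Finset.sum_le_sum fun h hh => ?_)
  have h1 : 1 ≤ h := (Finset.mem_Icc.mp hh).1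
  rw [norm_mul, Complex.norm_real, Real.norm_eq_abs, Complex.norm_natCast_cpow_of_pos (by omega)]
  have h2 : (h : ℝ) ^ (-s).re ≤ 1 := by
    apply Real.rpow_le_one_of_one_le_of_nonpos (by exact_mod_cast h1)
    simp [hs]
  exact mul_le_of_le_one_right (abs_nonneg _) h2

theorem pe_psi_bdd (T : ℝ) : ∃ K : ℝ, 0 ≤ K ∧ ∀ s : ℂ, 0 ≤ s.re → ‖psi T s‖ ≤ K := by
  obtain ⟨K1, hK1, h1⟩ := pe_Py_bdd (lX T)
  obtain ⟨K2, hK2, h2⟩ := pe_Py_bdd (lX T / 2)
  refine ⟨|2 / lX T| * (K1 + K2), by positivity, fun s hs => ?_⟩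
  unfold psi
  rw [norm_mul, Complex.norm_real, Real.norm_eq_abs]
  apply mul_le_mul_of_nonneg_left _ (abs_nonneg _)
  exact (norm_sub_le _ _).trans (add_le_add (h1 s hs) (h2 s hs))

theorem pe_ER_bdd (N : ℕ) {ε : ℝ} (hε : ε = 1 ∨ ε = -1) (g : ℝ → ℝ) : ∃ K : ℝ, 0 ≤ K ∧ ∀ s : ℂ,
    0 ≤ s.re → s.re ≤ 3 → ‖ER N ε g s‖ ≤ K := by
  refine ⟨∑ m ∈ Finset.Icc 1 N, |mug g m| * (m : ℝ) ^ (3 : ℝ),
    Finset.sum_nonneg (fun _ _ => by positivity), fun s hs hs3 => ?_⟩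
  unfold ER
  refine (norm_sum_le _ _).trans (Finset.sum_le_sum fun m hm => ?_)
  have h1 : 1 ≤ m := (Finset.mem_Icc.mp hm).1
  rw [norm_mul, Complex.norm_real, Real.norm_eq_abs, Complex.norm_natCast_cpow_of_pos (by omega)]
  apply mul_le_mul_of_nonneg_left _ (abs_nonneg _)
  apply Real.rpow_le_rpow_of_exponent_le (by exact_mod_cast h1)
  have e : (-(1 / 2 : ℂ) + ε * (s - 1 / 2)).re = -(1 / 2) + ε * (s.re - 1 / 2) := by
    simp
  rw [e]
  rcases hε with h | h <;> rw [h] <;> linarith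

theorem peG_bdd (T a0 a1 κ ε l : ℝ) (hT : 3 ≤ T) (hsg : 0 ≤ sg0 T)
    (hε : ε = 1 ∨ ε = -1) :
    ∃ B : ℝ, ∀ s : ℂ, sg0 T ≤ s.re → s.re ≤ 3 → ‖peG T a0 a1 κ ε l s‖ ≤ B := by
  obtain ⟨K1, hK1, h1⟩ := pe_psi_bdd T
  obtain ⟨K2, hK2, h2⟩ := pe_ER_bdd (N1 T) hε (gf T a0 a1 κ)
  obtain ⟨C, A, hC, hZ⟩ := Zf_growth
  have hT0 : 0 < T := by linarith
  refine ⟨(C * (A.factorial * Real.exp (4 + T ^ 2)) * K1 + 1) * Real.exp (3 * |l|) * K2 *
    Real.exp 7, fun s hs hs3 => ?_⟩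
  have hs0 : 0 ≤ s.re := hsg.trans hs
  obtain ⟨σ, t, rfl⟩ : ∃ σ t : ℝ, s = (σ : ℂ) + t * I := ⟨s.re, s.im, (Complex.re_add_im s).symm⟩
  have hre : ((σ : ℂ) + t * I).re = σ := by simp
  rw [hre] at hs hs3 hs0
  unfold peG
  rw [norm_mul, pe_gauss]
  -- the polynomial factor
  have hn : ‖(σ : ℂ) + t * I‖ ≤ 3 + |t| := by
    refine (norm_add_le _ _).trans ?_
    rw [norm_mul, Complex.norm_I, mul_one, Complex.norm_real, Complex.norm_real, Real.norm_eq_abs,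
      Real.norm_eq_abs, abs_of_nonneg hs0]
    linarith
  have ht : |t| ≤ 3 / 4 * (t / T) ^ 2 + T ^ 2 := by
    have e : |t| = T * (|t| / T) := by field_simp
    have e2 : (t / T) ^ 2 = (|t| / T) ^ 2 := by rw [div_pow, div_pow, sq_abs]
    rw [e2, e]
    have e3 : T * (|t| / T) / T = |t| / T := by field_simp
    rw [e3]
    nlinarith [sq_nonneg (|t| / T - T), sq_nonneg (|t| / T), sq_nonneg T, sq_nonneg (|t| / T / 2 - T)]
  have hp : (1 + ‖(σ : ℂ) + t * I‖) ^ A ≤ A.factorial * Real.exp (4 + |t|) := by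
    have hx : (0 : ℝ) ≤ 4 + |t| := by positivity
    calc (1 + ‖(σ : ℂ) + t * I‖) ^ A ≤ (4 + |t|) ^ A := by
          apply pow_le_pow_left₀ (by positivity); linarith
      _ = A.factorial * ((4 + |t|) ^ A / A.factorial) := by field_simp
      _ ≤ A.factorial * Real.exp (4 + |t|) :=
          mul_le_mul_of_nonneg_left (Real.pow_div_factorial_le_exp _ hx _) (by positivity)
  have hE : 1 ≤ Real.exp (3 / 4 * (t / T) ^ 2) := Real.one_le_exp (by positivity)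
  have hp2 : (1 + ‖(σ : ℂ) + t * I‖) ^ A ≤
      A.factorial * Real.exp (4 + T ^ 2) * Real.exp (3 / 4 * (t / T) ^ 2) := by
    refine hp.trans ?_
    rw [mul_assoc, ← Real.exp_add]
    apply mul_le_mul_of_nonneg_left _ (by positivity)
    apply Real.exp_le_exp.mpr
    linarith
  have h3 : ‖((σ : ℂ) + t * I) + 3‖ ≥ 1 := by
    have h4 := Complex.abs_re_le_norm (((σ : ℂ) + t * I) + 3)
    have h5 : ((((σ : ℂ) + t * I) + 3)).re = σ + 3 := by simp
    rw [h5, abs_of_nonneg (by linarith)] at h4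
    linarith
  have hF : ‖peF T a0 a1 κ ε l ((σ : ℂ) + t * I)‖ ≤
      ((C * (A.factorial * Real.exp (4 + T ^ 2)) * K1 + 1) * Real.exp (3 / 4 * (t / T) ^ 2)) *
        Real.exp (3 * |l|) * K2 := by
    unfold peF
    rw [norm_mul, norm_mul]
    have b1 : ‖Zf ((σ : ℂ) + t * I) * psi T ((σ : ℂ) + t * I) / (((σ : ℂ) + t * I) + 3) -
        eta ((σ : ℂ) + t * I)‖ ≤
        (C * (A.factorial * Real.exp (4 + T ^ 2)) * K1 + 1) * Real.exp (3 / 4 * (t / T) ^ 2) := by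
      refine (norm_sub_le _ _).trans ?_
      rw [norm_div, norm_mul, add_mul, one_mul]
      apply add_le_add
      · refine (div_le_self (by positivity) h3).trans ?_
        have c1 := hZ ((σ : ℂ) + t * I) (by rw [hre]; linarith)
        have c2 := h1 ((σ : ℂ) + t * I) (by rw [hre]; exact hs0)
        calc ‖Zf ((σ : ℂ) + t * I)‖ * ‖psi T ((σ : ℂ) + t * I)‖
            ≤ (C * (A.factorial * Real.exp (4 + T ^ 2) * Real.exp (3 / 4 * (t / T) ^ 2))) * K1 := by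
              apply mul_le_mul (c1.trans (mul_le_mul_of_nonneg_left hp2 (by linarith))) c2
                (norm_nonneg _) (by positivity)
          _ = C * (A.factorial * Real.exp (4 + T ^ 2)) * K1 * Real.exp (3 / 4 * (t / T) ^ 2) := by
              ring
      · exact (pe_eta_le (by rw [hre]; linarith)).trans hE
    have b2 : ‖cexp (l * (((σ : ℂ) + t * I) - sg0 T))‖ ≤ Real.exp (3 * |l|) := by
      rw [Complex.norm_exp]
      apply Real.exp_le_exp.mpr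
      have e : (l * (((σ : ℂ) + t * I) - sg0 T)).re = l * (σ - sg0 T) := by simp
      rw [e]
      have c1 : l * (σ - sg0 T) ≤ |l| * (σ - sg0 T) :=
        mul_le_mul_of_nonneg_right (le_abs_self l) (by linarith)
      have c2 : |l| * (σ - sg0 T) ≤ |l| * 3 :=
        mul_le_mul_of_nonneg_left (by linarith) (abs_nonneg l)
      linarith
    have b3 := h2 ((σ : ℂ) + t * I) (by rw [hre]; exact hs0) (by rw [hre]; exact hs3)
    exact mul_le_mul (mul_le_mul b1 b2 (norm_nonneg _) (by positivity)) b3 (norm_nonneg _)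
      (by positivity)
  have hσ : 3 / 4 * ((σ / T) ^ 2 - (t / T) ^ 2) ≤ 7 - 3 / 4 * (t / T) ^ 2 := by
    have : (σ / T) ^ 2 ≤ 1 := by
      rw [div_pow, div_le_one (by positivity)]
      nlinarith
    linarith
  calc ‖peF T a0 a1 κ ε l ((σ : ℂ) + t * I)‖ * Real.exp (3 / 4 * ((σ / T) ^ 2 - (t / T) ^ 2))
      ≤ (((C * (A.factorial * Real.exp (4 + T ^ 2)) * K1 + 1) * Real.exp (3 / 4 * (t / T) ^ 2)) *
        Real.exp (3 * |l|) * K2) * Real.exp (7 - 3 / 4 * (t / T) ^ 2) :=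
        mul_le_mul hF (Real.exp_le_exp.mpr hσ) (Real.exp_pos _).le (by positivity)
    _ = (C * (A.factorial * Real.exp (4 + T ^ 2)) * K1 + 1) * Real.exp (3 * |l|) * K2 *
        (Real.exp (3 / 4 * (t / T) ^ 2) * Real.exp (7 - 3 / 4 * (t / T) ^ 2)) := by ring
    _ = (C * (A.factorial * Real.exp (4 + T ^ 2)) * K1 + 1) * Real.exp (3 * |l|) * K2 *
        Real.exp 7 := by
        rw [← Real.exp_add]; congr 2; ring

theorem peG_sq (T a0 a1 κ ε l σ t : ℝ) : ‖peG T a0 a1 κ ε l ((σ : ℂ) + t * I)‖ ^ 2 =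
    ‖peF T a0 a1 κ ε l ((σ : ℂ) + t * I)‖ ^ 2 * Real.exp (3 / 2 * ((σ / T) ^ 2 - (t / T) ^ 2)) := by
  unfold peG
  rw [norm_mul, pe_gauss, mul_pow, ← Real.exp_nat_mul]
  congr 2
  push_cast
  ring

theorem peG_cont (T a0 a1 κ ε l : ℝ) {σ : ℝ} (hσ : -3 < σ) :
    Continuous (fun t : ℝ => peG T a0 a1 κ ε l ((σ : ℂ) + t * I)) := by
  rw [continuous_iff_continuousAt]
  intro t
  have h1 : ContinuousAt (peG T a0 a1 κ ε l) ((σ : ℂ) + t * I) :=
    (peG_diff T a0 a1 κ ε l (by simpa using hσ)).continuousAt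
  exact ContinuousAt.comp (f := fun t : ℝ => (σ : ℂ) + t * I) h1 (by fun_prop)

theorem pe_line_ne {T t : ℝ} (h : sg0 T < 1) : ((sg0 T : ℂ) + t * I) ≠ 1 := by
  intro h1
  have := congrArg Complex.re h1
  simp at this
  linarith

theorem pe_left : ∃ C T0 : ℝ, 0 < C ∧ 3 ≤ T0 ∧ ∀ T a0 a1 κ ε l : ℝ, T0 ≤ T → |a0| ≤ el T →
    |a1| ≤ 1 → |κ| ≤ 2 / Real.log T → (ε = 1 ∨ ε = -1) → 0 ≤ sg0 T → sg0 T ≤ 1 / 2 →
    Integrable (fun t : ℝ => ‖peG T a0 a1 κ ε l ((sg0 T : ℂ) + t * I)‖ ^ 2) ∧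
    ∫ t : ℝ, ‖peG T a0 a1 κ ε l ((sg0 T : ℂ) + t * I)‖ ^ 2 ≤ C * T * el T ^ 3 := by
  obtain ⟨C1, T1, hC1, hT1, h1⟩ := phi_left
  obtain ⟨C2, T2, hC2, hT2, h2⟩ := er_gauss
  refine ⟨6 * (C1 + C2), max T1 T2, by positivity, hT1.trans (le_max_left _ _),
    fun T a0 a1 κ ε l hT ha0 ha1 hκ hε hs0 hs1 => ?_⟩
  obtain ⟨i1, b1⟩ := h1 T a0 a1 κ ε ((le_max_left _ _).trans hT) ha0 ha1 hκ hε
  obtain ⟨i2, b2⟩ := h2 T a0 a1 κ ε ((le_max_right _ _).trans hT) ha0 ha1 hκ hε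
  have hT3 : 3 ≤ T := hT1.trans ((le_max_left _ _).trans hT)
  have hT0 : 0 < T := by linarith
  have hpt : ∀ t : ℝ, ‖peG T a0 a1 κ ε l ((sg0 T : ℂ) + t * I)‖ ^ 2 ≤
      6 * (‖eta ((sg0 T : ℂ) + t * I) * riemannZeta ((sg0 T : ℂ) + t * I) *
      psi T ((sg0 T : ℂ) + t * I) * ER (N1 T) ε (gf T a0 a1 κ) ((sg0 T : ℂ) + t * I)‖ ^ 2 *
        Real.exp (-(3 / 2 * (t / T) ^ 2)) +
      ‖ER (N1 T) ε (gf T a0 a1 κ) ((sg0 T : ℂ) + t * I)‖ ^ 2 *
        Real.exp (-(3 / 2 * (t / T) ^ 2))) := by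
    intro t
    rw [peG_sq, peF_eq _ _ _ _ _ _ (pe_line_ne (by linarith))]
    have e1 : Real.exp (3 / 2 * ((sg0 T / T) ^ 2 - (t / T) ^ 2)) ≤
        3 * Real.exp (-(3 / 2 * (t / T) ^ 2)) := by
      have e2 : 3 / 2 * ((sg0 T / T) ^ 2 - (t / T) ^ 2) =
          3 / 2 * (sg0 T / T) ^ 2 + -(3 / 2 * (t / T) ^ 2) := by ring
      rw [e2, Real.exp_add]
      apply mul_le_mul_of_nonneg_right _ (Real.exp_pos _).le
      have e3 : (sg0 T / T) ^ 2 ≤ 1 / 9 := by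
        rw [div_pow, div_le_iff₀ (by positivity)]
        nlinarith
      have e4 : Real.exp (3 / 2 * (sg0 T / T) ^ 2) ≤ Real.exp 1 := Real.exp_le_exp.mpr (by linarith)
      have e5 := Real.exp_one_lt_d9
      linarith
    set s : ℂ := (sg0 T : ℂ) + t * I with hs
    set E := ER (N1 T) ε (gf T a0 a1 κ) s with hE
    have hex : ‖cexp (l * (s - sg0 T))‖ = 1 := by
      rw [Complex.norm_exp]
      have : (l * (s - sg0 T) : ℂ).re = 0 := by rw [hs]; simp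
      rw [this, Real.exp_zero]
    have hn : ‖eta s * (riemannZeta s * psi T s - 1) * cexp (l * (s - sg0 T)) * E‖ ^ 2 ≤
        2 * (‖eta s * riemannZeta s * psi T s * E‖ ^ 2 + ‖E‖ ^ 2) := by
      have f1 : ‖eta s * (riemannZeta s * psi T s - 1) * cexp (l * (s - sg0 T)) * E‖ =
          ‖eta s * riemannZeta s * psi T s * E - eta s * E‖ := by
        rw [norm_mul, norm_mul, hex, mul_one, ← norm_mul]
        congr 1; ring
      have f2 : ‖eta s * E‖ ≤ ‖E‖ := by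
        rw [norm_mul]
        apply mul_le_of_le_one_left (norm_nonneg _)
        apply pe_eta_le
        have : s.re = sg0 T := by rw [hs]; simp
        rw [this]; linarith
      rw [f1]
      have f3 := norm_sub_le (eta s * riemannZeta s * psi T s * E) (eta s * E)
      have f4 : ‖eta s * riemannZeta s * psi T s * E - eta s * E‖ ≤
          ‖eta s * riemannZeta s * psi T s * E‖ + ‖E‖ := f3.trans (by linarith)
      have f5 := norm_nonneg (eta s * riemannZeta s * psi T s * E - eta s * E)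
      nlinarith [sq_nonneg (‖eta s * riemannZeta s * psi T s * E‖ - ‖E‖)]
    calc ‖eta s * (riemannZeta s * psi T s - 1) * cexp (l * (s - sg0 T)) * E‖ ^ 2 *
          Real.exp (3 / 2 * ((sg0 T / T) ^ 2 - (t / T) ^ 2))
        ≤ (2 * (‖eta s * riemannZeta s * psi T s * E‖ ^ 2 + ‖E‖ ^ 2)) *
          (3 * Real.exp (-(3 / 2 * (t / T) ^ 2))) :=
          mul_le_mul hn e1 (Real.exp_pos _).le (by positivity)
      _ = _ := by ring
  have hint := (i1.add i2).const_mul 6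
  have hcont : Continuous (fun t : ℝ => ‖peG T a0 a1 κ ε l ((sg0 T : ℂ) + t * I)‖ ^ 2) :=
    ((peG_cont T a0 a1 κ ε l (by linarith)).norm).pow 2
  have hi : Integrable (fun t : ℝ => ‖peG T a0 a1 κ ε l ((sg0 T : ℂ) + t * I)‖ ^ 2) := by
    refine hint.mono' hcont.aestronglyMeasurable (Filter.Eventually.of_forall fun t => ?_)
    rw [Real.norm_eq_abs, abs_of_nonneg (by positivity)]
    exact hpt t
  refine ⟨hi, ?_⟩
  calc ∫ t : ℝ, ‖peG T a0 a1 κ ε l ((sg0 T : ℂ) + t * I)‖ ^ 2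
      ≤ ∫ t : ℝ, 6 * (‖eta ((sg0 T : ℂ) + t * I) * riemannZeta ((sg0 T : ℂ) + t * I) *
      psi T ((sg0 T : ℂ) + t * I) * ER (N1 T) ε (gf T a0 a1 κ) ((sg0 T : ℂ) + t * I)‖ ^ 2 *
        Real.exp (-(3 / 2 * (t / T) ^ 2)) +
      ‖ER (N1 T) ε (gf T a0 a1 κ) ((sg0 T : ℂ) + t * I)‖ ^ 2 *
        Real.exp (-(3 / 2 * (t / T) ^ 2))) := integral_mono hi hint hpt
    _ = 6 * ((∫ t : ℝ, ‖eta ((sg0 T : ℂ) + t * I) * riemannZeta ((sg0 T : ℂ) + t * I) *
      psi T ((sg0 T : ℂ) + t * I) * ER (N1 T) ε (gf T a0 a1 κ) ((sg0 T : ℂ) + t * I)‖ ^ 2 *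
        Real.exp (-(3 / 2 * (t / T) ^ 2))) +
      ∫ t : ℝ, ‖ER (N1 T) ε (gf T a0 a1 κ) ((sg0 T : ℂ) + t * I)‖ ^ 2 *
        Real.exp (-(3 / 2 * (t / T) ^ 2))) := by
        rw [integral_const_mul, integral_add i1 i2]
    _ ≤ 6 * (C1 * T * el T ^ 3 + C2 * T * el T ^ 3) := by
        apply mul_le_mul_of_nonneg_left (add_le_add b1 b2) (by norm_num)
    _ = 6 * (C1 + C2) * T * el T ^ 3 := by ring

theorem pe_right : ∃ C T0 : ℝ, 0 < C ∧ 3 ≤ T0 ∧ ∀ T a0 a1 κ ε l : ℝ, T0 ≤ T → |a0| ≤ el T →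
    |a1| ≤ 1 → |κ| ≤ 2 / Real.log T → (ε = 1 ∨ ε = -1) → |l| ≤ el T →
    Integrable (fun t : ℝ => ‖peG T a0 a1 κ ε l (((3 : ℝ) : ℂ) + t * I)‖ ^ 2) ∧
    ∫ t : ℝ, ‖peG T a0 a1 κ ε l (((3 : ℝ) : ℂ) + t * I)‖ ^ 2 ≤
      C * T * Real.exp (-(Real.log T / 45)) := by
  obtain ⟨C1, T1, hC1, hT1, h1⟩ := phi_right
  refine ⟨C1 ^ 2 * Real.exp 2 * Real.sqrt (Real.pi / (3 / 2)), T1, by positivity, hT1,
    fun T a0 a1 κ ε l hT ha0 ha1 hκ hε hl => ?_⟩
  have hT3 : 3 ≤ T := hT1.trans hT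
  have hT0 : 0 < T := by linarith
  set b : ℝ := 3 / 2 / T ^ 2 with hb
  have hb0 : 0 < b := by positivity
  have hpt : ∀ t : ℝ, ‖peG T a0 a1 κ ε l (((3 : ℝ) : ℂ) + t * I)‖ ^ 2 ≤
      (C1 ^ 2 * Real.exp 2 * Real.exp (-(Real.log T / 45))) * Real.exp (-b * t ^ 2) := by
    intro t
    have hne : (((3 : ℝ) : ℂ) + t * I) ≠ 1 := by
      intro h
      have := congrArg Complex.re h
      simp at this
    rw [peG_sq, peF_eq _ _ _ _ _ _ hne]
    have g1 := h1 T a0 a1 κ ε l t hT ha0 ha1 hκ hε hl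
    have g2 : Real.exp (3 / 2 * ((3 / T) ^ 2 - (t / T) ^ 2)) ≤ Real.exp 2 * Real.exp (-b * t ^ 2) := by
      rw [← Real.exp_add]
      apply Real.exp_le_exp.mpr
      have g3 : (3 / T) ^ 2 ≤ 1 := by
        rw [div_pow, div_le_one (by positivity)]
        nlinarith
      have g4 : -b * t ^ 2 = -(3 / 2 * (t / T) ^ 2) := by
        rw [hb]; ring
      rw [g4]
      linarith
    have g5 : (C1 * Real.exp (-(Real.log T / 90))) ^ 2 = C1 ^ 2 * Real.exp (-(Real.log T / 45)) := by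
      rw [mul_pow, ← Real.exp_nat_mul]
      congr 2
      push_cast
      ring
    calc _ ≤ (C1 * Real.exp (-(Real.log T / 90))) ^ 2 * (Real.exp 2 * Real.exp (-b * t ^ 2)) := by
          apply mul_le_mul (pow_le_pow_left₀ (norm_nonneg _) g1 2) g2 (Real.exp_pos _).le
            (by positivity)
      _ = _ := by rw [g5]; ring
  have hint : Integrable (fun t : ℝ => (C1 ^ 2 * Real.exp 2 * Real.exp (-(Real.log T / 45))) *
      Real.exp (-b * t ^ 2)) := (integrable_exp_neg_mul_sq hb0).const_mul _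
  have hcont : Continuous (fun t : ℝ => ‖peG T a0 a1 κ ε l (((3 : ℝ) : ℂ) + t * I)‖ ^ 2) :=
    ((peG_cont T a0 a1 κ ε l (by norm_num)).norm).pow 2
  have hi : Integrable (fun t : ℝ => ‖peG T a0 a1 κ ε l (((3 : ℝ) : ℂ) + t * I)‖ ^ 2) := by
    refine hint.mono' hcont.aestronglyMeasurable (Filter.Eventually.of_forall fun t => ?_)
    rw [Real.norm_eq_abs, abs_of_nonneg (by positivity)]
    exact hpt t
  refine ⟨hi, ?_⟩
  have hgi : ∫ t : ℝ, Real.exp (-b * t ^ 2) = T * Real.sqrt (Real.pi / (3 / 2)) := by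
    rw [integral_gaussian]
    have : Real.pi / b = T ^ 2 * (Real.pi / (3 / 2)) := by rw [hb]; field_simp
    rw [this, Real.sqrt_mul (by positivity), Real.sqrt_sq hT0.le]
  calc ∫ t : ℝ, ‖peG T a0 a1 κ ε l (((3 : ℝ) : ℂ) + t * I)‖ ^ 2
      ≤ ∫ t : ℝ, (C1 ^ 2 * Real.exp 2 * Real.exp (-(Real.log T / 45))) * Real.exp (-b * t ^ 2) :=
        integral_mono hi hint hpt
    _ = (C1 ^ 2 * Real.exp 2 * Real.exp (-(Real.log T / 45))) *
        (T * Real.sqrt (Real.pi / (3 / 2))) := by rw [integral_const_mul, hgi]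
    _ = _ := by ring

theorem phi_all : ∃ C T0 : ℝ, 0 < C ∧ 3 ≤ T0 ∧ ∀ T a0 a1 κ ε l u : ℝ, T0 ≤ T → |a0| ≤ el T →
    |a1| ≤ 1 → |κ| ≤ 2 / Real.log T → (ε = 1 ∨ ε = -1) → |l| ≤ el T → 0 ≤ u → u ≤ 3 - sg0 T →
    (u ≠ 1 - sg0 T) →
    ∫ t in (-(2 * T))..(2 * T), ‖eta (((sg0 T + u : ℝ) : ℂ) + t * I) *
      (riemannZeta (((sg0 T + u : ℝ) : ℂ) + t * I) * psi T (((sg0 T + u : ℝ) : ℂ) + t * I) - 1) *
      cexp (l * (((sg0 T + u : ℝ) : ℂ) + t * I - sg0 T)) *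
      ER (N1 T) ε (gf T a0 a1 κ) (((sg0 T + u : ℝ) : ℂ) + t * I)‖ ^ 2 ≤
      C * T * el T ^ 3 * Real.exp (-(u * Real.log T / 200)) := by
  obtain ⟨C1, T1, hC1, hT1, h1⟩ := pe_left
  obtain ⟨C2, T2, hC2, hT2, h2⟩ := pe_right
  refine ⟨Real.exp 6 * 3 * (C1 + C2), max (max T1 T2) (Real.exp 10000), by positivity,
    hT1.trans ((le_max_left _ _).trans (le_max_left _ _)),
    fun T a0 a1 κ ε l u hT ha0 ha1 hκ hε hl hu hu' hne => ?_⟩
  have hTT1 : T1 ≤ T := ((le_max_left _ _).trans (le_max_left _ _)).trans hT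
  have hTT2 : T2 ≤ T := ((le_max_right _ _).trans (le_max_left _ _)).trans hT
  have hTe : Real.exp 10000 ≤ T := (le_max_right _ _).trans hT
  have hT3 : 3 ≤ T := hT1.trans hTT1
  have hT0 : 0 < T := by linarith
  have hlog : 10000 ≤ Real.log T := by
    rw [Real.le_log_iff_exp_le hT0]; exact hTe
  have hel : 1 ≤ el T := by unfold el; linarith
  have hinv : 1 / Real.log T ≤ 1 / 10000 := one_div_le_one_div_of_le (by norm_num) hlog
  have hinv0 : 0 < 1 / Real.log T := by positivity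
  have hsg0 : 0 ≤ sg0 T := by unfold sg0; linarith
  have hsg1 : sg0 T ≤ 1 / 2 := by unfold sg0; linarith
  have hsg2 : 4 / 10 ≤ sg0 T := by unfold sg0; linarith
  set Δ : ℝ := 3 - sg0 T with hΔ
  have hΔ1 : 5 / 2 ≤ Δ := by rw [hΔ]; linarith
  have hΔ2 : Δ ≤ 26 / 10 := by rw [hΔ]; linarith
  have hΔ0 : 0 < Δ := by linarith
  obtain ⟨i1, b1⟩ := h1 T a0 a1 κ ε l hTT1 ha0 ha1 hκ hε hsg0 hsg1
  obtain ⟨i2, b2⟩ := h2 T a0 a1 κ ε l hTT2 ha0 ha1 hκ hε hl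
  obtain ⟨B, hB⟩ := peG_bdd T a0 a1 κ ε l hT3 hsg0 hε
  set X : ℝ := (C1 + C2) * T * el T ^ 3 with hX
  have hX0 : 0 < X := by positivity
  set Y : ℝ := Real.exp (-(Real.log T / 45)) with hY
  have hY0 : 0 < Y := Real.exp_pos _
  set G := peG T a0 a1 κ ε l with hG
  have hel3 : 1 ≤ el T ^ 3 := one_le_pow₀ hel
  -- three lines
  have hline : ∀ (σ : ℝ) (w : ℂ) (x : ℝ), w = (σ : ℂ) + x * I →
      (sg0 T : ℂ) + Δ * w = ((sg0 T + Δ * σ : ℝ) : ℂ) + ((Δ * x : ℝ) : ℂ) * I := by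
    intro σ w x hw
    rw [hw]; push_cast; ring
  have hscale : ∀ h : ℝ → ℝ, ∫ x : ℝ, h (Δ * x) = Δ⁻¹ * ∫ t : ℝ, h t := by
    intro h
    rw [Measure.integral_comp_mul_left h Δ, abs_of_pos (inv_pos.mpr hΔ0), smul_eq_mul]
  have hΔinv : Δ⁻¹ ≤ 1 := inv_le_one_of_one_le₀ (by linarith)
  have key := Pool.Agent.H6.l1_three_lines (g := fun w => G ((sg0 T : ℂ) + Δ * w) ^ 2)
    (σ0 := -1) (by norm_num) (fun w hw => by
      have hd : DifferentiableAt ℂ G ((sg0 T : ℂ) + Δ * w) := by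
        apply peG_diff
        have e : ((sg0 T : ℂ) + Δ * w).re = sg0 T + Δ * w.re := by simp
        rw [e]; nlinarith
      have hc : DifferentiableAt ℂ (fun w : ℂ => (sg0 T : ℂ) + Δ * w) w := by fun_prop
      exact (DifferentiableAt.comp w hd hc).pow 2)
    (B := B ^ 2) (fun w hw0 hw1 => by
      rw [norm_pow]
      apply pow_le_pow_left₀ (norm_nonneg _)
      have e : ((sg0 T : ℂ) + Δ * w).re = sg0 T + Δ * w.re := by simp
      apply hB
      · rw [e]; nlinarith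
      · rw [e]; nlinarith)
    (J0 := X) (J1 := X * Y) (by
      have : (fun x : ℝ => ‖G ((sg0 T : ℂ) + Δ * (x * I)) ^ 2‖) =
          fun x : ℝ => (fun t : ℝ => ‖G ((sg0 T : ℂ) + t * I)‖ ^ 2) (Δ * x) := by
        funext x
        rw [norm_pow, hline 0 (x * I) x (by simp)]
        simp
      rw [this]
      exact i1.comp_mul_left' hΔ0.ne')
    (by
      have : (fun x : ℝ => ‖G ((sg0 T : ℂ) + Δ * (x * I)) ^ 2‖) =
          fun x : ℝ => (fun t : ℝ => ‖G ((sg0 T : ℂ) + t * I)‖ ^ 2) (Δ * x) := by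
        funext x
        rw [norm_pow, hline 0 (x * I) x (by simp)]
        simp
      rw [this, hscale (fun t : ℝ => ‖G ((sg0 T : ℂ) + t * I)‖ ^ 2)]
      have hnn : 0 ≤ ∫ t : ℝ, ‖G ((sg0 T : ℂ) + t * I)‖ ^ 2 :=
        integral_nonneg (fun _ => by positivity)
      calc Δ⁻¹ * ∫ t : ℝ, ‖G ((sg0 T : ℂ) + t * I)‖ ^ 2
          ≤ 1 * ∫ t : ℝ, ‖G ((sg0 T : ℂ) + t * I)‖ ^ 2 := mul_le_mul_of_nonneg_right hΔinv hnn
        _ ≤ C1 * T * el T ^ 3 := by rw [one_mul]; exact b1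
        _ ≤ X := by
            rw [hX]
            have : 0 ≤ C2 * T * el T ^ 3 := by positivity
            linarith)
    (by
      have : (fun x : ℝ => ‖G ((sg0 T : ℂ) + Δ * (1 + x * I)) ^ 2‖) =
          fun x : ℝ => (fun t : ℝ => ‖G (((3 : ℝ) : ℂ) + t * I)‖ ^ 2) (Δ * x) := by
        funext x
        rw [norm_pow, hline 1 (1 + x * I) x (by simp)]
        have e : sg0 T + Δ * 1 = 3 := by rw [hΔ]; ring
        rw [e]
      rw [this]
      exact i2.comp_mul_left' hΔ0.ne')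
    (by
      have : (fun x : ℝ => ‖G ((sg0 T : ℂ) + Δ * (1 + x * I)) ^ 2‖) =
          fun x : ℝ => (fun t : ℝ => ‖G (((3 : ℝ) : ℂ) + t * I)‖ ^ 2) (Δ * x) := by
        funext x
        rw [norm_pow, hline 1 (1 + x * I) x (by simp)]
        have e : sg0 T + Δ * 1 = 3 := by rw [hΔ]; ring
        rw [e]
      rw [this, hscale (fun t : ℝ => ‖G (((3 : ℝ) : ℂ) + t * I)‖ ^ 2)]
      have hnn : 0 ≤ ∫ t : ℝ, ‖G (((3 : ℝ) : ℂ) + t * I)‖ ^ 2 :=
        integral_nonneg (fun _ => by positivity)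
      calc Δ⁻¹ * ∫ t : ℝ, ‖G (((3 : ℝ) : ℂ) + t * I)‖ ^ 2
          ≤ 1 * ∫ t : ℝ, ‖G (((3 : ℝ) : ℂ) + t * I)‖ ^ 2 := mul_le_mul_of_nonneg_right hΔinv hnn
        _ ≤ C2 * T * Y := by rw [one_mul]; exact b2
        _ ≤ X * Y := by
            apply mul_le_mul_of_nonneg_right _ hY0.le
            rw [hX]
            have e1 : 0 ≤ C1 * T * el T ^ 3 := by positivity
            have e2 : C2 * T * 1 ≤ C2 * T * el T ^ 3 :=
              mul_le_mul_of_nonneg_left hel3 (by positivity)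
            linarith)
    (v := u / Δ) (by positivity) (by rw [div_le_one hΔ0]; exact hu') (2 * T / Δ)
  -- the value of the right side
  have hval : X ^ (1 - u / Δ) * (X * Y) ^ (u / Δ) ≤ X * Real.exp (-(u * Real.log T / 200)) := by
    rw [Real.mul_rpow hX0.le hY0.le, ← mul_assoc, ← Real.rpow_add hX0]
    have e1 : 1 - u / Δ + u / Δ = 1 := by ring
    rw [e1, Real.rpow_one]
    apply mul_le_mul_of_nonneg_left _ hX0.le
    rw [hY, ← Real.exp_mul]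
    apply Real.exp_le_exp.mpr
    have e2 : u / (26 / 10) ≤ u / Δ := div_le_div_of_nonneg_left hu hΔ0 hΔ2
    have e3 : 0 ≤ u * Real.log T := mul_nonneg hu (by linarith)
    have e4 : (u / (26 / 10)) * Real.log T ≤ (u / Δ) * Real.log T :=
      mul_le_mul_of_nonneg_right e2 (by linarith)
    have e5 : (u / (26 / 10)) * Real.log T = u * Real.log T * (10 / 26) := by ring
    have e6 : -(Real.log T / 45) * (u / Δ) = -((u / Δ) * Real.log T / 45) := by ring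
    rw [e6]
    linarith
  -- the left side
  have hleft : ∫ x in Icc (-(2 * T / Δ)) (2 * T / Δ), ‖G ((sg0 T : ℂ) + Δ * ((u / Δ : ℝ) + x * I)) ^ 2‖ =
      Δ⁻¹ * ∫ t in (-(2 * T))..(2 * T), ‖G (((sg0 T + u : ℝ) : ℂ) + t * I)‖ ^ 2 := by
    have e0 : -(2 * T / Δ) ≤ 2 * T / Δ := by
      have : 0 < 2 * T / Δ := by positivity
      linarith
    rw [integral_Icc_eq_integral_Ioc, ← intervalIntegral.integral_of_le e0]
    have : (fun x : ℝ => ‖G ((sg0 T : ℂ) + Δ * ((u / Δ : ℝ) + x * I)) ^ 2‖) =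
        fun x : ℝ => (fun t : ℝ => ‖G (((sg0 T + u : ℝ) : ℂ) + t * I)‖ ^ 2) (Δ * x) := by
      funext x
      rw [norm_pow, hline (u / Δ) ((u / Δ : ℝ) + x * I) x rfl]
      have e : sg0 T + Δ * (u / Δ) = sg0 T + u := by field_simp
      rw [e]
    rw [this, intervalIntegral.integral_comp_mul_left (fun t : ℝ =>
      ‖G (((sg0 T + u : ℝ) : ℂ) + t * I)‖ ^ 2) hΔ0.ne', smul_eq_mul]
    have e1 : Δ * -(2 * T / Δ) = -(2 * T) := by field_simp
    have e2 : Δ * (2 * T / Δ) = 2 * T := by field_simp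
    rw [e1, e2]
  have hkey2 : ∫ t in (-(2 * T))..(2 * T), ‖G (((sg0 T + u : ℝ) : ℂ) + t * I)‖ ^ 2 ≤
      Δ * (X * Real.exp (-(u * Real.log T / 200))) := by
    have k1 := key.trans hval
    rw [hleft] at k1
    have k2 := mul_le_mul_of_nonneg_left k1 hΔ0.le
    rwa [← mul_assoc, mul_inv_cancel₀ hΔ0.ne', one_mul] at k2
  -- comparison of the integrands
  have hsu : (-3 : ℝ) < sg0 T + u := by linarith
  have hcomp : ∀ t ∈ Icc (-(2 * T)) (2 * T), ‖eta (((sg0 T + u : ℝ) : ℂ) + t * I) *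
      (riemannZeta (((sg0 T + u : ℝ) : ℂ) + t * I) * psi T (((sg0 T + u : ℝ) : ℂ) + t * I) - 1) *
      cexp (l * (((sg0 T + u : ℝ) : ℂ) + t * I - sg0 T)) *
      ER (N1 T) ε (gf T a0 a1 κ) (((sg0 T + u : ℝ) : ℂ) + t * I)‖ ^ 2 ≤
      Real.exp 6 * ‖G (((sg0 T + u : ℝ) : ℂ) + t * I)‖ ^ 2 := by
    intro t ht
    have hne1 : (((sg0 T + u : ℝ) : ℂ) + t * I) ≠ 1 := by
      intro h
      have := congrArg Complex.re h
      simp at this
      apply hne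
      linarith
    rw [← peF_eq _ _ _ _ _ _ hne1, hG, peG_sq]
    have e1 : (t / T) ^ 2 ≤ 4 := by
      rw [div_pow, div_le_iff₀ (by positivity)]
      have := abs_le.mpr ⟨ht.1, ht.2⟩
      have h2 := sq_le_sq' ht.1 ht.2
      linarith
    have e2 : 1 ≤ Real.exp 6 * Real.exp (3 / 2 * (((sg0 T + u) / T) ^ 2 - (t / T) ^ 2)) := by
      rw [← Real.exp_add]
      apply Real.one_le_exp
      have : 0 ≤ ((sg0 T + u) / T) ^ 2 := sq_nonneg _
      linarith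
    have e3 : 0 ≤ ‖peF T a0 a1 κ ε l (((sg0 T + u : ℝ) : ℂ) + t * I)‖ ^ 2 := by positivity
    calc ‖peF T a0 a1 κ ε l (((sg0 T + u : ℝ) : ℂ) + t * I)‖ ^ 2
        = ‖peF T a0 a1 κ ε l (((sg0 T + u : ℝ) : ℂ) + t * I)‖ ^ 2 * 1 := by ring
      _ ≤ ‖peF T a0 a1 κ ε l (((sg0 T + u : ℝ) : ℂ) + t * I)‖ ^ 2 *
          (Real.exp 6 * Real.exp (3 / 2 * (((sg0 T + u) / T) ^ 2 - (t / T) ^ 2))) :=
          mul_le_mul_of_nonneg_left e2 e3
      _ = _ := by ring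
  have hle : -(2 * T) ≤ 2 * T := by linarith
  have hcG : Continuous (fun t : ℝ => ‖G (((sg0 T + u : ℝ) : ℂ) + t * I)‖ ^ 2) :=
    ((peG_cont T a0 a1 κ ε l hsu).norm).pow 2
  have hiG : IntervalIntegrable (fun t : ℝ => Real.exp 6 * ‖G (((sg0 T + u : ℝ) : ℂ) + t * I)‖ ^ 2)
      volume (-(2 * T)) (2 * T) := (hcG.intervalIntegrable _ _).const_mul _
  have hcF : Continuous (fun t : ℝ => ‖peF T a0 a1 κ ε l (((sg0 T + u : ℝ) : ℂ) + t * I)‖ ^ 2) := by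
    apply Continuous.pow
    apply Continuous.norm
    rw [continuous_iff_continuousAt]
    intro t
    have h1 : ContinuousAt (peF T a0 a1 κ ε l) (((sg0 T + u : ℝ) : ℂ) + t * I) :=
      (peF_diff T a0 a1 κ ε l (by simpa using hsu)).continuousAt
    exact ContinuousAt.comp (f := fun t : ℝ => ((sg0 T + u : ℝ) : ℂ) + t * I) h1 (by fun_prop)
  have hiF : IntervalIntegrable (fun t : ℝ => ‖eta (((sg0 T + u : ℝ) : ℂ) + t * I) *
      (riemannZeta (((sg0 T + u : ℝ) : ℂ) + t * I) * psi T (((sg0 T + u : ℝ) : ℂ) + t * I) - 1) *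
      cexp (l * (((sg0 T + u : ℝ) : ℂ) + t * I - sg0 T)) *
      ER (N1 T) ε (gf T a0 a1 κ) (((sg0 T + u : ℝ) : ℂ) + t * I)‖ ^ 2)
      volume (-(2 * T)) (2 * T) := by
    have : (fun t : ℝ => ‖eta (((sg0 T + u : ℝ) : ℂ) + t * I) *
      (riemannZeta (((sg0 T + u : ℝ) : ℂ) + t * I) * psi T (((sg0 T + u : ℝ) : ℂ) + t * I) - 1) *
      cexp (l * (((sg0 T + u : ℝ) : ℂ) + t * I - sg0 T)) *
      ER (N1 T) ε (gf T a0 a1 κ) (((sg0 T + u : ℝ) : ℂ) + t * I)‖ ^ 2) =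
      fun t : ℝ => ‖peF T a0 a1 κ ε l (((sg0 T + u : ℝ) : ℂ) + t * I)‖ ^ 2 := by
      funext t
      rw [peF_eq]
      intro h
      have := congrArg Complex.re h
      simp at this
      apply hne
      linarith
    rw [this]
    exact hcF.intervalIntegrable _ _
  calc _ ≤ ∫ t in (-(2 * T))..(2 * T), Real.exp 6 * ‖G (((sg0 T + u : ℝ) : ℂ) + t * I)‖ ^ 2 :=
        intervalIntegral.integral_mono_on hle hiF hiG hcomp
    _ = Real.exp 6 * ∫ t in (-(2 * T))..(2 * T), ‖G (((sg0 T + u : ℝ) : ℂ) + t * I)‖ ^ 2 := by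
        rw [intervalIntegral.integral_const_mul]
    _ ≤ Real.exp 6 * (Δ * (X * Real.exp (-(u * Real.log T / 200)))) :=
        mul_le_mul_of_nonneg_left hkey2 (Real.exp_pos _).le
    _ ≤ Real.exp 6 * (3 * (X * Real.exp (-(u * Real.log T / 200)))) := by
        apply mul_le_mul_of_nonneg_left _ (Real.exp_pos _).le
        apply mul_le_mul_of_nonneg_right _ (by positivity)
        linarith
    _ = _ := by rw [hX]; ring

end Pool.Agent.ZR
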