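import Pool.Agent.ZR.Defs

/-!
# The polynomials `Dh`, `Da`, `Db` in terms of `Qe` and `ER`
`S = Icc 1 (N1 T)`, `C_m = μ(m)(1 - log m/el T) m^(-1/2 - ε/log T)`, `ν_m = ε log m + l`.
-/

set_option autoImplicit false

open Complex MeasureTheory Set Finset

namespace Pool.Agent.ZR

/-- The coefficients. -/
noncomputable def Cm (T ε : ℝ) (m : ℕ) : ℝ :=
  mug (fun v => 1 - v / el T) m * (m : ℝ) ^ (-(1 / 2 : ℝ) - ε / Real.log T)

/-- The frequencies. -/
noncomputable def num (ε l : ℝ) (m : ℕ) : ℝ := ε * Real.log m + l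

private lemma cpow_exp' {m : ℕ} (hm : 1 ≤ m) (w : ℂ) :
    (m : ℂ) ^ w = cexp ((Real.log m : ℝ) * w) := by
  have h0 : (m : ℂ) ≠ 0 := by exact_mod_cast (by omega : m ≠ 0)
  rw [Complex.cpow_def_of_ne_zero h0, Complex.ofReal_log (by positivity)]
  simp

private lemma rpow_exp' {m : ℕ} (hm : 1 ≤ m) (w : ℝ) :
    (((m : ℝ) ^ w : ℝ) : ℂ) = cexp ((Real.log m : ℝ) * (w : ℝ)) := by
  have h0 : (0 : ℝ) < m := by exact_mod_cast hm
  rw [Real.rpow_def_of_pos h0]
  push_cast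
  ring_nf

theorem da_eq (T ε l u t : ℝ) :
    ‖Da (Finset.Icc 1 (N1 T)) (Cm T ε) (num ε l) u t‖ =
      ‖cexp (l * (pnt (sg0 T + u, t) - sg0 T)) * ER (N1 T) ε (gf T l ε 0) (pnt (sg0 T + u, t))‖ := by
  congr 1
  unfold Da ER
  rw [Finset.mul_sum]
  apply Finset.sum_congr rfl
  intro m hm
  have hm1 : 1 ≤ m := (Finset.mem_Icc.mp hm).1
  rw [cpow_exp' hm1]
  unfold Cm mug gf num pnt sg0
  simp only [Complex.ofReal_mul, rpow_exp' hm1, zero_mul, neg_zero, Real.exp_zero, mul_one]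
  generalize Real.log (m : ℝ) = lam
  have e1 : cexp ((lam : ℂ) * ((-(1 / 2 : ℝ) - ε / Real.log T : ℝ) : ℂ)) *
      ((Real.exp ((ε * lam + l) * u) : ℝ) : ℂ) * cexp (I * (((ε * lam + l : ℝ) : ℂ) * t)) =
      cexp (l * (((1 / 2 - 1 / Real.log T + u : ℝ) : ℂ) + t * I - ((1 / 2 - 1 / Real.log T : ℝ) : ℂ))) *
      cexp ((lam : ℂ) * (-(1 / 2) + ε * (((1 / 2 - 1 / Real.log T + u : ℝ) : ℂ) + t * I - 1 / 2))) := by
    rw [Complex.ofReal_exp, ← Complex.exp_add, ← Complex.exp_add, ← Complex.exp_add]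
    congr 1
    push_cast
    ring
  have e2 : ∀ c w : ℂ, c * ((1 - lam / el T : ℝ) : ℂ) * w = c * ((1 - lam / el T : ℝ) : ℂ) * w :=
    fun _ _ => rfl
  push_cast at e1 ⊢
  linear_combination (((ArithmeticFunction.moebius m : ℤ) : ℂ) * (1 - (lam : ℂ) / (el T : ℂ)) *
    (ε * lam + l)) * e1

theorem db_eq {T : ℝ} (hT : 1 < T) (ε l u t : ℝ) :
    ‖Db (Finset.Icc 1 (N1 T)) (Cm T ε) (num ε l) u t‖ =
      ‖cexp (((-l : ℝ) : ℂ) * (pnt (sg0 T + u, t) - sg0 T)) *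
        ER (N1 T) (-ε) (gf T l ε (2 * ε / Real.log T)) (pnt (sg0 T + u, t))‖ := by
  have hL : Real.log T ≠ 0 := (Real.log_pos hT).ne'
  rw [← Complex.norm_conj (Db (Finset.Icc 1 (N1 T)) (Cm T ε) (num ε l) u t)]
  congr 1
  unfold Db ER
  rw [map_sum, Finset.mul_sum]
  apply Finset.sum_congr rfl
  intro m hm
  have hm1 : 1 ≤ m := (Finset.mem_Icc.mp hm).1
  rw [cpow_exp' hm1]
  unfold Cm mug gf num pnt sg0
  simp only [map_mul, Complex.conj_ofReal, ← Complex.exp_conj, Complex.conj_I]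
  simp only [Complex.ofReal_mul, rpow_exp' hm1]
  generalize Real.log (m : ℝ) = lam
  generalize hLL : Real.log T = LL at *
  have hLc : (LL : ℂ) ≠ 0 := by exact_mod_cast hL
  have e1 : cexp ((lam : ℂ) * ((-(1 / 2 : ℝ) - ε / LL : ℝ) : ℂ)) *
      ((Real.exp (-((ε * lam + l) * u)) : ℝ) : ℂ) * cexp (-I * (((ε * lam + l : ℝ) : ℂ) * t)) =
      ((Real.exp (-(2 * ε / LL * lam)) : ℝ) : ℂ) *
      cexp (((-l : ℝ) : ℂ) * (((1 / 2 - 1 / LL + u : ℝ) : ℂ) + t * I - ((1 / 2 - 1 / LL : ℝ) : ℂ))) *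
      cexp ((lam : ℂ) * (-(1 / 2) + ((-ε : ℝ) : ℂ) *
        (((1 / 2 - 1 / LL + u : ℝ) : ℂ) + t * I - 1 / 2))) := by
    rw [Complex.ofReal_exp, Complex.ofReal_exp, ← Complex.exp_add, ← Complex.exp_add,
      ← Complex.exp_add, ← Complex.exp_add]
    congr 1
    push_cast
    field_simp
    ring
  push_cast at e1 ⊢
  linear_combination (((ArithmeticFunction.moebius m : ℤ) : ℂ) * (1 - (lam : ℂ) / (el T : ℂ)) *
    (ε * lam + l)) * e1

private lemma dh_eq (T ε l u t : ℝ) : Dh (Finset.Icc 1 (N1 T)) (Cm T ε) (num ε l) u t =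
    cexp (l * (u + t * I)) * (∑ m ∈ Finset.Icc 1 (N1 T), (Cm T ε m : ℂ) *
      cexp ((ε * Real.log m : ℝ) * (u + t * I))) -
    cexp (l * (-u + t * I)) * (∑ m ∈ Finset.Icc 1 (N1 T), (Cm T ε m : ℂ) *
      cexp ((ε * Real.log m : ℝ) * (-u + t * I))) := by
  unfold Dh num
  rw [Finset.mul_sum, Finset.mul_sum, ← Finset.sum_sub_distrib]
  apply Finset.sum_congr rfl
  intro m hm
  generalize Real.log (m : ℝ) = lam
  generalize Cm T ε m = c
  have e1 : ((2 * Real.sinh ((ε * lam + l) * u) : ℝ) : ℂ) * cexp (I * ((ε * lam + l) * t : ℝ)) =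
      cexp (l * (u + t * I)) * cexp ((ε * lam : ℝ) * (u + t * I)) -
      cexp (l * (-u + t * I)) * cexp ((ε * lam : ℝ) * (-u + t * I)) := by
    rw [Real.sinh_eq, ← Complex.exp_add, ← Complex.exp_add]
    push_cast
    rw [mul_div_cancel₀ _ (two_ne_zero), sub_mul, ← Complex.exp_add, ← Complex.exp_add]
    congr 2 <;> ring
  push_cast at e1 ⊢
  linear_combination c * e1

private lemma qe_eq (T ε u t : ℝ) : Qe T ε (pnt (sg0 T + u, t)) =
    ∑ m ∈ Finset.Icc 1 (N1 T), (Cm T ε m : ℂ) * cexp ((ε * Real.log m : ℝ) * (u + t * I)) := by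
  unfold Qe ER
  apply Finset.sum_congr rfl
  intro m hm
  have hm1 : 1 ≤ m := (Finset.mem_Icc.mp hm).1
  rw [cpow_exp' hm1]
  unfold Cm pnt sg0
  rw [Complex.ofReal_mul, rpow_exp' hm1, mul_assoc]
  congr 1
  generalize Real.log (m : ℝ) = lam
  rw [← Complex.exp_add]
  congr 1
  push_cast
  ring

/-- `D_l - e^(-lu) D_0 e^(ilt) = 2 sinh(lu) e^(ilt) Qe` -/
theorem qe_le (T ε l u t : ℝ) (hl : 0 < l) (hu : 0 < u) :
    ‖Qe T ε (pnt (sg0 T + u, t))‖ ^ 2 ≤ (‖Dh (Finset.Icc 1 (N1 T)) (Cm T ε) (num ε l) u t‖ ^ 2 +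
      ‖Dh (Finset.Icc 1 (N1 T)) (Cm T ε) (num ε 0) u t‖ ^ 2) / (2 * Real.sinh (l * u) ^ 2) := by
  have hsh : 0 < Real.sinh (l * u) := Real.sinh_pos_iff.2 (mul_pos hl hu)
  have hk : cexp (-(l * t * I)) * Dh (Finset.Icc 1 (N1 T)) (Cm T ε) (num ε l) u t -
      (Real.exp (-(l * u)) : ℝ) * Dh (Finset.Icc 1 (N1 T)) (Cm T ε) (num ε 0) u t =
      (2 * Real.sinh (l * u) : ℝ) * Qe T ε (pnt (sg0 T + u, t)) := by
    rw [dh_eq, dh_eq, qe_eq]
    generalize (∑ m ∈ Finset.Icc 1 (N1 T), (Cm T ε m : ℂ) *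
      cexp ((ε * Real.log m : ℝ) * (u + t * I))) = A
    generalize (∑ m ∈ Finset.Icc 1 (N1 T), (Cm T ε m : ℂ) *
      cexp ((ε * Real.log m : ℝ) * (-u + t * I))) = B
    have e1 : cexp (-(l * t * I)) * cexp (l * (u + t * I)) = cexp (l * u) := by
      rw [← Complex.exp_add]; congr 1; ring
    have e2 : cexp (-(l * t * I)) * cexp (l * (-u + t * I)) = cexp (-(l * u)) := by
      rw [← Complex.exp_add]; congr 1; ring
    rw [Real.sinh_eq]
    push_cast
    simp only [zero_mul, Complex.exp_zero, one_mul]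
    linear_combination A * e1 - B * e2
  have hn : 2 * Real.sinh (l * u) * ‖Qe T ε (pnt (sg0 T + u, t))‖ ≤
      ‖Dh (Finset.Icc 1 (N1 T)) (Cm T ε) (num ε l) u t‖ +
      ‖Dh (Finset.Icc 1 (N1 T)) (Cm T ε) (num ε 0) u t‖ := by
    have h1 : ‖((2 * Real.sinh (l * u) : ℝ) : ℂ) * Qe T ε (pnt (sg0 T + u, t))‖ =
        2 * Real.sinh (l * u) * ‖Qe T ε (pnt (sg0 T + u, t))‖ := by
      rw [norm_mul, Complex.norm_real, Real.norm_of_nonneg (by positivity)]
    rw [← h1, ← hk]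
    refine (norm_sub_le _ _).trans ?_
    rw [norm_mul, norm_mul, Complex.norm_real, Complex.norm_exp]
    have h2 : (-((l : ℂ) * t * I)).re = 0 := by simp
    rw [h2, Real.exp_zero, one_mul, Real.norm_of_nonneg (Real.exp_pos _).le]
    gcongr
    have h3 : Real.exp (-(l * u)) ≤ 1 := by
      rw [Real.exp_le_one_iff]
      have := mul_pos hl hu
      linarith
    calc Real.exp (-(l * u)) * ‖Dh (Finset.Icc 1 (N1 T)) (Cm T ε) (num ε 0) u t‖
        ≤ 1 * ‖Dh (Finset.Icc 1 (N1 T)) (Cm T ε) (num ε 0) u t‖ := by gcongr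
      _ = _ := one_mul _
  rw [le_div_iff₀ (by positivity)]
  generalize ‖Dh (Finset.Icc 1 (N1 T)) (Cm T ε) (num ε l) u t‖ = a at *
  generalize ‖Dh (Finset.Icc 1 (N1 T)) (Cm T ε) (num ε 0) u t‖ = b at *
  have hq : 0 ≤ ‖Qe T ε (pnt (sg0 T + u, t))‖ := norm_nonneg _
  generalize ‖Qe T ε (pnt (sg0 T + u, t))‖ = q at *
  have hsq : (2 * Real.sinh (l * u) * q) ^ 2 ≤ (a + b) ^ 2 :=
    pow_le_pow_left₀ (by positivity) hn 2
  nlinarith [sq_nonneg (a - b)]

private lemma mug_le {T : ℝ} (hT : 0 < el T) {m : ℕ} (hm1 : 1 ≤ m) (hm : (m : ℝ) ≤ Real.exp (el T)) :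
    |mug (fun v => 1 - v / el T) m| ≤ 1 := by
  unfold mug
  rw [abs_mul]
  have h1 : |((ArithmeticFunction.moebius m : ℤ) : ℝ)| ≤ 1 := by
    exact_mod_cast ArithmeticFunction.abs_moebius_le_one
  have hlog : Real.log m ≤ el T := by
    rw [← Real.log_exp (el T)]
    exact Real.log_le_log (by positivity) hm
  have hlog0 : 0 ≤ Real.log m := Real.log_nonneg (by exact_mod_cast hm1)
  have h2 : |1 - Real.log m / el T| ≤ 1 := by
    have h3 : Real.log m / el T ≤ 1 := (div_le_one hT).2 hlog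
    have h4 : 0 ≤ Real.log m / el T := by positivity
    rw [abs_le]; constructor <;> linarith
  calc |((ArithmeticFunction.moebius m : ℤ) : ℝ)| * |1 - Real.log m / el T| ≤ 1 * 1 :=
        mul_le_mul h1 h2 (abs_nonneg _) (by norm_num)
    _ = 1 := one_mul 1

/-- crude bound of the error constant -/
theorem cm_sum : ∃ C T0 : ℝ, 0 < C ∧ 3 ≤ T0 ∧ ∀ T ε l : ℝ, T0 ≤ T → (ε = 1 ∨ ε = -1) → |l| ≤ el T →
    (∑ m ∈ Finset.Icc 1 (N1 T), |Cm T ε m| * (1 + |num ε l m|) * Real.exp (3 * |num ε l m|)) ^ 2 ≤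
      C * Real.exp (Real.log T / 500) := by
  refine ⟨1, Real.exp 2, one_pos, ?_, ?_⟩
  · have h1 : (2.7182818283 : ℝ) < Real.exp 1 := Real.exp_one_gt_d9
    have h2 : Real.exp 2 = Real.exp 1 * Real.exp 1 := by rw [← Real.exp_add]; norm_num
    rw [h2]; nlinarith
  intro T ε l hT hε hl
  have hT0 : 0 < T := (Real.exp_pos 2).trans_le hT
  have hL2 : 2 ≤ Real.log T := by
    rw [← Real.log_exp 2]
    exact Real.log_le_log (Real.exp_pos 2) hT
  have hel : 0 < el T := by unfold el; positivity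
  have hεabs : |ε| = 1 := by rcases hε with h | h <;> simp [h]
  have hterm : ∀ m ∈ Finset.Icc 1 (N1 T),
      |Cm T ε m| * (1 + |num ε l m|) * Real.exp (3 * |num ε l m|) ≤ Real.exp (8 * el T) := by
    intro m hm
    obtain ⟨hm1, hm2⟩ := Finset.mem_Icc.mp hm
    have hmle : (m : ℝ) ≤ Real.exp (el T) := by
      unfold N1 at hm2
      exact (Nat.le_floor_iff (Real.exp_pos _).le).1 hm2
    have hm0 : (1 : ℝ) ≤ m := by exact_mod_cast hm1
    have hlog : Real.log m ≤ el T := by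
      rw [← Real.log_exp (el T)]
      exact Real.log_le_log (by positivity) hmle
    have hlog0 : 0 ≤ Real.log m := Real.log_nonneg hm0
    have hC : |Cm T ε m| ≤ 1 := by
      unfold Cm
      rw [abs_mul, abs_of_nonneg (Real.rpow_nonneg (by positivity) _)]
      have h1 := mug_le hel hm1 hmle
      have h2 : (m : ℝ) ^ (-(1 / 2 : ℝ) - ε / Real.log T) ≤ 1 := by
        apply Real.rpow_le_one_of_one_le_of_nonpos hm0
        have h3 : -(1 / 2) ≤ ε / Real.log T := by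
          have h4 : |ε / Real.log T| ≤ 1 / 2 := by
            rw [abs_div, hεabs, abs_of_pos (by linarith)]
            exact one_div_le_one_div_of_le (by norm_num) hL2
          linarith [(abs_le.1 h4).1]
        linarith
      calc |mug (fun v => 1 - v / el T) m| * (m : ℝ) ^ (-(1 / 2 : ℝ) - ε / Real.log T) ≤ 1 * 1 :=
            mul_le_mul h1 h2 (Real.rpow_nonneg (by positivity) _) (by norm_num)
        _ = 1 := one_mul 1
    have hnu : |num ε l m| ≤ 2 * el T := by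
      unfold num
      calc |ε * Real.log m + l| ≤ |ε * Real.log m| + |l| := abs_add_le _ _
        _ = Real.log m + |l| := by rw [abs_mul, hεabs, one_mul, abs_of_nonneg hlog0]
        _ ≤ _ := by linarith
    have h5 : 1 + |num ε l m| ≤ Real.exp (2 * el T) := by
      have := Real.add_one_le_exp (2 * el T)
      linarith
    have h6 : Real.exp (3 * |num ε l m|) ≤ Real.exp (6 * el T) := by
      apply Real.exp_le_exp.2; linarith
    calc |Cm T ε m| * (1 + |num ε l m|) * Real.exp (3 * |num ε l m|)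
        ≤ 1 * Real.exp (2 * el T) * Real.exp (6 * el T) := by gcongr
      _ = Real.exp (8 * el T) := by rw [one_mul, ← Real.exp_add]; ring_nf
  have hsum : ∑ m ∈ Finset.Icc 1 (N1 T), |Cm T ε m| * (1 + |num ε l m|) *
      Real.exp (3 * |num ε l m|) ≤ Real.exp (9 * el T) := by
    calc ∑ m ∈ Finset.Icc 1 (N1 T), |Cm T ε m| * (1 + |num ε l m|) * Real.exp (3 * |num ε l m|)
        ≤ ∑ _m ∈ Finset.Icc 1 (N1 T), Real.exp (8 * el T) := Finset.sum_le_sum hterm
      _ = (N1 T : ℝ) * Real.exp (8 * el T) := by simp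
      _ ≤ Real.exp (el T) * Real.exp (8 * el T) := by
          gcongr
          exact Nat.floor_le (Real.exp_pos _).le
      _ = _ := by rw [← Real.exp_add]; ring_nf
  have hnn : 0 ≤ ∑ m ∈ Finset.Icc 1 (N1 T), |Cm T ε m| * (1 + |num ε l m|) *
      Real.exp (3 * |num ε l m|) := Finset.sum_nonneg fun m _ => by positivity
  calc (∑ m ∈ Finset.Icc 1 (N1 T), |Cm T ε m| * (1 + |num ε l m|) * Real.exp (3 * |num ε l m|)) ^ 2
      ≤ (Real.exp (9 * el T)) ^ 2 := pow_le_pow_left₀ hnn hsum 2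
    _ = Real.exp (18 * el T) := by rw [← Real.exp_nat_mul]; ring_nf
    _ ≤ Real.exp (Real.log T / 500) := by
        apply Real.exp_le_exp.2
        unfold el
        linarith
    _ = 1 * Real.exp (Real.log T / 500) := (one_mul _).symm

end Pool.Agent.ZR
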