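import Pool.Agent.ZR.PF1
import Pool.Agent.ZR.PF2
import Pool.Agent.ZR.GZ
import Pool.Agent.ZR.LI

/-!
# The large sieve over all zeros
`zd_green` with `2T`, `F = Zf psi/(s+3)`, `l = 0` and `l = el T`.
-/

set_option autoImplicit false

open Complex MeasureTheory Set Finset

namespace Pool.Agent.ZR

/-- `Zf psi / (s + 3)`. -/
private noncomputable def FF (T : ℝ) (s : ℂ) : ℂ := Zf s * psi T s / (s + 3)

private lemma Py_diff (y : ℝ) : Differentiable ℂ (Py y) := by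
  unfold Py
  apply Differentiable.fun_sum
  intro h hh
  have h1 := (Finset.mem_Icc.mp hh).1
  have h0 : (h : ℂ) ≠ 0 := by exact_mod_cast (by omega : h ≠ 0)
  intro s
  exact (DifferentiableAt.const_cpow differentiableAt_id.neg (Or.inl h0)).const_mul _

private lemma psi_diff (T : ℝ) : Differentiable ℂ (psi T) := by
  unfold psi
  exact ((Py_diff _).sub (Py_diff _)).const_mul _

private lemma FF_diff (T : ℝ) {s : ℂ} (hs : -1 < s.re) : DifferentiableAt ℂ (FF T) s := by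
  have h3 : s + 3 ≠ 0 := by
    intro h
    have := congrArg Complex.re h
    simp at this
    linarith
  unfold FF
  exact ((Zf_diff s).mul (psi_diff T s)).div (differentiableAt_id.add_const 3) h3

private lemma Py_norm {y : ℝ} (hy : 0 ≤ y) {s : ℂ} (hs : 0 ≤ s.re) :
    ‖Py y s‖ ≤ Real.exp y * y := by
  unfold Py
  calc ‖∑ h ∈ Finset.Icc 1 ⌊Real.exp y⌋₊, (mug (fun v => y - v) h : ℂ) * (h : ℂ) ^ (-s)‖
      ≤ ∑ h ∈ Finset.Icc 1 ⌊Real.exp y⌋₊, ‖(mug (fun v => y - v) h : ℂ) * (h : ℂ) ^ (-s)‖ :=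
        norm_sum_le _ _
    _ ≤ ∑ h ∈ Finset.Icc 1 ⌊Real.exp y⌋₊, y := by
        apply Finset.sum_le_sum
        intro h hh
        obtain ⟨h1, h2⟩ := Finset.mem_Icc.mp hh
        have hpos : (0:ℝ) < h := by exact_mod_cast (by omega : 0 < h)
        have h3 : (h : ℝ) ≤ Real.exp y := (Nat.cast_le.2 h2).trans (Nat.floor_le (Real.exp_pos y).le)
        have h4 : Real.log h ≤ y := by
          rw [← Real.log_exp y]; exact Real.log_le_log hpos h3
        have h5 : 0 ≤ Real.log h := Real.log_nonneg (by exact_mod_cast h1)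
        rw [norm_mul, Complex.norm_real, Complex.norm_natCast_cpow_of_pos (by omega), Complex.neg_re]
        have h6 : |mug (fun v => y - v) h| ≤ y := by
          unfold mug
          rw [abs_mul]
          have h7 : |((ArithmeticFunction.moebius h : ℤ) : ℝ)| ≤ 1 := by
            exact_mod_cast ArithmeticFunction.abs_moebius_le_one
          have h8 : |y - Real.log h| ≤ y := by
            rw [abs_of_nonneg (by linarith)]; linarith
          calc _ ≤ 1 * y := mul_le_mul h7 h8 (abs_nonneg _) (by norm_num)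
            _ = y := one_mul y
        have h9 : (h : ℝ) ^ (-s.re) ≤ 1 := by
          apply Real.rpow_le_one_of_one_le_of_nonpos (by exact_mod_cast h1) (by linarith)
        rw [Real.norm_eq_abs]
        calc |mug (fun v => y - v) h| * (h : ℝ) ^ (-s.re) ≤ y * 1 :=
              mul_le_mul h6 h9 (by positivity) hy
          _ = y := mul_one y
    _ = ⌊Real.exp y⌋₊ * y := by simp
    _ ≤ Real.exp y * y := by
        gcongr
        exact Nat.floor_le (Real.exp_pos y).le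

private lemma psi_norm {T : ℝ} (hT : 1 < T) {s : ℂ} (hs : 0 ≤ s.re) : ‖psi T s‖ ≤ 4 * T := by
  have hL : 0 < Real.log T := Real.log_pos hT
  have hX : 0 < lX T := by unfold lX; positivity
  have h1 := Py_norm hX.le hs
  have h2 := Py_norm (y := lX T / 2) (by positivity) hs
  have h3 : Real.exp (lX T / 2) ≤ Real.exp (lX T) := Real.exp_le_exp.2 (by linarith)
  have h4 : Real.exp (lX T) ≤ T := by
    rw [← Real.le_log_iff_exp_le (by linarith)]
    unfold lX; linarith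
  unfold psi
  rw [norm_mul, Complex.norm_real, Real.norm_of_nonneg (by positivity)]
  have h5 : ‖Py (lX T) s - Py (lX T / 2) s‖ ≤ Real.exp (lX T) * lX T + Real.exp (lX T) * lX T := by
    refine (norm_sub_le _ _).trans (add_le_add h1 (h2.trans ?_))
    gcongr
    linarith
  calc 2 / lX T * ‖Py (lX T) s - Py (lX T / 2) s‖
      ≤ 2 / lX T * (Real.exp (lX T) * lX T + Real.exp (lX T) * lX T) := by gcongr
    _ = 4 * Real.exp (lX T) := by field_simp; ring
    _ ≤ 4 * T := by linarith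

private lemma FF_up : ∃ B : ℝ, 1 ≤ B ∧ ∀ T : ℝ, 20 ≤ T → ∀ s : ℂ, 0 ≤ s.re → s.re ≤ 6 →
    |s.im| ≤ 2 * T + 5 → ‖FF T s‖ ≤ Real.exp (B * Real.log T) := by
  obtain ⟨C, A, hC, h⟩ := Zf_growth
  refine ⟨Real.log C + (2 * A) + 2, by
    have := Real.log_nonneg hC
    have : (0:ℝ) ≤ 2 * A := by positivity
    linarith, fun T hT s h0 h6 hi => ?_⟩
  have hT0 : 0 < T := by linarith
  have hL : 1 ≤ Real.log T := by
    rw [Real.le_log_iff_exp_le hT0]
    have := Real.exp_one_lt_d9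
    linarith
  have h1 := h s (by linarith)
  have h2 := psi_norm (T := T) (by linarith) h0
  have hs : ‖s‖ ≤ 2 * T + 11 := by
    have := Complex.norm_le_abs_re_add_abs_im s
    rw [abs_of_nonneg h0] at this
    linarith
  have hs3 : 3 ≤ ‖s + 3‖ := by
    have h7 := Complex.abs_re_le_norm (s + 3)
    have h8 : (s + 3).re = s.re + 3 := by simp
    rw [h8, abs_of_nonneg (by linarith)] at h7
    linarith
  have h9 : (1 + ‖s‖) ≤ T ^ 2 := by nlinarith
  unfold FF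
  rw [norm_div, norm_mul, div_le_iff₀ (by linarith)]
  have h10 : C ≤ Real.exp (Real.log C * Real.log T) := by
    calc C = Real.exp (Real.log C * 1) := by rw [mul_one, Real.exp_log (by linarith)]
      _ ≤ _ := Real.exp_le_exp.2 (mul_le_mul_of_nonneg_left hL (Real.log_nonneg hC))
  have h11 : Real.exp ((Real.log C + (2 * A) + 2) * Real.log T) =
      Real.exp (Real.log C * Real.log T) * T ^ (2 * A) * T ^ 2 := by
    rw [add_mul, add_mul, Real.exp_add, Real.exp_add]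
    have e1 : Real.exp (2 * (A:ℝ) * Real.log T) = T ^ (2 * A) := by
      rw [mul_comm, Real.exp_mul, Real.exp_log hT0, ← Real.rpow_natCast]
      push_cast
      rfl
    have e2 : Real.exp (2 * Real.log T) = T ^ 2 := by
      rw [mul_comm, Real.exp_mul, Real.exp_log hT0, ← Real.rpow_natCast]
      norm_num
    rw [e1, e2]
  rw [h11]
  calc ‖Zf s‖ * ‖psi T s‖ ≤ (C * (1 + ‖s‖) ^ A) * (4 * T) :=
        mul_le_mul h1 h2 (norm_nonneg _) (by positivity)
    _ ≤ (Real.exp (Real.log C * Real.log T) * (T ^ 2) ^ A) * (T ^ 2) := by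
        gcongr
        nlinarith
    _ = Real.exp (Real.log C * Real.log T) * T ^ (2 * A) * T ^ 2 * 1 := by
        rw [← pow_mul]; ring
    _ ≤ Real.exp (Real.log C * Real.log T) * T ^ (2 * A) * T ^ 2 * ‖s + 3‖ := by
        gcongr
        linarith

/-- The right side of `zd_green`, for one `l`. -/
private lemma dh_sum : ∃ C T0 : ℝ, 0 < C ∧ 3 ≤ T0 ∧ ∀ (T ε l : ℝ) (Z : Finset ℂ), T0 ≤ T →
    (ε = 1 ∨ ε = -1) → |l| ≤ el T → (∀ z ∈ Z, z ∈ Zs ∧ 1 / 2 ≤ z.re ∧ |z.im| < T) →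
    ∑ z ∈ Z, ‖Dh (Finset.Icc 1 (N1 T)) (Cm T ε) (num ε l) (z.re - sg0 T) z.im‖ ^ 2 ≤
      C * T * Real.log T ^ 2 := by
  obtain ⟨C1, T1, hC1, hT1, hm⟩ := main_int
  obtain ⟨C2, T2, hC2, hT2, hb⟩ := bd_three
  obtain ⟨C3, T3, hC3, hT3, hc⟩ := cm_sum
  obtain ⟨B, hB, hFF⟩ := FF_up
  refine ⟨8 * C1 + 200 * C3 * (1000 * (B + 3)) + 200 * C3 * C2,
    max (max T1 T2) (max T3 (Real.exp 20)), by positivity,
    (hT1.trans (le_max_left _ _)).trans (le_max_left _ _), fun T ε l Z hT hε hl hZ => ?_⟩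
  have hTa : T1 ≤ T := ((le_max_left _ _).trans (le_max_left _ _)).trans hT
  have hTb : T2 ≤ T := ((le_max_right _ _).trans (le_max_left _ _)).trans hT
  have hTc : T3 ≤ T := ((le_max_left _ _).trans (le_max_right _ _)).trans hT
  have hTd : Real.exp 20 ≤ T := ((le_max_right _ _).trans (le_max_right _ _)).trans hT
  have he20 : (21:ℝ) ≤ Real.exp 20 := by
    have := Real.add_one_le_exp (20:ℝ)
    linarith
  have hT0 : 0 < T := by linarith
  have hL : 20 ≤ Real.log T := by rwa [Real.le_log_iff_exp_le hT0]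
  set L := Real.log T with hLd
  have hsg : sg0 T = 1 / 2 - 1 / L := rfl
  have hinv : 1 / L ≤ 1 / 20 := one_div_le_one_div_of_le (by norm_num) hL
  have hinv0 : 0 < 1 / L := by positivity
  have hσ : 2 / 5 ≤ sg0 T := by rw [hsg]; linarith
  have hσ3 : sg0 T < 3 := by rw [hsg]; linarith
  obtain ⟨hb1, hb2⟩ := hb T hTb
  have hF3 : ∀ t : ℝ, FF T (((3 : ℝ) : ℂ) + t * I) ≠ 0 := by
    intro t h0
    have h1 := hb1 t
    have h2 : Zf (((3 : ℝ) : ℂ) + t * I) * psi T (((3 : ℝ) : ℂ) + t * I) /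
      ((((3 : ℝ) : ℂ) + t * I) + 3) = 0 := h0
    rw [h2, norm_zero] at h1
    norm_num at h1
  set S := Finset.Icc 1 (N1 T) with hS
  have hε1 : |ε| ≤ 1 := by rcases hε with h | h <;> rw [h] <;> norm_num
  have hZ' : ∀ z ∈ Z, FF T z = 0 ∧ sg0 T < z.re ∧ z.re < 3 ∧ |z.im| < 2 * T := by
    intro z hz
    obtain ⟨h1, h2, h3⟩ := hZ z hz
    refine ⟨?_, by rw [hsg]; linarith, by linarith [h1.2.2], by linarith⟩
    have h4 : Zf z = 0 := (Zf_zero_iff (by linarith)).2 h1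
    unfold FF
    rw [h4, zero_mul, zero_div]
  have hgreen := zd_green (F := FF T) (σ := sg0 T) (T := 2 * T) hσ hσ3 (by linarith)
    (fun s hs => FF_diff T hs) hF3 S (Cm T ε) (num ε l) Z hZ'
  -- the main integral
  have hM1 := hm T l ε 0 ε l hTa hl hε1 (by rw [abs_zero]; positivity) hε hl
  have hκ : |2 * ε / L| ≤ 2 / L := by
    rw [abs_div, abs_mul, abs_of_pos (by linarith : 0 < L)]
    gcongr
    rw [abs_of_pos (by norm_num : (0:ℝ) < 2)]
    linarith
  have hM2 := hm T l ε (2 * ε / L) (-ε) (-l) hTa hl hε1 hκ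
    (by rcases hε with h | h <;> rw [h] <;> norm_num) (by rwa [abs_neg])
  have hI1 : ∫ q in rct (sg0 T) 3 (2 * T), Real.posLog ‖FF T (pnt q)‖ *
      (‖Da S (Cm T ε) (num ε l) (q.1 - sg0 T) q.2‖ ^ 2 +
        ‖Db S (Cm T ε) (num ε l) (q.1 - sg0 T) q.2‖ ^ 2) ≤ 2 * (C1 * T * L ^ 2) := by
    have e : ∀ q : ℝ × ℝ, Real.posLog ‖FF T (pnt q)‖ *
      (‖Da S (Cm T ε) (num ε l) (q.1 - sg0 T) q.2‖ ^ 2 +
        ‖Db S (Cm T ε) (num ε l) (q.1 - sg0 T) q.2‖ ^ 2) =
        Real.posLog ‖Zf (pnt q) * psi T (pnt q) / (pnt q + 3)‖ *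
          ‖cexp (l * (pnt q - sg0 T)) * ER (N1 T) ε (gf T l ε 0) (pnt q)‖ ^ 2 +
        Real.posLog ‖Zf (pnt q) * psi T (pnt q) / (pnt q + 3)‖ *
          ‖cexp (((-l : ℝ) : ℂ) * (pnt q - sg0 T)) *
            ER (N1 T) (-ε) (gf T l ε (2 * ε / L)) (pnt q)‖ ^ 2 := by
      intro q
      have hq : ((sg0 T + (q.1 - sg0 T), q.2) : ℝ × ℝ) = q := by
        ext
        · simp
        · rfl
      have h1 := da_eq T ε l (q.1 - sg0 T) q.2
      have h2 := db_eq (T := T) (by linarith) ε l (q.1 - sg0 T) q.2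
      rw [hq] at h1 h2
      rw [hS, h1, h2, mul_add]
      rfl
    simp_rw [e]
    rw [integral_add hM1.1 hM2.1]
    linarith [hM1.2, hM2.2]
  -- the error integral
  have hI2 : ∫ q in rct (sg0 T) 3 (2 * T), |Real.log ‖FF T (pnt q)‖| ≤
      1000 * (2 * T) * (B * L + 3) := by
    apply log_int hσ hσ3 (by linarith) (fun s hs => FF_diff T hs) (by positivity) (by norm_num)
    · intro s h0 h6 hi
      exact hFF T (by linarith) s h0 h6 hi
    · intro t _
      have h1 := hb1 t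
      have h2 : Real.exp (-3) ≤ 1 / 10 := by
        rw [Real.exp_neg, ← one_div]
        apply one_div_le_one_div_of_le (by norm_num)
        have h3 := Real.exp_one_gt_d9
        have h4 : Real.exp 3 = Real.exp 1 ^ 3 := by rw [← Real.exp_nat_mul]; norm_num
        rw [h4]
        have h5 : (2.7:ℝ) ^ 3 ≤ Real.exp 1 ^ 3 := pow_le_pow_left₀ (by norm_num) (by linarith) 3
        norm_num at h5 ⊢
        linarith
      exact h2.trans h1
  set E := (∑ m ∈ S, |Cm T ε m| * (1 + |num ε l m|) * Real.exp (3 * |num ε l m|)) ^ 2 with hE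
  have hE0 : 0 ≤ E := by positivity
  have hE1 : E ≤ C3 * Real.exp (L / 500) := hc T ε l hTc hε hl
  have hI3 : ∫ t in (-(2 * T))..(2 * T), (|Real.log ‖FF T (((3 : ℝ) : ℂ) + t * I)‖| +
      ‖deriv (FF T) (((3 : ℝ) : ℂ) + t * I) / FF T (((3 : ℝ) : ℂ) + t * I)‖) ≤
      C2 * T * Real.exp (-(L / 170)) := hb2
  -- assembly of the right side
  have hexp : Real.exp (L / 500) ≤ T := by
    calc Real.exp (L / 500) ≤ Real.exp L := Real.exp_le_exp.2 (by linarith)
      _ = T := Real.exp_log hT0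
  have hexp2 : Real.exp (L / 500) * Real.exp (-(L / 170)) ≤ 1 := by
    rw [← Real.exp_add, ← Real.exp_zero]
    exact Real.exp_le_exp.2 (by linarith)
  have hI2nn : 0 ≤ ∫ q in rct (sg0 T) 3 (2 * T), |Real.log ‖FF T (pnt q)‖| :=
    integral_nonneg fun q => abs_nonneg _
  have hR2 : 200 * E / (2 * T) * (∫ q in rct (sg0 T) 3 (2 * T), |Real.log ‖FF T (pnt q)‖|) ≤
      200 * C3 * (1000 * (B + 3)) * T * L ^ 2 := by
    calc 200 * E / (2 * T) * (∫ q in rct (sg0 T) 3 (2 * T), |Real.log ‖FF T (pnt q)‖|)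
        ≤ 200 * (C3 * Real.exp (L / 500)) / (2 * T) * (1000 * (2 * T) * (B * L + 3)) := by
          gcongr
      _ = 200 * C3 * Real.exp (L / 500) * (1000 * (B * L + 3)) := by field_simp
      _ ≤ 200 * C3 * T * (1000 * ((B + 3) * L ^ 2)) := by
          have hLsq : L ≤ L ^ 2 := by nlinarith
          have h1 : B * L + 3 ≤ (B + 3) * L ^ 2 := by
            have e1 : B * L ≤ B * L ^ 2 := mul_le_mul_of_nonneg_left hLsq (by linarith)
            have e2 : (3 : ℝ) ≤ 3 * L ^ 2 := by nlinarith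
            linarith [e1, e2, add_mul B 3 (L ^ 2)]
          gcongr
      _ = _ := by ring
  have hR3 : 200 * E * (∫ t in (-(2 * T))..(2 * T), (|Real.log ‖FF T (((3 : ℝ) : ℂ) + t * I)‖| +
      ‖deriv (FF T) (((3 : ℝ) : ℂ) + t * I) / FF T (((3 : ℝ) : ℂ) + t * I)‖)) ≤
      200 * C3 * C2 * T * L ^ 2 := by
    calc 200 * E * (∫ t in (-(2 * T))..(2 * T), (|Real.log ‖FF T (((3 : ℝ) : ℂ) + t * I)‖| +
        ‖deriv (FF T) (((3 : ℝ) : ℂ) + t * I) / FF T (((3 : ℝ) : ℂ) + t * I)‖))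
        ≤ 200 * E * (C2 * T * Real.exp (-(L / 170))) := by gcongr
      _ ≤ 200 * (C3 * Real.exp (L / 500)) * (C2 * T * Real.exp (-(L / 170))) := by gcongr
      _ = 200 * C3 * C2 * T * (Real.exp (L / 500) * Real.exp (-(L / 170))) := by ring
      _ ≤ 200 * C3 * C2 * T * 1 := by gcongr
      _ ≤ 200 * C3 * C2 * T * L ^ 2 := by
          gcongr
          nlinarith
  -- the left side
  have hwt : ∀ z ∈ Z, 27 / 64 ≤ wt (2 * T) z.im := by
    intro z hz
    obtain ⟨_, _, h3⟩ := hZ z hz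
    have h4 : (z.im / (2 * T)) ^ 2 ≤ 1 / 4 := by
      rw [div_pow, div_le_iff₀ (by positivity)]
      have := sq_lt_sq' (abs_lt.1 h3).1 (abs_lt.1 h3).2
      nlinarith
    unfold wt
    calc (27:ℝ) / 64 = (3 / 4) ^ 3 := by norm_num
      _ ≤ _ := by
        apply pow_le_pow_left₀ (by norm_num)
        linarith
  have hleft : ∑ z ∈ Z, ‖Dh S (Cm T ε) (num ε l) (z.re - sg0 T) z.im‖ ^ 2 ≤
      2 * Real.pi * ∑ z ∈ Z, ‖Dh S (Cm T ε) (num ε l) (z.re - sg0 T) z.im‖ ^ 2 *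
        wt (2 * T) z.im := by
    rw [Finset.mul_sum]
    apply Finset.sum_le_sum
    intro z hz
    have h1 := hwt z hz
    have h2 : (0:ℝ) ≤ ‖Dh S (Cm T ε) (num ε l) (z.re - sg0 T) z.im‖ ^ 2 := by positivity
    have h3 := Real.pi_gt_three
    have h4 : 1 ≤ 2 * Real.pi * wt (2 * T) z.im := by nlinarith
    calc ‖Dh S (Cm T ε) (num ε l) (z.re - sg0 T) z.im‖ ^ 2
        = ‖Dh S (Cm T ε) (num ε l) (z.re - sg0 T) z.im‖ ^ 2 * 1 := (mul_one _).symm
      _ ≤ ‖Dh S (Cm T ε) (num ε l) (z.re - sg0 T) z.im‖ ^ 2 * (2 * Real.pi * wt (2 * T) z.im) := by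
          gcongr
      _ = _ := by ring
  calc ∑ z ∈ Z, ‖Dh S (Cm T ε) (num ε l) (z.re - sg0 T) z.im‖ ^ 2
      ≤ _ := hleft.trans hgreen
    _ ≤ 4 * (2 * (C1 * T * L ^ 2)) + 200 * C3 * (1000 * (B + 3)) * T * L ^ 2 +
        200 * C3 * C2 * T * L ^ 2 := by
        refine add_le_add (add_le_add ?_ hR2) hR3
        exact mul_le_mul_of_nonneg_left hI1 (by norm_num)
    _ = _ := by ring

theorem lsz_pm : ∃ C T0 : ℝ, 0 < C ∧ 3 ≤ T0 ∧ ∀ (T ε : ℝ) (Z : Finset ℂ), T0 ≤ T →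
    (ε = 1 ∨ ε = -1) → (∀ z ∈ Z, z ∈ Zs ∧ 1 / 2 ≤ z.re ∧ |z.im| < T) →
    ∑ z ∈ Z, ‖Qe T ε z‖ ^ 2 ≤ C * T * Real.log T ^ 2 := by
  obtain ⟨C, T0, hC, hT0, h⟩ := dh_sum
  refine ⟨10 ^ 8 * C, max T0 3, by positivity, le_max_right _ _, fun T ε Z hT hε hZ => ?_⟩
  have hTa : T0 ≤ T := (le_max_left _ _).trans hT
  have hT3 : 3 ≤ T := (le_max_right _ _).trans hT
  have hL : 0 < Real.log T := Real.log_pos (by linarith)
  have hel : 0 < el T := by unfold el; positivity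
  have h1 := h T ε (el T) Z hTa hε (by rw [abs_of_pos hel]) hZ
  have h2 := h T ε 0 Z hTa hε (by rw [abs_zero]; exact hel.le) hZ
  have h3 : ∑ z ∈ Z, ‖Qe T ε z‖ ^ 2 ≤ ∑ z ∈ Z, 10 ^ 8 / 2 *
      (‖Dh (Finset.Icc 1 (N1 T)) (Cm T ε) (num ε (el T)) (z.re - sg0 T) z.im‖ ^ 2 +
        ‖Dh (Finset.Icc 1 (N1 T)) (Cm T ε) (num ε 0) (z.re - sg0 T) z.im‖ ^ 2) := by
    apply Finset.sum_le_sum
    intro z hz
    obtain ⟨_, hre, _⟩ := hZ z hz
    have hu : 1 / Real.log T ≤ z.re - sg0 T := by unfold sg0; linarith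
    have hu0 : 0 < z.re - sg0 T := lt_of_lt_of_le (by positivity) hu
    have hq := qe_le T ε (el T) (z.re - sg0 T) z.im hel hu0
    have hz' : pnt (sg0 T + (z.re - sg0 T), z.im) = z := by
      unfold pnt
      apply Complex.ext <;> simp
    rw [hz'] at hq
    refine hq.trans ?_
    rw [div_le_iff₀ (by have := Real.sinh_pos_iff.2 (mul_pos hel hu0); positivity)]
    have h5 : 1 / 10000 ≤ el T * (z.re - sg0 T) := by
      calc (1:ℝ) / 10000 = el T * (1 / Real.log T) := by unfold el; field_simp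
        _ ≤ _ := by gcongr
    have h6 : 1 / 10000 ≤ Real.sinh (el T * (z.re - sg0 T)) :=
      h5.trans (Real.self_le_sinh_iff.2 (by positivity))
    have h7 : 2 * (1 / 10 ^ 8) ≤ 2 * Real.sinh (el T * (z.re - sg0 T)) ^ 2 := by
      have := pow_le_pow_left₀ (by norm_num) h6 2
      norm_num at this ⊢
      linarith
    set X := ‖Dh (Finset.Icc 1 (N1 T)) (Cm T ε) (num ε (el T)) (z.re - sg0 T) z.im‖ ^ 2 +
        ‖Dh (Finset.Icc 1 (N1 T)) (Cm T ε) (num ε 0) (z.re - sg0 T) z.im‖ ^ 2 with hX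
    have hX0 : 0 ≤ X := by positivity
    calc X = 10 ^ 8 / 2 * X * (2 * (1 / 10 ^ 8)) := by ring
      _ ≤ 10 ^ 8 / 2 * X * (2 * Real.sinh (el T * (z.re - sg0 T)) ^ 2) := by gcongr
  refine h3.trans ?_
  rw [← Finset.mul_sum, Finset.sum_add_distrib]
  calc (10:ℝ) ^ 8 / 2 * (_ + _) ≤ 10 ^ 8 / 2 * (C * T * Real.log T ^ 2 + C * T * Real.log T ^ 2) := by
        gcongr
    _ = _ := by ring

private lemma qe_reflect (T : ℝ) (z : ℂ) : Qe T 1 z = Qe T (-1) (1 - z) := by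
  unfold Qe ER
  apply Finset.sum_congr rfl
  intro m _
  congr 2
  push_cast
  ring

theorem lsz : ∃ C T0 : ℝ, 0 < C ∧ 3 ≤ T0 ∧ ∀ (T : ℝ) (Z : Finset ℂ), T0 ≤ T →
    (∀ z ∈ Z, z ∈ Zs ∧ |z.im| < T) →
    ∑ z ∈ Z, ‖Qe T 1 z‖ ^ 2 ≤ C * T * Real.log T ^ 2 := by
  classical
  obtain ⟨C, T0, hC, hT0, h⟩ := lsz_pm
  refine ⟨2 * C, T0, by positivity, hT0, fun T Z hT hZ => ?_⟩
  have h1 := h T 1 (Z.filter (fun z => 1 / 2 ≤ z.re)) hT (Or.inl rfl) (by
    intro z hz
    rw [Finset.mem_filter] at hz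
    obtain ⟨a, b⟩ := hZ z hz.1
    exact ⟨a, hz.2, b⟩)
  have h2 := h T (-1) ((Z.filter (fun z => ¬ 1 / 2 ≤ z.re)).image (fun z => 1 - z)) hT
    (Or.inr rfl) (by
    intro z hz
    rw [Finset.mem_image] at hz
    obtain ⟨w, hw, rfl⟩ := hz
    rw [Finset.mem_filter] at hw
    obtain ⟨a, b⟩ := hZ w hw.1
    refine ⟨Zs_one_sub a, ?_, ?_⟩
    · have := hw.2
      simp only [Complex.sub_re, Complex.one_re]
      linarith
    · simpa using b)
  rw [Finset.sum_image (by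
    intro a _ b _ hab
    have : (1:ℂ) - a = 1 - b := hab
    linear_combination -this)] at h2
  rw [← Finset.sum_filter_add_sum_filter_not Z (fun z => 1 / 2 ≤ z.re)]
  have h3 : ∑ z ∈ Z.filter (fun z => ¬ 1 / 2 ≤ z.re), ‖Qe T 1 z‖ ^ 2 =
      ∑ z ∈ Z.filter (fun z => ¬ 1 / 2 ≤ z.re), ‖Qe T (-1) (1 - z)‖ ^ 2 := by
    apply Finset.sum_congr rfl
    intro z _
    rw [qe_reflect]
  rw [h3]
  linarith

end Pool.Agent.ZR
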