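import Pool.Agent.ZR.PE

/-!
# The main double integral
`F(s) = Zf(s) psi(s)/(s+3) = eta ζ psi`, `log⁺|F| ≤ |F - 1| ≤ |eta (ζ psi - 1)| + 4/|s+3|`; Cauchy-Schwarz in `t` for
fixed `u`: `phi_all` and `er_ms`; `∫_0^3 e^(-u log T (1/400 - 1/2000)) du ≤ C/log T`; the part `4/|s+3|` gives
`≤ C T^(1/100)`. `P = |e^(l(s-sg0)) ER(ε,g)(s)|²`.
-/

set_option autoImplicit false

open Complex MeasureTheory Set Finset

namespace Pool.Agent.ZR

namespace PF1

lemma pnt_cont : Continuous pnt := by
  unfold pnt
  fun_prop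

lemma ncpow_cont {h : ℕ} (hh : 1 ≤ h) {f : ℂ → ℂ} (hf : Continuous f) :
    Continuous fun s => (h : ℂ) ^ (f s) := by
  refine hf.const_cpow (Or.inl ?_)
  exact_mod_cast (Nat.one_le_iff_ne_zero.1 hh)

lemma Py_cont (y : ℝ) : Continuous (Py y) := by
  unfold Py
  refine continuous_finset_sum _ fun h hh => ?_
  exact continuous_const.mul (ncpow_cont (Finset.mem_Icc.1 hh).1 continuous_neg)

lemma psi_cont (T : ℝ) : Continuous (psi T) := by
  unfold psi
  exact continuous_const.mul ((Py_cont _).sub (Py_cont _))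

lemma er_cont (N : ℕ) (ε : ℝ) (g : ℝ → ℝ) : Continuous (ER N ε g) := by
  unfold ER
  refine continuous_finset_sum _ fun h hh => ?_
  exact continuous_const.mul (ncpow_cont (Finset.mem_Icc.1 hh).1 (by fun_prop))

/-- pointwise bound of the test polynomial -/
lemma er_sup {T a0 a1 κ ε : ℝ} (hT : 3 ≤ T) (h0 : |a0| ≤ el T) (h1 : |a1| ≤ 1)
    (hκ : |κ| ≤ 2 / Real.log T) (hε : ε = 1 ∨ ε = -1) {s : ℂ} (hs0 : 0 ≤ s.re) (hs3 : s.re ≤ 3) :
    ‖ER (N1 T) ε (gf T a0 a1 κ) s‖ ≤ 6 * el T * Real.exp (3 * el T) := by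
  have hL : 0 < Real.log T := Real.log_pos (by linarith)
  have hel : 0 < el T := by unfold el; positivity
  have hN : (N1 T : ℝ) ≤ Real.exp (el T) := Nat.floor_le (Real.exp_pos _).le
  unfold ER
  calc _ ≤ ∑ m ∈ Finset.Icc 1 (N1 T), ‖(mug (gf T a0 a1 κ) m : ℂ) *
        (m : ℂ) ^ (-(1 / 2 : ℂ) + ε * (s - 1 / 2))‖ := norm_sum_le _ _
    _ ≤ ∑ m ∈ Finset.Icc 1 (N1 T), 6 * el T * Real.exp (2 * el T) := by
        refine Finset.sum_le_sum fun m hm => ?_
        have hm1 : 1 ≤ m := (Finset.mem_Icc.1 hm).1
        have hmR : (1 : ℝ) ≤ (m : ℝ) := by exact_mod_cast hm1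
        have hmN : (m : ℝ) ≤ Real.exp (el T) :=
          le_trans (by exact_mod_cast (Finset.mem_Icc.1 hm).2) hN
        have hlm0 : 0 ≤ Real.log m := Real.log_nonneg hmR
        have hlm : Real.log m ≤ el T := by
          have := Real.log_le_log (by linarith) hmN
          rwa [Real.log_exp] at this
        rw [norm_mul]
        refine mul_le_mul ?_ ?_ (norm_nonneg _) (by positivity)
        · rw [Complex.norm_real, Real.norm_eq_abs]
          unfold mug
          rw [abs_mul]
          have hmu : |((ArithmeticFunction.moebius m : ℤ) : ℝ)| ≤ 1 := by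
            exact_mod_cast ArithmeticFunction.abs_moebius_le_one
          have hg : |gf T a0 a1 κ (Real.log m)| ≤ 6 * el T := by
            unfold gf
            rw [abs_mul, abs_mul]
            have e1 : |1 - Real.log m / el T| ≤ 1 := by
              have : Real.log m / el T ≤ 1 := (div_le_one hel).2 hlm
              have h2 : 0 ≤ Real.log m / el T := by positivity
              rw [abs_le]; constructor <;> linarith
            have e2 : |a0 + a1 * Real.log m| ≤ 2 * el T := by
              calc _ ≤ |a0| + |a1 * Real.log m| := abs_add_le _ _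
                _ ≤ el T + 1 * el T := by
                    rw [abs_mul]
                    refine add_le_add h0 (mul_le_mul h1 ?_ (abs_nonneg _) zero_le_one)
                    rwa [abs_of_nonneg hlm0]
                _ = 2 * el T := by ring
            have e3 : |Real.exp (-(κ * Real.log m))| ≤ 3 := by
              rw [abs_of_pos (Real.exp_pos _)]
              have : -(κ * Real.log m) ≤ 1 := by
                have h5 : |κ * Real.log m| ≤ 2 / Real.log T * el T := by
                  rw [abs_mul, abs_of_nonneg hlm0]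
                  exact mul_le_mul hκ hlm hlm0 (by positivity)
                have h6 : 2 / Real.log T * el T = 2 / 10000 := by
                  unfold el; field_simp
                have := neg_abs_le (κ * Real.log m)
                linarith
              calc Real.exp (-(κ * Real.log m)) ≤ Real.exp 1 := Real.exp_le_exp.2 this
                _ ≤ 3 := by
                  have := Real.exp_one_lt_d9
                  linarith
            calc _ ≤ 1 * (2 * el T) * 3 := by
                  refine mul_le_mul (mul_le_mul e1 e2 (abs_nonneg _) zero_le_one) e3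
                    (abs_nonneg _) (by positivity)
              _ = 6 * el T := by ring
          calc _ ≤ 1 * (6 * el T) := mul_le_mul hmu hg (abs_nonneg _) zero_le_one
            _ = _ := by ring
        · have hre : (-(1 / 2 : ℂ) + ε * (s - 1 / 2)).re = -(1 / 2) + ε * (s.re - 1 / 2) := by
            simp
          rw [Complex.norm_natCast_cpow_of_pos (by omega), hre]
          have hexp : -(1 / 2) + ε * (s.re - 1 / 2) ≤ 2 := by
            rcases hε with h | h <;> rw [h] <;> linarith
          calc (m : ℝ) ^ (-(1 / 2) + ε * (s.re - 1 / 2)) ≤ (m : ℝ) ^ (2 : ℝ) :=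
                Real.rpow_le_rpow_of_exponent_le hmR hexp
            _ ≤ (Real.exp (el T)) ^ (2 : ℝ) := Real.rpow_le_rpow (by positivity) hmN (by norm_num)
            _ = Real.exp (2 * el T) := by
                rw [← Real.exp_mul]; ring_nf
    _ = (N1 T : ℝ) * (6 * el T * Real.exp (2 * el T)) := by
        rw [Finset.sum_const, Nat.card_Icc]; simp
    _ ≤ Real.exp (el T) * (6 * el T * Real.exp (2 * el T)) :=
        mul_le_mul_of_nonneg_right hN (by positivity)
    _ = 6 * el T * Real.exp (3 * el T) := by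
        rw [show 3 * el T = el T + 2 * el T by ring, Real.exp_add]; ring

/-- the square of the test function -/
lemma e_sup {T a0 a1 κ ε l : ℝ} (hT : 3 ≤ T) (h0 : |a0| ≤ el T) (h1 : |a1| ≤ 1)
    (hκ : |κ| ≤ 2 / Real.log T) (hε : ε = 1 ∨ ε = -1) (hl : |l| ≤ el T) {s : ℂ}
    (hs0 : sg0 T ≤ s.re) (hsg : 0 ≤ sg0 T) (hs3 : s.re ≤ 3) :
    ‖cexp (l * (s - sg0 T)) * ER (N1 T) ε (gf T a0 a1 κ) s‖ ^ 2 ≤
      36 * Real.exp (Real.log T / 2) := by
  have hL : 0 < Real.log T := Real.log_pos (by linarith)
  have hel : 0 < el T := by unfold el; positivity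
  have e1 := er_sup hT h0 h1 hκ hε (le_trans hsg hs0) hs3
  have e2 : ‖cexp (l * (s - sg0 T))‖ ≤ Real.exp (3 * el T) := by
    rw [Complex.norm_exp]
    refine Real.exp_le_exp.2 ?_
    have : ((l : ℂ) * (s - sg0 T)).re = l * (s.re - sg0 T) := by simp
    rw [this]
    calc l * (s.re - sg0 T) ≤ |l| * (s.re - sg0 T) :=
          mul_le_mul_of_nonneg_right (le_abs_self l) (by linarith)
      _ ≤ el T * 3 := mul_le_mul hl (by linarith) (by linarith) hel.le
      _ = 3 * el T := by ring
  have e3 : el T ≤ Real.exp (el T) := by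
    have := Real.add_one_le_exp (el T)
    linarith
  have e4 : ‖cexp (l * (s - sg0 T)) * ER (N1 T) ε (gf T a0 a1 κ) s‖ ≤ 6 * Real.exp (7 * el T) := by
    rw [norm_mul]
    calc _ ≤ Real.exp (3 * el T) * (6 * el T * Real.exp (3 * el T)) :=
          mul_le_mul e2 e1 (norm_nonneg _) (Real.exp_pos _).le
      _ ≤ Real.exp (3 * el T) * (6 * Real.exp (el T) * Real.exp (3 * el T)) := by gcongr
      _ = 6 * Real.exp (7 * el T) := by
          rw [show 7 * el T = 3 * el T + el T + 3 * el T by ring, Real.exp_add, Real.exp_add]; ring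
  calc _ ≤ (6 * Real.exp (7 * el T)) ^ 2 := by gcongr
    _ = 36 * Real.exp (14 * el T) := by
        rw [mul_pow, ← Real.exp_nat_mul]; norm_num; ring_nf
    _ ≤ _ := by
        have : 14 * el T ≤ Real.log T / 2 := by unfold el; linarith
        have := Real.exp_le_exp.2 this
        linarith

lemma posLog_le {F : ℂ} : Real.posLog ‖F‖ ≤ ‖F - 1‖ := by
  rw [Real.posLog_apply]
  refine max_le (norm_nonneg _) ?_
  rcases eq_or_ne F 0 with h | h
  · simp [h]
  · have h1 : 0 < ‖F‖ := norm_pos_iff.2 h
    have h2 := Real.log_le_sub_one_of_pos h1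
    have h3 : ‖F‖ ≤ ‖F - 1‖ + ‖(1 : ℂ)‖ := by
      calc ‖F‖ = ‖(F - 1) + 1‖ := by ring_nf
        _ ≤ _ := norm_add_le _ _
    rw [norm_one] at h3
    linarith

/-- `4/|s+3|` -/
lemma quarter {R w t : ℝ} (hR : 0 < R) (hw : 0 < w) (hwt : 1 + t ^ 2 ≤ w ^ 2) :
    4 / w ≤ 2 * (1 / R + R / (1 + t ^ 2)) := by
  have h1 : 1 / w ^ 2 ≤ 1 / (1 + t ^ 2) := one_div_le_one_div_of_le (by positivity) hwt
  have h2 : 0 ≤ 2 / R * (1 - R / w) ^ 2 := by positivity
  have h3 : 2 / R * (1 - R / w) ^ 2 = 2 * (1 / R + R * (1 / w ^ 2)) - 4 / w := by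
    field_simp
    ring
  have h4 : R * (1 / w ^ 2) ≤ R * (1 / (1 + t ^ 2)) := mul_le_mul_of_nonneg_left h1 hR.le
  have h5 : R / (1 + t ^ 2) = R * (1 / (1 + t ^ 2)) := by ring
  rw [h5]
  linarith

end PF1

open PF1

theorem main_int : ∃ C T0 : ℝ, 0 < C ∧ 3 ≤ T0 ∧ ∀ T a0 a1 κ ε l : ℝ, T0 ≤ T → |a0| ≤ el T →
    |a1| ≤ 1 → |κ| ≤ 2 / Real.log T → (ε = 1 ∨ ε = -1) → |l| ≤ el T →
    IntegrableOn (fun q : ℝ × ℝ => Real.posLog ‖Zf (pnt q) * psi T (pnt q) / (pnt q + 3)‖ *
      ‖cexp (l * (pnt q - sg0 T)) * ER (N1 T) ε (gf T a0 a1 κ) (pnt q)‖ ^ 2) (rct (sg0 T) 3 (2 * T)) ∧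
    ∫ q in rct (sg0 T) 3 (2 * T), Real.posLog ‖Zf (pnt q) * psi T (pnt q) / (pnt q + 3)‖ *
      ‖cexp (l * (pnt q - sg0 T)) * ER (N1 T) ε (gf T a0 a1 κ) (pnt q)‖ ^ 2 ≤
      C * T * Real.log T ^ 2 := by
  obtain ⟨C1, T1, hC1, hT1, h1⟩ := phi_all
  obtain ⟨C2, T2, hC2, hT2, h2⟩ := er_ms
  refine ⟨(C1 + C2) + 1728, max T1 (max T2 (Real.exp 2)), by positivity,
    le_trans hT1 (le_max_left _ _), ?_⟩
  intro T a0 a1 κ ε l hT h0 ha1 hκ hε hl
  have hTT1 : T1 ≤ T := le_trans (le_max_left _ _) hT
  have hTT2 : T2 ≤ T := le_trans (le_trans (le_max_left _ _) (le_max_right _ _)) hT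
  have hTe : Real.exp 2 ≤ T := le_trans (le_trans (le_max_right _ _) (le_max_right _ _)) hT
  have hT3 : 3 ≤ T := le_trans hT1 hTT1
  have hT0 : 0 < T := by linarith
  have hL2 : 2 ≤ Real.log T := by
    have := Real.log_le_log (Real.exp_pos 2) hTe
    rwa [Real.log_exp] at this
  have hL : 0 < Real.log T := by linarith
  have hel : 0 < el T := by unfold el; positivity
  have hsg : 0 ≤ sg0 T := by
    unfold sg0
    have : 1 / Real.log T ≤ 1 / 2 := one_div_le_one_div_of_le (by norm_num) hL2
    linarith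
  have hsg2 : sg0 T ≤ 1 / 2 := by
    unfold sg0
    have : 0 ≤ 1 / Real.log T := by positivity
    linarith
  -- the functions
  set F : ℂ → ℂ := fun s => Zf s * psi T s / (s + 3) with hF
  set E : ℂ → ℂ := fun s => cexp (l * (s - sg0 T)) * ER (N1 T) ε (gf T a0 a1 κ) s with hE
  set g : ℝ × ℝ → ℝ := fun q => Real.posLog ‖F (pnt q)‖ * ‖E (pnt q)‖ ^ 2 with hg
  have hEc : Continuous E := by
    refine Continuous.mul ?_ (er_cont _ _ _)
    fun_prop
  have hFc : ContinuousOn F {s : ℂ | -3 < s.re} := by
    refine ContinuousOn.div ?_ ?_ ?_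
    · exact (Zf_diff.continuous.mul (psi_cont T)).continuousOn
    · fun_prop
    · intro s hs h
      have : s.re + 3 = 0 := by
        have := congrArg Complex.re h
        simpa using this
      simp only [mem_setOf_eq] at hs
      linarith
  have hgc : ContinuousOn g (rct (sg0 T) 3 (2 * T)) := by
    refine ContinuousOn.mul ?_ ?_
    · refine Real.continuous_posLog.comp_continuousOn ?_
      refine continuous_norm.comp_continuousOn ?_
      refine hFc.comp pnt_cont.continuousOn ?_
      intro q hq
      have : sg0 T ≤ q.1 := hq.1.1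
      simp only [mem_setOf_eq, pnt, add_re, ofReal_re, mul_re, I_re, mul_zero, ofReal_im, I_im,
        mul_one, sub_self, add_zero]
      linarith
    · exact ((hEc.comp pnt_cont).norm.pow 2).continuousOn
  have hcomp : IsCompact (rct (sg0 T) 3 (2 * T)) := isCompact_Icc.prod isCompact_Icc
  have hint : IntegrableOn g (rct (sg0 T) 3 (2 * T)) := hgc.integrableOn_compact hcomp
  refine ⟨hint, ?_⟩
  -- Fubini
  have hint' : IntegrableOn g (Icc (sg0 T) 3 ×ˢ Icc (-(2 * T)) (2 * T))
      ((volume : Measure ℝ).prod volume) := hint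
  have hfub : ∫ q in rct (sg0 T) 3 (2 * T), g q =
      ∫ x in Icc (sg0 T) 3, ∫ t in Icc (-(2 * T)) (2 * T), g (x, t) :=
    setIntegral_prod g hint'
  have hGint : IntegrableOn (fun x => ∫ t in Icc (-(2 * T)) (2 * T), g (x, t)) (Icc (sg0 T) 3) := by
    have h3 : Integrable g ((volume.restrict (Icc (sg0 T) 3)).prod
        (volume.restrict (Icc (-(2 * T)) (2 * T)))) := by
      rw [Measure.prod_restrict]; exact hint'
    exact h3.integral_prod_left
  set R : ℝ := Real.exp (Real.log T / 2) with hR
  have hRpos : 0 < R := Real.exp_pos _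
  have hRR : R * R = T := by
    rw [hR, ← Real.exp_add, add_halves, Real.exp_log hT0]
  set Bd : ℝ → ℝ := fun x => 1 / 2 * (C1 + C2) * T * el T ^ 3 *
    Real.exp (-((x - sg0 T) * (Real.log T / 500))) + 576 * T with hBd
  have hBdc : Continuous Bd := by
    rw [hBd]; fun_prop
  -- inner bound
  have hinner : ∀ x ∈ Icc (sg0 T) 3, x ≠ 1 → ∫ t in Icc (-(2 * T)) (2 * T), g (x, t) ≤ Bd x := by
    intro x hx hx1
    obtain ⟨u, hu⟩ : ∃ u, u = x - sg0 T := ⟨_, rfl⟩
    have hxu : sg0 T + u = x := by rw [hu]; ring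
    have hu0 : 0 ≤ u := by rw [hu]; linarith [hx.1]
    have hu3 : u ≤ 3 - sg0 T := by rw [hu]; linarith [hx.2]
    have hu3' : u ≤ 3 := by linarith
    have hu1 : u ≠ 1 - sg0 T := by
      intro h; apply hx1; rw [← hxu, h]; ring
    have hphi := h1 T a0 a1 κ ε l u hTT1 h0 ha1 hκ hε hl hu0 hu3 hu1
    have her := h2 T a0 a1 κ ε l u hTT2 h0 ha1 hκ hε hl hu0 hu3'
    rw [hxu] at hphi her
    set Φ : ℝ → ℂ := fun t => eta ((x : ℂ) + t * I) *
      (riemannZeta ((x : ℂ) + t * I) * psi T ((x : ℂ) + t * I) - 1) *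
      cexp (l * ((x : ℂ) + t * I - sg0 T)) *
      ER (N1 T) ε (gf T a0 a1 κ) ((x : ℂ) + t * I) with hΦ
    have hst : Continuous fun t : ℝ => (x : ℂ) + t * I := by fun_prop
    have hx0 : 0 ≤ x := le_trans hsg hx.1
    have hne1 : ∀ t : ℝ, (x : ℂ) + t * I ≠ 1 := by
      intro t h
      apply hx1
      have := congrArg Complex.re h
      simpa using this
    have hne3 : ∀ t : ℝ, (x : ℂ) + t * I + 3 ≠ 0 := by
      intro t h
      have := congrArg Complex.re h
      simp at this
      linarith
    have hζc : Continuous fun t : ℝ => riemannZeta ((x : ℂ) + t * I) := by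
      rw [continuous_iff_continuousAt]
      intro t
      exact ContinuousAt.comp (f := fun t : ℝ => (x : ℂ) + t * I) (g := riemannZeta)
        (differentiableAt_riemannZeta (hne1 t)).continuousAt hst.continuousAt
    have hηc : Continuous fun t : ℝ => eta ((x : ℂ) + t * I) := by
      unfold eta
      refine Continuous.div (by fun_prop) (by fun_prop) ?_
      exact hne3
    have hΦc : Continuous Φ := by
      have k1 : Continuous fun t : ℝ => psi T ((x : ℂ) + t * I) := (psi_cont T).comp hst
      have k2 : Continuous fun t : ℝ => ER (N1 T) ε (gf T a0 a1 κ) ((x : ℂ) + t * I) :=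
        (er_cont _ _ _).comp hst
      exact ((hηc.mul ((hζc.mul k1).sub continuous_const)).mul (by fun_prop)).mul k2
    set w : ℝ := Real.exp (3 * u * Real.log T / 1000) with hw
    have hwpos : 0 < w := Real.exp_pos _
    set U : ℝ → ℝ := fun t => 1 / 2 * (w * ‖Φ t‖ ^ 2 + w⁻¹ * ‖E ((x : ℂ) + t * I)‖ ^ 2) +
      72 * R * (1 / R + R * (1 / (1 + t ^ 2))) with hU
    have hcontE : Continuous fun t : ℝ => ‖E ((x : ℂ) + t * I)‖ ^ 2 := ((hEc.comp hst).norm).pow 2
    have hcontΦ : Continuous fun t : ℝ => ‖Φ t‖ ^ 2 := hΦc.norm.pow 2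
    have hcont1 : Continuous fun t : ℝ => 1 / (1 + t ^ 2) := by
      refine continuous_const.div (by fun_prop) ?_
      intro t; positivity
    have hptw : ∀ t : ℝ, g (x, t) ≤ U t := by
      intro t
      have hs : pnt (x, t) = (x : ℂ) + t * I := rfl
      have hFs : F ((x : ℂ) + t * I) - 1 = eta ((x : ℂ) + t * I) *
          (riemannZeta ((x : ℂ) + t * I) * psi T ((x : ℂ) + t * I) - 1) -
          4 / ((x : ℂ) + t * I + 3) := by
        rw [hF]
        simp only
        rw [Zf_eq (hne1 t)]
        unfold eta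
        have := hne3 t
        field_simp
        ring
      have hn4 : ‖(4 : ℂ) / ((x : ℂ) + t * I + 3)‖ ≤ 2 * (1 / R + R * (1 / (1 + t ^ 2))) := by
        rw [norm_div]
        have hw0 : 0 < ‖(x : ℂ) + t * I + 3‖ := norm_pos_iff.2 (hne3 t)
        have hsq : 1 + t ^ 2 ≤ ‖(x : ℂ) + t * I + 3‖ ^ 2 := by
          rw [Complex.sq_norm, Complex.normSq_apply]
          simp
          nlinarith
        have := quarter hRpos hw0 hsq
        have h4 : ‖(4 : ℂ)‖ = 4 := by simp
        rw [h4]
        calc _ ≤ _ := this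
          _ = _ := by ring
      have hEs : ‖E ((x : ℂ) + t * I)‖ ^ 2 ≤ 36 * R := by
        refine e_sup hT3 h0 ha1 hκ hε hl ?_ hsg ?_
        · simpa using hx.1
        · simpa using hx.2
      have hΦe : ‖eta ((x : ℂ) + t * I) *
          (riemannZeta ((x : ℂ) + t * I) * psi T ((x : ℂ) + t * I) - 1)‖ *
          ‖E ((x : ℂ) + t * I)‖ = ‖Φ t‖ := by
        rw [← norm_mul]
        congr 1
        rw [hΦ, hE]
        ring
      have hpl : Real.posLog ‖F ((x : ℂ) + t * I)‖ ≤ ‖eta ((x : ℂ) + t * I) *
          (riemannZeta ((x : ℂ) + t * I) * psi T ((x : ℂ) + t * I) - 1)‖ +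
          2 * (1 / R + R * (1 / (1 + t ^ 2))) := by
        refine le_trans posLog_le ?_
        rw [hFs]
        refine le_trans (norm_sub_le _ _) ?_
        linarith
      have hq0 : 0 ≤ 2 * (1 / R + R * (1 / (1 + t ^ 2))) := by positivity
      have ham : ‖Φ t‖ * ‖E ((x : ℂ) + t * I)‖ ≤
          1 / 2 * (w * ‖Φ t‖ ^ 2 + w⁻¹ * ‖E ((x : ℂ) + t * I)‖ ^ 2) := by
        have h5 : 0 ≤ w⁻¹ * (w * ‖Φ t‖ - ‖E ((x : ℂ) + t * I)‖) ^ 2 := by positivity
        have h6 : w⁻¹ * (w * ‖Φ t‖ - ‖E ((x : ℂ) + t * I)‖) ^ 2 =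
            w * ‖Φ t‖ ^ 2 + w⁻¹ * ‖E ((x : ℂ) + t * I)‖ ^ 2 -
              2 * (‖Φ t‖ * ‖E ((x : ℂ) + t * I)‖) := by
          field_simp
          ring
        linarith
      rw [hg]
      simp only
      rw [hs]
      calc Real.posLog ‖F ((x : ℂ) + t * I)‖ * ‖E ((x : ℂ) + t * I)‖ ^ 2
          ≤ (‖eta ((x : ℂ) + t * I) *
            (riemannZeta ((x : ℂ) + t * I) * psi T ((x : ℂ) + t * I) - 1)‖ +
            2 * (1 / R + R * (1 / (1 + t ^ 2)))) * ‖E ((x : ℂ) + t * I)‖ ^ 2 :=
            mul_le_mul_of_nonneg_right hpl (by positivity)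
        _ = ‖Φ t‖ * ‖E ((x : ℂ) + t * I)‖ +
            2 * (1 / R + R * (1 / (1 + t ^ 2))) * ‖E ((x : ℂ) + t * I)‖ ^ 2 := by
            rw [← hΦe]; ring
        _ ≤ 1 / 2 * (w * ‖Φ t‖ ^ 2 + w⁻¹ * ‖E ((x : ℂ) + t * I)‖ ^ 2) +
            2 * (1 / R + R * (1 / (1 + t ^ 2))) * (36 * R) :=
            add_le_add ham (mul_le_mul_of_nonneg_left hEs hq0)
        _ = U t := by rw [hU]; ring
    have hUc : Continuous U := by
      rw [hU]
      exact (continuous_const.mul ((continuous_const.mul hcontΦ).add
        (continuous_const.mul hcontE))).add (continuous_const.mul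
          (continuous_const.add (continuous_const.mul hcont1)))
    have hgx : ContinuousOn (fun t => g (x, t)) (Icc (-(2 * T)) (2 * T)) := by
      refine hgc.comp (by fun_prop) ?_
      intro t ht
      exact ⟨hx, ht⟩
    have hTT : -(2 * T) ≤ 2 * T := by linarith
    calc ∫ t in Icc (-(2 * T)) (2 * T), g (x, t) ≤ ∫ t in Icc (-(2 * T)) (2 * T), U t := by
          refine setIntegral_mono_on (hgx.integrableOn_compact isCompact_Icc)
            (hUc.continuousOn.integrableOn_compact isCompact_Icc) measurableSet_Icc ?_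
          intro t _
          exact hptw t
      _ = ∫ t in (-(2 * T))..(2 * T), U t := by
          rw [intervalIntegral.integral_of_le hTT, integral_Icc_eq_integral_Ioc]
      _ = 1 / 2 * (w * (∫ t in (-(2 * T))..(2 * T), ‖Φ t‖ ^ 2) +
            w⁻¹ * ∫ t in (-(2 * T))..(2 * T), ‖E ((x : ℂ) + t * I)‖ ^ 2) +
            72 * R * ((4 * T) * (1 / R) + R * ∫ t in (-(2 * T))..(2 * T), 1 / (1 + t ^ 2)) := by
          rw [hU]
          rw [intervalIntegral.integral_add, intervalIntegral.integral_const_mul,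
            intervalIntegral.integral_const_mul, intervalIntegral.integral_add,
            intervalIntegral.integral_add, intervalIntegral.integral_const_mul,
            intervalIntegral.integral_const_mul, intervalIntegral.integral_const_mul,
            intervalIntegral.integral_const]
          · congr 2
            rw [smul_eq_mul]
            ring
          · exact continuous_const.intervalIntegrable _ _
          · exact (continuous_const.mul hcont1).intervalIntegrable _ _
          · exact (continuous_const.mul hcontΦ).intervalIntegrable _ _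
          · exact (continuous_const.mul hcontE).intervalIntegrable _ _
          · exact (continuous_const.mul ((continuous_const.mul hcontΦ).add
              (continuous_const.mul hcontE))).intervalIntegrable _ _
          · exact (continuous_const.mul
              (continuous_const.add (continuous_const.mul hcont1))).intervalIntegrable _ _
      _ ≤ 1 / 2 * (w * (C1 * T * el T ^ 3 * Real.exp (-(u * Real.log T / 200))) +
            w⁻¹ * (C2 * T * el T ^ 3 * Real.exp (u * Real.log T / 1000))) +
            72 * R * ((4 * T) * (1 / R) + R * 4) := by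
          have hpi : ∫ t in (-(2 * T))..(2 * T), 1 / (1 + t ^ 2) ≤ 4 := by
            rw [integral_one_div_one_add_sq]
            have a1 := Real.arctan_lt_pi_div_two (2 * T)
            have a2 := Real.neg_pi_div_two_lt_arctan (-(2 * T))
            have a3 := Real.pi_lt_four
            linarith
          gcongr
      _ = Bd x := by
          have w1 : w * Real.exp (-(u * Real.log T / 200)) =
              Real.exp (-((x - sg0 T) * (Real.log T / 500))) := by
            rw [hw, ← Real.exp_add, ← hu]; congr 1; ring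
          have w2 : w⁻¹ * Real.exp (u * Real.log T / 1000) =
              Real.exp (-((x - sg0 T) * (Real.log T / 500))) := by
            rw [hw, ← Real.exp_neg, ← Real.exp_add, ← hu]; congr 1; ring
          have e1 : w * (C1 * T * el T ^ 3 * Real.exp (-(u * Real.log T / 200))) =
              C1 * T * el T ^ 3 * Real.exp (-((x - sg0 T) * (Real.log T / 500))) := by
            rw [← w1]; ring
          have e2 : w⁻¹ * (C2 * T * el T ^ 3 * Real.exp (u * Real.log T / 1000)) =
              C2 * T * el T ^ 3 * Real.exp (-((x - sg0 T) * (Real.log T / 500))) := by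
            rw [← w2]; ring
          have e3 : 72 * R * ((4 * T) * (1 / R) + R * 4) = 288 * T + 288 * (R * R) := by
            field_simp
            ring
          rw [e1, e2, e3, hRR, hBd]
          ring
  -- outer bound
  have hE3 : ∫ x in Icc (sg0 T) 3, Real.exp (-((x - sg0 T) * (Real.log T / 500))) ≤
      500 / Real.log T := by
    rw [integral_Icc_eq_integral_Ioc, ← intervalIntegral.integral_of_le (by linarith)]
    have hd : ∀ x ∈ uIcc (sg0 T) 3, HasDerivAt
        (fun x => -(500 / Real.log T) * Real.exp (-((x - sg0 T) * (Real.log T / 500))))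
        (Real.exp (-((x - sg0 T) * (Real.log T / 500)))) x := by
      intro x _
      have h5 : HasDerivAt (fun x : ℝ => -((x - sg0 T) * (Real.log T / 500)))
          (-(1 * (Real.log T / 500))) x :=
        (((hasDerivAt_id x).sub_const _).mul_const _).neg
      have h6 := (h5.exp).const_mul (-(500 / Real.log T))
      have hLne : Real.log T ≠ 0 := by positivity
      have h7 : -(500 / Real.log T) * (Real.exp (-((x - sg0 T) * (Real.log T / 500))) *
          (-(1 * (Real.log T / 500)))) = Real.exp (-((x - sg0 T) * (Real.log T / 500))) := by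
        have : -(500 / Real.log T) * (-(1 * (Real.log T / 500))) = 1 := by
          field_simp
        calc -(500 / Real.log T) * (Real.exp (-((x - sg0 T) * (Real.log T / 500))) *
          (-(1 * (Real.log T / 500)))) = (-(500 / Real.log T) * (-(1 * (Real.log T / 500)))) *
            Real.exp (-((x - sg0 T) * (Real.log T / 500))) := by ring
          _ = _ := by rw [this, one_mul]
      rw [h7] at h6
      exact h6
    rw [intervalIntegral.integral_eq_sub_of_hasDerivAt hd
      ((by fun_prop : Continuous fun x : ℝ =>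
        Real.exp (-((x - sg0 T) * (Real.log T / 500)))).intervalIntegrable _ _)]
    have p1 := Real.exp_pos (-((3 - sg0 T) * (Real.log T / 500)))
    have p2 : 0 < 500 / Real.log T := by positivity
    have p3 : Real.exp (-((sg0 T - sg0 T) * (Real.log T / 500))) = 1 := by simp
    rw [p3]
    nlinarith
  rw [show (∫ q in rct (sg0 T) 3 (2 * T), Real.posLog ‖Zf (pnt q) * psi T (pnt q) / (pnt q + 3)‖ *
      ‖cexp (l * (pnt q - sg0 T)) * ER (N1 T) ε (gf T a0 a1 κ) (pnt q)‖ ^ 2) =
      ∫ q in rct (sg0 T) 3 (2 * T), g q from rfl, hfub]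
  calc ∫ x in Icc (sg0 T) 3, ∫ t in Icc (-(2 * T)) (2 * T), g (x, t)
      ≤ ∫ x in Icc (sg0 T) 3, Bd x := by
        refine setIntegral_mono_on_ae hGint
          (hBdc.continuousOn.integrableOn_compact isCompact_Icc) measurableSet_Icc ?_
        have hne : ∀ᵐ x : ℝ, x ≠ 1 := by
          simp [ae_iff]
        filter_upwards [hne] with x hx1 hx
        exact hinner x hx hx1
    _ = 1 / 2 * (C1 + C2) * T * el T ^ 3 *
          (∫ x in Icc (sg0 T) 3, Real.exp (-((x - sg0 T) * (Real.log T / 500)))) +
          (3 - sg0 T) * (576 * T) := by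
        rw [hBd, integral_add, integral_const_mul, setIntegral_const]
        · simp only [smul_eq_mul]
          congr 2
          simp [Real.volume_real_Icc_of_le (show sg0 T ≤ 3 by linarith)]
        · refine Continuous.integrableOn_Icc ?_
          fun_prop
        · exact (continuous_const).integrableOn_Icc
    _ ≤ 1 / 2 * (C1 + C2) * T * el T ^ 3 * (500 / Real.log T) + 3 * (576 * T) := by
        have : 3 - sg0 T ≤ 3 := by linarith
        gcongr
    _ ≤ ((C1 + C2) + 1728) * T * Real.log T ^ 2 := by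
        have e1 : 1 / 2 * (C1 + C2) * T * el T ^ 3 * (500 / Real.log T) =
            (C1 + C2) * T * Real.log T ^ 2 * (250 / 10000 ^ 3) := by
          unfold el; field_simp
          ring
        rw [e1]
        have hl2 : 1 ≤ Real.log T ^ 2 := by nlinarith
        have q1 : 0 ≤ (C1 + C2) * T * Real.log T ^ 2 := by positivity
        have q2 : T * 1 ≤ T * Real.log T ^ 2 := mul_le_mul_of_nonneg_left hl2 hT0.le
        have q3 : (C1 + C2) * T * Real.log T ^ 2 * (250 / 10000 ^ 3) ≤
            (C1 + C2) * T * Real.log T ^ 2 * 1 :=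
          mul_le_mul_of_nonneg_left (by norm_num) q1
        have q4 : ((C1 + C2) + 1728) * T * Real.log T ^ 2 =
            (C1 + C2) * T * Real.log T ^ 2 + 1728 * (T * Real.log T ^ 2) := by ring
        rw [q4]
        linarith

end Pool.Agent.ZR
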