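import Pool.Agent.ZR.Defs
import Pool.Agent.H6.RayMellin

/-!
# The Mellin transform of `1/(e^(zr) - 1) - 1/(zr)` on a ray
For `Re s > 1`: `∑_n ∫ e^(-nzr) r^(s-1) = z^(-s) Γ(s) ζ(s)` (`Complex.integral_cpow_mul_exp_neg_mul_Ioi` or
`Pool.Agent.H6.RayMellin.gamma_integral_complex`); analytic continuation to `0 < Re s` of
`∫_0^1 φ(zr) r^(s-1) + ∫_1^∞ r^(s-1)/(e^(zr)-1) + 1/(z (s-1))`, then `1/(s-1) = -∫_1^∞ r^(s-2)` for `Re s < 1`.
-/

set_option autoImplicit false

open Complex MeasureTheory Set Finset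

namespace Pool.Agent.ZR

/-- `1/(e^(zr)-1)` -/
noncomputable def taG (z : ℂ) (r : ℝ) : ℂ := 1 / (cexp (z * r) - 1)

/-- `t^(-1)` on `(0,1]` -/
noncomputable def taI (r : ℝ) : ℂ := indicator (Ioc 0 1) (fun t : ℝ => (t : ℂ) ^ (-1 : ℂ)) r

/-- the difference -/
noncomputable def taH (z : ℂ) (r : ℝ) : ℂ := taG z r - (1 / z) * taI r

theorem ta_norm_ge (w : ℂ) : Real.exp w.re - 1 ≤ ‖cexp w - 1‖ := by
  have := norm_sub_norm_le (cexp w) 1
  rw [Complex.norm_exp, norm_one] at this
  exact this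

theorem ta_ne {w : ℂ} (hw : 0 < w.re) : cexp w - 1 ≠ 0 := by
  intro h
  have h1 := ta_norm_ge w
  rw [h, norm_zero] at h1
  have h2 : 1 < Real.exp w.re := by
    rw [← Real.exp_zero]
    exact Real.exp_lt_exp.mpr hw
  linarith

theorem ta_near {w : ℂ} (h0 : w ≠ 0) (h1 : ‖w‖ ≤ 1 / 2) : ‖phi w‖ ≤ 2 := by
  have hw : 0 < ‖w‖ := norm_pos_iff.mpr h0
  have h2 : ‖cexp w - 1 - w‖ ≤ ‖w‖ ^ 2 := Complex.norm_exp_sub_one_sub_id_le (by linarith)
  have h3 : ‖w‖ / 2 ≤ ‖cexp w - 1‖ := by
    have h4 : ‖w‖ ≤ ‖cexp w - 1‖ + ‖cexp w - 1 - w‖ := by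
      calc ‖w‖ = ‖(cexp w - 1) - (cexp w - 1 - w)‖ := by congr 1; ring
        _ ≤ _ := norm_sub_le _ _
    nlinarith
  have h5 : cexp w - 1 ≠ 0 := by
    intro h
    rw [h, norm_zero] at h3
    linarith
  have e : phi w = -(cexp w - 1 - w) / ((cexp w - 1) * w) := by
    unfold phi
    field_simp
    ring
  rw [e, norm_div, norm_neg, norm_mul]
  rw [div_le_iff₀ (by positivity)]
  nlinarith

theorem taG_contOn {z : ℂ} (hz : 0 < z.re) : ContinuousOn (taG z) (Ioi 0) := by
  unfold taG
  apply ContinuousOn.div continuousOn_const (by fun_prop)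
  intro r hr
  apply ta_ne
  have : (z * (r : ℂ)).re = z.re * r := by simp
  rw [this]
  exact mul_pos hz hr

theorem taH_locInt {z : ℂ} (hz : 0 < z.re) : LocallyIntegrableOn (taH z) (Ioi 0) := by
  have h1 : LocallyIntegrableOn (taG z) (Ioi 0) := (taG_contOn hz).locallyIntegrableOn measurableSet_Ioi
  have h2 : ContinuousOn (fun t : ℝ => (t : ℂ) ^ (-1 : ℂ)) (Ioi 0) := by
    intro r hr
    have hr0 : (0:ℝ) < r := hr
    apply ContinuousAt.continuousWithinAt
    exact ContinuousAt.comp (f := fun r : ℝ => (r : ℂ)) (g := fun w : ℂ => w ^ (-1 : ℂ))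
      (continuousAt_cpow_const (Or.inl (by simpa using hr0))) Complex.continuous_ofReal.continuousAt
  have h3 : LocallyIntegrableOn (fun t : ℝ => (t : ℂ) ^ (-1 : ℂ)) (Ioi 0) :=
    h2.locallyIntegrableOn measurableSet_Ioi
  have h4 : LocallyIntegrableOn taI (Ioi 0) := by
    intro x hx
    obtain ⟨U, hU, hUi⟩ := h3 x hx
    exact ⟨U, hU, hUi.indicator measurableSet_Ioc⟩
  intro x hx
  obtain ⟨U, hU, hUi⟩ := h1 x hx
  obtain ⟨V, hV, hVi⟩ := h4 x hx
  refine ⟨U ∩ V, Filter.inter_mem hU hV, ?_⟩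
  exact (hUi.mono_set inter_subset_left).sub ((hVi.mono_set inter_subset_right).const_mul _)

theorem taH_top {z : ℂ} (hz : 0 < z.re) :
    (taH z) =O[Filter.atTop] fun t => Real.exp (-z.re * t) := by
  rw [Asymptotics.isBigO_iff]
  refine ⟨2, ?_⟩
  filter_upwards [Filter.eventually_gt_atTop 1, Filter.eventually_ge_atTop (1 / z.re)] with r h1 h2
  have hI : taI r = 0 := by
    unfold taI
    rw [indicator_of_notMem]
    intro h
    exact absurd h.2 (not_le.mpr h1)
  have h3 : 1 ≤ z.re * r := by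
    rw [div_le_iff₀ hz] at h2
    linarith
  have h4 : 2 ≤ Real.exp (z.re * r) := by
    have := Real.add_one_le_exp (z.re * r)
    linarith
  have h5 := ta_norm_ge (z * r)
  have h6 : (z * (r : ℂ)).re = z.re * r := by simp
  rw [h6] at h5
  have h7 : Real.exp (-z.re * r) = (Real.exp (z.re * r))⁻¹ := by
    rw [← Real.exp_neg]
    congr 1
    ring
  unfold taH taG
  rw [hI, mul_zero, sub_zero, norm_div, norm_one, Real.norm_of_nonneg (Real.exp_pos _).le, h7]
  have h8 : 0 < ‖cexp (z * r) - 1‖ := by linarith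
  rw [div_le_iff₀ h8]
  have h9 : 0 < Real.exp (z.re * r) := Real.exp_pos _
  rw [mul_assoc, inv_mul_eq_div, mul_div_assoc', le_div_iff₀ h9]
  linarith

theorem taH_eq_phi {z : ℂ} {r : ℝ} (hr : 0 < r) (hr1 : r ≤ 1) :
    taH z r = phi (z * r) := by
  unfold taH taG taI phi
  rw [indicator_of_mem (show r ∈ Ioc (0:ℝ) 1 from ⟨hr, hr1⟩), Complex.cpow_neg_one]
  congr 1
  rw [one_div, one_div, mul_inv]

theorem taH_bot {z : ℂ} (hz : 0 < z.re) :
    (taH z) =O[nhdsWithin 0 (Ioi 0)] fun t => t ^ (-(0:ℝ)) := by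
  have hz0 : z ≠ 0 := by
    intro h
    rw [h] at hz
    simp at hz
  have hzn : 0 < ‖z‖ := norm_pos_iff.mpr hz0
  rw [Asymptotics.isBigO_iff]
  refine ⟨2, ?_⟩
  have hm : Ioo (0:ℝ) (min 1 (1 / (2 * ‖z‖))) ∈ nhdsWithin (0:ℝ) (Ioi 0) :=
    Ioo_mem_nhdsGT (by positivity)
  filter_upwards [hm] with r hr
  have hr0 : 0 < r := hr.1
  have hr1 : r < 1 := lt_of_lt_of_le hr.2 (min_le_left _ _)
  have hr2 : r < 1 / (2 * ‖z‖) := lt_of_lt_of_le hr.2 (min_le_right _ _)
  rw [taH_eq_phi hr0 hr1.le]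
  rw [neg_zero, Real.rpow_zero, norm_one, mul_one]
  apply ta_near
  · exact mul_ne_zero hz0 (by exact_mod_cast hr0.ne')
  · rw [norm_mul, Complex.norm_real, Real.norm_of_nonneg hr0.le]
    rw [lt_div_iff₀ (by positivity)] at hr2
    linarith

theorem taH_conv {z s : ℂ} (hz : 0 < z.re) (hs : 0 < s.re) : MellinConvergent (taH z) s :=
  mellinConvergent_of_isBigO_rpow_exp hz (taH_locInt hz) (taH_top hz) (taH_bot hz) (by simpa using hs)

theorem taH_diff {z s : ℂ} (hz : 0 < z.re) (hs : 0 < s.re) :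
    DifferentiableAt ℂ (mellin (taH z)) s :=
  mellin_differentiableAt_of_isBigO_rpow_exp hz (taH_locInt hz) (taH_top hz) (taH_bot hz)
    (by simpa using hs)

/-- the Mellin transform of `taG z` for `Re s > 1` -/
theorem taG_mellin {z s : ℂ} (hz : 0 < z.re) (hs : 1 < s.re) :
    mellin (taG z) s = z ^ (-s) * Complex.Gamma s * riemannZeta s := by
  have hz0 : z ≠ 0 := by
    intro h
    rw [h] at hz
    simp at hz
  have hre : ∀ n : ℕ, 0 < (((n : ℂ) + 1) * z).re := by
    intro n
    have : (((n : ℂ) + 1) * z).re = ((n : ℝ) + 1) * z.re := by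
      rw [show ((n : ℂ) + 1) = (((n : ℝ) + 1 : ℝ) : ℂ) by push_cast; ring, Complex.re_ofReal_mul]
    rw [this]
    positivity
  set F : ℕ → ℝ → ℂ := fun n r => (r : ℂ) ^ (s - 1) * cexp (-(((n : ℂ) + 1) * z * r)) with hF
  have hFn : ∀ n : ℕ, ∀ r ∈ Ioi (0:ℝ), ‖F n r‖ = r ^ (s.re - 1) *
      Real.exp (-((((n : ℝ) + 1) * z.re) * r)) := by
    intro n r hr
    rw [hF]
    simp only
    rw [norm_mul, Complex.norm_cpow_eq_rpow_re_of_pos hr, Complex.norm_exp]
    congr 2
    rw [show ((n : ℂ) + 1) * z * (r : ℂ) = ((((n : ℝ) + 1) * r : ℝ) : ℂ) * z by push_cast; ring,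
      Complex.neg_re, Complex.re_ofReal_mul]
    ring
  have hFi : ∀ n : ℕ, IntegrableOn (F n) (Ioi 0) := by
    intro n
    have hc : ContinuousOn (F n) (Ioi 0) := by
      rw [hF]
      apply ContinuousOn.mul
      · intro r hr
        have hr0 : (0:ℝ) < r := hr
        apply ContinuousAt.continuousWithinAt
        exact ContinuousAt.comp (f := fun r : ℝ => (r : ℂ)) (g := fun w : ℂ => w ^ (s - 1))
          (continuousAt_cpow_const (Or.inl (by simpa using hr0)))
          Complex.continuous_ofReal.continuousAt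
      · fun_prop
    have hi : IntegrableOn (fun r : ℝ => r ^ (s.re - 1) *
        Real.exp (-((((n : ℝ) + 1) * z.re) * r))) (Ioi 0) := by
      have := integrableOn_rpow_mul_exp_neg_mul_rpow (s := s.re - 1) (p := 1)
        (b := ((n : ℝ) + 1) * z.re) (by linarith) one_pos (by positivity)
      refine this.congr_fun (fun r _ => ?_) measurableSet_Ioi
      simp only [Real.rpow_one]
      congr 2
      ring
    refine hi.mono' (hc.aestronglyMeasurable measurableSet_Ioi) ?_
    filter_upwards [ae_restrict_mem measurableSet_Ioi] with r hr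
    rw [hFn n r hr]
  have hns : ∀ n : ℕ, ∫ r in Ioi (0:ℝ), ‖F n r‖ =
      (1 / z.re) ^ s.re * Real.Gamma s.re * (1 / ((n : ℝ) + 1) ^ s.re) := by
    intro n
    rw [setIntegral_congr_fun measurableSet_Ioi (hFn n),
      Real.integral_rpow_mul_exp_neg_mul_Ioi (by linarith) (by positivity)]
    rw [show (1 / (((n : ℝ) + 1) * z.re)) = (1 / z.re) * (1 / ((n : ℝ) + 1)) by
      rw [one_div, one_div, one_div, mul_inv]; ring]
    rw [Real.mul_rpow (by positivity) (by positivity), Real.div_rpow (by positivity) (by positivity) (s.re),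
      Real.one_rpow, Real.div_rpow (by positivity) (by positivity) (s.re), Real.one_rpow]
    ring
  have hsumn : Summable (fun n : ℕ => ∫ r in Ioi (0:ℝ), ‖F n r‖) := by
    simp_rw [hns]
    apply Summable.mul_left
    have h1 := (Real.summable_one_div_nat_add_rpow 1 s.re).mpr hs
    refine h1.congr (fun n => ?_)
    rw [abs_of_nonneg (by positivity)]
  have hsum := hasSum_integral_of_summable_integral_norm (fun n => hFi n) hsumn
  have hint : ∀ n : ℕ, ∫ r in Ioi (0:ℝ), F n r =
      z ^ (-s) * Complex.Gamma s * (1 / ((n : ℂ) + 1) ^ s) := by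
    intro n
    have h1 := Pool.Agent.H6.gamma_integral_complex (s := s) (hre n) (by linarith)
    rw [hF]
    simp only
    rw [h1]
    have h2 : (((n : ℂ) + 1) * z) ^ (-s) = z ^ (-s) * (1 / ((n : ℂ) + 1) ^ s) := by
      have h3 := Pool.Agent.H6.ofReal_mul_cpow' (x := (n : ℝ) + 1) (by positivity) hz0 (-s)
      rw [show ((((n : ℝ) + 1 : ℝ)) : ℂ) = (n : ℂ) + 1 by push_cast; ring] at h3
      rw [h3, Complex.cpow_neg ((n : ℂ) + 1) s, one_div]
      ring
    rw [h2]
    ring
  have htot : ∀ r ∈ Ioi (0:ℝ), ∑' n : ℕ, F n r = (r : ℂ) ^ (s - 1) * taG z r := by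
    intro r hr
    have hr0 : (0:ℝ) < r := hr
    have hq : ‖cexp (-(z * r))‖ < 1 := by
      rw [Complex.norm_exp, ← Real.exp_zero]
      apply Real.exp_lt_exp.mpr
      have : (-(z * (r : ℂ))).re = -(z.re * r) := by simp
      rw [this]
      have := mul_pos hz hr0
      linarith
    have hg := (hasSum_geometric_of_norm_lt_one hq).mul_left
      ((r : ℂ) ^ (s - 1) * cexp (-(z * r)))
    have e1 : ∀ n : ℕ, (r : ℂ) ^ (s - 1) * cexp (-(z * r)) * cexp (-(z * r)) ^ n = F n r := by
      intro n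
      rw [hF]
      simp only
      rw [← Complex.exp_nat_mul, mul_assoc, ← Complex.exp_add]
      congr 2
      ring
    simp_rw [e1] at hg
    rw [hg.tsum_eq]
    unfold taG
    have hne : cexp (z * r) - 1 ≠ 0 := by
      apply ta_ne
      have : (z * (r : ℂ)).re = z.re * r := by simp
      rw [this]
      exact mul_pos hz hr0
    have hE : cexp (z * r) ≠ 0 := Complex.exp_ne_zero _
    rw [Complex.exp_neg, mul_assoc]
    congr 1
    have hne2 : 1 - (cexp (z * r))⁻¹ ≠ 0 := by
      intro h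
      apply hne
      have : (cexp (z * r))⁻¹ = 1 := by linear_combination -h
      have : cexp (z * r) = 1 := by rwa [inv_eq_one] at this
      rw [this, sub_self]
    rw [one_div, ← mul_inv, mul_sub, mul_one, mul_inv_cancel₀ hE]
  have hz2 := zeta_eq_tsum_one_div_nat_add_one_cpow hs
  rw [mellin]
  have e2 : ∫ t in Ioi (0:ℝ), (t : ℂ) ^ (s - 1) • taG z t = ∫ t in Ioi (0:ℝ), ∑' n : ℕ, F n t := by
    apply setIntegral_congr_fun measurableSet_Ioi
    intro r hr
    simp only [smul_eq_mul]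
    exact (htot r hr).symm
  rw [e2, ← hsum.tsum_eq, hz2]
  simp_rw [hint]
  rw [tsum_mul_left]

/-- the Mellin transform of `taH z` for `Re s > 1` -/
theorem taH_mellin {z s : ℂ} (hz : 0 < z.re) (hs : 1 < s.re) :
    mellin (taH z) s = z ^ (-s) * Complex.Gamma s * riemannZeta s - 1 / z * (1 / (s - 1)) := by
  have hI := hasMellin_cpow_Ioc (-1) (s := s) (by simpa using hs)
  have hI2 : HasMellin taI s (1 / (s + -1)) := hI
  have hI3 : MellinConvergent (fun t => (1 / z) * taI t) s := hI2.1.const_smul (1 / z)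
  have hG : MellinConvergent (taG z) s := by
    have h := (hasMellin_add (taH_conv hz (by linarith : 0 < s.re)) hI3).1
    have e : (fun t => taH z t + (1 / z) * taI t) = taG z := by
      funext t
      unfold taH
      ring
    rwa [e] at h
  have h2 := (hasMellin_sub hG hI3).2
  have e : (fun t => taG z t - (1 / z) * taI t) = taH z := rfl
  rw [e] at h2
  rw [h2, taG_mellin hz hs]
  have h3 := mellin_const_smul taI s (1 / z)
  simp only [smul_eq_mul] at h3
  rw [h3, hI2.2]
  congr 3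

/-- `(s-1) ζ(s)` is entire -/
theorem ta_Zf_diff : Differentiable ℂ Zf := by
  have h0 : ∀ s : ℂ, s ≠ 1 → Zf =ᶠ[nhds s] fun w => (w - 1) * riemannZeta w := by
    intro s hs
    filter_upwards [isOpen_ne.mem_nhds hs] with w hw
    unfold Zf
    rw [if_neg hw]
  have h1 : ∀ s : ℂ, s ≠ 1 → DifferentiableAt ℂ Zf s := by
    intro s hs
    rw [(h0 s hs).differentiableAt_iff]
    exact (differentiableAt_id.sub_const 1).mul (differentiableAt_riemannZeta hs)
  intro s
  by_cases hs : s = 1
  · subst hs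
    apply AnalyticAt.differentiableAt
    apply Complex.analyticAt_of_differentiable_on_punctured_nhds_of_continuousAt
    · filter_upwards [self_mem_nhdsWithin] with w hw
      exact h1 w hw
    · rw [continuousAt_iff_punctured_nhds]
      have h2 := riemannZeta_residue_one
      have h3 : Zf 1 = 1 := by
        unfold Zf
        rw [if_pos rfl]
      rw [h3]
      refine h2.congr' ?_
      filter_upwards [self_mem_nhdsWithin] with w hw
      have hw1 : w ≠ 1 := hw
      unfold Zf
      rw [if_neg hw1]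
  · exact h1 s hs

theorem taH_mellin_all {z s : ℂ} (hz : 0 < z.re) (hs : 0 < s.re) :
    (s - 1) * mellin (taH z) s + 1 / z = z ^ (-s) * Complex.Gamma s * Zf s := by
  have hz0 : z ≠ 0 := by
    intro h
    rw [h] at hz
    simp at hz
  have hopen : IsOpen {w : ℂ | 0 < w.re} := isOpen_lt continuous_const Complex.continuous_re
  have hpre : IsPreconnected {w : ℂ | 0 < w.re} := by
    have : {w : ℂ | 0 < w.re} = Complex.reCLM ⁻¹' (Ioi 0) := by ext z; simp
    rw [this]
    exact ((convex_Ioi (0:ℝ)).linear_preimage (Complex.reCLM : ℂ →ₗ[ℝ] ℝ)).isPreconnected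
  have h1 : AnalyticOnNhd ℂ (fun w => (w - 1) * mellin (taH z) w + 1 / z) {w | 0 < w.re} := by
    apply DifferentiableOn.analyticOnNhd _ hopen
    intro w hw
    apply DifferentiableAt.differentiableWithinAt
    exact ((differentiableAt_id.sub_const 1).mul (taH_diff hz hw)).add_const _
  have h2 : AnalyticOnNhd ℂ (fun w => z ^ (-w) * Complex.Gamma w * Zf w) {w | 0 < w.re} := by
    apply DifferentiableOn.analyticOnNhd _ hopen
    intro w hw
    apply DifferentiableAt.differentiableWithinAt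
    refine (DifferentiableAt.mul ?_ ?_).mul (ta_Zf_diff w)
    · exact (differentiableAt_id.neg).const_cpow (Or.inl hz0)
    · apply Complex.differentiableAt_Gamma
      intro m h
      have hw0 : 0 < w.re := hw
      rw [h] at hw0
      simp at hw0
      have : (0:ℝ) ≤ m := Nat.cast_nonneg m
      linarith
  have h3 : (2 : ℂ) ∈ {w : ℂ | 0 < w.re} := by simp
  have h4 : (fun w => (w - 1) * mellin (taH z) w + 1 / z) =ᶠ[nhds (2:ℂ)]
      fun w => z ^ (-w) * Complex.Gamma w * Zf w := by
    have ho : IsOpen {w : ℂ | 1 < w.re} := isOpen_lt continuous_const Complex.continuous_re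
    filter_upwards [ho.mem_nhds (show (2:ℂ) ∈ {w : ℂ | 1 < w.re} by simp)] with w hw
    have hw1 : 1 < w.re := hw
    have hne : w ≠ 1 := by
      intro h
      rw [h] at hw1
      simp at hw1
    have hne' : w - 1 ≠ 0 := sub_ne_zero.mpr hne
    rw [taH_mellin hz hw1]
    unfold Zf
    rw [if_neg hne]
    field_simp
    ring
  exact h1.eqOn_of_preconnected_of_eventuallyEq h2 hpre h3 h4 hs

theorem phi_mellin {z s : ℂ} (hz : 0 < z.re) (h0 : 0 < s.re) (h1 : s.re < 1) :
    MellinConvergent (fun r : ℝ => phi (z * r)) s ∧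
      mellin (fun r : ℝ => phi (z * r)) s = z ^ (-s) * Complex.Gamma s * riemannZeta s := by
  have hz0 : z ≠ 0 := by
    intro h
    rw [h] at hz
    simp at hz
  have hne : s ≠ 1 := by
    intro h
    rw [h] at h1
    simp at h1
  have hne' : s - 1 ≠ 0 := sub_ne_zero.mpr hne
  -- the tail
  set J : ℝ → ℂ := fun r => indicator (Ioi 1) (fun t : ℝ => (t : ℂ) ^ (-1 : ℂ)) r with hJ
  have hre : (s - 2).re < -1 := by
    simp
    linarith
  have hJeq : ∀ r ∈ Ioi (0:ℝ), (r : ℂ) ^ (s - 1) * J r =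
      indicator (Ioi 1) (fun t : ℝ => (t : ℂ) ^ (s - 2)) r := by
    intro r hr
    have hr0 : (r : ℂ) ≠ 0 := by
      have : (0:ℝ) < r := hr
      exact_mod_cast this.ne'
    rw [hJ]
    simp only
    by_cases h : r ∈ Ioi (1:ℝ)
    · rw [indicator_of_mem h, indicator_of_mem h, ← Complex.cpow_add _ _ hr0]
      congr 1
      ring
    · rw [indicator_of_notMem h, indicator_of_notMem h, mul_zero]
  have hsub : Ioi (1:ℝ) ⊆ Ioi 0 := Ioi_subset_Ioi zero_le_one
  have hJc : MellinConvergent J s := by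
    have h2 := integrableOn_Ioi_cpow_of_lt hre one_pos
    rw [MellinConvergent]
    have h3 : IntegrableOn (indicator (Ioi 1) (fun t : ℝ => (t : ℂ) ^ (s - 2))) (Ioi (0:ℝ)) := by
      rw [integrableOn_indicator_iff measurableSet_Ioi]
      rwa [inter_eq_left.mpr hsub]
    refine h3.congr_fun (fun r hr => ?_) measurableSet_Ioi
    simp only [smul_eq_mul]
    exact (hJeq r hr).symm
  have hJm : mellin J s = -(1 / (s - 1)) := by
    rw [mellin]
    have e : ∫ t in Ioi (0:ℝ), (t : ℂ) ^ (s - 1) • J t =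
        ∫ t in Ioi (0:ℝ), indicator (Ioi 1) (fun t : ℝ => (t : ℂ) ^ (s - 2)) t := by
      apply setIntegral_congr_fun measurableSet_Ioi
      intro r hr
      simp only [smul_eq_mul]
      exact hJeq r hr
    rw [e, setIntegral_indicator measurableSet_Ioi, inter_eq_right.mpr hsub,
      integral_Ioi_cpow_of_lt hre one_pos]
    rw [Complex.ofReal_one, Complex.one_cpow]
    rw [show s - 2 + 1 = s - 1 by ring]
    ring
  have hJ3 : MellinConvergent (fun t => (1 / z) * J t) s := hJc.const_smul (1 / z)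
  have hsubM := hasMellin_sub (taH_conv hz h0) hJ3
  have e : ∀ t ∈ Ioi (0:ℝ), taH z t - (1 / z) * J t = phi (z * t) := by
    intro t ht
    have ht0 : (0:ℝ) < t := ht
    by_cases h : t ≤ 1
    · rw [taH_eq_phi ht0 h, hJ]
      simp only
      rw [indicator_of_notMem (by simpa using h), mul_zero, sub_zero]
    · push Not at h
      rw [hJ]
      simp only
      rw [indicator_of_mem (show t ∈ Ioi (1:ℝ) from h)]
      unfold taH taG taI phi
      rw [indicator_of_notMem (fun hh => absurd hh.2 (not_le.mpr h)), mul_zero, sub_zero,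
        Complex.cpow_neg_one]
      congr 1
      rw [one_div, one_div, mul_inv]
  have hconv : MellinConvergent (fun r : ℝ => phi (z * r)) s := by
    have := hsubM.1
    rw [MellinConvergent] at this ⊢
    refine this.congr_fun (fun r hr => ?_) measurableSet_Ioi
    simp only
    rw [e r hr]
  refine ⟨hconv, ?_⟩
  have hval : mellin (fun r : ℝ => phi (z * r)) s = mellin (fun t => taH z t - (1 / z) * J t) s := by
    rw [mellin, mellin]
    apply setIntegral_congr_fun measurableSet_Ioi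
    intro r hr
    simp only
    rw [e r hr]
  have h3 := mellin_const_smul J s (1 / z)
  simp only [smul_eq_mul] at h3
  rw [hval, hsubM.2, h3, hJm]
  have h4 := taH_mellin_all (s := s) hz h0
  unfold Zf at h4
  rw [if_neg hne] at h4
  have h5 : mellin (taH z) s = (z ^ (-s) * Complex.Gamma s * ((s - 1) * riemannZeta s) - 1 / z) /
      (s - 1) := by
    rw [eq_div_iff hne']
    linear_combination h4
  rw [h5]
  field_simp
  ring

end Pool.Agent.ZR
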