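import Pool.Agent.ZR.TA
import Pool.Agent.H6.PlanUB

/-!
# Mellin-Plancherel on the ray `z = i e^(-i/T)`
`Pool.Agent.H6.PlanUB.mellin_plancherel_ub` with `σ = 1/2`, `ε = 1/T²`; the Mellin transform of `Gr a Y (zT T)` at
`s = 1/2 + ix` is `zT^(-s) Γ(s) ζ(s) DPa a Y s`, `|zT^(-s)| = e^((π/2-1/T)x)`, `|Γ(1/2+ix)|² = π/cosh(πx)`.
For `x ≥ 0` the left side is `≥ π e^(-2x/T) |ζ DPa|² e^(-x²/T²)` and
`e^(-2(x/T)²) ≤ e · e^(-2x/T) e^(-(x/T)²)`. For `x < 0` conjugation (real coefficients).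
-/

set_option autoImplicit false

open Complex MeasureTheory Set Finset

namespace Pool.Agent.ZR

theorem tb_re {T : ℝ} (hT : 1 ≤ T) : 0 < (zT T).re := by
  unfold zT
  rw [Complex.exp_ofReal_mul_I_re]
  apply Real.cos_pos_of_mem_Ioo
  have h1 : 0 < 1 / T := by positivity
  have h2 : 1 / T ≤ 1 := by
    rw [div_le_one (by linarith)]
    exact hT
  have := Real.pi_gt_three
  constructor <;> linarith

theorem tb_log {T : ℝ} (hT : 1 ≤ T) :
    Complex.log (zT T) = ((Real.pi / 2 - 1 / T : ℝ) : ℂ) * I := by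
  have h1 : 0 < 1 / T := by positivity
  have h2 : 1 / T ≤ 1 := by
    rw [div_le_one (by linarith)]
    exact hT
  have := Real.pi_gt_three
  unfold zT
  apply Complex.log_exp
  · simp only [Complex.im_ofReal_mul, Complex.I_im, mul_one]
    linarith
  · simp only [Complex.im_ofReal_mul, Complex.I_im, mul_one]
    linarith

theorem tb_phi_cont {w : ℂ} (hw : 0 < w.re) : ContinuousOn (fun r : ℝ => phi (w * r)) (Ioi 0) := by
  unfold phi
  have hw0 : w ≠ 0 := by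
    intro h
    rw [h] at hw
    simp at hw
  apply ContinuousOn.sub
  · exact taG_contOn hw
  · apply ContinuousOn.div continuousOn_const (by fun_prop)
    intro r hr
    have hr0 : (0:ℝ) < r := hr
    exact mul_ne_zero hw0 (by exact_mod_cast hr0.ne')

theorem tb_phi_bot {w : ℂ} (hw : 0 < w.re) :
    (fun r : ℝ => phi (w * r)) =O[nhdsWithin 0 (Ioi 0)] fun _ => (1:ℝ) := by
  have h := taH_bot hw
  have h2 : (fun t : ℝ => t ^ (-(0:ℝ))) = fun _ => (1:ℝ) := by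
    funext t
    rw [neg_zero, Real.rpow_zero]
  rw [h2] at h
  refine h.congr' ?_ (Filter.EventuallyEq.refl _ _)
  have hm : Ioo (0:ℝ) 1 ∈ nhdsWithin (0:ℝ) (Ioi 0) := Ioo_mem_nhdsGT (by norm_num)
  filter_upwards [hm] with r hr
  exact taH_eq_phi hr.1 hr.2.le

theorem tb_phi_top {w : ℂ} (hw : 0 < w.re) :
    (fun r : ℝ => phi (w * r)) =O[Filter.atTop] fun r => r ^ (-(1:ℝ)) := by
  have hw0 : w ≠ 0 := by
    intro h
    rw [h] at hw
    simp at hw
  have h1 : (taH w) =O[Filter.atTop] fun r => r ^ (-(1:ℝ)) := by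
    refine (taH_top hw).trans ?_
    exact (isLittleO_exp_neg_mul_rpow_atTop hw (-1)).isBigO
  have h2 : (fun r : ℝ => 1 / (w * r)) =O[Filter.atTop] fun r => r ^ (-(1:ℝ)) := by
    rw [Asymptotics.isBigO_iff]
    refine ⟨1 / ‖w‖, ?_⟩
    filter_upwards [Filter.eventually_gt_atTop 0] with r hr
    rw [norm_div, norm_one, norm_mul, Complex.norm_real, Real.rpow_neg_one, norm_inv]
    rw [one_div, one_div, mul_inv]
  refine (h1.sub h2).congr' ?_ (Filter.EventuallyEq.refl _ _)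
  filter_upwards [Filter.eventually_gt_atTop 1] with r hr
  unfold taH taG taI phi
  rw [indicator_of_notMem (fun hh => absurd hh.2 (not_le.mpr hr)), mul_zero, sub_zero]

theorem tb_arg (h : ℕ) (z : ℂ) (r : ℝ) : (h : ℂ) * z * r = ((h : ℂ) * z) * r := rfl

theorem tb_hre {z : ℂ} (hz : 0 < z.re) {h : ℕ} (hh : 1 ≤ h) : 0 < ((h : ℂ) * z).re := by
  have : ((h : ℂ) * z).re = (h : ℝ) * z.re := by
    rw [show (h : ℂ) = ((h : ℝ) : ℂ) by push_cast; rfl, Complex.re_ofReal_mul]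
  rw [this]
  have : (0:ℝ) < h := by exact_mod_cast hh
  positivity

theorem gr_cont {z : ℂ} (hz : 0 < z.re) (a : ℕ → ℝ) (Y : ℕ) : ContinuousOn (Gr a Y z) (Ioi 0) := by
  unfold Gr
  apply continuousOn_finsetSum
  intro h hh
  exact (tb_phi_cont (tb_hre hz (Finset.mem_Icc.mp hh).1)).const_mul _

theorem gr_bot {z : ℂ} (hz : 0 < z.re) (a : ℕ → ℝ) (Y : ℕ) :
    (Gr a Y z) =O[nhdsWithin 0 (Ioi 0)] fun _ => (1:ℝ) := by
  have h := Asymptotics.IsBigO.sum (s := Finset.Icc 1 Y) (g := fun _ : ℝ => (1:ℝ))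
    (l := nhdsWithin 0 (Ioi 0)) (A := fun (h : ℕ) (r : ℝ) => (a h : ℂ) * phi ((h : ℂ) * z * r))
    (fun h hh => (tb_phi_bot (tb_hre hz (Finset.mem_Icc.mp hh).1)).const_mul_left _)
  have e : (∑ h ∈ Finset.Icc 1 Y, fun r : ℝ => (a h : ℂ) * phi ((h : ℂ) * z * r)) = Gr a Y z := by
    funext r
    unfold Gr
    rw [Finset.sum_apply]
  rwa [e] at h

theorem gr_top {z : ℂ} (hz : 0 < z.re) (a : ℕ → ℝ) (Y : ℕ) :
    (Gr a Y z) =O[Filter.atTop] fun r => r ^ (-(1:ℝ)) := by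
  have h := Asymptotics.IsBigO.sum (s := Finset.Icc 1 Y) (g := fun r : ℝ => r ^ (-(1:ℝ)))
    (l := Filter.atTop) (A := fun (h : ℕ) (r : ℝ) => (a h : ℂ) * phi ((h : ℂ) * z * r))
    (fun h hh => (tb_phi_top (tb_hre hz (Finset.mem_Icc.mp hh).1)).const_mul_left _)
  have e : (∑ h ∈ Finset.Icc 1 Y, fun r : ℝ => (a h : ℂ) * phi ((h : ℂ) * z * r)) = Gr a Y z := by
    funext r
    unfold Gr
    rw [Finset.sum_apply]
  rwa [e] at h

theorem gr_int' {z : ℂ} (hz : 0 < z.re) (a : ℕ → ℝ) (Y : ℕ) :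
    IntegrableOn (fun r : ℝ => ‖Gr a Y z r‖ ^ 2) (Ioi 0) := by
  have hc : ContinuousOn (fun r : ℝ => ((‖Gr a Y z r‖ ^ 2 : ℝ) : ℂ)) (Ioi 0) := by
    have := (gr_cont hz a Y).norm.pow 2
    exact Complex.continuous_ofReal.comp_continuousOn this
  have h1 : (fun r : ℝ => ((‖Gr a Y z r‖ ^ 2 : ℝ) : ℂ)) =O[Filter.atTop] fun r => r ^ (-(2:ℝ)) := by
    have h2 := (gr_top hz a Y).norm_left.pow 2
    have h3 : (fun r : ℝ => ((‖Gr a Y z r‖ ^ 2 : ℝ) : ℂ)) =O[Filter.atTop]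
        fun r : ℝ => ‖Gr a Y z r‖ ^ 2 := by
      apply Asymptotics.isBigO_of_le
      intro r
      rw [Complex.norm_real]
    refine (h3.trans h2).congr' (Filter.EventuallyEq.refl _ _) ?_
    filter_upwards [Filter.eventually_gt_atTop 0] with r hr
    rw [← Real.rpow_natCast, ← Real.rpow_mul hr.le]
    norm_num
  have h4 : (fun r : ℝ => ((‖Gr a Y z r‖ ^ 2 : ℝ) : ℂ)) =O[nhdsWithin 0 (Ioi 0)]
      fun r => r ^ (-(0:ℝ)) := by
    have h2 := (gr_bot hz a Y).norm_left.pow 2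
    have h3 : (fun r : ℝ => ((‖Gr a Y z r‖ ^ 2 : ℝ) : ℂ)) =O[nhdsWithin 0 (Ioi 0)]
        fun r : ℝ => ‖Gr a Y z r‖ ^ 2 := by
      apply Asymptotics.isBigO_of_le
      intro r
      rw [Complex.norm_real]
    refine (h3.trans h2).congr (fun _ => rfl) ?_
    intro r
    rw [neg_zero, Real.rpow_zero, one_pow]
  have h5 := mellinConvergent_of_isBigO_rpow (s := 1) (hc.locallyIntegrableOn measurableSet_Ioi)
    h1 (by norm_num) h4 (by norm_num)
  rw [MellinConvergent] at h5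
  have h6 : IntegrableOn (fun r : ℝ => ((‖Gr a Y z r‖ ^ 2 : ℝ) : ℂ)) (Ioi 0) := by
    refine h5.congr_fun (fun r _ => ?_) measurableSet_Ioi
    simp
  have h7 : IntegrableOn (fun r : ℝ => ‖((‖Gr a Y z r‖ ^ 2 : ℝ) : ℂ)‖) (Ioi 0) := h6.norm
  refine h7.congr_fun (fun r _ => ?_) measurableSet_Ioi
  simp only
  rw [Complex.norm_real, Real.norm_of_nonneg (by positivity)]

theorem gr_int {T : ℝ} (hT : 1 ≤ T) (a : ℕ → ℝ) (Y : ℕ) :
    IntegrableOn (fun r : ℝ => ‖Gr a Y (zT T) r‖ ^ 2) (Ioi 0) :=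
  gr_int' (tb_re hT) a Y

/-- the Mellin transform of `Gr` -/
theorem gr_mellin {z s : ℂ} (hz : 0 < z.re) (h0 : 0 < s.re) (h1 : s.re < 1) (a : ℕ → ℝ) (Y : ℕ) :
    MellinConvergent (Gr a Y z) s ∧
      mellin (Gr a Y z) s = z ^ (-s) * Complex.Gamma s * riemannZeta s * DPa a Y s := by
  have hz0 : z ≠ 0 := by
    intro h
    rw [h] at hz
    simp at hz
  have hone : ∀ h ∈ Finset.Icc 1 Y, MellinConvergent (fun r : ℝ => (a h : ℂ) * phi ((h : ℂ) * z * r)) s ∧
      mellin (fun r : ℝ => (a h : ℂ) * phi ((h : ℂ) * z * r)) s =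
        z ^ (-s) * Complex.Gamma s * riemannZeta s * ((a h : ℂ) * (h : ℂ) ^ (-s)) := by
    intro h hh
    have hh1 := (Finset.mem_Icc.mp hh).1
    have h2 := phi_mellin (tb_hre hz hh1) h0 h1
    refine ⟨h2.1.const_smul (a h : ℂ), ?_⟩
    have h3 := mellin_const_smul (fun r : ℝ => phi ((h : ℂ) * z * r)) s (a h : ℂ)
    simp only [smul_eq_mul] at h3
    rw [h3, h2.2]
    have h4 := Pool.Agent.H6.ofReal_mul_cpow' (x := (h : ℝ)) (by exact_mod_cast hh1) hz0 (-s)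
    rw [Complex.ofReal_natCast] at h4
    rw [h4]
    ring
  have key : ∀ S : Finset ℕ, S ⊆ Finset.Icc 1 Y →
      MellinConvergent (fun r : ℝ => ∑ h ∈ S, (a h : ℂ) * phi ((h : ℂ) * z * r)) s ∧
      mellin (fun r : ℝ => ∑ h ∈ S, (a h : ℂ) * phi ((h : ℂ) * z * r)) s =
        z ^ (-s) * Complex.Gamma s * riemannZeta s * ∑ h ∈ S, (a h : ℂ) * (h : ℂ) ^ (-s) := by
    intro S
    induction S using Finset.induction_on with
    | empty =>
      intro _
      simp only [Finset.sum_empty, mul_zero]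
      constructor
      · rw [MellinConvergent]
        simp only [smul_zero]
        exact integrableOn_zero
      · rw [mellin]
        simp
    | insert b S hb ih =>
      intro hS
      have h2 := ih (fun x hx => hS (Finset.mem_insert_of_mem hx))
      have h3 := hone b (hS (Finset.mem_insert_self _ _))
      have h4 := hasMellin_add h3.1 h2.1
      simp_rw [Finset.sum_insert hb]
      refine ⟨h4.1, ?_⟩
      rw [h4.2, h3.2, h2.2]
      ring
  exact key (Finset.Icc 1 Y) (Finset.Subset.refl _)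

theorem tb_gamma (x : ℝ) : ‖Complex.Gamma (1 / 2 + x * I)‖ ^ 2 = Real.pi / Real.cosh (Real.pi * x) := by
  have h1 := Complex.Gamma_mul_Gamma_one_sub (1 / 2 + x * I)
  have h2 : (1 : ℂ) - (1 / 2 + x * I) = (starRingEnd ℂ) (1 / 2 + x * I) := by
    simp only [map_add, map_mul, Complex.conj_ofReal, Complex.conj_I, map_div₀, map_one, map_ofNat]
    ring
  rw [h2, Complex.Gamma_conj, Complex.mul_conj] at h1
  have h3 : Complex.sin (Real.pi * (1 / 2 + x * I)) = ((Real.cosh (Real.pi * x) : ℝ) : ℂ) := by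
    rw [show (Real.pi : ℂ) * (1 / 2 + x * I) = (Real.pi : ℂ) / 2 + ((Real.pi * x : ℝ) : ℂ) * I by
      push_cast; ring]
    rw [Complex.sin_add, Complex.sin_pi_div_two, Complex.cos_pi_div_two, one_mul, zero_mul, add_zero,
      Complex.cos_mul_I, Complex.ofReal_cosh]
  rw [h3, Complex.normSq_eq_norm_sq] at h1
  exact_mod_cast h1

theorem tb_cpow {T : ℝ} (hT : 1 ≤ T) (x : ℝ) :
    ‖(zT T) ^ (-(1 / 2 + x * I) : ℂ)‖ = Real.exp ((Real.pi / 2 - 1 / T) * x) := by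
  have hz0 : zT T ≠ 0 := by
    unfold zT
    exact Complex.exp_ne_zero _
  rw [Complex.cpow_def_of_ne_zero hz0, Complex.norm_exp, tb_log hT]
  congr 1
  simp

/-- the integrand -/
noncomputable def tbW (a : ℕ → ℝ) (Y : ℕ) (T t : ℝ) : ℝ :=
  ‖riemannZeta (1 / 2 + t * I) * DPa a Y (1 / 2 + t * I)‖ ^ 2 * Real.exp (-(2 * (t / T) ^ 2))

/-- the weighted Mellin transform -/
noncomputable def tbV (a : ℕ → ℝ) (Y : ℕ) (T x : ℝ) : ℝ :=
  ‖(zT T) ^ (-(1 / 2 + x * I) : ℂ) * Complex.Gamma (1 / 2 + x * I) * riemannZeta (1 / 2 + x * I) *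
    DPa a Y (1 / 2 + x * I)‖ ^ 2 * Real.exp (-(1 / T ^ 2 * x ^ 2))

theorem tb_zc : Continuous (fun t : ℝ => riemannZeta (1 / 2 + t * I)) := by
  rw [continuous_iff_continuousAt]
  intro t
  have h1 : (1 / 2 + t * I : ℂ) ≠ 1 := by
    intro h
    have := congrArg Complex.re h
    norm_num at this
  have h2 : ContinuousAt riemannZeta (1 / 2 + t * I : ℂ) := (differentiableAt_riemannZeta h1).continuousAt
  exact ContinuousAt.comp (f := fun t : ℝ => (1 / 2 + t * I : ℂ)) (g := riemannZeta) h2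
    (by fun_prop)

theorem tb_dc (a : ℕ → ℝ) (Y : ℕ) : Continuous (fun t : ℝ => DPa a Y (1 / 2 + t * I)) := by
  unfold DPa
  apply continuous_finsetSum
  intro h hh
  have h0 : (h : ℂ) ≠ 0 := by
    have := (Finset.mem_Icc.mp hh).1
    exact_mod_cast (by omega : h ≠ 0)
  apply Continuous.mul continuous_const
  apply Continuous.const_cpow (by fun_prop)
  exact Or.inl h0

theorem tb_gc : Continuous (fun t : ℝ => Complex.Gamma (1 / 2 + t * I)) := by
  rw [continuous_iff_continuousAt]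
  intro t
  have h2 : ContinuousAt Complex.Gamma (1 / 2 + t * I : ℂ) := by
    apply DifferentiableAt.continuousAt (𝕜 := ℂ)
    apply Complex.differentiableAt_Gamma
    intro m h
    have := congrArg Complex.re h
    have hm : (0:ℝ) ≤ m := Nat.cast_nonneg m
    simp at this
    linarith
  exact ContinuousAt.comp (f := fun t : ℝ => (1 / 2 + t * I : ℂ)) (g := Complex.Gamma) h2
    (by fun_prop)

theorem tb_pc (T : ℝ) : Continuous (fun t : ℝ => (zT T) ^ (-(1 / 2 + t * I) : ℂ)) := by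
  apply Continuous.const_cpow (by fun_prop)
  left
  unfold zT
  exact Complex.exp_ne_zero _

theorem tbW_cont (a : ℕ → ℝ) (Y : ℕ) (T : ℝ) : Continuous (tbW a Y T) := by
  unfold tbW
  exact ((tb_zc.mul (tb_dc a Y)).norm.pow 2).mul (by fun_prop)

theorem tbV_cont (a : ℕ → ℝ) (Y : ℕ) (T : ℝ) : Continuous (tbV a Y T) := by
  unfold tbV
  exact ((((tb_pc T).mul tb_gc).mul tb_zc).mul (tb_dc a Y)).norm.pow 2 |>.mul (by fun_prop)

theorem tbW_symm (a : ℕ → ℝ) (Y : ℕ) (T t : ℝ) : tbW a Y T (-t) = tbW a Y T t := by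
  unfold tbW
  have h1 : (1 / 2 + ((-t : ℝ) : ℂ) * I : ℂ) = (starRingEnd ℂ) (1 / 2 + t * I) := by
    simp only [map_add, map_mul, Complex.conj_ofReal, Complex.conj_I, map_div₀, map_one, map_ofNat]
    push_cast
    ring
  have h2 : DPa a Y ((starRingEnd ℂ) (1 / 2 + t * I)) =
      (starRingEnd ℂ) (DPa a Y (1 / 2 + t * I)) := by
    unfold DPa
    rw [map_sum]
    apply Finset.sum_congr rfl
    intro h _
    rw [map_mul, Complex.conj_ofReal, ← map_neg, Complex.cpow_conj]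
    · rw [Complex.conj_natCast]
    · rw [Complex.natCast_arg]
      exact Real.pi_pos.ne
  rw [h1, riemannZeta_conj, h2, ← map_mul, Complex.norm_conj]
  congr 2
  rw [neg_div, neg_sq]

theorem tbW_le {T : ℝ} (hT : 1 ≤ T) (a : ℕ → ℝ) (Y : ℕ) {x : ℝ} (hx : 0 ≤ x) :
    tbW a Y T x ≤ Real.exp 1 / Real.pi * tbV a Y T x := by
  have hT0 : 0 < T := by linarith
  have hpi := Real.pi_pos
  unfold tbW tbV
  rw [norm_mul, norm_mul, norm_mul, norm_mul]
  set z := ‖riemannZeta (1 / 2 + x * I)‖ with hz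
  set d := ‖DPa a Y (1 / 2 + x * I)‖ with hd
  have h1 := tb_gamma x
  have h2 := tb_cpow hT x
  rw [h2]
  set g := ‖Complex.Gamma (1 / 2 + x * I)‖ with hg
  have e1 : (Real.exp ((Real.pi / 2 - 1 / T) * x) * g * z * d) ^ 2 =
      Real.exp ((Real.pi / 2 - 1 / T) * x) ^ 2 * g ^ 2 * (z * d) ^ 2 := by ring
  rw [e1, h1, ← Real.exp_nat_mul]
  have hcosh : Real.cosh (Real.pi * x) ≤ Real.exp (Real.pi * x) := by
    rw [Real.cosh_eq]
    have h3 : Real.exp (-(Real.pi * x)) ≤ Real.exp (Real.pi * x) := by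
      apply Real.exp_le_exp.mpr
      have := mul_nonneg hpi.le hx
      linarith
    linarith
  have hcp := Real.cosh_pos (Real.pi * x)
  have h4 : Real.pi * Real.exp (-(2 * x / T)) ≤
      Real.exp (((2:ℕ) : ℝ) * ((Real.pi / 2 - 1 / T) * x)) * (Real.pi / Real.cosh (Real.pi * x)) := by
    have h5 : Real.pi / Real.exp (Real.pi * x) ≤ Real.pi / Real.cosh (Real.pi * x) :=
      div_le_div_of_nonneg_left hpi.le hcp hcosh
    calc Real.pi * Real.exp (-(2 * x / T)) =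
        Real.exp (((2:ℕ) : ℝ) * ((Real.pi / 2 - 1 / T) * x)) * (Real.pi / Real.exp (Real.pi * x)) := by
          rw [mul_div_assoc', mul_comm (Real.exp _) Real.pi, mul_div_assoc Real.pi, ← Real.exp_sub]
          congr 2
          push_cast
          field_simp
          ring
      _ ≤ _ := by gcongr
  have h6 : Real.exp (-(2 * (x / T) ^ 2)) ≤
      Real.exp 1 * Real.exp (-(2 * x / T)) * Real.exp (-(1 / T ^ 2 * x ^ 2)) := by
    rw [← Real.exp_add, ← Real.exp_add]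
    apply Real.exp_le_exp.mpr
    have h7 : 0 ≤ (1 - x / T) ^ 2 := sq_nonneg _
    have h8 : 1 / T ^ 2 * x ^ 2 = (x / T) ^ 2 := by
      field_simp
    have h9 : 2 * x / T = 2 * (x / T) := by ring
    rw [h8, h9]
    nlinarith
  set E := Real.exp (((2:ℕ) : ℝ) * ((Real.pi / 2 - 1 / T) * x)) with hE
  calc (z * d) ^ 2 * Real.exp (-(2 * (x / T) ^ 2))
      ≤ (z * d) ^ 2 * (Real.exp 1 * Real.exp (-(2 * x / T)) * Real.exp (-(1 / T ^ 2 * x ^ 2))) := by
        gcongr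
    _ = Real.exp 1 / Real.pi * ((Real.pi * Real.exp (-(2 * x / T))) * (z * d) ^ 2 *
        Real.exp (-(1 / T ^ 2 * x ^ 2))) := by
        field_simp
    _ ≤ Real.exp 1 / Real.pi * ((E * (Real.pi / Real.cosh (Real.pi * x))) * (z * d) ^ 2 *
        Real.exp (-(1 / T ^ 2 * x ^ 2))) := by gcongr

theorem tbV_eq {T : ℝ} (hT : 1 ≤ T) (a : ℕ → ℝ) (Y : ℕ) (x : ℝ) :
    ‖mellin (Gr a Y (zT T)) (((1 / 2 : ℝ) : ℂ) + x * I)‖ ^ 2 * Real.exp (-(1 / T ^ 2 * x ^ 2)) =
      tbV a Y T x := by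
  unfold tbV
  have h1 : (((1 / 2 : ℝ) : ℂ) + x * I) = (1 / 2 + x * I : ℂ) := by
    push_cast
    rfl
  rw [h1]
  have h2 := (gr_mellin (z := zT T) (s := 1 / 2 + x * I) (tb_re hT) (by norm_num) (by norm_num) a Y).2
  rw [h2]

theorem tbV_int {T : ℝ} (hT : 1 ≤ T) (a : ℕ → ℝ) (Y : ℕ) : Integrable (tbV a Y T) := by
  have hT0 : 0 < T := by linarith
  set M : ℝ := ∫ r in Ioi (0:ℝ), r ^ (-(1 / 2) : ℝ) * ‖Gr a Y (zT T) r‖ with hM
  have hb : ∀ x : ℝ, ‖tbV a Y T x‖ ≤ M ^ 2 * Real.exp (-(1 / T ^ 2) * x ^ 2) := by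
    intro x
    rw [← tbV_eq hT, norm_mul, Real.norm_of_nonneg (Real.exp_pos _).le,
      Real.norm_of_nonneg (by positivity), neg_mul]
    gcongr
    rw [mellin]
    refine (norm_integral_le_integral_norm _).trans (le_of_eq ?_)
    apply setIntegral_congr_fun measurableSet_Ioi
    intro r hr
    simp only
    rw [norm_smul, Complex.norm_cpow_eq_rpow_re_of_pos hr]
    congr 2
    norm_num
  refine Integrable.mono' (g := fun x => M ^ 2 * Real.exp (-(1 / T ^ 2) * x ^ 2)) ?_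
    (tbV_cont a Y T).aestronglyMeasurable (Filter.Eventually.of_forall hb)
  exact (integrable_exp_neg_mul_sq (by positivity)).const_mul _

theorem planch : ∃ C : ℝ, 0 < C ∧ ∀ (T : ℝ) (a : ℕ → ℝ) (Y : ℕ), 1 ≤ T →
    Integrable (fun t : ℝ => ‖riemannZeta (1 / 2 + t * I) * DPa a Y (1 / 2 + t * I)‖ ^ 2 *
      Real.exp (-(2 * (t / T) ^ 2))) ∧
    ∫ t : ℝ, ‖riemannZeta (1 / 2 + t * I) * DPa a Y (1 / 2 + t * I)‖ ^ 2 *
      Real.exp (-(2 * (t / T) ^ 2)) ≤ C * ∫ r in Ioi (0:ℝ), ‖Gr a Y (zT T) r‖ ^ 2 := by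
  refine ⟨4 * Real.exp 1, by positivity, fun T a Y hT => ?_⟩
  have hT0 : 0 < T := by linarith
  have hpi := Real.pi_pos
  have hVi := tbV_int hT a Y
  have hV0 : ∀ x, 0 ≤ tbV a Y T x := by
    intro x
    unfold tbV
    positivity
  have hW0 : ∀ x, 0 ≤ tbW a Y T x := by
    intro x
    unfold tbW
    positivity
  have hle : ∀ x : ℝ, tbW a Y T x ≤ Real.exp 1 / Real.pi * (tbV a Y T x + tbV a Y T (-x)) := by
    intro x
    have hE : 0 < Real.exp 1 / Real.pi := by positivity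
    rcases le_total 0 x with hx | hx
    · have h1 := tbW_le hT a Y hx
      have h2 := mul_nonneg hE.le (hV0 (-x))
      linarith
    · have h1 := tbW_le hT a Y (x := -x) (by linarith)
      rw [tbW_symm] at h1
      have h2 := mul_nonneg hE.le (hV0 x)
      linarith
  have hVn : Integrable (fun x => tbV a Y T (-x)) := hVi.comp_neg
  have hWi : Integrable (tbW a Y T) := by
    refine Integrable.mono' ((hVi.add hVn).const_mul (Real.exp 1 / Real.pi))
      (tbW_cont a Y T).aestronglyMeasurable (Filter.Eventually.of_forall fun x => ?_)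
    rw [Real.norm_of_nonneg (hW0 x)]
    exact hle x
  refine ⟨hWi, ?_⟩
  have h1 : ∫ x, tbW a Y T x ≤ ∫ x, Real.exp 1 / Real.pi * (tbV a Y T x + tbV a Y T (-x)) :=
    integral_mono hWi ((hVi.add hVn).const_mul (Real.exp 1 / Real.pi)) hle
  rw [integral_const_mul, integral_add hVi hVn, integral_neg_eq_self (tbV a Y T)] at h1
  have hmc : MellinConvergent (Gr a Y (zT T)) ((1 / 2 : ℝ) : ℂ) := by
    apply (gr_mellin (z := zT T) (s := ((1 / 2 : ℝ) : ℂ)) (tb_re hT) ?_ ?_ a Y).1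
    · rw [Complex.ofReal_re]; norm_num
    · rw [Complex.ofReal_re]; norm_num
  have hcongr : ∀ r : ℝ, ‖Gr a Y (zT T) r‖ ^ 2 * r ^ (2 * (1 / 2 : ℝ) - 1) =
      ‖Gr a Y (zT T) r‖ ^ 2 := by
    intro r
    rw [show (2 * (1 / 2 : ℝ) - 1) = 0 by norm_num, Real.rpow_zero, mul_one]
  have h2 := Pool.Agent.H6.mellin_plancherel_ub hmc (by simp_rw [hcongr]; exact gr_int hT a Y)
    (ε := 1 / T ^ 2) (by positivity)
  simp_rw [hcongr, tbV_eq hT] at h2
  have h3 : Real.exp 1 / Real.pi * ((∫ x, tbV a Y T x) + ∫ x, tbV a Y T x) ≤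
      4 * Real.exp 1 * ∫ r in Ioi (0:ℝ), ‖Gr a Y (zT T) r‖ ^ 2 := by
    calc Real.exp 1 / Real.pi * ((∫ x, tbV a Y T x) + ∫ x, tbV a Y T x)
        = Real.exp 1 / Real.pi * 2 * ∫ x, tbV a Y T x := by ring
      _ ≤ Real.exp 1 / Real.pi * 2 * (2 * Real.pi * ∫ r in Ioi (0:ℝ), ‖Gr a Y (zT T) r‖ ^ 2) := by
        gcongr
      _ = _ := by
        field_simp
        ring
  exact h1.trans h3

end Pool.Agent.ZR
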