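import Pool.Agent.ZR.Defs

/-!
# The quadratic form
`β_N = ∑_{h ≤ Y, h | N} a_h`: `∑_N β_N² N^(-1-κ) = ζ(1+κ) ∑_{h,k} a_h a_k [h,k]^(-1-κ)`,
`(h,k)^(1+κ) = ∑_{q | (h,k)} J(q)`, `0 ≤ J(q) ≤ q^(1+κ)`, `ζ(1+κ) ≤ 1 + 1/κ`.
-/

set_option autoImplicit false

open Complex MeasureTheory Set Finset

namespace Pool.Agent.ZR

namespace TQx

/-- The arithmetic function `n^s` (zero at zero). -/
noncomputable def pw (s : ℝ) : ArithmeticFunction ℝ :=
  ⟨fun n => if n = 0 then 0 else (n : ℝ) ^ s, by simp⟩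

theorem pw_apply (s : ℝ) {n : ℕ} (hn : n ≠ 0) : pw s n = (n : ℝ) ^ s := by
  simp [pw, hn]

theorem pw_mult (s : ℝ) : (pw s).IsMultiplicative := by
  rw [ArithmeticFunction.IsMultiplicative.iff_ne_zero]
  refine ⟨by simp [pw], ?_⟩
  intro m n hm hn _
  rw [pw_apply s hm, pw_apply s hn, pw_apply s (mul_ne_zero hm hn)]
  push_cast
  exact Real.mul_rpow (Nat.cast_nonneg _) (Nat.cast_nonneg _)

/-- The Jordan type totient. -/
noncomputable def J (s : ℝ) : ArithmeticFunction ℝ :=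
  (ArithmeticFunction.moebius : ArithmeticFunction ℝ) * pw s

theorem J_mult (s : ℝ) : (J s).IsMultiplicative :=
  (ArithmeticFunction.isMultiplicative_moebius.intCast).mul (pw_mult s)

theorem sum_J (s : ℝ) {n : ℕ} (hn : n ≠ 0) : ∑ d ∈ n.divisors, J s d = (n : ℝ) ^ s := by
  rw [← ArithmeticFunction.coe_zeta_mul_apply, J, ← mul_assoc,
    ArithmeticFunction.coe_zeta_mul_coe_moebius, one_mul, pw_apply s hn]

theorem J_prime_pow {s : ℝ} (hs : 0 ≤ s) {p k : ℕ} (hp : p.Prime) (hk : k ≠ 0) :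
    0 ≤ J s (p ^ k) ∧ J s (p ^ k) ≤ pw s (p ^ k) := by
  obtain ⟨m, rfl⟩ := Nat.exists_eq_succ_of_ne_zero hk
  have h1 := sum_J s (n := p ^ (m + 1)) (pow_ne_zero _ hp.ne_zero)
  have h2 := sum_J s (n := p ^ m) (pow_ne_zero _ hp.ne_zero)
  rw [Nat.sum_divisors_prime_pow hp] at h1 h2
  rw [Finset.sum_range_succ, h2] at h1
  have h3 : J s (p ^ (m + 1)) = ((p ^ (m + 1) : ℕ) : ℝ) ^ s - ((p ^ m : ℕ) : ℝ) ^ s := by
    linarith
  have h4 : ((p ^ m : ℕ) : ℝ) ^ s ≤ ((p ^ (m + 1) : ℕ) : ℝ) ^ s := by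
    apply Real.rpow_le_rpow (Nat.cast_nonneg _) _ hs
    exact_mod_cast Nat.pow_le_pow_right hp.pos (Nat.le_succ m)
  have h5 : (0 : ℝ) ≤ ((p ^ m : ℕ) : ℝ) ^ s := Real.rpow_nonneg (Nat.cast_nonneg _) _
  rw [pw_apply s (pow_ne_zero _ hp.ne_zero), Nat.succ_eq_add_one, h3]
  constructor <;> linarith

theorem J_bd {s : ℝ} (hs : 0 ≤ s) {n : ℕ} (hn : n ≠ 0) :
    0 ≤ J s n ∧ J s n ≤ (n : ℝ) ^ s := by
  have h1 := (J_mult s).multiplicative_factorization (J s) hn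
  have h2 := (pw_mult s).multiplicative_factorization (pw s) hn
  rw [← pw_apply s hn, h1, h2]
  constructor
  · apply Finset.prod_nonneg
    intro p hp
    exact (J_prime_pow hs (Nat.prime_of_mem_primeFactors hp)
      (Finsupp.mem_support_iff.mp hp)).1
  · apply Finset.prod_le_prod
    · intro p hp
      exact (J_prime_pow hs (Nat.prime_of_mem_primeFactors hp)
        (Finsupp.mem_support_iff.mp hp)).1
    · intro p hp
      exact (J_prime_pow hs (Nat.prime_of_mem_primeFactors hp)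
        (Finsupp.mem_support_iff.mp hp)).2

theorem summable_z {κ : ℝ} (hκ : 0 < κ) : Summable (fun n : ℕ => (n : ℝ) ^ (-(1 + κ))) :=
  Real.summable_nat_rpow.mpr (by linarith)

theorem step {κ : ℝ} (hκ : 0 < κ) {N : ℕ} (hN : 1 ≤ N) :
    κ * ((N + 1 : ℕ) : ℝ) ^ (-(1 + κ)) ≤ (N : ℝ) ^ (-κ) - ((N + 1 : ℕ) : ℝ) ^ (-κ) := by
  have hN0 : (0 : ℝ) < N := by exact_mod_cast hN
  have hM0 : (0 : ℝ) < ((N + 1 : ℕ) : ℝ) := by positivity
  set M : ℝ := ((N + 1 : ℕ) : ℝ) with hM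
  have hMN : M = N + 1 := by rw [hM]; push_cast; ring
  have e1 : M ^ (-(1 + κ)) = M ^ (-κ) / M := by
    rw [show -(1 + κ) = -κ - 1 by ring, Real.rpow_sub_one hM0.ne']
  have e2 : (N : ℝ) = M * (1 - 1 / M) := by
    field_simp
    rw [hMN]; ring
  have h3 : 0 < 1 - 1 / M := by
    have : 0 < M * (1 - 1 / M) := by rw [← e2]; exact hN0
    exact (mul_pos_iff_of_pos_left hM0).mp this
  have e4 : (N : ℝ) ^ (-κ) = M ^ (-κ) * (1 - 1 / M) ^ (-κ) := by
    conv_lhs => rw [e2]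
    exact Real.mul_rpow hM0.le h3.le
  have h5 : 1 + κ / M ≤ (1 - 1 / M) ^ (-κ) := by
    rw [Real.rpow_def_of_pos h3]
    have h6 : Real.log (1 - 1 / M) ≤ -(1 / M) := by
      have := Real.log_le_sub_one_of_pos h3
      linarith
    have h7 : κ / M ≤ Real.log (1 - 1 / M) * -κ := by
      have : κ / M = (-(1 / M)) * -κ := by ring
      rw [this]
      nlinarith
    have h8 := Real.add_one_le_exp (Real.log (1 - 1 / M) * -κ)
    linarith
  have h9 : (0 : ℝ) < M ^ (-κ) := Real.rpow_pos_of_pos hM0 _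
  rw [e1, e4]
  have : κ * (M ^ (-κ) / M) = M ^ (-κ) * (κ / M) := by ring
  rw [this]
  nlinarith

theorem partial_le {κ : ℝ} (hκ : 0 < κ) (N : ℕ) :
    ∑ n ∈ Finset.range (N + 2), (n : ℝ) ^ (-(1 + κ)) ≤
      1 + (1 - ((N + 1 : ℕ) : ℝ) ^ (-κ)) / κ := by
  induction N with
  | zero =>
    have h0 : ((0 : ℕ) : ℝ) ^ (-(1 + κ)) = 0 := by
      rw [Nat.cast_zero, Real.zero_rpow (by linarith)]
    simp only [Finset.sum_range_succ, Finset.sum_range_zero, h0]
    simp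
  | succ N ih =>
    rw [Finset.sum_range_succ]
    have h := step hκ (N := N + 1) (by omega)
    have h2 : (((N + 1 : ℕ) : ℝ) ^ (-κ) - ((N + 1 + 1 : ℕ) : ℝ) ^ (-κ)) / κ +
        (1 - ((N + 1 : ℕ) : ℝ) ^ (-κ)) / κ = (1 - ((N + 1 + 1 : ℕ) : ℝ) ^ (-κ)) / κ := by
      field_simp
      ring
    have h3 : ((N + 1 + 1 : ℕ) : ℝ) ^ (-(1 + κ)) ≤
        (((N + 1 : ℕ) : ℝ) ^ (-κ) - ((N + 1 + 1 : ℕ) : ℝ) ^ (-κ)) / κ := by
      rw [le_div_iff₀ hκ]
      linarith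
    have h4 : ((N + 2 : ℕ) : ℝ) = ((N + 1 + 1 : ℕ) : ℝ) := rfl
    rw [h4]
    linarith

theorem z_le {κ : ℝ} (hκ : 0 < κ) : ∑' n : ℕ, (n : ℝ) ^ (-(1 + κ)) ≤ 1 + 1 / κ := by
  apply Real.tsum_le_of_sum_range_le
  · intro n
    positivity
  · intro n
    have hmono : ∑ m ∈ Finset.range n, (m : ℝ) ^ (-(1 + κ)) ≤
        ∑ m ∈ Finset.range (n + 2), (m : ℝ) ^ (-(1 + κ)) := by
      apply Finset.sum_le_sum_of_subset_of_nonneg
      · exact Finset.range_subset_range.mpr (by omega)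
      · intro i _ _
        positivity
    refine hmono.trans ((partial_le hκ n).trans ?_)
    have : (0 : ℝ) ≤ ((n + 1 : ℕ) : ℝ) ^ (-κ) := by positivity
    have h2 : (1 - ((n + 1 : ℕ) : ℝ) ^ (-κ)) / κ ≤ 1 / κ := by
      apply div_le_div_of_nonneg_right _ hκ.le
      linarith
    linarith

/-- The sum over the multiples of `L`. -/
theorem mult_sum {κ : ℝ} (hκ : 0 < κ) {L : ℕ} (hL : L ≠ 0) :
    Summable (fun N : ℕ => if L ∣ N then (N : ℝ) ^ (-(1 + κ)) else 0) ∧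
    ∑' N : ℕ, (if L ∣ N then (N : ℝ) ^ (-(1 + κ)) else 0) =
      (L : ℝ) ^ (-(1 + κ)) * ∑' n : ℕ, (n : ℝ) ^ (-(1 + κ)) := by
  constructor
  · refine Summable.of_nonneg_of_le (fun N => ?_) (fun N => ?_) (summable_z hκ)
    · split_ifs <;> positivity
    · split_ifs
      · exact le_rfl
      · positivity
  · have hinj : Function.Injective (fun m : ℕ => L * m) :=
      fun a b h => Nat.eq_of_mul_eq_mul_left (Nat.pos_of_ne_zero hL) h
    have hsupp : Function.support (fun N : ℕ => if L ∣ N then (N : ℝ) ^ (-(1 + κ)) else 0) ⊆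
        Set.range (fun m : ℕ => L * m) := by
      intro N hN
      by_contra hc
      apply hN
      have : ¬ L ∣ N := by
        rintro ⟨m, rfl⟩
        exact hc ⟨m, rfl⟩
      simp [this]
    rw [← hinj.tsum_eq hsupp, ← tsum_mul_left]
    apply tsum_congr
    intro m
    simp only [dvd_mul_right, if_true]
    push_cast
    exact Real.mul_rpow (Nat.cast_nonneg _) (Nat.cast_nonneg _)

end TQx

open TQx in
theorem quad_form {κ : ℝ} (hκ : 0 < κ) (a : ℕ → ℝ) (Y : ℕ) :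
    Summable (fun N : ℕ => (∑ h ∈ (Finset.Icc 1 Y).filter (fun h => h ∣ N), a h) ^ 2 *
      (N : ℝ) ^ (-(1 + κ))) ∧
    ∑' N : ℕ, (∑ h ∈ (Finset.Icc 1 Y).filter (fun h => h ∣ N), a h) ^ 2 * (N : ℝ) ^ (-(1 + κ)) ≤
      (1 + 1 / κ) * ∑ q ∈ Finset.Icc 1 Y, (q : ℝ) ^ (1 + κ) * yq a Y κ q ^ 2 := by
  set S := Finset.Icc 1 Y with hS
  set s := 1 + κ with hs
  have hs0 : 0 < s := by rw [hs]; linarith
  have hexp : ∀ N : ℕ, (∑ h ∈ S.filter (fun h => h ∣ N), a h) ^ 2 * (N : ℝ) ^ (-s) =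
      ∑ h ∈ S, ∑ k ∈ S, a h * a k * (if Nat.lcm h k ∣ N then (N : ℝ) ^ (-s) else 0) := by
    intro N
    rw [Finset.sum_filter, sq, Finset.sum_mul_sum, Finset.sum_mul]
    apply Finset.sum_congr rfl
    intro h _
    rw [Finset.sum_mul]
    apply Finset.sum_congr rfl
    intro k _
    by_cases h1 : h ∣ N
    · by_cases h2 : k ∣ N
      · have : Nat.lcm h k ∣ N := Nat.lcm_dvd h1 h2
        simp [h1, h2, this]
      · have : ¬ Nat.lcm h k ∣ N := fun hc => h2 ((Nat.dvd_lcm_right h k).trans hc)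
        simp [h2, this]
    · have : ¬ Nat.lcm h k ∣ N := fun hc => h1 ((Nat.dvd_lcm_left h k).trans hc)
      simp [h1, this]
  have hne : ∀ h ∈ S, h ≠ 0 := fun h hh => by
    have := (Finset.mem_Icc.mp hh).1
    omega
  have hsum : ∀ h ∈ S, ∀ k ∈ S, Summable (fun N : ℕ => a h * a k *
      (if Nat.lcm h k ∣ N then (N : ℝ) ^ (-s) else 0)) := by
    intro h hh k hk
    exact ((mult_sum hκ (Nat.lcm_ne_zero (hne h hh) (hne k hk))).1).mul_left _
  have hsum2 : Summable (fun N : ℕ => ∑ h ∈ S, ∑ k ∈ S, a h * a k *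
      (if Nat.lcm h k ∣ N then (N : ℝ) ^ (-s) else 0)) :=
    summable_sum (fun h hh => summable_sum (fun k hk => hsum h hh k hk))
  refine ⟨by simpa only [hexp] using hsum2, ?_⟩
  simp only [hexp]
  rw [Summable.tsum_finsetSum (fun h hh => summable_sum (fun k hk => hsum h hh k hk))]
  set Z : ℝ := ∑' n : ℕ, (n : ℝ) ^ (-s) with hZ
  have hZ1 : Z ≤ 1 + 1 / κ := z_le hκ
  have e1 : ∑ h ∈ S, ∑' N : ℕ, ∑ k ∈ S, a h * a k *
      (if Nat.lcm h k ∣ N then (N : ℝ) ^ (-s) else 0) =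
      Z * ∑ q ∈ S, J s q * yq a Y κ q ^ 2 := by
    have e2 : ∀ h ∈ S, ∑' N : ℕ, ∑ k ∈ S, a h * a k *
        (if Nat.lcm h k ∣ N then (N : ℝ) ^ (-s) else 0) =
        ∑ k ∈ S, Z * ∑ q ∈ S, J s q * ((if q ∣ h then a h * (h : ℝ) ^ (-s) else 0) *
          (if q ∣ k then a k * (k : ℝ) ^ (-s) else 0)) := by
      intro h hh
      rw [Summable.tsum_finsetSum (fun k hk => hsum h hh k hk)]
      apply Finset.sum_congr rfl
      intro k hk
      have hh0 := hne h hh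
      have hk0 := hne k hk
      rw [tsum_mul_left, (mult_sum hκ (Nat.lcm_ne_zero hh0 hk0)).2]
      have hg0 : Nat.gcd h k ≠ 0 := Nat.gcd_ne_zero_left hh0
      have e3 : ∑ q ∈ S, J s q * ((if q ∣ h then a h * (h : ℝ) ^ (-s) else 0) *
          (if q ∣ k then a k * (k : ℝ) ^ (-s) else 0)) =
          (Nat.gcd h k : ℝ) ^ s * (a h * (h : ℝ) ^ (-s) * (a k * (k : ℝ) ^ (-s))) := by
        rw [← sum_J s hg0, Finset.sum_mul]
        have hsub : (Nat.gcd h k).divisors ⊆ S := by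
          intro q hq
          rw [hS, Finset.mem_Icc]
          have hq1 := Nat.dvd_of_mem_divisors hq
          have hq2 : q ∣ h := hq1.trans (Nat.gcd_dvd_left h k)
          exact ⟨Nat.pos_of_mem_divisors hq, (Nat.le_of_dvd (Nat.pos_of_ne_zero hh0) hq2).trans
            (Finset.mem_Icc.mp hh).2⟩
        rw [← Finset.sum_subset hsub]
        · apply Finset.sum_congr rfl
          intro q hq
          have hq1 := Nat.dvd_of_mem_divisors hq
          have hq2 : q ∣ h := hq1.trans (Nat.gcd_dvd_left h k)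
          have hq3 : q ∣ k := hq1.trans (Nat.gcd_dvd_right h k)
          simp [hq2, hq3]
        · intro q _ hq
          have : ¬ (q ∣ h ∧ q ∣ k) := fun hc => hq (Nat.mem_divisors.mpr
            ⟨Nat.dvd_gcd hc.1 hc.2, hg0⟩)
          by_cases h1 : q ∣ h
          · have h2 : ¬ q ∣ k := fun hc => this ⟨h1, hc⟩
            simp [h2]
          · simp [h1]
      rw [e3]
      have e4 : (Nat.lcm h k : ℝ) ^ (-s) =
          (Nat.gcd h k : ℝ) ^ s * ((h : ℝ) ^ (-s) * (k : ℝ) ^ (-s)) := by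
        have hmul : ((Nat.gcd h k : ℕ) : ℝ) * ((Nat.lcm h k : ℕ) : ℝ) = (h : ℝ) * (k : ℝ) := by
          exact_mod_cast Nat.gcd_mul_lcm h k
        have hg1 : (0 : ℝ) < ((Nat.gcd h k : ℕ) : ℝ) := by
          exact_mod_cast Nat.pos_of_ne_zero hg0
        rw [← Real.mul_rpow (Nat.cast_nonneg _) (Nat.cast_nonneg _), ← hmul,
          Real.mul_rpow (Nat.cast_nonneg _) (Nat.cast_nonneg _), ← mul_assoc,
          ← Real.rpow_add hg1]
        simp
      rw [e4]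
      ring
    rw [Finset.sum_congr rfl e2]
    simp_rw [← Finset.mul_sum]
    congr 1
    have e5 : ∀ q : ℕ, yq a Y κ q = ∑ h ∈ S, (if q ∣ h then a h * (h : ℝ) ^ (-s) else 0) := by
      intro q
      rw [yq, Finset.sum_filter]
    calc ∑ h ∈ S, ∑ k ∈ S, ∑ q ∈ S, J s q * ((if q ∣ h then a h * (h : ℝ) ^ (-s) else 0) *
          (if q ∣ k then a k * (k : ℝ) ^ (-s) else 0))
        = ∑ h ∈ S, ∑ q ∈ S, ∑ k ∈ S, J s q * ((if q ∣ h then a h * (h : ℝ) ^ (-s) else 0) *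
          (if q ∣ k then a k * (k : ℝ) ^ (-s) else 0)) := by
          apply Finset.sum_congr rfl
          intro h _
          rw [Finset.sum_comm]
      _ = ∑ q ∈ S, ∑ h ∈ S, ∑ k ∈ S, J s q * ((if q ∣ h then a h * (h : ℝ) ^ (-s) else 0) *
          (if q ∣ k then a k * (k : ℝ) ^ (-s) else 0)) := by
          rw [Finset.sum_comm]
      _ = ∑ q ∈ S, J s q * yq a Y κ q ^ 2 := by
          apply Finset.sum_congr rfl
          intro q _
          rw [e5, sq, Finset.sum_mul_sum, Finset.mul_sum]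
          apply Finset.sum_congr rfl
          intro h _
          rw [Finset.mul_sum]
  rw [e1]
  have hA : ∑ q ∈ S, J s q * yq a Y κ q ^ 2 ≤ ∑ q ∈ S, (q : ℝ) ^ s * yq a Y κ q ^ 2 := by
    apply Finset.sum_le_sum
    intro q hq
    exact mul_le_mul_of_nonneg_right (J_bd hs0.le (hne q hq)).2 (sq_nonneg _)
  have hB : 0 ≤ ∑ q ∈ S, J s q * yq a Y κ q ^ 2 := by
    apply Finset.sum_nonneg
    intro q hq
    exact mul_nonneg (J_bd hs0.le (hne q hq)).1 (sq_nonneg _)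
  have hC : (0 : ℝ) ≤ 1 + 1 / κ := by positivity
  exact mul_le_mul hZ1 hA hB hC

end Pool.Agent.ZR
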