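import Pool.Agent.ZR.TB
import Pool.Agent.ZR.TQ

/-!
# Region II: `r > R = T / Y^5`
`Gr = ∑_N β_N e^(-N r zT) - (∑ a_h/h)/(r zT)`. Squares: the second gives `≤ (∑|a|)² Y^5/T`.
First: `∫_R^∞ = ∑_{M,N} β_M β_N e^(-R(M w + N w̄))/(M w + N w̄)`, `w = zT`; diagonal
`≤ T ∑ β_N² e^(-2NRs)/N`, `s = sin(1/T) ≥ 1/(2T)`; off diagonal `≤ 2 (∑ |β_N| e^(-NRs))²`, which is much
smaller. `e^(-N R s) ≤ C N^(-κ)` with `κ = 1/log Y` (as `R s ≥ Y^(-5)/2`), then `quad_form`.
-/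

set_option autoImplicit false

open Complex MeasureTheory Set Finset

namespace Pool.Agent.ZR

namespace TIIx

/-- The coefficients `β_N`, with `β_0 = 0`. -/
noncomputable def cN (a : ℕ → ℝ) (Y N : ℕ) : ℝ :=
  if N = 0 then 0 else ∑ h ∈ (Finset.Icc 1 Y).filter (fun h => h ∣ N), a h

theorem cN_le (a : ℕ → ℝ) (Y N : ℕ) : |cN a Y N| ≤ ∑ h ∈ Finset.Icc 1 Y, |a h| := by
  unfold cN
  split_ifs with h
  · simp only [abs_zero]
    exact Finset.sum_nonneg (fun _ _ => abs_nonneg _)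
  · exact (Finset.abs_sum_le_sum_abs _ _).trans
      (Finset.sum_le_sum_of_subset_of_nonneg (Finset.filter_subset _ _)
        (fun _ _ _ => abs_nonneg _))

theorem cN_zero (a : ℕ → ℝ) (Y : ℕ) : cN a Y 0 = 0 := by simp [cN]

theorem exp_sub_ne {z : ℂ} (hz : 0 < z.re) : cexp z - 1 ≠ 0 := by
  intro h6
  have h7 : cexp z = 1 := sub_eq_zero.1 h6
  have h8 : ‖cexp z‖ = 1 := by rw [h7]; simp
  rw [Complex.norm_exp] at h8
  have h9 : (1:ℝ) < Real.exp z.re := Real.one_lt_exp_iff.2 hz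
  linarith

/-- The geometric series. -/
theorem geo {z : ℂ} (hz : 0 < z.re) :
    HasSum (fun n : ℕ => cexp (-(((n + 1 : ℕ) : ℂ) * z))) (1 / (cexp z - 1)) := by
  have h1 : ‖cexp (-z)‖ < 1 := by
    rw [Complex.norm_exp]
    simpa using hz
  have h2 := (hasSum_geometric_of_norm_lt_one h1).mul_left (cexp (-z))
  have h3 : cexp (-z) * (1 - cexp (-z))⁻¹ = 1 / (cexp z - 1) := by
    have h4 : cexp z ≠ 0 := Complex.exp_ne_zero z
    have h5 : cexp z - 1 ≠ 0 := exp_sub_ne hz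
    have h6 : 1 - (cexp z)⁻¹ ≠ 0 := by
      intro h7
      apply h5
      have h8 : (cexp z)⁻¹ = 1 := (sub_eq_zero.1 h7).symm
      have h9 : cexp z = 1 := by rw [← inv_inv (cexp z), h8, inv_one]
      rw [h9, sub_self]
    rw [Complex.exp_neg]
    field_simp
  rw [h3] at h2
  have h4 : (fun n : ℕ => cexp (-z) * cexp (-z) ^ n) =
      fun n : ℕ => cexp (-(((n + 1 : ℕ) : ℂ) * z)) := by
    funext n
    rw [← Complex.exp_nat_mul, ← Complex.exp_add]
    congr 1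
    push_cast
    ring
  rw [h4] at h2
  exact h2

/-- The Fourier series. -/
theorem fser (a : ℕ → ℝ) (Y : ℕ) {z : ℂ} (hz : 0 < z.re) :
    HasSum (fun N : ℕ => (cN a Y N : ℂ) * cexp (-((N : ℂ) * z)))
      (∑ h ∈ Finset.Icc 1 Y, (a h : ℂ) * (1 / (cexp ((h : ℂ) * z) - 1))) := by
  classical
  have h1 : ∀ h ∈ Finset.Icc 1 Y, HasSum (fun N : ℕ => if N ≠ 0 ∧ h ∣ N then
      (a h : ℂ) * cexp (-((N : ℂ) * z)) else 0) ((a h : ℂ) * (1 / (cexp ((h : ℂ) * z) - 1))) := by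
    intro h hh
    have hpos : 0 < h := (Finset.mem_Icc.1 hh).1
    have hz' : 0 < ((h : ℂ) * z).re := by
      simp only [Complex.mul_re, Complex.natCast_re, Complex.natCast_im, zero_mul, sub_zero]
      positivity
    have h2 := (geo hz').mul_left (a h : ℂ)
    have hinj : Function.Injective (fun n : ℕ => h * (n + 1)) := by
      intro m n hmn
      have := Nat.eq_of_mul_eq_mul_left hpos hmn
      omega
    rw [← hinj.hasSum_iff]
    · have h5 : ((fun N : ℕ => if N ≠ 0 ∧ h ∣ N then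
          (a h : ℂ) * cexp (-((N : ℂ) * z)) else 0) ∘ fun n : ℕ => h * (n + 1)) =
          fun n : ℕ => (a h : ℂ) * cexp (-(((n + 1 : ℕ) : ℂ) * ((h : ℂ) * z))) := by
        funext n
        have h3 : h * (n + 1) ≠ 0 ∧ h ∣ h * (n + 1) := ⟨by positivity, Dvd.intro _ rfl⟩
        simp only [Function.comp_apply]
        rw [if_pos h3]
        congr 3
        push_cast
        ring
      rw [h5]
      exact h2
    · intro N hN
      rw [if_neg]
      rintro ⟨hN0, k, hk⟩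
      apply hN
      have hk0 : k ≠ 0 := by
        rintro rfl
        exact hN0 (by simpa using hk)
      refine ⟨k - 1, ?_⟩
      simp only
      rw [hk, Nat.sub_add_cancel (Nat.one_le_iff_ne_zero.2 hk0)]
  have h2 := hasSum_sum h1
  have h6 : (fun N : ℕ => (cN a Y N : ℂ) * cexp (-((N : ℂ) * z))) =
      fun N : ℕ => ∑ h ∈ Finset.Icc 1 Y, (if N ≠ 0 ∧ h ∣ N then
      (a h : ℂ) * cexp (-((N : ℂ) * z)) else 0) := ?_
  · rw [h6]
    exact h2
  funext N
  unfold cN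
  by_cases hN : N = 0
  · simp [hN]
  · rw [if_neg hN]
    push_cast
    rw [Finset.sum_mul, Finset.sum_filter]
    refine Finset.sum_congr rfl (fun h _ => ?_)
    by_cases hd : h ∣ N
    · rw [if_pos hd, if_pos ⟨hN, hd⟩]
    · rw [if_neg hd, if_neg (fun hh => hd hh.2)]

/-- Partial sums. -/
noncomputable def FK (c : ℕ → ℝ) (w : ℂ) (K : ℕ) (r : ℝ) : ℂ :=
  ∑ N ∈ Finset.Icc 1 K, (c N : ℂ) * cexp (-((N : ℂ) * (w * r)))

theorem geo_fin {x : ℝ} (h0 : 0 ≤ x) (h1 : x < 1) (K : ℕ) :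
    ∑ N ∈ Finset.Icc 1 K, x ^ N ≤ x / (1 - x) := by
  have h2 : ∑ N ∈ Finset.Icc 1 K, x ^ N = x * ∑ N ∈ Finset.range K, x ^ N := by
    rw [Finset.mul_sum, ← Finset.Ico_succ_right_eq_Icc, Finset.sum_Ico_eq_sum_range]
    simp only [Order.succ_eq_add_one, Nat.add_sub_cancel_right]
    refine Finset.sum_congr rfl (fun n _ => ?_)
    rw [pow_add, pow_one]
  rw [h2, div_eq_mul_inv]
  refine mul_le_mul_of_nonneg_left ?_ h0
  have h3 := (summable_geometric_of_lt_one h0 h1).sum_le_tsum (Finset.range K)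
    (fun i _ => pow_nonneg h0 i)
  rwa [tsum_geometric_of_lt_one h0 h1] at h3

theorem FK_le {c : ℕ → ℝ} {A : ℝ} (hc : ∀ N, |c N| ≤ A) {w : ℂ} (hw : 0 < w.re) {R r : ℝ}
    (hR : 0 < R) (hr : R ≤ r) (K : ℕ) :
    ‖FK c w K r‖ ≤ A / (1 - Real.exp (-(w.re * R))) * Real.exp (-(w.re * r)) := by
  have hA : 0 ≤ A := (abs_nonneg _).trans (hc 0)
  have h1 : ‖FK c w K r‖ ≤ ∑ N ∈ Finset.Icc 1 K, A * Real.exp (-(w.re * r)) ^ N := by
    unfold FK
    refine (norm_sum_le _ _).trans (Finset.sum_le_sum (fun N _ => ?_))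
    rw [norm_mul, Complex.norm_real, Real.norm_eq_abs, Complex.norm_exp, ← Real.exp_nat_mul]
    have h2 : (-((N : ℂ) * (w * r))).re = (N : ℝ) * (-(w.re * r)) := by
      simp
    rw [h2]
    exact mul_le_mul_of_nonneg_right (hc N) (Real.exp_pos _).le
  have hx0 : Real.exp (-(w.re * r)) < 1 := by
    rw [Real.exp_lt_one_iff]
    have : 0 < w.re * r := mul_pos hw (hR.trans_le hr)
    linarith
  have hx1 : Real.exp (-(w.re * R)) < 1 := by
    rw [Real.exp_lt_one_iff]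
    have : 0 < w.re * R := mul_pos hw hR
    linarith
  have h3 : Real.exp (-(w.re * r)) ≤ Real.exp (-(w.re * R)) := by
    apply Real.exp_le_exp.2
    nlinarith
  rw [← Finset.mul_sum] at h1
  refine h1.trans ?_
  refine (mul_le_mul_of_nonneg_left (geo_fin (Real.exp_pos _).le hx0 K) hA).trans ?_
  rw [div_mul_eq_mul_div, ← mul_div_assoc]
  apply div_le_div_of_nonneg_left
  · positivity
  · linarith
  · linarith

theorem FK_sq (c : ℕ → ℝ) (w : ℂ) (K : ℕ) (r : ℝ) :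
    ((‖FK c w K r‖ ^ 2 : ℝ) : ℂ) = ∑ M ∈ Finset.Icc 1 K, ∑ N ∈ Finset.Icc 1 K,
      ((c M * c N : ℝ) : ℂ) * cexp (-((M : ℂ) * w + (N : ℂ) * (starRingEnd ℂ) w) * r) := by
  have h1 : ((‖FK c w K r‖ ^ 2 : ℝ) : ℂ) = FK c w K r * (starRingEnd ℂ) (FK c w K r) := by
    rw [Complex.mul_conj']
    push_cast
    rfl
  rw [h1]
  unfold FK
  rw [map_sum, Finset.sum_mul_sum]
  refine Finset.sum_congr rfl (fun M _ => Finset.sum_congr rfl (fun N _ => ?_))
  rw [map_mul, ← Complex.exp_conj, Complex.conj_ofReal, map_neg, map_mul, map_mul,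
    Complex.conj_ofReal, Complex.conj_natCast]
  have h2 : (c M : ℂ) * cexp (-((M : ℂ) * (w * r))) *
      ((c N : ℂ) * cexp (-((N : ℂ) * ((starRingEnd ℂ) w * r)))) =
      ((c M : ℂ) * (c N : ℂ)) * (cexp (-((M : ℂ) * (w * r))) *
        cexp (-((N : ℂ) * ((starRingEnd ℂ) w * r)))) := by ring
  rw [h2, ← Complex.exp_add]
  push_cast
  congr 2
  ring

theorem eMN_re {w : ℂ} (M N : ℕ) :
    (-((M : ℂ) * w + (N : ℂ) * (starRingEnd ℂ) w)).re = -((M + N : ℝ) * w.re) := by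
  simp
  ring

theorem eMN_im {w : ℂ} (M N : ℕ) :
    (-((M : ℂ) * w + (N : ℂ) * (starRingEnd ℂ) w)).im = -(((M : ℝ) - N) * w.im) := by
  simp
  ring

theorem FK_int {c : ℕ → ℝ} {w : ℂ} (hw : 0 < w.re) (hi : 1 / 2 ≤ |w.im|) {R : ℝ}
    (K : ℕ) :
    ∫ r in Ioi R, ‖FK c w K r‖ ^ 2 ≤
      (∑ N ∈ Finset.Icc 1 K, c N ^ 2 * Real.exp (-(2 * (N * (w.re * R)))) / (2 * N * w.re)) +
        2 * (∑ N ∈ Finset.Icc 1 K, |c N| * Real.exp (-(N * (w.re * R)))) ^ 2 := by
  have he : ∀ M ∈ Finset.Icc 1 K, ∀ N ∈ Finset.Icc 1 K,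
      (-((M : ℂ) * w + (N : ℂ) * (starRingEnd ℂ) w)).re < 0 := by
    intro M hM N hN
    rw [eMN_re]
    have h1 : (1:ℝ) ≤ M := by exact_mod_cast (Finset.mem_Icc.1 hM).1
    have h2 : (1:ℝ) ≤ N := by exact_mod_cast (Finset.mem_Icc.1 hN).1
    have h3 : 0 < (M + N : ℝ) * w.re := by positivity
    linarith
  have h2 : ((∫ r in Ioi R, ‖FK c w K r‖ ^ 2 : ℝ) : ℂ) =
      ∑ M ∈ Finset.Icc 1 K, ∑ N ∈ Finset.Icc 1 K, ((c M * c N : ℝ) : ℂ) *
        (-cexp (-((M : ℂ) * w + (N : ℂ) * (starRingEnd ℂ) w) * R) /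
          -((M : ℂ) * w + (N : ℂ) * (starRingEnd ℂ) w)) := by
    rw [← integral_complex_ofReal]
    simp_rw [FK_sq]
    rw [integral_finsetSum]
    · refine Finset.sum_congr rfl (fun M hM => ?_)
      rw [integral_finsetSum]
      · refine Finset.sum_congr rfl (fun N hN => ?_)
        rw [integral_const_mul, integral_exp_mul_complex_Ioi (he M hM N hN)]
      · intro N hN
        exact (integrableOn_exp_mul_complex_Ioi (he M hM N hN) R).const_mul _
    · intro M hM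
      refine integrable_finsetSum _ (fun N hN => ?_)
      exact (integrableOn_exp_mul_complex_Ioi (he M hM N hN) R).const_mul _
  have h3 : ∫ r in Ioi R, ‖FK c w K r‖ ^ 2 ≤
      ∑ M ∈ Finset.Icc 1 K, ∑ N ∈ Finset.Icc 1 K, |c M * c N| *
        (Real.exp (-((M + N : ℝ) * (w.re * R))) /
          ‖-((M : ℂ) * w + (N : ℂ) * (starRingEnd ℂ) w)‖) := by
    have h4 : ∫ r in Ioi R, ‖FK c w K r‖ ^ 2 ≤ ‖((∫ r in Ioi R, ‖FK c w K r‖ ^ 2 : ℝ) : ℂ)‖ := by
      rw [Complex.norm_real]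
      exact Real.le_norm_self _
    refine h4.trans ?_
    rw [h2]
    refine (norm_sum_le _ _).trans (Finset.sum_le_sum (fun M _ => ?_))
    refine (norm_sum_le _ _).trans (Finset.sum_le_sum (fun N _ => ?_))
    rw [norm_mul, Complex.norm_real, Real.norm_eq_abs, norm_div, norm_neg (cexp _),
      Complex.norm_exp]
    have h5 : (-((M : ℂ) * w + (N : ℂ) * (starRingEnd ℂ) w) * R).re =
        -((M + N : ℝ) * (w.re * R)) := by
      rw [Complex.re_mul_ofReal, eMN_re]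
      ring
    rw [h5]
  refine h3.trans ?_
  have h4 : ∀ M ∈ Finset.Icc 1 K, ∀ N ∈ Finset.Icc 1 K, |c M * c N| *
        (Real.exp (-((M + N : ℝ) * (w.re * R))) /
          ‖-((M : ℂ) * w + (N : ℂ) * (starRingEnd ℂ) w)‖) ≤
      (if M = N then c N ^ 2 * Real.exp (-(2 * (N * (w.re * R)))) / (2 * N * w.re) else 0) +
        2 * ((|c M| * Real.exp (-(M * (w.re * R)))) * (|c N| * Real.exp (-(N * (w.re * R))))) := by
    intro M hM N hN
    have hM1 : (1:ℝ) ≤ M := by exact_mod_cast (Finset.mem_Icc.1 hM).1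
    have hN1 : (1:ℝ) ≤ N := by exact_mod_cast (Finset.mem_Icc.1 hN).1
    have hexp : Real.exp (-((M + N : ℝ) * (w.re * R))) =
        Real.exp (-(M * (w.re * R))) * Real.exp (-(N * (w.re * R))) := by
      rw [← Real.exp_add]
      congr 1
      ring
    by_cases hMN : M = N
    · subst hMN
      rw [if_pos rfl]
      have h5 : (2 * M * w.re : ℝ) ≤ ‖-((M : ℂ) * w + (M : ℂ) * (starRingEnd ℂ) w)‖ := by
        refine le_trans ?_ (Complex.abs_re_le_norm _)
        rw [eMN_re, abs_neg]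
        refine le_trans ?_ (le_abs_self _)
        linarith
      have h6 : 0 < (2 * M * w.re : ℝ) := by positivity
      have h7 : |c M * c M| = c M ^ 2 := by rw [abs_mul_self, sq]
      have h8 : Real.exp (-((M + M : ℝ) * (w.re * R))) = Real.exp (-(2 * (M * (w.re * R)))) := by
        congr 1
        ring
      rw [h7, h8]
      have h9 : c M ^ 2 * (Real.exp (-(2 * (M * (w.re * R)))) /
          ‖-((M : ℂ) * w + (M : ℂ) * (starRingEnd ℂ) w)‖) ≤
          c M ^ 2 * Real.exp (-(2 * (M * (w.re * R)))) / (2 * M * w.re) := by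
        rw [mul_div_assoc]
        refine mul_le_mul_of_nonneg_left ?_ (sq_nonneg _)
        exact div_le_div_of_nonneg_left (Real.exp_pos _).le h6 h5
      have h10 : 0 ≤ 2 * ((|c M| * Real.exp (-(M * (w.re * R)))) *
          (|c M| * Real.exp (-(M * (w.re * R))))) := by positivity
      linarith
    · rw [if_neg hMN, zero_add]
      have h5 : (1 / 2 : ℝ) ≤ ‖-((M : ℂ) * w + (N : ℂ) * (starRingEnd ℂ) w)‖ := by
        refine le_trans ?_ (Complex.abs_im_le_norm _)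
        rw [eMN_im, abs_neg, abs_mul]
        have h6 : (1:ℝ) ≤ |(M : ℝ) - N| := by
          have h7 : (1:ℤ) ≤ |(M : ℤ) - N| := by
            apply Int.one_le_abs
            intro h8
            apply hMN
            have : (M : ℤ) = N := by linarith
            exact_mod_cast this
          have h8 : ((1:ℤ) : ℝ) ≤ ((|(M : ℤ) - N| : ℤ) : ℝ) := by exact_mod_cast h7
          push_cast at h8
          exact h8
        nlinarith [abs_nonneg w.im]
      have h6 : Real.exp (-((M + N : ℝ) * (w.re * R))) /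
          ‖-((M : ℂ) * w + (N : ℂ) * (starRingEnd ℂ) w)‖ ≤
          Real.exp (-((M + N : ℝ) * (w.re * R))) / (1 / 2) :=
        div_le_div_of_nonneg_left (Real.exp_pos _).le (by norm_num) h5
      refine (mul_le_mul_of_nonneg_left h6 (abs_nonneg _)).trans ?_
      rw [hexp, abs_mul]
      apply le_of_eq
      ring
  refine (Finset.sum_le_sum (fun M hM => Finset.sum_le_sum (fun N hN => h4 M hM N hN))).trans ?_
  simp_rw [Finset.sum_add_distrib]
  refine add_le_add ?_ ?_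
  · apply le_of_eq
    refine Finset.sum_congr rfl (fun M hM => ?_)
    rw [Finset.sum_ite_eq, if_pos hM]
  · apply le_of_eq
    rw [sq, Finset.sum_mul_sum, Finset.mul_sum]
    refine Finset.sum_congr rfl (fun M _ => ?_)
    rw [Finset.mul_sum]

theorem wt1 {P y κ n : ℝ} (hP : 1 ≤ P) (hκ0 : 0 < κ) (hκ2 : κ ≤ 2) (hn : 1 ≤ n)
    (hy : n ≤ P * y) : n ^ κ * Real.exp (-y) ≤ 4 * P ^ κ := by
  have hy0 : 0 < y := by
    by_contra h
    have : P * y ≤ 0 := mul_nonpos_of_nonneg_of_nonpos (by linarith) (not_lt.1 h)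
    linarith
  have h1 : n ^ κ ≤ P ^ κ * y ^ κ := by
    rw [← Real.mul_rpow (by linarith) hy0.le]
    exact Real.rpow_le_rpow (by linarith) hy hκ0.le
  have h2 : y ^ κ ≤ 4 * Real.exp y := by
    have h3 : y ^ κ ≤ (1 + y) ^ κ := Real.rpow_le_rpow hy0.le (by linarith) hκ0.le
    have h4 : (1 + y) ^ κ ≤ (1 + y) ^ (2:ℝ) :=
      Real.rpow_le_rpow_of_exponent_le (by linarith) hκ2
    have h5 : (1 + y) ≤ 2 * Real.exp (y / 2) := by
      have := Real.add_one_le_exp (y / 2)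
      linarith
    have h6 : (1 + y) ^ (2:ℝ) ≤ 4 * Real.exp y := by
      rw [Real.rpow_two]
      have h7 : (1 + y) ^ 2 ≤ (2 * Real.exp (y / 2)) ^ 2 := pow_le_pow_left₀ (by linarith) h5 2
      have h8 : (2 * Real.exp (y / 2)) ^ 2 = 4 * Real.exp y := by
        rw [mul_pow, ← Real.exp_nat_mul]
        congr 1
        · norm_num
        · congr 1
          push_cast
          ring
      linarith
    linarith
  have hP0 : 0 < P ^ κ := Real.rpow_pos_of_pos (by linarith) _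
  calc n ^ κ * Real.exp (-y) ≤ (P ^ κ * y ^ κ) * Real.exp (-y) :=
        mul_le_mul_of_nonneg_right h1 (Real.exp_pos _).le
    _ ≤ (P ^ κ * (4 * Real.exp y)) * Real.exp (-y) := by
        refine mul_le_mul_of_nonneg_right ?_ (Real.exp_pos _).le
        exact mul_le_mul_of_nonneg_left h2 hP0.le
    _ = 4 * P ^ κ := by
        have : Real.exp y * Real.exp (-y) = 1 := by rw [← Real.exp_add]; simp
        linear_combination (4 * P ^ κ) * this

theorem wt2 {P y κ n : ℝ} (hP : 1 ≤ P) (hκ0 : 0 < κ) (hκ2 : κ ≤ 2) (hn : 1 ≤ n)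
    (hy : n ≤ P * y) : n ^ (1 + κ) * Real.exp (-y) ≤ 27 * P ^ (1 + κ) := by
  have hy0 : 0 < y := by
    by_contra h
    have : P * y ≤ 0 := mul_nonpos_of_nonneg_of_nonpos (by linarith) (not_lt.1 h)
    linarith
  have h1 : n ^ (1 + κ) ≤ P ^ (1 + κ) * y ^ (1 + κ) := by
    rw [← Real.mul_rpow (by linarith) hy0.le]
    exact Real.rpow_le_rpow (by linarith) hy (by linarith)
  have h2 : y ^ (1 + κ) ≤ 27 * Real.exp y := by
    have h3 : y ^ (1 + κ) ≤ (1 + y) ^ (1 + κ) :=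
      Real.rpow_le_rpow hy0.le (by linarith) (by linarith)
    have h4 : (1 + y) ^ (1 + κ) ≤ (1 + y) ^ (3:ℝ) :=
      Real.rpow_le_rpow_of_exponent_le (by linarith) (by linarith)
    have h5 : (1 + y) ≤ 3 * Real.exp (y / 3) := by
      have := Real.add_one_le_exp (y / 3)
      linarith
    have h6 : (1 + y) ^ (3:ℝ) ≤ 27 * Real.exp y := by
      have h6' : (1 + y) ^ (3:ℝ) = (1 + y) ^ (3:ℕ) := by
        rw [← Real.rpow_natCast]
        norm_num
      rw [h6']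
      have h7 : (1 + y) ^ 3 ≤ (3 * Real.exp (y / 3)) ^ 3 := pow_le_pow_left₀ (by linarith) h5 3
      have h8 : (3 * Real.exp (y / 3)) ^ 3 = 27 * Real.exp y := by
        rw [mul_pow, ← Real.exp_nat_mul]
        congr 1
        · norm_num
        · congr 1
          push_cast
          ring
      linarith
    linarith
  have hP0 : 0 < P ^ (1 + κ) := Real.rpow_pos_of_pos (by linarith) _
  calc n ^ (1 + κ) * Real.exp (-y) ≤ (P ^ (1 + κ) * y ^ (1 + κ)) * Real.exp (-y) :=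
        mul_le_mul_of_nonneg_right h1 (Real.exp_pos _).le
    _ ≤ (P ^ (1 + κ) * (27 * Real.exp y)) * Real.exp (-y) := by
        refine mul_le_mul_of_nonneg_right ?_ (Real.exp_pos _).le
        exact mul_le_mul_of_nonneg_left h2 hP0.le
    _ = 27 * P ^ (1 + κ) := by
        have : Real.exp y * Real.exp (-y) = 1 := by rw [← Real.exp_add]; simp
        linear_combination (27 * P ^ (1 + κ)) * this

theorem zT_re (T : ℝ) : (zT T).re = Real.sin (1 / T) := by
  unfold zT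
  rw [Complex.exp_ofReal_mul_I_re, Real.cos_pi_div_two_sub]

theorem zT_im (T : ℝ) : (zT T).im = Real.cos (1 / T) := by
  unfold zT
  rw [Complex.exp_ofReal_mul_I_im, Real.sin_pi_div_two_sub]

theorem zT_norm (T : ℝ) : ‖zT T‖ = 1 := by
  unfold zT
  exact Complex.norm_exp_ofReal_mul_I _

theorem sin_ge {T : ℝ} (hT : 1 ≤ T) : 1 / (2 * T) ≤ Real.sin (1 / T) := by
  have hT0 : 0 < T := by linarith
  have h1 : 0 ≤ 1 / T := by positivity
  have h1' : 1 / T ≤ 1 := by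
    rw [div_le_one hT0]
    exact hT
  have h2 : 1 / T ≤ Real.pi / 2 := by
    have := Real.pi_gt_three
    linarith
  have h3 := Real.mul_le_sin h1 h2
  refine le_trans ?_ h3
  have h4 : (1 / 2 : ℝ) ≤ 2 / Real.pi := by
    rw [div_le_div_iff₀ (by norm_num) Real.pi_pos]
    have := Real.pi_le_four
    linarith
  calc 1 / (2 * T) = 1 / 2 * (1 / T) := by
        field_simp
    _ ≤ 2 / Real.pi * (1 / T) := mul_le_mul_of_nonneg_right h4 h1

theorem cos_ge {T : ℝ} (hT : 1 ≤ T) : 1 / 2 ≤ |Real.cos (1 / T)| := by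
  have hT0 : 0 < T := by linarith
  have h1 : 0 ≤ 1 / T := by positivity
  have h1' : 1 / T ≤ 1 := by
    rw [div_le_one hT0]
    exact hT
  have h2 := Real.one_sub_sq_div_two_le_cos (x := 1 / T)
  have h3 : (1 / T) ^ 2 ≤ 1 := pow_le_one₀ h1 h1'
  refine le_trans ?_ (le_abs_self _)
  linarith

/-- The sum function. -/
noncomputable def Fr (a : ℕ → ℝ) (Y : ℕ) (w : ℂ) (r : ℝ) : ℂ :=
  ∑ h ∈ Finset.Icc 1 Y, (a h : ℂ) * (1 / (cexp ((h : ℂ) * (w * r)) - 1))

theorem FK_tendsto (a : ℕ → ℝ) (Y : ℕ) {w : ℂ} (hw : 0 < w.re) {r : ℝ} (hr : 0 < r) :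
    Filter.Tendsto (fun K : ℕ => FK (cN a Y) w K r) Filter.atTop (nhds (Fr a Y w r)) := by
  have hz : 0 < (w * r).re := by
    rw [Complex.re_mul_ofReal]
    exact mul_pos hw hr
  have h1 := (fser a Y hz).tendsto_sum_nat
  have h2 := (Filter.tendsto_add_atTop_iff_nat 1).2 h1
  refine h2.congr (fun K => ?_)
  unfold FK
  symm
  apply Finset.sum_subset
  · intro N hN
    rw [Finset.mem_range]
    have := (Finset.mem_Icc.1 hN).2
    omega
  · intro N hN hN'
    have hN0 : N = 0 := by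
      by_contra h
      apply hN'
      rw [Finset.mem_Icc]
      have := Finset.mem_range.1 hN
      omega
    rw [hN0, cN_zero]
    simp

theorem Fr_int (a : ℕ → ℝ) (Y : ℕ) {w : ℂ} (hw : 0 < w.re) {R B : ℝ} (hR : 0 < R)
    (hB : ∀ K : ℕ, ∫ r in Ioi R, ‖FK (cN a Y) w K r‖ ^ 2 ≤ B) :
    IntegrableOn (fun r : ℝ => ‖Fr a Y w r‖ ^ 2) (Ioi R) ∧
      ∫ r in Ioi R, ‖Fr a Y w r‖ ^ 2 ≤ B := by
  set A : ℝ := ∑ h ∈ Finset.Icc 1 Y, |a h| with hA
  set A' : ℝ := A / (1 - Real.exp (-(w.re * R))) with hA'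
  have hbound : ∀ K : ℕ, ∀ r ∈ Ioi R, ‖FK (cN a Y) w K r‖ ≤ A' * Real.exp (-(w.re * r)) :=
    fun K r hr => FK_le (cN_le a Y) hw hR (le_of_lt hr) K
  have hA'0 : 0 ≤ A' := by
    rw [hA', hA]
    apply div_nonneg (Finset.sum_nonneg (fun _ _ => abs_nonneg _))
    have : Real.exp (-(w.re * R)) ≤ 1 := by
      rw [Real.exp_le_one_iff]
      have : 0 < w.re * R := mul_pos hw hR
      linarith
    linarith
  have hdom : IntegrableOn (fun r : ℝ => A' ^ 2 * Real.exp (-(2 * w.re) * r)) (Ioi R) :=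
    (integrableOn_exp_mul_Ioi (by linarith) R).const_mul _
  have hb2 : ∀ K : ℕ, ∀ r ∈ Ioi R, ‖FK (cN a Y) w K r‖ ^ 2 ≤
      A' ^ 2 * Real.exp (-(2 * w.re) * r) := by
    intro K r hr
    have h1 := pow_le_pow_left₀ (norm_nonneg _) (hbound K r hr) 2
    refine h1.trans (le_of_eq ?_)
    rw [mul_pow, ← Real.exp_nat_mul]
    congr 2
    push_cast
    ring
  have hmeas : ∀ K : ℕ, AEStronglyMeasurable (fun r : ℝ => ‖FK (cN a Y) w K r‖ ^ 2)
      (volume.restrict (Ioi R)) := by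
    intro K
    apply Continuous.aestronglyMeasurable
    unfold FK
    fun_prop
  have hlim : ∀ r ∈ Ioi R, Filter.Tendsto (fun K : ℕ => ‖FK (cN a Y) w K r‖ ^ 2) Filter.atTop
      (nhds (‖Fr a Y w r‖ ^ 2)) :=
    fun r hr => ((FK_tendsto a Y hw (hR.trans hr)).norm).pow 2
  have hT := tendsto_integral_of_dominated_convergence
    (μ := volume.restrict (Ioi R))
    (F := fun K r => ‖FK (cN a Y) w K r‖ ^ 2) (f := fun r => ‖Fr a Y w r‖ ^ 2)
    (fun r => A' ^ 2 * Real.exp (-(2 * w.re) * r)) hmeas hdom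
    (fun K => by
      rw [ae_restrict_iff' measurableSet_Ioi]
      refine Filter.Eventually.of_forall (fun r hr => ?_)
      rw [Real.norm_eq_abs, abs_of_nonneg (sq_nonneg _)]
      exact hb2 K r hr)
    (by
      rw [ae_restrict_iff' measurableSet_Ioi]
      exact Filter.Eventually.of_forall (fun r hr => hlim r hr))
  refine ⟨?_, le_of_tendsto' hT hB⟩
  refine Integrable.mono' hdom ?_ ?_
  · refine aestronglyMeasurable_of_tendsto_ae Filter.atTop hmeas ?_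
    rw [ae_restrict_iff' measurableSet_Ioi]
    exact Filter.Eventually.of_forall (fun r hr => hlim r hr)
  · rw [ae_restrict_iff' measurableSet_Ioi]
    refine Filter.Eventually.of_forall (fun r hr => ?_)
    rw [Real.norm_eq_abs, abs_of_nonneg (sq_nonneg _)]
    exact le_of_tendsto' (hlim r hr) (fun K => hb2 K r hr)

theorem Gr_eq (a : ℕ → ℝ) (Y : ℕ) (w : ℂ) (r : ℝ) :
    Gr a Y w r = Fr a Y w r - ∑ h ∈ Finset.Icc 1 Y, (a h : ℂ) * (1 / ((h : ℂ) * (w * r))) := by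
  unfold Gr Fr phi
  rw [← Finset.sum_sub_distrib]
  refine Finset.sum_congr rfl (fun h _ => ?_)
  rw [← mul_sub, mul_assoc (h : ℂ) w (r : ℂ)]

theorem G_le (a : ℕ → ℝ) (Y : ℕ) {w : ℂ} (hw : ‖w‖ = 1) {r : ℝ} (hr : 0 < r) :
    ‖∑ h ∈ Finset.Icc 1 Y, (a h : ℂ) * (1 / ((h : ℂ) * (w * r)))‖ ≤
      (∑ h ∈ Finset.Icc 1 Y, |a h|) / r := by
  refine (norm_sum_le _ _).trans ?_
  rw [Finset.sum_div]
  refine Finset.sum_le_sum (fun h hh => ?_)
  have h1 : (1:ℝ) ≤ h := by exact_mod_cast (Finset.mem_Icc.1 hh).1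
  rw [norm_mul, Complex.norm_real, Real.norm_eq_abs, norm_div, norm_one, norm_mul, norm_mul, hw,
    one_mul, Complex.norm_natCast, Complex.norm_real, Real.norm_eq_abs, abs_of_pos hr]
  have h2 : 1 / ((h : ℝ) * r) ≤ 1 / r := by
    apply div_le_div_of_nonneg_left (by norm_num) hr
    nlinarith
  calc |a h| * (1 / ((h : ℝ) * r)) ≤ |a h| * (1 / r) :=
        mul_le_mul_of_nonneg_left h2 (abs_nonneg _)
    _ = |a h| / r := by ring

theorem bnd_K {T : ℝ} (a : ℕ → ℝ) {Y : ℕ} (hY : 2 ≤ Y) (hT : (Y : ℝ) ^ 12 ≤ T) (K : ℕ) :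
    ∫ r in Ioi (T / (Y : ℝ) ^ 5), ‖FK (cN a Y) (zT T) K r‖ ^ 2 ≤
      2640 * Real.exp 5 * T * Real.log Y * (∑ q ∈ Finset.Icc 1 Y,
        (q : ℝ) ^ (1 + 1 / Real.log Y) * yq a Y (1 / Real.log Y) q ^ 2) := by
  have hY2 : (2:ℝ) ≤ Y := by exact_mod_cast hY
  have hY0 : (0:ℝ) < Y := by linarith
  have hY12 : (1:ℝ) ≤ (Y:ℝ) ^ 12 := one_le_pow₀ (by linarith)
  have hT1 : 1 ≤ T := hY12.trans hT
  have hT0 : 0 < T := by linarith
  have hlog2 : Real.log 2 ≤ Real.log Y := Real.log_le_log (by norm_num) hY2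
  have hl2 := Real.log_two_gt_d9
  have hlog0 : 0 < Real.log Y := by linarith
  set κ : ℝ := 1 / Real.log Y with hκ
  have hκ0 : 0 < κ := by positivity
  have hκ2 : κ ≤ 2 := by
    rw [hκ, div_le_iff₀ hlog0]
    linarith
  set R : ℝ := T / (Y : ℝ) ^ 5 with hRdef
  have hR : 0 < R := by positivity
  set w : ℂ := zT T with hwdef
  have hs : 1 / (2 * T) ≤ w.re := by
    rw [hwdef, zT_re]
    exact sin_ge hT1
  have hw : 0 < w.re := lt_of_lt_of_le (by positivity) hs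
  have hi : 1 / 2 ≤ |w.im| := by
    rw [hwdef, zT_im]
    exact cos_ge hT1
  set P : ℝ := 2 * (Y : ℝ) ^ 5 with hP
  have hP1 : 1 ≤ P := by
    have : (1:ℝ) ≤ (Y:ℝ) ^ 5 := one_le_pow₀ (by linarith)
    rw [hP]
    linarith
  set u : ℝ := w.re * R with hu
  have hu0 : 0 < u := mul_pos hw hR
  have hPu : 1 ≤ P * u := by
    have h1 : 1 / (2 * T) * R ≤ u := mul_le_mul_of_nonneg_right hs hR.le
    have h2 : 1 / (2 * T) * R = 1 / P := by
      rw [hRdef, hP]
      field_simp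
    rw [h2] at h1
    have hP0 : 0 < P := by linarith
    calc (1:ℝ) = P * (1 / P) := by field_simp
      _ ≤ P * u := mul_le_mul_of_nonneg_left h1 hP0.le
  refine (FK_int (c := cN a Y) hw hi (R := R) K).trans ?_
  rw [← hu]
  -- the weights
  have hPκ : P ^ κ ≤ 4 * Real.exp 5 := by
    rw [hP, Real.mul_rpow (by norm_num) (by positivity)]
    have h1 : (2:ℝ) ^ κ ≤ 4 := by
      have := Real.rpow_le_rpow_of_exponent_le (x := 2) (by norm_num) hκ2
      refine this.trans ?_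
      rw [Real.rpow_two]
      norm_num
    have h2 : ((Y : ℝ) ^ 5) ^ κ = Real.exp 5 := by
      rw [← Real.rpow_natCast, ← Real.rpow_mul hY0.le, Real.rpow_def_of_pos hY0, hκ]
      congr 1
      push_cast
      field_simp
    rw [h2]
    exact mul_le_mul_of_nonneg_right h1 (Real.exp_pos _).le
  have hPκ0 : 0 < P ^ κ := Real.rpow_pos_of_pos (by linarith) _
  set S : ℝ := ∑ N ∈ Finset.Icc 1 K, cN a Y N ^ 2 * (N : ℝ) ^ (-(1 + κ)) with hS
  have hS0 : 0 ≤ S := Finset.sum_nonneg (fun N _ => by positivity)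
  have hN : ∀ N ∈ Finset.Icc 1 K, (1:ℝ) ≤ N := fun N hN => by
    exact_mod_cast (Finset.mem_Icc.1 hN).1
  have hNy : ∀ N ∈ Finset.Icc 1 K, (N:ℝ) ≤ P * (N * u) := by
    intro N hN'
    have := hN N hN'
    nlinarith
  have hA : ∑ N ∈ Finset.Icc 1 K, cN a Y N ^ 2 * Real.exp (-(2 * (N * u))) / (2 * N * w.re) ≤
      4 * P ^ κ * T * S := by
    rw [hS, Finset.mul_sum]
    refine Finset.sum_le_sum (fun N hN' => ?_)
    have h1 := hN N hN'
    have h2 := wt1 hP1 hκ0 hκ2 h1 (hNy N hN')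
    have h3 : 1 / (2 * N * w.re) ≤ T / N := by
      rw [div_le_div_iff₀ (by positivity) (by linarith)]
      have h4 : 1 ≤ 2 * T * w.re := by
        have := mul_le_mul_of_nonneg_left hs (show (0:ℝ) ≤ 2 * T by positivity)
        have h5 : 2 * T * (1 / (2 * T)) = 1 := by field_simp
        linarith
      nlinarith
    have h4 : Real.exp (-(2 * (N * u))) ≤ Real.exp (-(N * u)) := by
      apply Real.exp_le_exp.2
      nlinarith
    have h5 : Real.exp (-(2 * (N * u))) / (2 * N * w.re) ≤ Real.exp (-(N * u)) * (T / N) := by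
      rw [div_eq_mul_one_div]
      exact mul_le_mul h4 h3 (by positivity) (Real.exp_pos _).le
    have h6 : Real.exp (-(N * u)) * (T / N) ≤ 4 * P ^ κ * T * (N : ℝ) ^ (-(1 + κ)) := by
      have hN0 : (0:ℝ) < N := by linarith
      have h7 : (N : ℝ) ^ (-(1 + κ)) = ((N : ℝ) ^ κ)⁻¹ * (N : ℝ)⁻¹ := by
        rw [Real.rpow_neg hN0.le, Real.rpow_add hN0, Real.rpow_one, mul_inv, mul_comm]
      have h8 : 0 < (N : ℝ) ^ κ := Real.rpow_pos_of_pos hN0 _
      have h9 : Real.exp (-(N * u)) ≤ 4 * P ^ κ * ((N : ℝ) ^ κ)⁻¹ := by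
        rw [← div_eq_mul_inv, le_div_iff₀ h8, mul_comm]
        exact h2
      rw [h7]
      calc Real.exp (-(N * u)) * (T / N) ≤ (4 * P ^ κ * ((N : ℝ) ^ κ)⁻¹) * (T / N) :=
            mul_le_mul_of_nonneg_right h9 (by positivity)
        _ = 4 * P ^ κ * T * (((N : ℝ) ^ κ)⁻¹ * (N : ℝ)⁻¹) := by
            rw [div_eq_mul_inv]
            ring
    calc cN a Y N ^ 2 * Real.exp (-(2 * (N * u))) / (2 * N * w.re) =
          cN a Y N ^ 2 * (Real.exp (-(2 * (N * u))) / (2 * N * w.re)) := by ring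
      _ ≤ cN a Y N ^ 2 * (4 * P ^ κ * T * (N : ℝ) ^ (-(1 + κ))) :=
          mul_le_mul_of_nonneg_left (h5.trans h6) (sq_nonneg _)
      _ = _ := by ring
  have hB1 : ∑ N ∈ Finset.Icc 1 K, Real.exp (-(N * u)) ≤ P := by
    have hx1 : Real.exp (-u) < 1 := by
      rw [Real.exp_lt_one_iff]
      linarith
    have h1 := geo_fin (Real.exp_pos (-u)).le hx1 K
    have h2 : ∑ N ∈ Finset.Icc 1 K, Real.exp (-(N * u)) =
        ∑ N ∈ Finset.Icc 1 K, Real.exp (-u) ^ N := by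
      refine Finset.sum_congr rfl (fun N _ => ?_)
      rw [← Real.exp_nat_mul]
      congr 1
      ring
    rw [h2]
    refine h1.trans ?_
    rw [div_le_iff₀ (by linarith)]
    have h3 : Real.exp (-u) * (1 + u) ≤ 1 := by
      have h4 := Real.add_one_le_exp u
      calc Real.exp (-u) * (1 + u) ≤ Real.exp (-u) * Real.exp u := by
            refine mul_le_mul_of_nonneg_left ?_ (Real.exp_pos _).le
            linarith
        _ = 1 := by rw [← Real.exp_add]; simp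
    have h5 : 0 < Real.exp (-u) := Real.exp_pos _
    nlinarith
  have hB2 : (∑ N ∈ Finset.Icc 1 K, |cN a Y N| * Real.exp (-(N * u))) ^ 2 ≤
      (∑ N ∈ Finset.Icc 1 K, cN a Y N ^ 2 * Real.exp (-(N * u))) *
        ∑ N ∈ Finset.Icc 1 K, Real.exp (-(N * u)) := by
    have h1 := Finset.sum_mul_sq_le_sq_mul_sq (Finset.Icc 1 K)
      (fun N : ℕ => |cN a Y N| * Real.exp (-(N * u / 2))) (fun N : ℕ => Real.exp (-(N * u / 2)))
    have hh : ∀ N : ℕ, Real.exp (-(N * u / 2)) * Real.exp (-(N * u / 2)) =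
        Real.exp (-(N * u)) := by
      intro N
      rw [← Real.exp_add]
      congr 1
      ring
    have h2 : ∀ N : ℕ, |cN a Y N| * Real.exp (-(N * u / 2)) * Real.exp (-(N * u / 2)) =
        |cN a Y N| * Real.exp (-(N * u)) := by
      intro N
      rw [mul_assoc, hh]
    have h3 : ∀ N : ℕ, (|cN a Y N| * Real.exp (-(N * u / 2))) ^ 2 =
        cN a Y N ^ 2 * Real.exp (-(N * u)) := by
      intro N
      rw [mul_pow, sq_abs, sq (Real.exp _), hh]
    have h4 : ∀ N : ℕ, Real.exp (-(N * u / 2)) ^ 2 = Real.exp (-(N * u)) := by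
      intro N
      rw [sq, hh]
    simp_rw [h2, h3, h4] at h1
    exact h1
  have hB3 : ∑ N ∈ Finset.Icc 1 K, cN a Y N ^ 2 * Real.exp (-(N * u)) ≤
      27 * P ^ (1 + κ) * S := by
    rw [hS, Finset.mul_sum]
    refine Finset.sum_le_sum (fun N hN' => ?_)
    have h1 := hN N hN'
    have h2 := wt2 hP1 hκ0 hκ2 h1 (hNy N hN')
    have hN0 : (0:ℝ) < N := by linarith
    have h8 : 0 < (N : ℝ) ^ (1 + κ) := Real.rpow_pos_of_pos hN0 _
    have h9 : Real.exp (-(N * u)) ≤ 27 * P ^ (1 + κ) * (N : ℝ) ^ (-(1 + κ)) := by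
      rw [Real.rpow_neg hN0.le, ← div_eq_mul_inv, le_div_iff₀ h8, mul_comm]
      exact h2
    calc cN a Y N ^ 2 * Real.exp (-(N * u)) ≤
          cN a Y N ^ 2 * (27 * P ^ (1 + κ) * (N : ℝ) ^ (-(1 + κ))) :=
          mul_le_mul_of_nonneg_left h9 (sq_nonneg _)
      _ = _ := by ring
  have hP0 : 0 < P := by linarith
  have hPP : P * P ^ (1 + κ) ≤ 4 * T * P ^ κ := by
    rw [Real.rpow_add hP0, Real.rpow_one]
    have h1 : P * P ≤ 4 * T := by
      have h2 : P * P = 4 * (Y:ℝ) ^ 10 := by rw [hP]; ring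
      have h3 : (Y:ℝ) ^ 10 ≤ (Y:ℝ) ^ 12 := pow_le_pow_right₀ (by linarith) (by norm_num)
      rw [h2]
      linarith
    calc P * (P * P ^ κ) = (P * P) * P ^ κ := by ring
      _ ≤ 4 * T * P ^ κ := mul_le_mul_of_nonneg_right h1 hPκ0.le
  have hB : (∑ N ∈ Finset.Icc 1 K, |cN a Y N| * Real.exp (-(N * u))) ^ 2 ≤
      108 * P ^ κ * T * S := by
    have hnn : 0 ≤ 27 * P ^ (1 + κ) * S := by positivity
    calc (∑ N ∈ Finset.Icc 1 K, |cN a Y N| * Real.exp (-(N * u))) ^ 2 ≤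
          (27 * P ^ (1 + κ) * S) * P :=
          hB2.trans (mul_le_mul hB3 hB1
            (Finset.sum_nonneg (fun _ _ => (Real.exp_pos _).le)) hnn)
      _ = 27 * S * (P * P ^ (1 + κ)) := by ring
      _ ≤ 27 * S * (4 * T * P ^ κ) := mul_le_mul_of_nonneg_left hPP (by positivity)
      _ = 108 * P ^ κ * T * S := by ring
  have htot : (∑ N ∈ Finset.Icc 1 K, cN a Y N ^ 2 * Real.exp (-(2 * (N * u))) / (2 * N * w.re)) +
      2 * (∑ N ∈ Finset.Icc 1 K, |cN a Y N| * Real.exp (-(N * u))) ^ 2 ≤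
      220 * P ^ κ * T * S := by linarith
  refine htot.trans ?_
  -- the quadratic form
  have hQF := quad_form hκ0 a Y
  set Q : ℝ := ∑ q ∈ Finset.Icc 1 Y, (q : ℝ) ^ (1 + κ) * yq a Y κ q ^ 2 with hQ
  have hQ0 : 0 ≤ Q := Finset.sum_nonneg (fun q _ => by positivity)
  have hSQ : S ≤ (1 + 1 / κ) * Q := by
    refine le_trans ?_ hQF.2
    have h1 : S = ∑ N ∈ Finset.Icc 1 K, (∑ h ∈ (Finset.Icc 1 Y).filter (fun h => h ∣ N), a h) ^ 2 *
      (N : ℝ) ^ (-(1 + κ)) := by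
      rw [hS]
      refine Finset.sum_congr rfl (fun N hN' => ?_)
      unfold cN
      rw [if_neg]
      have := (Finset.mem_Icc.1 hN').1
      omega
    rw [h1]
    exact hQF.1.sum_le_tsum _ (fun N _ => by positivity)
  have hκl : 1 / κ = Real.log Y := by
    rw [hκ, one_div_one_div]
  have h3 : S ≤ 3 * Real.log Y * Q := by
    refine hSQ.trans (mul_le_mul_of_nonneg_right ?_ hQ0)
    rw [hκl]
    linarith
  calc 220 * P ^ κ * T * S ≤ 220 * (4 * Real.exp 5) * T * (3 * Real.log Y * Q) := by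
        apply mul_le_mul _ h3 hS0 (by positivity)
        exact mul_le_mul_of_nonneg_right (mul_le_mul_of_nonneg_left hPκ (by norm_num)) hT0.le
    _ = 2640 * Real.exp 5 * T * Real.log Y * Q := by ring

end TIIx

theorem region2 : ∃ C : ℝ, 0 < C ∧ ∀ (T : ℝ) (a : ℕ → ℝ) (Y : ℕ), 2 ≤ Y → (Y : ℝ) ^ 12 ≤ T →
    ∫ r in Ioi (T / (Y : ℝ) ^ 5), ‖Gr a Y (zT T) r‖ ^ 2 ≤
      C * T * Real.log Y * (∑ q ∈ Finset.Icc 1 Y, (q : ℝ) ^ (1 + 1 / Real.log Y) *
        yq a Y (1 / Real.log Y) q ^ 2) +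
        C * T / (Y : ℝ) ^ 3 * (∑ h ∈ Finset.Icc 1 Y, |a h|) ^ 2 := by
  refine ⟨5280 * Real.exp 5 + 2, by positivity, fun T a Y hY hT => ?_⟩
  have hY2 : (2:ℝ) ≤ Y := by exact_mod_cast hY
  have hY0 : (0:ℝ) < Y := by linarith
  have hY12 : (1:ℝ) ≤ (Y:ℝ) ^ 12 := one_le_pow₀ (by linarith)
  have hT1 : 1 ≤ T := hY12.trans hT
  have hT0 : 0 < T := by linarith
  have hlog0 : 0 < Real.log Y := Real.log_pos (by linarith)
  set R : ℝ := T / (Y : ℝ) ^ 5 with hRdef
  have hR : 0 < R := by positivity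
  have hw : 0 < (zT T).re := by
    rw [TIIx.zT_re]
    exact lt_of_lt_of_le (by positivity) (TIIx.sin_ge hT1)
  obtain ⟨hF1, hF2⟩ := TIIx.Fr_int a Y hw hR (fun K => TIIx.bnd_K a hY hT K)
  set Q : ℝ := ∑ q ∈ Finset.Icc 1 Y, (q : ℝ) ^ (1 + 1 / Real.log Y) *
        yq a Y (1 / Real.log Y) q ^ 2 with hQ
  have hQ0 : 0 ≤ Q := Finset.sum_nonneg (fun q _ => by positivity)
  set A : ℝ := ∑ h ∈ Finset.Icc 1 Y, |a h| with hA
  have hG1 : IntegrableOn (fun r : ℝ => A ^ 2 * r ^ (-2:ℝ)) (Ioi R) :=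
    (integrableOn_Ioi_rpow_of_lt (by norm_num) hR).const_mul _
  have hG2 : ∫ r in Ioi R, A ^ 2 * r ^ (-2:ℝ) = A ^ 2 / R := by
    rw [integral_const_mul, integral_Ioi_rpow_of_lt (by norm_num) hR]
    have h1 : R ^ ((-2:ℝ) + 1) = R⁻¹ := by
      rw [show ((-2:ℝ) + 1) = -1 by norm_num, Real.rpow_neg_one]
    rw [h1]
    norm_num
    rfl
  have hle : ∀ r ∈ Ioi R, ‖Gr a Y (zT T) r‖ ^ 2 ≤
      2 * ‖TIIx.Fr a Y (zT T) r‖ ^ 2 + 2 * (A ^ 2 * r ^ (-2:ℝ)) := by
    intro r hr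
    have hr0 : 0 < r := hR.trans hr
    rw [TIIx.Gr_eq]
    have h1 := norm_sub_le (TIIx.Fr a Y (zT T) r)
      (∑ h ∈ Finset.Icc 1 Y, (a h : ℂ) * (1 / ((h : ℂ) * (zT T * r))))
    have h2 := TIIx.G_le a Y (TIIx.zT_norm T) hr0
    have h3 := norm_nonneg (TIIx.Fr a Y (zT T) r)
    have h4 := norm_nonneg (∑ h ∈ Finset.Icc 1 Y, (a h : ℂ) * (1 / ((h : ℂ) * (zT T * r))))
    have h5 : A ^ 2 * r ^ (-2:ℝ) = (A / r) ^ 2 := by
      rw [Real.rpow_neg hr0.le, Real.rpow_two, div_pow, div_eq_mul_inv]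
    rw [h5]
    have h6 := norm_nonneg (TIIx.Fr a Y (zT T) r -
      ∑ h ∈ Finset.Icc 1 Y, (a h : ℂ) * (1 / ((h : ℂ) * (zT T * r))))
    have h7 : ‖TIIx.Fr a Y (zT T) r -
      ∑ h ∈ Finset.Icc 1 Y, (a h : ℂ) * (1 / ((h : ℂ) * (zT T * r)))‖ ≤
      ‖TIIx.Fr a Y (zT T) r‖ + A / r := h1.trans (by linarith)
    have h8 := pow_le_pow_left₀ h6 h7 2
    nlinarith [sq_nonneg (‖TIIx.Fr a Y (zT T) r‖ - A / r)]
  have hI : ∫ r in Ioi R, ‖Gr a Y (zT T) r‖ ^ 2 ≤
      ∫ r in Ioi R, (2 * ‖TIIx.Fr a Y (zT T) r‖ ^ 2 + 2 * (A ^ 2 * r ^ (-2:ℝ))) := by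
    apply integral_mono_of_nonneg
    · exact Filter.Eventually.of_forall (fun r => by positivity)
    · exact (hF1.const_mul 2).add (hG1.const_mul 2)
    · rw [Filter.EventuallyLE, ae_restrict_iff' measurableSet_Ioi]
      exact Filter.Eventually.of_forall hle
  refine hI.trans ?_
  rw [integral_add (hF1.const_mul 2) (hG1.const_mul 2), integral_const_mul, integral_const_mul,
    hG2]
  have hR2 : A ^ 2 / R ≤ T / (Y : ℝ) ^ 3 * A ^ 2 := by
    have h1 : A ^ 2 / R = A ^ 2 * ((Y : ℝ) ^ 5 / T) := by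
      rw [hRdef]
      field_simp
    rw [h1, mul_comm (T / (Y : ℝ) ^ 3)]
    refine mul_le_mul_of_nonneg_left ?_ (sq_nonneg _)
    rw [div_le_div_iff₀ hT0 (by positivity)]
    have h2 : (Y : ℝ) ^ 5 * (Y : ℝ) ^ 3 ≤ (Y : ℝ) ^ 12 := by
      rw [← pow_add]
      exact pow_le_pow_right₀ (by linarith) (by norm_num)
    nlinarith
  have h9 : 0 ≤ T / (Y : ℝ) ^ 3 * A ^ 2 := by positivity
  have h10 : 0 ≤ T * Real.log Y * Q := by positivity
  have h11 : (5280 * Real.exp 5 + 2) * T * Real.log Y * Q =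
      2 * (2640 * Real.exp 5 * T * Real.log Y * Q) + 2 * (T * Real.log Y * Q) := by ring
  have h12 : (5280 * Real.exp 5 + 2) * T / (Y : ℝ) ^ 3 * A ^ 2 =
      5280 * Real.exp 5 * (T / (Y : ℝ) ^ 3 * A ^ 2) + 2 * (T / (Y : ℝ) ^ 3 * A ^ 2) := by ring
  have h13 : 0 ≤ 5280 * Real.exp 5 * (T / (Y : ℝ) ^ 3 * A ^ 2) := by positivity
  rw [h11, h12]
  linarith

end Pool.Agent.ZR
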