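import Pool.Agent.ZR.TI
import Pool.Agent.ZR.TII

/-!
# The twisted second moment of zeta, upper bound
-/

set_option autoImplicit false

open Complex MeasureTheory Set Finset

namespace Pool.Agent.ZR

theorem tsm : ∃ C : ℝ, 0 < C ∧ ∀ (T : ℝ) (a : ℕ → ℝ) (Y : ℕ), 2 ≤ Y → (Y : ℝ) ^ 12 ≤ T →
    Integrable (fun t : ℝ => ‖riemannZeta (1 / 2 + t * I) * DPa a Y (1 / 2 + t * I)‖ ^ 2 *
      Real.exp (-(2 * (t / T) ^ 2))) ∧
    ∫ t : ℝ, ‖riemannZeta (1 / 2 + t * I) * DPa a Y (1 / 2 + t * I)‖ ^ 2 *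
      Real.exp (-(2 * (t / T) ^ 2)) ≤
      C * T * (Real.log T * (∑ q ∈ Finset.Icc 1 Y, (q : ℝ) * yq a Y 0 q ^ 2) +
        Real.log Y * (∑ q ∈ Finset.Icc 1 Y, (q : ℝ) ^ (1 + 1 / Real.log Y) *
          yq a Y (1 / Real.log Y) q ^ 2)) +
      C * T / (Y : ℝ) ^ 3 * (∑ h ∈ Finset.Icc 1 Y, |a h|) ^ 2 * (1 + Real.log T) ^ 2 := by
  obtain ⟨C1, hC1, h1⟩ := planch
  obtain ⟨C2, hC2, h2⟩ := region1
  obtain ⟨C3, hC3, h3⟩ := region2
  refine ⟨C1 * (C2 + C3), by positivity, ?_⟩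
  intro T a Y hY hYT
  have hY2 : (2 : ℝ) ≤ (Y : ℝ) := by exact_mod_cast hY
  have hYpos : (0 : ℝ) < (Y : ℝ) := by linarith
  have hT1 : (1 : ℝ) ≤ T := by
    have : (1 : ℝ) ≤ (Y : ℝ) ^ 12 := one_le_pow₀ (by linarith)
    linarith
  have hT0 : (0 : ℝ) < T := by linarith
  have hR : (0 : ℝ) ≤ T / (Y : ℝ) ^ 5 := by positivity
  refine ⟨(h1 T a Y hT1).1, ?_⟩
  have hp := (h1 T a Y hT1).2
  have hi := gr_int hT1 a Y
  have hsplit : ∫ r in Ioi (0:ℝ), ‖Gr a Y (zT T) r‖ ^ 2 =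
      (∫ r in Ioc (0:ℝ) (T / (Y : ℝ) ^ 5), ‖Gr a Y (zT T) r‖ ^ 2) +
        ∫ r in Ioi (T / (Y : ℝ) ^ 5), ‖Gr a Y (zT T) r‖ ^ 2 := by
    rw [← Ioc_union_Ioi_eq_Ioi hR]
    refine setIntegral_union ?_ measurableSet_Ioi ?_ ?_
    · exact Set.disjoint_left.2 fun x hx hx' => absurd hx.2 (not_le.2 hx')
    · exact hi.mono_set Ioc_subset_Ioi_self
    · exact hi.mono_set (Ioi_subset_Ioi hR)
  have r1 := h2 T a Y hY hYT
  have r2 := h3 T a Y hY hYT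
  set S0 := ∑ q ∈ Finset.Icc 1 Y, (q : ℝ) * yq a Y 0 q ^ 2 with hS0
  set S1 := ∑ q ∈ Finset.Icc 1 Y, (q : ℝ) ^ (1 + 1 / Real.log Y) *
    yq a Y (1 / Real.log Y) q ^ 2 with hS1
  set A := ∑ h ∈ Finset.Icc 1 Y, |a h| with hA
  have hS0n : 0 ≤ S0 := Finset.sum_nonneg fun q _ => by positivity
  have hS1n : 0 ≤ S1 := Finset.sum_nonneg fun q _ => by positivity
  have hLT : 0 ≤ Real.log T := Real.log_nonneg hT1
  have hLY : 0 ≤ Real.log Y := Real.log_nonneg (by linarith)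
  have hE : 0 ≤ T / (Y : ℝ) ^ 3 * A ^ 2 := by positivity
  have hL2 : (1 : ℝ) ≤ (1 + Real.log T) ^ 2 := by nlinarith
  have hX0 : 0 ≤ T * Real.log T * S0 := by positivity
  have hX1 : 0 ≤ T * Real.log Y * S1 := by positivity
  have hXE : T / (Y : ℝ) ^ 3 * A ^ 2 ≤ T / (Y : ℝ) ^ 3 * A ^ 2 * (1 + Real.log T) ^ 2 :=
    le_mul_of_one_le_right hE hL2
  have hXE0 : 0 ≤ T / (Y : ℝ) ^ 3 * A ^ 2 * (1 + Real.log T) ^ 2 := by positivity
  calc _ ≤ C1 * ∫ r in Ioi (0:ℝ), ‖Gr a Y (zT T) r‖ ^ 2 := hp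
    _ ≤ C1 * ((C2 * T * Real.log T * S0 + C2 * T / (Y : ℝ) ^ 3 * A ^ 2 * (1 + Real.log T) ^ 2) +
        (C3 * T * Real.log Y * S1 + C3 * T / (Y : ℝ) ^ 3 * A ^ 2)) := by
        rw [hsplit]
        exact mul_le_mul_of_nonneg_left (add_le_add r1 r2) hC1.le
    _ ≤ _ := by
        have e1 : C1 * (C2 + C3) * T * (Real.log T * S0 + Real.log Y * S1) +
            C1 * (C2 + C3) * T / (Y : ℝ) ^ 3 * A ^ 2 * (1 + Real.log T) ^ 2 =
            C1 * ((C2 * (T * Real.log T * S0) + C2 * (T / (Y : ℝ) ^ 3 * A ^ 2 *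
              (1 + Real.log T) ^ 2)) + (C3 * (T * Real.log Y * S1) +
                C3 * (T / (Y : ℝ) ^ 3 * A ^ 2 * (1 + Real.log T) ^ 2)) +
              (C3 * (T * Real.log T * S0) + C2 * (T * Real.log Y * S1))) := by ring
        rw [e1]
        refine mul_le_mul_of_nonneg_left ?_ hC1.le
        have e2 : C2 * T * Real.log T * S0 = C2 * (T * Real.log T * S0) := by ring
        have e3 : C2 * T / (Y : ℝ) ^ 3 * A ^ 2 * (1 + Real.log T) ^ 2 =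
          C2 * (T / (Y : ℝ) ^ 3 * A ^ 2 * (1 + Real.log T) ^ 2) := by ring
        have e4 : C3 * T * Real.log Y * S1 = C3 * (T * Real.log Y * S1) := by ring
        have e5 : C3 * T / (Y : ℝ) ^ 3 * A ^ 2 = C3 * (T / (Y : ℝ) ^ 3 * A ^ 2) := by ring
        rw [e2, e3, e4, e5]
        have g1 : C3 * (T / (Y : ℝ) ^ 3 * A ^ 2) ≤
            C3 * (T / (Y : ℝ) ^ 3 * A ^ 2 * (1 + Real.log T) ^ 2) :=
          mul_le_mul_of_nonneg_left hXE hC3.le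
        have g2 : 0 ≤ C3 * (T * Real.log T * S0) := by positivity
        have g3 : 0 ≤ C2 * (T * Real.log Y * S1) := by positivity
        linarith

end Pool.Agent.ZR
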