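import Pool.Agent.ZR.TB

/-!
# Region I: `0 < r ≤ T / Y^5`
`z = r zT`, `Re z = r sin(1/T)`, `Im z = r cos(1/T)`. For `|Im w| ≤ π`, `Re w ≥ 0`:
`|1/(e^w-1) - 1/w| ≤ C`. Let `x = r cos(1/T)/(2π)`. For each `h ≤ Y` let `m_h` be the nearest integer to
`h x`. If `|h x - m_h| ≥ 1/(2Y)` then `|φ(h z)| ≤ C Y`. All `h` with `|h x - m_h| < 1/(2Y)`, `m_h ≥ 1`, have the
same quotient `m_h/h = A/q` (reduced), and `φ(h z) = 1/(h (z - 2πi A/q)) + O(1)`; adding the other multiples
`h` of `q` costs `O(Y)` each. Hence `|Gr| ≤ |y_q| / |z - 2πi A/q| + C Y ∑|a_h|`. Integrate: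
`∫ dr / |z - 2πiA/q|² ≤ C T q/A` over the `r` with `|x - A/q| < 1/(2Yq)` (`r ≥ π A/q`), sum over `q ≤ Y`,
`1 ≤ A ≤ q T`: `∑ 1/A ≤ C log T`. (`yq a Y 0 q = ∑_{q | h} a_h/h`.)
-/

set_option autoImplicit false

open Complex MeasureTheory Set Finset

namespace Pool.Agent.ZR

namespace TI

/-- the bound for `1/(e^u-1) - 1/u` on a strip -/
lemma gbd : ∃ C : ℝ, 1 ≤ C ∧ ∀ u : ℂ, 0 ≤ u.re → u.re ≤ 1 → |u.im| ≤ Real.pi → u ≠ 0 →
    ‖1 / (cexp u - 1) - 1 / u‖ ≤ C := by
  have hK : IsCompact (Icc (0:ℝ) 1 ×ℂ Icc (-Real.pi) Real.pi) := isCompact_Icc.reProdIm isCompact_Icc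
  have hcont : Continuous (dslope cexp 0) := by
    rw [← continuousOn_univ]
    exact (continuousOn_dslope Filter.univ_mem).2 ⟨Complex.continuous_exp.continuousOn,
      Complex.differentiable_exp.differentiableAt⟩
  have hne : (Icc (0:ℝ) 1 ×ℂ Icc (-Real.pi) Real.pi).Nonempty := by
    refine ⟨0, ?_⟩
    rw [Complex.mem_reProdIm]
    simp [Real.pi_pos.le]
  obtain ⟨u0, hu0, hmin⟩ := hK.exists_isMinOn hne (hcont.norm.continuousOn)
  set c := ‖dslope cexp 0 u0‖ with hc
  have hnz : ∀ u ∈ (Icc (0:ℝ) 1 ×ℂ Icc (-Real.pi) Real.pi), dslope cexp 0 u ≠ 0 := by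
    intro u hu
    rw [Complex.mem_reProdIm] at hu
    obtain ⟨hre, him⟩ := hu
    by_cases h : u = 0
    · rw [h, dslope_same]
      simp
    · rw [dslope_of_ne _ h, slope_def_field]
      rw [Complex.exp_zero, sub_zero]
      apply div_ne_zero _ h
      intro h1
      have h2 : cexp u = 1 := by linear_combination h1
      rw [Complex.exp_eq_one_iff] at h2
      obtain ⟨n, hn⟩ := h2
      have him' : u.im = n * (2 * Real.pi) := by
        rw [hn]; simp
      rw [Set.mem_Icc, him'] at him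
      have hpi := Real.pi_pos
      have h3 : (n : ℝ) < 1 := by
        by_contra h4
        push Not at h4
        nlinarith [him.2]
      have h4 : -1 < (n : ℝ) := by
        by_contra h4
        push Not at h4
        nlinarith [him.1]
      have h5 : n = 0 := by
        have : n < 1 := by exact_mod_cast h3
        have : -1 < n := by exact_mod_cast h4
        omega
      rw [h5] at hn
      apply h
      rw [hn]; simp
  have hcpos : 0 < c := norm_pos_iff.2 (hnz u0 hu0)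
  refine ⟨max 1 (5 / c), le_max_left _ _, ?_⟩
  intro u h0 h1 h2 hu
  refine le_trans ?_ (le_max_right _ _)
  have hmem : u ∈ (Icc (0:ℝ) 1 ×ℂ Icc (-Real.pi) Real.pi) := by
    rw [Complex.mem_reProdIm]
    exact ⟨⟨h0, h1⟩, abs_le.1 h2⟩
  have hlow : c ≤ ‖dslope cexp 0 u‖ := hmin hmem
  rw [dslope_of_ne _ hu, slope_def_field, Complex.exp_zero, sub_zero, norm_div] at hlow
  have hun : 0 < ‖u‖ := norm_pos_iff.2 hu
  rw [le_div_iff₀ hun] at hlow
  have hE : 0 < ‖cexp u - 1‖ := lt_of_lt_of_le (by positivity) hlow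
  have hE0 : cexp u - 1 ≠ 0 := norm_pos_iff.1 hE
  have hup : ‖cexp u - 1 - u‖ ≤ 5 * ‖u‖ ^ 2 := by
    by_cases h : ‖u‖ ≤ 1
    · have := Complex.norm_exp_sub_one_sub_id_le h
      nlinarith [sq_nonneg ‖u‖]
    · push Not at h
      have h3 : ‖cexp u‖ ≤ 3 := by
        rw [Complex.norm_exp]
        calc Real.exp u.re ≤ Real.exp 1 := Real.exp_le_exp.2 h1
          _ ≤ 3 := by linarith [Real.exp_one_lt_d9]
      calc ‖cexp u - 1 - u‖ ≤ ‖cexp u - 1‖ + ‖u‖ := norm_sub_le _ _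
        _ ≤ (‖cexp u‖ + ‖(1:ℂ)‖) + ‖u‖ := by gcongr; exact norm_sub_le _ _
        _ ≤ 3 + 1 + ‖u‖ := by rw [norm_one]; gcongr
        _ ≤ 5 * ‖u‖ ^ 2 := by nlinarith
  have heq : 1 / (cexp u - 1) - 1 / u = -(cexp u - 1 - u) / ((cexp u - 1) * u) := by
    rw [div_sub_div _ _ hE0 hu]
    congr 1
    ring
  rw [heq, norm_div, norm_neg, norm_mul, div_le_div_iff₀ (by positivity) hcpos]
  calc ‖cexp u - 1 - u‖ * c ≤ (5 * ‖u‖ ^ 2) * c := by gcongr
    _ = 5 * ((c * ‖u‖) * ‖u‖) := by ring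
    _ ≤ 5 * (‖cexp u - 1‖ * ‖u‖) := by gcongr

/-- the bound as a hypothesis -/
def GB (C : ℝ) : Prop := 1 ≤ C ∧ ∀ u : ℂ, 0 ≤ u.re → u.re ≤ 1 → |u.im| ≤ Real.pi → u ≠ 0 →
    ‖1 / (cexp u - 1) - 1 / u‖ ≤ C

lemma exp_shift (w : ℂ) (n : ℕ) : cexp (w - 2 * Real.pi * n * I) = cexp w := by
  have : w - 2 * Real.pi * n * I = w - (n : ℤ) * (2 * Real.pi * I) := by push_cast; ring
  rw [this, Complex.exp_periodic.sub_int_mul_eq]

lemma phi_zero {C : ℝ} (hC : GB C) {w : ℂ} (h0 : 0 < w.re) (h1 : w.re ≤ 1)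
    (hn : |w.im| ≤ Real.pi) : ‖phi w‖ ≤ C := by
  unfold phi
  apply hC.2 w h0.le h1 hn
  rintro rfl
  simp at h0

lemma phi_near {C : ℝ} (hC : GB C) {w : ℂ} {n : ℕ} (h0 : 0 < w.re) (h1 : w.re ≤ 1)
    (hn : |w.im - 2 * Real.pi * n| ≤ Real.pi) (hn1 : 1 ≤ n) :
    ‖phi w - 1 / (w - 2 * Real.pi * n * I)‖ ≤ C + 1 := by
  set u := w - 2 * Real.pi * n * I with hu
  have hre : u.re = w.re := by
    rw [hu]; simp
  have him : u.im = w.im - 2 * Real.pi * n := by
    rw [hu]; simp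
  have hu0 : u ≠ 0 := by
    intro h
    rw [h] at hre
    simp at hre
    linarith
  have h2 := hC.2 u (by rw [hre]; exact h0.le) (by rw [hre]; exact h1) (by rw [him]; exact hn) hu0
  have h3 : cexp u = cexp w := exp_shift w n
  rw [h3] at h2
  have h4 : phi w - 1 / u = (1 / (cexp w - 1) - 1 / u) - 1 / w := by unfold phi; ring
  rw [h4]
  have h5 : ‖1 / w‖ ≤ 1 := by
    rw [norm_div, norm_one]
    apply div_le_one_of_le₀ _ (norm_nonneg _)
    have h6 : w.im ≤ ‖w‖ := Complex.im_le_norm _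
    have h7 : (1 : ℝ) ≤ n := by exact_mod_cast hn1
    have h8 := (abs_le.1 hn).1
    have h9 := Real.pi_gt_three
    nlinarith
  calc ‖(1 / (cexp w - 1) - 1 / u) - 1 / w‖ ≤ ‖1 / (cexp w - 1) - 1 / u‖ + ‖1 / w‖ := norm_sub_le _ _
    _ ≤ C + 1 := by gcongr

lemma inv_le {w : ℂ} {n : ℕ} {b : ℝ} (hb : 0 < b)
    (h : b ≤ |w.im / (2 * Real.pi) - n|) : ‖1 / (w - 2 * Real.pi * n * I)‖ ≤ 1 / b := by
  rw [norm_div, norm_one]
  have hpi := Real.pi_gt_three
  have h1 : |w.im - 2 * Real.pi * n| ≤ ‖w - 2 * Real.pi * n * I‖ := by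
    have := Complex.abs_im_le_norm (w - 2 * Real.pi * n * I)
    have him : (w - 2 * Real.pi * n * I).im = w.im - 2 * Real.pi * n := by simp
    rwa [him] at this
  have h2 : |w.im - 2 * Real.pi * n| = 2 * Real.pi * |w.im / (2 * Real.pi) - n| := by
    rw [← abs_of_pos (by positivity : 0 < 2 * Real.pi), ← abs_mul, abs_of_pos (by positivity : 0 < 2 * Real.pi)]
    congr 1
    field_simp
  apply one_div_le_one_div_of_le hb
  rw [h2] at h1
  have h3 : 0 ≤ |w.im / (2 * Real.pi) - n| := abs_nonneg _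
  nlinarith

lemma phi_far {C : ℝ} (hC : GB C) {w : ℂ} {n : ℕ} {Y : ℕ} (hY : 1 ≤ Y) (h0 : 0 < w.re) (h1 : w.re ≤ 1)
    (hn : |w.im / (2 * Real.pi) - n| ≤ 1 / 2)
    (hf : n = 0 ∨ 1 / (2 * (Y : ℝ)) ≤ |w.im / (2 * Real.pi) - n|) :
    ‖phi w‖ ≤ (C + 3) * Y := by
  have hY' : (1 : ℝ) ≤ Y := by exact_mod_cast hY
  have hC1 := hC.1
  have hpi := Real.pi_pos
  have hn' : |w.im - 2 * Real.pi * n| ≤ Real.pi := by
    have h2 : |w.im - 2 * Real.pi * n| = 2 * Real.pi * |w.im / (2 * Real.pi) - n| := by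
      rw [← abs_of_pos (by positivity : 0 < 2 * Real.pi), ← abs_mul, abs_of_pos (by positivity : 0 < 2 * Real.pi)]
      congr 1
      field_simp
    rw [h2]
    nlinarith
  by_cases h : n = 0
  · have h3 : |w.im| ≤ Real.pi := by
      rw [h] at hn'; simpa using hn'
    have := phi_zero hC h0 h1 h3
    nlinarith
  · have hf' : 1 / (2 * (Y : ℝ)) ≤ |w.im / (2 * Real.pi) - n| := by
      rcases hf with hf | hf
      · exact absurd hf h
      · exact hf
    have h3 := phi_near hC h0 h1 hn' (by omega)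
    have h4 := inv_le (by positivity) hf'
    rw [one_div_one_div] at h4
    have h5 : ‖phi w‖ ≤ ‖phi w - 1 / (w - 2 * Real.pi * n * I)‖ + ‖1 / (w - 2 * Real.pi * n * I)‖ := by
      have := norm_add_le (phi w - 1 / (w - 2 * Real.pi * n * I)) (1 / (w - 2 * Real.pi * n * I))
      simpa using this
    nlinarith

/-- uniqueness of the good fraction -/
lemma uniq {x : ℝ} {Y h k n m : ℕ} (hY : 1 ≤ Y) (h1 : h ≤ Y) (k1 : k ≤ Y) (h0 : 1 ≤ h)
    (hh : |h * x - n| < 1 / (2 * (Y : ℝ))) (kk : |k * x - m| < 1 / (2 * (Y : ℝ))) :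
    n * k = m * h := by
  have hY' : (0 : ℝ) < Y := by exact_mod_cast hY
  have h1' : (h : ℝ) ≤ Y := by exact_mod_cast h1
  have k1' : (k : ℝ) ≤ Y := by exact_mod_cast k1
  have h0' : (0 : ℝ) < h := by exact_mod_cast h0
  have key : |(n : ℝ) * k - m * h| < 1 := by
    have e : (n : ℝ) * k - m * h = h * (k * x - m) - k * (h * x - n) := by ring
    rw [e]
    calc |h * (k * x - m) - k * (h * x - n)| ≤ |h * (k * x - m)| + |k * (h * x - n)| := abs_sub _ _
      _ = h * |k * x - m| + k * |h * x - n| := by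
        rw [abs_mul, abs_mul, Nat.abs_cast, Nat.abs_cast]
      _ < h * (1 / (2 * (Y : ℝ))) + k * (1 / (2 * (Y : ℝ))) := by
        apply add_lt_add_of_lt_of_le
        · exact mul_lt_mul_of_pos_left kk h0'
        · exact mul_le_mul_of_nonneg_left hh.le (Nat.cast_nonneg _)
      _ ≤ Y * (1 / (2 * (Y : ℝ))) + Y * (1 / (2 * (Y : ℝ))) := by gcongr
      _ = 1 := by field_simp; norm_num
  have key2 : |(((n : ℤ) * k - m * h : ℤ) : ℝ)| < 1 := by push_cast; exact key
  have key3 : ((n : ℤ) * k - m * h : ℤ) = 0 := by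
    rw [← Int.abs_lt_one_iff]
    exact_mod_cast key2
  have : (n : ℤ) * k = m * h := by linarith
  exact_mod_cast this

lemma exists_near (y : ℝ) (hy : 0 ≤ y) : ∃ n : ℕ, |y - n| ≤ 1 / 2 := by
  refine ⟨⌊y + 1 / 2⌋₊, ?_⟩
  have h1 := Nat.floor_le (by linarith : 0 ≤ y + 1 / 2)
  have h2 := Nat.lt_floor_add_one (y + 1 / 2)
  rw [abs_le]
  constructor <;> linarith

lemma pointwise {C : ℝ} (hC : GB C) (a : ℕ → ℝ) {Y : ℕ} (hY : 1 ≤ Y) {z : ℂ} (h0 : 0 < z.re)
    (h1 : Y * z.re ≤ 1) (hz : 0 ≤ z.im) :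
    ‖∑ h ∈ Finset.Icc 1 Y, (a h : ℂ) * phi (h * z)‖ ≤ (C + 5) * Y * ∑ h ∈ Finset.Icc 1 Y, |a h| ∨
    ∃ q A : ℕ, 1 ≤ q ∧ q ≤ Y ∧ 1 ≤ A ∧ |z.im / (2 * Real.pi) - (A : ℝ) / q| < 1 / (2 * Y * q) ∧
      ‖∑ h ∈ Finset.Icc 1 Y, (a h : ℂ) * phi (h * z)‖ ≤
        |yq a Y 0 q| / ‖z - 2 * Real.pi * ((A : ℝ) / q : ℝ) * I‖ +
          (C + 5) * Y * ∑ h ∈ Finset.Icc 1 Y, |a h| := by
  have hC1 := hC.1
  have hY' : (1 : ℝ) ≤ Y := by exact_mod_cast hY
  set x := z.im / (2 * Real.pi) with hx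
  have hx0 : 0 ≤ x := by positivity
  have him : ∀ h : ℕ, ((h : ℂ) * z).im / (2 * Real.pi) = h * x := by
    intro h
    rw [hx]
    simp
    ring
  have hre : ∀ h : ℕ, ((h : ℂ) * z).re = h * z.re := by
    intro h; simp
  have hreY : ∀ h ∈ Finset.Icc 1 Y, 0 < ((h : ℂ) * z).re ∧ ((h : ℂ) * z).re ≤ 1 := by
    intro h hh
    rw [Finset.mem_Icc] at hh
    rw [hre]
    have a1 : (1 : ℝ) ≤ h := by exact_mod_cast hh.1
    have a2 : (h : ℝ) ≤ Y := by exact_mod_cast hh.2
    constructor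
    · positivity
    · refine le_trans ?_ h1
      gcongr
  -- bound at far points
  have hfar : ∀ h ∈ Finset.Icc 1 Y, ∀ n : ℕ, |h * x - n| ≤ 1 / 2 →
      (n = 0 ∨ 1 / (2 * (Y : ℝ)) ≤ |h * x - n|) → ‖phi (h * z)‖ ≤ (C + 3) * Y := by
    intro h hh n hn hf
    apply phi_far hC hY (hreY h hh).1 (hreY h hh).2 (n := n)
    · rw [him]; exact hn
    · rw [him]; exact hf
  by_cases hgood : ∃ h0 ∈ Finset.Icc 1 Y, ∃ n0 : ℕ, 1 ≤ n0 ∧ |h0 * x - n0| < 1 / (2 * (Y : ℝ))
  swap
  · left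
    push Not at hgood
    calc ‖∑ h ∈ Finset.Icc 1 Y, (a h : ℂ) * phi (h * z)‖
        ≤ ∑ h ∈ Finset.Icc 1 Y, ‖(a h : ℂ) * phi (h * z)‖ := norm_sum_le _ _
      _ ≤ ∑ h ∈ Finset.Icc 1 Y, |a h| * ((C + 5) * Y) := by
          apply Finset.sum_le_sum
          intro h hh
          rw [norm_mul, Complex.norm_real, Real.norm_eq_abs]
          apply mul_le_mul_of_nonneg_left _ (abs_nonneg _)
          obtain ⟨n, hn⟩ := exists_near (h * x) (by positivity)
          have h3 : ‖phi (h * z)‖ ≤ (C + 3) * Y := by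
            apply hfar h hh n hn
            by_cases hn0 : n = 0
            · exact Or.inl hn0
            · exact Or.inr (hgood h hh n (by omega))
          nlinarith
      _ = (C + 5) * Y * ∑ h ∈ Finset.Icc 1 Y, |a h| := by
          rw [← Finset.sum_mul]; ring
  · right
    obtain ⟨k, hk, m, hm, hkm⟩ := hgood
    rw [Finset.mem_Icc] at hk
    have hgpos : 0 < Nat.gcd m k := Nat.gcd_pos_of_pos_left _ (by omega)
    obtain ⟨A, q, hcop, hA, hq⟩ : ∃ A q : ℕ, Nat.Coprime A q ∧ m = A * Nat.gcd m k ∧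
        k = q * Nat.gcd m k := by
      refine ⟨m / Nat.gcd m k, k / Nat.gcd m k, Nat.coprime_div_gcd_div_gcd hgpos, ?_, ?_⟩
      · exact (Nat.div_mul_cancel (Nat.gcd_dvd_left _ _)).symm
      · exact (Nat.div_mul_cancel (Nat.gcd_dvd_right _ _)).symm
    set g := Nat.gcd m k with hg
    have hq1 : 1 ≤ q := by
      rcases Nat.eq_zero_or_pos q with h | h
      · rw [h] at hq; omega
      · exact h
    have hA1 : 1 ≤ A := by
      rcases Nat.eq_zero_or_pos A with h | h
      · rw [h] at hA; omega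
      · exact h
    have hqk : q ≤ k := by
      rw [hq]; exact Nat.le_mul_of_pos_right _ hgpos
    have hqY : q ≤ Y := le_trans hqk hk.2
    have hqpos : (0 : ℝ) < q := by exact_mod_cast hq1
    have hkpos : (0 : ℝ) < k := by exact_mod_cast hk.1
    have hgpos' : (0 : ℝ) < g := by exact_mod_cast hgpos
    have hAq : (A : ℝ) / q = m / k := by
      have e1 : (m : ℝ) = A * g := by exact_mod_cast hA
      have e2 : (k : ℝ) = q * g := by exact_mod_cast hq
      rw [e1, e2]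
      field_simp
    have hdist : |x - (A : ℝ) / q| < 1 / (2 * Y * q) := by
      rw [hAq]
      have e1 : |x - (m : ℝ) / k| = |k * x - m| / k := by
        rw [← abs_of_pos hkpos, ← abs_div, abs_of_pos hkpos]
        congr 1
        field_simp
      rw [e1, div_lt_iff₀ hkpos]
      refine lt_of_lt_of_le hkm ?_
      have hqk' : (q : ℝ) ≤ k := by exact_mod_cast hqk
      rw [div_mul_eq_mul_div, one_mul, div_le_div_iff₀ (by positivity) (by positivity)]
      nlinarith
    refine ⟨q, A, hq1, hqY, hA1, hdist, ?_⟩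
    -- good h are multiples of q
    have hgoodmul : ∀ h ∈ Finset.Icc 1 Y, ∀ n : ℕ, |h * x - n| < 1 / (2 * (Y : ℝ)) →
        n * q = A * h := by
      intro h hh n hn
      rw [Finset.mem_Icc] at hh
      have := uniq hY hh.2 hk.2 hh.1 hn hkm
      -- n * k = m * h
      rw [hA] at this
      have h3 : (n * q) * g = (A * h) * g := by
        calc (n * q) * g = n * (q * g) := by ring
          _ = n * k := by rw [← hq]
          _ = (A * h) * g := by rw [this]; ring
      exact Nat.eq_of_mul_eq_mul_right hgpos h3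
    set D := z - 2 * Real.pi * ((A : ℝ) / q : ℝ) * I with hD
    -- the main part
    have hyq : (yq a Y 0 q : ℂ) / D =
        ∑ h ∈ Finset.Icc 1 Y, (a h : ℂ) * (if q ∣ h then 1 / (h * D) else 0) := by
      unfold yq
      rw [Finset.sum_filter]
      push_cast
      rw [Finset.sum_div]
      apply Finset.sum_congr rfl
      intro h hh
      split_ifs with hd
      · have : ((h : ℝ) ^ (-(1 + (0:ℝ))) : ℝ) = (h : ℝ)⁻¹ := by
          rw [add_zero, Real.rpow_neg_one]
        rw [this]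
        push_cast
        rw [one_div, mul_inv]
        ring
      · simp
    have hterm : ∀ h ∈ Finset.Icc 1 Y,
        ‖phi (h * z) - (if q ∣ h then 1 / (h * D) else 0)‖ ≤ (C + 5) * Y := by
      intro h hh
      have hh' := Finset.mem_Icc.1 hh
      have hhpos : (0 : ℝ) < h := by exact_mod_cast hh'.1
      obtain ⟨n, hn⟩ := exists_near (h * x) (by positivity)
      split_ifs with hd
      · obtain ⟨t, ht⟩ := hd
        have hD2 : (h : ℂ) * D = h * z - 2 * Real.pi * ((A * t : ℕ) : ℂ) * I := by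
          rw [hD, ht]
          have hqC : (q : ℂ) ≠ 0 := by exact_mod_cast hqpos.ne'
          push_cast
          field_simp
        rw [hD2]
        by_cases hnt : n = A * t
        · rw [← hnt]
          have hw : |((h : ℂ) * z).im - 2 * Real.pi * n| ≤ Real.pi := by
            have e1 : ((h : ℂ) * z).im - 2 * Real.pi * n = 2 * Real.pi * (h * x - n) := by
              rw [← him h]; field_simp
            rw [e1, abs_mul, abs_of_pos (by positivity : 0 < 2 * Real.pi)]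
            nlinarith [Real.pi_pos]
          have hn1 : 1 ≤ n := by
            rw [hnt]
            have : 1 ≤ t := by
              rcases Nat.eq_zero_or_pos t with h4 | h4
              · rw [h4] at ht; omega
              · exact h4
            exact Nat.mul_pos (by omega) (by omega)
          have := phi_near hC (hreY h hh).1 (hreY h hh).2 hw hn1
          nlinarith
        · have hphi : ‖phi (h * z)‖ ≤ (C + 3) * Y := by
            apply hfar h hh n hn
            right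
            by_contra hlt
            push Not at hlt
            have h5 := hgoodmul h hh n hlt
            apply hnt
            rw [ht] at h5
            have h6 : n * q = (A * t) * q := by rw [h5]; ring
            exact Nat.eq_of_mul_eq_mul_right hq1 h6
          have hinv : ‖1 / ((h : ℂ) * z - 2 * Real.pi * ((A * t : ℕ) : ℂ) * I)‖ ≤ 1 / (1 / 2) := by
            apply inv_le (by norm_num)
            rw [him]
            have h7 : (1 : ℝ) ≤ |(n : ℝ) - ((A * t : ℕ) : ℝ)| := by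
              have h8 : (1 : ℤ) ≤ |(n : ℤ) - ((A * t : ℕ) : ℤ)| := by
                apply Int.one_le_abs
                intro h9
                apply hnt
                have : (n : ℤ) = ((A * t : ℕ) : ℤ) := by linarith
                exact_mod_cast this
              exact_mod_cast h8
            have h8 : |(n : ℝ) - ((A * t : ℕ) : ℝ)| ≤ |h * x - n| + |h * x - ((A * t : ℕ) : ℝ)| := by
              have := abs_sub (h * x - ((A * t : ℕ) : ℝ)) (h * x - n)
              have e1 : (h * x - ((A * t : ℕ) : ℝ)) - (h * x - n) = (n : ℝ) - ((A * t : ℕ) : ℝ) := by ring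
              rw [e1] at this
              linarith
            linarith
          have hinv' : ‖1 / ((h : ℂ) * z - 2 * Real.pi * ((A * t : ℕ) : ℂ) * I)‖ ≤ 2 := by
            refine le_trans hinv (by norm_num)
          refine le_trans (norm_sub_le _ _) ?_
          nlinarith
      · rw [sub_zero]
        have hphi : ‖phi (h * z)‖ ≤ (C + 3) * Y := by
          apply hfar h hh n hn
          right
          by_contra hlt
          push Not at hlt
          have h5 := hgoodmul h hh n hlt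
          apply hd
          have h6 : q ∣ A * h := ⟨n, by rw [← h5]; ring⟩
          exact (Nat.Coprime.dvd_mul_left hcop.symm).1 h6
        nlinarith
    calc ‖∑ h ∈ Finset.Icc 1 Y, (a h : ℂ) * phi (h * z)‖
        = ‖(yq a Y 0 q : ℂ) / D + ∑ h ∈ Finset.Icc 1 Y, (a h : ℂ) *
            (phi (h * z) - (if q ∣ h then 1 / (h * D) else 0))‖ := by
          rw [hyq, ← Finset.sum_add_distrib]
          congr 1
          apply Finset.sum_congr rfl
          intro h hh
          ring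
      _ ≤ ‖(yq a Y 0 q : ℂ) / D‖ + ∑ h ∈ Finset.Icc 1 Y, ‖(a h : ℂ) *
            (phi (h * z) - (if q ∣ h then 1 / (h * D) else 0))‖ := by
          refine le_trans (norm_add_le _ _) ?_
          gcongr
          exact norm_sum_le _ _
      _ ≤ |yq a Y 0 q| / ‖D‖ + ∑ h ∈ Finset.Icc 1 Y, |a h| * ((C + 5) * Y) := by
          rw [norm_div, Complex.norm_real, Real.norm_eq_abs]
          gcongr with h hh
          rw [norm_mul, Complex.norm_real, Real.norm_eq_abs]
          exact mul_le_mul_of_nonneg_left (hterm h hh) (abs_nonneg _)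
      _ = |yq a Y 0 q| / ‖D‖ + (C + 5) * Y * ∑ h ∈ Finset.Icc 1 Y, |a h| := by
          rw [← Finset.sum_mul]; ring

/-- the Cauchy kernel -/
lemma kern {b c : ℝ} (d : ℝ) (hb : 0 < b) (hc : 0 < c) :
    Integrable (fun r : ℝ => (b ^ 2 + (c * r - d) ^ 2)⁻¹) ∧
      ∫ r : ℝ, (b ^ 2 + (c * r - d) ^ 2)⁻¹ = Real.pi / (b * c) := by
  have hfun : (fun r : ℝ => (b ^ 2 + (c * r - d) ^ 2)⁻¹) =
      fun r : ℝ => (b ^ 2)⁻¹ * (1 + ((c / b) * (r - d / c)) ^ 2)⁻¹ := by
    funext r
    rw [← mul_inv]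
    congr 1
    field_simp
  rw [hfun]
  have hcb : c / b ≠ 0 := by positivity
  constructor
  · apply Integrable.const_mul
    have h1 := (integrable_inv_one_add_sq).comp_mul_left' hcb
    exact h1.comp_sub_right (d / c)
  · rw [integral_const_mul]
    have h1 : ∫ r : ℝ, (1 + ((c / b) * (r - d / c)) ^ 2)⁻¹ = ∫ r : ℝ, (1 + ((c / b) * r) ^ 2)⁻¹ :=
      integral_sub_right_eq_self (fun r : ℝ => (1 + ((c / b) * r) ^ 2)⁻¹) (d / c)
    rw [h1, Measure.integral_comp_mul_left (fun r : ℝ => (1 + r ^ 2)⁻¹) (c / b),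
      integral_univ_inv_one_add_sq, smul_eq_mul, abs_of_pos (by positivity)]
    field_simp

lemma zT_re (T : ℝ) : (zT T).re = Real.sin (1 / T) := by
  unfold zT
  rw [Complex.exp_ofReal_mul_I_re, Real.cos_pi_div_two_sub]

lemma zT_im (T : ℝ) : (zT T).im = Real.cos (1 / T) := by
  unfold zT
  rw [Complex.exp_ofReal_mul_I_im, Real.sin_pi_div_two_sub]

end TI

theorem region1 : ∃ C : ℝ, 0 < C ∧ ∀ (T : ℝ) (a : ℕ → ℝ) (Y : ℕ), 2 ≤ Y → (Y : ℝ) ^ 12 ≤ T →
    ∫ r in Ioc (0:ℝ) (T / (Y : ℝ) ^ 5), ‖Gr a Y (zT T) r‖ ^ 2 ≤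
      C * T * Real.log T * (∑ q ∈ Finset.Icc 1 Y, (q : ℝ) * yq a Y 0 q ^ 2) +
        C * T / (Y : ℝ) ^ 3 * (∑ h ∈ Finset.Icc 1 Y, |a h|) ^ 2 * (1 + Real.log T) ^ 2 := by
  obtain ⟨C0, hC0⟩ := TI.gbd
  have hC : TI.GB C0 := hC0
  have hC1 : 1 ≤ C0 := hC.1
  refine ⟨16 + 2 * (C0 + 5) ^ 2, by positivity, ?_⟩
  intro T a Y hY hT
  have hY1 : 1 ≤ Y := by omega
  have hY2 : (2 : ℝ) ≤ Y := by exact_mod_cast hY
  have hY0 : (0 : ℝ) < Y := by linarith
  have hT12 : (2 : ℝ) ^ 12 ≤ T := le_trans (pow_le_pow_left₀ (by norm_num) hY2 12) hT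
  have hT1 : (4096 : ℝ) ≤ T := by norm_num at hT12; exact hT12
  have hT0 : 0 < T := by linarith
  have hlogT : 1 ≤ Real.log T := by
    rw [Real.le_log_iff_exp_le hT0]
    linarith [Real.exp_one_lt_d9]
  have hinv1 : 1 / T ≤ 1 := by
    rw [div_le_one hT0]; linarith
  have hinv0 : 0 < 1 / T := by positivity
  have hpi3 := Real.pi_gt_three
  have hpi4 := Real.pi_le_four
  set s := Real.sin (1 / T) with hs
  set c := Real.cos (1 / T) with hc
  have hs1 : s ≤ 1 / T := Real.sin_le hinv0.le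
  have hs2 : 1 / (2 * T) ≤ s := by
    have h1 := Real.mul_le_sin hinv0.le (by linarith)
    refine le_trans ?_ h1
    have h2 : (1 / 2 : ℝ) ≤ 2 / Real.pi := by
      rw [div_le_div_iff₀ (by norm_num) Real.pi_pos]; linarith
    calc 1 / (2 * T) = 1 / 2 * (1 / T) := by field_simp
      _ ≤ 2 / Real.pi * (1 / T) := by gcongr
  have hs0 : 0 < s := lt_of_lt_of_le (by positivity) hs2
  have hc2 : 1 / 2 ≤ c := by
    have h1 := @Real.one_sub_sq_div_two_le_cos (1 / T)
    have h2 : (1 / T) ^ 2 ≤ 1 := by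
      rw [sq_le_one_iff₀ hinv0.le]; exact hinv1
    linarith
  have hc1 : c ≤ 1 := Real.cos_le_one _
  have hc0 : 0 < c := by linarith
  set R := T / (Y : ℝ) ^ 5 with hR
  have hR0 : 0 < R := by positivity
  set S := ∑ h ∈ Finset.Icc 1 Y, |a h| with hS
  have hS0 : 0 ≤ S := Finset.sum_nonneg (fun _ _ => abs_nonneg _)
  set K : ℕ → ℕ → ℝ → ℝ := fun q A r =>
    ((Real.pi * A / (2 * q * T)) ^ 2 + (c * r - 2 * Real.pi * A / q) ^ 2)⁻¹ with hK
  set F : ℝ → ℝ := fun r => 2 * (∑ q ∈ Finset.Icc 1 Y, ∑ A ∈ Finset.Icc 1 ⌊T⌋₊,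
    yq a Y 0 q ^ 2 * K q A r) + 2 * ((C0 + 5) * Y * S) ^ 2 with hF
  have hKnn : ∀ q A r, 0 ≤ K q A r := by
    intro q A r
    simp only [hK]
    positivity
  have hKint : ∀ q ∈ Finset.Icc 1 Y, ∀ A ∈ Finset.Icc 1 ⌊T⌋₊, Integrable (K q A) ∧
      ∫ r, K q A r ≤ 4 * q * T * (A : ℝ)⁻¹ := by
    intro q hq A hA
    rw [Finset.mem_Icc] at hq hA
    have hq0 : (0 : ℝ) < q := by exact_mod_cast hq.1
    have hA0 : (0 : ℝ) < A := by exact_mod_cast hA.1
    have hb : 0 < Real.pi * A / (2 * q * T) := by positivity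
    obtain ⟨k1, k2⟩ := TI.kern (2 * Real.pi * A / q) hb hc0
    refine ⟨k1, ?_⟩
    have : ∫ r, K q A r = Real.pi / (Real.pi * A / (2 * q * T) * c) := k2
    rw [this]
    have e1 : Real.pi / (Real.pi * A / (2 * q * T) * c) = 2 * q * T * (A : ℝ)⁻¹ * (1 / c) := by
      field_simp
    rw [e1]
    have e2 : 1 / c ≤ 2 := by
      rw [div_le_iff₀ hc0]; linarith
    calc 2 * q * T * (A : ℝ)⁻¹ * (1 / c) ≤ 2 * q * T * (A : ℝ)⁻¹ * 2 := by gcongr
      _ = 4 * q * T * (A : ℝ)⁻¹ := by ring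
  -- pointwise
  have hpt : ∀ r ∈ Ioc (0:ℝ) R, ‖Gr a Y (zT T) r‖ ^ 2 ≤ F r := by
    intro r hr
    have hr0 : 0 < r := hr.1
    set z : ℂ := zT T * r with hz
    have hzre : z.re = r * s := by
      rw [hz, Complex.re_mul_ofReal, TI.zT_re]; ring
    have hzim : z.im = r * c := by
      rw [hz, Complex.im_mul_ofReal, TI.zT_im]; ring
    have hGr : Gr a Y (zT T) r = ∑ h ∈ Finset.Icc 1 Y, (a h : ℂ) * phi (h * z) := by
      unfold Gr
      apply Finset.sum_congr rfl
      intro h _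
      rw [hz, mul_assoc]
    have h0 : 0 < z.re := by rw [hzre]; positivity
    have h1 : Y * z.re ≤ 1 := by
      rw [hzre]
      calc (Y : ℝ) * (r * s) ≤ Y * (R * (1 / T)) := by
            gcongr
            exact hr.2
        _ = 1 / (Y : ℝ) ^ 4 := by rw [hR]; field_simp
        _ ≤ 1 := by
            rw [div_le_one (by positivity)]
            exact one_le_pow₀ (by linarith)
    have h2 : 0 ≤ z.im := by rw [hzim]; positivity
    have hnn : 0 ≤ ∑ q ∈ Finset.Icc 1 Y, ∑ A ∈ Finset.Icc 1 ⌊T⌋₊, yq a Y 0 q ^ 2 * K q A r :=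
      Finset.sum_nonneg fun q _ => Finset.sum_nonneg fun A _ => mul_nonneg (sq_nonneg _) (hKnn _ _ _)
    rw [hGr]
    rcases TI.pointwise hC a hY1 h0 h1 h2 with hp | ⟨q, A, hq1, hqY, hA1, hd, hp⟩
    · calc ‖∑ h ∈ Finset.Icc 1 Y, (a h : ℂ) * phi (h * z)‖ ^ 2 ≤ ((C0 + 5) * Y * S) ^ 2 :=
            pow_le_pow_left₀ (norm_nonneg _) hp 2
        _ ≤ F r := by
            simp only [hF]
            nlinarith [sq_nonneg ((C0 + 5) * Y * S)]
    · have hq0 : (0 : ℝ) < q := by exact_mod_cast hq1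
      have hA0 : (0 : ℝ) < A := by exact_mod_cast hA1
      have hA1' : (1 : ℝ) ≤ A := by exact_mod_cast hA1
      have hqY' : (q : ℝ) ≤ Y := by exact_mod_cast hqY
      rw [hzim] at hd
      have hd1 := (abs_lt.1 hd).1
      have hd2 := (abs_lt.1 hd).2
      have hsm : 1 / (2 * (Y : ℝ) * q) ≤ (A : ℝ) / (2 * q) := by
        rw [div_le_div_iff₀ (by positivity) (by positivity)]
        have : (1 : ℝ) ≤ Y * A := by nlinarith
        nlinarith
      have hlow : Real.pi * A / q ≤ r * c := by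
        have e1 : (A : ℝ) / (2 * q) ≤ r * c / (2 * Real.pi) := by
          have : (A : ℝ) / q = A / (2 * q) + A / (2 * q) := by field_simp; norm_num
          linarith
        rw [div_le_div_iff₀ (by positivity) (by positivity)] at e1
        rw [div_le_iff₀ hq0]
        linarith
      have hrs : Real.pi * A / (2 * q * T) ≤ r * s := by
        calc Real.pi * A / (2 * q * T) = (Real.pi * A / q) * (1 / (2 * T)) := by field_simp
          _ ≤ (r * c) * (1 / (2 * T)) := by gcongr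
          _ ≤ (r * 1) * s := by gcongr
          _ = r * s := by ring
      have hAT : A ∈ Finset.Icc 1 ⌊T⌋₊ := by
        rw [Finset.mem_Icc]
        refine ⟨hA1, Nat.le_floor ?_⟩
        have e1 : (A : ℝ) / q ≤ r * c / (2 * Real.pi) + 1 / (2 * Y * q) := by linarith
        have e2 : r * c / (2 * Real.pi) ≤ R / 6 := by
          rw [div_le_div_iff₀ (by positivity) (by norm_num)]
          have : r * c ≤ R * 1 := mul_le_mul hr.2 hc1 hc0.le hR0.le
          nlinarith
        have e3 : (A : ℝ) ≤ (R / 6 + 1 / (2 * Y * q)) * q := by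
          rw [← div_le_iff₀ hq0]; linarith
        have e4 : (R / 6 + 1 / (2 * Y * q)) * q = R * q / 6 + 1 / (2 * Y) := by
          field_simp
        have e5 : R * q ≤ T := by
          calc R * q ≤ R * Y := by gcongr
            _ = T / (Y : ℝ) ^ 4 := by rw [hR]; field_simp
            _ ≤ T := by
              apply div_le_self hT0.le
              exact one_le_pow₀ (by linarith)
        have e6 : 1 / (2 * (Y : ℝ)) ≤ 1 := by
          rw [div_le_one (by positivity)]; linarith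
        rw [e4] at e3
        linarith
      have hqmem : q ∈ Finset.Icc 1 Y := Finset.mem_Icc.2 ⟨hq1, hqY⟩
      set D := z - 2 * Real.pi * ((A : ℝ) / q : ℝ) * I with hD
      have hDre : D.re = r * s := by
        rw [hD]; simp [hzre]
      have hDim : D.im = c * r - 2 * Real.pi * A / q := by
        rw [hD]; simp [hzim]; ring
      have hDn : (Real.pi * A / (2 * q * T)) ^ 2 + (c * r - 2 * Real.pi * A / q) ^ 2 ≤ ‖D‖ ^ 2 := by
        rw [← Complex.normSq_eq_norm_sq, Complex.normSq_apply, hDre, hDim]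
        have : (Real.pi * A / (2 * q * T)) ^ 2 ≤ (r * s) ^ 2 :=
          pow_le_pow_left₀ (by positivity) hrs 2
        nlinarith
      have hbpos : 0 < (Real.pi * A / (2 * q * T)) ^ 2 + (c * r - 2 * Real.pi * A / q) ^ 2 := by
        positivity
      have hmain : (|yq a Y 0 q| / ‖D‖) ^ 2 ≤ ∑ q ∈ Finset.Icc 1 Y, ∑ A ∈ Finset.Icc 1 ⌊T⌋₊,
          yq a Y 0 q ^ 2 * K q A r := by
        calc (|yq a Y 0 q| / ‖D‖) ^ 2 = yq a Y 0 q ^ 2 * (‖D‖ ^ 2)⁻¹ := by
              rw [div_pow, sq_abs, div_eq_mul_inv]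
          _ ≤ yq a Y 0 q ^ 2 * K q A r := by
              simp only [hK]
              gcongr
          _ ≤ ∑ A ∈ Finset.Icc 1 ⌊T⌋₊, yq a Y 0 q ^ 2 * K q A r :=
              Finset.single_le_sum (f := fun A => yq a Y 0 q ^ 2 * K q A r)
                (fun A _ => mul_nonneg (sq_nonneg _) (hKnn _ _ _)) hAT
          _ ≤ _ := Finset.single_le_sum
                (f := fun q => ∑ A ∈ Finset.Icc 1 ⌊T⌋₊, yq a Y 0 q ^ 2 * K q A r)
                (fun q _ => Finset.sum_nonneg fun A _ => mul_nonneg (sq_nonneg _) (hKnn _ _ _)) hqmem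
      calc ‖∑ h ∈ Finset.Icc 1 Y, (a h : ℂ) * phi (h * z)‖ ^ 2
          ≤ (|yq a Y 0 q| / ‖D‖ + (C0 + 5) * Y * S) ^ 2 := pow_le_pow_left₀ (norm_nonneg _) hp 2
        _ ≤ 2 * (|yq a Y 0 q| / ‖D‖) ^ 2 + 2 * ((C0 + 5) * Y * S) ^ 2 := by
            nlinarith [sq_nonneg (|yq a Y 0 q| / ‖D‖ - (C0 + 5) * Y * S)]
        _ ≤ F r := by
            simp only [hF]
            linarith
  -- integrate
  have hFint : Integrable F (volume.restrict (Ioc 0 R)) := by
    simp only [hF]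
    apply Integrable.add
    · apply Integrable.const_mul
      apply integrable_finsetSum
      intro q hq
      apply integrable_finsetSum
      intro A hA
      exact ((hKint q hq A hA).1.integrableOn).const_mul _
    · exact integrable_const _
  have hstep1 : ∫ r in Ioc (0:ℝ) R, ‖Gr a Y (zT T) r‖ ^ 2 ≤ ∫ r in Ioc (0:ℝ) R, F r := by
    apply integral_mono_of_nonneg
    · exact Filter.Eventually.of_forall fun r => sq_nonneg _
    · exact hFint
    · exact (ae_restrict_iff' measurableSet_Ioc).2 (Filter.Eventually.of_forall hpt)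
  have hKR : ∀ q ∈ Finset.Icc 1 Y, ∀ A ∈ Finset.Icc 1 ⌊T⌋₊, ∫ r in Ioc (0:ℝ) R, K q A r ≤
      4 * q * T * (A : ℝ)⁻¹ := by
    intro q hq A hA
    obtain ⟨k1, k2⟩ := hKint q hq A hA
    refine le_trans ?_ k2
    exact setIntegral_le_integral k1 (Filter.Eventually.of_forall fun r => hKnn _ _ _)
  have hstep2 : ∫ r in Ioc (0:ℝ) R, F r = 2 * (∑ q ∈ Finset.Icc 1 Y, ∑ A ∈ Finset.Icc 1 ⌊T⌋₊,
      yq a Y 0 q ^ 2 * ∫ r in Ioc (0:ℝ) R, K q A r) + R * (2 * ((C0 + 5) * Y * S) ^ 2) := by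
    simp only [hF]
    rw [integral_add]
    · rw [integral_const_mul, integral_finsetSum]
      · congr 1
        · congr 1
          apply Finset.sum_congr rfl
          intro q hq
          rw [integral_finsetSum]
          · apply Finset.sum_congr rfl
            intro A hA
            rw [integral_const_mul]
          · intro A hA
            exact ((hKint q hq A hA).1.integrableOn).const_mul _
        · rw [setIntegral_const]
          simp [hR0.le]
      · intro q hq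
        apply integrable_finsetSum
        intro A hA
        exact ((hKint q hq A hA).1.integrableOn).const_mul _
    · apply Integrable.const_mul
      apply integrable_finsetSum
      intro q hq
      apply integrable_finsetSum
      intro A hA
      exact ((hKint q hq A hA).1.integrableOn).const_mul _
    · exact integrable_const _
  have hharm : ∑ A ∈ Finset.Icc 1 ⌊T⌋₊, (A : ℝ)⁻¹ ≤ 2 * Real.log T := by
    have h1 := harmonic_floor_le_one_add_log T (by linarith)
    rw [harmonic_eq_sum_Icc] at h1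
    push_cast at h1
    linarith
  have hstep3 : ∑ q ∈ Finset.Icc 1 Y, ∑ A ∈ Finset.Icc 1 ⌊T⌋₊,
      yq a Y 0 q ^ 2 * ∫ r in Ioc (0:ℝ) R, K q A r ≤
      8 * T * Real.log T * ∑ q ∈ Finset.Icc 1 Y, (q : ℝ) * yq a Y 0 q ^ 2 := by
    rw [Finset.mul_sum]
    apply Finset.sum_le_sum
    intro q hq
    calc ∑ A ∈ Finset.Icc 1 ⌊T⌋₊, yq a Y 0 q ^ 2 * ∫ r in Ioc (0:ℝ) R, K q A r
        ≤ ∑ A ∈ Finset.Icc 1 ⌊T⌋₊, yq a Y 0 q ^ 2 * (4 * q * T * (A : ℝ)⁻¹) := by
          apply Finset.sum_le_sum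
          intro A hA
          exact mul_le_mul_of_nonneg_left (hKR q hq A hA) (sq_nonneg _)
      _ = (yq a Y 0 q ^ 2 * (4 * q * T)) * ∑ A ∈ Finset.Icc 1 ⌊T⌋₊, (A : ℝ)⁻¹ := by
          rw [Finset.mul_sum]
          apply Finset.sum_congr rfl
          intro A _
          ring
      _ ≤ (yq a Y 0 q ^ 2 * (4 * q * T)) * (2 * Real.log T) := by
          gcongr
      _ = 8 * T * Real.log T * ((q : ℝ) * yq a Y 0 q ^ 2) := by ring
  have hR3 : R * (2 * ((C0 + 5) * Y * S) ^ 2) = 2 * (C0 + 5) ^ 2 * T / (Y : ℝ) ^ 3 * S ^ 2 := by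
    rw [hR]; field_simp
  refine le_trans hstep1 ?_
  rw [hstep2, hR3]
  set Q := ∑ q ∈ Finset.Icc 1 Y, (q : ℝ) * yq a Y 0 q ^ 2 with hQ
  have hQ0 : 0 ≤ Q := Finset.sum_nonneg fun q _ => mul_nonneg (Nat.cast_nonneg _) (sq_nonneg _)
  have f1 : 2 * (∑ q ∈ Finset.Icc 1 Y, ∑ A ∈ Finset.Icc 1 ⌊T⌋₊,
      yq a Y 0 q ^ 2 * ∫ r in Ioc (0:ℝ) R, K q A r) ≤ 16 * T * Real.log T * Q := by
    linarith
  have f2 : 16 * T * Real.log T * Q ≤ (16 + 2 * (C0 + 5) ^ 2) * T * Real.log T * Q := by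
    gcongr
    nlinarith [sq_nonneg (C0 + 5)]
  have f3 : 2 * (C0 + 5) ^ 2 * T / (Y : ℝ) ^ 3 * S ^ 2 ≤
      (16 + 2 * (C0 + 5) ^ 2) * T / (Y : ℝ) ^ 3 * S ^ 2 * (1 + Real.log T) ^ 2 := by
    have g1 : 2 * (C0 + 5) ^ 2 * T / (Y : ℝ) ^ 3 * S ^ 2 ≤
        (16 + 2 * (C0 + 5) ^ 2) * T / (Y : ℝ) ^ 3 * S ^ 2 := by
      gcongr
      linarith
    refine le_trans g1 ?_
    apply le_mul_of_one_le_right (by positivity)
    exact one_le_pow₀ (by linarith)
  linarith

end Pool.Agent.ZR
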