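import Pool.Agent.ZR.Defs
import Pool.Agent.H6.LMol
import Pool.Agent.H6.LCoef

/-!
# Mean values near the 1-line
Gaussian positivity: `∫ e^(-(t/T)²) |∑ c_n n^(ikt)|² dt ≤ C ∑ |c_n|² (T + n)` for absolutely convergent
series (finite sums: `Pool.Agent.H6.LMol.dirichlet_gauss`, then a limit).
Coefficients of `ζ²` and `1/ζ²`: `|.| ≤ τ(n)`, `∑ τ(n)² n^(-1-2b) ≤ C b^(-4)`
(see `Pool.Agent.H6.LCoef`), `b = 1/log T`.
-/

set_option autoImplicit false

open Complex MeasureTheory Set Finset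

namespace Pool.Agent.ZR

namespace XMx

open Pool.Agent.H6 (gker dirichlet_gauss tau zs zs_le tau_sum_le' tau_summable rpow_tele)

lemma tail_aux {δ : ℝ} (hδ : 0 < δ) {m : ℕ} (hm : 1 ≤ m) (N : ℕ) (hN : m ≤ N) :
    ∑ n ∈ Finset.Ioc m N, (n : ℝ) ^ (-(1 + δ)) ≤ 1 / δ * ((m : ℝ) ^ (-δ) - (N : ℝ) ^ (-δ)) := by
  induction N, hN using Nat.le_induction with
  | base => simp
  | succ N hN ih =>
    rw [Finset.sum_Ioc_succ_top hN]
    have h1 := rpow_tele hδ (j := (N : ℝ)) (by exact_mod_cast (by omega : 0 < N))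
    have h2 : ((N : ℝ) + 1) ^ (-(1 + δ)) ≤ 1 / δ * ((N : ℝ) ^ (-δ) - ((N : ℝ) + 1) ^ (-δ)) := by
      rw [one_div, ← div_eq_inv_mul, le_div_iff₀ hδ]
      linarith
    push_cast
    linarith

lemma tail_sum {a : ℝ} (ha : 1 < a) {m : ℕ} (hm : 1 ≤ m) (N : ℕ) (hN : m ≤ N) :
    ∑ n ∈ Finset.Ioc m N, ((m : ℝ) / n) ^ a ≤ m / (a - 1) := by
  have hδ : 0 < a - 1 := by linarith
  have hm0 : (0 : ℝ) < m := by exact_mod_cast hm
  have h1 := tail_aux hδ hm N hN
  have h2 : ∀ n ∈ Finset.Ioc m N, ((m : ℝ) / n) ^ a = (m : ℝ) ^ a * (n : ℝ) ^ (-(1 + (a - 1))) := by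
    intro n hn
    have hn0 : (0 : ℝ) < n := by
      have := (Finset.mem_Ioc.mp hn).1
      exact_mod_cast (by omega : 0 < n)
    rw [Real.div_rpow hm0.le hn0.le, Real.rpow_neg hn0.le, show 1 + (a - 1) = a by ring]
    rfl
  rw [Finset.sum_congr rfl h2, ← Finset.mul_sum]
  calc (m : ℝ) ^ a * ∑ n ∈ Finset.Ioc m N, (n : ℝ) ^ (-(1 + (a - 1)))
      ≤ (m : ℝ) ^ a * (1 / (a - 1) * ((m : ℝ) ^ (-(a - 1)) - (N : ℝ) ^ (-(a - 1)))) :=
        mul_le_mul_of_nonneg_left h1 (by positivity)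
    _ ≤ (m : ℝ) ^ a * (1 / (a - 1) * (m : ℝ) ^ (-(a - 1))) := by
        apply mul_le_mul_of_nonneg_left _ (by positivity)
        apply mul_le_mul_of_nonneg_left _ (by positivity)
        have : 0 ≤ (N : ℝ) ^ (-(a - 1)) := by positivity
        linarith
    _ = ((m : ℝ) ^ a * (m : ℝ) ^ (-(a - 1))) / (a - 1) := by ring
    _ = m / (a - 1) := by
        rw [← Real.rpow_add hm0, show a + -(a - 1) = 1 by ring, Real.rpow_one]

lemma head_aux {a : ℝ} (ha : 0 < a) (M : ℕ) (hM : 1 ≤ M) :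
    ∑ n ∈ Finset.Ico 1 M, (n : ℝ) ^ a ≤ 1 / (a + 1) * (M : ℝ) ^ (a + 1) := by
  induction M, hM using Nat.le_induction with
  | base => simp; positivity
  | succ M hM ih =>
    rw [Finset.sum_Ico_succ_top hM]
    have hM0 : (0 : ℝ) < M := by exact_mod_cast hM
    have h1 : 1 + (a + 1) * (1 / (M : ℝ)) ≤ (1 + 1 / (M : ℝ)) ^ (a + 1) :=
      one_add_mul_self_le_rpow_one_add (by have : (0 : ℝ) ≤ 1 / (M : ℝ) := by positivity
                                           linarith) (by linarith)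
    have h2 : ((M : ℝ) + 1) ^ (a + 1) = (M : ℝ) ^ (a + 1) * (1 + 1 / (M : ℝ)) ^ (a + 1) := by
      rw [← Real.mul_rpow hM0.le (by positivity)]
      congr 1
      field_simp
    have h3 : (M : ℝ) ^ (a + 1) = (M : ℝ) ^ a * M := by
      rw [Real.rpow_add hM0, Real.rpow_one]
    have h4 : (M : ℝ) ^ (a + 1) + (a + 1) * (M : ℝ) ^ a ≤ ((M : ℝ) + 1) ^ (a + 1) := by
      rw [h2]
      calc (M : ℝ) ^ (a + 1) + (a + 1) * (M : ℝ) ^ a
          = (M : ℝ) ^ (a + 1) * (1 + (a + 1) * (1 / (M : ℝ))) := by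
            rw [h3]; field_simp
        _ ≤ _ := mul_le_mul_of_nonneg_left h1 (by positivity)
    have h5 : 1 / (a + 1) * ((M : ℝ) ^ (a + 1) + (a + 1) * (M : ℝ) ^ a) ≤
        1 / (a + 1) * ((M : ℝ) + 1) ^ (a + 1) := mul_le_mul_of_nonneg_left h4 (by positivity)
    have h6 : 1 / (a + 1) * ((M : ℝ) ^ (a + 1) + (a + 1) * (M : ℝ) ^ a) =
        1 / (a + 1) * (M : ℝ) ^ (a + 1) + (M : ℝ) ^ a := by field_simp
    push_cast
    linarith

lemma head_sum {a : ℝ} (ha : 0 < a) {m : ℕ} (hm : 1 ≤ m) :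
    ∑ n ∈ Finset.Ico 1 m, ((n : ℝ) / m) ^ a ≤ m / (a + 1) := by
  have hm0 : (0 : ℝ) < m := by exact_mod_cast hm
  have h1 := head_aux ha m hm
  have h2 : ∀ n ∈ Finset.Ico 1 m, ((n : ℝ) / m) ^ a = (m : ℝ) ^ (-a) * (n : ℝ) ^ a := by
    intro n hn
    rw [Real.div_rpow (by positivity) hm0.le, Real.rpow_neg hm0.le]
    field_simp
  rw [Finset.sum_congr rfl h2, ← Finset.mul_sum]
  calc (m : ℝ) ^ (-a) * ∑ n ∈ Finset.Ico 1 m, (n : ℝ) ^ a
      ≤ (m : ℝ) ^ (-a) * (1 / (a + 1) * (m : ℝ) ^ (a + 1)) :=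
        mul_le_mul_of_nonneg_left h1 (by positivity)
    _ = ((m : ℝ) ^ (-a) * (m : ℝ) ^ (a + 1)) / (a + 1) := by ring
    _ = m / (a + 1) := by
        rw [← Real.rpow_add hm0, show -a + (a + 1) = 1 by ring, Real.rpow_one]

lemma exp_sq_le (x : ℝ) : Real.exp (-x ^ 2) ≤ 13 / 10 * Real.exp (-x) := by
  have h1 : Real.exp (-x ^ 2) ≤ Real.exp (1 / 4 + -x) := by
    apply Real.exp_le_exp.mpr
    nlinarith [sq_nonneg (x - 1 / 2)]
  rw [Real.exp_add] at h1
  have h2 : Real.exp (1 / 4) ≤ 13 / 10 := by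
    by_contra h
    push Not at h
    have h3 : Real.exp (1 / 4) ^ 4 = Real.exp 1 := by
      rw [← Real.exp_nat_mul]; norm_num
    have h4 : (13 / 10 : ℝ) ^ 4 < Real.exp (1 / 4) ^ 4 := pow_lt_pow_left₀ h (by norm_num) (by norm_num)
    rw [h3] at h4
    have := Real.exp_one_lt_d9
    norm_num at h4
    linarith
  exact h1.trans (mul_le_mul_of_nonneg_right h2 (Real.exp_pos _).le)

lemma row_sum {T : ℝ} (hT : 3 ≤ T) {m : ℕ} (hm : 1 ≤ m) (s : Finset ℕ) (hs : ∀ n ∈ s, 1 ≤ n) :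
    ∑ n ∈ s, Real.exp (-((T / 2) * (Real.log m - Real.log n)) ^ 2) ≤ 1 + 11 * m / T := by
  set a : ℝ := T / 2 with ha
  have ha1 : 1 < a := by rw [ha]; linarith
  have hm0 : (0 : ℝ) < m := by exact_mod_cast hm
  set N : ℕ := s.sup id + m with hN
  have hmN : m ≤ N := by omega
  have hsub : s ⊆ Finset.Icc 1 N := by
    intro n hn
    rw [Finset.mem_Icc]
    exact ⟨hs n hn, (Finset.le_sup (f := id) hn).trans (by omega)⟩
  have hterm : ∀ n ∈ Finset.Icc 1 N, Real.exp (-(a * (Real.log m - Real.log n)) ^ 2) ≤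
      (if n = m then (1 : ℝ) else 0) + (if n < m then 13 / 10 * ((n : ℝ) / m) ^ a else 0) +
        (if m < n then 13 / 10 * ((m : ℝ) / n) ^ a else 0) := by
    intro n hn
    have hn0 : (0 : ℝ) < n := by
      have := (Finset.mem_Icc.mp hn).1
      exact_mod_cast (by omega : 0 < n)
    rcases lt_trichotomy n m with h | h | h
    · rw [if_neg h.ne, if_pos h, if_neg (by omega)]
      have e1 := exp_sq_le (a * (Real.log m - Real.log n))
      have e2 : Real.exp (-(a * (Real.log m - Real.log n))) = ((n : ℝ) / m) ^ a := by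
        rw [Real.rpow_def_of_pos (by positivity), Real.log_div hn0.ne' hm0.ne']
        congr 1; ring
      rw [e2] at e1
      linarith
    · subst h
      simp
    · rw [if_neg h.ne', if_neg (by omega), if_pos h]
      have e1 := exp_sq_le (a * (Real.log n - Real.log m))
      have e2 : Real.exp (-(a * (Real.log n - Real.log m))) = ((m : ℝ) / n) ^ a := by
        rw [Real.rpow_def_of_pos (by positivity), Real.log_div hm0.ne' hn0.ne']
        congr 1; ring
      have e3 : (a * (Real.log m - Real.log n)) ^ 2 = (a * (Real.log n - Real.log m)) ^ 2 := by ring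
      rw [e2] at e1
      rw [e3]
      linarith
  have h1 : ∑ n ∈ Finset.Icc 1 N, (if n = m then (1 : ℝ) else 0) ≤ 1 := by
    rw [Finset.sum_ite_eq']
    split_ifs <;> norm_num
  have h2 : ∑ n ∈ Finset.Icc 1 N, (if n < m then 13 / 10 * ((n : ℝ) / m) ^ a else 0) ≤
      13 / 10 * (m / (a + 1)) := by
    rw [← Finset.sum_filter, ← Finset.mul_sum]
    have : (Finset.Icc 1 N).filter (fun n => n < m) = Finset.Ico 1 m := by
      ext n
      simp only [Finset.mem_filter, Finset.mem_Icc, Finset.mem_Ico]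
      omega
    rw [this]
    exact mul_le_mul_of_nonneg_left (head_sum (by linarith) hm) (by norm_num)
  have h3 : ∑ n ∈ Finset.Icc 1 N, (if m < n then 13 / 10 * ((m : ℝ) / n) ^ a else 0) ≤
      13 / 10 * (m / (a - 1)) := by
    rw [← Finset.sum_filter, ← Finset.mul_sum]
    have : (Finset.Icc 1 N).filter (fun n => m < n) = Finset.Ioc m N := by
      ext n
      simp only [Finset.mem_filter, Finset.mem_Icc, Finset.mem_Ioc]
      omega
    rw [this]
    exact mul_le_mul_of_nonneg_left (tail_sum ha1 hm N hmN) (by norm_num)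
  have h4 : (m : ℝ) / (a + 1) ≤ 2 * (m / T) := by
    rw [div_le_iff₀ (by linarith), ha]
    have : 2 * ((m : ℝ) / T) * (T / 2 + 1) = m + 2 * (m / T) := by
      field_simp
    rw [this]
    have : (0 : ℝ) ≤ m / T := by positivity
    linarith
  have h5 : (m : ℝ) / (a - 1) ≤ 6 * (m / T) := by
    rw [div_le_iff₀ (by linarith), ha]
    have : 6 * ((m : ℝ) / T) * (T / 2 - 1) = 3 * m - 6 * (m / T) := by
      field_simp
      ring
    rw [this]
    have : (m : ℝ) / T ≤ m / 3 := div_le_div_of_nonneg_left hm0.le (by norm_num) hT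
    linarith
  calc ∑ n ∈ s, Real.exp (-(a * (Real.log m - Real.log n)) ^ 2)
      ≤ ∑ n ∈ Finset.Icc 1 N, Real.exp (-(a * (Real.log m - Real.log n)) ^ 2) :=
        Finset.sum_le_sum_of_subset_of_nonneg hsub (fun _ _ _ => (Real.exp_pos _).le)
    _ ≤ ∑ n ∈ Finset.Icc 1 N, ((if n = m then (1 : ℝ) else 0) +
        (if n < m then 13 / 10 * ((n : ℝ) / m) ^ a else 0) +
        (if m < n then 13 / 10 * ((m : ℝ) / n) ^ a else 0)) := Finset.sum_le_sum hterm
    _ ≤ 1 + 13 / 10 * (m / (a + 1)) + 13 / 10 * (m / (a - 1)) := by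
        rw [Finset.sum_add_distrib, Finset.sum_add_distrib]
        linarith
    _ ≤ 1 + 11 * m / T := by
        have : 11 * (m : ℝ) / T = 11 * (m / T) := by ring
        rw [this]
        have : (0 : ℝ) ≤ m / T := by positivity
        linarith

/-- The mean value of a Dirichlet polynomial. -/
lemma mv_fin {T : ℝ} (hT : 3 ≤ T) {k : ℝ} (hk : 1 ≤ k) (s : Finset ℕ) (hs : ∀ n ∈ s, 1 ≤ n)
    (c : ℕ → ℝ) :
    ∫ t in (-T)..T, ‖∑ n ∈ s, (c n : ℂ) * cexp (I * ((k * Real.log n : ℝ) : ℂ) * t)‖ ^ 2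
      ≤ 60 * ∑ n ∈ s, c n ^ 2 * (T + n) := by
  have hT0 : 0 < T := by linarith
  set β : ℝ := 1 / T ^ 2 with hβ
  have hβ0 : 0 < β := by positivity
  set lam : ℕ → ℝ := fun n => k * Real.log n with hlam
  obtain ⟨hint, hle⟩ := dirichlet_gauss hβ0 s c lam
  set F : ℝ → ℝ := fun t => ‖∑ n ∈ s, (c n : ℂ) * cexp (I * lam n * t)‖ ^ 2 with hF
  have hFc : Continuous F := by
    simp only [hF]
    fun_prop
  have hF0 : ∀ t, 0 ≤ F t := fun t => by positivity
  -- comparison with the Gaussian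
  have h1 : ∫ t in (-T)..T, F t ≤ Real.exp 1 * ∫ t : ℝ, F t * Real.exp (-(β * t ^ 2)) := by
    have e1 : ∫ t in (-T)..T, F t ≤ ∫ t in (-T)..T, Real.exp 1 * (F t * Real.exp (-(β * t ^ 2))) := by
      apply intervalIntegral.integral_mono_on (by linarith) (hFc.intervalIntegrable _ _)
      · apply Continuous.intervalIntegrable
        fun_prop
      · intro t ht
        have : t ^ 2 ≤ T ^ 2 := by
          apply sq_le_sq'
          · linarith [ht.1]
          · exact ht.2
        have h : β * t ^ 2 ≤ 1 := by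
          rw [hβ, one_div_mul_eq_div, div_le_one (by positivity)]
          exact this
        have h2 : 1 ≤ Real.exp 1 * Real.exp (-(β * t ^ 2)) := by
          rw [← Real.exp_add]
          exact Real.one_le_exp (by linarith)
        calc F t = F t * 1 := by ring
          _ ≤ F t * (Real.exp 1 * Real.exp (-(β * t ^ 2))) := mul_le_mul_of_nonneg_left h2 (hF0 t)
          _ = _ := by ring
    rw [intervalIntegral.integral_const_mul] at e1
    refine e1.trans (mul_le_mul_of_nonneg_left ?_ (Real.exp_pos _).le)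
    rw [intervalIntegral.integral_of_le (by linarith)]
    exact setIntegral_le_integral hint
      (Filter.Eventually.of_forall (fun t => mul_nonneg (hF0 t) (Real.exp_pos _).le))
  -- the kernel
  have hker : ∀ m n : ℕ, gker β (lam m - lam n) ≤ (√Real.pi * T) *
      Real.exp (-((T / 2) * (Real.log m - Real.log n)) ^ 2) := by
    intro m n
    unfold gker
    have e1 : √(Real.pi / β) = √Real.pi * T := by
      rw [hβ, div_div_eq_mul_div, div_one, Real.sqrt_mul Real.pi_pos.le, Real.sqrt_sq hT0.le]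
    rw [e1]
    apply mul_le_mul_of_nonneg_left _ (by positivity)
    apply Real.exp_le_exp.mpr
    have e2 : (lam m - lam n) ^ 2 / (4 * β) = k ^ 2 * (T / 2 * (Real.log m - Real.log n)) ^ 2 := by
      rw [hβ, hlam]
      field_simp
      ring
    rw [e2]
    have : 1 ≤ k ^ 2 := one_le_pow₀ hk
    nlinarith [sq_nonneg (T / 2 * (Real.log m - Real.log n))]
  have h2 : ∑ m ∈ s, ∑ n ∈ s, |c m| * |c n| * gker β (lam m - lam n) ≤
      ∑ m ∈ s, c m ^ 2 * ((√Real.pi * T) * (1 + 11 * m / T)) := by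
    set K : ℕ → ℕ → ℝ := fun m n => (√Real.pi * T) *
      Real.exp (-((T / 2) * (Real.log m - Real.log n)) ^ 2) with hK
    have hK0 : ∀ r s, 0 ≤ K r s := fun r s => by simp only [hK]; positivity
    have hKs : ∀ r s, K r s = K s r := fun r s => by
      simp only [hK]
      congr 3
      ring
    calc ∑ m ∈ s, ∑ n ∈ s, |c m| * |c n| * gker β (lam m - lam n)
        ≤ ∑ r ∈ s, ∑ q ∈ s, (c r ^ 2 * K r q / 2 + c q ^ 2 * K r q / 2) := by
          refine Finset.sum_le_sum fun r _ => Finset.sum_le_sum fun q _ => ?_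
          have e1 : |c r| * |c q| * gker β (lam r - lam q) ≤ |c r| * |c q| * K r q :=
            mul_le_mul_of_nonneg_left (hker r q) (by positivity)
          have e2 := mul_nonneg (sq_nonneg (|c r| - |c q|)) (hK0 r q)
          rw [← sq_abs (c r), ← sq_abs (c q)]
          nlinarith
      _ = ∑ r ∈ s, c r ^ 2 * ∑ q ∈ s, K r q := by
          simp_rw [Finset.sum_add_distrib]
          rw [Finset.sum_comm (f := fun r q => c q ^ 2 * K r q / 2), ← Finset.sum_add_distrib]
          refine Finset.sum_congr rfl fun r _ => ?_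
          rw [← Finset.sum_add_distrib, Finset.mul_sum]
          refine Finset.sum_congr rfl fun q _ => ?_
          rw [hKs q r]
          ring
      _ ≤ _ := by
          refine Finset.sum_le_sum fun r hr => mul_le_mul_of_nonneg_left ?_ (sq_nonneg _)
          simp only [hK]
          rw [← Finset.mul_sum]
          exact mul_le_mul_of_nonneg_left (row_sum hT (hs r hr) s hs) (by positivity)
  have h3 : ∑ m ∈ s, c m ^ 2 * ((√Real.pi * T) * (1 + 11 * m / T)) ≤
      (√Real.pi * 11) * ∑ m ∈ s, c m ^ 2 * (T + m) := by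
    rw [Finset.mul_sum]
    refine Finset.sum_le_sum fun m _ => ?_
    have e1 : c m ^ 2 * ((√Real.pi * T) * (1 + 11 * m / T)) = c m ^ 2 * √Real.pi * (T + 11 * m) := by
      field_simp
    rw [e1]
    have e2 : 0 ≤ c m ^ 2 * √Real.pi * (10 * T) := by positivity
    nlinarith
  have hsum0 : 0 ≤ ∑ m ∈ s, c m ^ 2 * (T + m) :=
    Finset.sum_nonneg fun m _ => by positivity
  have hpi : √Real.pi ≤ 1.8 := by
    rw [Real.sqrt_le_left (by norm_num)]
    have := Real.pi_lt_d2
    norm_num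
    linarith
  have he := Real.exp_one_lt_d9
  calc ∫ t in (-T)..T, F t ≤ Real.exp 1 * ∫ t : ℝ, F t * Real.exp (-(β * t ^ 2)) := h1
    _ ≤ Real.exp 1 * ((√Real.pi * 11) * ∑ m ∈ s, c m ^ 2 * (T + m)) := by
        apply mul_le_mul_of_nonneg_left _ (Real.exp_pos _).le
        exact hle.trans (h2.trans h3)
    _ = (Real.exp 1 * √Real.pi * 11) * ∑ m ∈ s, c m ^ 2 * (T + m) := by ring
    _ ≤ 60 * ∑ m ∈ s, c m ^ 2 * (T + m) := by
        apply mul_le_mul_of_nonneg_right _ hsum0
        have h0 : 0 ≤ √Real.pi := Real.sqrt_nonneg _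
        have : Real.exp 1 * √Real.pi ≤ 2.7182818286 * 1.8 :=
          mul_le_mul he.le hpi h0 (by norm_num)
        linarith

/-- The mean value of an absolutely convergent Dirichlet series. -/
lemma mv_inf {T : ℝ} (hT : 3 ≤ T) {k : ℝ} (hk : 1 ≤ k) (c : ℕ → ℝ)
    (hc : Summable (fun n => |c n|)) (h0 : c 0 = 0) {B : ℝ}
    (hB : ∀ N : ℕ, ∑ n ∈ Finset.Ico 1 N, c n ^ 2 * (T + n) ≤ B) :
    ∫ t in (-T)..T, ‖∑' n : ℕ, (c n : ℂ) * cexp (I * ((k * Real.log n : ℝ) : ℂ) * t)‖ ^ 2
      ≤ 60 * B := by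
  set e : ℕ → ℝ → ℂ := fun n t => (c n : ℂ) * cexp (I * ((k * Real.log n : ℝ) : ℂ) * t) with he
  have hnorm : ∀ n t, ‖e n t‖ = |c n| := by
    intro n t
    simp only [he]
    rw [norm_mul, Complex.norm_real, Real.norm_eq_abs]
    have : ‖cexp (I * ((k * Real.log n : ℝ) : ℂ) * t)‖ = 1 := by
      rw [show I * ((k * Real.log n : ℝ) : ℂ) * t = ((k * Real.log n * t : ℝ) : ℂ) * I by
        push_cast; ring]
      exact Complex.norm_exp_ofReal_mul_I _
    rw [this, mul_one]
  have hsum : ∀ t, Summable (fun n => e n t) := by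
    intro t
    apply Summable.of_norm
    simp_rw [hnorm]
    exact hc
  have hlim : Filter.Tendsto (fun N : ℕ => ∫ t in (-T)..T, ‖∑ n ∈ Finset.range N, e n t‖ ^ 2)
      Filter.atTop (nhds (∫ t in (-T)..T, ‖∑' n : ℕ, e n t‖ ^ 2)) := by
    apply intervalIntegral.tendsto_integral_filter_of_dominated_convergence
      (fun _ => (∑' n, |c n|) ^ 2)
    · refine Filter.Eventually.of_forall fun N => ?_
      apply Continuous.aestronglyMeasurable
      simp only [he]
      fun_prop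
    · refine Filter.Eventually.of_forall fun N => Filter.Eventually.of_forall fun t _ => ?_
      rw [Real.norm_of_nonneg (by positivity)]
      apply pow_le_pow_left₀ (norm_nonneg _)
      refine (norm_sum_le _ _).trans ?_
      simp_rw [hnorm]
      exact hc.sum_le_tsum _ (fun n _ => abs_nonneg _)
    · exact intervalIntegrable_const
    · refine Filter.Eventually.of_forall fun t _ => ?_
      exact ((hsum t).hasSum.tendsto_sum_nat.norm).pow 2
  apply le_of_tendsto hlim
  refine Filter.Eventually.of_forall fun N => ?_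
  have hint : ∀ t, ∑ n ∈ Finset.range N, e n t = ∑ n ∈ Finset.Ico 1 N, e n t := by
    intro t
    symm
    apply Finset.sum_subset
    · intro n hn
      rw [Finset.mem_range]
      exact (Finset.mem_Ico.mp hn).2
    · intro n hn hn'
      have : n = 0 := by
        rw [Finset.mem_range] at hn
        rw [Finset.mem_Ico] at hn'
        omega
      subst this
      simp [he, h0]
  simp_rw [hint]
  refine (mv_fin hT hk (Finset.Ico 1 N) (fun n hn => (Finset.mem_Ico.mp hn).1) c).trans ?_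
  exact mul_le_mul_of_nonneg_left (hB N) (by norm_num)

/-- Coefficients bounded by the divisor function. -/
lemma key {T : ℝ} (hT : 3 ≤ T) {k : ℝ} (hk : 1 ≤ k) {δ : ℝ} (hδ : 1 / Real.log T ≤ δ)
    (f : ℕ → ℝ) (hf : ∀ n, |f n| ≤ tau n) :
    ∫ t in (-T)..T, ‖∑' n : ℕ, ((f n * (n : ℝ) ^ (-(1 + δ)) : ℝ) : ℂ) *
      cexp (I * ((k * Real.log n : ℝ) : ℂ) * t)‖ ^ 2 ≤ 1920 * T := by
  have hT0 : 0 < T := by linarith
  have hL : 0 < Real.log T := Real.log_pos (by linarith)
  have hδ0 : 0 < δ := lt_of_lt_of_le (by positivity) hδ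
  have hf0 : f 0 = 0 := by
    have := hf 0
    simp [tau] at this
    exact this
  set c : ℕ → ℝ := fun n => f n * (n : ℝ) ^ (-(1 + δ)) with hc
  have hcabs : ∀ n, |c n| ≤ (tau n : ℝ) ^ 1 * (n : ℝ) ^ (-(1 + δ)) := by
    intro n
    simp only [hc]
    rw [abs_mul, abs_of_nonneg (Real.rpow_nonneg (Nat.cast_nonneg n) _), pow_one]
    exact mul_le_mul_of_nonneg_right (hf n) (by positivity)
  have hcs : Summable (fun n => |c n|) :=
    Summable.of_nonneg_of_le (fun n => abs_nonneg _) hcabs (tau_summable hδ0 1)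
  have hB : ∀ N : ℕ, ∑ n ∈ Finset.Ico 1 N, c n ^ 2 * (T + n) ≤ 32 * T := by
    intro N
    have hN : ∀ n ∈ Finset.Ico 1 N, 1 ≤ n := fun n hn => (Finset.mem_Ico.mp hn).1
    have h1 : ∀ n ∈ Finset.Ico 1 N, c n ^ 2 * (T + n) ≤
        T * ((tau n : ℝ) ^ 2 * (n : ℝ) ^ (-(1 + 1 : ℝ))) +
          (tau n : ℝ) ^ 2 * (n : ℝ) ^ (-(1 + 2 * δ)) := by
      intro n hn
      have hn1 : (1 : ℝ) ≤ n := by exact_mod_cast hN n hn
      have hn0 : (0 : ℝ) < n := by linarith
      have e1 : c n ^ 2 ≤ ((tau n : ℝ) * (n : ℝ) ^ (-(1 + δ))) ^ 2 := by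
        rw [← sq_abs (c n)]
        apply pow_le_pow_left₀ (abs_nonneg _)
        have := hcabs n
        rwa [pow_one] at this
      have e2 : ((tau n : ℝ) * (n : ℝ) ^ (-(1 + δ))) ^ 2 =
          (tau n : ℝ) ^ 2 * (n : ℝ) ^ (-(2 + 2 * δ)) := by
        rw [mul_pow, ← Real.rpow_natCast ((n : ℝ) ^ (-(1 + δ))) 2, ← Real.rpow_mul hn0.le]
        congr 2
        push_cast; ring
      have e3 : (n : ℝ) ^ (-(2 + 2 * δ)) ≤ (n : ℝ) ^ (-(1 + 1 : ℝ)) :=
        Real.rpow_le_rpow_of_exponent_le hn1 (by linarith)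
      have e4 : (n : ℝ) ^ (-(2 + 2 * δ)) * n = (n : ℝ) ^ (-(1 + 2 * δ)) := by
        nth_rw 2 [← Real.rpow_one (n : ℝ)]
        rw [← Real.rpow_add hn0]
        congr 1; ring
      calc c n ^ 2 * (T + n) ≤ ((tau n : ℝ) ^ 2 * (n : ℝ) ^ (-(2 + 2 * δ))) * (T + n) := by
            rw [← e2]
            exact mul_le_mul_of_nonneg_right e1 (by positivity)
        _ = T * ((tau n : ℝ) ^ 2 * (n : ℝ) ^ (-(2 + 2 * δ))) +
            (tau n : ℝ) ^ 2 * ((n : ℝ) ^ (-(2 + 2 * δ)) * n) := by ring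
        _ ≤ _ := by
            rw [e4]
            gcongr
    have h2 := tau_sum_le' (δ := 1) one_pos 2 (Finset.Ico 1 N) hN
    have h3 := tau_sum_le' (δ := 2 * δ) (by positivity) 2 (Finset.Ico 1 N) hN
    have h4 : zs 1 ≤ 2 := by
      have := zs_le (δ := 1) one_pos
      linarith
    have h5 : zs (2 * δ) ≤ 2 * Real.exp (Real.log T / 4) := by
      have e1 := zs_le (δ := 2 * δ) (by positivity)
      have e2 : 1 / (2 * δ) ≤ Real.log T / 2 := by
        rw [div_le_iff₀ (by positivity)]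
        have : 1 ≤ δ * Real.log T := by
          rw [div_le_iff₀ hL] at hδ
          exact hδ
        linarith
      have e3 := Real.add_one_le_exp (Real.log T / 4)
      linarith
    have z1 : 0 ≤ zs 1 := Pool.Agent.H6.zs_nonneg 1
    have z2 : 0 ≤ zs (2 * δ) := Pool.Agent.H6.zs_nonneg _
    have h6 : zs 1 ^ (2 ^ 2) ≤ 16 := by
      calc zs 1 ^ (2 ^ 2) ≤ 2 ^ (2 ^ 2) := pow_le_pow_left₀ z1 h4 _
        _ = 16 := by norm_num
    have h7 : zs (2 * δ) ^ (2 ^ 2) ≤ 16 * T := by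
      calc zs (2 * δ) ^ (2 ^ 2) ≤ (2 * Real.exp (Real.log T / 4)) ^ (2 ^ 2) :=
            pow_le_pow_left₀ z2 h5 _
        _ = 16 * T := by
            rw [mul_pow, ← Real.exp_nat_mul]
            norm_num
            rw [show 4 * (Real.log T / 4) = Real.log T by ring, Real.exp_log hT0]
    calc ∑ n ∈ Finset.Ico 1 N, c n ^ 2 * (T + n)
        ≤ ∑ n ∈ Finset.Ico 1 N, (T * ((tau n : ℝ) ^ 2 * (n : ℝ) ^ (-(1 + 1 : ℝ))) +
          (tau n : ℝ) ^ 2 * (n : ℝ) ^ (-(1 + 2 * δ))) := Finset.sum_le_sum h1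
      _ = T * ∑ n ∈ Finset.Ico 1 N, (tau n : ℝ) ^ 2 * (n : ℝ) ^ (-(1 + 1 : ℝ)) +
          ∑ n ∈ Finset.Ico 1 N, (tau n : ℝ) ^ 2 * (n : ℝ) ^ (-(1 + 2 * δ)) := by
          rw [Finset.sum_add_distrib, Finset.mul_sum]
      _ ≤ T * 16 + 16 * T := by
          apply add_le_add
          · exact mul_le_mul_of_nonneg_left (h2.trans h6) hT0.le
          · exact h3.trans h7
      _ = 32 * T := by ring
  have h := mv_inf hT hk c hcs (by simp [hc, hf0]) hB
  calc _ ≤ 60 * (32 * T) := h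
    _ = 1920 * T := by ring

/-- An `L`-series with real coefficients on a vertical line. -/
lemma lseries_line (f : ℕ → ℝ) (hf0 : f 0 = 0) (σ k t : ℝ) :
    LSeries (fun n => (f n : ℂ)) ((σ : ℂ) - k * t * I) =
      ∑' n : ℕ, ((f n * (n : ℝ) ^ (-σ) : ℝ) : ℂ) * cexp (I * ((k * Real.log n : ℝ) : ℂ) * t) := by
  unfold LSeries
  apply tsum_congr
  intro n
  rcases Nat.eq_zero_or_pos n with h | h
  · subst h
    simp [hf0]
  · rw [LSeries.term_of_ne_zero h.ne']
    have hn0 : (0 : ℝ) < n := by exact_mod_cast h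
    have hnc : (n : ℂ) ≠ 0 := by exact_mod_cast hn0.ne'
    rw [div_eq_mul_inv, ← Complex.cpow_neg]
    push_cast
    rw [mul_assoc (f n : ℂ)]
    congr 1
    rw [show -((σ : ℂ) - k * t * I) = ((-σ : ℝ) : ℂ) + k * t * I by push_cast; ring,
      Complex.cpow_add _ _ hnc]
    congr 1
    · rw [← Complex.ofReal_natCast n, ← Complex.ofReal_cpow hn0.le]
    · rw [Complex.cpow_def_of_ne_zero hnc]
      congr 1
      rw [show (n : ℂ) = ((n : ℝ) : ℂ) by norm_num, ← Complex.ofReal_log hn0.le]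
      ring

/-- The coefficients of the square. -/
noncomputable def sqc (u : ℕ → ℝ) (n : ℕ) : ℝ := ∑ p ∈ n.divisorsAntidiagonal, u p.1 * u p.2

lemma sqc_le (u : ℕ → ℝ) (hu : ∀ n, |u n| ≤ 1) (n : ℕ) : |sqc u n| ≤ tau n := by
  have h4 : n.divisorsAntidiagonal.card = tau n := by
    unfold tau
    rw [← Nat.map_div_right_divisors, Finset.card_map]
  unfold sqc
  refine (Finset.abs_sum_le_sum_abs _ _).trans ?_
  have h1 : ∀ p ∈ n.divisorsAntidiagonal, |u p.1 * u p.2| ≤ (1 : ℝ) := by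
    intro p _
    rw [abs_mul]
    exact mul_le_one₀ (hu _) (abs_nonneg _) (hu _)
  refine (Finset.sum_le_sum h1).trans (le_of_eq ?_)
  rw [Finset.sum_const, h4]
  simp

lemma sqc_series (u : ℕ → ℝ) {s : ℂ} (hs : LSeriesSummable (fun n => (u n : ℂ)) s) :
    LSeries (fun n => ((sqc u n : ℝ) : ℂ)) s = LSeries (fun n => (u n : ℂ)) s ^ 2 := by
  rw [sq, ← LSeries_convolution' hs hs]
  congr 1
  funext n
  rw [LSeries.convolution_def]
  unfold sqc
  push_cast
  rfl

/-- The fourth moment. -/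
lemma fourth {T : ℝ} (hT : 3 ≤ T) {k : ℝ} (hk : 1 ≤ k) {b : ℝ} (hb : 1 / Real.log T ≤ b)
    (u : ℕ → ℝ) (hu : ∀ n, |u n| ≤ 1) :
    ∫ t in (-T)..T, ‖LSeries (fun n => (u n : ℂ)) (((1 + b : ℝ) : ℂ) - k * t * I)‖ ^ 4
      ≤ 1920 * T := by
  have hL : 0 < Real.log T := Real.log_pos (by linarith)
  have hb0 : 0 < b := lt_of_lt_of_le (by positivity) hb
  have h := key hT hk hb (sqc u) (sqc_le u hu)
  refine le_trans (le_of_eq ?_) h
  apply intervalIntegral.integral_congr
  intro t _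
  simp only
  rw [← lseries_line (sqc u) (by simp [sqc]) (1 + b) k t, sqc_series, norm_pow, ← pow_mul]
  apply LSeriesSummable_of_bounded_of_one_lt_re (m := 1)
  · intro n _
    rw [Complex.norm_real]
    exact hu n
  · simp
    exact hb0

end XMx

open XMx
open Pool.Agent.H6 (tau)

theorem xm_zeta4 : ∃ C : ℝ, 0 < C ∧ ∀ T : ℝ, 3 ≤ T →
    ∫ t in (-T)..T, ‖riemannZeta (((1 + 2 * (1 / Real.log T) : ℝ) : ℂ) - 2 * t * I)‖ ^ 4 ≤ C * T := by
  refine ⟨1920, by norm_num, fun T hT => ?_⟩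
  have hL : 0 < Real.log T := Real.log_pos (by linarith)
  have hb : 0 < 1 / Real.log T := by positivity
  have h := fourth hT (k := 2) (by norm_num) (b := 2 * (1 / Real.log T)) (by linarith)
    (fun _ => 1) (fun n => by simp)
  refine le_trans (le_of_eq ?_) h
  apply intervalIntegral.integral_congr
  intro t _
  simp only
  rw [← LSeries_one_eq_riemannZeta]
  · congr 3
  · simp
    exact hL

theorem xm_inv4 : ∃ C : ℝ, 0 < C ∧ ∀ T : ℝ, 3 ≤ T →
    ∫ t in (-T)..T, (‖riemannZeta (((1 + 1 / Real.log T : ℝ) : ℂ) - t * I)‖⁻¹) ^ 4 ≤ C * T := by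
  refine ⟨1920, by norm_num, fun T hT => ?_⟩
  have hL : 0 < Real.log T := Real.log_pos (by linarith)
  have hb : 0 < 1 / Real.log T := by positivity
  have h := fourth hT (k := 1) le_rfl (b := 1 / Real.log T) le_rfl
    (fun n => ((ArithmeticFunction.moebius n : ℤ) : ℝ)) (fun n => by
      have := ArithmeticFunction.abs_moebius_le_one (n := n)
      exact_mod_cast this)
  refine le_trans (le_of_eq ?_) h
  apply intervalIntegral.integral_congr
  intro t _
  simp only
  have hre : 1 < ((((1 + 1 / Real.log T : ℝ) : ℂ) - t * I)).re := by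
    simp
    exact hL
  have e1 := LSeries_one_mul_Lseries_moebius hre
  rw [LSeries_one_eq_riemannZeta hre] at e1
  have e2 : ‖riemannZeta (((1 + 1 / Real.log T : ℝ) : ℂ) - t * I)‖⁻¹ =
      ‖LSeries (fun n => ((ArithmeticFunction.moebius n : ℤ) : ℂ))
        (((1 + 1 / Real.log T : ℝ) : ℂ) - t * I)‖ := by
    rw [← norm_inv]
    congr 1
    exact inv_eq_of_mul_eq_one_right e1
  rw [e2]
  congr 3
  push_cast
  ring

theorem xm_Q : ∃ C : ℝ, 0 < C ∧ ∀ T : ℝ, 3 ≤ T →
    ∫ t in (-T)..T, ‖Qe T 1 (((-(1 / Real.log T) : ℝ) : ℂ) + t * I)‖ ^ 2 ≤ C * T := by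
  refine ⟨1920, by norm_num, fun T hT => ?_⟩
  have hT0 : 0 < T := by linarith
  have hL : 0 < Real.log T := Real.log_pos (by linarith)
  have he : 0 < el T := by unfold el; positivity
  set f : ℕ → ℝ := fun n => if n ∈ Finset.Icc 1 (N1 T) then mug (fun v => 1 - v / el T) n else 0
    with hf
  have hfb : ∀ n, |f n| ≤ tau n := by
    intro n
    simp only [hf]
    split_ifs with hn
    · have hm' := Finset.mem_Icc.mp hn
      have hm1 : (1 : ℝ) ≤ n := by exact_mod_cast hm'.1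
      have hlv0 : 0 ≤ Real.log n := Real.log_nonneg hm1
      have hlv : Real.log n ≤ el T := by
        have : (n : ℝ) ≤ Real.exp (el T) := by
          have := hm'.2
          unfold N1 at this
          exact (Nat.le_floor_iff (Real.exp_pos _).le).mp this
        rw [← Real.log_exp (el T)]
        exact Real.log_le_log (by linarith) this
      unfold mug
      rw [abs_mul]
      have e1 : |((ArithmeticFunction.moebius n : ℤ) : ℝ)| ≤ 1 := by
        have := ArithmeticFunction.abs_moebius_le_one (n := n)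
        exact_mod_cast this
      have e2 : |1 - Real.log n / el T| ≤ 1 := by
        have h1 : 0 ≤ Real.log n / el T := by positivity
        have h2 : Real.log n / el T ≤ 1 := (div_le_one he).mpr hlv
        rw [abs_le]; constructor <;> linarith
      have e3 : (1 : ℝ) ≤ tau n := by
        have : 0 < tau n := by
          unfold tau
          rw [Finset.card_pos]
          exact ⟨1, by rw [Nat.one_mem_divisors]; omega⟩
        exact_mod_cast this
      calc _ ≤ (1 : ℝ) * 1 := mul_le_mul e1 e2 (abs_nonneg _) (by norm_num)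
        _ ≤ _ := by linarith
    · simp
  have h := key hT (k := 1) le_rfl (δ := 1 / Real.log T) le_rfl f hfb
  refine le_trans (le_of_eq ?_) h
  apply intervalIntegral.integral_congr
  intro t _
  simp only
  congr 2
  unfold Qe ER
  rw [tsum_eq_sum (s := Finset.Icc 1 (N1 T))]
  · refine Finset.sum_congr rfl fun m hm => ?_
    simp only [hf, if_pos hm]
    have hm1 : (0 : ℝ) < m := by
      have := (Finset.mem_Icc.mp hm).1
      exact_mod_cast this
    have hmc : (m : ℂ) ≠ 0 := by exact_mod_cast hm1.ne'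
    push_cast
    rw [mul_assoc (mug (fun v => 1 - v / el T) m : ℂ)]
    congr 1
    rw [show (-(1 / 2 : ℂ) + 1 * (-(1 / (Real.log T : ℂ)) + t * I - 1 / 2))
      = ((-(1 + 1 / Real.log T) : ℝ) : ℂ) + t * I by push_cast; ring,
      Complex.cpow_add _ _ hmc]
    congr 1
    · rw [← Complex.ofReal_natCast m, ← Complex.ofReal_cpow hm1.le]
    · rw [Complex.cpow_def_of_ne_zero hmc]
      congr 1
      rw [show (m : ℂ) = ((m : ℝ) : ℂ) by norm_num, ← Complex.ofReal_log hm1.le]
      ring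
  · intro n hn
    simp only [hf, if_neg hn]
    simp

end Pool.Agent.ZR
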