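import Pool.Agent.ZR.Defs

/-!
# The residue theorem on a rectangle, simple poles
`N/D - ∑ N(z)/(D'(z) (s - z))` has removable singularities (use `dslope`); Mathlib:
`Complex.integral_boundary_rect_eq_zero_of_differentiableOn`; and the integral of `1/(s-z)` over the
boundary of the rectangle is `2πi` (e.g. by arctan / log, or deform to a circle).
-/

set_option autoImplicit false

open Complex MeasureTheory Set Finset

namespace Pool.Agent.ZR

/-- the integral over the boundary of the rectangle -/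
private noncomputable def xrI (a b T : ℝ) (f : ℂ → ℂ) : ℂ :=
  (I * (∫ t in (-T)..T, f (b + t * I)) - I * ∫ t in (-T)..T, f (a + t * I)) +
    ((∫ x in a..b, f (x - T * I)) - ∫ x in a..b, f (x + T * I))

/-- the boundary -/
private def xrB (a b T : ℝ) : Set ℂ :=
  {s | a ≤ s.re ∧ s.re ≤ b ∧ |s.im| ≤ T ∧ (s.re = a ∨ s.re = b ∨ |s.im| = T)}

private theorem xr_memR {a b T t : ℝ} (hab : a < b) (ht : t ∈ Icc (-T) T) :
    ((b : ℂ) + t * I) ∈ xrB a b T := by
  have h1 : ((b : ℂ) + t * I).re = b := by simp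
  have h2 : ((b : ℂ) + t * I).im = t := by simp
  refine ⟨?_, ?_, ?_, ?_⟩
  · rw [h1]; exact hab.le
  · rw [h1]
  · rw [h2]; exact abs_le.2 ht
  · right; left; exact h1

private theorem xr_memL {a b T t : ℝ} (hab : a < b) (ht : t ∈ Icc (-T) T) :
    ((a : ℂ) + t * I) ∈ xrB a b T := by
  have h1 : ((a : ℂ) + t * I).re = a := by simp
  have h2 : ((a : ℂ) + t * I).im = t := by simp
  refine ⟨?_, ?_, ?_, ?_⟩
  · rw [h1]
  · rw [h1]; exact hab.le
  · rw [h2]; exact abs_le.2 ht
  · left; exact h1

private theorem xr_memD {a b T x : ℝ} (hT : 0 < T) (hx : x ∈ Icc a b) :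
    ((x : ℂ) - T * I) ∈ xrB a b T := by
  have h1 : ((x : ℂ) - T * I).re = x := by simp
  have h2 : ((x : ℂ) - T * I).im = -T := by simp
  refine ⟨?_, ?_, ?_, ?_⟩
  · rw [h1]; exact hx.1
  · rw [h1]; exact hx.2
  · rw [h2, abs_neg, abs_of_pos hT]
  · right; right; rw [h2, abs_neg, abs_of_pos hT]

private theorem xr_memU {a b T x : ℝ} (hT : 0 < T) (hx : x ∈ Icc a b) :
    ((x : ℂ) + T * I) ∈ xrB a b T := by
  have h1 : ((x : ℂ) + T * I).re = x := by simp
  have h2 : ((x : ℂ) + T * I).im = T := by simp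
  refine ⟨?_, ?_, ?_, ?_⟩
  · rw [h1]; exact hx.1
  · rw [h1]; exact hx.2
  · rw [h2, abs_of_pos hT]
  · right; right; rw [h2, abs_of_pos hT]

private theorem xr_congr {a b T : ℝ} (hab : a < b) (hT : 0 < T) {f g : ℂ → ℂ}
    (h : ∀ s ∈ xrB a b T, f s = g s) : xrI a b T f = xrI a b T g := by
  unfold xrI
  have hT' : -T ≤ T := by linarith
  congr 1
  · congr 1
    · congr 1
      apply intervalIntegral.integral_congr
      intro t ht
      rw [Set.uIcc_of_le hT'] at ht
      exact h _ (xr_memR hab ht)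
    · congr 1
      apply intervalIntegral.integral_congr
      intro t ht
      rw [Set.uIcc_of_le hT'] at ht
      exact h _ (xr_memL hab ht)
  · congr 1
    · apply intervalIntegral.integral_congr
      intro t ht
      rw [Set.uIcc_of_le hab.le] at ht
      exact h _ (xr_memD hT ht)
    · apply intervalIntegral.integral_congr
      intro t ht
      rw [Set.uIcc_of_le hab.le] at ht
      exact h _ (xr_memU hT ht)

private theorem xr_intR {a b T : ℝ} (hab : a < b) (hT : 0 < T) {f : ℂ → ℂ}
    (h : ∀ s ∈ xrB a b T, ContinuousAt f s) :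
    IntervalIntegrable (fun t : ℝ => f (b + t * I)) volume (-T) T := by
  apply ContinuousOn.intervalIntegrable
  intro t ht
  rw [Set.uIcc_of_le (by linarith)] at ht
  apply ContinuousAt.continuousWithinAt
  exact ContinuousAt.comp (f := fun t : ℝ => (b : ℂ) + t * I) (g := f) (h _ (xr_memR hab ht))
    (by fun_prop)

private theorem xr_intL {a b T : ℝ} (hab : a < b) (hT : 0 < T) {f : ℂ → ℂ}
    (h : ∀ s ∈ xrB a b T, ContinuousAt f s) :
    IntervalIntegrable (fun t : ℝ => f (a + t * I)) volume (-T) T := by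
  apply ContinuousOn.intervalIntegrable
  intro t ht
  rw [Set.uIcc_of_le (by linarith)] at ht
  apply ContinuousAt.continuousWithinAt
  exact ContinuousAt.comp (f := fun t : ℝ => (a : ℂ) + t * I) (g := f) (h _ (xr_memL hab ht))
    (by fun_prop)

private theorem xr_intD {a b T : ℝ} (hab : a < b) (hT : 0 < T) {f : ℂ → ℂ}
    (h : ∀ s ∈ xrB a b T, ContinuousAt f s) :
    IntervalIntegrable (fun x : ℝ => f (x - T * I)) volume a b := by
  apply ContinuousOn.intervalIntegrable
  intro t ht
  rw [Set.uIcc_of_le hab.le] at ht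
  apply ContinuousAt.continuousWithinAt
  exact ContinuousAt.comp (f := fun x : ℝ => (x : ℂ) - T * I) (g := f) (h _ (xr_memD hT ht))
    (by fun_prop)

private theorem xr_intU {a b T : ℝ} (hab : a < b) (hT : 0 < T) {f : ℂ → ℂ}
    (h : ∀ s ∈ xrB a b T, ContinuousAt f s) :
    IntervalIntegrable (fun x : ℝ => f (x + T * I)) volume a b := by
  apply ContinuousOn.intervalIntegrable
  intro t ht
  rw [Set.uIcc_of_le hab.le] at ht
  apply ContinuousAt.continuousWithinAt
  exact ContinuousAt.comp (f := fun x : ℝ => (x : ℂ) + T * I) (g := f) (h _ (xr_memU hT ht))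
    (by fun_prop)

private theorem xr_lin {a b T : ℝ} (hab : a < b) (hT : 0 < T) {f g : ℂ → ℂ} (c : ℂ)
    (hf : ∀ s ∈ xrB a b T, ContinuousAt f s) (hg : ∀ s ∈ xrB a b T, ContinuousAt g s) :
    xrI a b T (fun s => c * f s + g s) = c * xrI a b T f + xrI a b T g := by
  unfold xrI
  have e1 : (∫ t in (-T)..T, (c * f (b + t * I) + g (b + t * I))) =
      c * (∫ t in (-T)..T, f (b + t * I)) + ∫ t in (-T)..T, g (b + t * I) := by
    rw [intervalIntegral.integral_add ((xr_intR hab hT hf).const_mul c) (xr_intR hab hT hg),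
      intervalIntegral.integral_const_mul]
  have e2 : (∫ t in (-T)..T, (c * f (a + t * I) + g (a + t * I))) =
      c * (∫ t in (-T)..T, f (a + t * I)) + ∫ t in (-T)..T, g (a + t * I) := by
    rw [intervalIntegral.integral_add ((xr_intL hab hT hf).const_mul c) (xr_intL hab hT hg),
      intervalIntegral.integral_const_mul]
  have e3 : (∫ x in a..b, (c * f (x - T * I) + g (x - T * I))) =
      c * (∫ x in a..b, f (x - T * I)) + ∫ x in a..b, g (x - T * I) := by
    rw [intervalIntegral.integral_add ((xr_intD hab hT hf).const_mul c) (xr_intD hab hT hg),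
      intervalIntegral.integral_const_mul]
  have e4 : (∫ x in a..b, (c * f (x + T * I) + g (x + T * I))) =
      c * (∫ x in a..b, f (x + T * I)) + ∫ x in a..b, g (x + T * I) := by
    rw [intervalIntegral.integral_add ((xr_intU hab hT hf).const_mul c) (xr_intU hab hT hg),
      intervalIntegral.integral_const_mul]
  rw [e1, e2, e3, e4]
  ring

private theorem xr_zero {a b T : ℝ} (hab : a < b) (hT : 0 < T) {f : ℂ → ℂ}
    (hf : ∀ s : ℂ, a ≤ s.re → s.re ≤ b → |s.im| ≤ T → DifferentiableAt ℂ f s) :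
    xrI a b T f = 0 := by
  have h := Complex.integral_boundary_rect_eq_zero_of_differentiableOn f ⟨a, -T⟩ ⟨b, T⟩ (by
    intro s hs
    rw [Complex.mem_reProdIm, Set.uIcc_of_le hab.le, Set.uIcc_of_le (by linarith : -T ≤ T)] at hs
    exact (hf s hs.1.1 hs.1.2 (abs_le.2 hs.2)).differentiableWithinAt)
  simp only [smul_eq_mul, Complex.ofReal_neg, neg_mul, ← sub_eq_add_neg] at h
  unfold xrI
  linear_combination h

/-- primitive along a segment -/
private theorem xr_seg (p q k : ℂ) (hk : k ≠ 0) {α β : ℝ} (hαβ : α ≤ β)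
    (h : ∀ t ∈ Icc α β, 0 < (k * (p + t * q)).re) :
    q * (∫ t in α..β, 1 / (p + t * q)) = log (k * (p + β * q)) - log (k * (p + α * q)) := by
  rw [← intervalIntegral.integral_const_mul]
  apply intervalIntegral.integral_eq_sub_of_hasDerivAt (f := fun t : ℝ => log (k * (p + t * q)))
  · intro t ht
    rw [Set.uIcc_of_le hαβ] at ht
    have h0 := h t ht
    have h1 : HasDerivAt (fun t : ℝ => k * (p + t * q)) (k * q) t := by
      have h2 : HasDerivAt (fun t : ℝ => (t : ℂ)) 1 t := Complex.ofRealCLM.hasDerivAt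
      have h3 := ((h2.mul_const q).const_add p).const_mul k
      simpa using h3
    have h4 := h1.clog_real (Or.inl h0)
    refine h4.congr_deriv ?_
    have h5 : p + t * q ≠ 0 := by
      intro h6
      rw [h6, mul_zero, Complex.zero_re] at h0
      exact lt_irrefl _ h0
    field_simp
  · apply ContinuousOn.intervalIntegrable
    intro t ht
    rw [Set.uIcc_of_le hαβ] at ht
    have h0 := h t ht
    have h5 : p + t * q ≠ 0 := by
      intro h6
      rw [h6, mul_zero, Complex.zero_re] at h0
      exact lt_irrefl _ h0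
    apply ContinuousAt.continuousWithinAt
    have h6 : ContinuousAt (fun y : ℝ => p + (y : ℂ) * q) t := by fun_prop
    exact continuousAt_const.mul (ContinuousAt.div continuousAt_const h6 h5)

private theorem xr_log {v : ℂ} (h1 : 0 < v.re) (h2 : v.im < 0) :
    log (I * v) = log v + Real.pi / 2 * I := by
  have hv : v ≠ 0 := by
    intro h
    rw [h, Complex.zero_re] at h1
    exact lt_irrefl _ h1
  have h3 : log (I * v) = log I + log v := by
    rw [Complex.log_mul_eq_add_log_iff I_ne_zero hv, Complex.arg_I]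
    have h4 : arg v < 0 := Complex.arg_neg_iff.2 h2
    have h5 : -(Real.pi / 2) < arg v := Complex.neg_pi_div_two_lt_arg_iff.2 (Or.inl h1)
    have h6 := Real.pi_pos
    constructor <;> linarith
  rw [h3, Complex.log_I, add_comm]

private theorem xr_inv {a b T : ℝ} (hab : a < b) (hT : 0 < T) {z : ℂ} (h1 : a < z.re)
    (h2 : z.re < b) (h3 : |z.im| < T) : xrI a b T (fun s => 1 / (s - z)) = 2 * Real.pi * I := by
  have h3' := abs_lt.1 h3
  have hT' : -T ≤ T := by linarith
  -- the four sides
  have eR : I * (∫ t in (-T)..T, 1 / ((b : ℂ) + t * I - z)) =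
      log ((b - z) + (T : ℝ) * I) - log ((b - z) + ((-T : ℝ) : ℂ) * I) := by
    have h := xr_seg ((b : ℂ) - z) I 1 one_ne_zero hT' (by
      intro t _
      simp
      exact h2)
    simp only [one_mul] at h
    rw [← h]
    congr 1
    apply intervalIntegral.integral_congr
    intro t _
    show 1 / ((b : ℂ) + t * I - z) = 1 / ((b : ℂ) - z + t * I)
    congr 1
    ring
  have eL : I * (∫ t in (-T)..T, 1 / ((a : ℂ) + t * I - z)) =
      log (-1 * ((a - z) + (T : ℝ) * I)) - log (-1 * ((a - z) + ((-T : ℝ) : ℂ) * I)) := by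
    have h := xr_seg ((a : ℂ) - z) I (-1) (by norm_num) hT' (by
      intro t _
      simp
      exact h1)
    rw [← h]
    congr 1
    apply intervalIntegral.integral_congr
    intro t _
    show 1 / ((a : ℂ) + t * I - z) = 1 / ((a : ℂ) - z + t * I)
    congr 1
    ring
  have eD : (∫ x in a..b, 1 / ((x : ℂ) - T * I - z)) =
      log (I * ((-T * I - z) + (b : ℝ) * 1)) - log (I * ((-T * I - z) + (a : ℝ) * 1)) := by
    have h := xr_seg (-T * I - z) 1 I I_ne_zero hab.le (by
      intro t _
      simp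
      linarith [h3'.1])
    rw [one_mul] at h
    rw [← h]
    apply intervalIntegral.integral_congr
    intro t _
    show 1 / ((t : ℂ) - T * I - z) = 1 / (-T * I - z + t * 1)
    congr 1
    ring
  have eU : (∫ x in a..b, 1 / ((x : ℂ) + T * I - z)) =
      log (-I * ((T * I - z) + (b : ℝ) * 1)) - log (-I * ((T * I - z) + (a : ℝ) * 1)) := by
    have h := xr_seg (T * I - z) 1 (-I) (neg_ne_zero.2 I_ne_zero) hab.le (by
      intro t _
      simp
      linarith [h3'.2])
    rw [one_mul] at h
    rw [← h]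
    apply intervalIntegral.integral_congr
    intro t _
    show 1 / ((t : ℂ) + T * I - z) = 1 / (T * I - z + t * 1)
    congr 1
    ring
  unfold xrI
  show (I * (∫ t in (-T)..T, 1 / ((b : ℂ) + t * I - z)) -
    I * ∫ t in (-T)..T, 1 / ((a : ℂ) + t * I - z)) +
    ((∫ x in a..b, 1 / ((x : ℂ) - T * I - z)) - ∫ x in a..b, 1 / ((x : ℂ) + T * I - z)) = _
  rw [eR, eL, eD, eU]
  -- the four corners
  have k1 := xr_log (v := (b - z) + ((-T : ℝ) : ℂ) * I) (by simp; exact h2)
    (by simp; linarith [h3'.1])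
  have k2 := xr_log (v := -I * ((T * I - z) + (b : ℝ) * 1)) (by simp; linarith [h3'.2])
    (by simp; linarith)
  have k3 := xr_log (v := -1 * ((a - z) + (T : ℝ) * I)) (by simp; exact h1)
    (by simp; linarith [h3'.2])
  have k4 := xr_log (v := I * ((-T * I - z) + (a : ℝ) * 1)) (by simp; linarith [h3'.1])
    (by simp; linarith)
  have c1 : I * ((b - z) + ((-T : ℝ) : ℂ) * I) = I * ((-T * I - z) + (b : ℝ) * 1) := by
    push_cast
    ring
  have c2 : I * (-I * ((T * I - z) + (b : ℝ) * 1)) = (b - z) + (T : ℝ) * I := by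
    linear_combination (-(T * I - z + b)) * I_mul_I
  have c3 : I * (-1 * ((a - z) + (T : ℝ) * I)) = -I * ((T * I - z) + (a : ℝ) * 1) := by
    ring
  have c4 : I * (I * ((-T * I - z) + (a : ℝ) * 1)) = -1 * ((a - z) + ((-T : ℝ) : ℂ) * I) := by
    push_cast
    linear_combination ((-T * I - z + a)) * I_mul_I
  rw [c1] at k1
  rw [c2] at k2
  rw [c3] at k3
  rw [c4] at k4
  rw [k1, k2, k3, k4]
  ring

private theorem xr_main {a b T : ℝ} (hab : a < b) (hT : 0 < T) :
    ∀ (n : ℕ) (Z : Finset ℂ), Z.card = n → ∀ (N D : ℂ → ℂ), Differentiable ℂ N →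
    Differentiable ℂ D → (∀ z, z ∈ Z ↔ (D z = 0 ∧ a < z.re ∧ z.re < b ∧ |z.im| < T)) →
    (∀ z, D z = 0 → a ≤ z.re → z.re ≤ b → |z.im| ≤ T → z ∈ Z) → (∀ z ∈ Z, deriv D z ≠ 0) →
    xrI a b T (fun s => N s / D s) = 2 * Real.pi * I * ∑ z ∈ Z, N z / deriv D z := by
  intro n
  induction n with
  | zero =>
    intro Z hZc N D hN hD _ hbd _
    rw [Finset.card_eq_zero] at hZc
    subst hZc
    rw [Finset.sum_empty, mul_zero]
    apply xr_zero hab hT
    intro s h1 h2 h3
    have h4 : D s ≠ 0 := fun h => absurd (hbd s h h1 h2 h3) (Finset.notMem_empty s)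
    exact (hN s).div (hD s) h4
  | succ n ih =>
    intro Z hZc N D hN hD hZ hbd hs
    obtain ⟨z₀, hz₀⟩ : Z.Nonempty := by
      rw [← Finset.card_pos]
      omega
    have hz := (hZ z₀).1 hz₀
    have hs0 := hs z₀ hz₀
    set D₁ : ℂ → ℂ := dslope D z₀ with hD₁
    have hD₁d : Differentiable ℂ D₁ := by
      rw [← differentiableOn_univ]
      exact (Complex.differentiableOn_dslope Filter.univ_mem).2 hD.differentiableOn
    have hD₁0 : D₁ z₀ = deriv D z₀ := dslope_same D z₀
    have hfac : ∀ s, D s = (s - z₀) * D₁ s := by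
      intro s
      have h := sub_smul_dslope D z₀ s
      rw [smul_eq_mul, hz.1, sub_zero] at h
      exact h.symm
    have hder : ∀ w, deriv D w = D₁ w + (w - z₀) * deriv D₁ w := by
      intro w
      have h1 : D = fun s => (s - z₀) * D₁ s := funext hfac
      have h2 : HasDerivAt (fun s => (s - z₀) * D₁ s) (1 * D₁ w + (w - z₀) * deriv D₁ w) w :=
        ((hasDerivAt_id w).sub_const z₀).mul (hD₁d w).hasDerivAt
      rw [h1, h2.deriv, one_mul]
    set c : ℂ := N z₀ / D₁ z₀ with hc
    have hD₁n : D₁ z₀ ≠ 0 := by rw [hD₁0]; exact hs0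
    set P : ℂ → ℂ := fun s => N s - c * D₁ s with hP
    have hPd : Differentiable ℂ P := hN.sub (hD₁d.const_mul c)
    have hP0 : P z₀ = 0 := by
      rw [hP, hc]
      simp only
      field_simp
      ring
    set M : ℂ → ℂ := dslope P z₀ with hM
    have hMd : Differentiable ℂ M := by
      rw [← differentiableOn_univ]
      exact (Complex.differentiableOn_dslope Filter.univ_mem).2 hPd.differentiableOn
    have hMfac : ∀ s, N s - c * D₁ s = (s - z₀) * M s := by
      intro s
      have h := sub_smul_dslope P z₀ s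
      rw [smul_eq_mul, hP0, sub_zero] at h
      exact h.symm
    set Z' := Z.erase z₀ with hZ'
    have hsub : ∀ w ∈ Z', D₁ w = 0 ∧ w ≠ z₀ := by
      intro w hw
      rw [hZ', Finset.mem_erase] at hw
      have h1 := ((hZ w).1 hw.2).1
      rw [hfac w] at h1
      refine ⟨?_, hw.1⟩
      rcases mul_eq_zero.1 h1 with h | h
      · exact absurd (sub_eq_zero.1 h) hw.1
      · exact h
    have hind := ih Z' (by
      rw [hZ', Finset.card_erase_of_mem hz₀, hZc]
      rfl) M D₁ hMd hD₁d (by
      intro w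
      constructor
      · intro hw
        have h1 := hsub w hw
        rw [hZ', Finset.mem_erase] at hw
        exact ⟨h1.1, ((hZ w).1 hw.2).2⟩
      · intro hw
        rw [hZ', Finset.mem_erase]
        refine ⟨?_, (hZ w).2 ⟨by rw [hfac w, hw.1, mul_zero], hw.2⟩⟩
        rintro rfl
        exact hD₁n hw.1) (by
      intro w hw h1 h2 h3
      rw [hZ', Finset.mem_erase]
      refine ⟨?_, hbd w (by rw [hfac w, hw, mul_zero]) h1 h2 h3⟩
      rintro rfl
      exact hD₁n hw) (by
      intro w hw h1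
      have h2 := hsub w hw
      rw [hZ', Finset.mem_erase] at hw
      apply hs w hw.2
      rw [hder w, h2.1, h1, mul_zero, add_zero])
    -- nonvanishing on the boundary
    have hbn : ∀ s ∈ xrB a b T, D s ≠ 0 ∧ s - z₀ ≠ 0 ∧ D₁ s ≠ 0 := by
      intro s hsB
      have h1 : D s ≠ 0 := by
        intro h
        have h2 := (hZ s).1 (hbd s h hsB.1 hsB.2.1 hsB.2.2.1)
        rcases hsB.2.2.2 with h3 | h3 | h3
        · linarith [h2.2.1]
        · linarith [h2.2.2.1]
        · linarith [h2.2.2.2]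
      have h2 := h1
      rw [hfac s] at h2
      exact ⟨h1, left_ne_zero_of_mul h2, right_ne_zero_of_mul h2⟩
    have hstep : xrI a b T (fun s => N s / D s) =
        xrI a b T (fun s => c * (1 / (s - z₀)) + M s / D₁ s) := by
      apply xr_congr hab hT
      intro s hsB
      obtain ⟨_, h2, h3⟩ := hbn s hsB
      have h4 := hMfac s
      show N s / D s = c * (1 / (s - z₀)) + M s / D₁ s
      rw [hfac s]
      field_simp
      linear_combination h4
    rw [hstep, xr_lin hab hT c (fun s hsB => by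
      obtain ⟨_, h2, _⟩ := hbn s hsB
      exact ContinuousAt.div continuousAt_const (by fun_prop) h2) (fun s hsB => by
      obtain ⟨_, _, h3⟩ := hbn s hsB
      exact ContinuousAt.div (hMd s).continuousAt (hD₁d s).continuousAt h3),
      xr_inv hab hT hz.2.1 hz.2.2.1 hz.2.2.2, hind]
    have hsum : ∑ w ∈ Z', M w / deriv D₁ w = ∑ w ∈ Z', N w / deriv D w := by
      apply Finset.sum_congr rfl
      intro w hw
      have h1 := hsub w hw
      have h2 := hMfac w
      rw [h1.1, mul_zero, sub_zero] at h2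
      have h3 : w - z₀ ≠ 0 := sub_ne_zero.2 h1.2
      rw [hder w, h1.1, zero_add, h2]
      rw [mul_div_mul_left _ _ h3]
    rw [hsum, ← Finset.add_sum_erase Z _ hz₀, ← hZ', hc, hD₁0]
    ring

theorem rect_residue {N D : ℂ → ℂ} (hN : Differentiable ℂ N) (hD : Differentiable ℂ D)
    {a b T : ℝ} (hab : a < b) (hT : 0 < T) (Z : Finset ℂ)
    (hZ : ∀ z, z ∈ Z ↔ (D z = 0 ∧ a < z.re ∧ z.re < b ∧ |z.im| < T))
    (hbd : ∀ z, D z = 0 → a ≤ z.re → z.re ≤ b → |z.im| ≤ T → z ∈ Z)
    (hs : ∀ z ∈ Z, deriv D z ≠ 0) :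
    (I * (∫ t in (-T)..T, N (b + t * I) / D (b + t * I)) -
      I * ∫ t in (-T)..T, N (a + t * I) / D (a + t * I)) +
      ((∫ x in a..b, N (x - T * I) / D (x - T * I)) - ∫ x in a..b, N (x + T * I) / D (x + T * I)) =
      2 * Real.pi * I * ∑ z ∈ Z, N z / deriv D z :=
  xr_main hab hT Z.card Z rfl N D hN hD hZ hbd hs

end Pool.Agent.ZR
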